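import Pool.Agent.S3.Ck.Vd

/-!
# The verticals
-/

set_option autoImplicit false

namespace Pool.Agent.S3.Ck

theorem cu_3_25 : -Real.cos (2 * (Real.pi * (3 / 25))) ≤ R 0 - R 764377 := by
  have h1 := Real.pi_gt_d6
  have h2 := Real.pi_lt_d6
  refine negcos_le (x := -8168139 / 10000000) (by norm_num) (by linarith) ?_ ?_
  · rw [abs_le]; constructor <;> norm_num
  · norm_num [sP, R]

theorem cu_4_25 : -Real.cos (2 * (Real.pi * (4 / 25))) ≤ R 0 - R 561853 := by
  have h1 := Real.pi_gt_d6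
  have h2 := Real.pi_lt_d6
  refine negcos_le (x := -1130973 / 2000000) (by norm_num) (by linarith) ?_ ?_
  · rw [abs_le]; constructor <;> norm_num
  · norm_num [sP, R]

theorem cu_1_5 : -Real.cos (2 * (Real.pi * (1 / 5))) ≤ R 0 - R 324025 := by
  have h1 := Real.pi_gt_d6
  have h2 := Real.pi_lt_d6
  refine negcos_le (x := -392699 / 1250000) (by norm_num) (by linarith) ?_ ?_
  · rw [abs_le]; constructor <;> norm_num
  · norm_num [sP, R]

theorem cu_6_25 : -Real.cos (2 * (Real.pi * (6 / 25))) ≤ R 0 - R 65838 := by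
  have h1 := Real.pi_gt_d6
  have h2 := Real.pi_lt_d6
  refine negcos_le (x := -314159 / 5000000) (by norm_num) (by linarith) ?_ ?_
  · rw [abs_le]; constructor <;> norm_num
  · norm_num [sP, R]

theorem cu_7_25 : -Real.cos (2 * (Real.pi * (7 / 25))) ≤ R 196486 - R 0 := by
  have h1 := Real.pi_gt_d6
  have h2 := Real.pi_lt_d6
  refine negcos_le (x := 471239 / 2500000) (by norm_num) (by linarith) ?_ ?_
  · rw [abs_le]; constructor <;> norm_num
  · norm_num [sP, R]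

theorem cu_29_100 : -Real.cos (2 * (Real.pi * (29 / 100))) ≤ R 260773 - R 0 := by
  have h1 := Real.pi_gt_d6
  have h2 := Real.pi_lt_d6
  refine negcos_le (x := 100531 / 400000) (by norm_num) (by linarith) ?_ ?_
  · rw [abs_le]; constructor <;> norm_num
  · norm_num [sP, R]

theorem cu_59_200 : -Real.cos (2 * (Real.pi * (59 / 200))) ≤ R 292546 - R 0 := by
  have h1 := Real.pi_gt_d6
  have h2 := Real.pi_lt_d6
  refine negcos_le (x := 1413717 / 5000000) (by norm_num) (by linarith) ?_ ?_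
  · rw [abs_le]; constructor <;> norm_num
  · norm_num [sP, R]

theorem cu_3_10 : -Real.cos (2 * (Real.pi * (3 / 10))) ≤ R 324030 - R 0 := by
  have h1 := Real.pi_gt_d6
  have h2 := Real.pi_lt_d6
  refine negcos_le (x := 3141593 / 10000000) (by norm_num) (by linarith) ?_ ?_
  · rw [abs_le]; constructor <;> norm_num
  · norm_num [sP, R]

theorem cu_61_200 : -Real.cos (2 * (Real.pi * (61 / 200))) ≤ R 355195 - R 0 := by
  have h1 := Real.pi_gt_d6
  have h2 := Real.pi_lt_d6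
  refine negcos_le (x := 3455753 / 10000000) (by norm_num) (by linarith) ?_ ?_
  · rw [abs_le]; constructor <;> norm_num
  · norm_num [sP, R]

theorem cu_31_100 : -Real.cos (2 * (Real.pi * (31 / 100))) ≤ R 386009 - R 0 := by
  have h1 := Real.pi_gt_d6
  have h2 := Real.pi_lt_d6
  refine negcos_le (x := 471239 / 1250000) (by norm_num) (by linarith) ?_ ?_
  · rw [abs_le]; constructor <;> norm_num
  · norm_num [sP, R]

theorem cu_63_200 : -Real.cos (2 * (Real.pi * (63 / 200))) ≤ R 416442 - R 0 := by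
  have h1 := Real.pi_gt_d6
  have h2 := Real.pi_lt_d6
  refine negcos_le (x := 4084071 / 10000000) (by norm_num) (by linarith) ?_ ?_
  · rw [abs_le]; constructor <;> norm_num
  · norm_num [sP, R]

theorem cu_8_25 : -Real.cos (2 * (Real.pi * (8 / 25))) ≤ R 446464 - R 0 := by
  have h1 := Real.pi_gt_d6
  have h2 := Real.pi_lt_d6
  refine negcos_le (x := 4398231 / 10000000) (by norm_num) (by linarith) ?_ ?_
  · rw [abs_le]; constructor <;> norm_num
  · norm_num [sP, R]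

theorem cu_643_2000 : -Real.cos (2 * (Real.pi * (643 / 2000))) ≤ R 455387 - R 0 := by
  have h1 := Real.pi_gt_d6
  have h2 := Real.pi_lt_d6
  refine negcos_le (x := 2246239 / 5000000) (by norm_num) (by linarith) ?_ ?_
  · rw [abs_le]; constructor <;> norm_num
  · norm_num [sP, R]

theorem cu_81_250 : -Real.cos (2 * (Real.pi * (81 / 250))) ≤ R 470166 - R 0 := by
  have h1 := Real.pi_gt_d6
  have h2 := Real.pi_lt_d6
  refine negcos_le (x := 2324779 / 5000000) (by norm_num) (by linarith) ?_ ?_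
  · rw [abs_le]; constructor <;> norm_num
  · norm_num [sP, R]

theorem cu_13_40 : -Real.cos (2 * (Real.pi * (13 / 40))) ≤ R 476046 - R 0 := by
  have h1 := Real.pi_gt_d6
  have h2 := Real.pi_lt_d6
  refine negcos_le (x := 471239 / 1000000) (by norm_num) (by linarith) ?_ ?_
  · rw [abs_le]; constructor <;> norm_num
  · norm_num [sP, R]

theorem cu_41_125 : -Real.cos (2 * (Real.pi * (41 / 125))) ≤ R 493571 - R 0 := by
  have h1 := Real.pi_gt_d6
  have h2 := Real.pi_lt_d6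
  refine negcos_le (x := 2450443 / 5000000) (by norm_num) (by linarith) ?_ ?_
  · rw [abs_le]; constructor <;> norm_num
  · norm_num [sP, R]

theorem cu_67_200 : -Real.cos (2 * (Real.pi * (67 / 200))) ≤ R 533771 - R 0 := by
  have h1 := Real.pi_gt_d6
  have h2 := Real.pi_lt_d6
  refine negcos_le (x := 5340709 / 10000000) (by norm_num) (by linarith) ?_ ?_
  · rw [abs_le]; constructor <;> norm_num
  · norm_num [sP, R]

theorem cu_671_2000 : -Real.cos (2 * (Real.pi * (671 / 2000))) ≤ R 536604 - R 0 := by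
  have h1 := Real.pi_gt_d6
  have h2 := Real.pi_lt_d6
  refine negcos_le (x := 42977 / 80000) (by norm_num) (by linarith) ?_ ?_
  · rw [abs_le]; constructor <;> norm_num
  · norm_num [sP, R]

theorem cu_693_2000 : -Real.cos (2 * (Real.pi * (693 / 2000))) ≤ R 597537 - R 0 := by
  have h1 := Real.pi_gt_d6
  have h2 := Real.pi_lt_d6
  refine negcos_le (x := 242531 / 400000) (by norm_num) (by linarith) ?_ ?_
  · rw [abs_le]; constructor <;> norm_num
  · norm_num [sP, R]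

theorem cu_71_200 : -Real.cos (2 * (Real.pi * (71 / 200))) ≤ R 642682 - R 0 := by
  have h1 := Real.pi_gt_d6
  have h2 := Real.pi_lt_d6
  refine negcos_le (x := 3298673 / 5000000) (by norm_num) (by linarith) ?_ ?_
  · rw [abs_le]; constructor <;> norm_num
  · norm_num [sP, R]

theorem cu_361_1000 : -Real.cos (2 * (Real.pi * (361 / 1000))) ≤ R 673453 - R 0 := by
  have h1 := Real.pi_gt_d6
  have h2 := Real.pi_lt_d6
  refine negcos_le (x := 6974337 / 10000000) (by norm_num) (by linarith) ?_ ?_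
  · rw [abs_le]; constructor <;> norm_num
  · norm_num [sP, R]

theorem cu_73_200 : -Real.cos (2 * (Real.pi * (73 / 200))) ≤ R 693438 - R 0 := by
  have h1 := Real.pi_gt_d6
  have h2 := Real.pi_lt_d6
  refine negcos_le (x := 112901 / 156250) (by norm_num) (by linarith) ?_ ?_
  · rw [abs_le]; constructor <;> norm_num
  · norm_num [sP, R]

theorem cu_3_8 : -Real.cos (2 * (Real.pi * (3 / 8))) ≤ R 741458 - R 0 := by
  have h1 := Real.pi_gt_d6
  have h2 := Real.pi_lt_d6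
  refine negcos_le (x := 7853983 / 10000000) (by norm_num) (by linarith) ?_ ?_
  · rw [abs_le]; constructor <;> norm_num
  · norm_num [sP, R]

theorem cu_19_50 : -Real.cos (2 * (Real.pi * (19 / 50))) ≤ R 764382 - R 0 := by
  have h1 := Real.pi_gt_d6
  have h2 := Real.pi_lt_d6
  refine negcos_le (x := 4084071 / 5000000) (by norm_num) (by linarith) ?_ ?_
  · rw [abs_le]; constructor <;> norm_num
  · norm_num [sP, R]

theorem cu_77_200 : -Real.cos (2 * (Real.pi * (77 / 200))) ≤ R 786551 - R 0 := by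
  have h1 := Real.pi_gt_d6
  have h2 := Real.pi_lt_d6
  refine negcos_le (x := 4241151 / 5000000) (by norm_num) (by linarith) ?_ ?_
  · rw [abs_le]; constructor <;> norm_num
  · norm_num [sP, R]

theorem cu_39_100 : -Real.cos (2 * (Real.pi * (39 / 100))) ≤ R 807944 - R 0 := by
  have h1 := Real.pi_gt_d6
  have h2 := Real.pi_lt_d6
  refine negcos_le (x := 8796461 / 10000000) (by norm_num) (by linarith) ?_ ?_
  · rw [abs_le]; constructor <;> norm_num
  · norm_num [sP, R]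

theorem cu_2_5 : -Real.cos (2 * (Real.pi * (2 / 5))) ≤ R 848318 - R 0 := by
  have h1 := Real.pi_gt_d6
  have h2 := Real.pi_lt_d6
  refine negcos_le (x := 9424779 / 10000000) (by norm_num) (by linarith) ?_ ?_
  · rw [abs_le]; constructor <;> norm_num
  · norm_num [sP, R]

theorem cl_39_400 : R 0 - R 857895 ≤ -Real.cos (2 * (Real.pi * (39 / 400))) := by
  have h1 := Real.pi_gt_d6
  have h2 := Real.pi_lt_d6
  refine negcos_ge (x := -9581859 / 10000000) (by norm_num) (by linarith) ?_ ?_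
  · rw [abs_le]; constructor <;> norm_num
  · norm_num [sP, R]

theorem cl_3_25 : R 0 - R 764382 ≤ -Real.cos (2 * (Real.pi * (3 / 25))) := by
  have h1 := Real.pi_gt_d6
  have h2 := Real.pi_lt_d6
  refine negcos_ge (x := -4084071 / 5000000) (by norm_num) (by linarith) ?_ ?_
  · rw [abs_le]; constructor <;> norm_num
  · norm_num [sP, R]

theorem cl_3_20 : R 0 - R 616340 ≤ -Real.cos (2 * (Real.pi * (3 / 20))) := by
  have h1 := Real.pi_gt_d6
  have h2 := Real.pi_lt_d6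
  refine negcos_ge (x := -3141593 / 5000000) (by norm_num) (by linarith) ?_ ?_
  · rw [abs_le]; constructor <;> norm_num
  · norm_num [sP, R]

theorem cl_4_25 : R 0 - R 561858 ≤ -Real.cos (2 * (Real.pi * (4 / 25))) := by
  have h1 := Real.pi_gt_d6
  have h2 := Real.pi_lt_d6
  refine negcos_ge (x := -1413717 / 2500000) (by norm_num) (by linarith) ?_ ?_
  · rw [abs_le]; constructor <;> norm_num
  · norm_num [sP, R]

theorem cl_9_50 : R 0 - R 446464 ≤ -Real.cos (2 * (Real.pi * (9 / 50))) := by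
  have h1 := Real.pi_gt_d6
  have h2 := Real.pi_lt_d6
  refine negcos_ge (x := -4398231 / 10000000) (by norm_num) (by linarith) ?_ ?_
  · rw [abs_le]; constructor <;> norm_num
  · norm_num [sP, R]

theorem cl_1_5 : R 0 - R 324030 ≤ -Real.cos (2 * (Real.pi * (1 / 5))) := by
  have h1 := Real.pi_gt_d6
  have h2 := Real.pi_lt_d6
  refine negcos_ge (x := -3141593 / 10000000) (by norm_num) (by linarith) ?_ ?_
  · rw [abs_le]; constructor <;> norm_num
  · norm_num [sP, R]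

theorem cl_11_50 : R 0 - R 196486 ≤ -Real.cos (2 * (Real.pi * (11 / 50))) := by
  have h1 := Real.pi_gt_d6
  have h2 := Real.pi_lt_d6
  refine negcos_ge (x := -471239 / 2500000) (by norm_num) (by linarith) ?_ ?_
  · rw [abs_le]; constructor <;> norm_num
  · norm_num [sP, R]

theorem cl_47_200 : R 0 - R 98682 ≤ -Real.cos (2 * (Real.pi * (47 / 200))) := by
  have h1 := Real.pi_gt_d6
  have h2 := Real.pi_lt_d6
  refine negcos_ge (x := -471239 / 5000000) (by norm_num) (by linarith) ?_ ?_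
  · rw [abs_le]; constructor <;> norm_num
  · norm_num [sP, R]

theorem cl_6_25 : R 0 - R 65843 ≤ -Real.cos (2 * (Real.pi * (6 / 25))) := by
  have h1 := Real.pi_gt_d6
  have h2 := Real.pi_lt_d6
  refine negcos_ge (x := -628319 / 10000000) (by norm_num) (by linarith) ?_ ?_
  · rw [abs_le]; constructor <;> norm_num
  · norm_num [sP, R]

theorem cl_1_4 : R 0 - R 3 ≤ -Real.cos (2 * (Real.pi * (1 / 4))) := by
  have h1 := Real.pi_gt_d6
  have h2 := Real.pi_lt_d6
  refine negcos_ge (x := 0) (by norm_num) (by linarith) ?_ ?_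
  · rw [abs_le]; constructor <;> norm_num
  · norm_num [sP, R]

theorem cl_7_25 : R 196481 - R 0 ≤ -Real.cos (2 * (Real.pi * (7 / 25))) := by
  have h1 := Real.pi_gt_d6
  have h2 := Real.pi_lt_d6
  refine negcos_ge (x := 376991 / 2000000) (by norm_num) (by linarith) ?_ ?_
  · rw [abs_le]; constructor <;> norm_num
  · norm_num [sP, R]

theorem cl_29_100 : R 260768 - R 0 ≤ -Real.cos (2 * (Real.pi * (29 / 100))) := by
  have h1 := Real.pi_gt_d6
  have h2 := Real.pi_lt_d6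
  refine negcos_ge (x := 2513273 / 10000000) (by norm_num) (by linarith) ?_ ?_
  · rw [abs_le]; constructor <;> norm_num
  · norm_num [sP, R]

theorem cl_59_200 : R 292541 - R 0 ≤ -Real.cos (2 * (Real.pi * (59 / 200))) := by
  have h1 := Real.pi_gt_d6
  have h2 := Real.pi_lt_d6
  refine negcos_ge (x := 353429 / 1250000) (by norm_num) (by linarith) ?_ ?_
  · rw [abs_le]; constructor <;> norm_num
  · norm_num [sP, R]

theorem cl_3_10 : R 324025 - R 0 ≤ -Real.cos (2 * (Real.pi * (3 / 10))) := by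
  have h1 := Real.pi_gt_d6
  have h2 := Real.pi_lt_d6
  refine negcos_ge (x := 392699 / 1250000) (by norm_num) (by linarith) ?_ ?_
  · rw [abs_le]; constructor <;> norm_num
  · norm_num [sP, R]

theorem cl_61_200 : R 355190 - R 0 ≤ -Real.cos (2 * (Real.pi * (61 / 200))) := by
  have h1 := Real.pi_gt_d6
  have h2 := Real.pi_lt_d6
  refine negcos_ge (x := 3455751 / 10000000) (by norm_num) (by linarith) ?_ ?_
  · rw [abs_le]; constructor <;> norm_num
  · norm_num [sP, R]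

theorem cl_31_100 : R 386004 - R 0 ≤ -Real.cos (2 * (Real.pi * (31 / 100))) := by
  have h1 := Real.pi_gt_d6
  have h2 := Real.pi_lt_d6
  refine negcos_ge (x := 376991 / 1000000) (by norm_num) (by linarith) ?_ ?_
  · rw [abs_le]; constructor <;> norm_num
  · norm_num [sP, R]

theorem cl_63_200 : R 416437 - R 0 ≤ -Real.cos (2 * (Real.pi * (63 / 200))) := by
  have h1 := Real.pi_gt_d6
  have h2 := Real.pi_lt_d6
  refine negcos_ge (x := 4084069 / 10000000) (by norm_num) (by linarith) ?_ ?_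
  · rw [abs_le]; constructor <;> norm_num
  · norm_num [sP, R]

theorem cl_8_25 : R 446459 - R 0 ≤ -Real.cos (2 * (Real.pi * (8 / 25))) := by
  have h1 := Real.pi_gt_d6
  have h2 := Real.pi_lt_d6
  refine negcos_ge (x := 1099557 / 2500000) (by norm_num) (by linarith) ?_ ?_
  · rw [abs_le]; constructor <;> norm_num
  · norm_num [sP, R]

theorem cl_13_40 : R 476041 - R 0 ≤ -Real.cos (2 * (Real.pi * (13 / 40))) := by
  have h1 := Real.pi_gt_d6
  have h2 := Real.pi_lt_d6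
  refine negcos_ge (x := 1178097 / 2500000) (by norm_num) (by linarith) ?_ ?_
  · rw [abs_le]; constructor <;> norm_num
  · norm_num [sP, R]

theorem cl_67_200 : R 533766 - R 0 ≤ -Real.cos (2 * (Real.pi * (67 / 200))) := by
  have h1 := Real.pi_gt_d6
  have h2 := Real.pi_lt_d6
  refine negcos_ge (x := 2670353 / 5000000) (by norm_num) (by linarith) ?_ ?_
  · rw [abs_le]; constructor <;> norm_num
  · norm_num [sP, R]

theorem cl_71_200 : R 642677 - R 0 ≤ -Real.cos (2 * (Real.pi * (71 / 200))) := by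
  have h1 := Real.pi_gt_d6
  have h2 := Real.pi_lt_d6
  refine negcos_ge (x := 6597343 / 10000000) (by norm_num) (by linarith) ?_ ?_
  · rw [abs_le]; constructor <;> norm_num
  · norm_num [sP, R]

theorem cl_73_200 : R 693433 - R 0 ≤ -Real.cos (2 * (Real.pi * (73 / 200))) := by
  have h1 := Real.pi_gt_d6
  have h2 := Real.pi_lt_d6
  refine negcos_ge (x := 7225661 / 10000000) (by norm_num) (by linarith) ?_ ?_
  · rw [abs_le]; constructor <;> norm_num
  · norm_num [sP, R]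

theorem cl_3_8 : R 741453 - R 0 ≤ -Real.cos (2 * (Real.pi * (3 / 8))) := by
  have h1 := Real.pi_gt_d6
  have h2 := Real.pi_lt_d6
  refine negcos_ge (x := 392699 / 500000) (by norm_num) (by linarith) ?_ ?_
  · rw [abs_le]; constructor <;> norm_num
  · norm_num [sP, R]

theorem cl_77_200 : R 786546 - R 0 ≤ -Real.cos (2 * (Real.pi * (77 / 200))) := by
  have h1 := Real.pi_gt_d6
  have h2 := Real.pi_lt_d6
  refine negcos_ge (x := 4241149 / 5000000) (by norm_num) (by linarith) ?_ ?_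
  · rw [abs_le]; constructor <;> norm_num
  · norm_num [sP, R]

theorem cl_39_100 : R 807939 - R 0 ≤ -Real.cos (2 * (Real.pi * (39 / 100))) := by
  have h1 := Real.pi_gt_d6
  have h2 := Real.pi_lt_d6
  refine negcos_ge (x := 8796457 / 10000000) (by norm_num) (by linarith) ?_ ?_
  · rw [abs_le]; constructor <;> norm_num
  · norm_num [sP, R]

/-- The joint range condition. -/
structure J3 (t k : ℝ) : Prop where
  j1 : k ≤ 1 / 10 ∨ t ≤ 94 / 100
  j2 : k ≤ 1 / 5 ∨ t ≤ 85 / 100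
  j3 : k ≤ 1 / 4 ∨ t ≤ 81 / 100
  j4 : k ≤ 3 / 10 ∨ t ≤ 775 / 1000
  j5 : k ≤ 7 / 20 ∨ t ≤ 745 / 1000
  j6 : k ≤ 2 / 5 ∨ t ≤ 715 / 1000
  j7 : k ≤ 9 / 20 ∨ t ≤ 69 / 100
  j8 : k ≤ 1 / 2 ∨ t ≤ 67 / 100
  j9 : k ≤ 11 / 20 ∨ t ≤ 65 / 100
  j10 : k ≤ 3 / 5 ∨ t ≤ 635 / 1000

/-- The boxes, second vertex with at least three twists. -/
theorem J3.c23 {t k : ℝ} (j : J3 t k) (ht : t < 1) (hk : k ≤ 53 / 147) :
    (t ≤ 1 ∧ k ≤ 1 / 10) ∨ (t ≤ 47 / 50 ∧ k ≤ 1 / 5) ∨ (t ≤ 17 / 20 ∧ k ≤ 1 / 4) ∨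
      (t ≤ 81 / 100 ∧ k ≤ 3 / 10) ∨ (t ≤ 31 / 40 ∧ k ≤ 7 / 20) ∨
      (t ≤ 149 / 200 ∧ k ≤ 53 / 147) := by
  rcases j.j1 with h | h
  · exact Or.inl ⟨ht.le, h⟩
  rcases j.j2 with h1 | h1
  · exact Or.inr (Or.inl ⟨by linarith, h1⟩)
  rcases j.j3 with h2 | h2
  · exact Or.inr (Or.inr (Or.inl ⟨by linarith, h2⟩))
  rcases j.j4 with h3 | h3
  · exact Or.inr (Or.inr (Or.inr (Or.inl ⟨by linarith, h3⟩)))
  rcases j.j5 with h4 | h4
  · exact Or.inr (Or.inr (Or.inr (Or.inr (Or.inl ⟨by linarith, h4⟩))))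
  · exact Or.inr (Or.inr (Or.inr (Or.inr (Or.inr ⟨by linarith, hk⟩))))

/-- The boxes, two vertices with two twists, first half. -/
theorem J3.c22a {t k : ℝ} (j : J3 t k) (ht : t < 1) (hk : k ≤ 3 / 5) :
    (t ≤ 1 ∧ k ≤ 1 / 10) ∨ (t ≤ 47 / 50 ∧ k ≤ 1 / 5) ∨ (t ≤ 17 / 20 ∧ k ≤ 1 / 4) ∨
      (t ≤ 81 / 100 ∧ k ≤ 3 / 10) ∨ (t ≤ 31 / 40 ∧ k ≤ 7 / 20) ∨
      (t ≤ 149 / 200 ∧ k ≤ 2 / 5) ∨ (t ≤ 143 / 200 ∧ k ≤ 9 / 20) ∨
      (t ≤ 69 / 100 ∧ k ≤ 1 / 2) ∨ (t ≤ 67 / 100 ∧ k ≤ 11 / 20) ∨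
      (t ≤ 13 / 20 ∧ k ≤ 3 / 5) := by
  rcases j.j1 with h | h
  · exact Or.inl ⟨ht.le, h⟩
  rcases j.j2 with h1 | h1
  · exact Or.inr (Or.inl ⟨by linarith, h1⟩)
  rcases j.j3 with h2 | h2
  · exact Or.inr (Or.inr (Or.inl ⟨by linarith, h2⟩))
  rcases j.j4 with h3 | h3
  · exact Or.inr (Or.inr (Or.inr (Or.inl ⟨by linarith, h3⟩)))
  rcases j.j5 with h4 | h4
  · exact Or.inr (Or.inr (Or.inr (Or.inr (Or.inl ⟨by linarith, h4⟩))))
  rcases j.j6 with h5 | h5
  · exact Or.inr (Or.inr (Or.inr (Or.inr (Or.inr (Or.inl ⟨by linarith, h5⟩)))))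
  rcases j.j7 with h6 | h6
  · exact Or.inr (Or.inr (Or.inr (Or.inr (Or.inr (Or.inr (Or.inl ⟨by linarith, h6⟩))))))
  rcases j.j8 with h7 | h7
  · exact Or.inr (Or.inr (Or.inr (Or.inr (Or.inr (Or.inr (Or.inr (Or.inl ⟨by linarith, h7⟩)))))))
  rcases j.j9 with h8 | h8
  · exact Or.inr (Or.inr (Or.inr (Or.inr (Or.inr (Or.inr (Or.inr (Or.inr (Or.inl
      ⟨by linarith, h8⟩))))))))
  · exact Or.inr (Or.inr (Or.inr (Or.inr (Or.inr (Or.inr (Or.inr (Or.inr (Or.inr
      ⟨by linarith, hk⟩))))))))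

/-- The boxes, two vertices with two twists. -/
theorem J3.c22 {t k : ℝ} (j : J3 t k) (j' : J3 k t) (ht : t < 1) (hk : k < 1) :
    ((t ≤ 1 ∧ k ≤ 1 / 10) ∨ (t ≤ 47 / 50 ∧ k ≤ 1 / 5) ∨ (t ≤ 17 / 20 ∧ k ≤ 1 / 4) ∨
      (t ≤ 81 / 100 ∧ k ≤ 3 / 10) ∨ (t ≤ 31 / 40 ∧ k ≤ 7 / 20) ∨
      (t ≤ 149 / 200 ∧ k ≤ 2 / 5) ∨ (t ≤ 143 / 200 ∧ k ≤ 9 / 20) ∨
      (t ≤ 69 / 100 ∧ k ≤ 1 / 2) ∨ (t ≤ 67 / 100 ∧ k ≤ 11 / 20) ∨
      (t ≤ 13 / 20 ∧ k ≤ 3 / 5)) ∨
    ((k ≤ 1 ∧ t ≤ 1 / 10) ∨ (k ≤ 47 / 50 ∧ t ≤ 1 / 5) ∨ (k ≤ 17 / 20 ∧ t ≤ 1 / 4) ∨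
      (k ≤ 81 / 100 ∧ t ≤ 3 / 10) ∨ (k ≤ 31 / 40 ∧ t ≤ 7 / 20) ∨
      (k ≤ 149 / 200 ∧ t ≤ 2 / 5) ∨ (k ≤ 143 / 200 ∧ t ≤ 9 / 20) ∨
      (k ≤ 69 / 100 ∧ t ≤ 1 / 2) ∨ (k ≤ 67 / 100 ∧ t ≤ 11 / 20) ∨
      (k ≤ 13 / 20 ∧ t ≤ 3 / 5)) ∨ (t ≤ 127 / 200 ∧ k ≤ 127 / 200) := by
  rcases le_or_gt k (3 / 5) with h | h
  · exact Or.inl (j.c22a ht h)
  rcases le_or_gt t (3 / 5) with h1 | h1
  · exact Or.inr (Or.inl (j'.c22a hk h1))
  rcases j.j10 with h2 | h2
  · linarith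
  rcases j'.j10 with h3 | h3
  · linarith
  exact Or.inr (Or.inr ⟨by linarith, by linarith⟩)

end Pool.Agent.S3.Ck
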