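import Pool.Agent.S3.Ck.Cos

/-!
# The verticals, second part
-/

set_option autoImplicit false

namespace Pool.Agent.S3.Ck

theorem cu_333_1000 : -Real.cos (2 * (Real.pi * (333 / 1000))) ≤ R 522387 - R 0 := by
  have h1 := Real.pi_gt_d6
  have h2 := Real.pi_lt_d6
  refine negcos_le (x := 1043009 / 2000000) (by norm_num) (by linarith) ?_ ?_
  · rw [abs_le]; constructor <;> norm_num
  · norm_num [sP, R]

theorem cu_169_500 : -Real.cos (2 * (Real.pi * (169 / 500))) ≤ R 550688 - R 0 := by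
  have h1 := Real.pi_gt_d6
  have h2 := Real.pi_lt_d6
  refine negcos_le (x := 1382301 / 2500000) (by norm_num) (by linarith) ?_ ?_
  · rw [abs_le]; constructor <;> norm_num
  · norm_num [sP, R]

theorem cu_173_500 : -Real.cos (2 * (Real.pi * (173 / 500))) ≤ R 594827 - R 0 := by
  have h1 := Real.pi_gt_d6
  have h2 := Real.pi_lt_d6
  refine negcos_le (x := 6031859 / 10000000) (by norm_num) (by linarith) ?_ ?_
  · rw [abs_le]; constructor <;> norm_num
  · norm_num [sP, R]

theorem cu_357_1000 : -Real.cos (2 * (Real.pi * (357 / 1000))) ≤ R 653043 - R 0 := by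
  have h1 := Real.pi_gt_d6
  have h2 := Real.pi_lt_d6
  refine negcos_le (x := 672301 / 1000000) (by norm_num) (by linarith) ?_ ?_
  · rw [abs_le]; constructor <;> norm_num
  · norm_num [sP, R]

theorem cu_93_250 : -Real.cos (2 * (Real.pi * (93 / 250))) ≤ R 727351 - R 0 := by
  have h1 := Real.pi_gt_d6
  have h2 := Real.pi_lt_d6
  refine negcos_le (x := 7665487 / 10000000) (by norm_num) (by linarith) ?_ ?_
  · rw [abs_le]; constructor <;> norm_num
  · norm_num [sP, R]

/-- The boxes, second vertex with at least three twists and `k ≤ 1/4`. -/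
theorem J3.ck {t k : ℝ} (j : J3 t k) (ht : t < 1) (hk : k ≤ 1 / 4) :
    (t ≤ 1 ∧ k ≤ 1 / 10) ∨ (t ≤ 47 / 50 ∧ k ≤ 1 / 5) ∨ (t ≤ 17 / 20 ∧ k ≤ 1 / 4) := by
  rcases j.j1 with h | h
  · exact Or.inl ⟨ht.le, h⟩
  rcases j.j2 with h1 | h1
  · exact Or.inr (Or.inl ⟨by linarith, h1⟩)
  · exact Or.inr (Or.inr ⟨by linarith, hk⟩)

end Pool.Agent.S3.Ck
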