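import Pool.Agent.S3.Ck.Vd

/-!
# The verticals, third part
-/

set_option autoImplicit false

namespace Pool.Agent.S3.Ck

theorem cu_69_200 : -Real.cos (2 * (Real.pi * (69 / 200))) ≤ R 589390 - R 0 := by
  have h1 := Real.pi_gt_d6
  have h2 := Real.pi_lt_d6
  refine negcos_le (x := 5969027 / 10000000) (by norm_num) (by linarith) ?_ ?_
  · rw [abs_le]; constructor <;> norm_num
  · norm_num [sP, R]

theorem cu_199_500 : -Real.cos (2 * (Real.pi * (199 / 500))) ≤ R 840506 - R 0 := by
  have h1 := Real.pi_gt_d6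
  have h2 := Real.pi_lt_d6
  refine negcos_le (x := 2324779 / 2500000) (by norm_num) (by linarith) ?_ ?_
  · rw [abs_le]; constructor <;> norm_num
  · norm_num [sP, R]

theorem cl_69_200 : R 589385 - R 0 ≤ -Real.cos (2 * (Real.pi * (69 / 200))) := by
  have h1 := Real.pi_gt_d6
  have h2 := Real.pi_lt_d6
  refine negcos_ge (x := 46633 / 78125) (by norm_num) (by linarith) ?_ ?_
  · rw [abs_le]; constructor <;> norm_num
  · norm_num [sP, R]

theorem cl_19_50 : R 764377 - R 0 ≤ -Real.cos (2 * (Real.pi * (19 / 50))) := by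
  have h1 := Real.pi_gt_d6
  have h2 := Real.pi_lt_d6
  refine negcos_ge (x := 8168139 / 10000000) (by norm_num) (by linarith) ?_ ?_
  · rw [abs_le]; constructor <;> norm_num
  · norm_num [sP, R]

end Pool.Agent.S3.Ck
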