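import Pool.Agent.S3.Ck.SoundF

/-!
# Soundness of the checker: scaling a pair to a face of the region
-/

set_option autoImplicit false

namespace Pool.Agent.S3.Ck

open Complex

section

variable {c mp mn lp ln : ℕ} {a C S : ℝ}

theorem Pt.m2 (H : Pt c mp mn lp ln a C S) : 0 ≤ 1 - (R mp - R mn) ^ 2 := by
  have h1 := R_lt1 H.k2
  have h2 := R_lt1 H.k3
  have h3 := R_nonneg mp
  have h4 := R_nonneg mn
  nlinarith

theorem Pt.l2 (H : Pt c mp mn lp ln a C S) (h : ln < 1048576) : 0 < 1 - (R lp - R ln) ^ 2 := by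
  have h1 := R_lt1 H.k4
  have h2 := R_lt1 h
  have h3 := R_nonneg lp
  have h4 := R_nonneg ln
  nlinarith

/-- The factor to the hyperbola. -/
theorem Pt.facH (H : Pt c mp mn lp ln a C S) : ∃ s : ℝ, 0 < s ∧ s ≤ 1 ∧
    2 * (s * a) * (C - R c) = 1 - R c ^ 2 := by
  have h1 := H.Cgt
  have h2 := H.ha
  have h3 := R_lt1 H.k1
  have h4 := R_nonneg c
  have h5 : 0 < C - R c := by linarith
  have h6 : 0 < 2 * a * (C - R c) := by positivity
  have h7 : 0 < 1 - R c ^ 2 := by nlinarith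
  refine ⟨(1 - R c ^ 2) / (2 * a * (C - R c)), by positivity, ?_, ?_⟩
  · rw [div_le_one h6]
    exact H.hy
  · have : a ≠ 0 := h2.ne'
    have : C - R c ≠ 0 := h5.ne'
    field_simp

/-- The factor to the lower vertical. -/
theorem Pt.facV (H : Pt c mp mn lp ln a C S) : ∃ s : ℝ, s ≤ 1 ∧
    ((∀ s', s ≤ s' → 2 * (C + (R lp - R ln)) ≤ (s' * a) * (1 - (R lp - R ln) ^ 2)) ∧
      (s ≤ 0 ∨ (ln < 1048576 ∧
        (s * a) * (1 - (R lp - R ln) ^ 2) = 2 * (C + (R lp - R ln))))) := by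
  have ha := H.ha
  rcases H.k5.lt_or_eq with h | h
  · have h1 := H.l2 h
    have hd : 0 < a * (1 - (R lp - R ln) ^ 2) := by positivity
    refine ⟨2 * (C + (R lp - R ln)) / (a * (1 - (R lp - R ln) ^ 2)), ?_, ?_, Or.inr ⟨h, ?_⟩⟩
    · rw [div_le_one hd]
      exact H.lo
    · intro s' hs'
      rw [div_le_iff₀ hd] at hs'
      linarith
    · have h2 : a ≠ 0 := ha.ne'
      have h3 : 1 - (R lp - R ln) ^ 2 ≠ 0 := h1.ne'
      rw [mul_assoc, div_mul_cancel₀ _ hd.ne']
  · refine ⟨0, zero_le_one, ?_, Or.inl le_rfl⟩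
    intro s' _
    have h0 : lp = 0 := by
      rcases H.k7 with h1 | h1
      · exact h1
      · omega
    have e0 : R 0 = 0 := by simp [R]
    rw [h, h0, R_one, e0]
    have := H.Cle
    nlinarith

theorem Pt.scale (H : Pt c mp mn lp ln a C S) {s : ℝ} (h0 : 0 < s) (h1 : s ≤ 1)
    (hy : 1 - R c ^ 2 ≤ 2 * (s * a) * (C - R c))
    (lo : 2 * (C + (R lp - R ln)) ≤ (s * a) * (1 - (R lp - R ln) ^ 2)) :
    Pt c mp mn lp ln (s * a) C S := by
  refine ⟨mul_pos h0 H.ha, H.u, H.s, hy, ?_, lo, H.k1, H.k2, H.k3, H.k4, H.k5, H.k6, H.k7⟩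
  refine le_trans ?_ H.ve
  have h2 := H.m2
  have h3 : s * a ≤ a := by nlinarith [H.ha]
  exact mul_le_mul_of_nonneg_right h3 h2

end

theorem rgn_of {p q : PD} (h1 : FaceH p q) (h2 : FaceH q p)
    (h3 : p.ln = 1048576 ∨ FaceV p q) (h4 : q.ln = 1048576 ∨ FaceV q p) : Rgn p q := by
  intro a b C1 S1 C2 S2 H K
  have H' : Pt p.c p.mp p.mn p.lp p.ln a C1 S1 := H
  have K' : Pt q.c q.mp q.mn q.lp q.ln b C2 S2 := K
  obtain ⟨s1, a1, a2, a3⟩ := H'.facH
  obtain ⟨s2, b1, b2, b3⟩ := K'.facH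
  obtain ⟨t1, c1, c2, c3⟩ := H'.facV
  obtain ⟨t2, d1, d2, d3⟩ := K'.facV
  set s := max (max s1 s2) (max t1 t2) with hs
  have e1 : s1 ≤ s := (le_max_left _ _).trans (le_max_left _ _)
  have e2 : s2 ≤ s := (le_max_right _ _).trans (le_max_left _ _)
  have e3 : t1 ≤ s := (le_max_left _ _).trans (le_max_right _ _)
  have e4 : t2 ≤ s := (le_max_right _ _).trans (le_max_right _ _)
  have s0 : 0 < s := a1.trans_le e1
  have s1' : s ≤ 1 := max_le (max_le a2 b2) (max_le c1 d1)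
  have ha := H'.ha
  have hb := K'.ha
  have g1 : 0 < C1 - R p.c := by linarith [H'.Cgt]
  have g2 : 0 < C2 - R q.c := by linarith [K'.Cgt]
  have HS : Pt p.c p.mp p.mn p.lp p.ln (s * a) C1 S1 := by
    refine H'.scale s0 s1' ?_ (c2 s e3)
    rw [← a3]
    have : s1 * a ≤ s * a := mul_le_mul_of_nonneg_right e1 ha.le
    nlinarith
  have KS : Pt q.c q.mp q.mn q.lp q.ln (s * b) C2 S2 := by
    refine K'.scale s0 s1' ?_ (d2 s e4)
    rw [← b3]
    have : s2 * b ≤ s * b := mul_le_mul_of_nonneg_right e2 hb.le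
    nlinarith
  -- the scaled pair
  have key : FM0 (pU (s * a) C1 S1) (pU (s * b) C2 (-S2)) := by
    have sw : ∀ {x y : ℝ}, FM0 (pU y C2 S2) (pU x C1 (-S1)) → FM0 (pU x C1 S1) (pU y C2 (-S2)) := by
      intro x y h
      have := h.symm.conj
      rw [pU_conj, pU_conj, neg_neg] at this
      exact this
    have hm : s = s1 ∨ s = s2 ∨ s = t1 ∨ s = t2 := by
      rcases max_choice (max s1 s2) (max t1 t2) with h | h
      · rcases max_choice s1 s2 with h' | h'
        · exact Or.inl (by rw [hs, h, h'])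
        · exact Or.inr (Or.inl (by rw [hs, h, h']))
      · rcases max_choice t1 t2 with h' | h'
        · exact Or.inr (Or.inr (Or.inl (by rw [hs, h, h'])))
        · exact Or.inr (Or.inr (Or.inr (by rw [hs, h, h'])))
    rcases hm with h | h | h | h
    · exact h1 HS KS (by rw [h]; exact a3)
    · exact sw (h2 KS HS (by rw [h]; exact b3))
    · rcases c3 with c3 | ⟨c4, c3⟩
      · linarith
      · rcases h3 with h3 | h3
        · omega
        · exact h3 HS KS (by rw [h]; exact c3)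
    · rcases d3 with d3 | ⟨d4, d3⟩
      · linarith
      · rcases h4 with h4 | h4
        · omega
        · exact sw (h4 KS HS (by rw [h]; exact d3))
  have hfin := key.smul (s := 1 / s) (by rw [le_div_iff₀ s0]; linarith)
  rw [pU_smul, pU_smul] at hfin
  have q1 : 1 / s * (s * a) = a := by field_simp
  have q2 : 1 / s * (s * b) = b := by field_simp
  rw [q1, q2] at hfin
  exact hfin

end Pool.Agent.S3.Ck
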