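import Pool.Agent.S3.Ck.Cos
import Pool.Agent.S3.Ck.SoundG

/-!
# Flats: a1
-/

set_option autoImplicit false
set_option maxRecDepth 100000

namespace Pool.Agent.S3.Ck

open Complex

private theorem a1_0_0 : FaceH ⟨0, 470166, 0, 0, 1048576⟩
    ⟨857925, 0, 561853, 0, 1048576⟩ :=
  faceH_of (n := 60) (x1 := 1048576) (y1 := 331590) (r0 := 262913) (r1 := 2730979)
    (by decide +kernel) (by decide +kernel)

private theorem a1_0_1 : FaceH ⟨857925, 0, 561853, 0, 1048576⟩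
    ⟨0, 470166, 0, 0, 1048576⟩ :=
  faceH_of (n := 60) (x1 := 331590) (y1 := 1048576) (r0 := 402607) (r1 := 4182028)
    (by decide +kernel) (by decide +kernel)

private theorem a1_u0 : VD ⟨0, 470166, 0, 0, 1048576⟩ 1 0 (81 / 250) :=
  ⟨by decide +kernel, by norm_num, by norm_num [R], cu_81_250, Or.inl rfl⟩

private theorem a1_v0 : VD ⟨857925, 0, 561853, 0, 1048576⟩ (1 / 10) 0 (4 / 25) :=
  ⟨by decide +kernel, by norm_num, by norm_num [R], cu_4_25, Or.inl rfl⟩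

private theorem a1_0 : Rgn ⟨0, 470166, 0, 0, 1048576⟩
    ⟨857925, 0, 561853, 0, 1048576⟩ :=
  rgn_of a1_0_0 a1_0_1 (Or.inl rfl) (Or.inl rfl)

private theorem a1_1_0 : FaceH ⟨32430, 470166, 0, 0, 1048576⟩
    ⟨699050, 0, 561853, 0, 1048576⟩ :=
  faceH_of (n := 60) (x1 := 1016633) (y1 := 468938) (r0 := 241004) (r1 := 2649050)
    (by decide +kernel) (by decide +kernel)

private theorem a1_1_1 : FaceH ⟨699050, 0, 561853, 0, 1048576⟩
    ⟨32430, 470166, 0, 0, 1048576⟩ :=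
  faceH_of (n := 60) (x1 := 468938) (y1 := 1016633) (r0 := 415058) (r1 := 4562212)
    (by decide +kernel) (by decide +kernel)

private theorem a1_u1 : VD ⟨32430, 470166, 0, 0, 1048576⟩ (47 / 50) 0 (81 / 250) :=
  ⟨by decide +kernel, by norm_num, by norm_num [R], cu_81_250, Or.inl rfl⟩

private theorem a1_v1 : VD ⟨699050, 0, 561853, 0, 1048576⟩ (1 / 5) 0 (4 / 25) :=
  ⟨by decide +kernel, by norm_num, by norm_num [R], cu_4_25, Or.inl rfl⟩

private theorem a1_1 : Rgn ⟨32430, 470166, 0, 0, 1048576⟩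
    ⟨699050, 0, 561853, 0, 1048576⟩ :=
  rgn_of a1_1_0 a1_1_1 (Or.inl rfl) (Or.inl rfl)

private theorem a1_2_0 : FaceH ⟨85019, 470166, 0, 0, 1048576⟩
    ⟨629145, 0, 561853, 0, 1048576⟩ :=
  faceH_of (n := 60) (x1 := 966740) (y1 := 524289) (r0 := 231363) (r1 := 2526157)
    (by decide +kernel) (by decide +kernel)

private theorem a1_2_1 : FaceH ⟨629145, 0, 561853, 0, 1048576⟩
    ⟨85019, 470166, 0, 0, 1048576⟩ :=
  faceH_of (n := 60) (x1 := 524289) (y1 := 966740) (r0 := 435250) (r1 := 4752304)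
    (by decide +kernel) (by decide +kernel)

private theorem a1_u2 : VD ⟨85019, 470166, 0, 0, 1048576⟩ (17 / 20) 0 (81 / 250) :=
  ⟨by decide +kernel, by norm_num, by norm_num [R], cu_81_250, Or.inl rfl⟩

private theorem a1_v2 : VD ⟨629145, 0, 561853, 0, 1048576⟩ (1 / 4) 0 (4 / 25) :=
  ⟨by decide +kernel, by norm_num, by norm_num [R], cu_4_25, Or.inl rfl⟩

private theorem a1_2 : Rgn ⟨85019, 470166, 0, 0, 1048576⟩
    ⟨629145, 0, 561853, 0, 1048576⟩ :=
  rgn_of a1_2_0 a1_2_1 (Or.inl rfl) (Or.inl rfl)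

private theorem a1_3_0 : FaceH ⟨110071, 470166, 0, 0, 1048576⟩
    ⟨564617, 0, 561853, 0, 1048576⟩ :=
  faceH_of (n := 60) (x1 := 943719) (y1 := 574330) (r0 := 222465) (r1 := 2471537)
    (by decide +kernel) (by decide +kernel)

private theorem a1_3_1 : FaceH ⟨564617, 0, 561853, 0, 1048576⟩
    ⟨110071, 470166, 0, 0, 1048576⟩ :=
  faceH_of (n := 60) (x1 := 574330) (y1 := 943719) (r0 := 444869) (r1 := 4942397)
    (by decide +kernel) (by decide +kernel)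

private theorem a1_u3 : VD ⟨110071, 470166, 0, 0, 1048576⟩ (81 / 100) 0 (81 / 250) :=
  ⟨by decide +kernel, by norm_num, by norm_num [R], cu_81_250, Or.inl rfl⟩

private theorem a1_v3 : VD ⟨564617, 0, 561853, 0, 1048576⟩ (3 / 10) 0 (4 / 25) :=
  ⟨by decide +kernel, by norm_num, by norm_num [R], cu_4_25, Or.inl rfl⟩

private theorem a1_3 : Rgn ⟨110071, 470166, 0, 0, 1048576⟩
    ⟨564617, 0, 561853, 0, 1048576⟩ :=
  rgn_of a1_3_0 a1_3_1 (Or.inl rfl) (Or.inl rfl)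

private theorem a1_4_0 : FaceH ⟨132918, 470166, 0, 0, 1048576⟩
    ⟨504869, 0, 561853, 0, 1048576⟩ :=
  faceH_of (n := 60) (x1 := 923105) (y1 := 620347) (r0 := 214225) (r1 := 2423744)
    (by decide +kernel) (by decide +kernel)

private theorem a1_4_1 : FaceH ⟨504869, 0, 561853, 0, 1048576⟩
    ⟨132918, 470166, 0, 0, 1048576⟩ :=
  faceH_of (n := 60) (x1 := 620347) (y1 := 923105) (r0 := 453641) (r1 := 5132490)
    (by decide +kernel) (by decide +kernel)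

private theorem a1_u4 : VD ⟨132918, 470166, 0, 0, 1048576⟩ (31 / 40) 0 (81 / 250) :=
  ⟨by decide +kernel, by norm_num, by norm_num [R], cu_81_250, Or.inl rfl⟩

private theorem a1_v4 : VD ⟨504869, 0, 561853, 0, 1048576⟩ (7 / 20) 0 (4 / 25) :=
  ⟨by decide +kernel, by norm_num, by norm_num [R], cu_4_25, Or.inl rfl⟩

private theorem a1_4 : Rgn ⟨132918, 470166, 0, 0, 1048576⟩
    ⟨504869, 0, 561853, 0, 1048576⟩ :=
  rgn_of a1_4_0 a1_4_1 (Or.inl rfl) (Or.inl rfl)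

private theorem a1_5_0 : FaceH ⟨153230, 470166, 0, 0, 1048576⟩
    ⟨492830, 0, 561853, 0, 1048576⟩ :=
  faceH_of (n := 60) (x1 := 905062) (y1 := 629622) (r0 := 212565) (r1 := 2382780)
    (by decide +kernel) (by decide +kernel)

private theorem a1_5_1 : FaceH ⟨492830, 0, 561853, 0, 1048576⟩
    ⟨153230, 470166, 0, 0, 1048576⟩ :=
  faceH_of (n := 60) (x1 := 629622) (y1 := 905062) (r0 := 461440) (r1 := 5172577)
    (by decide +kernel) (by decide +kernel)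

private theorem a1_u5 : VD ⟨153230, 470166, 0, 0, 1048576⟩ (149 / 200) 0 (81 / 250) :=
  ⟨by decide +kernel, by norm_num, by norm_num [R], cu_81_250, Or.inl rfl⟩

private theorem a1_v5 : VD ⟨492830, 0, 561853, 0, 1048576⟩ (53 / 147) 0 (4 / 25) :=
  ⟨by decide +kernel, by norm_num, by norm_num [R], cu_4_25, Or.inl rfl⟩

private theorem a1_5 : Rgn ⟨153230, 470166, 0, 0, 1048576⟩
    ⟨492830, 0, 561853, 0, 1048576⟩ :=
  rgn_of a1_5_0 a1_5_1 (Or.inl rfl) (Or.inl rfl)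

theorem flat_a1 {θ θ' : ℝ} {v w : ℂ} (h : T2.Pr θ θ' v w)
    (j : J3 (Real.tan θ ^ 2) (Real.tan θ' ^ 2)) (t1 : Real.tan θ ^ 2 < 1)
    (t2 : Real.tan θ' ^ 2 ≤ 53 / 147)
    (h2 : v.re ≤ 81 / 250) (h4 : w.re ≤ 4 / 25) :
    FlatM (1 / cos (Real.pi * v) ^ 2) (1 / cos (Real.pi * (starRingEnd ℂ) w) ^ 2) := by
  rcases j.c23 t1 t2 with ⟨a, b⟩ | ⟨a, b⟩ | ⟨a, b⟩ | ⟨a, b⟩ | ⟨a, b⟩ | ⟨a, b⟩
  · exact a1_0.flatM a1_u0 a1_v0 h a b t1 (by linarith) h.hv.re0 h2 h.hw.re0 h4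
      (by norm_num) (by norm_num) (by norm_num) (by norm_num)
  · exact a1_1.flatM a1_u1 a1_v1 h a b t1 (by linarith) h.hv.re0 h2 h.hw.re0 h4
      (by norm_num) (by norm_num) (by norm_num) (by norm_num)
  · exact a1_2.flatM a1_u2 a1_v2 h a b t1 (by linarith) h.hv.re0 h2 h.hw.re0 h4
      (by norm_num) (by norm_num) (by norm_num) (by norm_num)
  · exact a1_3.flatM a1_u3 a1_v3 h a b t1 (by linarith) h.hv.re0 h2 h.hw.re0 h4
      (by norm_num) (by norm_num) (by norm_num) (by norm_num)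
  · exact a1_4.flatM a1_u4 a1_v4 h a b t1 (by linarith) h.hv.re0 h2 h.hw.re0 h4
      (by norm_num) (by norm_num) (by norm_num) (by norm_num)
  · exact a1_5.flatM a1_u5 a1_v5 h a b t1 (by linarith) h.hv.re0 h2 h.hw.re0 h4
      (by norm_num) (by norm_num) (by norm_num) (by norm_num)

end Pool.Agent.S3.Ck
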