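import Pool.Agent.S3.Ck.Cos
import Pool.Agent.S3.Ck.SoundG

/-!
# Flats: a10
-/

set_option autoImplicit false
set_option maxRecDepth 100000

namespace Pool.Agent.S3.Ck

open Complex

private theorem a10_0_0 : FaceH ⟨0, 693438, 0, 0, 196486⟩
    ⟨857925, 416442, 0, 386004, 0⟩ :=
  faceH_of (n := 60) (x1 := 1048576) (y1 := 331590) (r0 := 161426) (r1 := 6957460)
    (by decide +kernel) (by decide +kernel)

private theorem a10_0_1 : FaceH ⟨857925, 416442, 0, 386004, 0⟩
    ⟨0, 693438, 0, 0, 196486⟩ :=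
  faceH_of (n := 60) (x1 := 331590) (y1 := 1048576) (r0 := 158033) (r1 := 6811231)
    (by decide +kernel) (by decide +kernel)

private theorem a10_0_2 : FaceV ⟨0, 693438, 0, 0, 196486⟩
    ⟨857925, 416442, 0, 386004, 0⟩ :=
  faceV_of (n := 60) (x1 := 1048576) (y1 := 331590) (r0 := 161426) (r1 := 6957460)
    (by decide +kernel) (by decide +kernel) (by decide +kernel)

private theorem a10_0_3 : FaceV ⟨857925, 416442, 0, 386004, 0⟩
    ⟨0, 693438, 0, 0, 196486⟩ :=
  faceV_of (n := 60) (x1 := 331590) (y1 := 1048576) (r0 := 158033) (r1 := 6811231)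
    (by decide +kernel) (by decide +kernel) (by decide +kernel)

private theorem a10_u0 : VD ⟨0, 693438, 0, 0, 196486⟩ 1 (11 / 50) (73 / 200) :=
  ⟨by decide +kernel, by norm_num, by norm_num [R], cu_73_200, Or.inr cl_11_50⟩

private theorem a10_v0 : VD ⟨857925, 416442, 0, 386004, 0⟩ (1 / 10) (31 / 100) (63 / 200) :=
  ⟨by decide +kernel, by norm_num, by norm_num [R], cu_63_200, Or.inr cl_31_100⟩

private theorem a10_0 : Rgn ⟨0, 693438, 0, 0, 196486⟩
    ⟨857925, 416442, 0, 386004, 0⟩ :=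
  rgn_of a10_0_0 a10_0_1 (Or.inr a10_0_2) (Or.inr a10_0_3)

private theorem a10_1_0 : FaceH ⟨32430, 693438, 0, 0, 196486⟩
    ⟨699050, 416442, 0, 386004, 0⟩ :=
  faceH_of (n := 60) (x1 := 1016633) (y1 := 468938) (r0 := 147974) (r1 := 6748737)
    (by decide +kernel) (by decide +kernel)

private theorem a10_1_1 : FaceH ⟨699050, 416442, 0, 386004, 0⟩
    ⟨32430, 693438, 0, 0, 196486⟩ :=
  faceH_of (n := 60) (x1 := 468938) (y1 := 1016633) (r0 := 162921) (r1 := 7430433)
    (by decide +kernel) (by decide +kernel)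

private theorem a10_1_2 : FaceV ⟨32430, 693438, 0, 0, 196486⟩
    ⟨699050, 416442, 0, 386004, 0⟩ :=
  faceV_of (n := 60) (x1 := 1016633) (y1 := 468938) (r0 := 147974) (r1 := 6748737)
    (by decide +kernel) (by decide +kernel) (by decide +kernel)

private theorem a10_1_3 : FaceV ⟨699050, 416442, 0, 386004, 0⟩
    ⟨32430, 693438, 0, 0, 196486⟩ :=
  faceV_of (n := 60) (x1 := 468938) (y1 := 1016633) (r0 := 162921) (r1 := 7430433)
    (by decide +kernel) (by decide +kernel) (by decide +kernel)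

private theorem a10_u1 : VD ⟨32430, 693438, 0, 0, 196486⟩ (47 / 50) (11 / 50) (73 / 200) :=
  ⟨by decide +kernel, by norm_num, by norm_num [R], cu_73_200, Or.inr cl_11_50⟩

private theorem a10_v1 : VD ⟨699050, 416442, 0, 386004, 0⟩ (1 / 5) (31 / 100) (63 / 200) :=
  ⟨by decide +kernel, by norm_num, by norm_num [R], cu_63_200, Or.inr cl_31_100⟩

private theorem a10_1 : Rgn ⟨32430, 693438, 0, 0, 196486⟩
    ⟨699050, 416442, 0, 386004, 0⟩ :=
  rgn_of a10_1_0 a10_1_1 (Or.inr a10_1_2) (Or.inr a10_1_3)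

private theorem a10_2_0 : FaceH ⟨85019, 693438, 0, 0, 196486⟩
    ⟨629145, 416442, 0, 386004, 0⟩ :=
  faceH_of (n := 60) (x1 := 966740) (y1 := 524289) (r0 := 142055) (r1 := 6435654)
    (by decide +kernel) (by decide +kernel)

private theorem a10_2_1 : FaceH ⟨629145, 416442, 0, 386004, 0⟩
    ⟨85019, 693438, 0, 0, 196486⟩ :=
  faceH_of (n := 60) (x1 := 524289) (y1 := 966740) (r0 := 170846) (r1 := 7740034)
    (by decide +kernel) (by decide +kernel)

private theorem a10_2_2 : FaceV ⟨85019, 693438, 0, 0, 196486⟩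
    ⟨629145, 416442, 0, 386004, 0⟩ :=
  faceV_of (n := 60) (x1 := 966740) (y1 := 524289) (r0 := 142055) (r1 := 6435654)
    (by decide +kernel) (by decide +kernel) (by decide +kernel)

private theorem a10_2_3 : FaceV ⟨629145, 416442, 0, 386004, 0⟩
    ⟨85019, 693438, 0, 0, 196486⟩ :=
  faceV_of (n := 60) (x1 := 524289) (y1 := 966740) (r0 := 170846) (r1 := 7740034)
    (by decide +kernel) (by decide +kernel) (by decide +kernel)

private theorem a10_u2 : VD ⟨85019, 693438, 0, 0, 196486⟩ (17 / 20) (11 / 50) (73 / 200) :=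
  ⟨by decide +kernel, by norm_num, by norm_num [R], cu_73_200, Or.inr cl_11_50⟩

private theorem a10_v2 : VD ⟨629145, 416442, 0, 386004, 0⟩ (1 / 4) (31 / 100) (63 / 200) :=
  ⟨by decide +kernel, by norm_num, by norm_num [R], cu_63_200, Or.inr cl_31_100⟩

private theorem a10_2 : Rgn ⟨85019, 693438, 0, 0, 196486⟩
    ⟨629145, 416442, 0, 386004, 0⟩ :=
  rgn_of a10_2_0 a10_2_1 (Or.inr a10_2_2) (Or.inr a10_2_3)

private theorem a10_3_0 : FaceH ⟨110071, 693438, 0, 0, 196486⟩
    ⟨564617, 416442, 0, 386004, 0⟩ :=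
  faceH_of (n := 60) (x1 := 943719) (y1 := 574330) (r0 := 136591) (r1 := 6296504)
    (by decide +kernel) (by decide +kernel)

private theorem a10_3_1 : FaceH ⟨564617, 416442, 0, 386004, 0⟩
    ⟨110071, 693438, 0, 0, 196486⟩ :=
  faceH_of (n := 60) (x1 := 574330) (y1 := 943719) (r0 := 174622) (r1 := 8049637)
    (by decide +kernel) (by decide +kernel)

private theorem a10_3_2 : FaceV ⟨110071, 693438, 0, 0, 196486⟩
    ⟨564617, 416442, 0, 386004, 0⟩ :=
  faceV_of (n := 60) (x1 := 943719) (y1 := 574330) (r0 := 136591) (r1 := 6296504)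
    (by decide +kernel) (by decide +kernel) (by decide +kernel)

private theorem a10_3_3 : FaceV ⟨564617, 416442, 0, 386004, 0⟩
    ⟨110071, 693438, 0, 0, 196486⟩ :=
  faceV_of (n := 60) (x1 := 574330) (y1 := 943719) (r0 := 174622) (r1 := 8049637)
    (by decide +kernel) (by decide +kernel) (by decide +kernel)

private theorem a10_u3 : VD ⟨110071, 693438, 0, 0, 196486⟩ (81 / 100) (11 / 50) (73 / 200) :=
  ⟨by decide +kernel, by norm_num, by norm_num [R], cu_73_200, Or.inr cl_11_50⟩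

private theorem a10_v3 : VD ⟨564617, 416442, 0, 386004, 0⟩ (3 / 10) (31 / 100) (63 / 200) :=
  ⟨by decide +kernel, by norm_num, by norm_num [R], cu_63_200, Or.inr cl_31_100⟩

private theorem a10_3 : Rgn ⟨110071, 693438, 0, 0, 196486⟩
    ⟨564617, 416442, 0, 386004, 0⟩ :=
  rgn_of a10_3_0 a10_3_1 (Or.inr a10_3_2) (Or.inr a10_3_3)

private theorem a10_4_0 : FaceH ⟨132918, 693438, 0, 0, 196486⟩
    ⟨504869, 416442, 0, 386004, 0⟩ :=
  faceH_of (n := 60) (x1 := 923105) (y1 := 620347) (r0 := 131532) (r1 := 6174746)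
    (by decide +kernel) (by decide +kernel)

private theorem a10_4_1 : FaceH ⟨504869, 416442, 0, 386004, 0⟩
    ⟨132918, 693438, 0, 0, 196486⟩ :=
  faceH_of (n := 60) (x1 := 620347) (y1 := 923105) (r0 := 178065) (r1 := 8359239)
    (by decide +kernel) (by decide +kernel)

private theorem a10_4_2 : FaceV ⟨132918, 693438, 0, 0, 196486⟩
    ⟨504869, 416442, 0, 386004, 0⟩ :=
  faceV_of (n := 60) (x1 := 923105) (y1 := 620347) (r0 := 131532) (r1 := 6174746)
    (by decide +kernel) (by decide +kernel) (by decide +kernel)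

private theorem a10_4_3 : FaceV ⟨504869, 416442, 0, 386004, 0⟩
    ⟨132918, 693438, 0, 0, 196486⟩ :=
  faceV_of (n := 60) (x1 := 620347) (y1 := 923105) (r0 := 178065) (r1 := 8359239)
    (by decide +kernel) (by decide +kernel) (by decide +kernel)

private theorem a10_u4 : VD ⟨132918, 693438, 0, 0, 196486⟩ (31 / 40) (11 / 50) (73 / 200) :=
  ⟨by decide +kernel, by norm_num, by norm_num [R], cu_73_200, Or.inr cl_11_50⟩

private theorem a10_v4 : VD ⟨504869, 416442, 0, 386004, 0⟩ (7 / 20) (31 / 100) (63 / 200) :=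
  ⟨by decide +kernel, by norm_num, by norm_num [R], cu_63_200, Or.inr cl_31_100⟩

private theorem a10_4 : Rgn ⟨132918, 693438, 0, 0, 196486⟩
    ⟨504869, 416442, 0, 386004, 0⟩ :=
  rgn_of a10_4_0 a10_4_1 (Or.inr a10_4_2) (Or.inr a10_4_3)

private theorem a10_5_0 : FaceH ⟨153230, 693438, 0, 0, 196486⟩
    ⟨492830, 416442, 0, 386004, 0⟩ :=
  faceH_of (n := 60) (x1 := 905062) (y1 := 629622) (r0 := 130513) (r1 := 6070385)
    (by decide +kernel) (by decide +kernel)

private theorem a10_5_1 : FaceH ⟨492830, 416442, 0, 386004, 0⟩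
    ⟨153230, 693438, 0, 0, 196486⟩ :=
  faceH_of (n := 60) (x1 := 629622) (y1 := 905062) (r0 := 181127) (r1 := 8424528)
    (by decide +kernel) (by decide +kernel)

private theorem a10_5_2 : FaceV ⟨153230, 693438, 0, 0, 196486⟩
    ⟨492830, 416442, 0, 386004, 0⟩ :=
  faceV_of (n := 60) (x1 := 905062) (y1 := 629622) (r0 := 130513) (r1 := 6070385)
    (by decide +kernel) (by decide +kernel) (by decide +kernel)

private theorem a10_5_3 : FaceV ⟨492830, 416442, 0, 386004, 0⟩
    ⟨153230, 693438, 0, 0, 196486⟩ :=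
  faceV_of (n := 60) (x1 := 629622) (y1 := 905062) (r0 := 181127) (r1 := 8424528)
    (by decide +kernel) (by decide +kernel) (by decide +kernel)

private theorem a10_u5 : VD ⟨153230, 693438, 0, 0, 196486⟩ (149 / 200) (11 / 50) (73 / 200) :=
  ⟨by decide +kernel, by norm_num, by norm_num [R], cu_73_200, Or.inr cl_11_50⟩

private theorem a10_v5 : VD ⟨492830, 416442, 0, 386004, 0⟩ (53 / 147) (31 / 100) (63 / 200) :=
  ⟨by decide +kernel, by norm_num, by norm_num [R], cu_63_200, Or.inr cl_31_100⟩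

private theorem a10_5 : Rgn ⟨153230, 693438, 0, 0, 196486⟩
    ⟨492830, 416442, 0, 386004, 0⟩ :=
  rgn_of a10_5_0 a10_5_1 (Or.inr a10_5_2) (Or.inr a10_5_3)

theorem flat_a10 {θ θ' : ℝ} {v w : ℂ} (h : T2.Pr θ θ' v w)
    (j : J3 (Real.tan θ ^ 2) (Real.tan θ' ^ 2)) (t1 : Real.tan θ ^ 2 < 1)
    (t2 : Real.tan θ' ^ 2 ≤ 53 / 147)
    (h1 : 11 / 50 ≤ v.re) (h2 : v.re ≤ 73 / 200) (h3 : 31 / 100 ≤ w.re) (h4 : w.re ≤ 63 / 200) :
    FlatM (1 / cos (Real.pi * v) ^ 2) (1 / cos (Real.pi * (starRingEnd ℂ) w) ^ 2) := by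
  rcases j.c23 t1 t2 with ⟨a, b⟩ | ⟨a, b⟩ | ⟨a, b⟩ | ⟨a, b⟩ | ⟨a, b⟩ | ⟨a, b⟩
  · exact a10_0.flatM a10_u0 a10_v0 h a b t1 (by linarith) h1 h2 h3 h4
      (by norm_num) (by norm_num) (by norm_num) (by norm_num)
  · exact a10_1.flatM a10_u1 a10_v1 h a b t1 (by linarith) h1 h2 h3 h4
      (by norm_num) (by norm_num) (by norm_num) (by norm_num)
  · exact a10_2.flatM a10_u2 a10_v2 h a b t1 (by linarith) h1 h2 h3 h4
      (by norm_num) (by norm_num) (by norm_num) (by norm_num)
  · exact a10_3.flatM a10_u3 a10_v3 h a b t1 (by linarith) h1 h2 h3 h4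
      (by norm_num) (by norm_num) (by norm_num) (by norm_num)
  · exact a10_4.flatM a10_u4 a10_v4 h a b t1 (by linarith) h1 h2 h3 h4
      (by norm_num) (by norm_num) (by norm_num) (by norm_num)
  · exact a10_5.flatM a10_u5 a10_v5 h a b t1 (by linarith) h1 h2 h3 h4
      (by norm_num) (by norm_num) (by norm_num) (by norm_num)

end Pool.Agent.S3.Ck
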