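import Pool.Agent.S3.Ck.Cos
import Pool.Agent.S3.Ck.SoundG

/-!
# Flats: a13
-/

set_option autoImplicit false
set_option maxRecDepth 100000

namespace Pool.Agent.S3.Ck

open Complex

private theorem a13_0_0 : FaceH ⟨0, 764382, 0, 0, 3⟩
    ⟨857925, 476046, 0, 476041, 0⟩ :=
  faceH_of (n := 60) (x1 := 1048576) (y1 := 331590) (r0 := 129179) (r1 := 7681775)
    (by decide +kernel) (by decide +kernel)

private theorem a13_0_1 : FaceH ⟨857925, 476046, 0, 476041, 0⟩
    ⟨0, 764382, 0, 0, 3⟩ :=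
  faceH_of (n := 60) (x1 := 331590) (y1 := 1048576) (r0 := 143132) (r1 := 8511534)
    (by decide +kernel) (by decide +kernel)

private theorem a13_0_2 : FaceV ⟨0, 764382, 0, 0, 3⟩
    ⟨857925, 476046, 0, 476041, 0⟩ :=
  faceV_of (n := 60) (x1 := 1048576) (y1 := 331590) (r0 := 129179) (r1 := 7681775)
    (by decide +kernel) (by decide +kernel) (by decide +kernel)

private theorem a13_0_3 : FaceV ⟨857925, 476046, 0, 476041, 0⟩
    ⟨0, 764382, 0, 0, 3⟩ :=
  faceV_of (n := 60) (x1 := 331590) (y1 := 1048576) (r0 := 143132) (r1 := 8511534)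
    (by decide +kernel) (by decide +kernel) (by decide +kernel)

private theorem a13_u0 : VD ⟨0, 764382, 0, 0, 3⟩ 1 (1 / 4) (19 / 50) :=
  ⟨by decide +kernel, by norm_num, by norm_num [R], cu_19_50, Or.inr cl_1_4⟩

private theorem a13_v0 : VD ⟨857925, 476046, 0, 476041, 0⟩ (1 / 10) (13 / 40) (13 / 40) :=
  ⟨by decide +kernel, by norm_num, by norm_num [R], cu_13_40, Or.inr cl_13_40⟩

private theorem a13_0 : Rgn ⟨0, 764382, 0, 0, 3⟩
    ⟨857925, 476046, 0, 476041, 0⟩ :=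
  rgn_of a13_0_0 a13_0_1 (Or.inr a13_0_2) (Or.inr a13_0_3)

private theorem a13_1_0 : FaceH ⟨32430, 764382, 0, 0, 3⟩
    ⟨699050, 476046, 0, 476041, 0⟩ :=
  faceH_of (n := 60) (x1 := 1016633) (y1 := 468938) (r0 := 118414) (r1 := 7451323)
    (by decide +kernel) (by decide +kernel)

private theorem a13_1_1 : FaceH ⟨699050, 476046, 0, 476041, 0⟩
    ⟨32430, 764382, 0, 0, 3⟩ :=
  faceH_of (n := 60) (x1 := 468938) (y1 := 1016633) (r0 := 147559) (r1 := 9285309)
    (by decide +kernel) (by decide +kernel)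

private theorem a13_1_2 : FaceV ⟨32430, 764382, 0, 0, 3⟩
    ⟨699050, 476046, 0, 476041, 0⟩ :=
  faceV_of (n := 60) (x1 := 1016633) (y1 := 468938) (r0 := 118414) (r1 := 7451323)
    (by decide +kernel) (by decide +kernel) (by decide +kernel)

private theorem a13_1_3 : FaceV ⟨699050, 476046, 0, 476041, 0⟩
    ⟨32430, 764382, 0, 0, 3⟩ :=
  faceV_of (n := 60) (x1 := 468938) (y1 := 1016633) (r0 := 147559) (r1 := 9285309)
    (by decide +kernel) (by decide +kernel) (by decide +kernel)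

private theorem a13_u1 : VD ⟨32430, 764382, 0, 0, 3⟩ (47 / 50) (1 / 4) (19 / 50) :=
  ⟨by decide +kernel, by norm_num, by norm_num [R], cu_19_50, Or.inr cl_1_4⟩

private theorem a13_v1 : VD ⟨699050, 476046, 0, 476041, 0⟩ (1 / 5) (13 / 40) (13 / 40) :=
  ⟨by decide +kernel, by norm_num, by norm_num [R], cu_13_40, Or.inr cl_13_40⟩

private theorem a13_1 : Rgn ⟨32430, 764382, 0, 0, 3⟩
    ⟨699050, 476046, 0, 476041, 0⟩ :=
  rgn_of a13_1_0 a13_1_1 (Or.inr a13_1_2) (Or.inr a13_1_3)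

private theorem a13_2_0 : FaceH ⟨85019, 764382, 0, 0, 3⟩
    ⟨629145, 476046, 0, 476041, 0⟩ :=
  faceH_of (n := 60) (x1 := 966740) (y1 := 524289) (r0 := 113677) (r1 := 7105646)
    (by decide +kernel) (by decide +kernel)

private theorem a13_2_1 : FaceH ⟨629145, 476046, 0, 476041, 0⟩
    ⟨85019, 764382, 0, 0, 3⟩ :=
  faceH_of (n := 60) (x1 := 524289) (y1 := 966740) (r0 := 154737) (r1 := 9672196)
    (by decide +kernel) (by decide +kernel)

private theorem a13_2_2 : FaceV ⟨85019, 764382, 0, 0, 3⟩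
    ⟨629145, 476046, 0, 476041, 0⟩ :=
  faceV_of (n := 60) (x1 := 966740) (y1 := 524289) (r0 := 113677) (r1 := 7105646)
    (by decide +kernel) (by decide +kernel) (by decide +kernel)

private theorem a13_2_3 : FaceV ⟨629145, 476046, 0, 476041, 0⟩
    ⟨85019, 764382, 0, 0, 3⟩ :=
  faceV_of (n := 60) (x1 := 524289) (y1 := 966740) (r0 := 154737) (r1 := 9672196)
    (by decide +kernel) (by decide +kernel) (by decide +kernel)

private theorem a13_u2 : VD ⟨85019, 764382, 0, 0, 3⟩ (17 / 20) (1 / 4) (19 / 50) :=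
  ⟨by decide +kernel, by norm_num, by norm_num [R], cu_19_50, Or.inr cl_1_4⟩

private theorem a13_v2 : VD ⟨629145, 476046, 0, 476041, 0⟩ (1 / 4) (13 / 40) (13 / 40) :=
  ⟨by decide +kernel, by norm_num, by norm_num [R], cu_13_40, Or.inr cl_13_40⟩

private theorem a13_2 : Rgn ⟨85019, 764382, 0, 0, 3⟩
    ⟨629145, 476046, 0, 476041, 0⟩ :=
  rgn_of a13_2_0 a13_2_1 (Or.inr a13_2_2) (Or.inr a13_2_3)

private theorem a13_3_0 : FaceH ⟨110071, 764382, 0, 0, 3⟩
    ⟨564617, 476046, 0, 476041, 0⟩ :=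
  faceH_of (n := 60) (x1 := 943719) (y1 := 574330) (r0 := 109305) (r1 := 6952010)
    (by decide +kernel) (by decide +kernel)

private theorem a13_3_1 : FaceH ⟨564617, 476046, 0, 476041, 0⟩
    ⟨110071, 764382, 0, 0, 3⟩ :=
  faceH_of (n := 60) (x1 := 574330) (y1 := 943719) (r0 := 158157) (r1 := 10059086)
    (by decide +kernel) (by decide +kernel)

private theorem a13_3_2 : FaceV ⟨110071, 764382, 0, 0, 3⟩
    ⟨564617, 476046, 0, 476041, 0⟩ :=
  faceV_of (n := 60) (x1 := 943719) (y1 := 574330) (r0 := 109305) (r1 := 6952010)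
    (by decide +kernel) (by decide +kernel) (by decide +kernel)

private theorem a13_3_3 : FaceV ⟨564617, 476046, 0, 476041, 0⟩
    ⟨110071, 764382, 0, 0, 3⟩ :=
  faceV_of (n := 60) (x1 := 574330) (y1 := 943719) (r0 := 158157) (r1 := 10059086)
    (by decide +kernel) (by decide +kernel) (by decide +kernel)

private theorem a13_u3 : VD ⟨110071, 764382, 0, 0, 3⟩ (81 / 100) (1 / 4) (19 / 50) :=
  ⟨by decide +kernel, by norm_num, by norm_num [R], cu_19_50, Or.inr cl_1_4⟩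

private theorem a13_v3 : VD ⟨564617, 476046, 0, 476041, 0⟩ (3 / 10) (13 / 40) (13 / 40) :=
  ⟨by decide +kernel, by norm_num, by norm_num [R], cu_13_40, Or.inr cl_13_40⟩

private theorem a13_3 : Rgn ⟨110071, 764382, 0, 0, 3⟩
    ⟨564617, 476046, 0, 476041, 0⟩ :=
  rgn_of a13_3_0 a13_3_1 (Or.inr a13_3_2) (Or.inr a13_3_3)

private theorem a13_4_0 : FaceH ⟨132918, 764382, 0, 0, 3⟩
    ⟨504869, 476046, 0, 476041, 0⟩ :=
  faceH_of (n := 60) (x1 := 923105) (y1 := 620347) (r0 := 105256) (r1 := 6817576)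
    (by decide +kernel) (by decide +kernel)

private theorem a13_4_1 : FaceH ⟨504869, 476046, 0, 476041, 0⟩
    ⟨132918, 764382, 0, 0, 3⟩ :=
  faceH_of (n := 60) (x1 := 620347) (y1 := 923105) (r0 := 161276) (r1 := 10445975)
    (by decide +kernel) (by decide +kernel)

private theorem a13_4_2 : FaceV ⟨132918, 764382, 0, 0, 3⟩
    ⟨504869, 476046, 0, 476041, 0⟩ :=
  faceV_of (n := 60) (x1 := 923105) (y1 := 620347) (r0 := 105256) (r1 := 6817576)
    (by decide +kernel) (by decide +kernel) (by decide +kernel)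

private theorem a13_4_3 : FaceV ⟨504869, 476046, 0, 476041, 0⟩
    ⟨132918, 764382, 0, 0, 3⟩ :=
  faceV_of (n := 60) (x1 := 620347) (y1 := 923105) (r0 := 161276) (r1 := 10445975)
    (by decide +kernel) (by decide +kernel) (by decide +kernel)

private theorem a13_u4 : VD ⟨132918, 764382, 0, 0, 3⟩ (31 / 40) (1 / 4) (19 / 50) :=
  ⟨by decide +kernel, by norm_num, by norm_num [R], cu_19_50, Or.inr cl_1_4⟩

private theorem a13_v4 : VD ⟨504869, 476046, 0, 476041, 0⟩ (7 / 20) (13 / 40) (13 / 40) :=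
  ⟨by decide +kernel, by norm_num, by norm_num [R], cu_13_40, Or.inr cl_13_40⟩

private theorem a13_4 : Rgn ⟨132918, 764382, 0, 0, 3⟩
    ⟨504869, 476046, 0, 476041, 0⟩ :=
  rgn_of a13_4_0 a13_4_1 (Or.inr a13_4_2) (Or.inr a13_4_3)

private theorem a13_5_0 : FaceH ⟨153230, 764382, 0, 0, 3⟩
    ⟨492830, 476046, 0, 476041, 0⟩ :=
  faceH_of (n := 60) (x1 := 905062) (y1 := 629622) (r0 := 104441) (r1 := 6702351)
    (by decide +kernel) (by decide +kernel)

private theorem a13_5_1 : FaceH ⟨492830, 476046, 0, 476041, 0⟩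
    ⟨153230, 764382, 0, 0, 3⟩ :=
  faceH_of (n := 60) (x1 := 629622) (y1 := 905062) (r0 := 164048) (r1 := 10527562)
    (by decide +kernel) (by decide +kernel)

private theorem a13_5_2 : FaceV ⟨153230, 764382, 0, 0, 3⟩
    ⟨492830, 476046, 0, 476041, 0⟩ :=
  faceV_of (n := 60) (x1 := 905062) (y1 := 629622) (r0 := 104441) (r1 := 6702351)
    (by decide +kernel) (by decide +kernel) (by decide +kernel)

private theorem a13_5_3 : FaceV ⟨492830, 476046, 0, 476041, 0⟩
    ⟨153230, 764382, 0, 0, 3⟩ :=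
  faceV_of (n := 60) (x1 := 629622) (y1 := 905062) (r0 := 164048) (r1 := 10527562)
    (by decide +kernel) (by decide +kernel) (by decide +kernel)

private theorem a13_u5 : VD ⟨153230, 764382, 0, 0, 3⟩ (149 / 200) (1 / 4) (19 / 50) :=
  ⟨by decide +kernel, by norm_num, by norm_num [R], cu_19_50, Or.inr cl_1_4⟩

private theorem a13_v5 : VD ⟨492830, 476046, 0, 476041, 0⟩ (53 / 147) (13 / 40) (13 / 40) :=
  ⟨by decide +kernel, by norm_num, by norm_num [R], cu_13_40, Or.inr cl_13_40⟩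

private theorem a13_5 : Rgn ⟨153230, 764382, 0, 0, 3⟩
    ⟨492830, 476046, 0, 476041, 0⟩ :=
  rgn_of a13_5_0 a13_5_1 (Or.inr a13_5_2) (Or.inr a13_5_3)

theorem flat_a13 {θ θ' : ℝ} {v w : ℂ} (h : T2.Pr θ θ' v w)
    (j : J3 (Real.tan θ ^ 2) (Real.tan θ' ^ 2)) (t1 : Real.tan θ ^ 2 < 1)
    (t2 : Real.tan θ' ^ 2 ≤ 53 / 147)
    (h1 : 1 / 4 ≤ v.re) (h2 : v.re ≤ 19 / 50) (h3 : 13 / 40 ≤ w.re) (h4 : w.re ≤ 13 / 40) :
    FlatM (1 / cos (Real.pi * v) ^ 2) (1 / cos (Real.pi * (starRingEnd ℂ) w) ^ 2) := by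
  rcases j.c23 t1 t2 with ⟨a, b⟩ | ⟨a, b⟩ | ⟨a, b⟩ | ⟨a, b⟩ | ⟨a, b⟩ | ⟨a, b⟩
  · exact a13_0.flatM a13_u0 a13_v0 h a b t1 (by linarith) h1 h2 h3 h4
      (by norm_num) (by norm_num) (by norm_num) (by norm_num)
  · exact a13_1.flatM a13_u1 a13_v1 h a b t1 (by linarith) h1 h2 h3 h4
      (by norm_num) (by norm_num) (by norm_num) (by norm_num)
  · exact a13_2.flatM a13_u2 a13_v2 h a b t1 (by linarith) h1 h2 h3 h4
      (by norm_num) (by norm_num) (by norm_num) (by norm_num)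
  · exact a13_3.flatM a13_u3 a13_v3 h a b t1 (by linarith) h1 h2 h3 h4
      (by norm_num) (by norm_num) (by norm_num) (by norm_num)
  · exact a13_4.flatM a13_u4 a13_v4 h a b t1 (by linarith) h1 h2 h3 h4
      (by norm_num) (by norm_num) (by norm_num) (by norm_num)
  · exact a13_5.flatM a13_u5 a13_v5 h a b t1 (by linarith) h1 h2 h3 h4
      (by norm_num) (by norm_num) (by norm_num) (by norm_num)

end Pool.Agent.S3.Ck
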