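import Pool.Agent.S3.Ck.Cos
import Pool.Agent.S3.Ck.SoundG

/-!
# Flats: a2
-/

set_option autoImplicit false
set_option maxRecDepth 100000

namespace Pool.Agent.S3.Ck

open Complex

private theorem a2_0_0 : FaceH ⟨0, 493571, 0, 0, 1048576⟩
    ⟨857925, 0, 324025, 0, 561858⟩ :=
  faceH_of (n := 60) (x1 := 1048576) (y1 := 331590) (r0 := 252274) (r1 := 3204170)
    (by decide +kernel) (by decide +kernel)

private theorem a2_0_1 : FaceH ⟨857925, 0, 324025, 0, 561858⟩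
    ⟨0, 493571, 0, 0, 1048576⟩ :=
  faceH_of (n := 60) (x1 := 331590) (y1 := 1048576) (r0 := 343150) (r1 := 4358388)
    (by decide +kernel) (by decide +kernel)

private theorem a2_0_3 : FaceV ⟨857925, 0, 324025, 0, 561858⟩
    ⟨0, 493571, 0, 0, 1048576⟩ :=
  faceV_of (n := 60) (x1 := 331590) (y1 := 1048576) (r0 := 343150) (r1 := 4358388)
    (by decide +kernel) (by decide +kernel) (by decide +kernel)

private theorem a2_u0 : VD ⟨0, 493571, 0, 0, 1048576⟩ 1 0 (41 / 125) :=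
  ⟨by decide +kernel, by norm_num, by norm_num [R], cu_41_125, Or.inl rfl⟩

private theorem a2_v0 : VD ⟨857925, 0, 324025, 0, 561858⟩ (1 / 10) (4 / 25) (1 / 5) :=
  ⟨by decide +kernel, by norm_num, by norm_num [R], cu_1_5, Or.inr cl_4_25⟩

private theorem a2_0 : Rgn ⟨0, 493571, 0, 0, 1048576⟩
    ⟨857925, 0, 324025, 0, 561858⟩ :=
  rgn_of a2_0_0 a2_0_1 (Or.inl rfl) (Or.inr a2_0_3)

private theorem a2_1_0 : FaceH ⟨32430, 493571, 0, 0, 1048576⟩
    ⟨699050, 0, 324025, 0, 561858⟩ :=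
  faceH_of (n := 60) (x1 := 1016633) (y1 := 468938) (r0 := 231251) (r1 := 3108046)
    (by decide +kernel) (by decide +kernel)

private theorem a2_1_1 : FaceH ⟨699050, 0, 324025, 0, 561858⟩
    ⟨32430, 493571, 0, 0, 1048576⟩ :=
  faceH_of (n := 60) (x1 := 468938) (y1 := 1016633) (r0 := 353763) (r1 := 4754604)
    (by decide +kernel) (by decide +kernel)

private theorem a2_1_3 : FaceV ⟨699050, 0, 324025, 0, 561858⟩
    ⟨32430, 493571, 0, 0, 1048576⟩ :=
  faceV_of (n := 60) (x1 := 468938) (y1 := 1016633) (r0 := 353763) (r1 := 4754604)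
    (by decide +kernel) (by decide +kernel) (by decide +kernel)

private theorem a2_u1 : VD ⟨32430, 493571, 0, 0, 1048576⟩ (47 / 50) 0 (41 / 125) :=
  ⟨by decide +kernel, by norm_num, by norm_num [R], cu_41_125, Or.inl rfl⟩

private theorem a2_v1 : VD ⟨699050, 0, 324025, 0, 561858⟩ (1 / 5) (4 / 25) (1 / 5) :=
  ⟨by decide +kernel, by norm_num, by norm_num [R], cu_1_5, Or.inr cl_4_25⟩

private theorem a2_1 : Rgn ⟨32430, 493571, 0, 0, 1048576⟩
    ⟨699050, 0, 324025, 0, 561858⟩ :=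
  rgn_of a2_1_0 a2_1_1 (Or.inl rfl) (Or.inr a2_1_3)

private theorem a2_2_0 : FaceH ⟨85019, 493571, 0, 0, 1048576⟩
    ⟨629145, 0, 324025, 0, 561858⟩ :=
  faceH_of (n := 60) (x1 := 966740) (y1 := 524289) (r0 := 222001) (r1 := 2963859)
    (by decide +kernel) (by decide +kernel)

private theorem a2_2_1 : FaceH ⟨629145, 0, 324025, 0, 561858⟩
    ⟨85019, 493571, 0, 0, 1048576⟩ :=
  faceH_of (n := 60) (x1 := 524289) (y1 := 966740) (r0 := 370973) (r1 := 4952713)
    (by decide +kernel) (by decide +kernel)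

private theorem a2_2_3 : FaceV ⟨629145, 0, 324025, 0, 561858⟩
    ⟨85019, 493571, 0, 0, 1048576⟩ :=
  faceV_of (n := 60) (x1 := 524289) (y1 := 966740) (r0 := 370973) (r1 := 4952713)
    (by decide +kernel) (by decide +kernel) (by decide +kernel)

private theorem a2_u2 : VD ⟨85019, 493571, 0, 0, 1048576⟩ (17 / 20) 0 (41 / 125) :=
  ⟨by decide +kernel, by norm_num, by norm_num [R], cu_41_125, Or.inl rfl⟩

private theorem a2_v2 : VD ⟨629145, 0, 324025, 0, 561858⟩ (1 / 4) (4 / 25) (1 / 5) :=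
  ⟨by decide +kernel, by norm_num, by norm_num [R], cu_1_5, Or.inr cl_4_25⟩

private theorem a2_2 : Rgn ⟨85019, 493571, 0, 0, 1048576⟩
    ⟨629145, 0, 324025, 0, 561858⟩ :=
  rgn_of a2_2_0 a2_2_1 (Or.inl rfl) (Or.inr a2_2_3)

private theorem a2_3_0 : FaceH ⟨110071, 493571, 0, 0, 1048576⟩
    ⟨564617, 0, 324025, 0, 561858⟩ :=
  faceH_of (n := 60) (x1 := 943719) (y1 := 574330) (r0 := 213463) (r1 := 2899775)
    (by decide +kernel) (by decide +kernel)

private theorem a2_3_1 : FaceH ⟨564617, 0, 324025, 0, 561858⟩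
    ⟨110071, 493571, 0, 0, 1048576⟩ :=
  faceH_of (n := 60) (x1 := 574330) (y1 := 943719) (r0 := 379171) (r1 := 5150822)
    (by decide +kernel) (by decide +kernel)

private theorem a2_3_3 : FaceV ⟨564617, 0, 324025, 0, 561858⟩
    ⟨110071, 493571, 0, 0, 1048576⟩ :=
  faceV_of (n := 60) (x1 := 574330) (y1 := 943719) (r0 := 379171) (r1 := 5150822)
    (by decide +kernel) (by decide +kernel) (by decide +kernel)

private theorem a2_u3 : VD ⟨110071, 493571, 0, 0, 1048576⟩ (81 / 100) 0 (41 / 125) :=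
  ⟨by decide +kernel, by norm_num, by norm_num [R], cu_41_125, Or.inl rfl⟩

private theorem a2_v3 : VD ⟨564617, 0, 324025, 0, 561858⟩ (3 / 10) (4 / 25) (1 / 5) :=
  ⟨by decide +kernel, by norm_num, by norm_num [R], cu_1_5, Or.inr cl_4_25⟩

private theorem a2_3 : Rgn ⟨110071, 493571, 0, 0, 1048576⟩
    ⟨564617, 0, 324025, 0, 561858⟩ :=
  rgn_of a2_3_0 a2_3_1 (Or.inl rfl) (Or.inr a2_3_3)

private theorem a2_4_0 : FaceH ⟨132918, 493571, 0, 0, 1048576⟩
    ⟨504869, 0, 324025, 0, 561858⟩ :=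
  faceH_of (n := 60) (x1 := 923105) (y1 := 620347) (r0 := 205557) (r1 := 2843701)
    (by decide +kernel) (by decide +kernel)

private theorem a2_4_1 : FaceH ⟨504869, 0, 324025, 0, 561858⟩
    ⟨132918, 493571, 0, 0, 1048576⟩ :=
  faceH_of (n := 60) (x1 := 620347) (y1 := 923105) (r0 := 386648) (r1 := 5348931)
    (by decide +kernel) (by decide +kernel)

private theorem a2_4_3 : FaceV ⟨504869, 0, 324025, 0, 561858⟩
    ⟨132918, 493571, 0, 0, 1048576⟩ :=
  faceV_of (n := 60) (x1 := 620347) (y1 := 923105) (r0 := 386648) (r1 := 5348931)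
    (by decide +kernel) (by decide +kernel) (by decide +kernel)

private theorem a2_u4 : VD ⟨132918, 493571, 0, 0, 1048576⟩ (31 / 40) 0 (41 / 125) :=
  ⟨by decide +kernel, by norm_num, by norm_num [R], cu_41_125, Or.inl rfl⟩

private theorem a2_v4 : VD ⟨504869, 0, 324025, 0, 561858⟩ (7 / 20) (4 / 25) (1 / 5) :=
  ⟨by decide +kernel, by norm_num, by norm_num [R], cu_1_5, Or.inr cl_4_25⟩

private theorem a2_4 : Rgn ⟨132918, 493571, 0, 0, 1048576⟩
    ⟨504869, 0, 324025, 0, 561858⟩ :=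
  rgn_of a2_4_0 a2_4_1 (Or.inl rfl) (Or.inr a2_4_3)

private theorem a2_5_0 : FaceH ⟨153230, 493571, 0, 0, 1048576⟩
    ⟨492830, 0, 324025, 0, 561858⟩ :=
  faceH_of (n := 60) (x1 := 905062) (y1 := 629622) (r0 := 203964) (r1 := 2795639)
    (by decide +kernel) (by decide +kernel)

private theorem a2_5_1 : FaceH ⟨492830, 0, 324025, 0, 561858⟩
    ⟨153230, 493571, 0, 0, 1048576⟩ :=
  faceH_of (n := 60) (x1 := 629622) (y1 := 905062) (r0 := 393295) (r1 := 5390708)
    (by decide +kernel) (by decide +kernel)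

private theorem a2_5_3 : FaceV ⟨492830, 0, 324025, 0, 561858⟩
    ⟨153230, 493571, 0, 0, 1048576⟩ :=
  faceV_of (n := 60) (x1 := 629622) (y1 := 905062) (r0 := 393295) (r1 := 5390708)
    (by decide +kernel) (by decide +kernel) (by decide +kernel)

private theorem a2_u5 : VD ⟨153230, 493571, 0, 0, 1048576⟩ (149 / 200) 0 (41 / 125) :=
  ⟨by decide +kernel, by norm_num, by norm_num [R], cu_41_125, Or.inl rfl⟩

private theorem a2_v5 : VD ⟨492830, 0, 324025, 0, 561858⟩ (53 / 147) (4 / 25) (1 / 5) :=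
  ⟨by decide +kernel, by norm_num, by norm_num [R], cu_1_5, Or.inr cl_4_25⟩

private theorem a2_5 : Rgn ⟨153230, 493571, 0, 0, 1048576⟩
    ⟨492830, 0, 324025, 0, 561858⟩ :=
  rgn_of a2_5_0 a2_5_1 (Or.inl rfl) (Or.inr a2_5_3)

theorem flat_a2 {θ θ' : ℝ} {v w : ℂ} (h : T2.Pr θ θ' v w)
    (j : J3 (Real.tan θ ^ 2) (Real.tan θ' ^ 2)) (t1 : Real.tan θ ^ 2 < 1)
    (t2 : Real.tan θ' ^ 2 ≤ 53 / 147)
    (h2 : v.re ≤ 41 / 125) (h3 : 4 / 25 ≤ w.re) (h4 : w.re ≤ 1 / 5) :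
    FlatM (1 / cos (Real.pi * v) ^ 2) (1 / cos (Real.pi * (starRingEnd ℂ) w) ^ 2) := by
  rcases j.c23 t1 t2 with ⟨a, b⟩ | ⟨a, b⟩ | ⟨a, b⟩ | ⟨a, b⟩ | ⟨a, b⟩ | ⟨a, b⟩
  · exact a2_0.flatM a2_u0 a2_v0 h a b t1 (by linarith) h.hv.re0 h2 h3 h4
      (by norm_num) (by norm_num) (by norm_num) (by norm_num)
  · exact a2_1.flatM a2_u1 a2_v1 h a b t1 (by linarith) h.hv.re0 h2 h3 h4
      (by norm_num) (by norm_num) (by norm_num) (by norm_num)
  · exact a2_2.flatM a2_u2 a2_v2 h a b t1 (by linarith) h.hv.re0 h2 h3 h4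
      (by norm_num) (by norm_num) (by norm_num) (by norm_num)
  · exact a2_3.flatM a2_u3 a2_v3 h a b t1 (by linarith) h.hv.re0 h2 h3 h4
      (by norm_num) (by norm_num) (by norm_num) (by norm_num)
  · exact a2_4.flatM a2_u4 a2_v4 h a b t1 (by linarith) h.hv.re0 h2 h3 h4
      (by norm_num) (by norm_num) (by norm_num) (by norm_num)
  · exact a2_5.flatM a2_u5 a2_v5 h a b t1 (by linarith) h.hv.re0 h2 h3 h4
      (by norm_num) (by norm_num) (by norm_num) (by norm_num)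

end Pool.Agent.S3.Ck
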