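import Pool.Agent.S3.Ck.Cos
import Pool.Agent.S3.Ck.SoundG

/-!
# Flats: a3
-/

set_option autoImplicit false
set_option maxRecDepth 100000

namespace Pool.Agent.S3.Ck

open Complex

private theorem a3_0_0 : FaceH ⟨0, 536604, 0, 0, 1048576⟩
    ⟨857925, 0, 65838, 0, 324030⟩ :=
  faceH_of (n := 60) (x1 := 1048576) (y1 := 331590) (r0 := 232714) (r1 := 3946511)
    (by decide +kernel) (by decide +kernel)

private theorem a3_0_1 : FaceH ⟨857925, 0, 65838, 0, 324030⟩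
    ⟨0, 536604, 0, 0, 1048576⟩ :=
  faceH_of (n := 60) (x1 := 331590) (y1 := 1048576) (r0 := 278603) (r1 := 4724725)
    (by decide +kernel) (by decide +kernel)

private theorem a3_0_3 : FaceV ⟨857925, 0, 65838, 0, 324030⟩
    ⟨0, 536604, 0, 0, 1048576⟩ :=
  faceV_of (n := 60) (x1 := 331590) (y1 := 1048576) (r0 := 278603) (r1 := 4724725)
    (by decide +kernel) (by decide +kernel) (by decide +kernel)

private theorem a3_u0 : VD ⟨0, 536604, 0, 0, 1048576⟩ 1 0 (671 / 2000) :=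
  ⟨by decide +kernel, by norm_num, by norm_num [R], cu_671_2000, Or.inl rfl⟩

private theorem a3_v0 : VD ⟨857925, 0, 65838, 0, 324030⟩ (1 / 10) (1 / 5) (6 / 25) :=
  ⟨by decide +kernel, by norm_num, by norm_num [R], cu_6_25, Or.inr cl_1_5⟩

private theorem a3_0 : Rgn ⟨0, 536604, 0, 0, 1048576⟩
    ⟨857925, 0, 65838, 0, 324030⟩ :=
  rgn_of a3_0_0 a3_0_1 (Or.inl rfl) (Or.inr a3_0_3)

private theorem a3_1_0 : FaceH ⟨32430, 536604, 0, 0, 1048576⟩
    ⟨699050, 0, 65838, 0, 324030⟩ :=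
  faceH_of (n := 60) (x1 := 1016633) (y1 := 468938) (r0 := 213321) (r1 := 3828116)
    (by decide +kernel) (by decide +kernel)

private theorem a3_1_1 : FaceH ⟨699050, 0, 65838, 0, 324030⟩
    ⟨32430, 536604, 0, 0, 1048576⟩ :=
  faceH_of (n := 60) (x1 := 468938) (y1 := 1016633) (r0 := 287220) (r1 := 5154245)
    (by decide +kernel) (by decide +kernel)

private theorem a3_1_3 : FaceV ⟨699050, 0, 65838, 0, 324030⟩
    ⟨32430, 536604, 0, 0, 1048576⟩ :=
  faceV_of (n := 60) (x1 := 468938) (y1 := 1016633) (r0 := 287220) (r1 := 5154245)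
    (by decide +kernel) (by decide +kernel) (by decide +kernel)

private theorem a3_u1 : VD ⟨32430, 536604, 0, 0, 1048576⟩ (47 / 50) 0 (671 / 2000) :=
  ⟨by decide +kernel, by norm_num, by norm_num [R], cu_671_2000, Or.inl rfl⟩

private theorem a3_v1 : VD ⟨699050, 0, 65838, 0, 324030⟩ (1 / 5) (1 / 5) (6 / 25) :=
  ⟨by decide +kernel, by norm_num, by norm_num [R], cu_6_25, Or.inr cl_1_5⟩

private theorem a3_1 : Rgn ⟨32430, 536604, 0, 0, 1048576⟩
    ⟨699050, 0, 65838, 0, 324030⟩ :=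
  rgn_of a3_1_0 a3_1_1 (Or.inl rfl) (Or.inr a3_1_3)

private theorem a3_2_0 : FaceH ⟨85019, 536604, 0, 0, 1048576⟩
    ⟨629145, 0, 65838, 0, 324030⟩ :=
  faceH_of (n := 60) (x1 := 966740) (y1 := 524289) (r0 := 204788) (r1 := 3650525)
    (by decide +kernel) (by decide +kernel)

private theorem a3_2_1 : FaceH ⟨629145, 0, 65838, 0, 324030⟩
    ⟨85019, 536604, 0, 0, 1048576⟩ :=
  faceH_of (n := 60) (x1 := 524289) (y1 := 966740) (r0 := 301192) (r1 := 5369005)
    (by decide +kernel) (by decide +kernel)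

private theorem a3_2_3 : FaceV ⟨629145, 0, 65838, 0, 324030⟩
    ⟨85019, 536604, 0, 0, 1048576⟩ :=
  faceV_of (n := 60) (x1 := 524289) (y1 := 966740) (r0 := 301192) (r1 := 5369005)
    (by decide +kernel) (by decide +kernel) (by decide +kernel)

private theorem a3_u2 : VD ⟨85019, 536604, 0, 0, 1048576⟩ (17 / 20) 0 (671 / 2000) :=
  ⟨by decide +kernel, by norm_num, by norm_num [R], cu_671_2000, Or.inl rfl⟩

private theorem a3_v2 : VD ⟨629145, 0, 65838, 0, 324030⟩ (1 / 4) (1 / 5) (6 / 25) :=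
  ⟨by decide +kernel, by norm_num, by norm_num [R], cu_6_25, Or.inr cl_1_5⟩

private theorem a3_2 : Rgn ⟨85019, 536604, 0, 0, 1048576⟩
    ⟨629145, 0, 65838, 0, 324030⟩ :=
  rgn_of a3_2_0 a3_2_1 (Or.inl rfl) (Or.inr a3_2_3)

private theorem a3_3_0 : FaceH ⟨110071, 536604, 0, 0, 1048576⟩
    ⟨564617, 0, 65838, 0, 324030⟩ :=
  faceH_of (n := 60) (x1 := 943719) (y1 := 574330) (r0 := 196912) (r1 := 3571594)
    (by decide +kernel) (by decide +kernel)

private theorem a3_3_1 : FaceH ⟨564617, 0, 65838, 0, 324030⟩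
    ⟨110071, 536604, 0, 0, 1048576⟩ :=
  faceH_of (n := 60) (x1 := 574330) (y1 := 943719) (r0 := 307849) (r1 := 5583766)
    (by decide +kernel) (by decide +kernel)

private theorem a3_3_3 : FaceV ⟨564617, 0, 65838, 0, 324030⟩
    ⟨110071, 536604, 0, 0, 1048576⟩ :=
  faceV_of (n := 60) (x1 := 574330) (y1 := 943719) (r0 := 307849) (r1 := 5583766)
    (by decide +kernel) (by decide +kernel) (by decide +kernel)

private theorem a3_u3 : VD ⟨110071, 536604, 0, 0, 1048576⟩ (81 / 100) 0 (671 / 2000) :=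
  ⟨by decide +kernel, by norm_num, by norm_num [R], cu_671_2000, Or.inl rfl⟩

private theorem a3_v3 : VD ⟨564617, 0, 65838, 0, 324030⟩ (3 / 10) (1 / 5) (6 / 25) :=
  ⟨by decide +kernel, by norm_num, by norm_num [R], cu_6_25, Or.inr cl_1_5⟩

private theorem a3_3 : Rgn ⟨110071, 536604, 0, 0, 1048576⟩
    ⟨564617, 0, 65838, 0, 324030⟩ :=
  rgn_of a3_3_0 a3_3_1 (Or.inl rfl) (Or.inr a3_3_3)

private theorem a3_4_0 : FaceH ⟨132918, 536604, 0, 0, 1048576⟩
    ⟨504869, 0, 65838, 0, 324030⟩ :=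
  faceH_of (n := 60) (x1 := 923105) (y1 := 620347) (r0 := 189619) (r1 := 3502529)
    (by decide +kernel) (by decide +kernel)

private theorem a3_4_1 : FaceH ⟨504869, 0, 65838, 0, 324030⟩
    ⟨132918, 536604, 0, 0, 1048576⟩ :=
  faceH_of (n := 60) (x1 := 620347) (y1 := 923105) (r0 := 313919) (r1 := 5798527)
    (by decide +kernel) (by decide +kernel)

private theorem a3_4_3 : FaceV ⟨504869, 0, 65838, 0, 324030⟩
    ⟨132918, 536604, 0, 0, 1048576⟩ :=
  faceV_of (n := 60) (x1 := 620347) (y1 := 923105) (r0 := 313919) (r1 := 5798527)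
    (by decide +kernel) (by decide +kernel) (by decide +kernel)

private theorem a3_u4 : VD ⟨132918, 536604, 0, 0, 1048576⟩ (31 / 40) 0 (671 / 2000) :=
  ⟨by decide +kernel, by norm_num, by norm_num [R], cu_671_2000, Or.inl rfl⟩

private theorem a3_v4 : VD ⟨504869, 0, 65838, 0, 324030⟩ (7 / 20) (1 / 5) (6 / 25) :=
  ⟨by decide +kernel, by norm_num, by norm_num [R], cu_6_25, Or.inr cl_1_5⟩

private theorem a3_4 : Rgn ⟨132918, 536604, 0, 0, 1048576⟩
    ⟨504869, 0, 65838, 0, 324030⟩ :=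
  rgn_of a3_4_0 a3_4_1 (Or.inl rfl) (Or.inr a3_4_3)

private theorem a3_5_0 : FaceH ⟨153230, 536604, 0, 0, 1048576⟩
    ⟨492830, 0, 65838, 0, 324030⟩ :=
  faceH_of (n := 60) (x1 := 905062) (y1 := 629622) (r0 := 188149) (r1 := 3443332)
    (by decide +kernel) (by decide +kernel)

private theorem a3_5_1 : FaceH ⟨492830, 0, 65838, 0, 324030⟩
    ⟨153230, 536604, 0, 0, 1048576⟩ :=
  faceH_of (n := 60) (x1 := 629622) (y1 := 905062) (r0 := 319316) (r1 := 5843816)
    (by decide +kernel) (by decide +kernel)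

private theorem a3_5_3 : FaceV ⟨492830, 0, 65838, 0, 324030⟩
    ⟨153230, 536604, 0, 0, 1048576⟩ :=
  faceV_of (n := 60) (x1 := 629622) (y1 := 905062) (r0 := 319316) (r1 := 5843816)
    (by decide +kernel) (by decide +kernel) (by decide +kernel)

private theorem a3_u5 : VD ⟨153230, 536604, 0, 0, 1048576⟩ (149 / 200) 0 (671 / 2000) :=
  ⟨by decide +kernel, by norm_num, by norm_num [R], cu_671_2000, Or.inl rfl⟩

private theorem a3_v5 : VD ⟨492830, 0, 65838, 0, 324030⟩ (53 / 147) (1 / 5) (6 / 25) :=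
  ⟨by decide +kernel, by norm_num, by norm_num [R], cu_6_25, Or.inr cl_1_5⟩

private theorem a3_5 : Rgn ⟨153230, 536604, 0, 0, 1048576⟩
    ⟨492830, 0, 65838, 0, 324030⟩ :=
  rgn_of a3_5_0 a3_5_1 (Or.inl rfl) (Or.inr a3_5_3)

theorem flat_a3 {θ θ' : ℝ} {v w : ℂ} (h : T2.Pr θ θ' v w)
    (j : J3 (Real.tan θ ^ 2) (Real.tan θ' ^ 2)) (t1 : Real.tan θ ^ 2 < 1)
    (t2 : Real.tan θ' ^ 2 ≤ 53 / 147)
    (h2 : v.re ≤ 671 / 2000) (h3 : 1 / 5 ≤ w.re) (h4 : w.re ≤ 6 / 25) :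
    FlatM (1 / cos (Real.pi * v) ^ 2) (1 / cos (Real.pi * (starRingEnd ℂ) w) ^ 2) := by
  rcases j.c23 t1 t2 with ⟨a, b⟩ | ⟨a, b⟩ | ⟨a, b⟩ | ⟨a, b⟩ | ⟨a, b⟩ | ⟨a, b⟩
  · exact a3_0.flatM a3_u0 a3_v0 h a b t1 (by linarith) h.hv.re0 h2 h3 h4
      (by norm_num) (by norm_num) (by norm_num) (by norm_num)
  · exact a3_1.flatM a3_u1 a3_v1 h a b t1 (by linarith) h.hv.re0 h2 h3 h4
      (by norm_num) (by norm_num) (by norm_num) (by norm_num)
  · exact a3_2.flatM a3_u2 a3_v2 h a b t1 (by linarith) h.hv.re0 h2 h3 h4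
      (by norm_num) (by norm_num) (by norm_num) (by norm_num)
  · exact a3_3.flatM a3_u3 a3_v3 h a b t1 (by linarith) h.hv.re0 h2 h3 h4
      (by norm_num) (by norm_num) (by norm_num) (by norm_num)
  · exact a3_4.flatM a3_u4 a3_v4 h a b t1 (by linarith) h.hv.re0 h2 h3 h4
      (by norm_num) (by norm_num) (by norm_num) (by norm_num)
  · exact a3_5.flatM a3_u5 a3_v5 h a b t1 (by linarith) h.hv.re0 h2 h3 h4
      (by norm_num) (by norm_num) (by norm_num) (by norm_num)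

end Pool.Agent.S3.Ck
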