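import Pool.Agent.S3.Ck.Cos
import Pool.Agent.S3.Ck.SoundG

/-!
# Flats: a4
-/

set_option autoImplicit false
set_option maxRecDepth 100000

namespace Pool.Agent.S3.Ck

open Complex

private theorem a4_0_0 : FaceH ⟨0, 597537, 0, 0, 1048576⟩
    ⟨857925, 196486, 0, 0, 65843⟩ :=
  faceH_of (n := 60) (x1 := 1048576) (y1 := 331590) (r0 := 205017) (r1 := 5161482)
    (by decide +kernel) (by decide +kernel)

private theorem a4_0_1 : FaceH ⟨857925, 196486, 0, 0, 65843⟩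
    ⟨0, 597537, 0, 0, 1048576⟩ :=
  faceH_of (n := 60) (x1 := 331590) (y1 := 1048576) (r0 := 213022) (r1 := 5363010)
    (by decide +kernel) (by decide +kernel)

private theorem a4_0_3 : FaceV ⟨857925, 196486, 0, 0, 65843⟩
    ⟨0, 597537, 0, 0, 1048576⟩ :=
  faceV_of (n := 60) (x1 := 331590) (y1 := 1048576) (r0 := 213022) (r1 := 5363010)
    (by decide +kernel) (by decide +kernel) (by decide +kernel)

private theorem a4_u0 : VD ⟨0, 597537, 0, 0, 1048576⟩ 1 0 (693 / 2000) :=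
  ⟨by decide +kernel, by norm_num, by norm_num [R], cu_693_2000, Or.inl rfl⟩

private theorem a4_v0 : VD ⟨857925, 196486, 0, 0, 65843⟩ (1 / 10) (6 / 25) (7 / 25) :=
  ⟨by decide +kernel, by norm_num, by norm_num [R], cu_7_25, Or.inr cl_6_25⟩

private theorem a4_0 : Rgn ⟨0, 597537, 0, 0, 1048576⟩
    ⟨857925, 196486, 0, 0, 65843⟩ :=
  rgn_of a4_0_0 a4_0_1 (Or.inl rfl) (Or.inr a4_0_3)

private theorem a4_1_0 : FaceH ⟨32430, 597537, 0, 0, 1048576⟩
    ⟨699050, 196486, 0, 0, 65843⟩ :=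
  faceH_of (n := 60) (x1 := 1016633) (y1 := 468938) (r0 := 187932) (r1 := 5006638)
    (by decide +kernel) (by decide +kernel)

private theorem a4_1_1 : FaceH ⟨699050, 196486, 0, 0, 65843⟩
    ⟨32430, 597537, 0, 0, 1048576⟩ :=
  faceH_of (n := 60) (x1 := 468938) (y1 := 1016633) (r0 := 219610) (r1 := 5850556)
    (by decide +kernel) (by decide +kernel)

private theorem a4_1_3 : FaceV ⟨699050, 196486, 0, 0, 65843⟩
    ⟨32430, 597537, 0, 0, 1048576⟩ :=
  faceV_of (n := 60) (x1 := 468938) (y1 := 1016633) (r0 := 219610) (r1 := 5850556)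
    (by decide +kernel) (by decide +kernel) (by decide +kernel)

private theorem a4_u1 : VD ⟨32430, 597537, 0, 0, 1048576⟩ (47 / 50) 0 (693 / 2000) :=
  ⟨by decide +kernel, by norm_num, by norm_num [R], cu_693_2000, Or.inl rfl⟩

private theorem a4_v1 : VD ⟨699050, 196486, 0, 0, 65843⟩ (1 / 5) (6 / 25) (7 / 25) :=
  ⟨by decide +kernel, by norm_num, by norm_num [R], cu_7_25, Or.inr cl_6_25⟩

private theorem a4_1 : Rgn ⟨32430, 597537, 0, 0, 1048576⟩
    ⟨699050, 196486, 0, 0, 65843⟩ :=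
  rgn_of a4_1_0 a4_1_1 (Or.inl rfl) (Or.inr a4_1_3)

private theorem a4_2_0 : FaceH ⟨85019, 597537, 0, 0, 1048576⟩
    ⟨629145, 196486, 0, 0, 65843⟩ :=
  faceH_of (n := 60) (x1 := 966740) (y1 := 524289) (r0 := 180415) (r1 := 4774373)
    (by decide +kernel) (by decide +kernel)

private theorem a4_2_1 : FaceH ⟨629145, 196486, 0, 0, 65843⟩
    ⟨85019, 597537, 0, 0, 1048576⟩ :=
  faceH_of (n := 60) (x1 := 524289) (y1 := 966740) (r0 := 230294) (r1 := 6094329)
    (by decide +kernel) (by decide +kernel)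

private theorem a4_2_3 : FaceV ⟨629145, 196486, 0, 0, 65843⟩
    ⟨85019, 597537, 0, 0, 1048576⟩ :=
  faceV_of (n := 60) (x1 := 524289) (y1 := 966740) (r0 := 230294) (r1 := 6094329)
    (by decide +kernel) (by decide +kernel) (by decide +kernel)

private theorem a4_u2 : VD ⟨85019, 597537, 0, 0, 1048576⟩ (17 / 20) 0 (693 / 2000) :=
  ⟨by decide +kernel, by norm_num, by norm_num [R], cu_693_2000, Or.inl rfl⟩

private theorem a4_v2 : VD ⟨629145, 196486, 0, 0, 65843⟩ (1 / 4) (6 / 25) (7 / 25) :=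
  ⟨by decide +kernel, by norm_num, by norm_num [R], cu_7_25, Or.inr cl_6_25⟩

private theorem a4_2 : Rgn ⟨85019, 597537, 0, 0, 1048576⟩
    ⟨629145, 196486, 0, 0, 65843⟩ :=
  rgn_of a4_2_0 a4_2_1 (Or.inl rfl) (Or.inr a4_2_3)

private theorem a4_3_0 : FaceH ⟨110071, 597537, 0, 0, 1048576⟩
    ⟨564617, 196486, 0, 0, 65843⟩ :=
  faceH_of (n := 60) (x1 := 943719) (y1 := 574330) (r0 := 173476) (r1 := 4671143)
    (by decide +kernel) (by decide +kernel)

private theorem a4_3_1 : FaceH ⟨564617, 196486, 0, 0, 65843⟩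
    ⟨110071, 597537, 0, 0, 1048576⟩ :=
  faceH_of (n := 60) (x1 := 574330) (y1 := 943719) (r0 := 235383) (r1 := 6338104)
    (by decide +kernel) (by decide +kernel)

private theorem a4_3_3 : FaceV ⟨564617, 196486, 0, 0, 65843⟩
    ⟨110071, 597537, 0, 0, 1048576⟩ :=
  faceV_of (n := 60) (x1 := 574330) (y1 := 943719) (r0 := 235383) (r1 := 6338104)
    (by decide +kernel) (by decide +kernel) (by decide +kernel)

private theorem a4_u3 : VD ⟨110071, 597537, 0, 0, 1048576⟩ (81 / 100) 0 (693 / 2000) :=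
  ⟨by decide +kernel, by norm_num, by norm_num [R], cu_693_2000, Or.inl rfl⟩

private theorem a4_v3 : VD ⟨564617, 196486, 0, 0, 65843⟩ (3 / 10) (6 / 25) (7 / 25) :=
  ⟨by decide +kernel, by norm_num, by norm_num [R], cu_7_25, Or.inr cl_6_25⟩

private theorem a4_3 : Rgn ⟨110071, 597537, 0, 0, 1048576⟩
    ⟨564617, 196486, 0, 0, 65843⟩ :=
  rgn_of a4_3_0 a4_3_1 (Or.inl rfl) (Or.inr a4_3_3)

private theorem a4_4_0 : FaceH ⟨132918, 597537, 0, 0, 1048576⟩
    ⟨504869, 196486, 0, 0, 65843⟩ :=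
  faceH_of (n := 60) (x1 := 923105) (y1 := 620347) (r0 := 167051) (r1 := 4580815)
    (by decide +kernel) (by decide +kernel)

private theorem a4_4_1 : FaceH ⟨504869, 196486, 0, 0, 65843⟩
    ⟨132918, 597537, 0, 0, 1048576⟩ :=
  faceH_of (n := 60) (x1 := 620347) (y1 := 923105) (r0 := 240025) (r1 := 6581877)
    (by decide +kernel) (by decide +kernel)

private theorem a4_4_3 : FaceV ⟨504869, 196486, 0, 0, 65843⟩
    ⟨132918, 597537, 0, 0, 1048576⟩ :=
  faceV_of (n := 60) (x1 := 620347) (y1 := 923105) (r0 := 240025) (r1 := 6581877)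
    (by decide +kernel) (by decide +kernel) (by decide +kernel)

private theorem a4_u4 : VD ⟨132918, 597537, 0, 0, 1048576⟩ (31 / 40) 0 (693 / 2000) :=
  ⟨by decide +kernel, by norm_num, by norm_num [R], cu_693_2000, Or.inl rfl⟩

private theorem a4_v4 : VD ⟨504869, 196486, 0, 0, 65843⟩ (7 / 20) (6 / 25) (7 / 25) :=
  ⟨by decide +kernel, by norm_num, by norm_num [R], cu_7_25, Or.inr cl_6_25⟩

private theorem a4_4 : Rgn ⟨132918, 597537, 0, 0, 1048576⟩
    ⟨504869, 196486, 0, 0, 65843⟩ :=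
  rgn_of a4_4_0 a4_4_1 (Or.inl rfl) (Or.inr a4_4_3)

private theorem a4_5_0 : FaceH ⟨153230, 597537, 0, 0, 1048576⟩
    ⟨492830, 196486, 0, 0, 65843⟩ :=
  faceH_of (n := 60) (x1 := 905062) (y1 := 629622) (r0 := 165756) (r1 := 4503394)
    (by decide +kernel) (by decide +kernel)

private theorem a4_5_1 : FaceH ⟨492830, 196486, 0, 0, 65843⟩
    ⟨153230, 597537, 0, 0, 1048576⟩ :=
  faceH_of (n := 60) (x1 := 629622) (y1 := 905062) (r0 := 244151) (r1 := 6633284)
    (by decide +kernel) (by decide +kernel)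

private theorem a4_5_3 : FaceV ⟨492830, 196486, 0, 0, 65843⟩
    ⟨153230, 597537, 0, 0, 1048576⟩ :=
  faceV_of (n := 60) (x1 := 629622) (y1 := 905062) (r0 := 244151) (r1 := 6633284)
    (by decide +kernel) (by decide +kernel) (by decide +kernel)

private theorem a4_u5 : VD ⟨153230, 597537, 0, 0, 1048576⟩ (149 / 200) 0 (693 / 2000) :=
  ⟨by decide +kernel, by norm_num, by norm_num [R], cu_693_2000, Or.inl rfl⟩

private theorem a4_v5 : VD ⟨492830, 196486, 0, 0, 65843⟩ (53 / 147) (6 / 25) (7 / 25) :=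
  ⟨by decide +kernel, by norm_num, by norm_num [R], cu_7_25, Or.inr cl_6_25⟩

private theorem a4_5 : Rgn ⟨153230, 597537, 0, 0, 1048576⟩
    ⟨492830, 196486, 0, 0, 65843⟩ :=
  rgn_of a4_5_0 a4_5_1 (Or.inl rfl) (Or.inr a4_5_3)

theorem flat_a4 {θ θ' : ℝ} {v w : ℂ} (h : T2.Pr θ θ' v w)
    (j : J3 (Real.tan θ ^ 2) (Real.tan θ' ^ 2)) (t1 : Real.tan θ ^ 2 < 1)
    (t2 : Real.tan θ' ^ 2 ≤ 53 / 147)
    (h2 : v.re ≤ 693 / 2000) (h3 : 6 / 25 ≤ w.re) (h4 : w.re ≤ 7 / 25) :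
    FlatM (1 / cos (Real.pi * v) ^ 2) (1 / cos (Real.pi * (starRingEnd ℂ) w) ^ 2) := by
  rcases j.c23 t1 t2 with ⟨a, b⟩ | ⟨a, b⟩ | ⟨a, b⟩ | ⟨a, b⟩ | ⟨a, b⟩ | ⟨a, b⟩
  · exact a4_0.flatM a4_u0 a4_v0 h a b t1 (by linarith) h.hv.re0 h2 h3 h4
      (by norm_num) (by norm_num) (by norm_num) (by norm_num)
  · exact a4_1.flatM a4_u1 a4_v1 h a b t1 (by linarith) h.hv.re0 h2 h3 h4
      (by norm_num) (by norm_num) (by norm_num) (by norm_num)
  · exact a4_2.flatM a4_u2 a4_v2 h a b t1 (by linarith) h.hv.re0 h2 h3 h4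
      (by norm_num) (by norm_num) (by norm_num) (by norm_num)
  · exact a4_3.flatM a4_u3 a4_v3 h a b t1 (by linarith) h.hv.re0 h2 h3 h4
      (by norm_num) (by norm_num) (by norm_num) (by norm_num)
  · exact a4_4.flatM a4_u4 a4_v4 h a b t1 (by linarith) h.hv.re0 h2 h3 h4
      (by norm_num) (by norm_num) (by norm_num) (by norm_num)
  · exact a4_5.flatM a4_u5 a4_v5 h a b t1 (by linarith) h.hv.re0 h2 h3 h4
      (by norm_num) (by norm_num) (by norm_num) (by norm_num)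

end Pool.Agent.S3.Ck
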