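import Pool.Agent.S3.Ck.Cos
import Pool.Agent.S3.Ck.SoundG

/-!
# Flats: a5
-/

set_option autoImplicit false
set_option maxRecDepth 100000

namespace Pool.Agent.S3.Ck

open Complex

private theorem a5_0_0 : FaceH ⟨0, 673453, 0, 0, 1048576⟩
    ⟨857925, 260773, 0, 196481, 0⟩ :=
  faceH_of (n := 60) (x1 := 1048576) (y1 := 331590) (r0 := 170510) (r1 := 5582673)
    (by decide +kernel) (by decide +kernel)

private theorem a5_0_1 : FaceH ⟨857925, 260773, 0, 196481, 0⟩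
    ⟨0, 673453, 0, 0, 1048576⟩ :=
  faceH_of (n := 60) (x1 := 331590) (y1 := 1048576) (r0 := 196950) (r1 := 6448356)
    (by decide +kernel) (by decide +kernel)

private theorem a5_0_3 : FaceV ⟨857925, 260773, 0, 196481, 0⟩
    ⟨0, 673453, 0, 0, 1048576⟩ :=
  faceV_of (n := 60) (x1 := 331590) (y1 := 1048576) (r0 := 196950) (r1 := 6448356)
    (by decide +kernel) (by decide +kernel) (by decide +kernel)

private theorem a5_u0 : VD ⟨0, 673453, 0, 0, 1048576⟩ 1 0 (361 / 1000) :=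
  ⟨by decide +kernel, by norm_num, by norm_num [R], cu_361_1000, Or.inl rfl⟩

private theorem a5_v0 : VD ⟨857925, 260773, 0, 196481, 0⟩ (1 / 10) (7 / 25) (29 / 100) :=
  ⟨by decide +kernel, by norm_num, by norm_num [R], cu_29_100, Or.inr cl_7_25⟩

private theorem a5_0 : Rgn ⟨0, 673453, 0, 0, 1048576⟩
    ⟨857925, 260773, 0, 196481, 0⟩ :=
  rgn_of a5_0_0 a5_0_1 (Or.inl rfl) (Or.inr a5_0_3)

private theorem a5_1_0 : FaceH ⟨32430, 673453, 0, 0, 1048576⟩
    ⟨699050, 260773, 0, 196481, 0⟩ :=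
  faceH_of (n := 60) (x1 := 1016633) (y1 := 468938) (r0 := 156301) (r1 := 5415194)
    (by decide +kernel) (by decide +kernel)

private theorem a5_1_1 : FaceH ⟨699050, 260773, 0, 196481, 0⟩
    ⟨32430, 673453, 0, 0, 1048576⟩ :=
  faceH_of (n := 60) (x1 := 468938) (y1 := 1016633) (r0 := 203041) (r1 := 7034570)
    (by decide +kernel) (by decide +kernel)

private theorem a5_1_3 : FaceV ⟨699050, 260773, 0, 196481, 0⟩
    ⟨32430, 673453, 0, 0, 1048576⟩ :=
  faceV_of (n := 60) (x1 := 468938) (y1 := 1016633) (r0 := 203041) (r1 := 7034570)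
    (by decide +kernel) (by decide +kernel) (by decide +kernel)

private theorem a5_u1 : VD ⟨32430, 673453, 0, 0, 1048576⟩ (47 / 50) 0 (361 / 1000) :=
  ⟨by decide +kernel, by norm_num, by norm_num [R], cu_361_1000, Or.inl rfl⟩

private theorem a5_v1 : VD ⟨699050, 260773, 0, 196481, 0⟩ (1 / 5) (7 / 25) (29 / 100) :=
  ⟨by decide +kernel, by norm_num, by norm_num [R], cu_29_100, Or.inr cl_7_25⟩

private theorem a5_1 : Rgn ⟨32430, 673453, 0, 0, 1048576⟩
    ⟨699050, 260773, 0, 196481, 0⟩ :=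
  rgn_of a5_1_0 a5_1_1 (Or.inl rfl) (Or.inr a5_1_3)

private theorem a5_2_0 : FaceH ⟨85019, 673453, 0, 0, 1048576⟩
    ⟨629145, 260773, 0, 196481, 0⟩ :=
  faceH_of (n := 60) (x1 := 966740) (y1 := 524289) (r0 := 150049) (r1 := 5163976)
    (by decide +kernel) (by decide +kernel)

private theorem a5_2_1 : FaceH ⟨629145, 260773, 0, 196481, 0⟩
    ⟨85019, 673453, 0, 0, 1048576⟩ :=
  faceH_of (n := 60) (x1 := 524289) (y1 := 966740) (r0 := 212919) (r1 := 7327677)
    (by decide +kernel) (by decide +kernel)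

private theorem a5_2_3 : FaceV ⟨629145, 260773, 0, 196481, 0⟩
    ⟨85019, 673453, 0, 0, 1048576⟩ :=
  faceV_of (n := 60) (x1 := 524289) (y1 := 966740) (r0 := 212919) (r1 := 7327677)
    (by decide +kernel) (by decide +kernel) (by decide +kernel)

private theorem a5_u2 : VD ⟨85019, 673453, 0, 0, 1048576⟩ (17 / 20) 0 (361 / 1000) :=
  ⟨by decide +kernel, by norm_num, by norm_num [R], cu_361_1000, Or.inl rfl⟩

private theorem a5_v2 : VD ⟨629145, 260773, 0, 196481, 0⟩ (1 / 4) (7 / 25) (29 / 100) :=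
  ⟨by decide +kernel, by norm_num, by norm_num [R], cu_29_100, Or.inr cl_7_25⟩

private theorem a5_2 : Rgn ⟨85019, 673453, 0, 0, 1048576⟩
    ⟨629145, 260773, 0, 196481, 0⟩ :=
  rgn_of a5_2_0 a5_2_1 (Or.inl rfl) (Or.inr a5_2_3)

private theorem a5_3_0 : FaceH ⟨110071, 673453, 0, 0, 1048576⟩
    ⟨564617, 260773, 0, 196481, 0⟩ :=
  faceH_of (n := 60) (x1 := 943719) (y1 := 574330) (r0 := 144278) (r1 := 5052322)
    (by decide +kernel) (by decide +kernel)

private theorem a5_3_1 : FaceH ⟨564617, 260773, 0, 196481, 0⟩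
    ⟨110071, 673453, 0, 0, 1048576⟩ :=
  faceH_of (n := 60) (x1 := 574330) (y1 := 943719) (r0 := 217625) (r1 := 7620786)
    (by decide +kernel) (by decide +kernel)

private theorem a5_3_3 : FaceV ⟨564617, 260773, 0, 196481, 0⟩
    ⟨110071, 673453, 0, 0, 1048576⟩ :=
  faceV_of (n := 60) (x1 := 574330) (y1 := 943719) (r0 := 217625) (r1 := 7620786)
    (by decide +kernel) (by decide +kernel) (by decide +kernel)

private theorem a5_u3 : VD ⟨110071, 673453, 0, 0, 1048576⟩ (81 / 100) 0 (361 / 1000) :=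
  ⟨by decide +kernel, by norm_num, by norm_num [R], cu_361_1000, Or.inl rfl⟩

private theorem a5_v3 : VD ⟨564617, 260773, 0, 196481, 0⟩ (3 / 10) (7 / 25) (29 / 100) :=
  ⟨by decide +kernel, by norm_num, by norm_num [R], cu_29_100, Or.inr cl_7_25⟩

private theorem a5_3 : Rgn ⟨110071, 673453, 0, 0, 1048576⟩
    ⟨564617, 260773, 0, 196481, 0⟩ :=
  rgn_of a5_3_0 a5_3_1 (Or.inl rfl) (Or.inr a5_3_3)

private theorem a5_4_0 : FaceH ⟨132918, 673453, 0, 0, 1048576⟩
    ⟨504869, 260773, 0, 196481, 0⟩ :=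
  faceH_of (n := 60) (x1 := 923105) (y1 := 620347) (r0 := 138934) (r1 := 4954623)
    (by decide +kernel) (by decide +kernel)

private theorem a5_4_1 : FaceH ⟨504869, 260773, 0, 196481, 0⟩
    ⟨132918, 673453, 0, 0, 1048576⟩ :=
  faceH_of (n := 60) (x1 := 620347) (y1 := 923105) (r0 := 221916) (r1 := 7913893)
    (by decide +kernel) (by decide +kernel)

private theorem a5_4_3 : FaceV ⟨504869, 260773, 0, 196481, 0⟩
    ⟨132918, 673453, 0, 0, 1048576⟩ :=
  faceV_of (n := 60) (x1 := 620347) (y1 := 923105) (r0 := 221916) (r1 := 7913893)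
    (by decide +kernel) (by decide +kernel) (by decide +kernel)

private theorem a5_u4 : VD ⟨132918, 673453, 0, 0, 1048576⟩ (31 / 40) 0 (361 / 1000) :=
  ⟨by decide +kernel, by norm_num, by norm_num [R], cu_361_1000, Or.inl rfl⟩

private theorem a5_v4 : VD ⟨504869, 260773, 0, 196481, 0⟩ (7 / 20) (7 / 25) (29 / 100) :=
  ⟨by decide +kernel, by norm_num, by norm_num [R], cu_29_100, Or.inr cl_7_25⟩

private theorem a5_4 : Rgn ⟨132918, 673453, 0, 0, 1048576⟩
    ⟨504869, 260773, 0, 196481, 0⟩ :=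
  rgn_of a5_4_0 a5_4_1 (Or.inl rfl) (Or.inr a5_4_3)

private theorem a5_5_0 : FaceH ⟨153230, 673453, 0, 0, 1048576⟩
    ⟨492830, 260773, 0, 196481, 0⟩ :=
  faceH_of (n := 60) (x1 := 905062) (y1 := 629622) (r0 := 137857) (r1 := 4870884)
    (by decide +kernel) (by decide +kernel)

private theorem a5_5_1 : FaceH ⟨492830, 260773, 0, 196481, 0⟩
    ⟨153230, 673453, 0, 0, 1048576⟩ :=
  faceH_of (n := 60) (x1 := 629622) (y1 := 905062) (r0 := 225731) (r1 := 7975704)
    (by decide +kernel) (by decide +kernel)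

private theorem a5_5_3 : FaceV ⟨492830, 260773, 0, 196481, 0⟩
    ⟨153230, 673453, 0, 0, 1048576⟩ :=
  faceV_of (n := 60) (x1 := 629622) (y1 := 905062) (r0 := 225731) (r1 := 7975704)
    (by decide +kernel) (by decide +kernel) (by decide +kernel)

private theorem a5_u5 : VD ⟨153230, 673453, 0, 0, 1048576⟩ (149 / 200) 0 (361 / 1000) :=
  ⟨by decide +kernel, by norm_num, by norm_num [R], cu_361_1000, Or.inl rfl⟩

private theorem a5_v5 : VD ⟨492830, 260773, 0, 196481, 0⟩ (53 / 147) (7 / 25) (29 / 100) :=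
  ⟨by decide +kernel, by norm_num, by norm_num [R], cu_29_100, Or.inr cl_7_25⟩

private theorem a5_5 : Rgn ⟨153230, 673453, 0, 0, 1048576⟩
    ⟨492830, 260773, 0, 196481, 0⟩ :=
  rgn_of a5_5_0 a5_5_1 (Or.inl rfl) (Or.inr a5_5_3)

theorem flat_a5 {θ θ' : ℝ} {v w : ℂ} (h : T2.Pr θ θ' v w)
    (j : J3 (Real.tan θ ^ 2) (Real.tan θ' ^ 2)) (t1 : Real.tan θ ^ 2 < 1)
    (t2 : Real.tan θ' ^ 2 ≤ 53 / 147)
    (h2 : v.re ≤ 361 / 1000) (h3 : 7 / 25 ≤ w.re) (h4 : w.re ≤ 29 / 100) :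
    FlatM (1 / cos (Real.pi * v) ^ 2) (1 / cos (Real.pi * (starRingEnd ℂ) w) ^ 2) := by
  rcases j.c23 t1 t2 with ⟨a, b⟩ | ⟨a, b⟩ | ⟨a, b⟩ | ⟨a, b⟩ | ⟨a, b⟩ | ⟨a, b⟩
  · exact a5_0.flatM a5_u0 a5_v0 h a b t1 (by linarith) h.hv.re0 h2 h3 h4
      (by norm_num) (by norm_num) (by norm_num) (by norm_num)
  · exact a5_1.flatM a5_u1 a5_v1 h a b t1 (by linarith) h.hv.re0 h2 h3 h4
      (by norm_num) (by norm_num) (by norm_num) (by norm_num)
  · exact a5_2.flatM a5_u2 a5_v2 h a b t1 (by linarith) h.hv.re0 h2 h3 h4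
      (by norm_num) (by norm_num) (by norm_num) (by norm_num)
  · exact a5_3.flatM a5_u3 a5_v3 h a b t1 (by linarith) h.hv.re0 h2 h3 h4
      (by norm_num) (by norm_num) (by norm_num) (by norm_num)
  · exact a5_4.flatM a5_u4 a5_v4 h a b t1 (by linarith) h.hv.re0 h2 h3 h4
      (by norm_num) (by norm_num) (by norm_num) (by norm_num)
  · exact a5_5.flatM a5_u5 a5_v5 h a b t1 (by linarith) h.hv.re0 h2 h3 h4
      (by norm_num) (by norm_num) (by norm_num) (by norm_num)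

end Pool.Agent.S3.Ck
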