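import Pool.Agent.S3.Ck.Cos
import Pool.Agent.S3.Ck.SoundG

/-!
# Flats: a7
-/

set_option autoImplicit false
set_option maxRecDepth 100000

namespace Pool.Agent.S3.Ck

open Complex

private theorem a7_0_0 : FaceH ⟨0, 693438, 0, 0, 616340⟩
    ⟨857925, 324030, 0, 292541, 0⟩ :=
  faceH_of (n := 60) (x1 := 1048576) (y1 := 331590) (r0 := 161426) (r1 := 6070073)
    (by decide +kernel) (by decide +kernel)

private theorem a7_0_1 : FaceH ⟨857925, 324030, 0, 292541, 0⟩
    ⟨0, 693438, 0, 0, 616340⟩ :=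
  faceH_of (n := 60) (x1 := 331590) (y1 := 1048576) (r0 := 181136) (r1 := 6811231)
    (by decide +kernel) (by decide +kernel)

private theorem a7_0_2 : FaceV ⟨0, 693438, 0, 0, 616340⟩
    ⟨857925, 324030, 0, 292541, 0⟩ :=
  faceV_of (n := 60) (x1 := 1048576) (y1 := 331590) (r0 := 161426) (r1 := 6070073)
    (by decide +kernel) (by decide +kernel) (by decide +kernel)

private theorem a7_0_3 : FaceV ⟨857925, 324030, 0, 292541, 0⟩
    ⟨0, 693438, 0, 0, 616340⟩ :=
  faceV_of (n := 60) (x1 := 331590) (y1 := 1048576) (r0 := 181136) (r1 := 6811231)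
    (by decide +kernel) (by decide +kernel) (by decide +kernel)

private theorem a7_u0 : VD ⟨0, 693438, 0, 0, 616340⟩ 1 (3 / 20) (73 / 200) :=
  ⟨by decide +kernel, by norm_num, by norm_num [R], cu_73_200, Or.inr cl_3_20⟩

private theorem a7_v0 : VD ⟨857925, 324030, 0, 292541, 0⟩ (1 / 10) (59 / 200) (3 / 10) :=
  ⟨by decide +kernel, by norm_num, by norm_num [R], cu_3_10, Or.inr cl_59_200⟩

private theorem a7_0 : Rgn ⟨0, 693438, 0, 0, 616340⟩
    ⟨857925, 324030, 0, 292541, 0⟩ :=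
  rgn_of a7_0_0 a7_0_1 (Or.inr a7_0_2) (Or.inr a7_0_3)

private theorem a7_1_0 : FaceH ⟨32430, 693438, 0, 0, 616340⟩
    ⟨699050, 324030, 0, 292541, 0⟩ :=
  faceH_of (n := 60) (x1 := 1016633) (y1 := 468938) (r0 := 147974) (r1 := 5887972)
    (by decide +kernel) (by decide +kernel)

private theorem a7_1_1 : FaceH ⟨699050, 324030, 0, 292541, 0⟩
    ⟨32430, 693438, 0, 0, 616340⟩ :=
  faceH_of (n := 60) (x1 := 468938) (y1 := 1016633) (r0 := 186738) (r1 := 7430433)
    (by decide +kernel) (by decide +kernel)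

private theorem a7_1_2 : FaceV ⟨32430, 693438, 0, 0, 616340⟩
    ⟨699050, 324030, 0, 292541, 0⟩ :=
  faceV_of (n := 60) (x1 := 1016633) (y1 := 468938) (r0 := 147974) (r1 := 5887972)
    (by decide +kernel) (by decide +kernel) (by decide +kernel)

private theorem a7_1_3 : FaceV ⟨699050, 324030, 0, 292541, 0⟩
    ⟨32430, 693438, 0, 0, 616340⟩ :=
  faceV_of (n := 60) (x1 := 468938) (y1 := 1016633) (r0 := 186738) (r1 := 7430433)
    (by decide +kernel) (by decide +kernel) (by decide +kernel)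

private theorem a7_u1 : VD ⟨32430, 693438, 0, 0, 616340⟩ (47 / 50) (3 / 20) (73 / 200) :=
  ⟨by decide +kernel, by norm_num, by norm_num [R], cu_73_200, Or.inr cl_3_20⟩

private theorem a7_v1 : VD ⟨699050, 324030, 0, 292541, 0⟩ (1 / 5) (59 / 200) (3 / 10) :=
  ⟨by decide +kernel, by norm_num, by norm_num [R], cu_3_10, Or.inr cl_59_200⟩

private theorem a7_1 : Rgn ⟨32430, 693438, 0, 0, 616340⟩
    ⟨699050, 324030, 0, 292541, 0⟩ :=
  rgn_of a7_1_0 a7_1_1 (Or.inr a7_1_2) (Or.inr a7_1_3)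

private theorem a7_2_0 : FaceH ⟨85019, 693438, 0, 0, 616340⟩
    ⟨629145, 324030, 0, 292541, 0⟩ :=
  faceH_of (n := 60) (x1 := 966740) (y1 := 524289) (r0 := 142055) (r1 := 5614821)
    (by decide +kernel) (by decide +kernel)

private theorem a7_2_1 : FaceH ⟨629145, 324030, 0, 292541, 0⟩
    ⟨85019, 693438, 0, 0, 616340⟩ :=
  faceH_of (n := 60) (x1 := 524289) (y1 := 966740) (r0 := 195823) (r1 := 7740034)
    (by decide +kernel) (by decide +kernel)

private theorem a7_2_2 : FaceV ⟨85019, 693438, 0, 0, 616340⟩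
    ⟨629145, 324030, 0, 292541, 0⟩ :=
  faceV_of (n := 60) (x1 := 966740) (y1 := 524289) (r0 := 142055) (r1 := 5614821)
    (by decide +kernel) (by decide +kernel) (by decide +kernel)

private theorem a7_2_3 : FaceV ⟨629145, 324030, 0, 292541, 0⟩
    ⟨85019, 693438, 0, 0, 616340⟩ :=
  faceV_of (n := 60) (x1 := 524289) (y1 := 966740) (r0 := 195823) (r1 := 7740034)
    (by decide +kernel) (by decide +kernel) (by decide +kernel)

private theorem a7_u2 : VD ⟨85019, 693438, 0, 0, 616340⟩ (17 / 20) (3 / 20) (73 / 200) :=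
  ⟨by decide +kernel, by norm_num, by norm_num [R], cu_73_200, Or.inr cl_3_20⟩

private theorem a7_v2 : VD ⟨629145, 324030, 0, 292541, 0⟩ (1 / 4) (59 / 200) (3 / 10) :=
  ⟨by decide +kernel, by norm_num, by norm_num [R], cu_3_10, Or.inr cl_59_200⟩

private theorem a7_2 : Rgn ⟨85019, 693438, 0, 0, 616340⟩
    ⟨629145, 324030, 0, 292541, 0⟩ :=
  rgn_of a7_2_0 a7_2_1 (Or.inr a7_2_2) (Or.inr a7_2_3)

private theorem a7_3_0 : FaceH ⟨110071, 693438, 0, 0, 616340⟩
    ⟨564617, 324030, 0, 292541, 0⟩ :=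
  faceH_of (n := 60) (x1 := 943719) (y1 := 574330) (r0 := 136591) (r1 := 5493418)
    (by decide +kernel) (by decide +kernel)

private theorem a7_3_1 : FaceH ⟨564617, 324030, 0, 292541, 0⟩
    ⟨110071, 693438, 0, 0, 616340⟩ :=
  faceH_of (n := 60) (x1 := 574330) (y1 := 943719) (r0 := 200150) (r1 := 8049637)
    (by decide +kernel) (by decide +kernel)

private theorem a7_3_2 : FaceV ⟨110071, 693438, 0, 0, 616340⟩
    ⟨564617, 324030, 0, 292541, 0⟩ :=
  faceV_of (n := 60) (x1 := 943719) (y1 := 574330) (r0 := 136591) (r1 := 5493418)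
    (by decide +kernel) (by decide +kernel) (by decide +kernel)

private theorem a7_3_3 : FaceV ⟨564617, 324030, 0, 292541, 0⟩
    ⟨110071, 693438, 0, 0, 616340⟩ :=
  faceV_of (n := 60) (x1 := 574330) (y1 := 943719) (r0 := 200150) (r1 := 8049637)
    (by decide +kernel) (by decide +kernel) (by decide +kernel)

private theorem a7_u3 : VD ⟨110071, 693438, 0, 0, 616340⟩ (81 / 100) (3 / 20) (73 / 200) :=
  ⟨by decide +kernel, by norm_num, by norm_num [R], cu_73_200, Or.inr cl_3_20⟩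

private theorem a7_v3 : VD ⟨564617, 324030, 0, 292541, 0⟩ (3 / 10) (59 / 200) (3 / 10) :=
  ⟨by decide +kernel, by norm_num, by norm_num [R], cu_3_10, Or.inr cl_59_200⟩

private theorem a7_3 : Rgn ⟨110071, 693438, 0, 0, 616340⟩
    ⟨564617, 324030, 0, 292541, 0⟩ :=
  rgn_of a7_3_0 a7_3_1 (Or.inr a7_3_2) (Or.inr a7_3_3)

private theorem a7_4_0 : FaceH ⟨132918, 693438, 0, 0, 616340⟩
    ⟨504869, 324030, 0, 292541, 0⟩ :=
  faceH_of (n := 60) (x1 := 923105) (y1 := 620347) (r0 := 131532) (r1 := 5387190)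
    (by decide +kernel) (by decide +kernel)

private theorem a7_4_1 : FaceH ⟨504869, 324030, 0, 292541, 0⟩
    ⟨132918, 693438, 0, 0, 616340⟩ :=
  faceH_of (n := 60) (x1 := 620347) (y1 := 923105) (r0 := 204097) (r1 := 8359239)
    (by decide +kernel) (by decide +kernel)

private theorem a7_4_2 : FaceV ⟨132918, 693438, 0, 0, 616340⟩
    ⟨504869, 324030, 0, 292541, 0⟩ :=
  faceV_of (n := 60) (x1 := 923105) (y1 := 620347) (r0 := 131532) (r1 := 5387190)
    (by decide +kernel) (by decide +kernel) (by decide +kernel)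

private theorem a7_4_3 : FaceV ⟨504869, 324030, 0, 292541, 0⟩
    ⟨132918, 693438, 0, 0, 616340⟩ :=
  faceV_of (n := 60) (x1 := 620347) (y1 := 923105) (r0 := 204097) (r1 := 8359239)
    (by decide +kernel) (by decide +kernel) (by decide +kernel)

private theorem a7_u4 : VD ⟨132918, 693438, 0, 0, 616340⟩ (31 / 40) (3 / 20) (73 / 200) :=
  ⟨by decide +kernel, by norm_num, by norm_num [R], cu_73_200, Or.inr cl_3_20⟩

private theorem a7_v4 : VD ⟨504869, 324030, 0, 292541, 0⟩ (7 / 20) (59 / 200) (3 / 10) :=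
  ⟨by decide +kernel, by norm_num, by norm_num [R], cu_3_10, Or.inr cl_59_200⟩

private theorem a7_4 : Rgn ⟨132918, 693438, 0, 0, 616340⟩
    ⟨504869, 324030, 0, 292541, 0⟩ :=
  rgn_of a7_4_0 a7_4_1 (Or.inr a7_4_2) (Or.inr a7_4_3)

private theorem a7_5_0 : FaceH ⟨153230, 693438, 0, 0, 616340⟩
    ⟨492830, 324030, 0, 292541, 0⟩ :=
  faceH_of (n := 60) (x1 := 905062) (y1 := 629622) (r0 := 130513) (r1 := 5296140)
    (by decide +kernel) (by decide +kernel)

private theorem a7_5_1 : FaceH ⟨492830, 324030, 0, 292541, 0⟩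
    ⟨153230, 693438, 0, 0, 616340⟩ :=
  faceH_of (n := 60) (x1 := 629622) (y1 := 905062) (r0 := 207606) (r1 := 8424528)
    (by decide +kernel) (by decide +kernel)

private theorem a7_5_2 : FaceV ⟨153230, 693438, 0, 0, 616340⟩
    ⟨492830, 324030, 0, 292541, 0⟩ :=
  faceV_of (n := 60) (x1 := 905062) (y1 := 629622) (r0 := 130513) (r1 := 5296140)
    (by decide +kernel) (by decide +kernel) (by decide +kernel)

private theorem a7_5_3 : FaceV ⟨492830, 324030, 0, 292541, 0⟩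
    ⟨153230, 693438, 0, 0, 616340⟩ :=
  faceV_of (n := 60) (x1 := 629622) (y1 := 905062) (r0 := 207606) (r1 := 8424528)
    (by decide +kernel) (by decide +kernel) (by decide +kernel)

private theorem a7_u5 : VD ⟨153230, 693438, 0, 0, 616340⟩ (149 / 200) (3 / 20) (73 / 200) :=
  ⟨by decide +kernel, by norm_num, by norm_num [R], cu_73_200, Or.inr cl_3_20⟩

private theorem a7_v5 : VD ⟨492830, 324030, 0, 292541, 0⟩ (53 / 147) (59 / 200) (3 / 10) :=
  ⟨by decide +kernel, by norm_num, by norm_num [R], cu_3_10, Or.inr cl_59_200⟩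

private theorem a7_5 : Rgn ⟨153230, 693438, 0, 0, 616340⟩
    ⟨492830, 324030, 0, 292541, 0⟩ :=
  rgn_of a7_5_0 a7_5_1 (Or.inr a7_5_2) (Or.inr a7_5_3)

theorem flat_a7 {θ θ' : ℝ} {v w : ℂ} (h : T2.Pr θ θ' v w)
    (j : J3 (Real.tan θ ^ 2) (Real.tan θ' ^ 2)) (t1 : Real.tan θ ^ 2 < 1)
    (t2 : Real.tan θ' ^ 2 ≤ 53 / 147)
    (h1 : 3 / 20 ≤ v.re) (h2 : v.re ≤ 73 / 200) (h3 : 59 / 200 ≤ w.re) (h4 : w.re ≤ 3 / 10) :
    FlatM (1 / cos (Real.pi * v) ^ 2) (1 / cos (Real.pi * (starRingEnd ℂ) w) ^ 2) := by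
  rcases j.c23 t1 t2 with ⟨a, b⟩ | ⟨a, b⟩ | ⟨a, b⟩ | ⟨a, b⟩ | ⟨a, b⟩ | ⟨a, b⟩
  · exact a7_0.flatM a7_u0 a7_v0 h a b t1 (by linarith) h1 h2 h3 h4
      (by norm_num) (by norm_num) (by norm_num) (by norm_num)
  · exact a7_1.flatM a7_u1 a7_v1 h a b t1 (by linarith) h1 h2 h3 h4
      (by norm_num) (by norm_num) (by norm_num) (by norm_num)
  · exact a7_2.flatM a7_u2 a7_v2 h a b t1 (by linarith) h1 h2 h3 h4
      (by norm_num) (by norm_num) (by norm_num) (by norm_num)
  · exact a7_3.flatM a7_u3 a7_v3 h a b t1 (by linarith) h1 h2 h3 h4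
      (by norm_num) (by norm_num) (by norm_num) (by norm_num)
  · exact a7_4.flatM a7_u4 a7_v4 h a b t1 (by linarith) h1 h2 h3 h4
      (by norm_num) (by norm_num) (by norm_num) (by norm_num)
  · exact a7_5.flatM a7_u5 a7_v5 h a b t1 (by linarith) h1 h2 h3 h4
      (by norm_num) (by norm_num) (by norm_num) (by norm_num)

end Pool.Agent.S3.Ck
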