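import Pool.Agent.S3.Ck.Cos
import Pool.Agent.S3.Ck.SoundG

/-!
# Flats: a8
-/

set_option autoImplicit false
set_option maxRecDepth 100000

namespace Pool.Agent.S3.Ck

open Complex

private theorem a8_0_0 : FaceH ⟨0, 693438, 0, 0, 446464⟩
    ⟨857925, 355195, 0, 324025, 0⟩ :=
  faceH_of (n := 60) (x1 := 1048576) (y1 := 331590) (r0 := 161426) (r1 := 6342901)
    (by decide +kernel) (by decide +kernel)

private theorem a8_0_1 : FaceH ⟨857925, 355195, 0, 324025, 0⟩
    ⟨0, 693438, 0, 0, 446464⟩ :=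
  faceH_of (n := 60) (x1 := 331590) (y1 := 1048576) (r0 := 173345) (r1 := 6811231)
    (by decide +kernel) (by decide +kernel)

private theorem a8_0_2 : FaceV ⟨0, 693438, 0, 0, 446464⟩
    ⟨857925, 355195, 0, 324025, 0⟩ :=
  faceV_of (n := 60) (x1 := 1048576) (y1 := 331590) (r0 := 161426) (r1 := 6342901)
    (by decide +kernel) (by decide +kernel) (by decide +kernel)

private theorem a8_0_3 : FaceV ⟨857925, 355195, 0, 324025, 0⟩
    ⟨0, 693438, 0, 0, 446464⟩ :=
  faceV_of (n := 60) (x1 := 331590) (y1 := 1048576) (r0 := 173345) (r1 := 6811231)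
    (by decide +kernel) (by decide +kernel) (by decide +kernel)

private theorem a8_u0 : VD ⟨0, 693438, 0, 0, 446464⟩ 1 (9 / 50) (73 / 200) :=
  ⟨by decide +kernel, by norm_num, by norm_num [R], cu_73_200, Or.inr cl_9_50⟩

private theorem a8_v0 : VD ⟨857925, 355195, 0, 324025, 0⟩ (1 / 10) (3 / 10) (61 / 200) :=
  ⟨by decide +kernel, by norm_num, by norm_num [R], cu_61_200, Or.inr cl_3_10⟩

private theorem a8_0 : Rgn ⟨0, 693438, 0, 0, 446464⟩
    ⟨857925, 355195, 0, 324025, 0⟩ :=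
  rgn_of a8_0_0 a8_0_1 (Or.inr a8_0_2) (Or.inr a8_0_3)

private theorem a8_1_0 : FaceH ⟨32430, 693438, 0, 0, 446464⟩
    ⟨699050, 355195, 0, 324025, 0⟩ :=
  faceH_of (n := 60) (x1 := 1016633) (y1 := 468938) (r0 := 147974) (r1 := 6152615)
    (by decide +kernel) (by decide +kernel)

private theorem a8_1_1 : FaceH ⟨699050, 355195, 0, 324025, 0⟩
    ⟨32430, 693438, 0, 0, 446464⟩ :=
  faceH_of (n := 60) (x1 := 468938) (y1 := 1016633) (r0 := 178706) (r1 := 7430433)
    (by decide +kernel) (by decide +kernel)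

private theorem a8_1_2 : FaceV ⟨32430, 693438, 0, 0, 446464⟩
    ⟨699050, 355195, 0, 324025, 0⟩ :=
  faceV_of (n := 60) (x1 := 1016633) (y1 := 468938) (r0 := 147974) (r1 := 6152615)
    (by decide +kernel) (by decide +kernel) (by decide +kernel)

private theorem a8_1_3 : FaceV ⟨699050, 355195, 0, 324025, 0⟩
    ⟨32430, 693438, 0, 0, 446464⟩ :=
  faceV_of (n := 60) (x1 := 468938) (y1 := 1016633) (r0 := 178706) (r1 := 7430433)
    (by decide +kernel) (by decide +kernel) (by decide +kernel)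

private theorem a8_u1 : VD ⟨32430, 693438, 0, 0, 446464⟩ (47 / 50) (9 / 50) (73 / 200) :=
  ⟨by decide +kernel, by norm_num, by norm_num [R], cu_73_200, Or.inr cl_9_50⟩

private theorem a8_v1 : VD ⟨699050, 355195, 0, 324025, 0⟩ (1 / 5) (3 / 10) (61 / 200) :=
  ⟨by decide +kernel, by norm_num, by norm_num [R], cu_61_200, Or.inr cl_3_10⟩

private theorem a8_1 : Rgn ⟨32430, 693438, 0, 0, 446464⟩
    ⟨699050, 355195, 0, 324025, 0⟩ :=
  rgn_of a8_1_0 a8_1_1 (Or.inr a8_1_2) (Or.inr a8_1_3)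

private theorem a8_2_0 : FaceH ⟨85019, 693438, 0, 0, 446464⟩
    ⟨629145, 355195, 0, 324025, 0⟩ :=
  faceH_of (n := 60) (x1 := 966740) (y1 := 524289) (r0 := 142055) (r1 := 5867187)
    (by decide +kernel) (by decide +kernel)

private theorem a8_2_1 : FaceH ⟨629145, 355195, 0, 324025, 0⟩
    ⟨85019, 693438, 0, 0, 446464⟩ :=
  faceH_of (n := 60) (x1 := 524289) (y1 := 966740) (r0 := 187400) (r1 := 7740034)
    (by decide +kernel) (by decide +kernel)

private theorem a8_2_2 : FaceV ⟨85019, 693438, 0, 0, 446464⟩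
    ⟨629145, 355195, 0, 324025, 0⟩ :=
  faceV_of (n := 60) (x1 := 966740) (y1 := 524289) (r0 := 142055) (r1 := 5867187)
    (by decide +kernel) (by decide +kernel) (by decide +kernel)

private theorem a8_2_3 : FaceV ⟨629145, 355195, 0, 324025, 0⟩
    ⟨85019, 693438, 0, 0, 446464⟩ :=
  faceV_of (n := 60) (x1 := 524289) (y1 := 966740) (r0 := 187400) (r1 := 7740034)
    (by decide +kernel) (by decide +kernel) (by decide +kernel)

private theorem a8_u2 : VD ⟨85019, 693438, 0, 0, 446464⟩ (17 / 20) (9 / 50) (73 / 200) :=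
  ⟨by decide +kernel, by norm_num, by norm_num [R], cu_73_200, Or.inr cl_9_50⟩

private theorem a8_v2 : VD ⟨629145, 355195, 0, 324025, 0⟩ (1 / 4) (3 / 10) (61 / 200) :=
  ⟨by decide +kernel, by norm_num, by norm_num [R], cu_61_200, Or.inr cl_3_10⟩

private theorem a8_2 : Rgn ⟨85019, 693438, 0, 0, 446464⟩
    ⟨629145, 355195, 0, 324025, 0⟩ :=
  rgn_of a8_2_0 a8_2_1 (Or.inr a8_2_2) (Or.inr a8_2_3)

private theorem a8_3_0 : FaceH ⟨110071, 693438, 0, 0, 446464⟩
    ⟨564617, 355195, 0, 324025, 0⟩ :=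
  faceH_of (n := 60) (x1 := 943719) (y1 := 574330) (r0 := 136591) (r1 := 5740328)
    (by decide +kernel) (by decide +kernel)

private theorem a8_3_1 : FaceH ⟨564617, 355195, 0, 324025, 0⟩
    ⟨110071, 693438, 0, 0, 446464⟩ :=
  faceH_of (n := 60) (x1 := 574330) (y1 := 943719) (r0 := 191541) (r1 := 8049637)
    (by decide +kernel) (by decide +kernel)

private theorem a8_3_2 : FaceV ⟨110071, 693438, 0, 0, 446464⟩
    ⟨564617, 355195, 0, 324025, 0⟩ :=
  faceV_of (n := 60) (x1 := 943719) (y1 := 574330) (r0 := 136591) (r1 := 5740328)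
    (by decide +kernel) (by decide +kernel) (by decide +kernel)

private theorem a8_3_3 : FaceV ⟨564617, 355195, 0, 324025, 0⟩
    ⟨110071, 693438, 0, 0, 446464⟩ :=
  faceV_of (n := 60) (x1 := 574330) (y1 := 943719) (r0 := 191541) (r1 := 8049637)
    (by decide +kernel) (by decide +kernel) (by decide +kernel)

private theorem a8_u3 : VD ⟨110071, 693438, 0, 0, 446464⟩ (81 / 100) (9 / 50) (73 / 200) :=
  ⟨by decide +kernel, by norm_num, by norm_num [R], cu_73_200, Or.inr cl_9_50⟩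

private theorem a8_v3 : VD ⟨564617, 355195, 0, 324025, 0⟩ (3 / 10) (3 / 10) (61 / 200) :=
  ⟨by decide +kernel, by norm_num, by norm_num [R], cu_61_200, Or.inr cl_3_10⟩

private theorem a8_3 : Rgn ⟨110071, 693438, 0, 0, 446464⟩
    ⟨564617, 355195, 0, 324025, 0⟩ :=
  rgn_of a8_3_0 a8_3_1 (Or.inr a8_3_2) (Or.inr a8_3_3)

private theorem a8_4_0 : FaceH ⟨132918, 693438, 0, 0, 446464⟩
    ⟨504869, 355195, 0, 324025, 0⟩ :=
  faceH_of (n := 60) (x1 := 923105) (y1 := 620347) (r0 := 131532) (r1 := 5629325)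
    (by decide +kernel) (by decide +kernel)

private theorem a8_4_1 : FaceH ⟨504869, 355195, 0, 324025, 0⟩
    ⟨132918, 693438, 0, 0, 446464⟩ :=
  faceH_of (n := 60) (x1 := 620347) (y1 := 923105) (r0 := 195318) (r1 := 8359239)
    (by decide +kernel) (by decide +kernel)

private theorem a8_4_2 : FaceV ⟨132918, 693438, 0, 0, 446464⟩
    ⟨504869, 355195, 0, 324025, 0⟩ :=
  faceV_of (n := 60) (x1 := 923105) (y1 := 620347) (r0 := 131532) (r1 := 5629325)
    (by decide +kernel) (by decide +kernel) (by decide +kernel)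

private theorem a8_4_3 : FaceV ⟨504869, 355195, 0, 324025, 0⟩
    ⟨132918, 693438, 0, 0, 446464⟩ :=
  faceV_of (n := 60) (x1 := 620347) (y1 := 923105) (r0 := 195318) (r1 := 8359239)
    (by decide +kernel) (by decide +kernel) (by decide +kernel)

private theorem a8_u4 : VD ⟨132918, 693438, 0, 0, 446464⟩ (31 / 40) (9 / 50) (73 / 200) :=
  ⟨by decide +kernel, by norm_num, by norm_num [R], cu_73_200, Or.inr cl_9_50⟩

private theorem a8_v4 : VD ⟨504869, 355195, 0, 324025, 0⟩ (7 / 20) (3 / 10) (61 / 200) :=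
  ⟨by decide +kernel, by norm_num, by norm_num [R], cu_61_200, Or.inr cl_3_10⟩

private theorem a8_4 : Rgn ⟨132918, 693438, 0, 0, 446464⟩
    ⟨504869, 355195, 0, 324025, 0⟩ :=
  rgn_of a8_4_0 a8_4_1 (Or.inr a8_4_2) (Or.inr a8_4_3)

private theorem a8_5_0 : FaceH ⟨153230, 693438, 0, 0, 446464⟩
    ⟨492830, 355195, 0, 324025, 0⟩ :=
  faceH_of (n := 60) (x1 := 905062) (y1 := 629622) (r0 := 130513) (r1 := 5534182)
    (by decide +kernel) (by decide +kernel)

private theorem a8_5_1 : FaceH ⟨492830, 355195, 0, 324025, 0⟩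
    ⟨153230, 693438, 0, 0, 446464⟩ :=
  faceH_of (n := 60) (x1 := 629622) (y1 := 905062) (r0 := 198676) (r1 := 8424528)
    (by decide +kernel) (by decide +kernel)

private theorem a8_5_2 : FaceV ⟨153230, 693438, 0, 0, 446464⟩
    ⟨492830, 355195, 0, 324025, 0⟩ :=
  faceV_of (n := 60) (x1 := 905062) (y1 := 629622) (r0 := 130513) (r1 := 5534182)
    (by decide +kernel) (by decide +kernel) (by decide +kernel)

private theorem a8_5_3 : FaceV ⟨492830, 355195, 0, 324025, 0⟩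
    ⟨153230, 693438, 0, 0, 446464⟩ :=
  faceV_of (n := 60) (x1 := 629622) (y1 := 905062) (r0 := 198676) (r1 := 8424528)
    (by decide +kernel) (by decide +kernel) (by decide +kernel)

private theorem a8_u5 : VD ⟨153230, 693438, 0, 0, 446464⟩ (149 / 200) (9 / 50) (73 / 200) :=
  ⟨by decide +kernel, by norm_num, by norm_num [R], cu_73_200, Or.inr cl_9_50⟩

private theorem a8_v5 : VD ⟨492830, 355195, 0, 324025, 0⟩ (53 / 147) (3 / 10) (61 / 200) :=
  ⟨by decide +kernel, by norm_num, by norm_num [R], cu_61_200, Or.inr cl_3_10⟩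

private theorem a8_5 : Rgn ⟨153230, 693438, 0, 0, 446464⟩
    ⟨492830, 355195, 0, 324025, 0⟩ :=
  rgn_of a8_5_0 a8_5_1 (Or.inr a8_5_2) (Or.inr a8_5_3)

theorem flat_a8 {θ θ' : ℝ} {v w : ℂ} (h : T2.Pr θ θ' v w)
    (j : J3 (Real.tan θ ^ 2) (Real.tan θ' ^ 2)) (t1 : Real.tan θ ^ 2 < 1)
    (t2 : Real.tan θ' ^ 2 ≤ 53 / 147)
    (h1 : 9 / 50 ≤ v.re) (h2 : v.re ≤ 73 / 200) (h3 : 3 / 10 ≤ w.re) (h4 : w.re ≤ 61 / 200) :
    FlatM (1 / cos (Real.pi * v) ^ 2) (1 / cos (Real.pi * (starRingEnd ℂ) w) ^ 2) := by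
  rcases j.c23 t1 t2 with ⟨a, b⟩ | ⟨a, b⟩ | ⟨a, b⟩ | ⟨a, b⟩ | ⟨a, b⟩ | ⟨a, b⟩
  · exact a8_0.flatM a8_u0 a8_v0 h a b t1 (by linarith) h1 h2 h3 h4
      (by norm_num) (by norm_num) (by norm_num) (by norm_num)
  · exact a8_1.flatM a8_u1 a8_v1 h a b t1 (by linarith) h1 h2 h3 h4
      (by norm_num) (by norm_num) (by norm_num) (by norm_num)
  · exact a8_2.flatM a8_u2 a8_v2 h a b t1 (by linarith) h1 h2 h3 h4
      (by norm_num) (by norm_num) (by norm_num) (by norm_num)
  · exact a8_3.flatM a8_u3 a8_v3 h a b t1 (by linarith) h1 h2 h3 h4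
      (by norm_num) (by norm_num) (by norm_num) (by norm_num)
  · exact a8_4.flatM a8_u4 a8_v4 h a b t1 (by linarith) h1 h2 h3 h4
      (by norm_num) (by norm_num) (by norm_num) (by norm_num)
  · exact a8_5.flatM a8_u5 a8_v5 h a b t1 (by linarith) h1 h2 h3 h4
      (by norm_num) (by norm_num) (by norm_num) (by norm_num)

end Pool.Agent.S3.Ck
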