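import Pool.Agent.S3.Ck.Cos
import Pool.Agent.S3.Ck.SoundG

/-!
# Flats: b1
-/

set_option autoImplicit false
set_option maxRecDepth 100000

namespace Pool.Agent.S3.Ck

open Complex

private theorem b1_0_0 : FaceH ⟨0, 260773, 0, 0, 1048576⟩
    ⟨857925, 0, 764377, 0, 1048576⟩ :=
  faceH_of (n := 60) (x1 := 1048576) (y1 := 331590) (r0 := 358092) (r1 := 2425903)
    (by decide +kernel) (by decide +kernel)

private theorem b1_0_1 : FaceH ⟨857925, 0, 764377, 0, 1048576⟩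
    ⟨0, 260773, 0, 0, 1048576⟩ :=
  faceH_of (n := 60) (x1 := 331590) (y1 := 1048576) (r0 := 453238) (r1 := 3070472)
    (by decide +kernel) (by decide +kernel)

private theorem b1_u0 : VD ⟨0, 260773, 0, 0, 1048576⟩ 1 0 (29 / 100) :=
  ⟨by decide +kernel, by norm_num, by norm_num [R], cu_29_100, Or.inl rfl⟩

private theorem b1_v0 : VD ⟨857925, 0, 764377, 0, 1048576⟩ (1 / 10) 0 (3 / 25) :=
  ⟨by decide +kernel, by norm_num, by norm_num [R], cu_3_25, Or.inl rfl⟩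

private theorem b1_0 : Rgn ⟨0, 260773, 0, 0, 1048576⟩
    ⟨857925, 0, 764377, 0, 1048576⟩ :=
  rgn_of b1_0_0 b1_0_1 (Or.inl rfl) (Or.inl rfl)

private theorem b1_1_0 : FaceH ⟨32430, 260773, 0, 0, 1048576⟩
    ⟨699050, 0, 764377, 0, 1048576⟩ :=
  faceH_of (n := 60) (x1 := 1016633) (y1 := 468938) (r0 := 328251) (r1 := 2353126)
    (by decide +kernel) (by decide +kernel)

private theorem b1_1_1 : FaceH ⟨699050, 0, 764377, 0, 1048576⟩
    ⟨32430, 260773, 0, 0, 1048576⟩ :=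
  faceH_of (n := 60) (x1 := 468938) (y1 := 1016633) (r0 := 467255) (r1 := 3349606)
    (by decide +kernel) (by decide +kernel)

private theorem b1_u1 : VD ⟨32430, 260773, 0, 0, 1048576⟩ (47 / 50) 0 (29 / 100) :=
  ⟨by decide +kernel, by norm_num, by norm_num [R], cu_29_100, Or.inl rfl⟩

private theorem b1_v1 : VD ⟨699050, 0, 764377, 0, 1048576⟩ (1 / 5) 0 (3 / 25) :=
  ⟨by decide +kernel, by norm_num, by norm_num [R], cu_3_25, Or.inl rfl⟩

private theorem b1_1 : Rgn ⟨32430, 260773, 0, 0, 1048576⟩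
    ⟨699050, 0, 764377, 0, 1048576⟩ :=
  rgn_of b1_1_0 b1_1_1 (Or.inl rfl) (Or.inl rfl)

private theorem b1_2_0 : FaceH ⟨85019, 260773, 0, 0, 1048576⟩
    ⟨629145, 0, 764377, 0, 1048576⟩ :=
  faceH_of (n := 60) (x1 := 966740) (y1 := 524289) (r0 := 315121) (r1 := 2243961)
    (by decide +kernel) (by decide +kernel)

private theorem b1_2_1 : FaceH ⟨629145, 0, 764377, 0, 1048576⟩
    ⟨85019, 260773, 0, 0, 1048576⟩ :=
  faceH_of (n := 60) (x1 := 524289) (y1 := 966740) (r0 := 489987) (r1 := 3489172)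
    (by decide +kernel) (by decide +kernel)

private theorem b1_u2 : VD ⟨85019, 260773, 0, 0, 1048576⟩ (17 / 20) 0 (29 / 100) :=
  ⟨by decide +kernel, by norm_num, by norm_num [R], cu_29_100, Or.inl rfl⟩

private theorem b1_v2 : VD ⟨629145, 0, 764377, 0, 1048576⟩ (1 / 4) 0 (3 / 25) :=
  ⟨by decide +kernel, by norm_num, by norm_num [R], cu_3_25, Or.inl rfl⟩

private theorem b1_2 : Rgn ⟨85019, 260773, 0, 0, 1048576⟩
    ⟨629145, 0, 764377, 0, 1048576⟩ :=
  rgn_of b1_2_0 b1_2_1 (Or.inl rfl) (Or.inl rfl)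

private theorem b1_3_0 : FaceH ⟨857925, 260773, 0, 0, 1048576⟩
    ⟨0, 0, 764377, 0, 1048576⟩ :=
  faceH_of (n := 60) (x1 := 331590) (y1 := 1048576) (r0 := 196950) (r1 := 1334247)
    (by decide +kernel) (by decide +kernel)

private theorem b1_3_1 : FaceH ⟨0, 0, 764377, 0, 1048576⟩
    ⟨857925, 260773, 0, 0, 1048576⟩ :=
  faceH_of (n := 60) (x1 := 1048576) (y1 := 331590) (r0 := 824069) (r1 := 5582673)
    (by decide +kernel) (by decide +kernel)

private theorem b1_u3 : VD ⟨857925, 260773, 0, 0, 1048576⟩ (1 / 10) 0 (29 / 100) :=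
  ⟨by decide +kernel, by norm_num, by norm_num [R], cu_29_100, Or.inl rfl⟩

private theorem b1_v3 : VD ⟨0, 0, 764377, 0, 1048576⟩ 1 0 (3 / 25) :=
  ⟨by decide +kernel, by norm_num, by norm_num [R], cu_3_25, Or.inl rfl⟩

private theorem b1_3 : Rgn ⟨857925, 260773, 0, 0, 1048576⟩
    ⟨0, 0, 764377, 0, 1048576⟩ :=
  rgn_of b1_3_0 b1_3_1 (Or.inl rfl) (Or.inl rfl)

private theorem b1_4_0 : FaceH ⟨699050, 260773, 0, 0, 1048576⟩
    ⟨32430, 0, 764377, 0, 1048576⟩ :=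
  faceH_of (n := 60) (x1 := 468938) (y1 := 1016633) (r0 := 203041) (r1 := 1455542)
    (by decide +kernel) (by decide +kernel)

private theorem b1_4_1 : FaceH ⟨32430, 0, 764377, 0, 1048576⟩
    ⟨699050, 260773, 0, 0, 1048576⟩ :=
  faceH_of (n := 60) (x1 := 1016633) (y1 := 468938) (r0 := 755396) (r1 := 5415194)
    (by decide +kernel) (by decide +kernel)

private theorem b1_u4 : VD ⟨699050, 260773, 0, 0, 1048576⟩ (1 / 5) 0 (29 / 100) :=
  ⟨by decide +kernel, by norm_num, by norm_num [R], cu_29_100, Or.inl rfl⟩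

private theorem b1_v4 : VD ⟨32430, 0, 764377, 0, 1048576⟩ (47 / 50) 0 (3 / 25) :=
  ⟨by decide +kernel, by norm_num, by norm_num [R], cu_3_25, Or.inl rfl⟩

private theorem b1_4 : Rgn ⟨699050, 260773, 0, 0, 1048576⟩
    ⟨32430, 0, 764377, 0, 1048576⟩ :=
  rgn_of b1_4_0 b1_4_1 (Or.inl rfl) (Or.inl rfl)

private theorem b1_5_0 : FaceH ⟨629145, 260773, 0, 0, 1048576⟩
    ⟨85019, 0, 764377, 0, 1048576⟩ :=
  faceH_of (n := 60) (x1 := 524289) (y1 := 966740) (r0 := 212919) (r1 := 1516190)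
    (by decide +kernel) (by decide +kernel)

private theorem b1_5_1 : FaceH ⟨85019, 0, 764377, 0, 1048576⟩
    ⟨629145, 260773, 0, 0, 1048576⟩ :=
  faceH_of (n := 60) (x1 := 966740) (y1 := 524289) (r0 := 725180) (r1 := 5163976)
    (by decide +kernel) (by decide +kernel)

private theorem b1_u5 : VD ⟨629145, 260773, 0, 0, 1048576⟩ (1 / 4) 0 (29 / 100) :=
  ⟨by decide +kernel, by norm_num, by norm_num [R], cu_29_100, Or.inl rfl⟩

private theorem b1_v5 : VD ⟨85019, 0, 764377, 0, 1048576⟩ (17 / 20) 0 (3 / 25) :=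
  ⟨by decide +kernel, by norm_num, by norm_num [R], cu_3_25, Or.inl rfl⟩

private theorem b1_5 : Rgn ⟨629145, 260773, 0, 0, 1048576⟩
    ⟨85019, 0, 764377, 0, 1048576⟩ :=
  rgn_of b1_5_0 b1_5_1 (Or.inl rfl) (Or.inl rfl)

private theorem b1_6_0 : FaceH ⟨110071, 260773, 0, 0, 1048576⟩
    ⟨564617, 0, 764377, 0, 1048576⟩ :=
  faceH_of (n := 60) (x1 := 943719) (y1 := 574330) (r0 := 303000) (r1 := 2195443)
    (by decide +kernel) (by decide +kernel)

private theorem b1_6_1 : FaceH ⟨564617, 0, 764377, 0, 1048576⟩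
    ⟨110071, 260773, 0, 0, 1048576⟩ :=
  faceH_of (n := 60) (x1 := 574330) (y1 := 943719) (r0 := 500815) (r1 := 3628740)
    (by decide +kernel) (by decide +kernel)

private theorem b1_u6 : VD ⟨110071, 260773, 0, 0, 1048576⟩ (81 / 100) 0 (29 / 100) :=
  ⟨by decide +kernel, by norm_num, by norm_num [R], cu_29_100, Or.inl rfl⟩

private theorem b1_v6 : VD ⟨564617, 0, 764377, 0, 1048576⟩ (3 / 10) 0 (3 / 25) :=
  ⟨by decide +kernel, by norm_num, by norm_num [R], cu_3_25, Or.inl rfl⟩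

private theorem b1_6 : Rgn ⟨110071, 260773, 0, 0, 1048576⟩
    ⟨564617, 0, 764377, 0, 1048576⟩ :=
  rgn_of b1_6_0 b1_6_1 (Or.inl rfl) (Or.inl rfl)

private theorem b1_7_0 : FaceH ⟨132918, 260773, 0, 0, 1048576⟩
    ⟨504869, 0, 764377, 0, 1048576⟩ :=
  faceH_of (n := 60) (x1 := 923105) (y1 := 620347) (r0 := 291778) (r1 := 2152989)
    (by decide +kernel) (by decide +kernel)

private theorem b1_7_1 : FaceH ⟨504869, 0, 764377, 0, 1048576⟩
    ⟨132918, 260773, 0, 0, 1048576⟩ :=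
  faceH_of (n := 60) (x1 := 620347) (y1 := 923105) (r0 := 510690) (r1 := 3768307)
    (by decide +kernel) (by decide +kernel)

private theorem b1_u7 : VD ⟨132918, 260773, 0, 0, 1048576⟩ (31 / 40) 0 (29 / 100) :=
  ⟨by decide +kernel, by norm_num, by norm_num [R], cu_29_100, Or.inl rfl⟩

private theorem b1_v7 : VD ⟨504869, 0, 764377, 0, 1048576⟩ (7 / 20) 0 (3 / 25) :=
  ⟨by decide +kernel, by norm_num, by norm_num [R], cu_3_25, Or.inl rfl⟩

private theorem b1_7 : Rgn ⟨132918, 260773, 0, 0, 1048576⟩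
    ⟨504869, 0, 764377, 0, 1048576⟩ :=
  rgn_of b1_7_0 b1_7_1 (Or.inl rfl) (Or.inl rfl)

private theorem b1_8_0 : FaceH ⟨153230, 260773, 0, 0, 1048576⟩
    ⟨449389, 0, 764377, 0, 1048576⟩ :=
  faceH_of (n := 60) (x1 := 905062) (y1 := 663179) (r0 := 281358) (r1 := 2116601)
    (by decide +kernel) (by decide +kernel)

private theorem b1_8_1 : FaceH ⟨449389, 0, 764377, 0, 1048576⟩
    ⟨153230, 260773, 0, 0, 1048576⟩ :=
  faceH_of (n := 60) (x1 := 663179) (y1 := 905062) (r0 := 519470) (r1 := 3907873)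
    (by decide +kernel) (by decide +kernel)

private theorem b1_u8 : VD ⟨153230, 260773, 0, 0, 1048576⟩ (149 / 200) 0 (29 / 100) :=
  ⟨by decide +kernel, by norm_num, by norm_num [R], cu_29_100, Or.inl rfl⟩

private theorem b1_v8 : VD ⟨449389, 0, 764377, 0, 1048576⟩ (2 / 5) 0 (3 / 25) :=
  ⟨by decide +kernel, by norm_num, by norm_num [R], cu_3_25, Or.inl rfl⟩

private theorem b1_8 : Rgn ⟨153230, 260773, 0, 0, 1048576⟩
    ⟨449389, 0, 764377, 0, 1048576⟩ :=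
  rgn_of b1_8_0 b1_8_1 (Or.inl rfl) (Or.inl rfl)

private theorem b1_9_0 : FaceH ⟨174253, 260773, 0, 0, 1048576⟩
    ⟨397735, 0, 764377, 0, 1048576⟩ :=
  faceH_of (n := 60) (x1 := 886652) (y1 := 703407) (r0 := 271656) (r1 := 2080212)
    (by decide +kernel) (by decide +kernel)

private theorem b1_9_1 : FaceH ⟨397735, 0, 764377, 0, 1048576⟩
    ⟨174253, 260773, 0, 0, 1048576⟩ :=
  faceH_of (n := 60) (x1 := 703407) (y1 := 886652) (r0 := 528557) (r1 := 4047440)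
    (by decide +kernel) (by decide +kernel)

private theorem b1_u9 : VD ⟨174253, 260773, 0, 0, 1048576⟩ (143 / 200) 0 (29 / 100) :=
  ⟨by decide +kernel, by norm_num, by norm_num [R], cu_29_100, Or.inl rfl⟩

private theorem b1_v9 : VD ⟨397735, 0, 764377, 0, 1048576⟩ (9 / 20) 0 (3 / 25) :=
  ⟨by decide +kernel, by norm_num, by norm_num [R], cu_3_25, Or.inl rfl⟩

private theorem b1_9 : Rgn ⟨174253, 260773, 0, 0, 1048576⟩
    ⟨397735, 0, 764377, 0, 1048576⟩ :=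
  rgn_of b1_9_0 b1_9_1 (Or.inl rfl) (Or.inl rfl)

private theorem b1_10_0 : FaceH ⟨192342, 260773, 0, 0, 1048576⟩
    ⟨349525, 0, 764377, 0, 1048576⟩ :=
  faceH_of (n := 60) (x1 := 871013) (y1 := 741456) (r0 := 262600) (r1 := 2049888)
    (by decide +kernel) (by decide +kernel)

private theorem b1_10_1 : FaceH ⟨349525, 0, 764377, 0, 1048576⟩
    ⟨192342, 260773, 0, 0, 1048576⟩ :=
  faceH_of (n := 60) (x1 := 741456) (y1 := 871013) (r0 := 536376) (r1 := 4187006)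
    (by decide +kernel) (by decide +kernel)

private theorem b1_u10 : VD ⟨192342, 260773, 0, 0, 1048576⟩ (69 / 100) 0 (29 / 100) :=
  ⟨by decide +kernel, by norm_num, by norm_num [R], cu_29_100, Or.inl rfl⟩

private theorem b1_v10 : VD ⟨349525, 0, 764377, 0, 1048576⟩ (1 / 2) 0 (3 / 25) :=
  ⟨by decide +kernel, by norm_num, by norm_num [R], cu_3_25, Or.inl rfl⟩

private theorem b1_10 : Rgn ⟨192342, 260773, 0, 0, 1048576⟩
    ⟨349525, 0, 764377, 0, 1048576⟩ :=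
  rgn_of b1_10_0 b1_10_1 (Or.inl rfl) (Or.inl rfl)

private theorem b1_11_0 : FaceH ⟨207203, 260773, 0, 0, 1048576⟩
    ⟨304425, 0, 764377, 0, 1048576⟩ :=
  faceH_of (n := 60) (x1 := 858297) (y1 := 777646) (r0 := 254129) (r1 := 2025630)
    (by decide +kernel) (by decide +kernel)

private theorem b1_11_1 : FaceH ⟨304425, 0, 764377, 0, 1048576⟩
    ⟨207203, 260773, 0, 0, 1048576⟩ :=
  faceH_of (n := 60) (x1 := 777646) (y1 := 858297) (r0 := 542800) (r1 := 4326573)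
    (by decide +kernel) (by decide +kernel)

private theorem b1_u11 : VD ⟨207203, 260773, 0, 0, 1048576⟩ (67 / 100) 0 (29 / 100) :=
  ⟨by decide +kernel, by norm_num, by norm_num [R], cu_29_100, Or.inl rfl⟩

private theorem b1_v11 : VD ⟨304425, 0, 764377, 0, 1048576⟩ (11 / 20) 0 (3 / 25) :=
  ⟨by decide +kernel, by norm_num, by norm_num [R], cu_3_25, Or.inl rfl⟩

private theorem b1_11 : Rgn ⟨207203, 260773, 0, 0, 1048576⟩
    ⟨304425, 0, 764377, 0, 1048576⟩ :=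
  rgn_of b1_11_0 b1_11_1 (Or.inl rfl) (Or.inl rfl)

private theorem b1_12_0 : FaceH ⟨222425, 260773, 0, 0, 1048576⟩
    ⟨262144, 0, 764377, 0, 1048576⟩ :=
  faceH_of (n := 60) (x1 := 845390) (y1 := 812224) (r0 := 246188) (r1 := 2001370)
    (by decide +kernel) (by decide +kernel)

private theorem b1_12_1 : FaceH ⟨262144, 0, 764377, 0, 1048576⟩
    ⟨222425, 260773, 0, 0, 1048576⟩ :=
  faceH_of (n := 60) (x1 := 812224) (y1 := 845390) (r0 := 549379) (r1 := 4466139)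
    (by decide +kernel) (by decide +kernel)

private theorem b1_u12 : VD ⟨222425, 260773, 0, 0, 1048576⟩ (13 / 20) 0 (29 / 100) :=
  ⟨by decide +kernel, by norm_num, by norm_num [R], cu_29_100, Or.inl rfl⟩

private theorem b1_v12 : VD ⟨262144, 0, 764377, 0, 1048576⟩ (3 / 5) 0 (3 / 25) :=
  ⟨by decide +kernel, by norm_num, by norm_num [R], cu_3_25, Or.inl rfl⟩

private theorem b1_12 : Rgn ⟨222425, 260773, 0, 0, 1048576⟩
    ⟨262144, 0, 764377, 0, 1048576⟩ :=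
  rgn_of b1_12_0 b1_12_1 (Or.inl rfl) (Or.inl rfl)

private theorem b1_13_0 : FaceH ⟨234085, 260773, 0, 0, 1048576⟩
    ⟨234085, 0, 764377, 0, 1048576⟩ :=
  faceH_of (n := 60) (x1 := 835579) (y1 := 835579) (r0 := 240918) (r1 := 1983177)
    (by decide +kernel) (by decide +kernel)

private theorem b1_13_1 : FaceH ⟨234085, 0, 764377, 0, 1048576⟩
    ⟨234085, 260773, 0, 0, 1048576⟩ :=
  faceH_of (n := 60) (x1 := 835579) (y1 := 835579) (r0 := 554419) (r1 := 4563838)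
    (by decide +kernel) (by decide +kernel)

private theorem b1_u13 : VD ⟨234085, 260773, 0, 0, 1048576⟩ (127 / 200) 0 (29 / 100) :=
  ⟨by decide +kernel, by norm_num, by norm_num [R], cu_29_100, Or.inl rfl⟩

private theorem b1_v13 : VD ⟨234085, 0, 764377, 0, 1048576⟩ (127 / 200) 0 (3 / 25) :=
  ⟨by decide +kernel, by norm_num, by norm_num [R], cu_3_25, Or.inl rfl⟩

private theorem b1_13 : Rgn ⟨234085, 260773, 0, 0, 1048576⟩
    ⟨234085, 0, 764377, 0, 1048576⟩ :=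
  rgn_of b1_13_0 b1_13_1 (Or.inl rfl) (Or.inl rfl)

private theorem b1_14_0 : FaceH ⟨564617, 260773, 0, 0, 1048576⟩
    ⟨110071, 0, 764377, 0, 1048576⟩ :=
  faceH_of (n := 60) (x1 := 574330) (y1 := 943719) (r0 := 217625) (r1 := 1576838)
    (by decide +kernel) (by decide +kernel)

private theorem b1_14_1 : FaceH ⟨110071, 0, 764377, 0, 1048576⟩
    ⟨564617, 260773, 0, 0, 1048576⟩ :=
  faceH_of (n := 60) (x1 := 943719) (y1 := 574330) (r0 := 697289) (r1 := 5052322)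
    (by decide +kernel) (by decide +kernel)

private theorem b1_u14 : VD ⟨564617, 260773, 0, 0, 1048576⟩ (3 / 10) 0 (29 / 100) :=
  ⟨by decide +kernel, by norm_num, by norm_num [R], cu_29_100, Or.inl rfl⟩

private theorem b1_v14 : VD ⟨110071, 0, 764377, 0, 1048576⟩ (81 / 100) 0 (3 / 25) :=
  ⟨by decide +kernel, by norm_num, by norm_num [R], cu_3_25, Or.inl rfl⟩

private theorem b1_14 : Rgn ⟨564617, 260773, 0, 0, 1048576⟩
    ⟨110071, 0, 764377, 0, 1048576⟩ :=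
  rgn_of b1_14_0 b1_14_1 (Or.inl rfl) (Or.inl rfl)

private theorem b1_15_0 : FaceH ⟨504869, 260773, 0, 0, 1048576⟩
    ⟨132918, 0, 764377, 0, 1048576⟩ :=
  faceH_of (n := 60) (x1 := 620347) (y1 := 923105) (r0 := 221916) (r1 := 1637485)
    (by decide +kernel) (by decide +kernel)

private theorem b1_15_1 : FaceH ⟨132918, 0, 764377, 0, 1048576⟩
    ⟨504869, 260773, 0, 0, 1048576⟩ :=
  faceH_of (n := 60) (x1 := 923105) (y1 := 620347) (r0 := 671463) (r1 := 4954623)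
    (by decide +kernel) (by decide +kernel)

private theorem b1_u15 : VD ⟨504869, 260773, 0, 0, 1048576⟩ (7 / 20) 0 (29 / 100) :=
  ⟨by decide +kernel, by norm_num, by norm_num [R], cu_29_100, Or.inl rfl⟩

private theorem b1_v15 : VD ⟨132918, 0, 764377, 0, 1048576⟩ (31 / 40) 0 (3 / 25) :=
  ⟨by decide +kernel, by norm_num, by norm_num [R], cu_3_25, Or.inl rfl⟩

private theorem b1_15 : Rgn ⟨504869, 260773, 0, 0, 1048576⟩
    ⟨132918, 0, 764377, 0, 1048576⟩ :=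
  rgn_of b1_15_0 b1_15_1 (Or.inl rfl) (Or.inl rfl)

private theorem b1_16_0 : FaceH ⟨449389, 260773, 0, 0, 1048576⟩
    ⟨153230, 0, 764377, 0, 1048576⟩ :=
  faceH_of (n := 60) (x1 := 663179) (y1 := 905062) (r0 := 225731) (r1 := 1698133)
    (by decide +kernel) (by decide +kernel)

private theorem b1_16_1 : FaceH ⟨153230, 0, 764377, 0, 1048576⟩
    ⟨449389, 260773, 0, 0, 1048576⟩ :=
  faceH_of (n := 60) (x1 := 905062) (y1 := 663179) (r0 := 647482) (r1 := 4870884)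
    (by decide +kernel) (by decide +kernel)

private theorem b1_u16 : VD ⟨449389, 260773, 0, 0, 1048576⟩ (2 / 5) 0 (29 / 100) :=
  ⟨by decide +kernel, by norm_num, by norm_num [R], cu_29_100, Or.inl rfl⟩

private theorem b1_v16 : VD ⟨153230, 0, 764377, 0, 1048576⟩ (149 / 200) 0 (3 / 25) :=
  ⟨by decide +kernel, by norm_num, by norm_num [R], cu_3_25, Or.inl rfl⟩

private theorem b1_16 : Rgn ⟨449389, 260773, 0, 0, 1048576⟩
    ⟨153230, 0, 764377, 0, 1048576⟩ :=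
  rgn_of b1_16_0 b1_16_1 (Or.inl rfl) (Or.inl rfl)

private theorem b1_17_0 : FaceH ⟨397735, 260773, 0, 0, 1048576⟩
    ⟨174253, 0, 764377, 0, 1048576⟩ :=
  faceH_of (n := 60) (x1 := 703407) (y1 := 886652) (r0 := 229680) (r1 := 1758780)
    (by decide +kernel) (by decide +kernel)

private theorem b1_17_1 : FaceH ⟨174253, 0, 764377, 0, 1048576⟩
    ⟨397735, 260773, 0, 0, 1048576⟩ :=
  faceH_of (n := 60) (x1 := 886652) (y1 := 703407) (r0 := 625155) (r1 := 4787143)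
    (by decide +kernel) (by decide +kernel)

private theorem b1_u17 : VD ⟨397735, 260773, 0, 0, 1048576⟩ (9 / 20) 0 (29 / 100) :=
  ⟨by decide +kernel, by norm_num, by norm_num [R], cu_29_100, Or.inl rfl⟩

private theorem b1_v17 : VD ⟨174253, 0, 764377, 0, 1048576⟩ (143 / 200) 0 (3 / 25) :=
  ⟨by decide +kernel, by norm_num, by norm_num [R], cu_3_25, Or.inl rfl⟩

private theorem b1_17 : Rgn ⟨397735, 260773, 0, 0, 1048576⟩
    ⟨174253, 0, 764377, 0, 1048576⟩ :=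
  rgn_of b1_17_0 b1_17_1 (Or.inl rfl) (Or.inl rfl)

private theorem b1_18_0 : FaceH ⟨349525, 260773, 0, 0, 1048576⟩
    ⟨192342, 0, 764377, 0, 1048576⟩ :=
  faceH_of (n := 60) (x1 := 741456) (y1 := 871013) (r0 := 233077) (r1 := 1819428)
    (by decide +kernel) (by decide +kernel)

private theorem b1_18_1 : FaceH ⟨192342, 0, 764377, 0, 1048576⟩
    ⟨349525, 260773, 0, 0, 1048576⟩ :=
  faceH_of (n := 60) (x1 := 871013) (y1 := 741456) (r0 := 604317) (r1 := 4717360)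
    (by decide +kernel) (by decide +kernel)

private theorem b1_u18 : VD ⟨349525, 260773, 0, 0, 1048576⟩ (1 / 2) 0 (29 / 100) :=
  ⟨by decide +kernel, by norm_num, by norm_num [R], cu_29_100, Or.inl rfl⟩

private theorem b1_v18 : VD ⟨192342, 0, 764377, 0, 1048576⟩ (69 / 100) 0 (3 / 25) :=
  ⟨by decide +kernel, by norm_num, by norm_num [R], cu_3_25, Or.inl rfl⟩

private theorem b1_18 : Rgn ⟨349525, 260773, 0, 0, 1048576⟩
    ⟨192342, 0, 764377, 0, 1048576⟩ :=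
  rgn_of b1_18_0 b1_18_1 (Or.inl rfl) (Or.inl rfl)

private theorem b1_19_0 : FaceH ⟨304425, 260773, 0, 0, 1048576⟩
    ⟨207203, 0, 764377, 0, 1048576⟩ :=
  faceH_of (n := 60) (x1 := 777646) (y1 := 858297) (r0 := 235869) (r1 := 1880075)
    (by decide +kernel) (by decide +kernel)

private theorem b1_19_1 : FaceH ⟨207203, 0, 764377, 0, 1048576⟩
    ⟨304425, 260773, 0, 0, 1048576⟩ :=
  faceH_of (n := 60) (x1 := 858297) (y1 := 777646) (r0 := 584823) (r1 := 4661535)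
    (by decide +kernel) (by decide +kernel)

private theorem b1_u19 : VD ⟨304425, 260773, 0, 0, 1048576⟩ (11 / 20) 0 (29 / 100) :=
  ⟨by decide +kernel, by norm_num, by norm_num [R], cu_29_100, Or.inl rfl⟩

private theorem b1_v19 : VD ⟨207203, 0, 764377, 0, 1048576⟩ (67 / 100) 0 (3 / 25) :=
  ⟨by decide +kernel, by norm_num, by norm_num [R], cu_3_25, Or.inl rfl⟩

private theorem b1_19 : Rgn ⟨304425, 260773, 0, 0, 1048576⟩
    ⟨207203, 0, 764377, 0, 1048576⟩ :=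
  rgn_of b1_19_0 b1_19_1 (Or.inl rfl) (Or.inl rfl)

private theorem b1_20_0 : FaceH ⟨262144, 260773, 0, 0, 1048576⟩
    ⟨222425, 0, 764377, 0, 1048576⟩ :=
  faceH_of (n := 60) (x1 := 812224) (y1 := 845390) (r0 := 238728) (r1 := 1940722)
    (by decide +kernel) (by decide +kernel)

private theorem b1_20_1 : FaceH ⟨222425, 0, 764377, 0, 1048576⟩
    ⟨262144, 260773, 0, 0, 1048576⟩ :=
  faceH_of (n := 60) (x1 := 845390) (y1 := 812224) (r0 := 566547) (r1 := 4605706)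
    (by decide +kernel) (by decide +kernel)

private theorem b1_u20 : VD ⟨262144, 260773, 0, 0, 1048576⟩ (3 / 5) 0 (29 / 100) :=
  ⟨by decide +kernel, by norm_num, by norm_num [R], cu_29_100, Or.inl rfl⟩

private theorem b1_v20 : VD ⟨222425, 0, 764377, 0, 1048576⟩ (13 / 20) 0 (3 / 25) :=
  ⟨by decide +kernel, by norm_num, by norm_num [R], cu_3_25, Or.inl rfl⟩

private theorem b1_20 : Rgn ⟨262144, 260773, 0, 0, 1048576⟩
    ⟨222425, 0, 764377, 0, 1048576⟩ :=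
  rgn_of b1_20_0 b1_20_1 (Or.inl rfl) (Or.inl rfl)

theorem flat_b1 {θ θ' : ℝ} {v w : ℂ} (h : T2.Pr θ θ' v w)
    (j : J3 (Real.tan θ ^ 2) (Real.tan θ' ^ 2)) (j' : J3 (Real.tan θ' ^ 2) (Real.tan θ ^ 2))
    (t1 : Real.tan θ ^ 2 < 1) (t2 : Real.tan θ' ^ 2 < 1)
    (h2 : v.re ≤ 29 / 100) (h4 : w.re ≤ 3 / 25) :
    FlatM (1 / cos (Real.pi * v) ^ 2) (1 / cos (Real.pi * (starRingEnd ℂ) w) ^ 2) := by
  rcases j.c22 j' t1 t2 with (⟨a, b⟩ | ⟨a, b⟩ | ⟨a, b⟩ | ⟨a, b⟩ | ⟨a, b⟩ | ⟨a, b⟩ | ⟨a, b⟩ | ⟨a, b⟩ | ⟨a, b⟩ | ⟨a, b⟩) |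
    (⟨a, b⟩ | ⟨a, b⟩ | ⟨a, b⟩ | ⟨a, b⟩ | ⟨a, b⟩ | ⟨a, b⟩ | ⟨a, b⟩ | ⟨a, b⟩ | ⟨a, b⟩ | ⟨a, b⟩) | ⟨a, b⟩
  · exact b1_0.flatM b1_u0 b1_v0 h a b t1 t2 h.hv.re0 h2 h.hw.re0 h4
      (by norm_num) (by norm_num) (by norm_num) (by norm_num)
  · exact b1_1.flatM b1_u1 b1_v1 h a b t1 t2 h.hv.re0 h2 h.hw.re0 h4
      (by norm_num) (by norm_num) (by norm_num) (by norm_num)
  · exact b1_2.flatM b1_u2 b1_v2 h a b t1 t2 h.hv.re0 h2 h.hw.re0 h4
      (by norm_num) (by norm_num) (by norm_num) (by norm_num)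
  · exact b1_6.flatM b1_u6 b1_v6 h a b t1 t2 h.hv.re0 h2 h.hw.re0 h4
      (by norm_num) (by norm_num) (by norm_num) (by norm_num)
  · exact b1_7.flatM b1_u7 b1_v7 h a b t1 t2 h.hv.re0 h2 h.hw.re0 h4
      (by norm_num) (by norm_num) (by norm_num) (by norm_num)
  · exact b1_8.flatM b1_u8 b1_v8 h a b t1 t2 h.hv.re0 h2 h.hw.re0 h4
      (by norm_num) (by norm_num) (by norm_num) (by norm_num)
  · exact b1_9.flatM b1_u9 b1_v9 h a b t1 t2 h.hv.re0 h2 h.hw.re0 h4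
      (by norm_num) (by norm_num) (by norm_num) (by norm_num)
  · exact b1_10.flatM b1_u10 b1_v10 h a b t1 t2 h.hv.re0 h2 h.hw.re0 h4
      (by norm_num) (by norm_num) (by norm_num) (by norm_num)
  · exact b1_11.flatM b1_u11 b1_v11 h a b t1 t2 h.hv.re0 h2 h.hw.re0 h4
      (by norm_num) (by norm_num) (by norm_num) (by norm_num)
  · exact b1_12.flatM b1_u12 b1_v12 h a b t1 t2 h.hv.re0 h2 h.hw.re0 h4
      (by norm_num) (by norm_num) (by norm_num) (by norm_num)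
  · exact b1_3.flatM b1_u3 b1_v3 h b a t1 t2 h.hv.re0 h2 h.hw.re0 h4
      (by norm_num) (by norm_num) (by norm_num) (by norm_num)
  · exact b1_4.flatM b1_u4 b1_v4 h b a t1 t2 h.hv.re0 h2 h.hw.re0 h4
      (by norm_num) (by norm_num) (by norm_num) (by norm_num)
  · exact b1_5.flatM b1_u5 b1_v5 h b a t1 t2 h.hv.re0 h2 h.hw.re0 h4
      (by norm_num) (by norm_num) (by norm_num) (by norm_num)
  · exact b1_14.flatM b1_u14 b1_v14 h b a t1 t2 h.hv.re0 h2 h.hw.re0 h4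
      (by norm_num) (by norm_num) (by norm_num) (by norm_num)
  · exact b1_15.flatM b1_u15 b1_v15 h b a t1 t2 h.hv.re0 h2 h.hw.re0 h4
      (by norm_num) (by norm_num) (by norm_num) (by norm_num)
  · exact b1_16.flatM b1_u16 b1_v16 h b a t1 t2 h.hv.re0 h2 h.hw.re0 h4
      (by norm_num) (by norm_num) (by norm_num) (by norm_num)
  · exact b1_17.flatM b1_u17 b1_v17 h b a t1 t2 h.hv.re0 h2 h.hw.re0 h4
      (by norm_num) (by norm_num) (by norm_num) (by norm_num)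
  · exact b1_18.flatM b1_u18 b1_v18 h b a t1 t2 h.hv.re0 h2 h.hw.re0 h4
      (by norm_num) (by norm_num) (by norm_num) (by norm_num)
  · exact b1_19.flatM b1_u19 b1_v19 h b a t1 t2 h.hv.re0 h2 h.hw.re0 h4
      (by norm_num) (by norm_num) (by norm_num) (by norm_num)
  · exact b1_20.flatM b1_u20 b1_v20 h b a t1 t2 h.hv.re0 h2 h.hw.re0 h4
      (by norm_num) (by norm_num) (by norm_num) (by norm_num)
  · exact b1_13.flatM b1_u13 b1_v13 h a b t1 t2 h.hv.re0 h2 h.hw.re0 h4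
      (by norm_num) (by norm_num) (by norm_num) (by norm_num)

end Pool.Agent.S3.Ck
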