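import Pool.Agent.S3.Ck.Cos
import Pool.Agent.S3.Ck.SoundG

/-!
# Flats: b10
-/

set_option autoImplicit false
set_option maxRecDepth 100000

namespace Pool.Agent.S3.Ck

open Complex

private theorem b10_0_0 : FaceH ⟨0, 807944, 0, 741453, 0⟩
    ⟨857925, 786551, 0, 741453, 0⟩ :=
  faceH_of (n := 60) (x1 := 1048576) (y1 := 331590) (r0 := 109378) (r1 := 16784836)
    (by decide +kernel) (by decide +kernel)

private theorem b10_0_1 : FaceH ⟨857925, 786551, 0, 741453, 0⟩
    ⟨0, 807944, 0, 741453, 0⟩ :=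
  faceH_of (n := 60) (x1 := 331590) (y1 := 1048576) (r0 := 65506) (r1 := 10052390)
    (by decide +kernel) (by decide +kernel)

private theorem b10_0_2 : FaceV ⟨0, 807944, 0, 741453, 0⟩
    ⟨857925, 786551, 0, 741453, 0⟩ :=
  faceV_of (n := 60) (x1 := 1048576) (y1 := 331590) (r0 := 109378) (r1 := 16784836)
    (by decide +kernel) (by decide +kernel) (by decide +kernel)

private theorem b10_0_3 : FaceV ⟨857925, 786551, 0, 741453, 0⟩
    ⟨0, 807944, 0, 741453, 0⟩ :=
  faceV_of (n := 60) (x1 := 331590) (y1 := 1048576) (r0 := 65506) (r1 := 10052390)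
    (by decide +kernel) (by decide +kernel) (by decide +kernel)

private theorem b10_u0 : VD ⟨0, 807944, 0, 741453, 0⟩ 1 (3 / 8) (39 / 100) :=
  ⟨by decide +kernel, by norm_num, by norm_num [R], cu_39_100, Or.inr cl_3_8⟩

private theorem b10_v0 : VD ⟨857925, 786551, 0, 741453, 0⟩ (1 / 10) (3 / 8) (77 / 200) :=
  ⟨by decide +kernel, by norm_num, by norm_num [R], cu_77_200, Or.inr cl_3_8⟩

private theorem b10_0 : Rgn ⟨0, 807944, 0, 741453, 0⟩
    ⟨857925, 786551, 0, 741453, 0⟩ :=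
  rgn_of b10_0_0 b10_0_1 (Or.inr b10_0_2) (Or.inr b10_0_3)

private theorem b10_1_0 : FaceH ⟨32430, 807944, 0, 741453, 0⟩
    ⟨699050, 786551, 0, 741453, 0⟩ :=
  faceH_of (n := 60) (x1 := 1016633) (y1 := 468938) (r0 := 100263) (r1 := 16281294)
    (by decide +kernel) (by decide +kernel)

private theorem b10_1_1 : FaceH ⟨699050, 786551, 0, 741453, 0⟩
    ⟨32430, 807944, 0, 741453, 0⟩ :=
  faceH_of (n := 60) (x1 := 468938) (y1 := 1016633) (r0 := 67532) (r1 := 10966243)
    (by decide +kernel) (by decide +kernel)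

private theorem b10_1_2 : FaceV ⟨32430, 807944, 0, 741453, 0⟩
    ⟨699050, 786551, 0, 741453, 0⟩ :=
  faceV_of (n := 60) (x1 := 1016633) (y1 := 468938) (r0 := 100263) (r1 := 16281294)
    (by decide +kernel) (by decide +kernel) (by decide +kernel)

private theorem b10_1_3 : FaceV ⟨699050, 786551, 0, 741453, 0⟩
    ⟨32430, 807944, 0, 741453, 0⟩ :=
  faceV_of (n := 60) (x1 := 468938) (y1 := 1016633) (r0 := 67532) (r1 := 10966243)
    (by decide +kernel) (by decide +kernel) (by decide +kernel)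

private theorem b10_u1 : VD ⟨32430, 807944, 0, 741453, 0⟩ (47 / 50) (3 / 8) (39 / 100) :=
  ⟨by decide +kernel, by norm_num, by norm_num [R], cu_39_100, Or.inr cl_3_8⟩

private theorem b10_v1 : VD ⟨699050, 786551, 0, 741453, 0⟩ (1 / 5) (3 / 8) (77 / 200) :=
  ⟨by decide +kernel, by norm_num, by norm_num [R], cu_77_200, Or.inr cl_3_8⟩

private theorem b10_1 : Rgn ⟨32430, 807944, 0, 741453, 0⟩
    ⟨699050, 786551, 0, 741453, 0⟩ :=
  rgn_of b10_1_0 b10_1_1 (Or.inr b10_1_2) (Or.inr b10_1_3)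

private theorem b10_2_0 : FaceH ⟨85019, 807944, 0, 741453, 0⟩
    ⟨629145, 786551, 0, 741453, 0⟩ :=
  faceH_of (n := 60) (x1 := 966740) (y1 := 524289) (r0 := 96252) (r1 := 15525983)
    (by decide +kernel) (by decide +kernel)

private theorem b10_2_1 : FaceH ⟨629145, 786551, 0, 741453, 0⟩
    ⟨85019, 807944, 0, 741453, 0⟩ :=
  faceH_of (n := 60) (x1 := 524289) (y1 := 966740) (r0 := 70817) (r1 := 11423170)
    (by decide +kernel) (by decide +kernel)

private theorem b10_2_2 : FaceV ⟨85019, 807944, 0, 741453, 0⟩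
    ⟨629145, 786551, 0, 741453, 0⟩ :=
  faceV_of (n := 60) (x1 := 966740) (y1 := 524289) (r0 := 96252) (r1 := 15525983)
    (by decide +kernel) (by decide +kernel) (by decide +kernel)

private theorem b10_2_3 : FaceV ⟨629145, 786551, 0, 741453, 0⟩
    ⟨85019, 807944, 0, 741453, 0⟩ :=
  faceV_of (n := 60) (x1 := 524289) (y1 := 966740) (r0 := 70817) (r1 := 11423170)
    (by decide +kernel) (by decide +kernel) (by decide +kernel)

private theorem b10_u2 : VD ⟨85019, 807944, 0, 741453, 0⟩ (17 / 20) (3 / 8) (39 / 100) :=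
  ⟨by decide +kernel, by norm_num, by norm_num [R], cu_39_100, Or.inr cl_3_8⟩

private theorem b10_v2 : VD ⟨629145, 786551, 0, 741453, 0⟩ (1 / 4) (3 / 8) (77 / 200) :=
  ⟨by decide +kernel, by norm_num, by norm_num [R], cu_77_200, Or.inr cl_3_8⟩

private theorem b10_2 : Rgn ⟨85019, 807944, 0, 741453, 0⟩
    ⟨629145, 786551, 0, 741453, 0⟩ :=
  rgn_of b10_2_0 b10_2_1 (Or.inr b10_2_2) (Or.inr b10_2_3)

private theorem b10_3_0 : FaceH ⟨857925, 807944, 0, 741453, 0⟩
    ⟨0, 786551, 0, 741453, 0⟩ :=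
  faceH_of (n := 60) (x1 := 331590) (y1 := 1048576) (r0 := 60158) (r1 := 9231664)
    (by decide +kernel) (by decide +kernel)

private theorem b10_3_1 : FaceH ⟨0, 786551, 0, 741453, 0⟩
    ⟨857925, 807944, 0, 741453, 0⟩ :=
  faceH_of (n := 60) (x1 := 1048576) (y1 := 331590) (r0 := 119102) (r1 := 18277065)
    (by decide +kernel) (by decide +kernel)

private theorem b10_3_2 : FaceV ⟨857925, 807944, 0, 741453, 0⟩
    ⟨0, 786551, 0, 741453, 0⟩ :=
  faceV_of (n := 60) (x1 := 331590) (y1 := 1048576) (r0 := 60158) (r1 := 9231664)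
    (by decide +kernel) (by decide +kernel) (by decide +kernel)

private theorem b10_3_3 : FaceV ⟨0, 786551, 0, 741453, 0⟩
    ⟨857925, 807944, 0, 741453, 0⟩ :=
  faceV_of (n := 60) (x1 := 1048576) (y1 := 331590) (r0 := 119102) (r1 := 18277065)
    (by decide +kernel) (by decide +kernel) (by decide +kernel)

private theorem b10_u3 : VD ⟨857925, 807944, 0, 741453, 0⟩ (1 / 10) (3 / 8) (39 / 100) :=
  ⟨by decide +kernel, by norm_num, by norm_num [R], cu_39_100, Or.inr cl_3_8⟩

private theorem b10_v3 : VD ⟨0, 786551, 0, 741453, 0⟩ 1 (3 / 8) (77 / 200) :=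
  ⟨by decide +kernel, by norm_num, by norm_num [R], cu_77_200, Or.inr cl_3_8⟩

private theorem b10_3 : Rgn ⟨857925, 807944, 0, 741453, 0⟩
    ⟨0, 786551, 0, 741453, 0⟩ :=
  rgn_of b10_3_0 b10_3_1 (Or.inr b10_3_2) (Or.inr b10_3_3)

private theorem b10_4_0 : FaceH ⟨699050, 807944, 0, 741453, 0⟩
    ⟨32430, 786551, 0, 741453, 0⟩ :=
  faceH_of (n := 60) (x1 := 468938) (y1 := 1016633) (r0 := 62018) (r1 := 10070906)
    (by decide +kernel) (by decide +kernel)

private theorem b10_4_1 : FaceH ⟨32430, 786551, 0, 741453, 0⟩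
    ⟨699050, 807944, 0, 741453, 0⟩ :=
  faceH_of (n := 60) (x1 := 1016633) (y1 := 468938) (r0 := 109177) (r1 := 17728756)
    (by decide +kernel) (by decide +kernel)

private theorem b10_4_2 : FaceV ⟨699050, 807944, 0, 741453, 0⟩
    ⟨32430, 786551, 0, 741453, 0⟩ :=
  faceV_of (n := 60) (x1 := 468938) (y1 := 1016633) (r0 := 62018) (r1 := 10070906)
    (by decide +kernel) (by decide +kernel) (by decide +kernel)

private theorem b10_4_3 : FaceV ⟨32430, 786551, 0, 741453, 0⟩
    ⟨699050, 807944, 0, 741453, 0⟩ :=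
  faceV_of (n := 60) (x1 := 1016633) (y1 := 468938) (r0 := 109177) (r1 := 17728756)
    (by decide +kernel) (by decide +kernel) (by decide +kernel)

private theorem b10_u4 : VD ⟨699050, 807944, 0, 741453, 0⟩ (1 / 5) (3 / 8) (39 / 100) :=
  ⟨by decide +kernel, by norm_num, by norm_num [R], cu_39_100, Or.inr cl_3_8⟩

private theorem b10_v4 : VD ⟨32430, 786551, 0, 741453, 0⟩ (47 / 50) (3 / 8) (77 / 200) :=
  ⟨by decide +kernel, by norm_num, by norm_num [R], cu_77_200, Or.inr cl_3_8⟩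

private theorem b10_4 : Rgn ⟨699050, 807944, 0, 741453, 0⟩
    ⟨32430, 786551, 0, 741453, 0⟩ :=
  rgn_of b10_4_0 b10_4_1 (Or.inr b10_4_2) (Or.inr b10_4_3)

private theorem b10_5_0 : FaceH ⟨629145, 807944, 0, 741453, 0⟩
    ⟨85019, 786551, 0, 741453, 0⟩ :=
  faceH_of (n := 60) (x1 := 524289) (y1 := 966740) (r0 := 65035) (r1 := 10490526)
    (by decide +kernel) (by decide +kernel)

private theorem b10_5_1 : FaceH ⟨85019, 786551, 0, 741453, 0⟩
    ⟨629145, 807944, 0, 741453, 0⟩ :=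
  faceH_of (n := 60) (x1 := 966740) (y1 := 524289) (r0 := 104809) (r1 := 16906295)
    (by decide +kernel) (by decide +kernel)

private theorem b10_5_2 : FaceV ⟨629145, 807944, 0, 741453, 0⟩
    ⟨85019, 786551, 0, 741453, 0⟩ :=
  faceV_of (n := 60) (x1 := 524289) (y1 := 966740) (r0 := 65035) (r1 := 10490526)
    (by decide +kernel) (by decide +kernel) (by decide +kernel)

private theorem b10_5_3 : FaceV ⟨85019, 786551, 0, 741453, 0⟩
    ⟨629145, 807944, 0, 741453, 0⟩ :=
  faceV_of (n := 60) (x1 := 966740) (y1 := 524289) (r0 := 104809) (r1 := 16906295)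
    (by decide +kernel) (by decide +kernel) (by decide +kernel)

private theorem b10_u5 : VD ⟨629145, 807944, 0, 741453, 0⟩ (1 / 4) (3 / 8) (39 / 100) :=
  ⟨by decide +kernel, by norm_num, by norm_num [R], cu_39_100, Or.inr cl_3_8⟩

private theorem b10_v5 : VD ⟨85019, 786551, 0, 741453, 0⟩ (17 / 20) (3 / 8) (77 / 200) :=
  ⟨by decide +kernel, by norm_num, by norm_num [R], cu_77_200, Or.inr cl_3_8⟩

private theorem b10_5 : Rgn ⟨629145, 807944, 0, 741453, 0⟩
    ⟨85019, 786551, 0, 741453, 0⟩ :=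
  rgn_of b10_5_0 b10_5_1 (Or.inr b10_5_2) (Or.inr b10_5_3)

private theorem b10_6_0 : FaceH ⟨110071, 807944, 0, 741453, 0⟩
    ⟨564617, 786551, 0, 741453, 0⟩ :=
  faceH_of (n := 60) (x1 := 943719) (y1 := 574330) (r0 := 92550) (r1 := 15190283)
    (by decide +kernel) (by decide +kernel)

private theorem b10_6_1 : FaceH ⟨564617, 786551, 0, 741453, 0⟩
    ⟨110071, 807944, 0, 741453, 0⟩ :=
  faceH_of (n := 60) (x1 := 574330) (y1 := 943719) (r0 := 72382) (r1 := 11880098)
    (by decide +kernel) (by decide +kernel)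

private theorem b10_6_2 : FaceV ⟨110071, 807944, 0, 741453, 0⟩
    ⟨564617, 786551, 0, 741453, 0⟩ :=
  faceV_of (n := 60) (x1 := 943719) (y1 := 574330) (r0 := 92550) (r1 := 15190283)
    (by decide +kernel) (by decide +kernel) (by decide +kernel)

private theorem b10_6_3 : FaceV ⟨564617, 786551, 0, 741453, 0⟩
    ⟨110071, 807944, 0, 741453, 0⟩ :=
  faceV_of (n := 60) (x1 := 574330) (y1 := 943719) (r0 := 72382) (r1 := 11880098)
    (by decide +kernel) (by decide +kernel) (by decide +kernel)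

private theorem b10_u6 : VD ⟨110071, 807944, 0, 741453, 0⟩ (81 / 100) (3 / 8) (39 / 100) :=
  ⟨by decide +kernel, by norm_num, by norm_num [R], cu_39_100, Or.inr cl_3_8⟩

private theorem b10_v6 : VD ⟨564617, 786551, 0, 741453, 0⟩ (3 / 10) (3 / 8) (77 / 200) :=
  ⟨by decide +kernel, by norm_num, by norm_num [R], cu_77_200, Or.inr cl_3_8⟩

private theorem b10_6 : Rgn ⟨110071, 807944, 0, 741453, 0⟩
    ⟨564617, 786551, 0, 741453, 0⟩ :=
  rgn_of b10_6_0 b10_6_1 (Or.inr b10_6_2) (Or.inr b10_6_3)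

private theorem b10_7_0 : FaceH ⟨132918, 807944, 0, 741453, 0⟩
    ⟨504869, 786551, 0, 741453, 0⟩ :=
  faceH_of (n := 60) (x1 := 923105) (y1 := 620347) (r0 := 89122) (r1 := 14896543)
    (by decide +kernel) (by decide +kernel)

private theorem b10_7_1 : FaceH ⟨504869, 786551, 0, 741453, 0⟩
    ⟨132918, 807944, 0, 741453, 0⟩ :=
  faceH_of (n := 60) (x1 := 620347) (y1 := 923105) (r0 := 73809) (r1 := 12337026)
    (by decide +kernel) (by decide +kernel)

private theorem b10_7_2 : FaceV ⟨132918, 807944, 0, 741453, 0⟩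
    ⟨504869, 786551, 0, 741453, 0⟩ :=
  faceV_of (n := 60) (x1 := 923105) (y1 := 620347) (r0 := 89122) (r1 := 14896543)
    (by decide +kernel) (by decide +kernel) (by decide +kernel)

private theorem b10_7_3 : FaceV ⟨504869, 786551, 0, 741453, 0⟩
    ⟨132918, 807944, 0, 741453, 0⟩ :=
  faceV_of (n := 60) (x1 := 620347) (y1 := 923105) (r0 := 73809) (r1 := 12337026)
    (by decide +kernel) (by decide +kernel) (by decide +kernel)

private theorem b10_u7 : VD ⟨132918, 807944, 0, 741453, 0⟩ (31 / 40) (3 / 8) (39 / 100) :=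
  ⟨by decide +kernel, by norm_num, by norm_num [R], cu_39_100, Or.inr cl_3_8⟩

private theorem b10_v7 : VD ⟨504869, 786551, 0, 741453, 0⟩ (7 / 20) (3 / 8) (77 / 200) :=
  ⟨by decide +kernel, by norm_num, by norm_num [R], cu_77_200, Or.inr cl_3_8⟩

private theorem b10_7 : Rgn ⟨132918, 807944, 0, 741453, 0⟩
    ⟨504869, 786551, 0, 741453, 0⟩ :=
  rgn_of b10_7_0 b10_7_1 (Or.inr b10_7_2) (Or.inr b10_7_3)

private theorem b10_8_0 : FaceH ⟨153230, 807944, 0, 741453, 0⟩
    ⟨449389, 786551, 0, 741453, 0⟩ :=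
  faceH_of (n := 60) (x1 := 905062) (y1 := 663179) (r0 := 85939) (r1 := 14644773)
    (by decide +kernel) (by decide +kernel)

private theorem b10_8_1 : FaceH ⟨449389, 786551, 0, 741453, 0⟩
    ⟨153230, 807944, 0, 741453, 0⟩ :=
  faceH_of (n := 60) (x1 := 663179) (y1 := 905062) (r0 := 75078) (r1 := 12793952)
    (by decide +kernel) (by decide +kernel)

private theorem b10_8_2 : FaceV ⟨153230, 807944, 0, 741453, 0⟩
    ⟨449389, 786551, 0, 741453, 0⟩ :=
  faceV_of (n := 60) (x1 := 905062) (y1 := 663179) (r0 := 85939) (r1 := 14644773)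
    (by decide +kernel) (by decide +kernel) (by decide +kernel)

private theorem b10_8_3 : FaceV ⟨449389, 786551, 0, 741453, 0⟩
    ⟨153230, 807944, 0, 741453, 0⟩ :=
  faceV_of (n := 60) (x1 := 663179) (y1 := 905062) (r0 := 75078) (r1 := 12793952)
    (by decide +kernel) (by decide +kernel) (by decide +kernel)

private theorem b10_u8 : VD ⟨153230, 807944, 0, 741453, 0⟩ (149 / 200) (3 / 8) (39 / 100) :=
  ⟨by decide +kernel, by norm_num, by norm_num [R], cu_39_100, Or.inr cl_3_8⟩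

private theorem b10_v8 : VD ⟨449389, 786551, 0, 741453, 0⟩ (2 / 5) (3 / 8) (77 / 200) :=
  ⟨by decide +kernel, by norm_num, by norm_num [R], cu_77_200, Or.inr cl_3_8⟩

private theorem b10_8 : Rgn ⟨153230, 807944, 0, 741453, 0⟩
    ⟨449389, 786551, 0, 741453, 0⟩ :=
  rgn_of b10_8_0 b10_8_1 (Or.inr b10_8_2) (Or.inr b10_8_3)

private theorem b10_9_0 : FaceH ⟨174253, 807944, 0, 741453, 0⟩
    ⟨397735, 786551, 0, 741453, 0⟩ :=
  faceH_of (n := 60) (x1 := 886652) (y1 := 703407) (r0 := 82976) (r1 := 14392999)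
    (by decide +kernel) (by decide +kernel)

private theorem b10_9_1 : FaceH ⟨397735, 786551, 0, 741453, 0⟩
    ⟨174253, 807944, 0, 741453, 0⟩ :=
  faceH_of (n := 60) (x1 := 703407) (y1 := 886652) (r0 := 76392) (r1 := 13250879)
    (by decide +kernel) (by decide +kernel)

private theorem b10_9_2 : FaceV ⟨174253, 807944, 0, 741453, 0⟩
    ⟨397735, 786551, 0, 741453, 0⟩ :=
  faceV_of (n := 60) (x1 := 886652) (y1 := 703407) (r0 := 82976) (r1 := 14392999)
    (by decide +kernel) (by decide +kernel) (by decide +kernel)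

private theorem b10_9_3 : FaceV ⟨397735, 786551, 0, 741453, 0⟩
    ⟨174253, 807944, 0, 741453, 0⟩ :=
  faceV_of (n := 60) (x1 := 703407) (y1 := 886652) (r0 := 76392) (r1 := 13250879)
    (by decide +kernel) (by decide +kernel) (by decide +kernel)

private theorem b10_u9 : VD ⟨174253, 807944, 0, 741453, 0⟩ (143 / 200) (3 / 8) (39 / 100) :=
  ⟨by decide +kernel, by norm_num, by norm_num [R], cu_39_100, Or.inr cl_3_8⟩

private theorem b10_v9 : VD ⟨397735, 786551, 0, 741453, 0⟩ (9 / 20) (3 / 8) (77 / 200) :=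
  ⟨by decide +kernel, by norm_num, by norm_num [R], cu_77_200, Or.inr cl_3_8⟩

private theorem b10_9 : Rgn ⟨174253, 807944, 0, 741453, 0⟩
    ⟨397735, 786551, 0, 741453, 0⟩ :=
  rgn_of b10_9_0 b10_9_1 (Or.inr b10_9_2) (Or.inr b10_9_3)

private theorem b10_10_0 : FaceH ⟨192342, 807944, 0, 741453, 0⟩
    ⟨349525, 786551, 0, 741453, 0⟩ :=
  faceH_of (n := 60) (x1 := 871013) (y1 := 741456) (r0 := 80210) (r1 := 14183190)
    (by decide +kernel) (by decide +kernel)

private theorem b10_10_1 : FaceH ⟨349525, 786551, 0, 741453, 0⟩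
    ⟨192342, 807944, 0, 741453, 0⟩ :=
  faceH_of (n := 60) (x1 := 741456) (y1 := 871013) (r0 := 77522) (r1 := 13707802)
    (by decide +kernel) (by decide +kernel)

private theorem b10_10_2 : FaceV ⟨192342, 807944, 0, 741453, 0⟩
    ⟨349525, 786551, 0, 741453, 0⟩ :=
  faceV_of (n := 60) (x1 := 871013) (y1 := 741456) (r0 := 80210) (r1 := 14183190)
    (by decide +kernel) (by decide +kernel) (by decide +kernel)

private theorem b10_10_3 : FaceV ⟨349525, 786551, 0, 741453, 0⟩
    ⟨192342, 807944, 0, 741453, 0⟩ :=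
  faceV_of (n := 60) (x1 := 741456) (y1 := 871013) (r0 := 77522) (r1 := 13707802)
    (by decide +kernel) (by decide +kernel) (by decide +kernel)

private theorem b10_u10 : VD ⟨192342, 807944, 0, 741453, 0⟩ (69 / 100) (3 / 8) (39 / 100) :=
  ⟨by decide +kernel, by norm_num, by norm_num [R], cu_39_100, Or.inr cl_3_8⟩

private theorem b10_v10 : VD ⟨349525, 786551, 0, 741453, 0⟩ (1 / 2) (3 / 8) (77 / 200) :=
  ⟨by decide +kernel, by norm_num, by norm_num [R], cu_77_200, Or.inr cl_3_8⟩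

private theorem b10_10 : Rgn ⟨192342, 807944, 0, 741453, 0⟩
    ⟨349525, 786551, 0, 741453, 0⟩ :=
  rgn_of b10_10_0 b10_10_1 (Or.inr b10_10_2) (Or.inr b10_10_3)

private theorem b10_11_0 : FaceH ⟨207203, 807944, 0, 741453, 0⟩
    ⟨304425, 786551, 0, 741453, 0⟩ :=
  faceH_of (n := 60) (x1 := 858297) (y1 := 777646) (r0 := 77623) (r1 := 14015345)
    (by decide +kernel) (by decide +kernel)

private theorem b10_11_1 : FaceH ⟨304425, 786551, 0, 741453, 0⟩
    ⟨207203, 807944, 0, 741453, 0⟩ :=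
  faceH_of (n := 60) (x1 := 777646) (y1 := 858297) (r0 := 78450) (r1 := 14164728)
    (by decide +kernel) (by decide +kernel)

private theorem b10_11_2 : FaceV ⟨207203, 807944, 0, 741453, 0⟩
    ⟨304425, 786551, 0, 741453, 0⟩ :=
  faceV_of (n := 60) (x1 := 858297) (y1 := 777646) (r0 := 77623) (r1 := 14015345)
    (by decide +kernel) (by decide +kernel) (by decide +kernel)

private theorem b10_11_3 : FaceV ⟨304425, 786551, 0, 741453, 0⟩
    ⟨207203, 807944, 0, 741453, 0⟩ :=
  faceV_of (n := 60) (x1 := 777646) (y1 := 858297) (r0 := 78450) (r1 := 14164728)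
    (by decide +kernel) (by decide +kernel) (by decide +kernel)

private theorem b10_u11 : VD ⟨207203, 807944, 0, 741453, 0⟩ (67 / 100) (3 / 8) (39 / 100) :=
  ⟨by decide +kernel, by norm_num, by norm_num [R], cu_39_100, Or.inr cl_3_8⟩

private theorem b10_v11 : VD ⟨304425, 786551, 0, 741453, 0⟩ (11 / 20) (3 / 8) (77 / 200) :=
  ⟨by decide +kernel, by norm_num, by norm_num [R], cu_77_200, Or.inr cl_3_8⟩

private theorem b10_11 : Rgn ⟨207203, 807944, 0, 741453, 0⟩
    ⟨304425, 786551, 0, 741453, 0⟩ :=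
  rgn_of b10_11_0 b10_11_1 (Or.inr b10_11_2) (Or.inr b10_11_3)

private theorem b10_12_0 : FaceH ⟨222425, 807944, 0, 741453, 0⟩
    ⟨262144, 786551, 0, 741453, 0⟩ :=
  faceH_of (n := 60) (x1 := 845390) (y1 := 812224) (r0 := 75197) (r1 := 13847492)
    (by decide +kernel) (by decide +kernel)

private theorem b10_12_1 : FaceH ⟨262144, 786551, 0, 741453, 0⟩
    ⟨222425, 807944, 0, 741453, 0⟩ :=
  faceH_of (n := 60) (x1 := 812224) (y1 := 845390) (r0 := 79401) (r1 := 14621652)
    (by decide +kernel) (by decide +kernel)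

private theorem b10_12_2 : FaceV ⟨222425, 807944, 0, 741453, 0⟩
    ⟨262144, 786551, 0, 741453, 0⟩ :=
  faceV_of (n := 60) (x1 := 845390) (y1 := 812224) (r0 := 75197) (r1 := 13847492)
    (by decide +kernel) (by decide +kernel) (by decide +kernel)

private theorem b10_12_3 : FaceV ⟨262144, 786551, 0, 741453, 0⟩
    ⟨222425, 807944, 0, 741453, 0⟩ :=
  faceV_of (n := 60) (x1 := 812224) (y1 := 845390) (r0 := 79401) (r1 := 14621652)
    (by decide +kernel) (by decide +kernel) (by decide +kernel)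

private theorem b10_u12 : VD ⟨222425, 807944, 0, 741453, 0⟩ (13 / 20) (3 / 8) (39 / 100) :=
  ⟨by decide +kernel, by norm_num, by norm_num [R], cu_39_100, Or.inr cl_3_8⟩

private theorem b10_v12 : VD ⟨262144, 786551, 0, 741453, 0⟩ (3 / 5) (3 / 8) (77 / 200) :=
  ⟨by decide +kernel, by norm_num, by norm_num [R], cu_77_200, Or.inr cl_3_8⟩

private theorem b10_12 : Rgn ⟨222425, 807944, 0, 741453, 0⟩
    ⟨262144, 786551, 0, 741453, 0⟩ :=
  rgn_of b10_12_0 b10_12_1 (Or.inr b10_12_2) (Or.inr b10_12_3)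

private theorem b10_13_0 : FaceH ⟨234085, 807944, 0, 741453, 0⟩
    ⟨234085, 786551, 0, 741453, 0⟩ :=
  faceH_of (n := 60) (x1 := 835579) (y1 := 835579) (r0 := 73587) (r1 := 13721612)
    (by decide +kernel) (by decide +kernel)

private theorem b10_13_1 : FaceH ⟨234085, 786551, 0, 741453, 0⟩
    ⟨234085, 807944, 0, 741453, 0⟩ :=
  faceH_of (n := 60) (x1 := 835579) (y1 := 835579) (r0 := 80129) (r1 := 14941509)
    (by decide +kernel) (by decide +kernel)

private theorem b10_13_2 : FaceV ⟨234085, 807944, 0, 741453, 0⟩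
    ⟨234085, 786551, 0, 741453, 0⟩ :=
  faceV_of (n := 60) (x1 := 835579) (y1 := 835579) (r0 := 73587) (r1 := 13721612)
    (by decide +kernel) (by decide +kernel) (by decide +kernel)

private theorem b10_13_3 : FaceV ⟨234085, 786551, 0, 741453, 0⟩
    ⟨234085, 807944, 0, 741453, 0⟩ :=
  faceV_of (n := 60) (x1 := 835579) (y1 := 835579) (r0 := 80129) (r1 := 14941509)
    (by decide +kernel) (by decide +kernel) (by decide +kernel)

private theorem b10_u13 : VD ⟨234085, 807944, 0, 741453, 0⟩ (127 / 200) (3 / 8) (39 / 100) :=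
  ⟨by decide +kernel, by norm_num, by norm_num [R], cu_39_100, Or.inr cl_3_8⟩

private theorem b10_v13 : VD ⟨234085, 786551, 0, 741453, 0⟩ (127 / 200) (3 / 8) (77 / 200) :=
  ⟨by decide +kernel, by norm_num, by norm_num [R], cu_77_200, Or.inr cl_3_8⟩

private theorem b10_13 : Rgn ⟨234085, 807944, 0, 741453, 0⟩
    ⟨234085, 786551, 0, 741453, 0⟩ :=
  rgn_of b10_13_0 b10_13_1 (Or.inr b10_13_2) (Or.inr b10_13_3)

private theorem b10_14_0 : FaceH ⟨564617, 807944, 0, 741453, 0⟩
    ⟨110071, 786551, 0, 741453, 0⟩ :=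
  faceH_of (n := 60) (x1 := 574330) (y1 := 943719) (r0 := 66472) (r1 := 10910149)
    (by decide +kernel) (by decide +kernel)

private theorem b10_14_1 : FaceH ⟨110071, 786551, 0, 741453, 0⟩
    ⟨564617, 807944, 0, 741453, 0⟩ :=
  faceH_of (n := 60) (x1 := 943719) (y1 := 574330) (r0 := 100778) (r1 := 16540751)
    (by decide +kernel) (by decide +kernel)

private theorem b10_14_2 : FaceV ⟨564617, 807944, 0, 741453, 0⟩
    ⟨110071, 786551, 0, 741453, 0⟩ :=
  faceV_of (n := 60) (x1 := 574330) (y1 := 943719) (r0 := 66472) (r1 := 10910149)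
    (by decide +kernel) (by decide +kernel) (by decide +kernel)

private theorem b10_14_3 : FaceV ⟨110071, 786551, 0, 741453, 0⟩
    ⟨564617, 807944, 0, 741453, 0⟩ :=
  faceV_of (n := 60) (x1 := 943719) (y1 := 574330) (r0 := 100778) (r1 := 16540751)
    (by decide +kernel) (by decide +kernel) (by decide +kernel)

private theorem b10_u14 : VD ⟨564617, 807944, 0, 741453, 0⟩ (3 / 10) (3 / 8) (39 / 100) :=
  ⟨by decide +kernel, by norm_num, by norm_num [R], cu_39_100, Or.inr cl_3_8⟩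

private theorem b10_v14 : VD ⟨110071, 786551, 0, 741453, 0⟩ (81 / 100) (3 / 8) (77 / 200) :=
  ⟨by decide +kernel, by norm_num, by norm_num [R], cu_77_200, Or.inr cl_3_8⟩

private theorem b10_14 : Rgn ⟨564617, 807944, 0, 741453, 0⟩
    ⟨110071, 786551, 0, 741453, 0⟩ :=
  rgn_of b10_14_0 b10_14_1 (Or.inr b10_14_2) (Or.inr b10_14_3)

private theorem b10_15_0 : FaceH ⟨504869, 807944, 0, 741453, 0⟩
    ⟨132918, 786551, 0, 741453, 0⟩ :=
  faceH_of (n := 60) (x1 := 620347) (y1 := 923105) (r0 := 67783) (r1 := 11329771)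
    (by decide +kernel) (by decide +kernel)

private theorem b10_15_1 : FaceH ⟨132918, 786551, 0, 741453, 0⟩
    ⟨504869, 807944, 0, 741453, 0⟩ :=
  faceH_of (n := 60) (x1 := 923105) (y1 := 620347) (r0 := 97046) (r1 := 16220896)
    (by decide +kernel) (by decide +kernel)

private theorem b10_15_2 : FaceV ⟨504869, 807944, 0, 741453, 0⟩
    ⟨132918, 786551, 0, 741453, 0⟩ :=
  faceV_of (n := 60) (x1 := 620347) (y1 := 923105) (r0 := 67783) (r1 := 11329771)
    (by decide +kernel) (by decide +kernel) (by decide +kernel)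

private theorem b10_15_3 : FaceV ⟨132918, 786551, 0, 741453, 0⟩
    ⟨504869, 807944, 0, 741453, 0⟩ :=
  faceV_of (n := 60) (x1 := 923105) (y1 := 620347) (r0 := 97046) (r1 := 16220896)
    (by decide +kernel) (by decide +kernel) (by decide +kernel)

private theorem b10_u15 : VD ⟨504869, 807944, 0, 741453, 0⟩ (7 / 20) (3 / 8) (39 / 100) :=
  ⟨by decide +kernel, by norm_num, by norm_num [R], cu_39_100, Or.inr cl_3_8⟩

private theorem b10_v15 : VD ⟨132918, 786551, 0, 741453, 0⟩ (31 / 40) (3 / 8) (77 / 200) :=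
  ⟨by decide +kernel, by norm_num, by norm_num [R], cu_77_200, Or.inr cl_3_8⟩

private theorem b10_15 : Rgn ⟨504869, 807944, 0, 741453, 0⟩
    ⟨132918, 786551, 0, 741453, 0⟩ :=
  rgn_of b10_15_0 b10_15_1 (Or.inr b10_15_2) (Or.inr b10_15_3)

private theorem b10_16_0 : FaceH ⟨449389, 807944, 0, 741453, 0⟩
    ⟨153230, 786551, 0, 741453, 0⟩ :=
  faceH_of (n := 60) (x1 := 663179) (y1 := 905062) (r0 := 68948) (r1 := 11749391)
    (by decide +kernel) (by decide +kernel)

private theorem b10_16_1 : FaceH ⟨153230, 786551, 0, 741453, 0⟩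
    ⟨449389, 807944, 0, 741453, 0⟩ :=
  faceH_of (n := 60) (x1 := 905062) (y1 := 663179) (r0 := 93580) (r1 := 15946743)
    (by decide +kernel) (by decide +kernel)

private theorem b10_16_2 : FaceV ⟨449389, 807944, 0, 741453, 0⟩
    ⟨153230, 786551, 0, 741453, 0⟩ :=
  faceV_of (n := 60) (x1 := 663179) (y1 := 905062) (r0 := 68948) (r1 := 11749391)
    (by decide +kernel) (by decide +kernel) (by decide +kernel)

private theorem b10_16_3 : FaceV ⟨153230, 786551, 0, 741453, 0⟩
    ⟨449389, 807944, 0, 741453, 0⟩ :=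
  faceV_of (n := 60) (x1 := 905062) (y1 := 663179) (r0 := 93580) (r1 := 15946743)
    (by decide +kernel) (by decide +kernel) (by decide +kernel)

private theorem b10_u16 : VD ⟨449389, 807944, 0, 741453, 0⟩ (2 / 5) (3 / 8) (39 / 100) :=
  ⟨by decide +kernel, by norm_num, by norm_num [R], cu_39_100, Or.inr cl_3_8⟩

private theorem b10_v16 : VD ⟨153230, 786551, 0, 741453, 0⟩ (149 / 200) (3 / 8) (77 / 200) :=
  ⟨by decide +kernel, by norm_num, by norm_num [R], cu_77_200, Or.inr cl_3_8⟩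

private theorem b10_16 : Rgn ⟨449389, 807944, 0, 741453, 0⟩
    ⟨153230, 786551, 0, 741453, 0⟩ :=
  rgn_of b10_16_0 b10_16_1 (Or.inr b10_16_2) (Or.inr b10_16_3)

private theorem b10_17_0 : FaceH ⟨397735, 807944, 0, 741453, 0⟩
    ⟨174253, 786551, 0, 741453, 0⟩ :=
  faceH_of (n := 60) (x1 := 703407) (y1 := 886652) (r0 := 70155) (r1 := 12169012)
    (by decide +kernel) (by decide +kernel)

private theorem b10_17_1 : FaceH ⟨174253, 786551, 0, 741453, 0⟩
    ⟨397735, 807944, 0, 741453, 0⟩ :=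
  faceH_of (n := 60) (x1 := 886652) (y1 := 703407) (r0 := 90353) (r1 := 15672585)
    (by decide +kernel) (by decide +kernel)

private theorem b10_17_2 : FaceV ⟨397735, 807944, 0, 741453, 0⟩
    ⟨174253, 786551, 0, 741453, 0⟩ :=
  faceV_of (n := 60) (x1 := 703407) (y1 := 886652) (r0 := 70155) (r1 := 12169012)
    (by decide +kernel) (by decide +kernel) (by decide +kernel)

private theorem b10_17_3 : FaceV ⟨174253, 786551, 0, 741453, 0⟩
    ⟨397735, 807944, 0, 741453, 0⟩ :=
  faceV_of (n := 60) (x1 := 886652) (y1 := 703407) (r0 := 90353) (r1 := 15672585)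
    (by decide +kernel) (by decide +kernel) (by decide +kernel)

private theorem b10_u17 : VD ⟨397735, 807944, 0, 741453, 0⟩ (9 / 20) (3 / 8) (39 / 100) :=
  ⟨by decide +kernel, by norm_num, by norm_num [R], cu_39_100, Or.inr cl_3_8⟩

private theorem b10_v17 : VD ⟨174253, 786551, 0, 741453, 0⟩ (143 / 200) (3 / 8) (77 / 200) :=
  ⟨by decide +kernel, by norm_num, by norm_num [R], cu_77_200, Or.inr cl_3_8⟩

private theorem b10_17 : Rgn ⟨397735, 807944, 0, 741453, 0⟩
    ⟨174253, 786551, 0, 741453, 0⟩ :=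
  rgn_of b10_17_0 b10_17_1 (Or.inr b10_17_2) (Or.inr b10_17_3)

private theorem b10_18_0 : FaceH ⟨349525, 807944, 0, 741453, 0⟩
    ⟨192342, 786551, 0, 741453, 0⟩ :=
  faceH_of (n := 60) (x1 := 741456) (y1 := 871013) (r0 := 71192) (r1 := 12588630)
    (by decide +kernel) (by decide +kernel)

private theorem b10_18_1 : FaceH ⟨192342, 786551, 0, 741453, 0⟩
    ⟨349525, 807944, 0, 741453, 0⟩ :=
  faceH_of (n := 60) (x1 := 871013) (y1 := 741456) (r0 := 87341) (r1 := 15444124)
    (by decide +kernel) (by decide +kernel)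

private theorem b10_18_2 : FaceV ⟨349525, 807944, 0, 741453, 0⟩
    ⟨192342, 786551, 0, 741453, 0⟩ :=
  faceV_of (n := 60) (x1 := 741456) (y1 := 871013) (r0 := 71192) (r1 := 12588630)
    (by decide +kernel) (by decide +kernel) (by decide +kernel)

private theorem b10_18_3 : FaceV ⟨192342, 786551, 0, 741453, 0⟩
    ⟨349525, 807944, 0, 741453, 0⟩ :=
  faceV_of (n := 60) (x1 := 871013) (y1 := 741456) (r0 := 87341) (r1 := 15444124)
    (by decide +kernel) (by decide +kernel) (by decide +kernel)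

private theorem b10_u18 : VD ⟨349525, 807944, 0, 741453, 0⟩ (1 / 2) (3 / 8) (39 / 100) :=
  ⟨by decide +kernel, by norm_num, by norm_num [R], cu_39_100, Or.inr cl_3_8⟩

private theorem b10_v18 : VD ⟨192342, 786551, 0, 741453, 0⟩ (69 / 100) (3 / 8) (77 / 200) :=
  ⟨by decide +kernel, by norm_num, by norm_num [R], cu_77_200, Or.inr cl_3_8⟩

private theorem b10_18 : Rgn ⟨349525, 807944, 0, 741453, 0⟩
    ⟨192342, 786551, 0, 741453, 0⟩ :=
  rgn_of b10_18_0 b10_18_1 (Or.inr b10_18_2) (Or.inr b10_18_3)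

private theorem b10_19_0 : FaceH ⟨304425, 807944, 0, 741453, 0⟩
    ⟨207203, 786551, 0, 741453, 0⟩ :=
  faceH_of (n := 60) (x1 := 777646) (y1 := 858297) (r0 := 72045) (r1 := 13008251)
    (by decide +kernel) (by decide +kernel)

private theorem b10_19_1 : FaceH ⟨207203, 786551, 0, 741453, 0⟩
    ⟨304425, 807944, 0, 741453, 0⟩ :=
  faceH_of (n := 60) (x1 := 858297) (y1 := 777646) (r0 := 84524) (r1 := 15261357)
    (by decide +kernel) (by decide +kernel)

private theorem b10_19_2 : FaceV ⟨304425, 807944, 0, 741453, 0⟩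
    ⟨207203, 786551, 0, 741453, 0⟩ :=
  faceV_of (n := 60) (x1 := 777646) (y1 := 858297) (r0 := 72045) (r1 := 13008251)
    (by decide +kernel) (by decide +kernel) (by decide +kernel)

private theorem b10_19_3 : FaceV ⟨207203, 786551, 0, 741453, 0⟩
    ⟨304425, 807944, 0, 741453, 0⟩ :=
  faceV_of (n := 60) (x1 := 858297) (y1 := 777646) (r0 := 84524) (r1 := 15261357)
    (by decide +kernel) (by decide +kernel) (by decide +kernel)

private theorem b10_u19 : VD ⟨304425, 807944, 0, 741453, 0⟩ (11 / 20) (3 / 8) (39 / 100) :=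
  ⟨by decide +kernel, by norm_num, by norm_num [R], cu_39_100, Or.inr cl_3_8⟩

private theorem b10_v19 : VD ⟨207203, 786551, 0, 741453, 0⟩ (67 / 100) (3 / 8) (77 / 200) :=
  ⟨by decide +kernel, by norm_num, by norm_num [R], cu_77_200, Or.inr cl_3_8⟩

private theorem b10_19 : Rgn ⟨304425, 807944, 0, 741453, 0⟩
    ⟨207203, 786551, 0, 741453, 0⟩ :=
  rgn_of b10_19_0 b10_19_1 (Or.inr b10_19_2) (Or.inr b10_19_3)

private theorem b10_20_0 : FaceH ⟨262144, 807944, 0, 741453, 0⟩
    ⟨222425, 786551, 0, 741453, 0⟩ :=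
  faceH_of (n := 60) (x1 := 812224) (y1 := 845390) (r0 := 72918) (r1 := 13427869)
    (by decide +kernel) (by decide +kernel)

private theorem b10_20_1 : FaceH ⟨222425, 786551, 0, 741453, 0⟩
    ⟨262144, 807944, 0, 741453, 0⟩ :=
  faceH_of (n := 60) (x1 := 845390) (y1 := 812224) (r0 := 81882) (r1 := 15078581)
    (by decide +kernel) (by decide +kernel)

private theorem b10_20_2 : FaceV ⟨262144, 807944, 0, 741453, 0⟩
    ⟨222425, 786551, 0, 741453, 0⟩ :=
  faceV_of (n := 60) (x1 := 812224) (y1 := 845390) (r0 := 72918) (r1 := 13427869)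
    (by decide +kernel) (by decide +kernel) (by decide +kernel)

private theorem b10_20_3 : FaceV ⟨222425, 786551, 0, 741453, 0⟩
    ⟨262144, 807944, 0, 741453, 0⟩ :=
  faceV_of (n := 60) (x1 := 845390) (y1 := 812224) (r0 := 81882) (r1 := 15078581)
    (by decide +kernel) (by decide +kernel) (by decide +kernel)

private theorem b10_u20 : VD ⟨262144, 807944, 0, 741453, 0⟩ (3 / 5) (3 / 8) (39 / 100) :=
  ⟨by decide +kernel, by norm_num, by norm_num [R], cu_39_100, Or.inr cl_3_8⟩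

private theorem b10_v20 : VD ⟨222425, 786551, 0, 741453, 0⟩ (13 / 20) (3 / 8) (77 / 200) :=
  ⟨by decide +kernel, by norm_num, by norm_num [R], cu_77_200, Or.inr cl_3_8⟩

private theorem b10_20 : Rgn ⟨262144, 807944, 0, 741453, 0⟩
    ⟨222425, 786551, 0, 741453, 0⟩ :=
  rgn_of b10_20_0 b10_20_1 (Or.inr b10_20_2) (Or.inr b10_20_3)

theorem flat_b10 {θ θ' : ℝ} {v w : ℂ} (h : T2.Pr θ θ' v w)
    (j : J3 (Real.tan θ ^ 2) (Real.tan θ' ^ 2)) (j' : J3 (Real.tan θ' ^ 2) (Real.tan θ ^ 2))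
    (t1 : Real.tan θ ^ 2 < 1) (t2 : Real.tan θ' ^ 2 < 1)
    (h1 : 3 / 8 ≤ v.re) (h2 : v.re ≤ 39 / 100) (h3 : 3 / 8 ≤ w.re) (h4 : w.re ≤ 77 / 200) :
    FlatM (1 / cos (Real.pi * v) ^ 2) (1 / cos (Real.pi * (starRingEnd ℂ) w) ^ 2) := by
  rcases j.c22 j' t1 t2 with (⟨a, b⟩ | ⟨a, b⟩ | ⟨a, b⟩ | ⟨a, b⟩ | ⟨a, b⟩ | ⟨a, b⟩ | ⟨a, b⟩ | ⟨a, b⟩ | ⟨a, b⟩ | ⟨a, b⟩) |
    (⟨a, b⟩ | ⟨a, b⟩ | ⟨a, b⟩ | ⟨a, b⟩ | ⟨a, b⟩ | ⟨a, b⟩ | ⟨a, b⟩ | ⟨a, b⟩ | ⟨a, b⟩ | ⟨a, b⟩) | ⟨a, b⟩
  · exact b10_0.flatM b10_u0 b10_v0 h a b t1 t2 h1 h2 h3 h4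
      (by norm_num) (by norm_num) (by norm_num) (by norm_num)
  · exact b10_1.flatM b10_u1 b10_v1 h a b t1 t2 h1 h2 h3 h4
      (by norm_num) (by norm_num) (by norm_num) (by norm_num)
  · exact b10_2.flatM b10_u2 b10_v2 h a b t1 t2 h1 h2 h3 h4
      (by norm_num) (by norm_num) (by norm_num) (by norm_num)
  · exact b10_6.flatM b10_u6 b10_v6 h a b t1 t2 h1 h2 h3 h4
      (by norm_num) (by norm_num) (by norm_num) (by norm_num)
  · exact b10_7.flatM b10_u7 b10_v7 h a b t1 t2 h1 h2 h3 h4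
      (by norm_num) (by norm_num) (by norm_num) (by norm_num)
  · exact b10_8.flatM b10_u8 b10_v8 h a b t1 t2 h1 h2 h3 h4
      (by norm_num) (by norm_num) (by norm_num) (by norm_num)
  · exact b10_9.flatM b10_u9 b10_v9 h a b t1 t2 h1 h2 h3 h4
      (by norm_num) (by norm_num) (by norm_num) (by norm_num)
  · exact b10_10.flatM b10_u10 b10_v10 h a b t1 t2 h1 h2 h3 h4
      (by norm_num) (by norm_num) (by norm_num) (by norm_num)
  · exact b10_11.flatM b10_u11 b10_v11 h a b t1 t2 h1 h2 h3 h4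
      (by norm_num) (by norm_num) (by norm_num) (by norm_num)
  · exact b10_12.flatM b10_u12 b10_v12 h a b t1 t2 h1 h2 h3 h4
      (by norm_num) (by norm_num) (by norm_num) (by norm_num)
  · exact b10_3.flatM b10_u3 b10_v3 h b a t1 t2 h1 h2 h3 h4
      (by norm_num) (by norm_num) (by norm_num) (by norm_num)
  · exact b10_4.flatM b10_u4 b10_v4 h b a t1 t2 h1 h2 h3 h4
      (by norm_num) (by norm_num) (by norm_num) (by norm_num)
  · exact b10_5.flatM b10_u5 b10_v5 h b a t1 t2 h1 h2 h3 h4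
      (by norm_num) (by norm_num) (by norm_num) (by norm_num)
  · exact b10_14.flatM b10_u14 b10_v14 h b a t1 t2 h1 h2 h3 h4
      (by norm_num) (by norm_num) (by norm_num) (by norm_num)
  · exact b10_15.flatM b10_u15 b10_v15 h b a t1 t2 h1 h2 h3 h4
      (by norm_num) (by norm_num) (by norm_num) (by norm_num)
  · exact b10_16.flatM b10_u16 b10_v16 h b a t1 t2 h1 h2 h3 h4
      (by norm_num) (by norm_num) (by norm_num) (by norm_num)
  · exact b10_17.flatM b10_u17 b10_v17 h b a t1 t2 h1 h2 h3 h4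
      (by norm_num) (by norm_num) (by norm_num) (by norm_num)
  · exact b10_18.flatM b10_u18 b10_v18 h b a t1 t2 h1 h2 h3 h4
      (by norm_num) (by norm_num) (by norm_num) (by norm_num)
  · exact b10_19.flatM b10_u19 b10_v19 h b a t1 t2 h1 h2 h3 h4
      (by norm_num) (by norm_num) (by norm_num) (by norm_num)
  · exact b10_20.flatM b10_u20 b10_v20 h b a t1 t2 h1 h2 h3 h4
      (by norm_num) (by norm_num) (by norm_num) (by norm_num)
  · exact b10_13.flatM b10_u13 b10_v13 h a b t1 t2 h1 h2 h3 h4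
      (by norm_num) (by norm_num) (by norm_num) (by norm_num)

end Pool.Agent.S3.Ck
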