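import Pool.Agent.S3.Ck.Cos
import Pool.Agent.S3.Ck.SoundG

/-!
# Flats: b12
-/

set_option autoImplicit false
set_option maxRecDepth 100000

namespace Pool.Agent.S3.Ck

open Complex

private theorem b12_0_0 : FaceH ⟨0, 848318, 0, 807939, 0⟩
    ⟨857925, 848318, 0, 807939, 0⟩ :=
  faceH_of (n := 60) (x1 := 1048576) (y1 := 331590) (r0 := 91026) (r1 := 21961902)
    (by decide +kernel) (by decide +kernel)

private theorem b12_0_1 : FaceH ⟨857925, 848318, 0, 807939, 0⟩
    ⟨0, 848318, 0, 807939, 0⟩ :=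
  faceH_of (n := 60) (x1 := 331590) (y1 := 1048576) (r0 := 50064) (r1 := 12079052)
    (by decide +kernel) (by decide +kernel)

private theorem b12_0_2 : FaceV ⟨0, 848318, 0, 807939, 0⟩
    ⟨857925, 848318, 0, 807939, 0⟩ :=
  faceV_of (n := 60) (x1 := 1048576) (y1 := 331590) (r0 := 91026) (r1 := 21961902)
    (by decide +kernel) (by decide +kernel) (by decide +kernel)

private theorem b12_0_3 : FaceV ⟨857925, 848318, 0, 807939, 0⟩
    ⟨0, 848318, 0, 807939, 0⟩ :=
  faceV_of (n := 60) (x1 := 331590) (y1 := 1048576) (r0 := 50064) (r1 := 12079052)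
    (by decide +kernel) (by decide +kernel) (by decide +kernel)

private theorem b12_u0 : VD ⟨0, 848318, 0, 807939, 0⟩ 1 (39 / 100) (2 / 5) :=
  ⟨by decide +kernel, by norm_num, by norm_num [R], cu_2_5, Or.inr cl_39_100⟩

private theorem b12_v0 : VD ⟨857925, 848318, 0, 807939, 0⟩ (1 / 10) (39 / 100) (2 / 5) :=
  ⟨by decide +kernel, by norm_num, by norm_num [R], cu_2_5, Or.inr cl_39_100⟩

private theorem b12_0 : Rgn ⟨0, 848318, 0, 807939, 0⟩
    ⟨857925, 848318, 0, 807939, 0⟩ :=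
  rgn_of b12_0_0 b12_0_1 (Or.inr b12_0_2) (Or.inr b12_0_3)

private theorem b12_1_0 : FaceH ⟨32430, 848318, 0, 807939, 0⟩
    ⟨699050, 848318, 0, 807939, 0⟩ :=
  faceH_of (n := 60) (x1 := 1016633) (y1 := 468938) (r0 := 83440) (r1 := 21303049)
    (by decide +kernel) (by decide +kernel)

private theorem b12_1_1 : FaceH ⟨699050, 848318, 0, 807939, 0⟩
    ⟨32430, 848318, 0, 807939, 0⟩ :=
  faceH_of (n := 60) (x1 := 468938) (y1 := 1016633) (r0 := 51612) (r1 := 13177147)
    (by decide +kernel) (by decide +kernel)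

private theorem b12_1_2 : FaceV ⟨32430, 848318, 0, 807939, 0⟩
    ⟨699050, 848318, 0, 807939, 0⟩ :=
  faceV_of (n := 60) (x1 := 1016633) (y1 := 468938) (r0 := 83440) (r1 := 21303049)
    (by decide +kernel) (by decide +kernel) (by decide +kernel)

private theorem b12_1_3 : FaceV ⟨699050, 848318, 0, 807939, 0⟩
    ⟨32430, 848318, 0, 807939, 0⟩ :=
  faceV_of (n := 60) (x1 := 468938) (y1 := 1016633) (r0 := 51612) (r1 := 13177147)
    (by decide +kernel) (by decide +kernel) (by decide +kernel)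

private theorem b12_u1 : VD ⟨32430, 848318, 0, 807939, 0⟩ (47 / 50) (39 / 100) (2 / 5) :=
  ⟨by decide +kernel, by norm_num, by norm_num [R], cu_2_5, Or.inr cl_39_100⟩

private theorem b12_v1 : VD ⟨699050, 848318, 0, 807939, 0⟩ (1 / 5) (39 / 100) (2 / 5) :=
  ⟨by decide +kernel, by norm_num, by norm_num [R], cu_2_5, Or.inr cl_39_100⟩

private theorem b12_1 : Rgn ⟨32430, 848318, 0, 807939, 0⟩
    ⟨699050, 848318, 0, 807939, 0⟩ :=
  rgn_of b12_1_0 b12_1_1 (Or.inr b12_1_2) (Or.inr b12_1_3)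

private theorem b12_2_0 : FaceH ⟨85019, 848318, 0, 807939, 0⟩
    ⟨629145, 848318, 0, 807939, 0⟩ :=
  faceH_of (n := 60) (x1 := 966740) (y1 := 524289) (r0 := 80103) (r1 := 20314772)
    (by decide +kernel) (by decide +kernel)

private theorem b12_2_1 : FaceH ⟨629145, 848318, 0, 807939, 0⟩
    ⟨85019, 848318, 0, 807939, 0⟩ :=
  faceH_of (n := 60) (x1 := 524289) (y1 := 966740) (r0 := 54123) (r1 := 13726194)
    (by decide +kernel) (by decide +kernel)

private theorem b12_2_2 : FaceV ⟨85019, 848318, 0, 807939, 0⟩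
    ⟨629145, 848318, 0, 807939, 0⟩ :=
  faceV_of (n := 60) (x1 := 966740) (y1 := 524289) (r0 := 80103) (r1 := 20314772)
    (by decide +kernel) (by decide +kernel) (by decide +kernel)

private theorem b12_2_3 : FaceV ⟨629145, 848318, 0, 807939, 0⟩
    ⟨85019, 848318, 0, 807939, 0⟩ :=
  faceV_of (n := 60) (x1 := 524289) (y1 := 966740) (r0 := 54123) (r1 := 13726194)
    (by decide +kernel) (by decide +kernel) (by decide +kernel)

private theorem b12_u2 : VD ⟨85019, 848318, 0, 807939, 0⟩ (17 / 20) (39 / 100) (2 / 5) :=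
  ⟨by decide +kernel, by norm_num, by norm_num [R], cu_2_5, Or.inr cl_39_100⟩

private theorem b12_v2 : VD ⟨629145, 848318, 0, 807939, 0⟩ (1 / 4) (39 / 100) (2 / 5) :=
  ⟨by decide +kernel, by norm_num, by norm_num [R], cu_2_5, Or.inr cl_39_100⟩

private theorem b12_2 : Rgn ⟨85019, 848318, 0, 807939, 0⟩
    ⟨629145, 848318, 0, 807939, 0⟩ :=
  rgn_of b12_2_0 b12_2_1 (Or.inr b12_2_2) (Or.inr b12_2_3)

private theorem b12_3_0 : FaceH ⟨857925, 848318, 0, 807939, 0⟩
    ⟨0, 848318, 0, 807939, 0⟩ :=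
  faceH_of (n := 60) (x1 := 331590) (y1 := 1048576) (r0 := 50064) (r1 := 12079052)
    (by decide +kernel) (by decide +kernel)

private theorem b12_3_1 : FaceH ⟨0, 848318, 0, 807939, 0⟩
    ⟨857925, 848318, 0, 807939, 0⟩ :=
  faceH_of (n := 60) (x1 := 1048576) (y1 := 331590) (r0 := 91026) (r1 := 21961902)
    (by decide +kernel) (by decide +kernel)

private theorem b12_3_2 : FaceV ⟨857925, 848318, 0, 807939, 0⟩
    ⟨0, 848318, 0, 807939, 0⟩ :=
  faceV_of (n := 60) (x1 := 331590) (y1 := 1048576) (r0 := 50064) (r1 := 12079052)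
    (by decide +kernel) (by decide +kernel) (by decide +kernel)

private theorem b12_3_3 : FaceV ⟨0, 848318, 0, 807939, 0⟩
    ⟨857925, 848318, 0, 807939, 0⟩ :=
  faceV_of (n := 60) (x1 := 1048576) (y1 := 331590) (r0 := 91026) (r1 := 21961902)
    (by decide +kernel) (by decide +kernel) (by decide +kernel)

private theorem b12_u3 : VD ⟨857925, 848318, 0, 807939, 0⟩ (1 / 10) (39 / 100) (2 / 5) :=
  ⟨by decide +kernel, by norm_num, by norm_num [R], cu_2_5, Or.inr cl_39_100⟩

private theorem b12_v3 : VD ⟨0, 848318, 0, 807939, 0⟩ 1 (39 / 100) (2 / 5) :=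
  ⟨by decide +kernel, by norm_num, by norm_num [R], cu_2_5, Or.inr cl_39_100⟩

private theorem b12_3 : Rgn ⟨857925, 848318, 0, 807939, 0⟩
    ⟨0, 848318, 0, 807939, 0⟩ :=
  rgn_of b12_3_0 b12_3_1 (Or.inr b12_3_2) (Or.inr b12_3_3)

private theorem b12_4_0 : FaceH ⟨699050, 848318, 0, 807939, 0⟩
    ⟨32430, 848318, 0, 807939, 0⟩ :=
  faceH_of (n := 60) (x1 := 468938) (y1 := 1016633) (r0 := 51612) (r1 := 13177147)
    (by decide +kernel) (by decide +kernel)

private theorem b12_4_1 : FaceH ⟨32430, 848318, 0, 807939, 0⟩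
    ⟨699050, 848318, 0, 807939, 0⟩ :=
  faceH_of (n := 60) (x1 := 1016633) (y1 := 468938) (r0 := 83440) (r1 := 21303049)
    (by decide +kernel) (by decide +kernel)

private theorem b12_4_2 : FaceV ⟨699050, 848318, 0, 807939, 0⟩
    ⟨32430, 848318, 0, 807939, 0⟩ :=
  faceV_of (n := 60) (x1 := 468938) (y1 := 1016633) (r0 := 51612) (r1 := 13177147)
    (by decide +kernel) (by decide +kernel) (by decide +kernel)

private theorem b12_4_3 : FaceV ⟨32430, 848318, 0, 807939, 0⟩
    ⟨699050, 848318, 0, 807939, 0⟩ :=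
  faceV_of (n := 60) (x1 := 1016633) (y1 := 468938) (r0 := 83440) (r1 := 21303049)
    (by decide +kernel) (by decide +kernel) (by decide +kernel)

private theorem b12_u4 : VD ⟨699050, 848318, 0, 807939, 0⟩ (1 / 5) (39 / 100) (2 / 5) :=
  ⟨by decide +kernel, by norm_num, by norm_num [R], cu_2_5, Or.inr cl_39_100⟩

private theorem b12_v4 : VD ⟨32430, 848318, 0, 807939, 0⟩ (47 / 50) (39 / 100) (2 / 5) :=
  ⟨by decide +kernel, by norm_num, by norm_num [R], cu_2_5, Or.inr cl_39_100⟩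

private theorem b12_4 : Rgn ⟨699050, 848318, 0, 807939, 0⟩
    ⟨32430, 848318, 0, 807939, 0⟩ :=
  rgn_of b12_4_0 b12_4_1 (Or.inr b12_4_2) (Or.inr b12_4_3)

private theorem b12_5_0 : FaceH ⟨629145, 848318, 0, 807939, 0⟩
    ⟨85019, 848318, 0, 807939, 0⟩ :=
  faceH_of (n := 60) (x1 := 524289) (y1 := 966740) (r0 := 54123) (r1 := 13726194)
    (by decide +kernel) (by decide +kernel)

private theorem b12_5_1 : FaceH ⟨85019, 848318, 0, 807939, 0⟩
    ⟨629145, 848318, 0, 807939, 0⟩ :=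
  faceH_of (n := 60) (x1 := 966740) (y1 := 524289) (r0 := 80103) (r1 := 20314772)
    (by decide +kernel) (by decide +kernel)

private theorem b12_5_2 : FaceV ⟨629145, 848318, 0, 807939, 0⟩
    ⟨85019, 848318, 0, 807939, 0⟩ :=
  faceV_of (n := 60) (x1 := 524289) (y1 := 966740) (r0 := 54123) (r1 := 13726194)
    (by decide +kernel) (by decide +kernel) (by decide +kernel)

private theorem b12_5_3 : FaceV ⟨85019, 848318, 0, 807939, 0⟩
    ⟨629145, 848318, 0, 807939, 0⟩ :=
  faceV_of (n := 60) (x1 := 966740) (y1 := 524289) (r0 := 80103) (r1 := 20314772)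
    (by decide +kernel) (by decide +kernel) (by decide +kernel)

private theorem b12_u5 : VD ⟨629145, 848318, 0, 807939, 0⟩ (1 / 4) (39 / 100) (2 / 5) :=
  ⟨by decide +kernel, by norm_num, by norm_num [R], cu_2_5, Or.inr cl_39_100⟩

private theorem b12_v5 : VD ⟨85019, 848318, 0, 807939, 0⟩ (17 / 20) (39 / 100) (2 / 5) :=
  ⟨by decide +kernel, by norm_num, by norm_num [R], cu_2_5, Or.inr cl_39_100⟩

private theorem b12_5 : Rgn ⟨629145, 848318, 0, 807939, 0⟩
    ⟨85019, 848318, 0, 807939, 0⟩ :=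
  rgn_of b12_5_0 b12_5_1 (Or.inr b12_5_2) (Or.inr b12_5_3)

private theorem b12_6_0 : FaceH ⟨110071, 848318, 0, 807939, 0⟩
    ⟨564617, 848318, 0, 807939, 0⟩ :=
  faceH_of (n := 60) (x1 := 943719) (y1 := 574330) (r0 := 77022) (r1 := 19875530)
    (by decide +kernel) (by decide +kernel)

private theorem b12_6_1 : FaceH ⟨564617, 848318, 0, 807939, 0⟩
    ⟨110071, 848318, 0, 807939, 0⟩ :=
  faceH_of (n := 60) (x1 := 574330) (y1 := 943719) (r0 := 55319) (r1 := 14275244)
    (by decide +kernel) (by decide +kernel)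

private theorem b12_6_2 : FaceV ⟨110071, 848318, 0, 807939, 0⟩
    ⟨564617, 848318, 0, 807939, 0⟩ :=
  faceV_of (n := 60) (x1 := 943719) (y1 := 574330) (r0 := 77022) (r1 := 19875530)
    (by decide +kernel) (by decide +kernel) (by decide +kernel)

private theorem b12_6_3 : FaceV ⟨564617, 848318, 0, 807939, 0⟩
    ⟨110071, 848318, 0, 807939, 0⟩ :=
  faceV_of (n := 60) (x1 := 574330) (y1 := 943719) (r0 := 55319) (r1 := 14275244)
    (by decide +kernel) (by decide +kernel) (by decide +kernel)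

private theorem b12_u6 : VD ⟨110071, 848318, 0, 807939, 0⟩ (81 / 100) (39 / 100) (2 / 5) :=
  ⟨by decide +kernel, by norm_num, by norm_num [R], cu_2_5, Or.inr cl_39_100⟩

private theorem b12_v6 : VD ⟨564617, 848318, 0, 807939, 0⟩ (3 / 10) (39 / 100) (2 / 5) :=
  ⟨by decide +kernel, by norm_num, by norm_num [R], cu_2_5, Or.inr cl_39_100⟩

private theorem b12_6 : Rgn ⟨110071, 848318, 0, 807939, 0⟩
    ⟨564617, 848318, 0, 807939, 0⟩ :=
  rgn_of b12_6_0 b12_6_1 (Or.inr b12_6_2) (Or.inr b12_6_3)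

private theorem b12_7_0 : FaceH ⟨132918, 848318, 0, 807939, 0⟩
    ⟨504869, 848318, 0, 807939, 0⟩ :=
  faceH_of (n := 60) (x1 := 923105) (y1 := 620347) (r0 := 74169) (r1 := 19491190)
    (by decide +kernel) (by decide +kernel)

private theorem b12_7_1 : FaceH ⟨504869, 848318, 0, 807939, 0⟩
    ⟨132918, 848318, 0, 807939, 0⟩ :=
  faceH_of (n := 60) (x1 := 620347) (y1 := 923105) (r0 := 56410) (r1 := 14824293)
    (by decide +kernel) (by decide +kernel)

private theorem b12_7_2 : FaceV ⟨132918, 848318, 0, 807939, 0⟩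
    ⟨504869, 848318, 0, 807939, 0⟩ :=
  faceV_of (n := 60) (x1 := 923105) (y1 := 620347) (r0 := 74169) (r1 := 19491190)
    (by decide +kernel) (by decide +kernel) (by decide +kernel)

private theorem b12_7_3 : FaceV ⟨504869, 848318, 0, 807939, 0⟩
    ⟨132918, 848318, 0, 807939, 0⟩ :=
  faceV_of (n := 60) (x1 := 620347) (y1 := 923105) (r0 := 56410) (r1 := 14824293)
    (by decide +kernel) (by decide +kernel) (by decide +kernel)

private theorem b12_u7 : VD ⟨132918, 848318, 0, 807939, 0⟩ (31 / 40) (39 / 100) (2 / 5) :=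
  ⟨by decide +kernel, by norm_num, by norm_num [R], cu_2_5, Or.inr cl_39_100⟩

private theorem b12_v7 : VD ⟨504869, 848318, 0, 807939, 0⟩ (7 / 20) (39 / 100) (2 / 5) :=
  ⟨by decide +kernel, by norm_num, by norm_num [R], cu_2_5, Or.inr cl_39_100⟩

private theorem b12_7 : Rgn ⟨132918, 848318, 0, 807939, 0⟩
    ⟨504869, 848318, 0, 807939, 0⟩ :=
  rgn_of b12_7_0 b12_7_1 (Or.inr b12_7_2) (Or.inr b12_7_3)

private theorem b12_8_0 : FaceH ⟨153230, 848318, 0, 807939, 0⟩
    ⟨449389, 848318, 0, 807939, 0⟩ :=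
  faceH_of (n := 60) (x1 := 905062) (y1 := 663179) (r0 := 71520) (r1 := 19161765)
    (by decide +kernel) (by decide +kernel)

private theorem b12_8_1 : FaceH ⟨449389, 848318, 0, 807939, 0⟩
    ⟨153230, 848318, 0, 807939, 0⟩ :=
  faceH_of (n := 60) (x1 := 663179) (y1 := 905062) (r0 := 57380) (r1 := 15373339)
    (by decide +kernel) (by decide +kernel)

private theorem b12_8_2 : FaceV ⟨153230, 848318, 0, 807939, 0⟩
    ⟨449389, 848318, 0, 807939, 0⟩ :=
  faceV_of (n := 60) (x1 := 905062) (y1 := 663179) (r0 := 71520) (r1 := 19161765)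
    (by decide +kernel) (by decide +kernel) (by decide +kernel)

private theorem b12_8_3 : FaceV ⟨449389, 848318, 0, 807939, 0⟩
    ⟨153230, 848318, 0, 807939, 0⟩ :=
  faceV_of (n := 60) (x1 := 663179) (y1 := 905062) (r0 := 57380) (r1 := 15373339)
    (by decide +kernel) (by decide +kernel) (by decide +kernel)

private theorem b12_u8 : VD ⟨153230, 848318, 0, 807939, 0⟩ (149 / 200) (39 / 100) (2 / 5) :=
  ⟨by decide +kernel, by norm_num, by norm_num [R], cu_2_5, Or.inr cl_39_100⟩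

private theorem b12_v8 : VD ⟨449389, 848318, 0, 807939, 0⟩ (2 / 5) (39 / 100) (2 / 5) :=
  ⟨by decide +kernel, by norm_num, by norm_num [R], cu_2_5, Or.inr cl_39_100⟩

private theorem b12_8 : Rgn ⟨153230, 848318, 0, 807939, 0⟩
    ⟨449389, 848318, 0, 807939, 0⟩ :=
  rgn_of b12_8_0 b12_8_1 (Or.inr b12_8_2) (Or.inr b12_8_3)

private theorem b12_9_0 : FaceH ⟨174253, 848318, 0, 807939, 0⟩
    ⟨397735, 848318, 0, 807939, 0⟩ :=
  faceH_of (n := 60) (x1 := 886652) (y1 := 703407) (r0 := 69054) (r1 := 18832334)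
    (by decide +kernel) (by decide +kernel)

private theorem b12_9_1 : FaceH ⟨397735, 848318, 0, 807939, 0⟩
    ⟨174253, 848318, 0, 807939, 0⟩ :=
  faceH_of (n := 60) (x1 := 703407) (y1 := 886652) (r0 := 58384) (r1 := 15922387)
    (by decide +kernel) (by decide +kernel)

private theorem b12_9_2 : FaceV ⟨174253, 848318, 0, 807939, 0⟩
    ⟨397735, 848318, 0, 807939, 0⟩ :=
  faceV_of (n := 60) (x1 := 886652) (y1 := 703407) (r0 := 69054) (r1 := 18832334)
    (by decide +kernel) (by decide +kernel) (by decide +kernel)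

private theorem b12_9_3 : FaceV ⟨397735, 848318, 0, 807939, 0⟩
    ⟨174253, 848318, 0, 807939, 0⟩ :=
  faceV_of (n := 60) (x1 := 703407) (y1 := 886652) (r0 := 58384) (r1 := 15922387)
    (by decide +kernel) (by decide +kernel) (by decide +kernel)

private theorem b12_u9 : VD ⟨174253, 848318, 0, 807939, 0⟩ (143 / 200) (39 / 100) (2 / 5) :=
  ⟨by decide +kernel, by norm_num, by norm_num [R], cu_2_5, Or.inr cl_39_100⟩

private theorem b12_v9 : VD ⟨397735, 848318, 0, 807939, 0⟩ (9 / 20) (39 / 100) (2 / 5) :=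
  ⟨by decide +kernel, by norm_num, by norm_num [R], cu_2_5, Or.inr cl_39_100⟩

private theorem b12_9 : Rgn ⟨174253, 848318, 0, 807939, 0⟩
    ⟨397735, 848318, 0, 807939, 0⟩ :=
  rgn_of b12_9_0 b12_9_1 (Or.inr b12_9_2) (Or.inr b12_9_3)

private theorem b12_10_0 : FaceH ⟨192342, 848318, 0, 807939, 0⟩
    ⟨349525, 848318, 0, 807939, 0⟩ :=
  faceH_of (n := 60) (x1 := 871013) (y1 := 741456) (r0 := 66752) (r1 := 18557813)
    (by decide +kernel) (by decide +kernel)

private theorem b12_10_1 : FaceH ⟨349525, 848318, 0, 807939, 0⟩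
    ⟨192342, 848318, 0, 807939, 0⟩ :=
  faceH_of (n := 60) (x1 := 741456) (y1 := 871013) (r0 := 59247) (r1 := 16471431)
    (by decide +kernel) (by decide +kernel)

private theorem b12_10_2 : FaceV ⟨192342, 848318, 0, 807939, 0⟩
    ⟨349525, 848318, 0, 807939, 0⟩ :=
  faceV_of (n := 60) (x1 := 871013) (y1 := 741456) (r0 := 66752) (r1 := 18557813)
    (by decide +kernel) (by decide +kernel) (by decide +kernel)

private theorem b12_10_3 : FaceV ⟨349525, 848318, 0, 807939, 0⟩
    ⟨192342, 848318, 0, 807939, 0⟩ :=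
  faceV_of (n := 60) (x1 := 741456) (y1 := 871013) (r0 := 59247) (r1 := 16471431)
    (by decide +kernel) (by decide +kernel) (by decide +kernel)

private theorem b12_u10 : VD ⟨192342, 848318, 0, 807939, 0⟩ (69 / 100) (39 / 100) (2 / 5) :=
  ⟨by decide +kernel, by norm_num, by norm_num [R], cu_2_5, Or.inr cl_39_100⟩

private theorem b12_v10 : VD ⟨349525, 848318, 0, 807939, 0⟩ (1 / 2) (39 / 100) (2 / 5) :=
  ⟨by decide +kernel, by norm_num, by norm_num [R], cu_2_5, Or.inr cl_39_100⟩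

private theorem b12_10 : Rgn ⟨192342, 848318, 0, 807939, 0⟩
    ⟨349525, 848318, 0, 807939, 0⟩ :=
  rgn_of b12_10_0 b12_10_1 (Or.inr b12_10_2) (Or.inr b12_10_3)

private theorem b12_11_0 : FaceH ⟨207203, 848318, 0, 807939, 0⟩
    ⟨304425, 848318, 0, 807939, 0⟩ :=
  faceH_of (n := 60) (x1 := 858297) (y1 := 777646) (r0 := 64599) (r1 := 18338198)
    (by decide +kernel) (by decide +kernel)

private theorem b12_11_1 : FaceH ⟨304425, 848318, 0, 807939, 0⟩
    ⟨207203, 848318, 0, 807939, 0⟩ :=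
  faceH_of (n := 60) (x1 := 777646) (y1 := 858297) (r0 := 59957) (r1 := 17020478)
    (by decide +kernel) (by decide +kernel)

private theorem b12_11_2 : FaceV ⟨207203, 848318, 0, 807939, 0⟩
    ⟨304425, 848318, 0, 807939, 0⟩ :=
  faceV_of (n := 60) (x1 := 858297) (y1 := 777646) (r0 := 64599) (r1 := 18338198)
    (by decide +kernel) (by decide +kernel) (by decide +kernel)

private theorem b12_11_3 : FaceV ⟨304425, 848318, 0, 807939, 0⟩
    ⟨207203, 848318, 0, 807939, 0⟩ :=
  faceV_of (n := 60) (x1 := 777646) (y1 := 858297) (r0 := 59957) (r1 := 17020478)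
    (by decide +kernel) (by decide +kernel) (by decide +kernel)

private theorem b12_u11 : VD ⟨207203, 848318, 0, 807939, 0⟩ (67 / 100) (39 / 100) (2 / 5) :=
  ⟨by decide +kernel, by norm_num, by norm_num [R], cu_2_5, Or.inr cl_39_100⟩

private theorem b12_v11 : VD ⟨304425, 848318, 0, 807939, 0⟩ (11 / 20) (39 / 100) (2 / 5) :=
  ⟨by decide +kernel, by norm_num, by norm_num [R], cu_2_5, Or.inr cl_39_100⟩

private theorem b12_11 : Rgn ⟨207203, 848318, 0, 807939, 0⟩
    ⟨304425, 848318, 0, 807939, 0⟩ :=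
  rgn_of b12_11_0 b12_11_1 (Or.inr b12_11_2) (Or.inr b12_11_3)

private theorem b12_12_0 : FaceH ⟨222425, 848318, 0, 807939, 0⟩
    ⟨262144, 848318, 0, 807939, 0⟩ :=
  faceH_of (n := 60) (x1 := 845390) (y1 := 812224) (r0 := 62580) (r1 := 18118572)
    (by decide +kernel) (by decide +kernel)

private theorem b12_12_1 : FaceH ⟨262144, 848318, 0, 807939, 0⟩
    ⟨222425, 848318, 0, 807939, 0⟩ :=
  faceH_of (n := 60) (x1 := 812224) (y1 := 845390) (r0 := 60684) (r1 := 17569522)
    (by decide +kernel) (by decide +kernel)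

private theorem b12_12_2 : FaceV ⟨222425, 848318, 0, 807939, 0⟩
    ⟨262144, 848318, 0, 807939, 0⟩ :=
  faceV_of (n := 60) (x1 := 845390) (y1 := 812224) (r0 := 62580) (r1 := 18118572)
    (by decide +kernel) (by decide +kernel) (by decide +kernel)

private theorem b12_12_3 : FaceV ⟨262144, 848318, 0, 807939, 0⟩
    ⟨222425, 848318, 0, 807939, 0⟩ :=
  faceV_of (n := 60) (x1 := 812224) (y1 := 845390) (r0 := 60684) (r1 := 17569522)
    (by decide +kernel) (by decide +kernel) (by decide +kernel)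

private theorem b12_u12 : VD ⟨222425, 848318, 0, 807939, 0⟩ (13 / 20) (39 / 100) (2 / 5) :=
  ⟨by decide +kernel, by norm_num, by norm_num [R], cu_2_5, Or.inr cl_39_100⟩

private theorem b12_v12 : VD ⟨262144, 848318, 0, 807939, 0⟩ (3 / 5) (39 / 100) (2 / 5) :=
  ⟨by decide +kernel, by norm_num, by norm_num [R], cu_2_5, Or.inr cl_39_100⟩

private theorem b12_12 : Rgn ⟨222425, 848318, 0, 807939, 0⟩
    ⟨262144, 848318, 0, 807939, 0⟩ :=
  rgn_of b12_12_0 b12_12_1 (Or.inr b12_12_2) (Or.inr b12_12_3)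

private theorem b12_13_0 : FaceH ⟨234085, 848318, 0, 807939, 0⟩
    ⟨234085, 848318, 0, 807939, 0⟩ :=
  faceH_of (n := 60) (x1 := 835579) (y1 := 835579) (r0 := 61240) (r1 := 17953866)
    (by decide +kernel) (by decide +kernel)

private theorem b12_13_1 : FaceH ⟨234085, 848318, 0, 807939, 0⟩
    ⟨234085, 848318, 0, 807939, 0⟩ :=
  faceH_of (n := 60) (x1 := 835579) (y1 := 835579) (r0 := 61240) (r1 := 17953866)
    (by decide +kernel) (by decide +kernel)

private theorem b12_13_2 : FaceV ⟨234085, 848318, 0, 807939, 0⟩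
    ⟨234085, 848318, 0, 807939, 0⟩ :=
  faceV_of (n := 60) (x1 := 835579) (y1 := 835579) (r0 := 61240) (r1 := 17953866)
    (by decide +kernel) (by decide +kernel) (by decide +kernel)

private theorem b12_13_3 : FaceV ⟨234085, 848318, 0, 807939, 0⟩
    ⟨234085, 848318, 0, 807939, 0⟩ :=
  faceV_of (n := 60) (x1 := 835579) (y1 := 835579) (r0 := 61240) (r1 := 17953866)
    (by decide +kernel) (by decide +kernel) (by decide +kernel)

private theorem b12_u13 : VD ⟨234085, 848318, 0, 807939, 0⟩ (127 / 200) (39 / 100) (2 / 5) :=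
  ⟨by decide +kernel, by norm_num, by norm_num [R], cu_2_5, Or.inr cl_39_100⟩

private theorem b12_v13 : VD ⟨234085, 848318, 0, 807939, 0⟩ (127 / 200) (39 / 100) (2 / 5) :=
  ⟨by decide +kernel, by norm_num, by norm_num [R], cu_2_5, Or.inr cl_39_100⟩

private theorem b12_13 : Rgn ⟨234085, 848318, 0, 807939, 0⟩
    ⟨234085, 848318, 0, 807939, 0⟩ :=
  rgn_of b12_13_0 b12_13_1 (Or.inr b12_13_2) (Or.inr b12_13_3)

private theorem b12_14_0 : FaceH ⟨564617, 848318, 0, 807939, 0⟩
    ⟨110071, 848318, 0, 807939, 0⟩ :=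
  faceH_of (n := 60) (x1 := 574330) (y1 := 943719) (r0 := 55319) (r1 := 14275244)
    (by decide +kernel) (by decide +kernel)

private theorem b12_14_1 : FaceH ⟨110071, 848318, 0, 807939, 0⟩
    ⟨564617, 848318, 0, 807939, 0⟩ :=
  faceH_of (n := 60) (x1 := 943719) (y1 := 574330) (r0 := 77022) (r1 := 19875530)
    (by decide +kernel) (by decide +kernel)

private theorem b12_14_2 : FaceV ⟨564617, 848318, 0, 807939, 0⟩
    ⟨110071, 848318, 0, 807939, 0⟩ :=
  faceV_of (n := 60) (x1 := 574330) (y1 := 943719) (r0 := 55319) (r1 := 14275244)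
    (by decide +kernel) (by decide +kernel) (by decide +kernel)

private theorem b12_14_3 : FaceV ⟨110071, 848318, 0, 807939, 0⟩
    ⟨564617, 848318, 0, 807939, 0⟩ :=
  faceV_of (n := 60) (x1 := 943719) (y1 := 574330) (r0 := 77022) (r1 := 19875530)
    (by decide +kernel) (by decide +kernel) (by decide +kernel)

private theorem b12_u14 : VD ⟨564617, 848318, 0, 807939, 0⟩ (3 / 10) (39 / 100) (2 / 5) :=
  ⟨by decide +kernel, by norm_num, by norm_num [R], cu_2_5, Or.inr cl_39_100⟩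

private theorem b12_v14 : VD ⟨110071, 848318, 0, 807939, 0⟩ (81 / 100) (39 / 100) (2 / 5) :=
  ⟨by decide +kernel, by norm_num, by norm_num [R], cu_2_5, Or.inr cl_39_100⟩

private theorem b12_14 : Rgn ⟨564617, 848318, 0, 807939, 0⟩
    ⟨110071, 848318, 0, 807939, 0⟩ :=
  rgn_of b12_14_0 b12_14_1 (Or.inr b12_14_2) (Or.inr b12_14_3)

private theorem b12_15_0 : FaceH ⟨504869, 848318, 0, 807939, 0⟩
    ⟨132918, 848318, 0, 807939, 0⟩ :=
  faceH_of (n := 60) (x1 := 620347) (y1 := 923105) (r0 := 56410) (r1 := 14824293)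
    (by decide +kernel) (by decide +kernel)

private theorem b12_15_1 : FaceH ⟨132918, 848318, 0, 807939, 0⟩
    ⟨504869, 848318, 0, 807939, 0⟩ :=
  faceH_of (n := 60) (x1 := 923105) (y1 := 620347) (r0 := 74169) (r1 := 19491190)
    (by decide +kernel) (by decide +kernel)

private theorem b12_15_2 : FaceV ⟨504869, 848318, 0, 807939, 0⟩
    ⟨132918, 848318, 0, 807939, 0⟩ :=
  faceV_of (n := 60) (x1 := 620347) (y1 := 923105) (r0 := 56410) (r1 := 14824293)
    (by decide +kernel) (by decide +kernel) (by decide +kernel)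

private theorem b12_15_3 : FaceV ⟨132918, 848318, 0, 807939, 0⟩
    ⟨504869, 848318, 0, 807939, 0⟩ :=
  faceV_of (n := 60) (x1 := 923105) (y1 := 620347) (r0 := 74169) (r1 := 19491190)
    (by decide +kernel) (by decide +kernel) (by decide +kernel)

private theorem b12_u15 : VD ⟨504869, 848318, 0, 807939, 0⟩ (7 / 20) (39 / 100) (2 / 5) :=
  ⟨by decide +kernel, by norm_num, by norm_num [R], cu_2_5, Or.inr cl_39_100⟩

private theorem b12_v15 : VD ⟨132918, 848318, 0, 807939, 0⟩ (31 / 40) (39 / 100) (2 / 5) :=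
  ⟨by decide +kernel, by norm_num, by norm_num [R], cu_2_5, Or.inr cl_39_100⟩

private theorem b12_15 : Rgn ⟨504869, 848318, 0, 807939, 0⟩
    ⟨132918, 848318, 0, 807939, 0⟩ :=
  rgn_of b12_15_0 b12_15_1 (Or.inr b12_15_2) (Or.inr b12_15_3)

private theorem b12_16_0 : FaceH ⟨449389, 848318, 0, 807939, 0⟩
    ⟨153230, 848318, 0, 807939, 0⟩ :=
  faceH_of (n := 60) (x1 := 663179) (y1 := 905062) (r0 := 57380) (r1 := 15373339)
    (by decide +kernel) (by decide +kernel)

private theorem b12_16_1 : FaceH ⟨153230, 848318, 0, 807939, 0⟩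
    ⟨449389, 848318, 0, 807939, 0⟩ :=
  faceH_of (n := 60) (x1 := 905062) (y1 := 663179) (r0 := 71520) (r1 := 19161765)
    (by decide +kernel) (by decide +kernel)

private theorem b12_16_2 : FaceV ⟨449389, 848318, 0, 807939, 0⟩
    ⟨153230, 848318, 0, 807939, 0⟩ :=
  faceV_of (n := 60) (x1 := 663179) (y1 := 905062) (r0 := 57380) (r1 := 15373339)
    (by decide +kernel) (by decide +kernel) (by decide +kernel)

private theorem b12_16_3 : FaceV ⟨153230, 848318, 0, 807939, 0⟩
    ⟨449389, 848318, 0, 807939, 0⟩ :=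
  faceV_of (n := 60) (x1 := 905062) (y1 := 663179) (r0 := 71520) (r1 := 19161765)
    (by decide +kernel) (by decide +kernel) (by decide +kernel)

private theorem b12_u16 : VD ⟨449389, 848318, 0, 807939, 0⟩ (2 / 5) (39 / 100) (2 / 5) :=
  ⟨by decide +kernel, by norm_num, by norm_num [R], cu_2_5, Or.inr cl_39_100⟩

private theorem b12_v16 : VD ⟨153230, 848318, 0, 807939, 0⟩ (149 / 200) (39 / 100) (2 / 5) :=
  ⟨by decide +kernel, by norm_num, by norm_num [R], cu_2_5, Or.inr cl_39_100⟩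

private theorem b12_16 : Rgn ⟨449389, 848318, 0, 807939, 0⟩
    ⟨153230, 848318, 0, 807939, 0⟩ :=
  rgn_of b12_16_0 b12_16_1 (Or.inr b12_16_2) (Or.inr b12_16_3)

private theorem b12_17_0 : FaceH ⟨397735, 848318, 0, 807939, 0⟩
    ⟨174253, 848318, 0, 807939, 0⟩ :=
  faceH_of (n := 60) (x1 := 703407) (y1 := 886652) (r0 := 58384) (r1 := 15922387)
    (by decide +kernel) (by decide +kernel)

private theorem b12_17_1 : FaceH ⟨174253, 848318, 0, 807939, 0⟩
    ⟨397735, 848318, 0, 807939, 0⟩ :=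
  faceH_of (n := 60) (x1 := 886652) (y1 := 703407) (r0 := 69054) (r1 := 18832334)
    (by decide +kernel) (by decide +kernel)

private theorem b12_17_2 : FaceV ⟨397735, 848318, 0, 807939, 0⟩
    ⟨174253, 848318, 0, 807939, 0⟩ :=
  faceV_of (n := 60) (x1 := 703407) (y1 := 886652) (r0 := 58384) (r1 := 15922387)
    (by decide +kernel) (by decide +kernel) (by decide +kernel)

private theorem b12_17_3 : FaceV ⟨174253, 848318, 0, 807939, 0⟩
    ⟨397735, 848318, 0, 807939, 0⟩ :=
  faceV_of (n := 60) (x1 := 886652) (y1 := 703407) (r0 := 69054) (r1 := 18832334)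
    (by decide +kernel) (by decide +kernel) (by decide +kernel)

private theorem b12_u17 : VD ⟨397735, 848318, 0, 807939, 0⟩ (9 / 20) (39 / 100) (2 / 5) :=
  ⟨by decide +kernel, by norm_num, by norm_num [R], cu_2_5, Or.inr cl_39_100⟩

private theorem b12_v17 : VD ⟨174253, 848318, 0, 807939, 0⟩ (143 / 200) (39 / 100) (2 / 5) :=
  ⟨by decide +kernel, by norm_num, by norm_num [R], cu_2_5, Or.inr cl_39_100⟩

private theorem b12_17 : Rgn ⟨397735, 848318, 0, 807939, 0⟩
    ⟨174253, 848318, 0, 807939, 0⟩ :=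
  rgn_of b12_17_0 b12_17_1 (Or.inr b12_17_2) (Or.inr b12_17_3)

private theorem b12_18_0 : FaceH ⟨349525, 848318, 0, 807939, 0⟩
    ⟨192342, 848318, 0, 807939, 0⟩ :=
  faceH_of (n := 60) (x1 := 741456) (y1 := 871013) (r0 := 59247) (r1 := 16471431)
    (by decide +kernel) (by decide +kernel)

private theorem b12_18_1 : FaceH ⟨192342, 848318, 0, 807939, 0⟩
    ⟨349525, 848318, 0, 807939, 0⟩ :=
  faceH_of (n := 60) (x1 := 871013) (y1 := 741456) (r0 := 66752) (r1 := 18557813)
    (by decide +kernel) (by decide +kernel)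

private theorem b12_18_2 : FaceV ⟨349525, 848318, 0, 807939, 0⟩
    ⟨192342, 848318, 0, 807939, 0⟩ :=
  faceV_of (n := 60) (x1 := 741456) (y1 := 871013) (r0 := 59247) (r1 := 16471431)
    (by decide +kernel) (by decide +kernel) (by decide +kernel)

private theorem b12_18_3 : FaceV ⟨192342, 848318, 0, 807939, 0⟩
    ⟨349525, 848318, 0, 807939, 0⟩ :=
  faceV_of (n := 60) (x1 := 871013) (y1 := 741456) (r0 := 66752) (r1 := 18557813)
    (by decide +kernel) (by decide +kernel) (by decide +kernel)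

private theorem b12_u18 : VD ⟨349525, 848318, 0, 807939, 0⟩ (1 / 2) (39 / 100) (2 / 5) :=
  ⟨by decide +kernel, by norm_num, by norm_num [R], cu_2_5, Or.inr cl_39_100⟩

private theorem b12_v18 : VD ⟨192342, 848318, 0, 807939, 0⟩ (69 / 100) (39 / 100) (2 / 5) :=
  ⟨by decide +kernel, by norm_num, by norm_num [R], cu_2_5, Or.inr cl_39_100⟩

private theorem b12_18 : Rgn ⟨349525, 848318, 0, 807939, 0⟩
    ⟨192342, 848318, 0, 807939, 0⟩ :=
  rgn_of b12_18_0 b12_18_1 (Or.inr b12_18_2) (Or.inr b12_18_3)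

private theorem b12_19_0 : FaceH ⟨304425, 848318, 0, 807939, 0⟩
    ⟨207203, 848318, 0, 807939, 0⟩ :=
  faceH_of (n := 60) (x1 := 777646) (y1 := 858297) (r0 := 59957) (r1 := 17020478)
    (by decide +kernel) (by decide +kernel)

private theorem b12_19_1 : FaceH ⟨207203, 848318, 0, 807939, 0⟩
    ⟨304425, 848318, 0, 807939, 0⟩ :=
  faceH_of (n := 60) (x1 := 858297) (y1 := 777646) (r0 := 64599) (r1 := 18338198)
    (by decide +kernel) (by decide +kernel)

private theorem b12_19_2 : FaceV ⟨304425, 848318, 0, 807939, 0⟩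
    ⟨207203, 848318, 0, 807939, 0⟩ :=
  faceV_of (n := 60) (x1 := 777646) (y1 := 858297) (r0 := 59957) (r1 := 17020478)
    (by decide +kernel) (by decide +kernel) (by decide +kernel)

private theorem b12_19_3 : FaceV ⟨207203, 848318, 0, 807939, 0⟩
    ⟨304425, 848318, 0, 807939, 0⟩ :=
  faceV_of (n := 60) (x1 := 858297) (y1 := 777646) (r0 := 64599) (r1 := 18338198)
    (by decide +kernel) (by decide +kernel) (by decide +kernel)

private theorem b12_u19 : VD ⟨304425, 848318, 0, 807939, 0⟩ (11 / 20) (39 / 100) (2 / 5) :=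
  ⟨by decide +kernel, by norm_num, by norm_num [R], cu_2_5, Or.inr cl_39_100⟩

private theorem b12_v19 : VD ⟨207203, 848318, 0, 807939, 0⟩ (67 / 100) (39 / 100) (2 / 5) :=
  ⟨by decide +kernel, by norm_num, by norm_num [R], cu_2_5, Or.inr cl_39_100⟩

private theorem b12_19 : Rgn ⟨304425, 848318, 0, 807939, 0⟩
    ⟨207203, 848318, 0, 807939, 0⟩ :=
  rgn_of b12_19_0 b12_19_1 (Or.inr b12_19_2) (Or.inr b12_19_3)

private theorem b12_20_0 : FaceH ⟨262144, 848318, 0, 807939, 0⟩
    ⟨222425, 848318, 0, 807939, 0⟩ :=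
  faceH_of (n := 60) (x1 := 812224) (y1 := 845390) (r0 := 60684) (r1 := 17569522)
    (by decide +kernel) (by decide +kernel)

private theorem b12_20_1 : FaceH ⟨222425, 848318, 0, 807939, 0⟩
    ⟨262144, 848318, 0, 807939, 0⟩ :=
  faceH_of (n := 60) (x1 := 845390) (y1 := 812224) (r0 := 62580) (r1 := 18118572)
    (by decide +kernel) (by decide +kernel)

private theorem b12_20_2 : FaceV ⟨262144, 848318, 0, 807939, 0⟩
    ⟨222425, 848318, 0, 807939, 0⟩ :=
  faceV_of (n := 60) (x1 := 812224) (y1 := 845390) (r0 := 60684) (r1 := 17569522)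
    (by decide +kernel) (by decide +kernel) (by decide +kernel)

private theorem b12_20_3 : FaceV ⟨222425, 848318, 0, 807939, 0⟩
    ⟨262144, 848318, 0, 807939, 0⟩ :=
  faceV_of (n := 60) (x1 := 845390) (y1 := 812224) (r0 := 62580) (r1 := 18118572)
    (by decide +kernel) (by decide +kernel) (by decide +kernel)

private theorem b12_u20 : VD ⟨262144, 848318, 0, 807939, 0⟩ (3 / 5) (39 / 100) (2 / 5) :=
  ⟨by decide +kernel, by norm_num, by norm_num [R], cu_2_5, Or.inr cl_39_100⟩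

private theorem b12_v20 : VD ⟨222425, 848318, 0, 807939, 0⟩ (13 / 20) (39 / 100) (2 / 5) :=
  ⟨by decide +kernel, by norm_num, by norm_num [R], cu_2_5, Or.inr cl_39_100⟩

private theorem b12_20 : Rgn ⟨262144, 848318, 0, 807939, 0⟩
    ⟨222425, 848318, 0, 807939, 0⟩ :=
  rgn_of b12_20_0 b12_20_1 (Or.inr b12_20_2) (Or.inr b12_20_3)

theorem flat_b12 {θ θ' : ℝ} {v w : ℂ} (h : T2.Pr θ θ' v w)
    (j : J3 (Real.tan θ ^ 2) (Real.tan θ' ^ 2)) (j' : J3 (Real.tan θ' ^ 2) (Real.tan θ ^ 2))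
    (t1 : Real.tan θ ^ 2 < 1) (t2 : Real.tan θ' ^ 2 < 1)
    (h1 : 39 / 100 ≤ v.re) (h2 : v.re ≤ 2 / 5) (h3 : 39 / 100 ≤ w.re) (h4 : w.re ≤ 2 / 5) :
    FlatM (1 / cos (Real.pi * v) ^ 2) (1 / cos (Real.pi * (starRingEnd ℂ) w) ^ 2) := by
  rcases j.c22 j' t1 t2 with (⟨a, b⟩ | ⟨a, b⟩ | ⟨a, b⟩ | ⟨a, b⟩ | ⟨a, b⟩ | ⟨a, b⟩ | ⟨a, b⟩ | ⟨a, b⟩ | ⟨a, b⟩ | ⟨a, b⟩) |
    (⟨a, b⟩ | ⟨a, b⟩ | ⟨a, b⟩ | ⟨a, b⟩ | ⟨a, b⟩ | ⟨a, b⟩ | ⟨a, b⟩ | ⟨a, b⟩ | ⟨a, b⟩ | ⟨a, b⟩) | ⟨a, b⟩
  · exact b12_0.flatM b12_u0 b12_v0 h a b t1 t2 h1 h2 h3 h4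
      (by norm_num) (by norm_num) (by norm_num) (by norm_num)
  · exact b12_1.flatM b12_u1 b12_v1 h a b t1 t2 h1 h2 h3 h4
      (by norm_num) (by norm_num) (by norm_num) (by norm_num)
  · exact b12_2.flatM b12_u2 b12_v2 h a b t1 t2 h1 h2 h3 h4
      (by norm_num) (by norm_num) (by norm_num) (by norm_num)
  · exact b12_6.flatM b12_u6 b12_v6 h a b t1 t2 h1 h2 h3 h4
      (by norm_num) (by norm_num) (by norm_num) (by norm_num)
  · exact b12_7.flatM b12_u7 b12_v7 h a b t1 t2 h1 h2 h3 h4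
      (by norm_num) (by norm_num) (by norm_num) (by norm_num)
  · exact b12_8.flatM b12_u8 b12_v8 h a b t1 t2 h1 h2 h3 h4
      (by norm_num) (by norm_num) (by norm_num) (by norm_num)
  · exact b12_9.flatM b12_u9 b12_v9 h a b t1 t2 h1 h2 h3 h4
      (by norm_num) (by norm_num) (by norm_num) (by norm_num)
  · exact b12_10.flatM b12_u10 b12_v10 h a b t1 t2 h1 h2 h3 h4
      (by norm_num) (by norm_num) (by norm_num) (by norm_num)
  · exact b12_11.flatM b12_u11 b12_v11 h a b t1 t2 h1 h2 h3 h4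
      (by norm_num) (by norm_num) (by norm_num) (by norm_num)
  · exact b12_12.flatM b12_u12 b12_v12 h a b t1 t2 h1 h2 h3 h4
      (by norm_num) (by norm_num) (by norm_num) (by norm_num)
  · exact b12_3.flatM b12_u3 b12_v3 h b a t1 t2 h1 h2 h3 h4
      (by norm_num) (by norm_num) (by norm_num) (by norm_num)
  · exact b12_4.flatM b12_u4 b12_v4 h b a t1 t2 h1 h2 h3 h4
      (by norm_num) (by norm_num) (by norm_num) (by norm_num)
  · exact b12_5.flatM b12_u5 b12_v5 h b a t1 t2 h1 h2 h3 h4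
      (by norm_num) (by norm_num) (by norm_num) (by norm_num)
  · exact b12_14.flatM b12_u14 b12_v14 h b a t1 t2 h1 h2 h3 h4
      (by norm_num) (by norm_num) (by norm_num) (by norm_num)
  · exact b12_15.flatM b12_u15 b12_v15 h b a t1 t2 h1 h2 h3 h4
      (by norm_num) (by norm_num) (by norm_num) (by norm_num)
  · exact b12_16.flatM b12_u16 b12_v16 h b a t1 t2 h1 h2 h3 h4
      (by norm_num) (by norm_num) (by norm_num) (by norm_num)
  · exact b12_17.flatM b12_u17 b12_v17 h b a t1 t2 h1 h2 h3 h4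
      (by norm_num) (by norm_num) (by norm_num) (by norm_num)
  · exact b12_18.flatM b12_u18 b12_v18 h b a t1 t2 h1 h2 h3 h4
      (by norm_num) (by norm_num) (by norm_num) (by norm_num)
  · exact b12_19.flatM b12_u19 b12_v19 h b a t1 t2 h1 h2 h3 h4
      (by norm_num) (by norm_num) (by norm_num) (by norm_num)
  · exact b12_20.flatM b12_u20 b12_v20 h b a t1 t2 h1 h2 h3 h4
      (by norm_num) (by norm_num) (by norm_num) (by norm_num)
  · exact b12_13.flatM b12_u13 b12_v13 h a b t1 t2 h1 h2 h3 h4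
      (by norm_num) (by norm_num) (by norm_num) (by norm_num)

end Pool.Agent.S3.Ck
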