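import Pool.Agent.S3.Ck.Cos
import Pool.Agent.S3.Ck.SoundG

/-!
# Flats: b2
-/

set_option autoImplicit false
set_option maxRecDepth 100000

namespace Pool.Agent.S3.Ck

open Complex

private theorem b2_0_0 : FaceH ⟨0, 292546, 0, 0, 764382⟩
    ⟨857925, 0, 324025, 0, 764382⟩ :=
  faceH_of (n := 60) (x1 := 1048576) (y1 := 331590) (r0 := 343649) (r1 := 3204170)
    (by decide +kernel) (by decide +kernel)

private theorem b2_0_1 : FaceH ⟨857925, 0, 324025, 0, 764382⟩
    ⟨0, 292546, 0, 0, 764382⟩ :=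
  faceH_of (n := 60) (x1 := 331590) (y1 := 1048576) (r0 := 343150) (r1 := 3199512)
    (by decide +kernel) (by decide +kernel)

private theorem b2_0_2 : FaceV ⟨0, 292546, 0, 0, 764382⟩
    ⟨857925, 0, 324025, 0, 764382⟩ :=
  faceV_of (n := 60) (x1 := 1048576) (y1 := 331590) (r0 := 343649) (r1 := 3204170)
    (by decide +kernel) (by decide +kernel) (by decide +kernel)

private theorem b2_0_3 : FaceV ⟨857925, 0, 324025, 0, 764382⟩
    ⟨0, 292546, 0, 0, 764382⟩ :=
  faceV_of (n := 60) (x1 := 331590) (y1 := 1048576) (r0 := 343150) (r1 := 3199512)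
    (by decide +kernel) (by decide +kernel) (by decide +kernel)

private theorem b2_u0 : VD ⟨0, 292546, 0, 0, 764382⟩ 1 (3 / 25) (59 / 200) :=
  ⟨by decide +kernel, by norm_num, by norm_num [R], cu_59_200, Or.inr cl_3_25⟩

private theorem b2_v0 : VD ⟨857925, 0, 324025, 0, 764382⟩ (1 / 10) (3 / 25) (1 / 5) :=
  ⟨by decide +kernel, by norm_num, by norm_num [R], cu_1_5, Or.inr cl_3_25⟩

private theorem b2_0 : Rgn ⟨0, 292546, 0, 0, 764382⟩
    ⟨857925, 0, 324025, 0, 764382⟩ :=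
  rgn_of b2_0_0 b2_0_1 (Or.inr b2_0_2) (Or.inr b2_0_3)

private theorem b2_1_0 : FaceH ⟨32430, 292546, 0, 0, 764382⟩
    ⟨699050, 0, 324025, 0, 764382⟩ :=
  faceH_of (n := 60) (x1 := 1016633) (y1 := 468938) (r0 := 315012) (r1 := 3108046)
    (by decide +kernel) (by decide +kernel)

private theorem b2_1_1 : FaceH ⟨699050, 0, 324025, 0, 764382⟩
    ⟨32430, 292546, 0, 0, 764382⟩ :=
  faceH_of (n := 60) (x1 := 468938) (y1 := 1016633) (r0 := 353763) (r1 := 3490376)
    (by decide +kernel) (by decide +kernel)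

private theorem b2_1_2 : FaceV ⟨32430, 292546, 0, 0, 764382⟩
    ⟨699050, 0, 324025, 0, 764382⟩ :=
  faceV_of (n := 60) (x1 := 1016633) (y1 := 468938) (r0 := 315012) (r1 := 3108046)
    (by decide +kernel) (by decide +kernel) (by decide +kernel)

private theorem b2_1_3 : FaceV ⟨699050, 0, 324025, 0, 764382⟩
    ⟨32430, 292546, 0, 0, 764382⟩ :=
  faceV_of (n := 60) (x1 := 468938) (y1 := 1016633) (r0 := 353763) (r1 := 3490376)
    (by decide +kernel) (by decide +kernel) (by decide +kernel)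

private theorem b2_u1 : VD ⟨32430, 292546, 0, 0, 764382⟩ (47 / 50) (3 / 25) (59 / 200) :=
  ⟨by decide +kernel, by norm_num, by norm_num [R], cu_59_200, Or.inr cl_3_25⟩

private theorem b2_v1 : VD ⟨699050, 0, 324025, 0, 764382⟩ (1 / 5) (3 / 25) (1 / 5) :=
  ⟨by decide +kernel, by norm_num, by norm_num [R], cu_1_5, Or.inr cl_3_25⟩

private theorem b2_1 : Rgn ⟨32430, 292546, 0, 0, 764382⟩
    ⟨699050, 0, 324025, 0, 764382⟩ :=
  rgn_of b2_1_0 b2_1_1 (Or.inr b2_1_2) (Or.inr b2_1_3)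

private theorem b2_2_0 : FaceH ⟨85019, 292546, 0, 0, 764382⟩
    ⟨629145, 0, 324025, 0, 764382⟩ :=
  faceH_of (n := 60) (x1 := 966740) (y1 := 524289) (r0 := 302411) (r1 := 2963859)
    (by decide +kernel) (by decide +kernel)

private theorem b2_2_1 : FaceH ⟨629145, 0, 324025, 0, 764382⟩
    ⟨85019, 292546, 0, 0, 764382⟩ :=
  faceH_of (n := 60) (x1 := 524289) (y1 := 966740) (r0 := 370973) (r1 := 3635809)
    (by decide +kernel) (by decide +kernel)

private theorem b2_2_2 : FaceV ⟨85019, 292546, 0, 0, 764382⟩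
    ⟨629145, 0, 324025, 0, 764382⟩ :=
  faceV_of (n := 60) (x1 := 966740) (y1 := 524289) (r0 := 302411) (r1 := 2963859)
    (by decide +kernel) (by decide +kernel) (by decide +kernel)

private theorem b2_2_3 : FaceV ⟨629145, 0, 324025, 0, 764382⟩
    ⟨85019, 292546, 0, 0, 764382⟩ :=
  faceV_of (n := 60) (x1 := 524289) (y1 := 966740) (r0 := 370973) (r1 := 3635809)
    (by decide +kernel) (by decide +kernel) (by decide +kernel)

private theorem b2_u2 : VD ⟨85019, 292546, 0, 0, 764382⟩ (17 / 20) (3 / 25) (59 / 200) :=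
  ⟨by decide +kernel, by norm_num, by norm_num [R], cu_59_200, Or.inr cl_3_25⟩

private theorem b2_v2 : VD ⟨629145, 0, 324025, 0, 764382⟩ (1 / 4) (3 / 25) (1 / 5) :=
  ⟨by decide +kernel, by norm_num, by norm_num [R], cu_1_5, Or.inr cl_3_25⟩

private theorem b2_2 : Rgn ⟨85019, 292546, 0, 0, 764382⟩
    ⟨629145, 0, 324025, 0, 764382⟩ :=
  rgn_of b2_2_0 b2_2_1 (Or.inr b2_2_2) (Or.inr b2_2_3)

private theorem b2_3_0 : FaceH ⟨857925, 292546, 0, 0, 764382⟩
    ⟨0, 0, 324025, 0, 764382⟩ :=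
  faceH_of (n := 60) (x1 := 331590) (y1 := 1048576) (r0 := 189007) (r1 := 1762295)
    (by decide +kernel) (by decide +kernel)

private theorem b2_3_1 : FaceH ⟨0, 0, 324025, 0, 764382⟩
    ⟨857925, 292546, 0, 0, 764382⟩ :=
  faceH_of (n := 60) (x1 := 1048576) (y1 := 331590) (r0 := 623909) (r1 := 5817291)
    (by decide +kernel) (by decide +kernel)

private theorem b2_3_2 : FaceV ⟨857925, 292546, 0, 0, 764382⟩
    ⟨0, 0, 324025, 0, 764382⟩ :=
  faceV_of (n := 60) (x1 := 331590) (y1 := 1048576) (r0 := 189007) (r1 := 1762295)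
    (by decide +kernel) (by decide +kernel) (by decide +kernel)

private theorem b2_3_3 : FaceV ⟨0, 0, 324025, 0, 764382⟩
    ⟨857925, 292546, 0, 0, 764382⟩ :=
  faceV_of (n := 60) (x1 := 1048576) (y1 := 331590) (r0 := 623909) (r1 := 5817291)
    (by decide +kernel) (by decide +kernel) (by decide +kernel)

private theorem b2_u3 : VD ⟨857925, 292546, 0, 0, 764382⟩ (1 / 10) (3 / 25) (59 / 200) :=
  ⟨by decide +kernel, by norm_num, by norm_num [R], cu_59_200, Or.inr cl_3_25⟩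

private theorem b2_v3 : VD ⟨0, 0, 324025, 0, 764382⟩ 1 (3 / 25) (1 / 5) :=
  ⟨by decide +kernel, by norm_num, by norm_num [R], cu_1_5, Or.inr cl_3_25⟩

private theorem b2_3 : Rgn ⟨857925, 292546, 0, 0, 764382⟩
    ⟨0, 0, 324025, 0, 764382⟩ :=
  rgn_of b2_3_0 b2_3_1 (Or.inr b2_3_2) (Or.inr b2_3_3)

private theorem b2_4_0 : FaceH ⟨699050, 292546, 0, 0, 764382⟩
    ⟨32430, 0, 324025, 0, 764382⟩ :=
  faceH_of (n := 60) (x1 := 468938) (y1 := 1016633) (r0 := 194853) (r1 := 1922503)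
    (by decide +kernel) (by decide +kernel)

private theorem b2_4_1 : FaceH ⟨32430, 0, 324025, 0, 764382⟩
    ⟨699050, 292546, 0, 0, 764382⟩ :=
  faceH_of (n := 60) (x1 := 1016633) (y1 := 468938) (r0 := 571916) (r1 := 5642774)
    (by decide +kernel) (by decide +kernel)

private theorem b2_4_2 : FaceV ⟨699050, 292546, 0, 0, 764382⟩
    ⟨32430, 0, 324025, 0, 764382⟩ :=
  faceV_of (n := 60) (x1 := 468938) (y1 := 1016633) (r0 := 194853) (r1 := 1922503)
    (by decide +kernel) (by decide +kernel) (by decide +kernel)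

private theorem b2_4_3 : FaceV ⟨32430, 0, 324025, 0, 764382⟩
    ⟨699050, 292546, 0, 0, 764382⟩ :=
  faceV_of (n := 60) (x1 := 1016633) (y1 := 468938) (r0 := 571916) (r1 := 5642774)
    (by decide +kernel) (by decide +kernel) (by decide +kernel)

private theorem b2_u4 : VD ⟨699050, 292546, 0, 0, 764382⟩ (1 / 5) (3 / 25) (59 / 200) :=
  ⟨by decide +kernel, by norm_num, by norm_num [R], cu_59_200, Or.inr cl_3_25⟩

private theorem b2_v4 : VD ⟨32430, 0, 324025, 0, 764382⟩ (47 / 50) (3 / 25) (1 / 5) :=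
  ⟨by decide +kernel, by norm_num, by norm_num [R], cu_1_5, Or.inr cl_3_25⟩

private theorem b2_4 : Rgn ⟨699050, 292546, 0, 0, 764382⟩
    ⟨32430, 0, 324025, 0, 764382⟩ :=
  rgn_of b2_4_0 b2_4_1 (Or.inr b2_4_2) (Or.inr b2_4_3)

private theorem b2_5_0 : FaceH ⟨629145, 292546, 0, 0, 764382⟩
    ⟨85019, 0, 324025, 0, 764382⟩ :=
  faceH_of (n := 60) (x1 := 524289) (y1 := 966740) (r0 := 204332) (r1 := 2002607)
    (by decide +kernel) (by decide +kernel)

private theorem b2_5_1 : FaceH ⟨85019, 0, 324025, 0, 764382⟩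
    ⟨629145, 292546, 0, 0, 764382⟩ :=
  faceH_of (n := 60) (x1 := 966740) (y1 := 524289) (r0 := 549040) (r1 := 5380998)
    (by decide +kernel) (by decide +kernel)

private theorem b2_5_2 : FaceV ⟨629145, 292546, 0, 0, 764382⟩
    ⟨85019, 0, 324025, 0, 764382⟩ :=
  faceV_of (n := 60) (x1 := 524289) (y1 := 966740) (r0 := 204332) (r1 := 2002607)
    (by decide +kernel) (by decide +kernel) (by decide +kernel)

private theorem b2_5_3 : FaceV ⟨85019, 0, 324025, 0, 764382⟩
    ⟨629145, 292546, 0, 0, 764382⟩ :=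
  faceV_of (n := 60) (x1 := 966740) (y1 := 524289) (r0 := 549040) (r1 := 5380998)
    (by decide +kernel) (by decide +kernel) (by decide +kernel)

private theorem b2_u5 : VD ⟨629145, 292546, 0, 0, 764382⟩ (1 / 4) (3 / 25) (59 / 200) :=
  ⟨by decide +kernel, by norm_num, by norm_num [R], cu_59_200, Or.inr cl_3_25⟩

private theorem b2_v5 : VD ⟨85019, 0, 324025, 0, 764382⟩ (17 / 20) (3 / 25) (1 / 5) :=
  ⟨by decide +kernel, by norm_num, by norm_num [R], cu_1_5, Or.inr cl_3_25⟩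

private theorem b2_5 : Rgn ⟨629145, 292546, 0, 0, 764382⟩
    ⟨85019, 0, 324025, 0, 764382⟩ :=
  rgn_of b2_5_0 b2_5_1 (Or.inr b2_5_2) (Or.inr b2_5_3)

private theorem b2_6_0 : FaceH ⟨110071, 292546, 0, 0, 764382⟩
    ⟨564617, 0, 324025, 0, 764382⟩ :=
  faceH_of (n := 60) (x1 := 943719) (y1 := 574330) (r0 := 290780) (r1 := 2899775)
    (by decide +kernel) (by decide +kernel)

private theorem b2_6_1 : FaceH ⟨564617, 0, 324025, 0, 764382⟩
    ⟨110071, 292546, 0, 0, 764382⟩ :=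
  faceH_of (n := 60) (x1 := 574330) (y1 := 943719) (r0 := 379171) (r1 := 3781242)
    (by decide +kernel) (by decide +kernel)

private theorem b2_6_2 : FaceV ⟨110071, 292546, 0, 0, 764382⟩
    ⟨564617, 0, 324025, 0, 764382⟩ :=
  faceV_of (n := 60) (x1 := 943719) (y1 := 574330) (r0 := 290780) (r1 := 2899775)
    (by decide +kernel) (by decide +kernel) (by decide +kernel)

private theorem b2_6_3 : FaceV ⟨564617, 0, 324025, 0, 764382⟩
    ⟨110071, 292546, 0, 0, 764382⟩ :=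
  faceV_of (n := 60) (x1 := 574330) (y1 := 943719) (r0 := 379171) (r1 := 3781242)
    (by decide +kernel) (by decide +kernel) (by decide +kernel)

private theorem b2_u6 : VD ⟨110071, 292546, 0, 0, 764382⟩ (81 / 100) (3 / 25) (59 / 200) :=
  ⟨by decide +kernel, by norm_num, by norm_num [R], cu_59_200, Or.inr cl_3_25⟩

private theorem b2_v6 : VD ⟨564617, 0, 324025, 0, 764382⟩ (3 / 10) (3 / 25) (1 / 5) :=
  ⟨by decide +kernel, by norm_num, by norm_num [R], cu_1_5, Or.inr cl_3_25⟩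

private theorem b2_6 : Rgn ⟨110071, 292546, 0, 0, 764382⟩
    ⟨564617, 0, 324025, 0, 764382⟩ :=
  rgn_of b2_6_0 b2_6_1 (Or.inr b2_6_2) (Or.inr b2_6_3)

private theorem b2_7_0 : FaceH ⟨132918, 292546, 0, 0, 764382⟩
    ⟨504869, 0, 324025, 0, 764382⟩ :=
  faceH_of (n := 60) (x1 := 923105) (y1 := 620347) (r0 := 280010) (r1 := 2843701)
    (by decide +kernel) (by decide +kernel)

private theorem b2_7_1 : FaceH ⟨504869, 0, 324025, 0, 764382⟩
    ⟨132918, 292546, 0, 0, 764382⟩ :=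
  faceH_of (n := 60) (x1 := 620347) (y1 := 923105) (r0 := 386648) (r1 := 3926674)
    (by decide +kernel) (by decide +kernel)

private theorem b2_7_2 : FaceV ⟨132918, 292546, 0, 0, 764382⟩
    ⟨504869, 0, 324025, 0, 764382⟩ :=
  faceV_of (n := 60) (x1 := 923105) (y1 := 620347) (r0 := 280010) (r1 := 2843701)
    (by decide +kernel) (by decide +kernel) (by decide +kernel)

private theorem b2_7_3 : FaceV ⟨504869, 0, 324025, 0, 764382⟩
    ⟨132918, 292546, 0, 0, 764382⟩ :=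
  faceV_of (n := 60) (x1 := 620347) (y1 := 923105) (r0 := 386648) (r1 := 3926674)
    (by decide +kernel) (by decide +kernel) (by decide +kernel)

private theorem b2_u7 : VD ⟨132918, 292546, 0, 0, 764382⟩ (31 / 40) (3 / 25) (59 / 200) :=
  ⟨by decide +kernel, by norm_num, by norm_num [R], cu_59_200, Or.inr cl_3_25⟩

private theorem b2_v7 : VD ⟨504869, 0, 324025, 0, 764382⟩ (7 / 20) (3 / 25) (1 / 5) :=
  ⟨by decide +kernel, by norm_num, by norm_num [R], cu_1_5, Or.inr cl_3_25⟩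

private theorem b2_7 : Rgn ⟨132918, 292546, 0, 0, 764382⟩
    ⟨504869, 0, 324025, 0, 764382⟩ :=
  rgn_of b2_7_0 b2_7_1 (Or.inr b2_7_2) (Or.inr b2_7_3)

private theorem b2_8_0 : FaceH ⟨153230, 292546, 0, 0, 764382⟩
    ⟨449389, 0, 324025, 0, 764382⟩ :=
  faceH_of (n := 60) (x1 := 905062) (y1 := 663179) (r0 := 270010) (r1 := 2795639)
    (by decide +kernel) (by decide +kernel)

private theorem b2_8_1 : FaceH ⟨449389, 0, 324025, 0, 764382⟩
    ⟨153230, 292546, 0, 0, 764382⟩ :=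
  faceH_of (n := 60) (x1 := 663179) (y1 := 905062) (r0 := 393295) (r1 := 4072106)
    (by decide +kernel) (by decide +kernel)

private theorem b2_8_2 : FaceV ⟨153230, 292546, 0, 0, 764382⟩
    ⟨449389, 0, 324025, 0, 764382⟩ :=
  faceV_of (n := 60) (x1 := 905062) (y1 := 663179) (r0 := 270010) (r1 := 2795639)
    (by decide +kernel) (by decide +kernel) (by decide +kernel)

private theorem b2_8_3 : FaceV ⟨449389, 0, 324025, 0, 764382⟩
    ⟨153230, 292546, 0, 0, 764382⟩ :=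
  faceV_of (n := 60) (x1 := 663179) (y1 := 905062) (r0 := 393295) (r1 := 4072106)
    (by decide +kernel) (by decide +kernel) (by decide +kernel)

private theorem b2_u8 : VD ⟨153230, 292546, 0, 0, 764382⟩ (149 / 200) (3 / 25) (59 / 200) :=
  ⟨by decide +kernel, by norm_num, by norm_num [R], cu_59_200, Or.inr cl_3_25⟩

private theorem b2_v8 : VD ⟨449389, 0, 324025, 0, 764382⟩ (2 / 5) (3 / 25) (1 / 5) :=
  ⟨by decide +kernel, by norm_num, by norm_num [R], cu_1_5, Or.inr cl_3_25⟩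

private theorem b2_8 : Rgn ⟨153230, 292546, 0, 0, 764382⟩
    ⟨449389, 0, 324025, 0, 764382⟩ :=
  rgn_of b2_8_0 b2_8_1 (Or.inr b2_8_2) (Or.inr b2_8_3)

private theorem b2_9_0 : FaceH ⟨174253, 292546, 0, 0, 764382⟩
    ⟨397735, 0, 324025, 0, 764382⟩ :=
  faceH_of (n := 60) (x1 := 886652) (y1 := 703407) (r0 := 260699) (r1 := 2747576)
    (by decide +kernel) (by decide +kernel)

private theorem b2_9_1 : FaceH ⟨397735, 0, 324025, 0, 764382⟩
    ⟨174253, 292546, 0, 0, 764382⟩ :=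
  faceH_of (n := 60) (x1 := 703407) (y1 := 886652) (r0 := 400175) (r1 := 4217539)
    (by decide +kernel) (by decide +kernel)

private theorem b2_9_2 : FaceV ⟨174253, 292546, 0, 0, 764382⟩
    ⟨397735, 0, 324025, 0, 764382⟩ :=
  faceV_of (n := 60) (x1 := 886652) (y1 := 703407) (r0 := 260699) (r1 := 2747576)
    (by decide +kernel) (by decide +kernel) (by decide +kernel)

private theorem b2_9_3 : FaceV ⟨397735, 0, 324025, 0, 764382⟩
    ⟨174253, 292546, 0, 0, 764382⟩ :=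
  faceV_of (n := 60) (x1 := 703407) (y1 := 886652) (r0 := 400175) (r1 := 4217539)
    (by decide +kernel) (by decide +kernel) (by decide +kernel)

private theorem b2_u9 : VD ⟨174253, 292546, 0, 0, 764382⟩ (143 / 200) (3 / 25) (59 / 200) :=
  ⟨by decide +kernel, by norm_num, by norm_num [R], cu_59_200, Or.inr cl_3_25⟩

private theorem b2_v9 : VD ⟨397735, 0, 324025, 0, 764382⟩ (9 / 20) (3 / 25) (1 / 5) :=
  ⟨by decide +kernel, by norm_num, by norm_num [R], cu_1_5, Or.inr cl_3_25⟩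

private theorem b2_9 : Rgn ⟨174253, 292546, 0, 0, 764382⟩
    ⟨397735, 0, 324025, 0, 764382⟩ :=
  rgn_of b2_9_0 b2_9_1 (Or.inr b2_9_2) (Or.inr b2_9_3)

private theorem b2_10_0 : FaceH ⟨192342, 292546, 0, 0, 764382⟩
    ⟨349525, 0, 324025, 0, 764382⟩ :=
  faceH_of (n := 60) (x1 := 871013) (y1 := 741456) (r0 := 252009) (r1 := 2707525)
    (by decide +kernel) (by decide +kernel)

private theorem b2_10_1 : FaceH ⟨349525, 0, 324025, 0, 764382⟩
    ⟨192342, 292546, 0, 0, 764382⟩ :=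
  faceH_of (n := 60) (x1 := 741456) (y1 := 871013) (r0 := 406094) (r1 := 4362970)
    (by decide +kernel) (by decide +kernel)

private theorem b2_10_2 : FaceV ⟨192342, 292546, 0, 0, 764382⟩
    ⟨349525, 0, 324025, 0, 764382⟩ :=
  faceV_of (n := 60) (x1 := 871013) (y1 := 741456) (r0 := 252009) (r1 := 2707525)
    (by decide +kernel) (by decide +kernel) (by decide +kernel)

private theorem b2_10_3 : FaceV ⟨349525, 0, 324025, 0, 764382⟩
    ⟨192342, 292546, 0, 0, 764382⟩ :=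
  faceV_of (n := 60) (x1 := 741456) (y1 := 871013) (r0 := 406094) (r1 := 4362970)
    (by decide +kernel) (by decide +kernel) (by decide +kernel)

private theorem b2_u10 : VD ⟨192342, 292546, 0, 0, 764382⟩ (69 / 100) (3 / 25) (59 / 200) :=
  ⟨by decide +kernel, by norm_num, by norm_num [R], cu_59_200, Or.inr cl_3_25⟩

private theorem b2_v10 : VD ⟨349525, 0, 324025, 0, 764382⟩ (1 / 2) (3 / 25) (1 / 5) :=
  ⟨by decide +kernel, by norm_num, by norm_num [R], cu_1_5, Or.inr cl_3_25⟩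

private theorem b2_10 : Rgn ⟨192342, 292546, 0, 0, 764382⟩
    ⟨349525, 0, 324025, 0, 764382⟩ :=
  rgn_of b2_10_0 b2_10_1 (Or.inr b2_10_2) (Or.inr b2_10_3)

private theorem b2_11_0 : FaceH ⟨207203, 292546, 0, 0, 764382⟩
    ⟨304425, 0, 324025, 0, 764382⟩ :=
  faceH_of (n := 60) (x1 := 858297) (y1 := 777646) (r0 := 243880) (r1 := 2675484)
    (by decide +kernel) (by decide +kernel)

private theorem b2_11_1 : FaceH ⟨304425, 0, 324025, 0, 764382⟩
    ⟨207203, 292546, 0, 0, 764382⟩ :=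
  faceH_of (n := 60) (x1 := 777646) (y1 := 858297) (r0 := 410958) (r1 := 4508402)
    (by decide +kernel) (by decide +kernel)

private theorem b2_11_2 : FaceV ⟨207203, 292546, 0, 0, 764382⟩
    ⟨304425, 0, 324025, 0, 764382⟩ :=
  faceV_of (n := 60) (x1 := 858297) (y1 := 777646) (r0 := 243880) (r1 := 2675484)
    (by decide +kernel) (by decide +kernel) (by decide +kernel)

private theorem b2_11_3 : FaceV ⟨304425, 0, 324025, 0, 764382⟩
    ⟨207203, 292546, 0, 0, 764382⟩ :=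
  faceV_of (n := 60) (x1 := 777646) (y1 := 858297) (r0 := 410958) (r1 := 4508402)
    (by decide +kernel) (by decide +kernel) (by decide +kernel)

private theorem b2_u11 : VD ⟨207203, 292546, 0, 0, 764382⟩ (67 / 100) (3 / 25) (59 / 200) :=
  ⟨by decide +kernel, by norm_num, by norm_num [R], cu_59_200, Or.inr cl_3_25⟩

private theorem b2_v11 : VD ⟨304425, 0, 324025, 0, 764382⟩ (11 / 20) (3 / 25) (1 / 5) :=
  ⟨by decide +kernel, by norm_num, by norm_num [R], cu_1_5, Or.inr cl_3_25⟩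

private theorem b2_11 : Rgn ⟨207203, 292546, 0, 0, 764382⟩
    ⟨304425, 0, 324025, 0, 764382⟩ :=
  rgn_of b2_11_0 b2_11_1 (Or.inr b2_11_2) (Or.inr b2_11_3)

private theorem b2_12_0 : FaceH ⟨222425, 292546, 0, 0, 764382⟩
    ⟨262144, 0, 324025, 0, 764382⟩ :=
  faceH_of (n := 60) (x1 := 845390) (y1 := 812224) (r0 := 236259) (r1 := 2643441)
    (by decide +kernel) (by decide +kernel)

private theorem b2_12_1 : FaceH ⟨262144, 0, 324025, 0, 764382⟩
    ⟨222425, 292546, 0, 0, 764382⟩ :=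
  faceH_of (n := 60) (x1 := 812224) (y1 := 845390) (r0 := 415939) (r1 := 4653833)
    (by decide +kernel) (by decide +kernel)

private theorem b2_12_2 : FaceV ⟨222425, 292546, 0, 0, 764382⟩
    ⟨262144, 0, 324025, 0, 764382⟩ :=
  faceV_of (n := 60) (x1 := 845390) (y1 := 812224) (r0 := 236259) (r1 := 2643441)
    (by decide +kernel) (by decide +kernel) (by decide +kernel)

private theorem b2_12_3 : FaceV ⟨262144, 0, 324025, 0, 764382⟩
    ⟨222425, 292546, 0, 0, 764382⟩ :=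
  faceV_of (n := 60) (x1 := 812224) (y1 := 845390) (r0 := 415939) (r1 := 4653833)
    (by decide +kernel) (by decide +kernel) (by decide +kernel)

private theorem b2_u12 : VD ⟨222425, 292546, 0, 0, 764382⟩ (13 / 20) (3 / 25) (59 / 200) :=
  ⟨by decide +kernel, by norm_num, by norm_num [R], cu_59_200, Or.inr cl_3_25⟩

private theorem b2_v12 : VD ⟨262144, 0, 324025, 0, 764382⟩ (3 / 5) (3 / 25) (1 / 5) :=
  ⟨by decide +kernel, by norm_num, by norm_num [R], cu_1_5, Or.inr cl_3_25⟩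

private theorem b2_12 : Rgn ⟨222425, 292546, 0, 0, 764382⟩
    ⟨262144, 0, 324025, 0, 764382⟩ :=
  rgn_of b2_12_0 b2_12_1 (Or.inr b2_12_2) (Or.inr b2_12_3)

private theorem b2_13_0 : FaceH ⟨234085, 292546, 0, 0, 764382⟩
    ⟨234085, 0, 324025, 0, 764382⟩ :=
  faceH_of (n := 60) (x1 := 835579) (y1 := 835579) (r0 := 231201) (r1 := 2619411)
    (by decide +kernel) (by decide +kernel)

private theorem b2_13_1 : FaceH ⟨234085, 0, 324025, 0, 764382⟩
    ⟨234085, 292546, 0, 0, 764382⟩ :=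
  faceH_of (n := 60) (x1 := 835579) (y1 := 835579) (r0 := 419755) (r1 := 4755639)
    (by decide +kernel) (by decide +kernel)

private theorem b2_13_2 : FaceV ⟨234085, 292546, 0, 0, 764382⟩
    ⟨234085, 0, 324025, 0, 764382⟩ :=
  faceV_of (n := 60) (x1 := 835579) (y1 := 835579) (r0 := 231201) (r1 := 2619411)
    (by decide +kernel) (by decide +kernel) (by decide +kernel)

private theorem b2_13_3 : FaceV ⟨234085, 0, 324025, 0, 764382⟩
    ⟨234085, 292546, 0, 0, 764382⟩ :=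
  faceV_of (n := 60) (x1 := 835579) (y1 := 835579) (r0 := 419755) (r1 := 4755639)
    (by decide +kernel) (by decide +kernel) (by decide +kernel)

private theorem b2_u13 : VD ⟨234085, 292546, 0, 0, 764382⟩ (127 / 200) (3 / 25) (59 / 200) :=
  ⟨by decide +kernel, by norm_num, by norm_num [R], cu_59_200, Or.inr cl_3_25⟩

private theorem b2_v13 : VD ⟨234085, 0, 324025, 0, 764382⟩ (127 / 200) (3 / 25) (1 / 5) :=
  ⟨by decide +kernel, by norm_num, by norm_num [R], cu_1_5, Or.inr cl_3_25⟩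

private theorem b2_13 : Rgn ⟨234085, 292546, 0, 0, 764382⟩
    ⟨234085, 0, 324025, 0, 764382⟩ :=
  rgn_of b2_13_0 b2_13_1 (Or.inr b2_13_2) (Or.inr b2_13_3)

private theorem b2_14_0 : FaceH ⟨564617, 292546, 0, 0, 764382⟩
    ⟨110071, 0, 324025, 0, 764382⟩ :=
  faceH_of (n := 60) (x1 := 574330) (y1 := 943719) (r0 := 208847) (r1 := 2082712)
    (by decide +kernel) (by decide +kernel)

private theorem b2_14_1 : FaceH ⟨110071, 0, 324025, 0, 764382⟩
    ⟨564617, 292546, 0, 0, 764382⟩ :=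
  faceH_of (n := 60) (x1 := 943719) (y1 := 574330) (r0 := 527923) (r1 := 5264651)
    (by decide +kernel) (by decide +kernel)

private theorem b2_14_2 : FaceV ⟨564617, 292546, 0, 0, 764382⟩
    ⟨110071, 0, 324025, 0, 764382⟩ :=
  faceV_of (n := 60) (x1 := 574330) (y1 := 943719) (r0 := 208847) (r1 := 2082712)
    (by decide +kernel) (by decide +kernel) (by decide +kernel)

private theorem b2_14_3 : FaceV ⟨110071, 0, 324025, 0, 764382⟩
    ⟨564617, 292546, 0, 0, 764382⟩ :=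
  faceV_of (n := 60) (x1 := 943719) (y1 := 574330) (r0 := 527923) (r1 := 5264651)
    (by decide +kernel) (by decide +kernel) (by decide +kernel)

private theorem b2_u14 : VD ⟨564617, 292546, 0, 0, 764382⟩ (3 / 10) (3 / 25) (59 / 200) :=
  ⟨by decide +kernel, by norm_num, by norm_num [R], cu_59_200, Or.inr cl_3_25⟩

private theorem b2_v14 : VD ⟨110071, 0, 324025, 0, 764382⟩ (81 / 100) (3 / 25) (1 / 5) :=
  ⟨by decide +kernel, by norm_num, by norm_num [R], cu_1_5, Or.inr cl_3_25⟩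

private theorem b2_14 : Rgn ⟨564617, 292546, 0, 0, 764382⟩
    ⟨110071, 0, 324025, 0, 764382⟩ :=
  rgn_of b2_14_0 b2_14_1 (Or.inr b2_14_2) (Or.inr b2_14_3)

private theorem b2_15_0 : FaceH ⟨504869, 292546, 0, 0, 764382⟩
    ⟨132918, 0, 324025, 0, 764382⟩ :=
  faceH_of (n := 60) (x1 := 620347) (y1 := 923105) (r0 := 212966) (r1 := 2162816)
    (by decide +kernel) (by decide +kernel)

private theorem b2_15_1 : FaceH ⟨132918, 0, 324025, 0, 764382⟩
    ⟨504869, 292546, 0, 0, 764382⟩ :=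
  faceH_of (n := 60) (x1 := 923105) (y1 := 620347) (r0 := 508370) (r1 := 5162847)
    (by decide +kernel) (by decide +kernel)

private theorem b2_15_2 : FaceV ⟨504869, 292546, 0, 0, 764382⟩
    ⟨132918, 0, 324025, 0, 764382⟩ :=
  faceV_of (n := 60) (x1 := 620347) (y1 := 923105) (r0 := 212966) (r1 := 2162816)
    (by decide +kernel) (by decide +kernel) (by decide +kernel)

private theorem b2_15_3 : FaceV ⟨132918, 0, 324025, 0, 764382⟩
    ⟨504869, 292546, 0, 0, 764382⟩ :=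
  faceV_of (n := 60) (x1 := 923105) (y1 := 620347) (r0 := 508370) (r1 := 5162847)
    (by decide +kernel) (by decide +kernel) (by decide +kernel)

private theorem b2_u15 : VD ⟨504869, 292546, 0, 0, 764382⟩ (7 / 20) (3 / 25) (59 / 200) :=
  ⟨by decide +kernel, by norm_num, by norm_num [R], cu_59_200, Or.inr cl_3_25⟩

private theorem b2_v15 : VD ⟨132918, 0, 324025, 0, 764382⟩ (31 / 40) (3 / 25) (1 / 5) :=
  ⟨by decide +kernel, by norm_num, by norm_num [R], cu_1_5, Or.inr cl_3_25⟩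

private theorem b2_15 : Rgn ⟨504869, 292546, 0, 0, 764382⟩
    ⟨132918, 0, 324025, 0, 764382⟩ :=
  rgn_of b2_15_0 b2_15_1 (Or.inr b2_15_2) (Or.inr b2_15_3)

private theorem b2_16_0 : FaceH ⟨449389, 292546, 0, 0, 764382⟩
    ⟨153230, 0, 324025, 0, 764382⟩ :=
  faceH_of (n := 60) (x1 := 663179) (y1 := 905062) (r0 := 216627) (r1 := 2242920)
    (by decide +kernel) (by decide +kernel)

private theorem b2_16_1 : FaceH ⟨153230, 0, 324025, 0, 764382⟩
    ⟨449389, 292546, 0, 0, 764382⟩ :=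
  faceH_of (n := 60) (x1 := 905062) (y1 := 663179) (r0 := 490214) (r1 := 5075588)
    (by decide +kernel) (by decide +kernel)

private theorem b2_16_2 : FaceV ⟨449389, 292546, 0, 0, 764382⟩
    ⟨153230, 0, 324025, 0, 764382⟩ :=
  faceV_of (n := 60) (x1 := 663179) (y1 := 905062) (r0 := 216627) (r1 := 2242920)
    (by decide +kernel) (by decide +kernel) (by decide +kernel)

private theorem b2_16_3 : FaceV ⟨153230, 0, 324025, 0, 764382⟩
    ⟨449389, 292546, 0, 0, 764382⟩ :=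
  faceV_of (n := 60) (x1 := 905062) (y1 := 663179) (r0 := 490214) (r1 := 5075588)
    (by decide +kernel) (by decide +kernel) (by decide +kernel)

private theorem b2_u16 : VD ⟨449389, 292546, 0, 0, 764382⟩ (2 / 5) (3 / 25) (59 / 200) :=
  ⟨by decide +kernel, by norm_num, by norm_num [R], cu_59_200, Or.inr cl_3_25⟩

private theorem b2_v16 : VD ⟨153230, 0, 324025, 0, 764382⟩ (149 / 200) (3 / 25) (1 / 5) :=
  ⟨by decide +kernel, by norm_num, by norm_num [R], cu_1_5, Or.inr cl_3_25⟩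

private theorem b2_16 : Rgn ⟨449389, 292546, 0, 0, 764382⟩
    ⟨153230, 0, 324025, 0, 764382⟩ :=
  rgn_of b2_16_0 b2_16_1 (Or.inr b2_16_2) (Or.inr b2_16_3)

private theorem b2_17_0 : FaceH ⟨397735, 292546, 0, 0, 764382⟩
    ⟨174253, 0, 324025, 0, 764382⟩ :=
  faceH_of (n := 60) (x1 := 703407) (y1 := 886652) (r0 := 220416) (r1 := 2323025)
    (by decide +kernel) (by decide +kernel)

private theorem b2_17_1 : FaceH ⟨174253, 0, 324025, 0, 764382⟩
    ⟨397735, 292546, 0, 0, 764382⟩ :=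
  faceH_of (n := 60) (x1 := 886652) (y1 := 703407) (r0 := 473310) (r1 := 4988328)
    (by decide +kernel) (by decide +kernel)

private theorem b2_17_2 : FaceV ⟨397735, 292546, 0, 0, 764382⟩
    ⟨174253, 0, 324025, 0, 764382⟩ :=
  faceV_of (n := 60) (x1 := 703407) (y1 := 886652) (r0 := 220416) (r1 := 2323025)
    (by decide +kernel) (by decide +kernel) (by decide +kernel)

private theorem b2_17_3 : FaceV ⟨174253, 0, 324025, 0, 764382⟩
    ⟨397735, 292546, 0, 0, 764382⟩ :=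
  faceV_of (n := 60) (x1 := 886652) (y1 := 703407) (r0 := 473310) (r1 := 4988328)
    (by decide +kernel) (by decide +kernel) (by decide +kernel)

private theorem b2_u17 : VD ⟨397735, 292546, 0, 0, 764382⟩ (9 / 20) (3 / 25) (59 / 200) :=
  ⟨by decide +kernel, by norm_num, by norm_num [R], cu_59_200, Or.inr cl_3_25⟩

private theorem b2_v17 : VD ⟨174253, 0, 324025, 0, 764382⟩ (143 / 200) (3 / 25) (1 / 5) :=
  ⟨by decide +kernel, by norm_num, by norm_num [R], cu_1_5, Or.inr cl_3_25⟩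

private theorem b2_17 : Rgn ⟨397735, 292546, 0, 0, 764382⟩
    ⟨174253, 0, 324025, 0, 764382⟩ :=
  rgn_of b2_17_0 b2_17_1 (Or.inr b2_17_2) (Or.inr b2_17_3)

private theorem b2_18_0 : FaceH ⟨349525, 292546, 0, 0, 764382⟩
    ⟨192342, 0, 324025, 0, 764382⟩ :=
  faceH_of (n := 60) (x1 := 741456) (y1 := 871013) (r0 := 223677) (r1 := 2403128)
    (by decide +kernel) (by decide +kernel)

private theorem b2_18_1 : FaceH ⟨192342, 0, 324025, 0, 764382⟩
    ⟨349525, 292546, 0, 0, 764382⟩ :=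
  faceH_of (n := 60) (x1 := 871013) (y1 := 741456) (r0 := 457533) (r1 := 4915613)
    (by decide +kernel) (by decide +kernel)

private theorem b2_18_2 : FaceV ⟨349525, 292546, 0, 0, 764382⟩
    ⟨192342, 0, 324025, 0, 764382⟩ :=
  faceV_of (n := 60) (x1 := 741456) (y1 := 871013) (r0 := 223677) (r1 := 2403128)
    (by decide +kernel) (by decide +kernel) (by decide +kernel)

private theorem b2_18_3 : FaceV ⟨192342, 0, 324025, 0, 764382⟩
    ⟨349525, 292546, 0, 0, 764382⟩ :=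
  faceV_of (n := 60) (x1 := 871013) (y1 := 741456) (r0 := 457533) (r1 := 4915613)
    (by decide +kernel) (by decide +kernel) (by decide +kernel)

private theorem b2_u18 : VD ⟨349525, 292546, 0, 0, 764382⟩ (1 / 2) (3 / 25) (59 / 200) :=
  ⟨by decide +kernel, by norm_num, by norm_num [R], cu_59_200, Or.inr cl_3_25⟩

private theorem b2_v18 : VD ⟨192342, 0, 324025, 0, 764382⟩ (69 / 100) (3 / 25) (1 / 5) :=
  ⟨by decide +kernel, by norm_num, by norm_num [R], cu_1_5, Or.inr cl_3_25⟩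

private theorem b2_18 : Rgn ⟨349525, 292546, 0, 0, 764382⟩
    ⟨192342, 0, 324025, 0, 764382⟩ :=
  rgn_of b2_18_0 b2_18_1 (Or.inr b2_18_2) (Or.inr b2_18_3)

private theorem b2_19_0 : FaceH ⟨304425, 292546, 0, 0, 764382⟩
    ⟨207203, 0, 324025, 0, 764382⟩ :=
  faceH_of (n := 60) (x1 := 777646) (y1 := 858297) (r0 := 226356) (r1 := 2483233)
    (by decide +kernel) (by decide +kernel)

private theorem b2_19_1 : FaceH ⟨207203, 0, 324025, 0, 764382⟩
    ⟨304425, 292546, 0, 0, 764382⟩ :=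
  faceH_of (n := 60) (x1 := 858297) (y1 := 777646) (r0 := 442774) (r1 := 4857441)
    (by decide +kernel) (by decide +kernel)

private theorem b2_19_2 : FaceV ⟨304425, 292546, 0, 0, 764382⟩
    ⟨207203, 0, 324025, 0, 764382⟩ :=
  faceV_of (n := 60) (x1 := 777646) (y1 := 858297) (r0 := 226356) (r1 := 2483233)
    (by decide +kernel) (by decide +kernel) (by decide +kernel)

private theorem b2_19_3 : FaceV ⟨207203, 0, 324025, 0, 764382⟩
    ⟨304425, 292546, 0, 0, 764382⟩ :=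
  faceV_of (n := 60) (x1 := 858297) (y1 := 777646) (r0 := 442774) (r1 := 4857441)
    (by decide +kernel) (by decide +kernel) (by decide +kernel)

private theorem b2_u19 : VD ⟨304425, 292546, 0, 0, 764382⟩ (11 / 20) (3 / 25) (59 / 200) :=
  ⟨by decide +kernel, by norm_num, by norm_num [R], cu_59_200, Or.inr cl_3_25⟩

private theorem b2_v19 : VD ⟨207203, 0, 324025, 0, 764382⟩ (67 / 100) (3 / 25) (1 / 5) :=
  ⟨by decide +kernel, by norm_num, by norm_num [R], cu_1_5, Or.inr cl_3_25⟩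

private theorem b2_19 : Rgn ⟨304425, 292546, 0, 0, 764382⟩
    ⟨207203, 0, 324025, 0, 764382⟩ :=
  rgn_of b2_19_0 b2_19_1 (Or.inr b2_19_2) (Or.inr b2_19_3)

private theorem b2_20_0 : FaceH ⟨262144, 292546, 0, 0, 764382⟩
    ⟨222425, 0, 324025, 0, 764382⟩ :=
  faceH_of (n := 60) (x1 := 812224) (y1 := 845390) (r0 := 229099) (r1 := 2563336)
    (by decide +kernel) (by decide +kernel)

private theorem b2_20_1 : FaceH ⟨222425, 0, 324025, 0, 764382⟩
    ⟨262144, 292546, 0, 0, 764382⟩ :=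
  faceH_of (n := 60) (x1 := 845390) (y1 := 812224) (r0 := 428937) (r1 := 4799266)
    (by decide +kernel) (by decide +kernel)

private theorem b2_20_2 : FaceV ⟨262144, 292546, 0, 0, 764382⟩
    ⟨222425, 0, 324025, 0, 764382⟩ :=
  faceV_of (n := 60) (x1 := 812224) (y1 := 845390) (r0 := 229099) (r1 := 2563336)
    (by decide +kernel) (by decide +kernel) (by decide +kernel)

private theorem b2_20_3 : FaceV ⟨222425, 0, 324025, 0, 764382⟩
    ⟨262144, 292546, 0, 0, 764382⟩ :=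
  faceV_of (n := 60) (x1 := 845390) (y1 := 812224) (r0 := 428937) (r1 := 4799266)
    (by decide +kernel) (by decide +kernel) (by decide +kernel)

private theorem b2_u20 : VD ⟨262144, 292546, 0, 0, 764382⟩ (3 / 5) (3 / 25) (59 / 200) :=
  ⟨by decide +kernel, by norm_num, by norm_num [R], cu_59_200, Or.inr cl_3_25⟩

private theorem b2_v20 : VD ⟨222425, 0, 324025, 0, 764382⟩ (13 / 20) (3 / 25) (1 / 5) :=
  ⟨by decide +kernel, by norm_num, by norm_num [R], cu_1_5, Or.inr cl_3_25⟩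

private theorem b2_20 : Rgn ⟨262144, 292546, 0, 0, 764382⟩
    ⟨222425, 0, 324025, 0, 764382⟩ :=
  rgn_of b2_20_0 b2_20_1 (Or.inr b2_20_2) (Or.inr b2_20_3)

theorem flat_b2 {θ θ' : ℝ} {v w : ℂ} (h : T2.Pr θ θ' v w)
    (j : J3 (Real.tan θ ^ 2) (Real.tan θ' ^ 2)) (j' : J3 (Real.tan θ' ^ 2) (Real.tan θ ^ 2))
    (t1 : Real.tan θ ^ 2 < 1) (t2 : Real.tan θ' ^ 2 < 1)
    (h1 : 3 / 25 ≤ v.re) (h2 : v.re ≤ 59 / 200) (h3 : 3 / 25 ≤ w.re) (h4 : w.re ≤ 1 / 5) :
    FlatM (1 / cos (Real.pi * v) ^ 2) (1 / cos (Real.pi * (starRingEnd ℂ) w) ^ 2) := by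
  rcases j.c22 j' t1 t2 with (⟨a, b⟩ | ⟨a, b⟩ | ⟨a, b⟩ | ⟨a, b⟩ | ⟨a, b⟩ | ⟨a, b⟩ | ⟨a, b⟩ | ⟨a, b⟩ | ⟨a, b⟩ | ⟨a, b⟩) |
    (⟨a, b⟩ | ⟨a, b⟩ | ⟨a, b⟩ | ⟨a, b⟩ | ⟨a, b⟩ | ⟨a, b⟩ | ⟨a, b⟩ | ⟨a, b⟩ | ⟨a, b⟩ | ⟨a, b⟩) | ⟨a, b⟩
  · exact b2_0.flatM b2_u0 b2_v0 h a b t1 t2 h1 h2 h3 h4
      (by norm_num) (by norm_num) (by norm_num) (by norm_num)
  · exact b2_1.flatM b2_u1 b2_v1 h a b t1 t2 h1 h2 h3 h4
      (by norm_num) (by norm_num) (by norm_num) (by norm_num)
  · exact b2_2.flatM b2_u2 b2_v2 h a b t1 t2 h1 h2 h3 h4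
      (by norm_num) (by norm_num) (by norm_num) (by norm_num)
  · exact b2_6.flatM b2_u6 b2_v6 h a b t1 t2 h1 h2 h3 h4
      (by norm_num) (by norm_num) (by norm_num) (by norm_num)
  · exact b2_7.flatM b2_u7 b2_v7 h a b t1 t2 h1 h2 h3 h4
      (by norm_num) (by norm_num) (by norm_num) (by norm_num)
  · exact b2_8.flatM b2_u8 b2_v8 h a b t1 t2 h1 h2 h3 h4
      (by norm_num) (by norm_num) (by norm_num) (by norm_num)
  · exact b2_9.flatM b2_u9 b2_v9 h a b t1 t2 h1 h2 h3 h4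
      (by norm_num) (by norm_num) (by norm_num) (by norm_num)
  · exact b2_10.flatM b2_u10 b2_v10 h a b t1 t2 h1 h2 h3 h4
      (by norm_num) (by norm_num) (by norm_num) (by norm_num)
  · exact b2_11.flatM b2_u11 b2_v11 h a b t1 t2 h1 h2 h3 h4
      (by norm_num) (by norm_num) (by norm_num) (by norm_num)
  · exact b2_12.flatM b2_u12 b2_v12 h a b t1 t2 h1 h2 h3 h4
      (by norm_num) (by norm_num) (by norm_num) (by norm_num)
  · exact b2_3.flatM b2_u3 b2_v3 h b a t1 t2 h1 h2 h3 h4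
      (by norm_num) (by norm_num) (by norm_num) (by norm_num)
  · exact b2_4.flatM b2_u4 b2_v4 h b a t1 t2 h1 h2 h3 h4
      (by norm_num) (by norm_num) (by norm_num) (by norm_num)
  · exact b2_5.flatM b2_u5 b2_v5 h b a t1 t2 h1 h2 h3 h4
      (by norm_num) (by norm_num) (by norm_num) (by norm_num)
  · exact b2_14.flatM b2_u14 b2_v14 h b a t1 t2 h1 h2 h3 h4
      (by norm_num) (by norm_num) (by norm_num) (by norm_num)
  · exact b2_15.flatM b2_u15 b2_v15 h b a t1 t2 h1 h2 h3 h4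
      (by norm_num) (by norm_num) (by norm_num) (by norm_num)
  · exact b2_16.flatM b2_u16 b2_v16 h b a t1 t2 h1 h2 h3 h4
      (by norm_num) (by norm_num) (by norm_num) (by norm_num)
  · exact b2_17.flatM b2_u17 b2_v17 h b a t1 t2 h1 h2 h3 h4
      (by norm_num) (by norm_num) (by norm_num) (by norm_num)
  · exact b2_18.flatM b2_u18 b2_v18 h b a t1 t2 h1 h2 h3 h4
      (by norm_num) (by norm_num) (by norm_num) (by norm_num)
  · exact b2_19.flatM b2_u19 b2_v19 h b a t1 t2 h1 h2 h3 h4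
      (by norm_num) (by norm_num) (by norm_num) (by norm_num)
  · exact b2_20.flatM b2_u20 b2_v20 h b a t1 t2 h1 h2 h3 h4
      (by norm_num) (by norm_num) (by norm_num) (by norm_num)
  · exact b2_13.flatM b2_u13 b2_v13 h a b t1 t2 h1 h2 h3 h4
      (by norm_num) (by norm_num) (by norm_num) (by norm_num)

end Pool.Agent.S3.Ck
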