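import Pool.Agent.S3.Ck.Cos
import Pool.Agent.S3.Ck.SoundG

/-!
# Flats: b3
-/

set_option autoImplicit false
set_option maxRecDepth 100000

namespace Pool.Agent.S3.Ck

open Complex

private theorem b3_0_0 : FaceH ⟨0, 386009, 0, 0, 324030⟩
    ⟨857925, 0, 65838, 0, 324030⟩ :=
  faceH_of (n := 60) (x1 := 1048576) (y1 := 331590) (r0 := 301166) (r1 := 3946511)
    (by decide +kernel) (by decide +kernel)

private theorem b3_0_1 : FaceH ⟨857925, 0, 65838, 0, 324030⟩
    ⟨0, 386009, 0, 0, 324030⟩ :=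
  faceH_of (n := 60) (x1 := 331590) (y1 := 1048576) (r0 := 278603) (r1 := 3650841)
    (by decide +kernel) (by decide +kernel)

private theorem b3_0_2 : FaceV ⟨0, 386009, 0, 0, 324030⟩
    ⟨857925, 0, 65838, 0, 324030⟩ :=
  faceV_of (n := 60) (x1 := 1048576) (y1 := 331590) (r0 := 301166) (r1 := 3946511)
    (by decide +kernel) (by decide +kernel) (by decide +kernel)

private theorem b3_0_3 : FaceV ⟨857925, 0, 65838, 0, 324030⟩
    ⟨0, 386009, 0, 0, 324030⟩ :=
  faceV_of (n := 60) (x1 := 331590) (y1 := 1048576) (r0 := 278603) (r1 := 3650841)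
    (by decide +kernel) (by decide +kernel) (by decide +kernel)

private theorem b3_u0 : VD ⟨0, 386009, 0, 0, 324030⟩ 1 (1 / 5) (31 / 100) :=
  ⟨by decide +kernel, by norm_num, by norm_num [R], cu_31_100, Or.inr cl_1_5⟩

private theorem b3_v0 : VD ⟨857925, 0, 65838, 0, 324030⟩ (1 / 10) (1 / 5) (6 / 25) :=
  ⟨by decide +kernel, by norm_num, by norm_num [R], cu_6_25, Or.inr cl_1_5⟩

private theorem b3_0 : Rgn ⟨0, 386009, 0, 0, 324030⟩
    ⟨857925, 0, 65838, 0, 324030⟩ :=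
  rgn_of b3_0_0 b3_0_1 (Or.inr b3_0_2) (Or.inr b3_0_3)

private theorem b3_1_0 : FaceH ⟨32430, 386009, 0, 0, 324030⟩
    ⟨699050, 0, 65838, 0, 324030⟩ :=
  faceH_of (n := 60) (x1 := 1016633) (y1 := 468938) (r0 := 276069) (r1 := 3828116)
    (by decide +kernel) (by decide +kernel)

private theorem b3_1_1 : FaceH ⟨699050, 0, 65838, 0, 324030⟩
    ⟨32430, 386009, 0, 0, 324030⟩ :=
  faceH_of (n := 60) (x1 := 468938) (y1 := 1016633) (r0 := 287220) (r1 := 3982736)
    (by decide +kernel) (by decide +kernel)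

private theorem b3_1_2 : FaceV ⟨32430, 386009, 0, 0, 324030⟩
    ⟨699050, 0, 65838, 0, 324030⟩ :=
  faceV_of (n := 60) (x1 := 1016633) (y1 := 468938) (r0 := 276069) (r1 := 3828116)
    (by decide +kernel) (by decide +kernel) (by decide +kernel)

private theorem b3_1_3 : FaceV ⟨699050, 0, 65838, 0, 324030⟩
    ⟨32430, 386009, 0, 0, 324030⟩ :=
  faceV_of (n := 60) (x1 := 468938) (y1 := 1016633) (r0 := 287220) (r1 := 3982736)
    (by decide +kernel) (by decide +kernel) (by decide +kernel)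

private theorem b3_u1 : VD ⟨32430, 386009, 0, 0, 324030⟩ (47 / 50) (1 / 5) (31 / 100) :=
  ⟨by decide +kernel, by norm_num, by norm_num [R], cu_31_100, Or.inr cl_1_5⟩

private theorem b3_v1 : VD ⟨699050, 0, 65838, 0, 324030⟩ (1 / 5) (1 / 5) (6 / 25) :=
  ⟨by decide +kernel, by norm_num, by norm_num [R], cu_6_25, Or.inr cl_1_5⟩

private theorem b3_1 : Rgn ⟨32430, 386009, 0, 0, 324030⟩
    ⟨699050, 0, 65838, 0, 324030⟩ :=
  rgn_of b3_1_0 b3_1_1 (Or.inr b3_1_2) (Or.inr b3_1_3)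

private theorem b3_2_0 : FaceH ⟨85019, 386009, 0, 0, 324030⟩
    ⟨629145, 0, 65838, 0, 324030⟩ :=
  faceH_of (n := 60) (x1 := 966740) (y1 := 524289) (r0 := 265026) (r1 := 3650525)
    (by decide +kernel) (by decide +kernel)

private theorem b3_2_1 : FaceH ⟨629145, 0, 65838, 0, 324030⟩
    ⟨85019, 386009, 0, 0, 324030⟩ :=
  faceH_of (n := 60) (x1 := 524289) (y1 := 966740) (r0 := 301192) (r1 := 4148683)
    (by decide +kernel) (by decide +kernel)

private theorem b3_2_2 : FaceV ⟨85019, 386009, 0, 0, 324030⟩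
    ⟨629145, 0, 65838, 0, 324030⟩ :=
  faceV_of (n := 60) (x1 := 966740) (y1 := 524289) (r0 := 265026) (r1 := 3650525)
    (by decide +kernel) (by decide +kernel) (by decide +kernel)

private theorem b3_2_3 : FaceV ⟨629145, 0, 65838, 0, 324030⟩
    ⟨85019, 386009, 0, 0, 324030⟩ :=
  faceV_of (n := 60) (x1 := 524289) (y1 := 966740) (r0 := 301192) (r1 := 4148683)
    (by decide +kernel) (by decide +kernel) (by decide +kernel)

private theorem b3_u2 : VD ⟨85019, 386009, 0, 0, 324030⟩ (17 / 20) (1 / 5) (31 / 100) :=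
  ⟨by decide +kernel, by norm_num, by norm_num [R], cu_31_100, Or.inr cl_1_5⟩

private theorem b3_v2 : VD ⟨629145, 0, 65838, 0, 324030⟩ (1 / 4) (1 / 5) (6 / 25) :=
  ⟨by decide +kernel, by norm_num, by norm_num [R], cu_6_25, Or.inr cl_1_5⟩

private theorem b3_2 : Rgn ⟨85019, 386009, 0, 0, 324030⟩
    ⟨629145, 0, 65838, 0, 324030⟩ :=
  rgn_of b3_2_0 b3_2_1 (Or.inr b3_2_2) (Or.inr b3_2_3)

private theorem b3_3_0 : FaceH ⟨857925, 386009, 0, 0, 324030⟩
    ⟨0, 0, 65838, 0, 324030⟩ :=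
  faceH_of (n := 60) (x1 := 331590) (y1 := 1048576) (r0 := 165641) (r1 := 2170582)
    (by decide +kernel) (by decide +kernel)

private theorem b3_3_1 : FaceH ⟨0, 0, 65838, 0, 324030⟩
    ⟨857925, 386009, 0, 0, 324030⟩ :=
  faceH_of (n := 60) (x1 := 1048576) (y1 := 331590) (r0 := 506551) (r1 := 6637890)
    (by decide +kernel) (by decide +kernel)

private theorem b3_3_2 : FaceV ⟨857925, 386009, 0, 0, 324030⟩
    ⟨0, 0, 65838, 0, 324030⟩ :=
  faceV_of (n := 60) (x1 := 331590) (y1 := 1048576) (r0 := 165641) (r1 := 2170582)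
    (by decide +kernel) (by decide +kernel) (by decide +kernel)

private theorem b3_3_3 : FaceV ⟨0, 0, 65838, 0, 324030⟩
    ⟨857925, 386009, 0, 0, 324030⟩ :=
  faceV_of (n := 60) (x1 := 1048576) (y1 := 331590) (r0 := 506551) (r1 := 6637890)
    (by decide +kernel) (by decide +kernel) (by decide +kernel)

private theorem b3_u3 : VD ⟨857925, 386009, 0, 0, 324030⟩ (1 / 10) (1 / 5) (31 / 100) :=
  ⟨by decide +kernel, by norm_num, by norm_num [R], cu_31_100, Or.inr cl_1_5⟩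

private theorem b3_v3 : VD ⟨0, 0, 65838, 0, 324030⟩ 1 (1 / 5) (6 / 25) :=
  ⟨by decide +kernel, by norm_num, by norm_num [R], cu_6_25, Or.inr cl_1_5⟩

private theorem b3_3 : Rgn ⟨857925, 386009, 0, 0, 324030⟩
    ⟨0, 0, 65838, 0, 324030⟩ :=
  rgn_of b3_3_0 b3_3_1 (Or.inr b3_3_2) (Or.inr b3_3_3)

private theorem b3_4_0 : FaceH ⟨699050, 386009, 0, 0, 324030⟩
    ⟨32430, 0, 65838, 0, 324030⟩ :=
  faceH_of (n := 60) (x1 := 468938) (y1 := 1016633) (r0 := 170764) (r1 := 2367908)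
    (by decide +kernel) (by decide +kernel)

private theorem b3_4_1 : FaceH ⟨32430, 0, 65838, 0, 324030⟩
    ⟨699050, 386009, 0, 0, 324030⟩ :=
  faceH_of (n := 60) (x1 := 1016633) (y1 := 468938) (r0 := 464338) (r1 := 6438754)
    (by decide +kernel) (by decide +kernel)

private theorem b3_4_2 : FaceV ⟨699050, 386009, 0, 0, 324030⟩
    ⟨32430, 0, 65838, 0, 324030⟩ :=
  faceV_of (n := 60) (x1 := 468938) (y1 := 1016633) (r0 := 170764) (r1 := 2367908)
    (by decide +kernel) (by decide +kernel) (by decide +kernel)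

private theorem b3_4_3 : FaceV ⟨32430, 0, 65838, 0, 324030⟩
    ⟨699050, 386009, 0, 0, 324030⟩ :=
  faceV_of (n := 60) (x1 := 1016633) (y1 := 468938) (r0 := 464338) (r1 := 6438754)
    (by decide +kernel) (by decide +kernel) (by decide +kernel)

private theorem b3_u4 : VD ⟨699050, 386009, 0, 0, 324030⟩ (1 / 5) (1 / 5) (31 / 100) :=
  ⟨by decide +kernel, by norm_num, by norm_num [R], cu_31_100, Or.inr cl_1_5⟩

private theorem b3_v4 : VD ⟨32430, 0, 65838, 0, 324030⟩ (47 / 50) (1 / 5) (6 / 25) :=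
  ⟨by decide +kernel, by norm_num, by norm_num [R], cu_6_25, Or.inr cl_1_5⟩

private theorem b3_4 : Rgn ⟨699050, 386009, 0, 0, 324030⟩
    ⟨32430, 0, 65838, 0, 324030⟩ :=
  rgn_of b3_4_0 b3_4_1 (Or.inr b3_4_2) (Or.inr b3_4_3)

private theorem b3_5_0 : FaceH ⟨629145, 386009, 0, 0, 324030⟩
    ⟨85019, 0, 65838, 0, 324030⟩ :=
  faceH_of (n := 60) (x1 := 524289) (y1 := 966740) (r0 := 179072) (r1 := 2466570)
    (by decide +kernel) (by decide +kernel)

private theorem b3_5_1 : FaceH ⟨85019, 0, 65838, 0, 324030⟩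
    ⟨629145, 386009, 0, 0, 324030⟩ :=
  faceH_of (n := 60) (x1 := 966740) (y1 := 524289) (r0 := 445765) (r1 := 6140052)
    (by decide +kernel) (by decide +kernel)

private theorem b3_5_2 : FaceV ⟨629145, 386009, 0, 0, 324030⟩
    ⟨85019, 0, 65838, 0, 324030⟩ :=
  faceV_of (n := 60) (x1 := 524289) (y1 := 966740) (r0 := 179072) (r1 := 2466570)
    (by decide +kernel) (by decide +kernel) (by decide +kernel)

private theorem b3_5_3 : FaceV ⟨85019, 0, 65838, 0, 324030⟩
    ⟨629145, 386009, 0, 0, 324030⟩ :=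
  faceV_of (n := 60) (x1 := 966740) (y1 := 524289) (r0 := 445765) (r1 := 6140052)
    (by decide +kernel) (by decide +kernel) (by decide +kernel)

private theorem b3_u5 : VD ⟨629145, 386009, 0, 0, 324030⟩ (1 / 4) (1 / 5) (31 / 100) :=
  ⟨by decide +kernel, by norm_num, by norm_num [R], cu_31_100, Or.inr cl_1_5⟩

private theorem b3_v5 : VD ⟨85019, 0, 65838, 0, 324030⟩ (17 / 20) (1 / 5) (6 / 25) :=
  ⟨by decide +kernel, by norm_num, by norm_num [R], cu_6_25, Or.inr cl_1_5⟩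

private theorem b3_5 : Rgn ⟨629145, 386009, 0, 0, 324030⟩
    ⟨85019, 0, 65838, 0, 324030⟩ :=
  rgn_of b3_5_0 b3_5_1 (Or.inr b3_5_2) (Or.inr b3_5_3)

private theorem b3_6_0 : FaceH ⟨110071, 386009, 0, 0, 324030⟩
    ⟨564617, 0, 65838, 0, 324030⟩ :=
  faceH_of (n := 60) (x1 := 943719) (y1 := 574330) (r0 := 254833) (r1 := 3571594)
    (by decide +kernel) (by decide +kernel)

private theorem b3_6_1 : FaceH ⟨564617, 0, 65838, 0, 324030⟩
    ⟨110071, 386009, 0, 0, 324030⟩ :=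
  faceH_of (n := 60) (x1 := 574330) (y1 := 943719) (r0 := 307849) (r1 := 4314631)
    (by decide +kernel) (by decide +kernel)

private theorem b3_6_2 : FaceV ⟨110071, 386009, 0, 0, 324030⟩
    ⟨564617, 0, 65838, 0, 324030⟩ :=
  faceV_of (n := 60) (x1 := 943719) (y1 := 574330) (r0 := 254833) (r1 := 3571594)
    (by decide +kernel) (by decide +kernel) (by decide +kernel)

private theorem b3_6_3 : FaceV ⟨564617, 0, 65838, 0, 324030⟩
    ⟨110071, 386009, 0, 0, 324030⟩ :=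
  faceV_of (n := 60) (x1 := 574330) (y1 := 943719) (r0 := 307849) (r1 := 4314631)
    (by decide +kernel) (by decide +kernel) (by decide +kernel)

private theorem b3_u6 : VD ⟨110071, 386009, 0, 0, 324030⟩ (81 / 100) (1 / 5) (31 / 100) :=
  ⟨by decide +kernel, by norm_num, by norm_num [R], cu_31_100, Or.inr cl_1_5⟩

private theorem b3_v6 : VD ⟨564617, 0, 65838, 0, 324030⟩ (3 / 10) (1 / 5) (6 / 25) :=
  ⟨by decide +kernel, by norm_num, by norm_num [R], cu_6_25, Or.inr cl_1_5⟩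

private theorem b3_6 : Rgn ⟨110071, 386009, 0, 0, 324030⟩
    ⟨564617, 0, 65838, 0, 324030⟩ :=
  rgn_of b3_6_0 b3_6_1 (Or.inr b3_6_2) (Or.inr b3_6_3)

private theorem b3_7_0 : FaceH ⟨132918, 386009, 0, 0, 324030⟩
    ⟨504869, 0, 65838, 0, 324030⟩ :=
  faceH_of (n := 60) (x1 := 923105) (y1 := 620347) (r0 := 245395) (r1 := 3502529)
    (by decide +kernel) (by decide +kernel)

private theorem b3_7_1 : FaceH ⟨504869, 0, 65838, 0, 324030⟩
    ⟨132918, 386009, 0, 0, 324030⟩ :=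
  faceH_of (n := 60) (x1 := 620347) (y1 := 923105) (r0 := 313919) (r1 := 4480579)
    (by decide +kernel) (by decide +kernel)

private theorem b3_7_2 : FaceV ⟨132918, 386009, 0, 0, 324030⟩
    ⟨504869, 0, 65838, 0, 324030⟩ :=
  faceV_of (n := 60) (x1 := 923105) (y1 := 620347) (r0 := 245395) (r1 := 3502529)
    (by decide +kernel) (by decide +kernel) (by decide +kernel)

private theorem b3_7_3 : FaceV ⟨504869, 0, 65838, 0, 324030⟩
    ⟨132918, 386009, 0, 0, 324030⟩ :=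
  faceV_of (n := 60) (x1 := 620347) (y1 := 923105) (r0 := 313919) (r1 := 4480579)
    (by decide +kernel) (by decide +kernel) (by decide +kernel)

private theorem b3_u7 : VD ⟨132918, 386009, 0, 0, 324030⟩ (31 / 40) (1 / 5) (31 / 100) :=
  ⟨by decide +kernel, by norm_num, by norm_num [R], cu_31_100, Or.inr cl_1_5⟩

private theorem b3_v7 : VD ⟨504869, 0, 65838, 0, 324030⟩ (7 / 20) (1 / 5) (6 / 25) :=
  ⟨by decide +kernel, by norm_num, by norm_num [R], cu_6_25, Or.inr cl_1_5⟩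

private theorem b3_7 : Rgn ⟨132918, 386009, 0, 0, 324030⟩
    ⟨504869, 0, 65838, 0, 324030⟩ :=
  rgn_of b3_7_0 b3_7_1 (Or.inr b3_7_2) (Or.inr b3_7_3)

private theorem b3_8_0 : FaceH ⟨153230, 386009, 0, 0, 324030⟩
    ⟨449389, 0, 65838, 0, 324030⟩ :=
  faceH_of (n := 60) (x1 := 905062) (y1 := 663179) (r0 := 236630) (r1 := 3443332)
    (by decide +kernel) (by decide +kernel)

private theorem b3_8_1 : FaceH ⟨449389, 0, 65838, 0, 324030⟩
    ⟨153230, 386009, 0, 0, 324030⟩ :=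
  faceH_of (n := 60) (x1 := 663179) (y1 := 905062) (r0 := 319316) (r1 := 4646525)
    (by decide +kernel) (by decide +kernel)

private theorem b3_8_2 : FaceV ⟨153230, 386009, 0, 0, 324030⟩
    ⟨449389, 0, 65838, 0, 324030⟩ :=
  faceV_of (n := 60) (x1 := 905062) (y1 := 663179) (r0 := 236630) (r1 := 3443332)
    (by decide +kernel) (by decide +kernel) (by decide +kernel)

private theorem b3_8_3 : FaceV ⟨449389, 0, 65838, 0, 324030⟩
    ⟨153230, 386009, 0, 0, 324030⟩ :=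
  faceV_of (n := 60) (x1 := 663179) (y1 := 905062) (r0 := 319316) (r1 := 4646525)
    (by decide +kernel) (by decide +kernel) (by decide +kernel)

private theorem b3_u8 : VD ⟨153230, 386009, 0, 0, 324030⟩ (149 / 200) (1 / 5) (31 / 100) :=
  ⟨by decide +kernel, by norm_num, by norm_num [R], cu_31_100, Or.inr cl_1_5⟩

private theorem b3_v8 : VD ⟨449389, 0, 65838, 0, 324030⟩ (2 / 5) (1 / 5) (6 / 25) :=
  ⟨by decide +kernel, by norm_num, by norm_num [R], cu_6_25, Or.inr cl_1_5⟩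

private theorem b3_8 : Rgn ⟨153230, 386009, 0, 0, 324030⟩
    ⟨449389, 0, 65838, 0, 324030⟩ :=
  rgn_of b3_8_0 b3_8_1 (Or.inr b3_8_2) (Or.inr b3_8_3)

private theorem b3_9_0 : FaceH ⟨174253, 386009, 0, 0, 324030⟩
    ⟨397735, 0, 65838, 0, 324030⟩ :=
  faceH_of (n := 60) (x1 := 886652) (y1 := 703407) (r0 := 228471) (r1 := 3384134)
    (by decide +kernel) (by decide +kernel)

private theorem b3_9_1 : FaceH ⟨397735, 0, 65838, 0, 324030⟩
    ⟨174253, 386009, 0, 0, 324030⟩ :=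
  faceH_of (n := 60) (x1 := 703407) (y1 := 886652) (r0 := 324901) (r1 := 4812473)
    (by decide +kernel) (by decide +kernel)

private theorem b3_9_2 : FaceV ⟨174253, 386009, 0, 0, 324030⟩
    ⟨397735, 0, 65838, 0, 324030⟩ :=
  faceV_of (n := 60) (x1 := 886652) (y1 := 703407) (r0 := 228471) (r1 := 3384134)
    (by decide +kernel) (by decide +kernel) (by decide +kernel)

private theorem b3_9_3 : FaceV ⟨397735, 0, 65838, 0, 324030⟩
    ⟨174253, 386009, 0, 0, 324030⟩ :=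
  faceV_of (n := 60) (x1 := 703407) (y1 := 886652) (r0 := 324901) (r1 := 4812473)
    (by decide +kernel) (by decide +kernel) (by decide +kernel)

private theorem b3_u9 : VD ⟨174253, 386009, 0, 0, 324030⟩ (143 / 200) (1 / 5) (31 / 100) :=
  ⟨by decide +kernel, by norm_num, by norm_num [R], cu_31_100, Or.inr cl_1_5⟩

private theorem b3_v9 : VD ⟨397735, 0, 65838, 0, 324030⟩ (9 / 20) (1 / 5) (6 / 25) :=
  ⟨by decide +kernel, by norm_num, by norm_num [R], cu_6_25, Or.inr cl_1_5⟩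

private theorem b3_9 : Rgn ⟨174253, 386009, 0, 0, 324030⟩
    ⟨397735, 0, 65838, 0, 324030⟩ :=
  rgn_of b3_9_0 b3_9_1 (Or.inr b3_9_2) (Or.inr b3_9_3)

private theorem b3_10_0 : FaceH ⟨192342, 386009, 0, 0, 324030⟩
    ⟨349525, 0, 65838, 0, 324030⟩ :=
  faceH_of (n := 60) (x1 := 871013) (y1 := 741456) (r0 := 220855) (r1 := 3334803)
    (by decide +kernel) (by decide +kernel)

private theorem b3_10_1 : FaceH ⟨349525, 0, 65838, 0, 324030⟩
    ⟨192342, 386009, 0, 0, 324030⟩ :=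
  faceH_of (n := 60) (x1 := 741456) (y1 := 871013) (r0 := 329708) (r1 := 4978419)
    (by decide +kernel) (by decide +kernel)

private theorem b3_10_2 : FaceV ⟨192342, 386009, 0, 0, 324030⟩
    ⟨349525, 0, 65838, 0, 324030⟩ :=
  faceV_of (n := 60) (x1 := 871013) (y1 := 741456) (r0 := 220855) (r1 := 3334803)
    (by decide +kernel) (by decide +kernel) (by decide +kernel)

private theorem b3_10_3 : FaceV ⟨349525, 0, 65838, 0, 324030⟩
    ⟨192342, 386009, 0, 0, 324030⟩ :=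
  faceV_of (n := 60) (x1 := 741456) (y1 := 871013) (r0 := 329708) (r1 := 4978419)
    (by decide +kernel) (by decide +kernel) (by decide +kernel)

private theorem b3_u10 : VD ⟨192342, 386009, 0, 0, 324030⟩ (69 / 100) (1 / 5) (31 / 100) :=
  ⟨by decide +kernel, by norm_num, by norm_num [R], cu_31_100, Or.inr cl_1_5⟩

private theorem b3_v10 : VD ⟨349525, 0, 65838, 0, 324030⟩ (1 / 2) (1 / 5) (6 / 25) :=
  ⟨by decide +kernel, by norm_num, by norm_num [R], cu_6_25, Or.inr cl_1_5⟩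

private theorem b3_10 : Rgn ⟨192342, 386009, 0, 0, 324030⟩
    ⟨349525, 0, 65838, 0, 324030⟩ :=
  rgn_of b3_10_0 b3_10_1 (Or.inr b3_10_2) (Or.inr b3_10_3)

private theorem b3_11_0 : FaceH ⟨207203, 386009, 0, 0, 324030⟩
    ⟨304425, 0, 65838, 0, 324030⟩ :=
  faceH_of (n := 60) (x1 := 858297) (y1 := 777646) (r0 := 213731) (r1 := 3295338)
    (by decide +kernel) (by decide +kernel)

private theorem b3_11_1 : FaceH ⟨304425, 0, 65838, 0, 324030⟩
    ⟨207203, 386009, 0, 0, 324030⟩ :=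
  faceH_of (n := 60) (x1 := 777646) (y1 := 858297) (r0 := 333656) (r1 := 5144366)
    (by decide +kernel) (by decide +kernel)

private theorem b3_11_2 : FaceV ⟨207203, 386009, 0, 0, 324030⟩
    ⟨304425, 0, 65838, 0, 324030⟩ :=
  faceV_of (n := 60) (x1 := 858297) (y1 := 777646) (r0 := 213731) (r1 := 3295338)
    (by decide +kernel) (by decide +kernel) (by decide +kernel)

private theorem b3_11_3 : FaceV ⟨304425, 0, 65838, 0, 324030⟩
    ⟨207203, 386009, 0, 0, 324030⟩ :=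
  faceV_of (n := 60) (x1 := 777646) (y1 := 858297) (r0 := 333656) (r1 := 5144366)
    (by decide +kernel) (by decide +kernel) (by decide +kernel)

private theorem b3_u11 : VD ⟨207203, 386009, 0, 0, 324030⟩ (67 / 100) (1 / 5) (31 / 100) :=
  ⟨by decide +kernel, by norm_num, by norm_num [R], cu_31_100, Or.inr cl_1_5⟩

private theorem b3_v11 : VD ⟨304425, 0, 65838, 0, 324030⟩ (11 / 20) (1 / 5) (6 / 25) :=
  ⟨by decide +kernel, by norm_num, by norm_num [R], cu_6_25, Or.inr cl_1_5⟩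

private theorem b3_11 : Rgn ⟨207203, 386009, 0, 0, 324030⟩
    ⟨304425, 0, 65838, 0, 324030⟩ :=
  rgn_of b3_11_0 b3_11_1 (Or.inr b3_11_2) (Or.inr b3_11_3)

private theorem b3_12_0 : FaceH ⟨222425, 386009, 0, 0, 324030⟩
    ⟨262144, 0, 65838, 0, 324030⟩ :=
  faceH_of (n := 60) (x1 := 845390) (y1 := 812224) (r0 := 207052) (r1 := 3255872)
    (by decide +kernel) (by decide +kernel)

private theorem b3_12_1 : FaceH ⟨262144, 0, 65838, 0, 324030⟩
    ⟨222425, 386009, 0, 0, 324030⟩ :=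
  faceH_of (n := 60) (x1 := 812224) (y1 := 845390) (r0 := 337701) (r1 := 5310312)
    (by decide +kernel) (by decide +kernel)

private theorem b3_12_2 : FaceV ⟨222425, 386009, 0, 0, 324030⟩
    ⟨262144, 0, 65838, 0, 324030⟩ :=
  faceV_of (n := 60) (x1 := 845390) (y1 := 812224) (r0 := 207052) (r1 := 3255872)
    (by decide +kernel) (by decide +kernel) (by decide +kernel)

private theorem b3_12_3 : FaceV ⟨262144, 0, 65838, 0, 324030⟩
    ⟨222425, 386009, 0, 0, 324030⟩ :=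
  faceV_of (n := 60) (x1 := 812224) (y1 := 845390) (r0 := 337701) (r1 := 5310312)
    (by decide +kernel) (by decide +kernel) (by decide +kernel)

private theorem b3_u12 : VD ⟨222425, 386009, 0, 0, 324030⟩ (13 / 20) (1 / 5) (31 / 100) :=
  ⟨by decide +kernel, by norm_num, by norm_num [R], cu_31_100, Or.inr cl_1_5⟩

private theorem b3_v12 : VD ⟨262144, 0, 65838, 0, 324030⟩ (3 / 5) (1 / 5) (6 / 25) :=
  ⟨by decide +kernel, by norm_num, by norm_num [R], cu_6_25, Or.inr cl_1_5⟩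

private theorem b3_12 : Rgn ⟨222425, 386009, 0, 0, 324030⟩
    ⟨262144, 0, 65838, 0, 324030⟩ :=
  rgn_of b3_12_0 b3_12_1 (Or.inr b3_12_2) (Or.inr b3_12_3)

private theorem b3_13_0 : FaceH ⟨234085, 386009, 0, 0, 324030⟩
    ⟨234085, 0, 65838, 0, 324030⟩ :=
  faceH_of (n := 60) (x1 := 835579) (y1 := 835579) (r0 := 202619) (r1 := 3226275)
    (by decide +kernel) (by decide +kernel)

private theorem b3_13_1 : FaceH ⟨234085, 0, 65838, 0, 324030⟩
    ⟨234085, 386009, 0, 0, 324030⟩ :=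
  faceH_of (n := 60) (x1 := 835579) (y1 := 835579) (r0 := 340799) (r1 := 5426478)
    (by decide +kernel) (by decide +kernel)

private theorem b3_13_2 : FaceV ⟨234085, 386009, 0, 0, 324030⟩
    ⟨234085, 0, 65838, 0, 324030⟩ :=
  faceV_of (n := 60) (x1 := 835579) (y1 := 835579) (r0 := 202619) (r1 := 3226275)
    (by decide +kernel) (by decide +kernel) (by decide +kernel)

private theorem b3_13_3 : FaceV ⟨234085, 0, 65838, 0, 324030⟩
    ⟨234085, 386009, 0, 0, 324030⟩ :=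
  faceV_of (n := 60) (x1 := 835579) (y1 := 835579) (r0 := 340799) (r1 := 5426478)
    (by decide +kernel) (by decide +kernel) (by decide +kernel)

private theorem b3_u13 : VD ⟨234085, 386009, 0, 0, 324030⟩ (127 / 200) (1 / 5) (31 / 100) :=
  ⟨by decide +kernel, by norm_num, by norm_num [R], cu_31_100, Or.inr cl_1_5⟩

private theorem b3_v13 : VD ⟨234085, 0, 65838, 0, 324030⟩ (127 / 200) (1 / 5) (6 / 25) :=
  ⟨by decide +kernel, by norm_num, by norm_num [R], cu_6_25, Or.inr cl_1_5⟩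

private theorem b3_13 : Rgn ⟨234085, 386009, 0, 0, 324030⟩
    ⟨234085, 0, 65838, 0, 324030⟩ :=
  rgn_of b3_13_0 b3_13_1 (Or.inr b3_13_2) (Or.inr b3_13_3)

private theorem b3_14_0 : FaceH ⟨564617, 386009, 0, 0, 324030⟩
    ⟨110071, 0, 65838, 0, 324030⟩ :=
  faceH_of (n := 60) (x1 := 574330) (y1 := 943719) (r0 := 183029) (r1 := 2565234)
    (by decide +kernel) (by decide +kernel)

private theorem b3_14_1 : FaceH ⟨110071, 0, 65838, 0, 324030⟩
    ⟨564617, 386009, 0, 0, 324030⟩ :=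
  faceH_of (n := 60) (x1 := 943719) (y1 := 574330) (r0 := 428620) (r1 := 6007293)
    (by decide +kernel) (by decide +kernel)

private theorem b3_14_2 : FaceV ⟨564617, 386009, 0, 0, 324030⟩
    ⟨110071, 0, 65838, 0, 324030⟩ :=
  faceV_of (n := 60) (x1 := 574330) (y1 := 943719) (r0 := 183029) (r1 := 2565234)
    (by decide +kernel) (by decide +kernel) (by decide +kernel)

private theorem b3_14_3 : FaceV ⟨110071, 0, 65838, 0, 324030⟩
    ⟨564617, 386009, 0, 0, 324030⟩ :=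
  faceV_of (n := 60) (x1 := 943719) (y1 := 574330) (r0 := 428620) (r1 := 6007293)
    (by decide +kernel) (by decide +kernel) (by decide +kernel)

private theorem b3_u14 : VD ⟨564617, 386009, 0, 0, 324030⟩ (3 / 10) (1 / 5) (31 / 100) :=
  ⟨by decide +kernel, by norm_num, by norm_num [R], cu_31_100, Or.inr cl_1_5⟩

private theorem b3_v14 : VD ⟨110071, 0, 65838, 0, 324030⟩ (81 / 100) (1 / 5) (6 / 25) :=
  ⟨by decide +kernel, by norm_num, by norm_num [R], cu_6_25, Or.inr cl_1_5⟩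

private theorem b3_14 : Rgn ⟨564617, 386009, 0, 0, 324030⟩
    ⟨110071, 0, 65838, 0, 324030⟩ :=
  rgn_of b3_14_0 b3_14_1 (Or.inr b3_14_2) (Or.inr b3_14_3)

private theorem b3_15_0 : FaceH ⟨504869, 386009, 0, 0, 324030⟩
    ⟨132918, 0, 65838, 0, 324030⟩ :=
  faceH_of (n := 60) (x1 := 620347) (y1 := 923105) (r0 := 186638) (r1 := 2663897)
    (by decide +kernel) (by decide +kernel)

private theorem b3_15_1 : FaceH ⟨132918, 0, 65838, 0, 324030⟩
    ⟨504869, 386009, 0, 0, 324030⟩ :=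
  faceH_of (n := 60) (x1 := 923105) (y1 := 620347) (r0 := 412745) (r1 := 5891128)
    (by decide +kernel) (by decide +kernel)

private theorem b3_15_2 : FaceV ⟨504869, 386009, 0, 0, 324030⟩
    ⟨132918, 0, 65838, 0, 324030⟩ :=
  faceV_of (n := 60) (x1 := 620347) (y1 := 923105) (r0 := 186638) (r1 := 2663897)
    (by decide +kernel) (by decide +kernel) (by decide +kernel)

private theorem b3_15_3 : FaceV ⟨132918, 0, 65838, 0, 324030⟩
    ⟨504869, 386009, 0, 0, 324030⟩ :=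
  faceV_of (n := 60) (x1 := 923105) (y1 := 620347) (r0 := 412745) (r1 := 5891128)
    (by decide +kernel) (by decide +kernel) (by decide +kernel)

private theorem b3_u15 : VD ⟨504869, 386009, 0, 0, 324030⟩ (7 / 20) (1 / 5) (31 / 100) :=
  ⟨by decide +kernel, by norm_num, by norm_num [R], cu_31_100, Or.inr cl_1_5⟩

private theorem b3_v15 : VD ⟨132918, 0, 65838, 0, 324030⟩ (31 / 40) (1 / 5) (6 / 25) :=
  ⟨by decide +kernel, by norm_num, by norm_num [R], cu_6_25, Or.inr cl_1_5⟩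

private theorem b3_15 : Rgn ⟨504869, 386009, 0, 0, 324030⟩
    ⟨132918, 0, 65838, 0, 324030⟩ :=
  rgn_of b3_15_0 b3_15_1 (Or.inr b3_15_2) (Or.inr b3_15_3)

private theorem b3_16_0 : FaceH ⟨449389, 386009, 0, 0, 324030⟩
    ⟨153230, 0, 65838, 0, 324030⟩ :=
  faceH_of (n := 60) (x1 := 663179) (y1 := 905062) (r0 := 189847) (r1 := 2762559)
    (by decide +kernel) (by decide +kernel)

private theorem b3_16_1 : FaceH ⟨153230, 0, 65838, 0, 324030⟩
    ⟨449389, 386009, 0, 0, 324030⟩ :=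
  faceH_of (n := 60) (x1 := 905062) (y1 := 663179) (r0 := 398004) (r1 := 5791561)
    (by decide +kernel) (by decide +kernel)

private theorem b3_16_2 : FaceV ⟨449389, 386009, 0, 0, 324030⟩
    ⟨153230, 0, 65838, 0, 324030⟩ :=
  faceV_of (n := 60) (x1 := 663179) (y1 := 905062) (r0 := 189847) (r1 := 2762559)
    (by decide +kernel) (by decide +kernel) (by decide +kernel)

private theorem b3_16_3 : FaceV ⟨153230, 0, 65838, 0, 324030⟩
    ⟨449389, 386009, 0, 0, 324030⟩ :=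
  faceV_of (n := 60) (x1 := 905062) (y1 := 663179) (r0 := 398004) (r1 := 5791561)
    (by decide +kernel) (by decide +kernel) (by decide +kernel)

private theorem b3_u16 : VD ⟨449389, 386009, 0, 0, 324030⟩ (2 / 5) (1 / 5) (31 / 100) :=
  ⟨by decide +kernel, by norm_num, by norm_num [R], cu_31_100, Or.inr cl_1_5⟩

private theorem b3_v16 : VD ⟨153230, 0, 65838, 0, 324030⟩ (149 / 200) (1 / 5) (6 / 25) :=
  ⟨by decide +kernel, by norm_num, by norm_num [R], cu_6_25, Or.inr cl_1_5⟩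

private theorem b3_16 : Rgn ⟨449389, 386009, 0, 0, 324030⟩
    ⟨153230, 0, 65838, 0, 324030⟩ :=
  rgn_of b3_16_0 b3_16_1 (Or.inr b3_16_2) (Or.inr b3_16_3)

private theorem b3_17_0 : FaceH ⟨397735, 386009, 0, 0, 324030⟩
    ⟨174253, 0, 65838, 0, 324030⟩ :=
  faceH_of (n := 60) (x1 := 703407) (y1 := 886652) (r0 := 193168) (r1 := 2861222)
    (by decide +kernel) (by decide +kernel)

private theorem b3_17_1 : FaceH ⟨174253, 0, 65838, 0, 324030⟩
    ⟨397735, 386009, 0, 0, 324030⟩ :=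
  faceH_of (n := 60) (x1 := 886652) (y1 := 703407) (r0 := 384280) (r1 := 5691991)
    (by decide +kernel) (by decide +kernel)

private theorem b3_17_2 : FaceV ⟨397735, 386009, 0, 0, 324030⟩
    ⟨174253, 0, 65838, 0, 324030⟩ :=
  faceV_of (n := 60) (x1 := 703407) (y1 := 886652) (r0 := 193168) (r1 := 2861222)
    (by decide +kernel) (by decide +kernel) (by decide +kernel)

private theorem b3_17_3 : FaceV ⟨174253, 0, 65838, 0, 324030⟩
    ⟨397735, 386009, 0, 0, 324030⟩ :=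
  faceV_of (n := 60) (x1 := 886652) (y1 := 703407) (r0 := 384280) (r1 := 5691991)
    (by decide +kernel) (by decide +kernel) (by decide +kernel)

private theorem b3_u17 : VD ⟨397735, 386009, 0, 0, 324030⟩ (9 / 20) (1 / 5) (31 / 100) :=
  ⟨by decide +kernel, by norm_num, by norm_num [R], cu_31_100, Or.inr cl_1_5⟩

private theorem b3_v17 : VD ⟨174253, 0, 65838, 0, 324030⟩ (143 / 200) (1 / 5) (6 / 25) :=
  ⟨by decide +kernel, by norm_num, by norm_num [R], cu_6_25, Or.inr cl_1_5⟩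

private theorem b3_17 : Rgn ⟨397735, 386009, 0, 0, 324030⟩
    ⟨174253, 0, 65838, 0, 324030⟩ :=
  rgn_of b3_17_0 b3_17_1 (Or.inr b3_17_2) (Or.inr b3_17_3)

private theorem b3_18_0 : FaceH ⟨349525, 386009, 0, 0, 324030⟩
    ⟨192342, 0, 65838, 0, 324030⟩ :=
  faceH_of (n := 60) (x1 := 741456) (y1 := 871013) (r0 := 196025) (r1 := 2959884)
    (by decide +kernel) (by decide +kernel)

private theorem b3_18_1 : FaceH ⟨192342, 0, 65838, 0, 324030⟩
    ⟨349525, 386009, 0, 0, 324030⟩ :=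
  faceH_of (n := 60) (x1 := 871013) (y1 := 741456) (r0 := 371471) (r1 := 5609019)
    (by decide +kernel) (by decide +kernel)

private theorem b3_18_2 : FaceV ⟨349525, 386009, 0, 0, 324030⟩
    ⟨192342, 0, 65838, 0, 324030⟩ :=
  faceV_of (n := 60) (x1 := 741456) (y1 := 871013) (r0 := 196025) (r1 := 2959884)
    (by decide +kernel) (by decide +kernel) (by decide +kernel)

private theorem b3_18_3 : FaceV ⟨192342, 0, 65838, 0, 324030⟩
    ⟨349525, 386009, 0, 0, 324030⟩ :=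
  faceV_of (n := 60) (x1 := 871013) (y1 := 741456) (r0 := 371471) (r1 := 5609019)
    (by decide +kernel) (by decide +kernel) (by decide +kernel)

private theorem b3_u18 : VD ⟨349525, 386009, 0, 0, 324030⟩ (1 / 2) (1 / 5) (31 / 100) :=
  ⟨by decide +kernel, by norm_num, by norm_num [R], cu_31_100, Or.inr cl_1_5⟩

private theorem b3_v18 : VD ⟨192342, 0, 65838, 0, 324030⟩ (69 / 100) (1 / 5) (6 / 25) :=
  ⟨by decide +kernel, by norm_num, by norm_num [R], cu_6_25, Or.inr cl_1_5⟩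

private theorem b3_18 : Rgn ⟨349525, 386009, 0, 0, 324030⟩
    ⟨192342, 0, 65838, 0, 324030⟩ :=
  rgn_of b3_18_0 b3_18_1 (Or.inr b3_18_2) (Or.inr b3_18_3)

private theorem b3_19_0 : FaceH ⟨304425, 386009, 0, 0, 324030⟩
    ⟨207203, 0, 65838, 0, 324030⟩ :=
  faceH_of (n := 60) (x1 := 777646) (y1 := 858297) (r0 := 198373) (r1 := 3058547)
    (by decide +kernel) (by decide +kernel)

private theorem b3_19_1 : FaceH ⟨207203, 0, 65838, 0, 324030⟩
    ⟨304425, 386009, 0, 0, 324030⟩ :=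
  faceH_of (n := 60) (x1 := 858297) (y1 := 777646) (r0 := 359488) (r1 := 5542641)
    (by decide +kernel) (by decide +kernel)

private theorem b3_19_2 : FaceV ⟨304425, 386009, 0, 0, 324030⟩
    ⟨207203, 0, 65838, 0, 324030⟩ :=
  faceV_of (n := 60) (x1 := 777646) (y1 := 858297) (r0 := 198373) (r1 := 3058547)
    (by decide +kernel) (by decide +kernel) (by decide +kernel)

private theorem b3_19_3 : FaceV ⟨207203, 0, 65838, 0, 324030⟩
    ⟨304425, 386009, 0, 0, 324030⟩ :=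
  faceV_of (n := 60) (x1 := 858297) (y1 := 777646) (r0 := 359488) (r1 := 5542641)
    (by decide +kernel) (by decide +kernel) (by decide +kernel)

private theorem b3_u19 : VD ⟨304425, 386009, 0, 0, 324030⟩ (11 / 20) (1 / 5) (31 / 100) :=
  ⟨by decide +kernel, by norm_num, by norm_num [R], cu_31_100, Or.inr cl_1_5⟩

private theorem b3_v19 : VD ⟨207203, 0, 65838, 0, 324030⟩ (67 / 100) (1 / 5) (6 / 25) :=
  ⟨by decide +kernel, by norm_num, by norm_num [R], cu_6_25, Or.inr cl_1_5⟩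

private theorem b3_19 : Rgn ⟨304425, 386009, 0, 0, 324030⟩
    ⟨207203, 0, 65838, 0, 324030⟩ :=
  rgn_of b3_19_0 b3_19_1 (Or.inr b3_19_2) (Or.inr b3_19_3)

private theorem b3_20_0 : FaceH ⟨262144, 386009, 0, 0, 324030⟩
    ⟨222425, 0, 65838, 0, 324030⟩ :=
  faceH_of (n := 60) (x1 := 812224) (y1 := 845390) (r0 := 200777) (r1 := 3157209)
    (by decide +kernel) (by decide +kernel)

private theorem b3_20_1 : FaceH ⟨222425, 0, 65838, 0, 324030⟩
    ⟨262144, 386009, 0, 0, 324030⟩ :=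
  faceH_of (n := 60) (x1 := 845390) (y1 := 812224) (r0 := 348254) (r1 := 5476260)
    (by decide +kernel) (by decide +kernel)

private theorem b3_20_2 : FaceV ⟨262144, 386009, 0, 0, 324030⟩
    ⟨222425, 0, 65838, 0, 324030⟩ :=
  faceV_of (n := 60) (x1 := 812224) (y1 := 845390) (r0 := 200777) (r1 := 3157209)
    (by decide +kernel) (by decide +kernel) (by decide +kernel)

private theorem b3_20_3 : FaceV ⟨222425, 0, 65838, 0, 324030⟩
    ⟨262144, 386009, 0, 0, 324030⟩ :=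
  faceV_of (n := 60) (x1 := 845390) (y1 := 812224) (r0 := 348254) (r1 := 5476260)
    (by decide +kernel) (by decide +kernel) (by decide +kernel)

private theorem b3_u20 : VD ⟨262144, 386009, 0, 0, 324030⟩ (3 / 5) (1 / 5) (31 / 100) :=
  ⟨by decide +kernel, by norm_num, by norm_num [R], cu_31_100, Or.inr cl_1_5⟩

private theorem b3_v20 : VD ⟨222425, 0, 65838, 0, 324030⟩ (13 / 20) (1 / 5) (6 / 25) :=
  ⟨by decide +kernel, by norm_num, by norm_num [R], cu_6_25, Or.inr cl_1_5⟩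

private theorem b3_20 : Rgn ⟨262144, 386009, 0, 0, 324030⟩
    ⟨222425, 0, 65838, 0, 324030⟩ :=
  rgn_of b3_20_0 b3_20_1 (Or.inr b3_20_2) (Or.inr b3_20_3)

theorem flat_b3 {θ θ' : ℝ} {v w : ℂ} (h : T2.Pr θ θ' v w)
    (j : J3 (Real.tan θ ^ 2) (Real.tan θ' ^ 2)) (j' : J3 (Real.tan θ' ^ 2) (Real.tan θ ^ 2))
    (t1 : Real.tan θ ^ 2 < 1) (t2 : Real.tan θ' ^ 2 < 1)
    (h1 : 1 / 5 ≤ v.re) (h2 : v.re ≤ 31 / 100) (h3 : 1 / 5 ≤ w.re) (h4 : w.re ≤ 6 / 25) :
    FlatM (1 / cos (Real.pi * v) ^ 2) (1 / cos (Real.pi * (starRingEnd ℂ) w) ^ 2) := by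
  rcases j.c22 j' t1 t2 with (⟨a, b⟩ | ⟨a, b⟩ | ⟨a, b⟩ | ⟨a, b⟩ | ⟨a, b⟩ | ⟨a, b⟩ | ⟨a, b⟩ | ⟨a, b⟩ | ⟨a, b⟩ | ⟨a, b⟩) |
    (⟨a, b⟩ | ⟨a, b⟩ | ⟨a, b⟩ | ⟨a, b⟩ | ⟨a, b⟩ | ⟨a, b⟩ | ⟨a, b⟩ | ⟨a, b⟩ | ⟨a, b⟩ | ⟨a, b⟩) | ⟨a, b⟩
  · exact b3_0.flatM b3_u0 b3_v0 h a b t1 t2 h1 h2 h3 h4
      (by norm_num) (by norm_num) (by norm_num) (by norm_num)
  · exact b3_1.flatM b3_u1 b3_v1 h a b t1 t2 h1 h2 h3 h4
      (by norm_num) (by norm_num) (by norm_num) (by norm_num)
  · exact b3_2.flatM b3_u2 b3_v2 h a b t1 t2 h1 h2 h3 h4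
      (by norm_num) (by norm_num) (by norm_num) (by norm_num)
  · exact b3_6.flatM b3_u6 b3_v6 h a b t1 t2 h1 h2 h3 h4
      (by norm_num) (by norm_num) (by norm_num) (by norm_num)
  · exact b3_7.flatM b3_u7 b3_v7 h a b t1 t2 h1 h2 h3 h4
      (by norm_num) (by norm_num) (by norm_num) (by norm_num)
  · exact b3_8.flatM b3_u8 b3_v8 h a b t1 t2 h1 h2 h3 h4
      (by norm_num) (by norm_num) (by norm_num) (by norm_num)
  · exact b3_9.flatM b3_u9 b3_v9 h a b t1 t2 h1 h2 h3 h4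
      (by norm_num) (by norm_num) (by norm_num) (by norm_num)
  · exact b3_10.flatM b3_u10 b3_v10 h a b t1 t2 h1 h2 h3 h4
      (by norm_num) (by norm_num) (by norm_num) (by norm_num)
  · exact b3_11.flatM b3_u11 b3_v11 h a b t1 t2 h1 h2 h3 h4
      (by norm_num) (by norm_num) (by norm_num) (by norm_num)
  · exact b3_12.flatM b3_u12 b3_v12 h a b t1 t2 h1 h2 h3 h4
      (by norm_num) (by norm_num) (by norm_num) (by norm_num)
  · exact b3_3.flatM b3_u3 b3_v3 h b a t1 t2 h1 h2 h3 h4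
      (by norm_num) (by norm_num) (by norm_num) (by norm_num)
  · exact b3_4.flatM b3_u4 b3_v4 h b a t1 t2 h1 h2 h3 h4
      (by norm_num) (by norm_num) (by norm_num) (by norm_num)
  · exact b3_5.flatM b3_u5 b3_v5 h b a t1 t2 h1 h2 h3 h4
      (by norm_num) (by norm_num) (by norm_num) (by norm_num)
  · exact b3_14.flatM b3_u14 b3_v14 h b a t1 t2 h1 h2 h3 h4
      (by norm_num) (by norm_num) (by norm_num) (by norm_num)
  · exact b3_15.flatM b3_u15 b3_v15 h b a t1 t2 h1 h2 h3 h4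
      (by norm_num) (by norm_num) (by norm_num) (by norm_num)
  · exact b3_16.flatM b3_u16 b3_v16 h b a t1 t2 h1 h2 h3 h4
      (by norm_num) (by norm_num) (by norm_num) (by norm_num)
  · exact b3_17.flatM b3_u17 b3_v17 h b a t1 t2 h1 h2 h3 h4
      (by norm_num) (by norm_num) (by norm_num) (by norm_num)
  · exact b3_18.flatM b3_u18 b3_v18 h b a t1 t2 h1 h2 h3 h4
      (by norm_num) (by norm_num) (by norm_num) (by norm_num)
  · exact b3_19.flatM b3_u19 b3_v19 h b a t1 t2 h1 h2 h3 h4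
      (by norm_num) (by norm_num) (by norm_num) (by norm_num)
  · exact b3_20.flatM b3_u20 b3_v20 h b a t1 t2 h1 h2 h3 h4
      (by norm_num) (by norm_num) (by norm_num) (by norm_num)
  · exact b3_13.flatM b3_u13 b3_v13 h a b t1 t2 h1 h2 h3 h4
      (by norm_num) (by norm_num) (by norm_num) (by norm_num)

end Pool.Agent.S3.Ck
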