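import Pool.Agent.S3.Ck.Cos
import Pool.Agent.S3.Ck.SoundG

/-!
# Flats: b4
-/

set_option autoImplicit false
set_option maxRecDepth 100000

namespace Pool.Agent.S3.Ck

open Complex

private theorem b4_0_0 : FaceH ⟨0, 455387, 0, 0, 65843⟩
    ⟨857925, 196486, 0, 0, 65843⟩ :=
  faceH_of (n := 60) (x1 := 1048576) (y1 := 331590) (r0 := 269631) (r1 := 5161482)
    (by decide +kernel) (by decide +kernel)

private theorem b4_0_1 : FaceH ⟨857925, 196486, 0, 0, 65843⟩
    ⟨0, 455387, 0, 0, 65843⟩ :=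
  faceH_of (n := 60) (x1 := 331590) (y1 := 1048576) (r0 := 213022) (r1 := 4077835)
    (by decide +kernel) (by decide +kernel)

private theorem b4_0_2 : FaceV ⟨0, 455387, 0, 0, 65843⟩
    ⟨857925, 196486, 0, 0, 65843⟩ :=
  faceV_of (n := 60) (x1 := 1048576) (y1 := 331590) (r0 := 269631) (r1 := 5161482)
    (by decide +kernel) (by decide +kernel) (by decide +kernel)

private theorem b4_0_3 : FaceV ⟨857925, 196486, 0, 0, 65843⟩
    ⟨0, 455387, 0, 0, 65843⟩ :=
  faceV_of (n := 60) (x1 := 331590) (y1 := 1048576) (r0 := 213022) (r1 := 4077835)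
    (by decide +kernel) (by decide +kernel) (by decide +kernel)

private theorem b4_u0 : VD ⟨0, 455387, 0, 0, 65843⟩ 1 (6 / 25) (643 / 2000) :=
  ⟨by decide +kernel, by norm_num, by norm_num [R], cu_643_2000, Or.inr cl_6_25⟩

private theorem b4_v0 : VD ⟨857925, 196486, 0, 0, 65843⟩ (1 / 10) (6 / 25) (7 / 25) :=
  ⟨by decide +kernel, by norm_num, by norm_num [R], cu_7_25, Or.inr cl_6_25⟩

private theorem b4_0 : Rgn ⟨0, 455387, 0, 0, 65843⟩
    ⟨857925, 196486, 0, 0, 65843⟩ :=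
  rgn_of b4_0_0 b4_0_1 (Or.inr b4_0_2) (Or.inr b4_0_3)

private theorem b4_1_0 : FaceH ⟨32430, 455387, 0, 0, 65843⟩
    ⟨699050, 196486, 0, 0, 65843⟩ :=
  faceH_of (n := 60) (x1 := 1016633) (y1 := 468938) (r0 := 247161) (r1 := 5006638)
    (by decide +kernel) (by decide +kernel)

private theorem b4_1_1 : FaceH ⟨699050, 196486, 0, 0, 65843⟩
    ⟨32430, 455387, 0, 0, 65843⟩ :=
  faceH_of (n := 60) (x1 := 468938) (y1 := 1016633) (r0 := 219610) (r1 := 4448547)
    (by decide +kernel) (by decide +kernel)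

private theorem b4_1_2 : FaceV ⟨32430, 455387, 0, 0, 65843⟩
    ⟨699050, 196486, 0, 0, 65843⟩ :=
  faceV_of (n := 60) (x1 := 1016633) (y1 := 468938) (r0 := 247161) (r1 := 5006638)
    (by decide +kernel) (by decide +kernel) (by decide +kernel)

private theorem b4_1_3 : FaceV ⟨699050, 196486, 0, 0, 65843⟩
    ⟨32430, 455387, 0, 0, 65843⟩ :=
  faceV_of (n := 60) (x1 := 468938) (y1 := 1016633) (r0 := 219610) (r1 := 4448547)
    (by decide +kernel) (by decide +kernel) (by decide +kernel)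

private theorem b4_u1 : VD ⟨32430, 455387, 0, 0, 65843⟩ (47 / 50) (6 / 25) (643 / 2000) :=
  ⟨by decide +kernel, by norm_num, by norm_num [R], cu_643_2000, Or.inr cl_6_25⟩

private theorem b4_v1 : VD ⟨699050, 196486, 0, 0, 65843⟩ (1 / 5) (6 / 25) (7 / 25) :=
  ⟨by decide +kernel, by norm_num, by norm_num [R], cu_7_25, Or.inr cl_6_25⟩

private theorem b4_1 : Rgn ⟨32430, 455387, 0, 0, 65843⟩
    ⟨699050, 196486, 0, 0, 65843⟩ :=
  rgn_of b4_1_0 b4_1_1 (Or.inr b4_1_2) (Or.inr b4_1_3)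

private theorem b4_2_0 : FaceH ⟨85019, 455387, 0, 0, 65843⟩
    ⟨629145, 196486, 0, 0, 65843⟩ :=
  faceH_of (n := 60) (x1 := 966740) (y1 := 524289) (r0 := 237275) (r1 := 4774373)
    (by decide +kernel) (by decide +kernel)

private theorem b4_2_1 : FaceH ⟨629145, 196486, 0, 0, 65843⟩
    ⟨85019, 455387, 0, 0, 65843⟩ :=
  faceH_of (n := 60) (x1 := 524289) (y1 := 966740) (r0 := 230294) (r1 := 4633903)
    (by decide +kernel) (by decide +kernel)

private theorem b4_2_2 : FaceV ⟨85019, 455387, 0, 0, 65843⟩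
    ⟨629145, 196486, 0, 0, 65843⟩ :=
  faceV_of (n := 60) (x1 := 966740) (y1 := 524289) (r0 := 237275) (r1 := 4774373)
    (by decide +kernel) (by decide +kernel) (by decide +kernel)

private theorem b4_2_3 : FaceV ⟨629145, 196486, 0, 0, 65843⟩
    ⟨85019, 455387, 0, 0, 65843⟩ :=
  faceV_of (n := 60) (x1 := 524289) (y1 := 966740) (r0 := 230294) (r1 := 4633903)
    (by decide +kernel) (by decide +kernel) (by decide +kernel)

private theorem b4_u2 : VD ⟨85019, 455387, 0, 0, 65843⟩ (17 / 20) (6 / 25) (643 / 2000) :=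
  ⟨by decide +kernel, by norm_num, by norm_num [R], cu_643_2000, Or.inr cl_6_25⟩

private theorem b4_v2 : VD ⟨629145, 196486, 0, 0, 65843⟩ (1 / 4) (6 / 25) (7 / 25) :=
  ⟨by decide +kernel, by norm_num, by norm_num [R], cu_7_25, Or.inr cl_6_25⟩

private theorem b4_2 : Rgn ⟨85019, 455387, 0, 0, 65843⟩
    ⟨629145, 196486, 0, 0, 65843⟩ :=
  rgn_of b4_2_0 b4_2_1 (Or.inr b4_2_2) (Or.inr b4_2_3)

private theorem b4_3_0 : FaceH ⟨857925, 455387, 0, 0, 65843⟩
    ⟨0, 196486, 0, 0, 65843⟩ :=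
  faceH_of (n := 60) (x1 := 331590) (y1 := 1048576) (r0 := 148297) (r1 := 2838816)
    (by decide +kernel) (by decide +kernel)

private theorem b4_3_1 : FaceH ⟨0, 196486, 0, 0, 65843⟩
    ⟨857925, 455387, 0, 0, 65843⟩ :=
  faceH_of (n := 60) (x1 := 1048576) (y1 := 331590) (r0 := 387313) (r1 := 7414242)
    (by decide +kernel) (by decide +kernel)

private theorem b4_3_2 : FaceV ⟨857925, 455387, 0, 0, 65843⟩
    ⟨0, 196486, 0, 0, 65843⟩ :=
  faceV_of (n := 60) (x1 := 331590) (y1 := 1048576) (r0 := 148297) (r1 := 2838816)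
    (by decide +kernel) (by decide +kernel) (by decide +kernel)

private theorem b4_3_3 : FaceV ⟨0, 196486, 0, 0, 65843⟩
    ⟨857925, 455387, 0, 0, 65843⟩ :=
  faceV_of (n := 60) (x1 := 1048576) (y1 := 331590) (r0 := 387313) (r1 := 7414242)
    (by decide +kernel) (by decide +kernel) (by decide +kernel)

private theorem b4_u3 : VD ⟨857925, 455387, 0, 0, 65843⟩ (1 / 10) (6 / 25) (643 / 2000) :=
  ⟨by decide +kernel, by norm_num, by norm_num [R], cu_643_2000, Or.inr cl_6_25⟩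

private theorem b4_v3 : VD ⟨0, 196486, 0, 0, 65843⟩ 1 (6 / 25) (7 / 25) :=
  ⟨by decide +kernel, by norm_num, by norm_num [R], cu_7_25, Or.inr cl_6_25⟩

private theorem b4_3 : Rgn ⟨857925, 455387, 0, 0, 65843⟩
    ⟨0, 196486, 0, 0, 65843⟩ :=
  rgn_of b4_3_0 b4_3_1 (Or.inr b4_3_2) (Or.inr b4_3_3)

private theorem b4_4_0 : FaceH ⟨699050, 455387, 0, 0, 65843⟩
    ⟨32430, 196486, 0, 0, 65843⟩ :=
  faceH_of (n := 60) (x1 := 468938) (y1 := 1016633) (r0 := 152883) (r1 := 3096890)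
    (by decide +kernel) (by decide +kernel)

private theorem b4_4_1 : FaceH ⟨32430, 196486, 0, 0, 65843⟩
    ⟨699050, 455387, 0, 0, 65843⟩ :=
  faceH_of (n := 60) (x1 := 1016633) (y1 := 468938) (r0 := 355037) (r1 := 7191816)
    (by decide +kernel) (by decide +kernel)

private theorem b4_4_2 : FaceV ⟨699050, 455387, 0, 0, 65843⟩
    ⟨32430, 196486, 0, 0, 65843⟩ :=
  faceV_of (n := 60) (x1 := 468938) (y1 := 1016633) (r0 := 152883) (r1 := 3096890)
    (by decide +kernel) (by decide +kernel) (by decide +kernel)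

private theorem b4_4_3 : FaceV ⟨32430, 196486, 0, 0, 65843⟩
    ⟨699050, 455387, 0, 0, 65843⟩ :=
  faceV_of (n := 60) (x1 := 1016633) (y1 := 468938) (r0 := 355037) (r1 := 7191816)
    (by decide +kernel) (by decide +kernel) (by decide +kernel)

private theorem b4_u4 : VD ⟨699050, 455387, 0, 0, 65843⟩ (1 / 5) (6 / 25) (643 / 2000) :=
  ⟨by decide +kernel, by norm_num, by norm_num [R], cu_643_2000, Or.inr cl_6_25⟩

private theorem b4_v4 : VD ⟨32430, 196486, 0, 0, 65843⟩ (47 / 50) (6 / 25) (7 / 25) :=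
  ⟨by decide +kernel, by norm_num, by norm_num [R], cu_7_25, Or.inr cl_6_25⟩

private theorem b4_4 : Rgn ⟨699050, 455387, 0, 0, 65843⟩
    ⟨32430, 196486, 0, 0, 65843⟩ :=
  rgn_of b4_4_0 b4_4_1 (Or.inr b4_4_2) (Or.inr b4_4_3)

private theorem b4_5_0 : FaceH ⟨629145, 455387, 0, 0, 65843⟩
    ⟨85019, 196486, 0, 0, 65843⟩ :=
  faceH_of (n := 60) (x1 := 524289) (y1 := 966740) (r0 := 160321) (r1 := 3225927)
    (by decide +kernel) (by decide +kernel)

private theorem b4_5_1 : FaceH ⟨85019, 196486, 0, 0, 65843⟩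
    ⟨629145, 455387, 0, 0, 65843⟩ :=
  faceH_of (n := 60) (x1 := 966740) (y1 := 524289) (r0 := 340835) (r1 := 6858178)
    (by decide +kernel) (by decide +kernel)

private theorem b4_5_2 : FaceV ⟨629145, 455387, 0, 0, 65843⟩
    ⟨85019, 196486, 0, 0, 65843⟩ :=
  faceV_of (n := 60) (x1 := 524289) (y1 := 966740) (r0 := 160321) (r1 := 3225927)
    (by decide +kernel) (by decide +kernel) (by decide +kernel)

private theorem b4_5_3 : FaceV ⟨85019, 196486, 0, 0, 65843⟩
    ⟨629145, 455387, 0, 0, 65843⟩ :=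
  faceV_of (n := 60) (x1 := 966740) (y1 := 524289) (r0 := 340835) (r1 := 6858178)
    (by decide +kernel) (by decide +kernel) (by decide +kernel)

private theorem b4_u5 : VD ⟨629145, 455387, 0, 0, 65843⟩ (1 / 4) (6 / 25) (643 / 2000) :=
  ⟨by decide +kernel, by norm_num, by norm_num [R], cu_643_2000, Or.inr cl_6_25⟩

private theorem b4_v5 : VD ⟨85019, 196486, 0, 0, 65843⟩ (17 / 20) (6 / 25) (7 / 25) :=
  ⟨by decide +kernel, by norm_num, by norm_num [R], cu_7_25, Or.inr cl_6_25⟩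

private theorem b4_5 : Rgn ⟨629145, 455387, 0, 0, 65843⟩
    ⟨85019, 196486, 0, 0, 65843⟩ :=
  rgn_of b4_5_0 b4_5_1 (Or.inr b4_5_2) (Or.inr b4_5_3)

private theorem b4_6_0 : FaceH ⟨110071, 455387, 0, 0, 65843⟩
    ⟨564617, 196486, 0, 0, 65843⟩ :=
  faceH_of (n := 60) (x1 := 943719) (y1 := 574330) (r0 := 228149) (r1 := 4671143)
    (by decide +kernel) (by decide +kernel)

private theorem b4_6_1 : FaceH ⟨564617, 196486, 0, 0, 65843⟩
    ⟨110071, 455387, 0, 0, 65843⟩ :=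
  faceH_of (n := 60) (x1 := 574330) (y1 := 943719) (r0 := 235383) (r1 := 4819260)
    (by decide +kernel) (by decide +kernel)

private theorem b4_6_2 : FaceV ⟨110071, 455387, 0, 0, 65843⟩
    ⟨564617, 196486, 0, 0, 65843⟩ :=
  faceV_of (n := 60) (x1 := 943719) (y1 := 574330) (r0 := 228149) (r1 := 4671143)
    (by decide +kernel) (by decide +kernel) (by decide +kernel)

private theorem b4_6_3 : FaceV ⟨564617, 196486, 0, 0, 65843⟩
    ⟨110071, 455387, 0, 0, 65843⟩ :=
  faceV_of (n := 60) (x1 := 574330) (y1 := 943719) (r0 := 235383) (r1 := 4819260)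
    (by decide +kernel) (by decide +kernel) (by decide +kernel)

private theorem b4_u6 : VD ⟨110071, 455387, 0, 0, 65843⟩ (81 / 100) (6 / 25) (643 / 2000) :=
  ⟨by decide +kernel, by norm_num, by norm_num [R], cu_643_2000, Or.inr cl_6_25⟩

private theorem b4_v6 : VD ⟨564617, 196486, 0, 0, 65843⟩ (3 / 10) (6 / 25) (7 / 25) :=
  ⟨by decide +kernel, by norm_num, by norm_num [R], cu_7_25, Or.inr cl_6_25⟩

private theorem b4_6 : Rgn ⟨110071, 455387, 0, 0, 65843⟩
    ⟨564617, 196486, 0, 0, 65843⟩ :=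
  rgn_of b4_6_0 b4_6_1 (Or.inr b4_6_2) (Or.inr b4_6_3)

private theorem b4_7_0 : FaceH ⟨132918, 455387, 0, 0, 65843⟩
    ⟨504869, 196486, 0, 0, 65843⟩ :=
  faceH_of (n := 60) (x1 := 923105) (y1 := 620347) (r0 := 219699) (r1 := 4580815)
    (by decide +kernel) (by decide +kernel)

private theorem b4_7_1 : FaceH ⟨504869, 196486, 0, 0, 65843⟩
    ⟨132918, 455387, 0, 0, 65843⟩ :=
  faceH_of (n := 60) (x1 := 620347) (y1 := 923105) (r0 := 240025) (r1 := 5004617)
    (by decide +kernel) (by decide +kernel)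

private theorem b4_7_2 : FaceV ⟨132918, 455387, 0, 0, 65843⟩
    ⟨504869, 196486, 0, 0, 65843⟩ :=
  faceV_of (n := 60) (x1 := 923105) (y1 := 620347) (r0 := 219699) (r1 := 4580815)
    (by decide +kernel) (by decide +kernel) (by decide +kernel)

private theorem b4_7_3 : FaceV ⟨504869, 196486, 0, 0, 65843⟩
    ⟨132918, 455387, 0, 0, 65843⟩ :=
  faceV_of (n := 60) (x1 := 620347) (y1 := 923105) (r0 := 240025) (r1 := 5004617)
    (by decide +kernel) (by decide +kernel) (by decide +kernel)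

private theorem b4_u7 : VD ⟨132918, 455387, 0, 0, 65843⟩ (31 / 40) (6 / 25) (643 / 2000) :=
  ⟨by decide +kernel, by norm_num, by norm_num [R], cu_643_2000, Or.inr cl_6_25⟩

private theorem b4_v7 : VD ⟨504869, 196486, 0, 0, 65843⟩ (7 / 20) (6 / 25) (7 / 25) :=
  ⟨by decide +kernel, by norm_num, by norm_num [R], cu_7_25, Or.inr cl_6_25⟩

private theorem b4_7 : Rgn ⟨132918, 455387, 0, 0, 65843⟩
    ⟨504869, 196486, 0, 0, 65843⟩ :=
  rgn_of b4_7_0 b4_7_1 (Or.inr b4_7_2) (Or.inr b4_7_3)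

private theorem b4_8_0 : FaceH ⟨153230, 455387, 0, 0, 65843⟩
    ⟨449389, 196486, 0, 0, 65843⟩ :=
  faceH_of (n := 60) (x1 := 905062) (y1 := 663179) (r0 := 211853) (r1 := 4503394)
    (by decide +kernel) (by decide +kernel)

private theorem b4_8_1 : FaceH ⟨449389, 196486, 0, 0, 65843⟩
    ⟨153230, 455387, 0, 0, 65843⟩ :=
  faceH_of (n := 60) (x1 := 663179) (y1 := 905062) (r0 := 244151) (r1 := 5189972)
    (by decide +kernel) (by decide +kernel)

private theorem b4_8_2 : FaceV ⟨153230, 455387, 0, 0, 65843⟩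
    ⟨449389, 196486, 0, 0, 65843⟩ :=
  faceV_of (n := 60) (x1 := 905062) (y1 := 663179) (r0 := 211853) (r1 := 4503394)
    (by decide +kernel) (by decide +kernel) (by decide +kernel)

private theorem b4_8_3 : FaceV ⟨449389, 196486, 0, 0, 65843⟩
    ⟨153230, 455387, 0, 0, 65843⟩ :=
  faceV_of (n := 60) (x1 := 663179) (y1 := 905062) (r0 := 244151) (r1 := 5189972)
    (by decide +kernel) (by decide +kernel) (by decide +kernel)

private theorem b4_u8 : VD ⟨153230, 455387, 0, 0, 65843⟩ (149 / 200) (6 / 25) (643 / 2000) :=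
  ⟨by decide +kernel, by norm_num, by norm_num [R], cu_643_2000, Or.inr cl_6_25⟩

private theorem b4_v8 : VD ⟨449389, 196486, 0, 0, 65843⟩ (2 / 5) (6 / 25) (7 / 25) :=
  ⟨by decide +kernel, by norm_num, by norm_num [R], cu_7_25, Or.inr cl_6_25⟩

private theorem b4_8 : Rgn ⟨153230, 455387, 0, 0, 65843⟩
    ⟨449389, 196486, 0, 0, 65843⟩ :=
  rgn_of b4_8_0 b4_8_1 (Or.inr b4_8_2) (Or.inr b4_8_3)

private theorem b4_9_0 : FaceH ⟨174253, 455387, 0, 0, 65843⟩
    ⟨397735, 196486, 0, 0, 65843⟩ :=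
  faceH_of (n := 60) (x1 := 886652) (y1 := 703407) (r0 := 204547) (r1 := 4425971)
    (by decide +kernel) (by decide +kernel)

private theorem b4_9_1 : FaceH ⟨397735, 196486, 0, 0, 65843⟩
    ⟨174253, 455387, 0, 0, 65843⟩ :=
  faceH_of (n := 60) (x1 := 703407) (y1 := 886652) (r0 := 248422) (r1 := 5375328)
    (by decide +kernel) (by decide +kernel)

private theorem b4_9_2 : FaceV ⟨174253, 455387, 0, 0, 65843⟩
    ⟨397735, 196486, 0, 0, 65843⟩ :=
  faceV_of (n := 60) (x1 := 886652) (y1 := 703407) (r0 := 204547) (r1 := 4425971)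
    (by decide +kernel) (by decide +kernel) (by decide +kernel)

private theorem b4_9_3 : FaceV ⟨397735, 196486, 0, 0, 65843⟩
    ⟨174253, 455387, 0, 0, 65843⟩ :=
  faceV_of (n := 60) (x1 := 703407) (y1 := 886652) (r0 := 248422) (r1 := 5375328)
    (by decide +kernel) (by decide +kernel) (by decide +kernel)

private theorem b4_u9 : VD ⟨174253, 455387, 0, 0, 65843⟩ (143 / 200) (6 / 25) (643 / 2000) :=
  ⟨by decide +kernel, by norm_num, by norm_num [R], cu_643_2000, Or.inr cl_6_25⟩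

private theorem b4_v9 : VD ⟨397735, 196486, 0, 0, 65843⟩ (9 / 20) (6 / 25) (7 / 25) :=
  ⟨by decide +kernel, by norm_num, by norm_num [R], cu_7_25, Or.inr cl_6_25⟩

private theorem b4_9 : Rgn ⟨174253, 455387, 0, 0, 65843⟩
    ⟨397735, 196486, 0, 0, 65843⟩ :=
  rgn_of b4_9_0 b4_9_1 (Or.inr b4_9_2) (Or.inr b4_9_3)

private theorem b4_10_0 : FaceH ⟨192342, 455387, 0, 0, 65843⟩
    ⟨349525, 196486, 0, 0, 65843⟩ :=
  faceH_of (n := 60) (x1 := 871013) (y1 := 741456) (r0 := 197729) (r1 := 4361453)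
    (by decide +kernel) (by decide +kernel)

private theorem b4_10_1 : FaceH ⟨349525, 196486, 0, 0, 65843⟩
    ⟨192342, 455387, 0, 0, 65843⟩ :=
  faceH_of (n := 60) (x1 := 741456) (y1 := 871013) (r0 := 252097) (r1 := 5560683)
    (by decide +kernel) (by decide +kernel)

private theorem b4_10_2 : FaceV ⟨192342, 455387, 0, 0, 65843⟩
    ⟨349525, 196486, 0, 0, 65843⟩ :=
  faceV_of (n := 60) (x1 := 871013) (y1 := 741456) (r0 := 197729) (r1 := 4361453)
    (by decide +kernel) (by decide +kernel) (by decide +kernel)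

private theorem b4_10_3 : FaceV ⟨349525, 196486, 0, 0, 65843⟩
    ⟨192342, 455387, 0, 0, 65843⟩ :=
  faceV_of (n := 60) (x1 := 741456) (y1 := 871013) (r0 := 252097) (r1 := 5560683)
    (by decide +kernel) (by decide +kernel) (by decide +kernel)

private theorem b4_u10 : VD ⟨192342, 455387, 0, 0, 65843⟩ (69 / 100) (6 / 25) (643 / 2000) :=
  ⟨by decide +kernel, by norm_num, by norm_num [R], cu_643_2000, Or.inr cl_6_25⟩

private theorem b4_v10 : VD ⟨349525, 196486, 0, 0, 65843⟩ (1 / 2) (6 / 25) (7 / 25) :=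
  ⟨by decide +kernel, by norm_num, by norm_num [R], cu_7_25, Or.inr cl_6_25⟩

private theorem b4_10 : Rgn ⟨192342, 455387, 0, 0, 65843⟩
    ⟨349525, 196486, 0, 0, 65843⟩ :=
  rgn_of b4_10_0 b4_10_1 (Or.inr b4_10_2) (Or.inr b4_10_3)

private theorem b4_11_0 : FaceH ⟨207203, 455387, 0, 0, 65843⟩
    ⟨304425, 196486, 0, 0, 65843⟩ :=
  faceH_of (n := 60) (x1 := 858297) (y1 := 777646) (r0 := 191351) (r1 := 4309839)
    (by decide +kernel) (by decide +kernel)

private theorem b4_11_1 : FaceH ⟨304425, 196486, 0, 0, 65843⟩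
    ⟨207203, 455387, 0, 0, 65843⟩ :=
  faceH_of (n := 60) (x1 := 777646) (y1 := 858297) (r0 := 255116) (r1 := 5746039)
    (by decide +kernel) (by decide +kernel)

private theorem b4_11_2 : FaceV ⟨207203, 455387, 0, 0, 65843⟩
    ⟨304425, 196486, 0, 0, 65843⟩ :=
  faceV_of (n := 60) (x1 := 858297) (y1 := 777646) (r0 := 191351) (r1 := 4309839)
    (by decide +kernel) (by decide +kernel) (by decide +kernel)

private theorem b4_11_3 : FaceV ⟨304425, 196486, 0, 0, 65843⟩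
    ⟨207203, 455387, 0, 0, 65843⟩ :=
  faceV_of (n := 60) (x1 := 777646) (y1 := 858297) (r0 := 255116) (r1 := 5746039)
    (by decide +kernel) (by decide +kernel) (by decide +kernel)

private theorem b4_u11 : VD ⟨207203, 455387, 0, 0, 65843⟩ (67 / 100) (6 / 25) (643 / 2000) :=
  ⟨by decide +kernel, by norm_num, by norm_num [R], cu_643_2000, Or.inr cl_6_25⟩

private theorem b4_v11 : VD ⟨304425, 196486, 0, 0, 65843⟩ (11 / 20) (6 / 25) (7 / 25) :=
  ⟨by decide +kernel, by norm_num, by norm_num [R], cu_7_25, Or.inr cl_6_25⟩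

private theorem b4_11 : Rgn ⟨207203, 455387, 0, 0, 65843⟩
    ⟨304425, 196486, 0, 0, 65843⟩ :=
  rgn_of b4_11_0 b4_11_1 (Or.inr b4_11_2) (Or.inr b4_11_3)

private theorem b4_12_0 : FaceH ⟨222425, 455387, 0, 0, 65843⟩
    ⟨262144, 196486, 0, 0, 65843⟩ :=
  faceH_of (n := 60) (x1 := 845390) (y1 := 812224) (r0 := 185371) (r1 := 4258223)
    (by decide +kernel) (by decide +kernel)

private theorem b4_12_1 : FaceH ⟨262144, 196486, 0, 0, 65843⟩
    ⟨222425, 455387, 0, 0, 65843⟩ :=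
  faceH_of (n := 60) (x1 := 812224) (y1 := 845390) (r0 := 258209) (r1 := 5931394)
    (by decide +kernel) (by decide +kernel)

private theorem b4_12_2 : FaceV ⟨222425, 455387, 0, 0, 65843⟩
    ⟨262144, 196486, 0, 0, 65843⟩ :=
  faceV_of (n := 60) (x1 := 845390) (y1 := 812224) (r0 := 185371) (r1 := 4258223)
    (by decide +kernel) (by decide +kernel) (by decide +kernel)

private theorem b4_12_3 : FaceV ⟨262144, 196486, 0, 0, 65843⟩
    ⟨222425, 455387, 0, 0, 65843⟩ :=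
  faceV_of (n := 60) (x1 := 812224) (y1 := 845390) (r0 := 258209) (r1 := 5931394)
    (by decide +kernel) (by decide +kernel) (by decide +kernel)

private theorem b4_u12 : VD ⟨222425, 455387, 0, 0, 65843⟩ (13 / 20) (6 / 25) (643 / 2000) :=
  ⟨by decide +kernel, by norm_num, by norm_num [R], cu_643_2000, Or.inr cl_6_25⟩

private theorem b4_v12 : VD ⟨262144, 196486, 0, 0, 65843⟩ (3 / 5) (6 / 25) (7 / 25) :=
  ⟨by decide +kernel, by norm_num, by norm_num [R], cu_7_25, Or.inr cl_6_25⟩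

private theorem b4_12 : Rgn ⟨222425, 455387, 0, 0, 65843⟩
    ⟨262144, 196486, 0, 0, 65843⟩ :=
  rgn_of b4_12_0 b4_12_1 (Or.inr b4_12_2) (Or.inr b4_12_3)

private theorem b4_13_0 : FaceH ⟨234085, 455387, 0, 0, 65843⟩
    ⟨234085, 196486, 0, 0, 65843⟩ :=
  faceH_of (n := 60) (x1 := 835579) (y1 := 835579) (r0 := 181403) (r1 := 4219514)
    (by decide +kernel) (by decide +kernel)

private theorem b4_13_1 : FaceH ⟨234085, 196486, 0, 0, 65843⟩
    ⟨234085, 455387, 0, 0, 65843⟩ :=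
  faceH_of (n := 60) (x1 := 835579) (y1 := 835579) (r0 := 260577) (r1 := 6061147)
    (by decide +kernel) (by decide +kernel)

private theorem b4_13_2 : FaceV ⟨234085, 455387, 0, 0, 65843⟩
    ⟨234085, 196486, 0, 0, 65843⟩ :=
  faceV_of (n := 60) (x1 := 835579) (y1 := 835579) (r0 := 181403) (r1 := 4219514)
    (by decide +kernel) (by decide +kernel) (by decide +kernel)

private theorem b4_13_3 : FaceV ⟨234085, 196486, 0, 0, 65843⟩
    ⟨234085, 455387, 0, 0, 65843⟩ :=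
  faceV_of (n := 60) (x1 := 835579) (y1 := 835579) (r0 := 260577) (r1 := 6061147)
    (by decide +kernel) (by decide +kernel) (by decide +kernel)

private theorem b4_u13 : VD ⟨234085, 455387, 0, 0, 65843⟩ (127 / 200) (6 / 25) (643 / 2000) :=
  ⟨by decide +kernel, by norm_num, by norm_num [R], cu_643_2000, Or.inr cl_6_25⟩

private theorem b4_v13 : VD ⟨234085, 196486, 0, 0, 65843⟩ (127 / 200) (6 / 25) (7 / 25) :=
  ⟨by decide +kernel, by norm_num, by norm_num [R], cu_7_25, Or.inr cl_6_25⟩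

private theorem b4_13 : Rgn ⟨234085, 455387, 0, 0, 65843⟩
    ⟨234085, 196486, 0, 0, 65843⟩ :=
  rgn_of b4_13_0 b4_13_1 (Or.inr b4_13_2) (Or.inr b4_13_3)

private theorem b4_14_0 : FaceH ⟨564617, 455387, 0, 0, 65843⟩
    ⟨110071, 196486, 0, 0, 65843⟩ :=
  faceH_of (n := 60) (x1 := 574330) (y1 := 943719) (r0 := 163864) (r1 := 3354965)
    (by decide +kernel) (by decide +kernel)

private theorem b4_14_1 : FaceH ⟨110071, 196486, 0, 0, 65843⟩
    ⟨564617, 455387, 0, 0, 65843⟩ :=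
  faceH_of (n := 60) (x1 := 943719) (y1 := 574330) (r0 := 327726) (r1 := 6709892)
    (by decide +kernel) (by decide +kernel)

private theorem b4_14_2 : FaceV ⟨564617, 455387, 0, 0, 65843⟩
    ⟨110071, 196486, 0, 0, 65843⟩ :=
  faceV_of (n := 60) (x1 := 574330) (y1 := 943719) (r0 := 163864) (r1 := 3354965)
    (by decide +kernel) (by decide +kernel) (by decide +kernel)

private theorem b4_14_3 : FaceV ⟨110071, 196486, 0, 0, 65843⟩
    ⟨564617, 455387, 0, 0, 65843⟩ :=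
  faceV_of (n := 60) (x1 := 943719) (y1 := 574330) (r0 := 327726) (r1 := 6709892)
    (by decide +kernel) (by decide +kernel) (by decide +kernel)

private theorem b4_u14 : VD ⟨564617, 455387, 0, 0, 65843⟩ (3 / 10) (6 / 25) (643 / 2000) :=
  ⟨by decide +kernel, by norm_num, by norm_num [R], cu_643_2000, Or.inr cl_6_25⟩

private theorem b4_v14 : VD ⟨110071, 196486, 0, 0, 65843⟩ (81 / 100) (6 / 25) (7 / 25) :=
  ⟨by decide +kernel, by norm_num, by norm_num [R], cu_7_25, Or.inr cl_6_25⟩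

private theorem b4_14 : Rgn ⟨564617, 455387, 0, 0, 65843⟩
    ⟨110071, 196486, 0, 0, 65843⟩ :=
  rgn_of b4_14_0 b4_14_1 (Or.inr b4_14_2) (Or.inr b4_14_3)

private theorem b4_15_0 : FaceH ⟨504869, 455387, 0, 0, 65843⟩
    ⟨132918, 196486, 0, 0, 65843⟩ :=
  faceH_of (n := 60) (x1 := 620347) (y1 := 923105) (r0 := 167095) (r1 := 3484002)
    (by decide +kernel) (by decide +kernel)

private theorem b4_15_1 : FaceH ⟨132918, 196486, 0, 0, 65843⟩
    ⟨504869, 455387, 0, 0, 65843⟩ :=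
  faceH_of (n := 60) (x1 := 923105) (y1 := 620347) (r0 := 315588) (r1 := 6580140)
    (by decide +kernel) (by decide +kernel)

private theorem b4_15_2 : FaceV ⟨504869, 455387, 0, 0, 65843⟩
    ⟨132918, 196486, 0, 0, 65843⟩ :=
  faceV_of (n := 60) (x1 := 620347) (y1 := 923105) (r0 := 167095) (r1 := 3484002)
    (by decide +kernel) (by decide +kernel) (by decide +kernel)

private theorem b4_15_3 : FaceV ⟨132918, 196486, 0, 0, 65843⟩
    ⟨504869, 455387, 0, 0, 65843⟩ :=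
  faceV_of (n := 60) (x1 := 923105) (y1 := 620347) (r0 := 315588) (r1 := 6580140)
    (by decide +kernel) (by decide +kernel) (by decide +kernel)

private theorem b4_u15 : VD ⟨504869, 455387, 0, 0, 65843⟩ (7 / 20) (6 / 25) (643 / 2000) :=
  ⟨by decide +kernel, by norm_num, by norm_num [R], cu_643_2000, Or.inr cl_6_25⟩

private theorem b4_v15 : VD ⟨132918, 196486, 0, 0, 65843⟩ (31 / 40) (6 / 25) (7 / 25) :=
  ⟨by decide +kernel, by norm_num, by norm_num [R], cu_7_25, Or.inr cl_6_25⟩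

private theorem b4_15 : Rgn ⟨504869, 455387, 0, 0, 65843⟩
    ⟨132918, 196486, 0, 0, 65843⟩ :=
  rgn_of b4_15_0 b4_15_1 (Or.inr b4_15_2) (Or.inr b4_15_3)

private theorem b4_16_0 : FaceH ⟨449389, 455387, 0, 0, 65843⟩
    ⟨153230, 196486, 0, 0, 65843⟩ :=
  faceH_of (n := 60) (x1 := 663179) (y1 := 905062) (r0 := 169968) (r1 := 3613039)
    (by decide +kernel) (by decide +kernel)

private theorem b4_16_1 : FaceH ⟨153230, 196486, 0, 0, 65843⟩
    ⟨449389, 455387, 0, 0, 65843⟩ :=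
  faceH_of (n := 60) (x1 := 905062) (y1 := 663179) (r0 := 304317) (r1 := 6468928)
    (by decide +kernel) (by decide +kernel)

private theorem b4_16_2 : FaceV ⟨449389, 455387, 0, 0, 65843⟩
    ⟨153230, 196486, 0, 0, 65843⟩ :=
  faceV_of (n := 60) (x1 := 663179) (y1 := 905062) (r0 := 169968) (r1 := 3613039)
    (by decide +kernel) (by decide +kernel) (by decide +kernel)

private theorem b4_16_3 : FaceV ⟨153230, 196486, 0, 0, 65843⟩
    ⟨449389, 455387, 0, 0, 65843⟩ :=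
  faceV_of (n := 60) (x1 := 905062) (y1 := 663179) (r0 := 304317) (r1 := 6468928)
    (by decide +kernel) (by decide +kernel) (by decide +kernel)

private theorem b4_u16 : VD ⟨449389, 455387, 0, 0, 65843⟩ (2 / 5) (6 / 25) (643 / 2000) :=
  ⟨by decide +kernel, by norm_num, by norm_num [R], cu_643_2000, Or.inr cl_6_25⟩

private theorem b4_v16 : VD ⟨153230, 196486, 0, 0, 65843⟩ (149 / 200) (6 / 25) (7 / 25) :=
  ⟨by decide +kernel, by norm_num, by norm_num [R], cu_7_25, Or.inr cl_6_25⟩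

private theorem b4_16 : Rgn ⟨449389, 455387, 0, 0, 65843⟩
    ⟨153230, 196486, 0, 0, 65843⟩ :=
  rgn_of b4_16_0 b4_16_1 (Or.inr b4_16_2) (Or.inr b4_16_3)

private theorem b4_17_0 : FaceH ⟨397735, 455387, 0, 0, 65843⟩
    ⟨174253, 196486, 0, 0, 65843⟩ :=
  faceH_of (n := 60) (x1 := 703407) (y1 := 886652) (r0 := 172941) (r1 := 3742076)
    (by decide +kernel) (by decide +kernel)

private theorem b4_17_1 : FaceH ⟨174253, 196486, 0, 0, 65843⟩
    ⟨397735, 455387, 0, 0, 65843⟩ :=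
  faceH_of (n := 60) (x1 := 886652) (y1 := 703407) (r0 := 293823) (r1 := 6357713)
    (by decide +kernel) (by decide +kernel)

private theorem b4_17_2 : FaceV ⟨397735, 455387, 0, 0, 65843⟩
    ⟨174253, 196486, 0, 0, 65843⟩ :=
  faceV_of (n := 60) (x1 := 703407) (y1 := 886652) (r0 := 172941) (r1 := 3742076)
    (by decide +kernel) (by decide +kernel) (by decide +kernel)

private theorem b4_17_3 : FaceV ⟨174253, 196486, 0, 0, 65843⟩
    ⟨397735, 455387, 0, 0, 65843⟩ :=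
  faceV_of (n := 60) (x1 := 886652) (y1 := 703407) (r0 := 293823) (r1 := 6357713)
    (by decide +kernel) (by decide +kernel) (by decide +kernel)

private theorem b4_u17 : VD ⟨397735, 455387, 0, 0, 65843⟩ (9 / 20) (6 / 25) (643 / 2000) :=
  ⟨by decide +kernel, by norm_num, by norm_num [R], cu_643_2000, Or.inr cl_6_25⟩

private theorem b4_v17 : VD ⟨174253, 196486, 0, 0, 65843⟩ (143 / 200) (6 / 25) (7 / 25) :=
  ⟨by decide +kernel, by norm_num, by norm_num [R], cu_7_25, Or.inr cl_6_25⟩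

private theorem b4_17 : Rgn ⟨397735, 455387, 0, 0, 65843⟩
    ⟨174253, 196486, 0, 0, 65843⟩ :=
  rgn_of b4_17_0 b4_17_1 (Or.inr b4_17_2) (Or.inr b4_17_3)

private theorem b4_18_0 : FaceH ⟨349525, 455387, 0, 0, 65843⟩
    ⟨192342, 196486, 0, 0, 65843⟩ :=
  faceH_of (n := 60) (x1 := 741456) (y1 := 871013) (r0 := 175499) (r1 := 3871112)
    (by decide +kernel) (by decide +kernel)

private theorem b4_18_1 : FaceH ⟨192342, 196486, 0, 0, 65843⟩
    ⟨349525, 455387, 0, 0, 65843⟩ :=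
  faceH_of (n := 60) (x1 := 871013) (y1 := 741456) (r0 := 284029) (r1 := 6265036)
    (by decide +kernel) (by decide +kernel)

private theorem b4_18_2 : FaceV ⟨349525, 455387, 0, 0, 65843⟩
    ⟨192342, 196486, 0, 0, 65843⟩ :=
  faceV_of (n := 60) (x1 := 741456) (y1 := 871013) (r0 := 175499) (r1 := 3871112)
    (by decide +kernel) (by decide +kernel) (by decide +kernel)

private theorem b4_18_3 : FaceV ⟨192342, 196486, 0, 0, 65843⟩
    ⟨349525, 455387, 0, 0, 65843⟩ :=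
  faceV_of (n := 60) (x1 := 871013) (y1 := 741456) (r0 := 284029) (r1 := 6265036)
    (by decide +kernel) (by decide +kernel) (by decide +kernel)

private theorem b4_u18 : VD ⟨349525, 455387, 0, 0, 65843⟩ (1 / 2) (6 / 25) (643 / 2000) :=
  ⟨by decide +kernel, by norm_num, by norm_num [R], cu_643_2000, Or.inr cl_6_25⟩

private theorem b4_v18 : VD ⟨192342, 196486, 0, 0, 65843⟩ (69 / 100) (6 / 25) (7 / 25) :=
  ⟨by decide +kernel, by norm_num, by norm_num [R], cu_7_25, Or.inr cl_6_25⟩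

private theorem b4_18 : Rgn ⟨349525, 455387, 0, 0, 65843⟩
    ⟨192342, 196486, 0, 0, 65843⟩ :=
  rgn_of b4_18_0 b4_18_1 (Or.inr b4_18_2) (Or.inr b4_18_3)

private theorem b4_19_0 : FaceH ⟨304425, 455387, 0, 0, 65843⟩
    ⟨207203, 196486, 0, 0, 65843⟩ :=
  faceH_of (n := 60) (x1 := 777646) (y1 := 858297) (r0 := 177601) (r1 := 4000149)
    (by decide +kernel) (by decide +kernel)

private theorem b4_19_1 : FaceH ⟨207203, 196486, 0, 0, 65843⟩
    ⟨304425, 455387, 0, 0, 65843⟩ :=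
  faceH_of (n := 60) (x1 := 858297) (y1 := 777646) (r0 := 274867) (r1 := 6190895)
    (by decide +kernel) (by decide +kernel)

private theorem b4_19_2 : FaceV ⟨304425, 455387, 0, 0, 65843⟩
    ⟨207203, 196486, 0, 0, 65843⟩ :=
  faceV_of (n := 60) (x1 := 777646) (y1 := 858297) (r0 := 177601) (r1 := 4000149)
    (by decide +kernel) (by decide +kernel) (by decide +kernel)

private theorem b4_19_3 : FaceV ⟨207203, 196486, 0, 0, 65843⟩
    ⟨304425, 455387, 0, 0, 65843⟩ :=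
  faceV_of (n := 60) (x1 := 858297) (y1 := 777646) (r0 := 274867) (r1 := 6190895)
    (by decide +kernel) (by decide +kernel) (by decide +kernel)

private theorem b4_u19 : VD ⟨304425, 455387, 0, 0, 65843⟩ (11 / 20) (6 / 25) (643 / 2000) :=
  ⟨by decide +kernel, by norm_num, by norm_num [R], cu_643_2000, Or.inr cl_6_25⟩

private theorem b4_v19 : VD ⟨207203, 196486, 0, 0, 65843⟩ (67 / 100) (6 / 25) (7 / 25) :=
  ⟨by decide +kernel, by norm_num, by norm_num [R], cu_7_25, Or.inr cl_6_25⟩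

private theorem b4_19 : Rgn ⟨304425, 455387, 0, 0, 65843⟩
    ⟨207203, 196486, 0, 0, 65843⟩ :=
  rgn_of b4_19_0 b4_19_1 (Or.inr b4_19_2) (Or.inr b4_19_3)

private theorem b4_20_0 : FaceH ⟨262144, 455387, 0, 0, 65843⟩
    ⟨222425, 196486, 0, 0, 65843⟩ :=
  faceH_of (n := 60) (x1 := 812224) (y1 := 845390) (r0 := 179754) (r1 := 4129185)
    (by decide +kernel) (by decide +kernel)

private theorem b4_20_1 : FaceH ⟨222425, 196486, 0, 0, 65843⟩
    ⟨262144, 455387, 0, 0, 65843⟩ :=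
  faceH_of (n := 60) (x1 := 845390) (y1 := 812224) (r0 := 266278) (r1 := 6116751)
    (by decide +kernel) (by decide +kernel)

private theorem b4_20_2 : FaceV ⟨262144, 455387, 0, 0, 65843⟩
    ⟨222425, 196486, 0, 0, 65843⟩ :=
  faceV_of (n := 60) (x1 := 812224) (y1 := 845390) (r0 := 179754) (r1 := 4129185)
    (by decide +kernel) (by decide +kernel) (by decide +kernel)

private theorem b4_20_3 : FaceV ⟨222425, 196486, 0, 0, 65843⟩
    ⟨262144, 455387, 0, 0, 65843⟩ :=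
  faceV_of (n := 60) (x1 := 845390) (y1 := 812224) (r0 := 266278) (r1 := 6116751)
    (by decide +kernel) (by decide +kernel) (by decide +kernel)

private theorem b4_u20 : VD ⟨262144, 455387, 0, 0, 65843⟩ (3 / 5) (6 / 25) (643 / 2000) :=
  ⟨by decide +kernel, by norm_num, by norm_num [R], cu_643_2000, Or.inr cl_6_25⟩

private theorem b4_v20 : VD ⟨222425, 196486, 0, 0, 65843⟩ (13 / 20) (6 / 25) (7 / 25) :=
  ⟨by decide +kernel, by norm_num, by norm_num [R], cu_7_25, Or.inr cl_6_25⟩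

private theorem b4_20 : Rgn ⟨262144, 455387, 0, 0, 65843⟩
    ⟨222425, 196486, 0, 0, 65843⟩ :=
  rgn_of b4_20_0 b4_20_1 (Or.inr b4_20_2) (Or.inr b4_20_3)

theorem flat_b4 {θ θ' : ℝ} {v w : ℂ} (h : T2.Pr θ θ' v w)
    (j : J3 (Real.tan θ ^ 2) (Real.tan θ' ^ 2)) (j' : J3 (Real.tan θ' ^ 2) (Real.tan θ ^ 2))
    (t1 : Real.tan θ ^ 2 < 1) (t2 : Real.tan θ' ^ 2 < 1)
    (h1 : 6 / 25 ≤ v.re) (h2 : v.re ≤ 643 / 2000) (h3 : 6 / 25 ≤ w.re) (h4 : w.re ≤ 7 / 25) :
    FlatM (1 / cos (Real.pi * v) ^ 2) (1 / cos (Real.pi * (starRingEnd ℂ) w) ^ 2) := by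
  rcases j.c22 j' t1 t2 with (⟨a, b⟩ | ⟨a, b⟩ | ⟨a, b⟩ | ⟨a, b⟩ | ⟨a, b⟩ | ⟨a, b⟩ | ⟨a, b⟩ | ⟨a, b⟩ | ⟨a, b⟩ | ⟨a, b⟩) |
    (⟨a, b⟩ | ⟨a, b⟩ | ⟨a, b⟩ | ⟨a, b⟩ | ⟨a, b⟩ | ⟨a, b⟩ | ⟨a, b⟩ | ⟨a, b⟩ | ⟨a, b⟩ | ⟨a, b⟩) | ⟨a, b⟩
  · exact b4_0.flatM b4_u0 b4_v0 h a b t1 t2 h1 h2 h3 h4
      (by norm_num) (by norm_num) (by norm_num) (by norm_num)
  · exact b4_1.flatM b4_u1 b4_v1 h a b t1 t2 h1 h2 h3 h4
      (by norm_num) (by norm_num) (by norm_num) (by norm_num)
  · exact b4_2.flatM b4_u2 b4_v2 h a b t1 t2 h1 h2 h3 h4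
      (by norm_num) (by norm_num) (by norm_num) (by norm_num)
  · exact b4_6.flatM b4_u6 b4_v6 h a b t1 t2 h1 h2 h3 h4
      (by norm_num) (by norm_num) (by norm_num) (by norm_num)
  · exact b4_7.flatM b4_u7 b4_v7 h a b t1 t2 h1 h2 h3 h4
      (by norm_num) (by norm_num) (by norm_num) (by norm_num)
  · exact b4_8.flatM b4_u8 b4_v8 h a b t1 t2 h1 h2 h3 h4
      (by norm_num) (by norm_num) (by norm_num) (by norm_num)
  · exact b4_9.flatM b4_u9 b4_v9 h a b t1 t2 h1 h2 h3 h4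
      (by norm_num) (by norm_num) (by norm_num) (by norm_num)
  · exact b4_10.flatM b4_u10 b4_v10 h a b t1 t2 h1 h2 h3 h4
      (by norm_num) (by norm_num) (by norm_num) (by norm_num)
  · exact b4_11.flatM b4_u11 b4_v11 h a b t1 t2 h1 h2 h3 h4
      (by norm_num) (by norm_num) (by norm_num) (by norm_num)
  · exact b4_12.flatM b4_u12 b4_v12 h a b t1 t2 h1 h2 h3 h4
      (by norm_num) (by norm_num) (by norm_num) (by norm_num)
  · exact b4_3.flatM b4_u3 b4_v3 h b a t1 t2 h1 h2 h3 h4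
      (by norm_num) (by norm_num) (by norm_num) (by norm_num)
  · exact b4_4.flatM b4_u4 b4_v4 h b a t1 t2 h1 h2 h3 h4
      (by norm_num) (by norm_num) (by norm_num) (by norm_num)
  · exact b4_5.flatM b4_u5 b4_v5 h b a t1 t2 h1 h2 h3 h4
      (by norm_num) (by norm_num) (by norm_num) (by norm_num)
  · exact b4_14.flatM b4_u14 b4_v14 h b a t1 t2 h1 h2 h3 h4
      (by norm_num) (by norm_num) (by norm_num) (by norm_num)
  · exact b4_15.flatM b4_u15 b4_v15 h b a t1 t2 h1 h2 h3 h4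
      (by norm_num) (by norm_num) (by norm_num) (by norm_num)
  · exact b4_16.flatM b4_u16 b4_v16 h b a t1 t2 h1 h2 h3 h4
      (by norm_num) (by norm_num) (by norm_num) (by norm_num)
  · exact b4_17.flatM b4_u17 b4_v17 h b a t1 t2 h1 h2 h3 h4
      (by norm_num) (by norm_num) (by norm_num) (by norm_num)
  · exact b4_18.flatM b4_u18 b4_v18 h b a t1 t2 h1 h2 h3 h4
      (by norm_num) (by norm_num) (by norm_num) (by norm_num)
  · exact b4_19.flatM b4_u19 b4_v19 h b a t1 t2 h1 h2 h3 h4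
      (by norm_num) (by norm_num) (by norm_num) (by norm_num)
  · exact b4_20.flatM b4_u20 b4_v20 h b a t1 t2 h1 h2 h3 h4
      (by norm_num) (by norm_num) (by norm_num) (by norm_num)
  · exact b4_13.flatM b4_u13 b4_v13 h a b t1 t2 h1 h2 h3 h4
      (by norm_num) (by norm_num) (by norm_num) (by norm_num)

end Pool.Agent.S3.Ck
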