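import Pool.Agent.S3.Ck.Cos
import Pool.Agent.S3.Ck.SoundG

/-!
# Flats: b5
-/

set_option autoImplicit false
set_option maxRecDepth 100000

namespace Pool.Agent.S3.Ck

open Complex

private theorem b5_0_0 : FaceH ⟨0, 533771, 0, 196481, 0⟩
    ⟨857925, 446464, 0, 196481, 0⟩ :=
  faceH_of (n := 60) (x1 := 1048576) (y1 := 331590) (r0 := 234002) (r1 := 7304367)
    (by decide +kernel) (by decide +kernel)

private theorem b5_0_1 : FaceH ⟨857925, 446464, 0, 196481, 0⟩
    ⟨0, 533771, 0, 196481, 0⟩ :=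
  faceH_of (n := 60) (x1 := 331590) (y1 := 1048576) (r0 := 150528) (r1 := 4698725)
    (by decide +kernel) (by decide +kernel)

private theorem b5_0_2 : FaceV ⟨0, 533771, 0, 196481, 0⟩
    ⟨857925, 446464, 0, 196481, 0⟩ :=
  faceV_of (n := 60) (x1 := 1048576) (y1 := 331590) (r0 := 234002) (r1 := 7304367)
    (by decide +kernel) (by decide +kernel) (by decide +kernel)

private theorem b5_0_3 : FaceV ⟨857925, 446464, 0, 196481, 0⟩
    ⟨0, 533771, 0, 196481, 0⟩ :=
  faceV_of (n := 60) (x1 := 331590) (y1 := 1048576) (r0 := 150528) (r1 := 4698725)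
    (by decide +kernel) (by decide +kernel) (by decide +kernel)

private theorem b5_u0 : VD ⟨0, 533771, 0, 196481, 0⟩ 1 (7 / 25) (67 / 200) :=
  ⟨by decide +kernel, by norm_num, by norm_num [R], cu_67_200, Or.inr cl_7_25⟩

private theorem b5_v0 : VD ⟨857925, 446464, 0, 196481, 0⟩ (1 / 10) (7 / 25) (8 / 25) :=
  ⟨by decide +kernel, by norm_num, by norm_num [R], cu_8_25, Or.inr cl_7_25⟩

private theorem b5_0 : Rgn ⟨0, 533771, 0, 196481, 0⟩
    ⟨857925, 446464, 0, 196481, 0⟩ :=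
  rgn_of b5_0_0 b5_0_1 (Or.inr b5_0_2) (Or.inr b5_0_3)

private theorem b5_1_0 : FaceH ⟨32430, 533771, 0, 196481, 0⟩
    ⟨699050, 446464, 0, 196481, 0⟩ :=
  faceH_of (n := 60) (x1 := 1016633) (y1 := 468938) (r0 := 214502) (r1 := 7085237)
    (by decide +kernel) (by decide +kernel)

private theorem b5_1_1 : FaceH ⟨699050, 446464, 0, 196481, 0⟩
    ⟨32430, 533771, 0, 196481, 0⟩ :=
  faceH_of (n := 60) (x1 := 468938) (y1 := 1016633) (r0 := 155183) (r1 := 5125881)
    (by decide +kernel) (by decide +kernel)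

private theorem b5_1_2 : FaceV ⟨32430, 533771, 0, 196481, 0⟩
    ⟨699050, 446464, 0, 196481, 0⟩ :=
  faceV_of (n := 60) (x1 := 1016633) (y1 := 468938) (r0 := 214502) (r1 := 7085237)
    (by decide +kernel) (by decide +kernel) (by decide +kernel)

private theorem b5_1_3 : FaceV ⟨699050, 446464, 0, 196481, 0⟩
    ⟨32430, 533771, 0, 196481, 0⟩ :=
  faceV_of (n := 60) (x1 := 468938) (y1 := 1016633) (r0 := 155183) (r1 := 5125881)
    (by decide +kernel) (by decide +kernel) (by decide +kernel)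

private theorem b5_u1 : VD ⟨32430, 533771, 0, 196481, 0⟩ (47 / 50) (7 / 25) (67 / 200) :=
  ⟨by decide +kernel, by norm_num, by norm_num [R], cu_67_200, Or.inr cl_7_25⟩

private theorem b5_v1 : VD ⟨699050, 446464, 0, 196481, 0⟩ (1 / 5) (7 / 25) (8 / 25) :=
  ⟨by decide +kernel, by norm_num, by norm_num [R], cu_8_25, Or.inr cl_7_25⟩

private theorem b5_1 : Rgn ⟨32430, 533771, 0, 196481, 0⟩
    ⟨699050, 446464, 0, 196481, 0⟩ :=
  rgn_of b5_1_0 b5_1_1 (Or.inr b5_1_2) (Or.inr b5_1_3)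

private theorem b5_2_0 : FaceH ⟨85019, 533771, 0, 196481, 0⟩
    ⟨629145, 446464, 0, 196481, 0⟩ :=
  faceH_of (n := 60) (x1 := 966740) (y1 := 524289) (r0 := 205921) (r1 := 6756543)
    (by decide +kernel) (by decide +kernel)

private theorem b5_2_1 : FaceH ⟨629145, 446464, 0, 196481, 0⟩
    ⟨85019, 533771, 0, 196481, 0⟩ :=
  faceH_of (n := 60) (x1 := 524289) (y1 := 966740) (r0 := 162732) (r1 := 5339459)
    (by decide +kernel) (by decide +kernel)

private theorem b5_2_2 : FaceV ⟨85019, 533771, 0, 196481, 0⟩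
    ⟨629145, 446464, 0, 196481, 0⟩ :=
  faceV_of (n := 60) (x1 := 966740) (y1 := 524289) (r0 := 205921) (r1 := 6756543)
    (by decide +kernel) (by decide +kernel) (by decide +kernel)

private theorem b5_2_3 : FaceV ⟨629145, 446464, 0, 196481, 0⟩
    ⟨85019, 533771, 0, 196481, 0⟩ :=
  faceV_of (n := 60) (x1 := 524289) (y1 := 966740) (r0 := 162732) (r1 := 5339459)
    (by decide +kernel) (by decide +kernel) (by decide +kernel)

private theorem b5_u2 : VD ⟨85019, 533771, 0, 196481, 0⟩ (17 / 20) (7 / 25) (67 / 200) :=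
  ⟨by decide +kernel, by norm_num, by norm_num [R], cu_67_200, Or.inr cl_7_25⟩

private theorem b5_v2 : VD ⟨629145, 446464, 0, 196481, 0⟩ (1 / 4) (7 / 25) (8 / 25) :=
  ⟨by decide +kernel, by norm_num, by norm_num [R], cu_8_25, Or.inr cl_7_25⟩

private theorem b5_2 : Rgn ⟨85019, 533771, 0, 196481, 0⟩
    ⟨629145, 446464, 0, 196481, 0⟩ :=
  rgn_of b5_2_0 b5_2_1 (Or.inr b5_2_2) (Or.inr b5_2_3)

private theorem b5_3_0 : FaceH ⟨857925, 533771, 0, 196481, 0⟩
    ⟨0, 446464, 0, 196481, 0⟩ :=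
  faceH_of (n := 60) (x1 := 331590) (y1 := 1048576) (r0 := 128701) (r1 := 4017404)
    (by decide +kernel) (by decide +kernel)

private theorem b5_3_1 : FaceH ⟨0, 446464, 0, 196481, 0⟩
    ⟨857925, 533771, 0, 196481, 0⟩ :=
  faceH_of (n := 60) (x1 := 1048576) (y1 := 331590) (r0 := 273687) (r1 := 8543131)
    (by decide +kernel) (by decide +kernel)

private theorem b5_3_2 : FaceV ⟨857925, 533771, 0, 196481, 0⟩
    ⟨0, 446464, 0, 196481, 0⟩ :=
  faceV_of (n := 60) (x1 := 331590) (y1 := 1048576) (r0 := 128701) (r1 := 4017404)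
    (by decide +kernel) (by decide +kernel) (by decide +kernel)

private theorem b5_3_3 : FaceV ⟨0, 446464, 0, 196481, 0⟩
    ⟨857925, 533771, 0, 196481, 0⟩ :=
  faceV_of (n := 60) (x1 := 1048576) (y1 := 331590) (r0 := 273687) (r1 := 8543131)
    (by decide +kernel) (by decide +kernel) (by decide +kernel)

private theorem b5_u3 : VD ⟨857925, 533771, 0, 196481, 0⟩ (1 / 10) (7 / 25) (67 / 200) :=
  ⟨by decide +kernel, by norm_num, by norm_num [R], cu_67_200, Or.inr cl_7_25⟩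

private theorem b5_v3 : VD ⟨0, 446464, 0, 196481, 0⟩ 1 (7 / 25) (8 / 25) :=
  ⟨by decide +kernel, by norm_num, by norm_num [R], cu_8_25, Or.inr cl_7_25⟩

private theorem b5_3 : Rgn ⟨857925, 533771, 0, 196481, 0⟩
    ⟨0, 446464, 0, 196481, 0⟩ :=
  rgn_of b5_3_0 b5_3_1 (Or.inr b5_3_2) (Or.inr b5_3_3)

private theorem b5_4_0 : FaceH ⟨699050, 533771, 0, 196481, 0⟩
    ⟨32430, 446464, 0, 196481, 0⟩ :=
  faceH_of (n := 60) (x1 := 468938) (y1 := 1016633) (r0 := 132681) (r1 := 4382622)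
    (by decide +kernel) (by decide +kernel)

private theorem b5_4_1 : FaceH ⟨32430, 446464, 0, 196481, 0⟩
    ⟨699050, 533771, 0, 196481, 0⟩ :=
  faceH_of (n := 60) (x1 := 1016633) (y1 := 468938) (r0 := 250879) (r1 := 8286839)
    (by decide +kernel) (by decide +kernel)

private theorem b5_4_2 : FaceV ⟨699050, 533771, 0, 196481, 0⟩
    ⟨32430, 446464, 0, 196481, 0⟩ :=
  faceV_of (n := 60) (x1 := 468938) (y1 := 1016633) (r0 := 132681) (r1 := 4382622)
    (by decide +kernel) (by decide +kernel) (by decide +kernel)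

private theorem b5_4_3 : FaceV ⟨32430, 446464, 0, 196481, 0⟩
    ⟨699050, 533771, 0, 196481, 0⟩ :=
  faceV_of (n := 60) (x1 := 1016633) (y1 := 468938) (r0 := 250879) (r1 := 8286839)
    (by decide +kernel) (by decide +kernel) (by decide +kernel)

private theorem b5_u4 : VD ⟨699050, 533771, 0, 196481, 0⟩ (1 / 5) (7 / 25) (67 / 200) :=
  ⟨by decide +kernel, by norm_num, by norm_num [R], cu_67_200, Or.inr cl_7_25⟩

private theorem b5_v4 : VD ⟨32430, 446464, 0, 196481, 0⟩ (47 / 50) (7 / 25) (8 / 25) :=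
  ⟨by decide +kernel, by norm_num, by norm_num [R], cu_8_25, Or.inr cl_7_25⟩

private theorem b5_4 : Rgn ⟨699050, 533771, 0, 196481, 0⟩
    ⟨32430, 446464, 0, 196481, 0⟩ :=
  rgn_of b5_4_0 b5_4_1 (Or.inr b5_4_2) (Or.inr b5_4_3)

private theorem b5_5_0 : FaceH ⟨629145, 533771, 0, 196481, 0⟩
    ⟨85019, 446464, 0, 196481, 0⟩ :=
  faceH_of (n := 60) (x1 := 524289) (y1 := 966740) (r0 := 139136) (r1 := 4565231)
    (by decide +kernel) (by decide +kernel)

private theorem b5_5_1 : FaceH ⟨85019, 446464, 0, 196481, 0⟩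
    ⟨629145, 533771, 0, 196481, 0⟩ :=
  faceH_of (n := 60) (x1 := 966740) (y1 := 524289) (r0 := 240844) (r1 := 7902401)
    (by decide +kernel) (by decide +kernel)

private theorem b5_5_2 : FaceV ⟨629145, 533771, 0, 196481, 0⟩
    ⟨85019, 446464, 0, 196481, 0⟩ :=
  faceV_of (n := 60) (x1 := 524289) (y1 := 966740) (r0 := 139136) (r1 := 4565231)
    (by decide +kernel) (by decide +kernel) (by decide +kernel)

private theorem b5_5_3 : FaceV ⟨85019, 446464, 0, 196481, 0⟩
    ⟨629145, 533771, 0, 196481, 0⟩ :=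
  faceV_of (n := 60) (x1 := 966740) (y1 := 524289) (r0 := 240844) (r1 := 7902401)
    (by decide +kernel) (by decide +kernel) (by decide +kernel)

private theorem b5_u5 : VD ⟨629145, 533771, 0, 196481, 0⟩ (1 / 4) (7 / 25) (67 / 200) :=
  ⟨by decide +kernel, by norm_num, by norm_num [R], cu_67_200, Or.inr cl_7_25⟩

private theorem b5_v5 : VD ⟨85019, 446464, 0, 196481, 0⟩ (17 / 20) (7 / 25) (8 / 25) :=
  ⟨by decide +kernel, by norm_num, by norm_num [R], cu_8_25, Or.inr cl_7_25⟩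

private theorem b5_5 : Rgn ⟨629145, 533771, 0, 196481, 0⟩
    ⟨85019, 446464, 0, 196481, 0⟩ :=
  rgn_of b5_5_0 b5_5_1 (Or.inr b5_5_2) (Or.inr b5_5_3)

private theorem b5_6_0 : FaceH ⟨110071, 533771, 0, 196481, 0⟩
    ⟨564617, 446464, 0, 196481, 0⟩ :=
  faceH_of (n := 60) (x1 := 943719) (y1 := 574330) (r0 := 198001) (r1 := 6610455)
    (by decide +kernel) (by decide +kernel)

private theorem b5_6_1 : FaceH ⟨564617, 446464, 0, 196481, 0⟩
    ⟨110071, 533771, 0, 196481, 0⟩ :=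
  faceH_of (n := 60) (x1 := 574330) (y1 := 943719) (r0 := 166329) (r1 := 5553039)
    (by decide +kernel) (by decide +kernel)

private theorem b5_6_2 : FaceV ⟨110071, 533771, 0, 196481, 0⟩
    ⟨564617, 446464, 0, 196481, 0⟩ :=
  faceV_of (n := 60) (x1 := 943719) (y1 := 574330) (r0 := 198001) (r1 := 6610455)
    (by decide +kernel) (by decide +kernel) (by decide +kernel)

private theorem b5_6_3 : FaceV ⟨564617, 446464, 0, 196481, 0⟩
    ⟨110071, 533771, 0, 196481, 0⟩ :=
  faceV_of (n := 60) (x1 := 574330) (y1 := 943719) (r0 := 166329) (r1 := 5553039)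
    (by decide +kernel) (by decide +kernel) (by decide +kernel)

private theorem b5_u6 : VD ⟨110071, 533771, 0, 196481, 0⟩ (81 / 100) (7 / 25) (67 / 200) :=
  ⟨by decide +kernel, by norm_num, by norm_num [R], cu_67_200, Or.inr cl_7_25⟩

private theorem b5_v6 : VD ⟨564617, 446464, 0, 196481, 0⟩ (3 / 10) (7 / 25) (8 / 25) :=
  ⟨by decide +kernel, by norm_num, by norm_num [R], cu_8_25, Or.inr cl_7_25⟩

private theorem b5_6 : Rgn ⟨110071, 533771, 0, 196481, 0⟩
    ⟨564617, 446464, 0, 196481, 0⟩ :=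
  rgn_of b5_6_0 b5_6_1 (Or.inr b5_6_2) (Or.inr b5_6_3)

private theorem b5_7_0 : FaceH ⟨132918, 533771, 0, 196481, 0⟩
    ⟨504869, 446464, 0, 196481, 0⟩ :=
  faceH_of (n := 60) (x1 := 923105) (y1 := 620347) (r0 := 190668) (r1 := 6482626)
    (by decide +kernel) (by decide +kernel)

private theorem b5_7_1 : FaceH ⟨504869, 446464, 0, 196481, 0⟩
    ⟨132918, 533771, 0, 196481, 0⟩ :=
  faceH_of (n := 60) (x1 := 620347) (y1 := 923105) (r0 := 169609) (r1 := 5766617)
    (by decide +kernel) (by decide +kernel)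

private theorem b5_7_2 : FaceV ⟨132918, 533771, 0, 196481, 0⟩
    ⟨504869, 446464, 0, 196481, 0⟩ :=
  faceV_of (n := 60) (x1 := 923105) (y1 := 620347) (r0 := 190668) (r1 := 6482626)
    (by decide +kernel) (by decide +kernel) (by decide +kernel)

private theorem b5_7_3 : FaceV ⟨504869, 446464, 0, 196481, 0⟩
    ⟨132918, 533771, 0, 196481, 0⟩ :=
  faceV_of (n := 60) (x1 := 620347) (y1 := 923105) (r0 := 169609) (r1 := 5766617)
    (by decide +kernel) (by decide +kernel) (by decide +kernel)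

private theorem b5_u7 : VD ⟨132918, 533771, 0, 196481, 0⟩ (31 / 40) (7 / 25) (67 / 200) :=
  ⟨by decide +kernel, by norm_num, by norm_num [R], cu_67_200, Or.inr cl_7_25⟩

private theorem b5_v7 : VD ⟨504869, 446464, 0, 196481, 0⟩ (7 / 20) (7 / 25) (8 / 25) :=
  ⟨by decide +kernel, by norm_num, by norm_num [R], cu_8_25, Or.inr cl_7_25⟩

private theorem b5_7 : Rgn ⟨132918, 533771, 0, 196481, 0⟩
    ⟨504869, 446464, 0, 196481, 0⟩ :=
  rgn_of b5_7_0 b5_7_1 (Or.inr b5_7_2) (Or.inr b5_7_3)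

private theorem b5_8_0 : FaceH ⟨153230, 533771, 0, 196481, 0⟩
    ⟨449389, 446464, 0, 196481, 0⟩ :=
  faceH_of (n := 60) (x1 := 905062) (y1 := 663179) (r0 := 183858) (r1 := 6373062)
    (by decide +kernel) (by decide +kernel)

private theorem b5_8_1 : FaceH ⟨449389, 446464, 0, 196481, 0⟩
    ⟨153230, 533771, 0, 196481, 0⟩ :=
  faceH_of (n := 60) (x1 := 663179) (y1 := 905062) (r0 := 172524) (r1 := 5980195)
    (by decide +kernel) (by decide +kernel)

private theorem b5_8_2 : FaceV ⟨153230, 533771, 0, 196481, 0⟩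
    ⟨449389, 446464, 0, 196481, 0⟩ :=
  faceV_of (n := 60) (x1 := 905062) (y1 := 663179) (r0 := 183858) (r1 := 6373062)
    (by decide +kernel) (by decide +kernel) (by decide +kernel)

private theorem b5_8_3 : FaceV ⟨449389, 446464, 0, 196481, 0⟩
    ⟨153230, 533771, 0, 196481, 0⟩ :=
  faceV_of (n := 60) (x1 := 663179) (y1 := 905062) (r0 := 172524) (r1 := 5980195)
    (by decide +kernel) (by decide +kernel) (by decide +kernel)

private theorem b5_u8 : VD ⟨153230, 533771, 0, 196481, 0⟩ (149 / 200) (7 / 25) (67 / 200) :=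
  ⟨by decide +kernel, by norm_num, by norm_num [R], cu_67_200, Or.inr cl_7_25⟩

private theorem b5_v8 : VD ⟨449389, 446464, 0, 196481, 0⟩ (2 / 5) (7 / 25) (8 / 25) :=
  ⟨by decide +kernel, by norm_num, by norm_num [R], cu_8_25, Or.inr cl_7_25⟩

private theorem b5_8 : Rgn ⟨153230, 533771, 0, 196481, 0⟩
    ⟨449389, 446464, 0, 196481, 0⟩ :=
  rgn_of b5_8_0 b5_8_1 (Or.inr b5_8_2) (Or.inr b5_8_3)

private theorem b5_9_0 : FaceH ⟨174253, 533771, 0, 196481, 0⟩
    ⟨397735, 446464, 0, 196481, 0⟩ :=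
  faceH_of (n := 60) (x1 := 886652) (y1 := 703407) (r0 := 177518) (r1 := 6263495)
    (by decide +kernel) (by decide +kernel)

private theorem b5_9_1 : FaceH ⟨397735, 446464, 0, 196481, 0⟩
    ⟨174253, 533771, 0, 196481, 0⟩ :=
  faceH_of (n := 60) (x1 := 703407) (y1 := 886652) (r0 := 175542) (r1 := 6193774)
    (by decide +kernel) (by decide +kernel)

private theorem b5_9_2 : FaceV ⟨174253, 533771, 0, 196481, 0⟩
    ⟨397735, 446464, 0, 196481, 0⟩ :=
  faceV_of (n := 60) (x1 := 886652) (y1 := 703407) (r0 := 177518) (r1 := 6263495)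
    (by decide +kernel) (by decide +kernel) (by decide +kernel)

private theorem b5_9_3 : FaceV ⟨397735, 446464, 0, 196481, 0⟩
    ⟨174253, 533771, 0, 196481, 0⟩ :=
  faceV_of (n := 60) (x1 := 703407) (y1 := 886652) (r0 := 175542) (r1 := 6193774)
    (by decide +kernel) (by decide +kernel) (by decide +kernel)

private theorem b5_u9 : VD ⟨174253, 533771, 0, 196481, 0⟩ (143 / 200) (7 / 25) (67 / 200) :=
  ⟨by decide +kernel, by norm_num, by norm_num [R], cu_67_200, Or.inr cl_7_25⟩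

private theorem b5_v9 : VD ⟨397735, 446464, 0, 196481, 0⟩ (9 / 20) (7 / 25) (8 / 25) :=
  ⟨by decide +kernel, by norm_num, by norm_num [R], cu_8_25, Or.inr cl_7_25⟩

private theorem b5_9 : Rgn ⟨174253, 533771, 0, 196481, 0⟩
    ⟨397735, 446464, 0, 196481, 0⟩ :=
  rgn_of b5_9_0 b5_9_1 (Or.inr b5_9_2) (Or.inr b5_9_3)

private theorem b5_10_0 : FaceH ⟨192342, 533771, 0, 196481, 0⟩
    ⟨349525, 446464, 0, 196481, 0⟩ :=
  faceH_of (n := 60) (x1 := 871013) (y1 := 741456) (r0 := 171601) (r1 := 6172192)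
    (by decide +kernel) (by decide +kernel)

private theorem b5_10_1 : FaceH ⟨349525, 446464, 0, 196481, 0⟩
    ⟨192342, 533771, 0, 196481, 0⟩ :=
  faceH_of (n := 60) (x1 := 741456) (y1 := 871013) (r0 := 178139) (r1 := 6407350)
    (by decide +kernel) (by decide +kernel)

private theorem b5_10_2 : FaceV ⟨192342, 533771, 0, 196481, 0⟩
    ⟨349525, 446464, 0, 196481, 0⟩ :=
  faceV_of (n := 60) (x1 := 871013) (y1 := 741456) (r0 := 171601) (r1 := 6172192)
    (by decide +kernel) (by decide +kernel) (by decide +kernel)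

private theorem b5_10_3 : FaceV ⟨349525, 446464, 0, 196481, 0⟩
    ⟨192342, 533771, 0, 196481, 0⟩ :=
  faceV_of (n := 60) (x1 := 741456) (y1 := 871013) (r0 := 178139) (r1 := 6407350)
    (by decide +kernel) (by decide +kernel) (by decide +kernel)

private theorem b5_u10 : VD ⟨192342, 533771, 0, 196481, 0⟩ (69 / 100) (7 / 25) (67 / 200) :=
  ⟨by decide +kernel, by norm_num, by norm_num [R], cu_67_200, Or.inr cl_7_25⟩

private theorem b5_v10 : VD ⟨349525, 446464, 0, 196481, 0⟩ (1 / 2) (7 / 25) (8 / 25) :=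
  ⟨by decide +kernel, by norm_num, by norm_num [R], cu_8_25, Or.inr cl_7_25⟩

private theorem b5_10 : Rgn ⟨192342, 533771, 0, 196481, 0⟩
    ⟨349525, 446464, 0, 196481, 0⟩ :=
  rgn_of b5_10_0 b5_10_1 (Or.inr b5_10_2) (Or.inr b5_10_3)

private theorem b5_11_0 : FaceH ⟨207203, 533771, 0, 196481, 0⟩
    ⟨304425, 446464, 0, 196481, 0⟩ :=
  faceH_of (n := 60) (x1 := 858297) (y1 := 777646) (r0 := 166066) (r1 := 6099149)
    (by decide +kernel) (by decide +kernel)

private theorem b5_11_1 : FaceH ⟨304425, 446464, 0, 196481, 0⟩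
    ⟨207203, 533771, 0, 196481, 0⟩ :=
  faceH_of (n := 60) (x1 := 777646) (y1 := 858297) (r0 := 180272) (r1 := 6620928)
    (by decide +kernel) (by decide +kernel)

private theorem b5_11_2 : FaceV ⟨207203, 533771, 0, 196481, 0⟩
    ⟨304425, 446464, 0, 196481, 0⟩ :=
  faceV_of (n := 60) (x1 := 858297) (y1 := 777646) (r0 := 166066) (r1 := 6099149)
    (by decide +kernel) (by decide +kernel) (by decide +kernel)

private theorem b5_11_3 : FaceV ⟨304425, 446464, 0, 196481, 0⟩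
    ⟨207203, 533771, 0, 196481, 0⟩ :=
  faceV_of (n := 60) (x1 := 777646) (y1 := 858297) (r0 := 180272) (r1 := 6620928)
    (by decide +kernel) (by decide +kernel) (by decide +kernel)

private theorem b5_u11 : VD ⟨207203, 533771, 0, 196481, 0⟩ (67 / 100) (7 / 25) (67 / 200) :=
  ⟨by decide +kernel, by norm_num, by norm_num [R], cu_67_200, Or.inr cl_7_25⟩

private theorem b5_v11 : VD ⟨304425, 446464, 0, 196481, 0⟩ (11 / 20) (7 / 25) (8 / 25) :=
  ⟨by decide +kernel, by norm_num, by norm_num [R], cu_8_25, Or.inr cl_7_25⟩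

private theorem b5_11 : Rgn ⟨207203, 533771, 0, 196481, 0⟩
    ⟨304425, 446464, 0, 196481, 0⟩ :=
  rgn_of b5_11_0 b5_11_1 (Or.inr b5_11_2) (Or.inr b5_11_3)

private theorem b5_12_0 : FaceH ⟨222425, 533771, 0, 196481, 0⟩
    ⟨262144, 446464, 0, 196481, 0⟩ :=
  faceH_of (n := 60) (x1 := 845390) (y1 := 812224) (r0 := 160876) (r1 := 6026104)
    (by decide +kernel) (by decide +kernel)

private theorem b5_12_1 : FaceH ⟨262144, 446464, 0, 196481, 0⟩
    ⟨222425, 533771, 0, 196481, 0⟩ :=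
  faceH_of (n := 60) (x1 := 812224) (y1 := 845390) (r0 := 182458) (r1 := 6834505)
    (by decide +kernel) (by decide +kernel)

private theorem b5_12_2 : FaceV ⟨222425, 533771, 0, 196481, 0⟩
    ⟨262144, 446464, 0, 196481, 0⟩ :=
  faceV_of (n := 60) (x1 := 845390) (y1 := 812224) (r0 := 160876) (r1 := 6026104)
    (by decide +kernel) (by decide +kernel) (by decide +kernel)

private theorem b5_12_3 : FaceV ⟨262144, 446464, 0, 196481, 0⟩
    ⟨222425, 533771, 0, 196481, 0⟩ :=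
  faceV_of (n := 60) (x1 := 812224) (y1 := 845390) (r0 := 182458) (r1 := 6834505)
    (by decide +kernel) (by decide +kernel) (by decide +kernel)

private theorem b5_u12 : VD ⟨222425, 533771, 0, 196481, 0⟩ (13 / 20) (7 / 25) (67 / 200) :=
  ⟨by decide +kernel, by norm_num, by norm_num [R], cu_67_200, Or.inr cl_7_25⟩

private theorem b5_v12 : VD ⟨262144, 446464, 0, 196481, 0⟩ (3 / 5) (7 / 25) (8 / 25) :=
  ⟨by decide +kernel, by norm_num, by norm_num [R], cu_8_25, Or.inr cl_7_25⟩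

private theorem b5_12 : Rgn ⟨222425, 533771, 0, 196481, 0⟩
    ⟨262144, 446464, 0, 196481, 0⟩ :=
  rgn_of b5_12_0 b5_12_1 (Or.inr b5_12_2) (Or.inr b5_12_3)

private theorem b5_13_0 : FaceH ⟨234085, 533771, 0, 196481, 0⟩
    ⟨234085, 446464, 0, 196481, 0⟩ :=
  faceH_of (n := 60) (x1 := 835579) (y1 := 835579) (r0 := 157432) (r1 := 5971323)
    (by decide +kernel) (by decide +kernel)

private theorem b5_13_1 : FaceH ⟨234085, 446464, 0, 196481, 0⟩
    ⟨234085, 533771, 0, 196481, 0⟩ :=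
  faceH_of (n := 60) (x1 := 835579) (y1 := 835579) (r0 := 184131) (r1 := 6984014)
    (by decide +kernel) (by decide +kernel)

private theorem b5_13_2 : FaceV ⟨234085, 533771, 0, 196481, 0⟩
    ⟨234085, 446464, 0, 196481, 0⟩ :=
  faceV_of (n := 60) (x1 := 835579) (y1 := 835579) (r0 := 157432) (r1 := 5971323)
    (by decide +kernel) (by decide +kernel) (by decide +kernel)

private theorem b5_13_3 : FaceV ⟨234085, 446464, 0, 196481, 0⟩
    ⟨234085, 533771, 0, 196481, 0⟩ :=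
  faceV_of (n := 60) (x1 := 835579) (y1 := 835579) (r0 := 184131) (r1 := 6984014)
    (by decide +kernel) (by decide +kernel) (by decide +kernel)

private theorem b5_u13 : VD ⟨234085, 533771, 0, 196481, 0⟩ (127 / 200) (7 / 25) (67 / 200) :=
  ⟨by decide +kernel, by norm_num, by norm_num [R], cu_67_200, Or.inr cl_7_25⟩

private theorem b5_v13 : VD ⟨234085, 446464, 0, 196481, 0⟩ (127 / 200) (7 / 25) (8 / 25) :=
  ⟨by decide +kernel, by norm_num, by norm_num [R], cu_8_25, Or.inr cl_7_25⟩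

private theorem b5_13 : Rgn ⟨234085, 533771, 0, 196481, 0⟩
    ⟨234085, 446464, 0, 196481, 0⟩ :=
  rgn_of b5_13_0 b5_13_1 (Or.inr b5_13_2) (Or.inr b5_13_3)

private theorem b5_14_0 : FaceH ⟨564617, 533771, 0, 196481, 0⟩
    ⟨110071, 446464, 0, 196481, 0⟩ :=
  faceH_of (n := 60) (x1 := 574330) (y1 := 943719) (r0 := 142211) (r1 := 4747841)
    (by decide +kernel) (by decide +kernel)

private theorem b5_14_1 : FaceH ⟨110071, 446464, 0, 196481, 0⟩
    ⟨564617, 533771, 0, 196481, 0⟩ :=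
  faceH_of (n := 60) (x1 := 943719) (y1 := 574330) (r0 := 231581) (r1 := 7731537)
    (by decide +kernel) (by decide +kernel)

private theorem b5_14_2 : FaceV ⟨564617, 533771, 0, 196481, 0⟩
    ⟨110071, 446464, 0, 196481, 0⟩ :=
  faceV_of (n := 60) (x1 := 574330) (y1 := 943719) (r0 := 142211) (r1 := 4747841)
    (by decide +kernel) (by decide +kernel) (by decide +kernel)

private theorem b5_14_3 : FaceV ⟨110071, 446464, 0, 196481, 0⟩
    ⟨564617, 533771, 0, 196481, 0⟩ :=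
  faceV_of (n := 60) (x1 := 943719) (y1 := 574330) (r0 := 231581) (r1 := 7731537)
    (by decide +kernel) (by decide +kernel) (by decide +kernel)

private theorem b5_u14 : VD ⟨564617, 533771, 0, 196481, 0⟩ (3 / 10) (7 / 25) (67 / 200) :=
  ⟨by decide +kernel, by norm_num, by norm_num [R], cu_67_200, Or.inr cl_7_25⟩

private theorem b5_v14 : VD ⟨110071, 446464, 0, 196481, 0⟩ (81 / 100) (7 / 25) (8 / 25) :=
  ⟨by decide +kernel, by norm_num, by norm_num [R], cu_8_25, Or.inr cl_7_25⟩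

private theorem b5_14 : Rgn ⟨564617, 533771, 0, 196481, 0⟩
    ⟨110071, 446464, 0, 196481, 0⟩ :=
  rgn_of b5_14_0 b5_14_1 (Or.inr b5_14_2) (Or.inr b5_14_3)

private theorem b5_15_0 : FaceH ⟨504869, 533771, 0, 196481, 0⟩
    ⟨132918, 446464, 0, 196481, 0⟩ :=
  faceH_of (n := 60) (x1 := 620347) (y1 := 923105) (r0 := 145015) (r1 := 4930451)
    (by decide +kernel) (by decide +kernel)

private theorem b5_15_1 : FaceH ⟨132918, 446464, 0, 196481, 0⟩
    ⟨504869, 533771, 0, 196481, 0⟩ :=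
  faceH_of (n := 60) (x1 := 923105) (y1 := 620347) (r0 := 223004) (r1 := 7582030)
    (by decide +kernel) (by decide +kernel)

private theorem b5_15_2 : FaceV ⟨504869, 533771, 0, 196481, 0⟩
    ⟨132918, 446464, 0, 196481, 0⟩ :=
  faceV_of (n := 60) (x1 := 620347) (y1 := 923105) (r0 := 145015) (r1 := 4930451)
    (by decide +kernel) (by decide +kernel) (by decide +kernel)

private theorem b5_15_3 : FaceV ⟨132918, 446464, 0, 196481, 0⟩
    ⟨504869, 533771, 0, 196481, 0⟩ :=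
  faceV_of (n := 60) (x1 := 923105) (y1 := 620347) (r0 := 223004) (r1 := 7582030)
    (by decide +kernel) (by decide +kernel) (by decide +kernel)

private theorem b5_u15 : VD ⟨504869, 533771, 0, 196481, 0⟩ (7 / 20) (7 / 25) (67 / 200) :=
  ⟨by decide +kernel, by norm_num, by norm_num [R], cu_67_200, Or.inr cl_7_25⟩

private theorem b5_v15 : VD ⟨132918, 446464, 0, 196481, 0⟩ (31 / 40) (7 / 25) (8 / 25) :=
  ⟨by decide +kernel, by norm_num, by norm_num [R], cu_8_25, Or.inr cl_7_25⟩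

private theorem b5_15 : Rgn ⟨504869, 533771, 0, 196481, 0⟩
    ⟨132918, 446464, 0, 196481, 0⟩ :=
  rgn_of b5_15_0 b5_15_1 (Or.inr b5_15_2) (Or.inr b5_15_3)

private theorem b5_16_0 : FaceH ⟨449389, 533771, 0, 196481, 0⟩
    ⟨153230, 446464, 0, 196481, 0⟩ :=
  faceH_of (n := 60) (x1 := 663179) (y1 := 905062) (r0 := 147508) (r1 := 5113059)
    (by decide +kernel) (by decide +kernel)

private theorem b5_16_1 : FaceH ⟨153230, 446464, 0, 196481, 0⟩
    ⟨449389, 533771, 0, 196481, 0⟩ :=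
  faceH_of (n := 60) (x1 := 905062) (y1 := 663179) (r0 := 215039) (r1 := 7453884)
    (by decide +kernel) (by decide +kernel)

private theorem b5_16_2 : FaceV ⟨449389, 533771, 0, 196481, 0⟩
    ⟨153230, 446464, 0, 196481, 0⟩ :=
  faceV_of (n := 60) (x1 := 663179) (y1 := 905062) (r0 := 147508) (r1 := 5113059)
    (by decide +kernel) (by decide +kernel) (by decide +kernel)

private theorem b5_16_3 : FaceV ⟨153230, 446464, 0, 196481, 0⟩
    ⟨449389, 533771, 0, 196481, 0⟩ :=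
  faceV_of (n := 60) (x1 := 905062) (y1 := 663179) (r0 := 215039) (r1 := 7453884)
    (by decide +kernel) (by decide +kernel) (by decide +kernel)

private theorem b5_u16 : VD ⟨449389, 533771, 0, 196481, 0⟩ (2 / 5) (7 / 25) (67 / 200) :=
  ⟨by decide +kernel, by norm_num, by norm_num [R], cu_67_200, Or.inr cl_7_25⟩

private theorem b5_v16 : VD ⟨153230, 446464, 0, 196481, 0⟩ (149 / 200) (7 / 25) (8 / 25) :=
  ⟨by decide +kernel, by norm_num, by norm_num [R], cu_8_25, Or.inr cl_7_25⟩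

private theorem b5_16 : Rgn ⟨449389, 533771, 0, 196481, 0⟩
    ⟨153230, 446464, 0, 196481, 0⟩ :=
  rgn_of b5_16_0 b5_16_1 (Or.inr b5_16_2) (Or.inr b5_16_3)

private theorem b5_17_0 : FaceH ⟨397735, 533771, 0, 196481, 0⟩
    ⟨174253, 446464, 0, 196481, 0⟩ :=
  faceH_of (n := 60) (x1 := 703407) (y1 := 886652) (r0 := 150088) (r1 := 5295669)
    (by decide +kernel) (by decide +kernel)

private theorem b5_17_1 : FaceH ⟨174253, 446464, 0, 196481, 0⟩
    ⟨397735, 533771, 0, 196481, 0⟩ :=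
  faceH_of (n := 60) (x1 := 886652) (y1 := 703407) (r0 := 207624) (r1 := 7325736)
    (by decide +kernel) (by decide +kernel)

private theorem b5_17_2 : FaceV ⟨397735, 533771, 0, 196481, 0⟩
    ⟨174253, 446464, 0, 196481, 0⟩ :=
  faceV_of (n := 60) (x1 := 703407) (y1 := 886652) (r0 := 150088) (r1 := 5295669)
    (by decide +kernel) (by decide +kernel) (by decide +kernel)

private theorem b5_17_3 : FaceV ⟨174253, 446464, 0, 196481, 0⟩
    ⟨397735, 533771, 0, 196481, 0⟩ :=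
  faceV_of (n := 60) (x1 := 886652) (y1 := 703407) (r0 := 207624) (r1 := 7325736)
    (by decide +kernel) (by decide +kernel) (by decide +kernel)

private theorem b5_u17 : VD ⟨397735, 533771, 0, 196481, 0⟩ (9 / 20) (7 / 25) (67 / 200) :=
  ⟨by decide +kernel, by norm_num, by norm_num [R], cu_67_200, Or.inr cl_7_25⟩

private theorem b5_v17 : VD ⟨174253, 446464, 0, 196481, 0⟩ (143 / 200) (7 / 25) (8 / 25) :=
  ⟨by decide +kernel, by norm_num, by norm_num [R], cu_8_25, Or.inr cl_7_25⟩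

private theorem b5_17 : Rgn ⟨397735, 533771, 0, 196481, 0⟩
    ⟨174253, 446464, 0, 196481, 0⟩ :=
  rgn_of b5_17_0 b5_17_1 (Or.inr b5_17_2) (Or.inr b5_17_3)

private theorem b5_18_0 : FaceH ⟨349525, 533771, 0, 196481, 0⟩
    ⟨192342, 446464, 0, 196481, 0⟩ :=
  faceH_of (n := 60) (x1 := 741456) (y1 := 871013) (r0 := 152309) (r1 := 5478276)
    (by decide +kernel) (by decide +kernel)

private theorem b5_18_1 : FaceH ⟨192342, 446464, 0, 196481, 0⟩
    ⟨349525, 533771, 0, 196481, 0⟩ :=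
  faceH_of (n := 60) (x1 := 871013) (y1 := 741456) (r0 := 200703) (r1 := 7218948)
    (by decide +kernel) (by decide +kernel)

private theorem b5_18_2 : FaceV ⟨349525, 533771, 0, 196481, 0⟩
    ⟨192342, 446464, 0, 196481, 0⟩ :=
  faceV_of (n := 60) (x1 := 741456) (y1 := 871013) (r0 := 152309) (r1 := 5478276)
    (by decide +kernel) (by decide +kernel) (by decide +kernel)

private theorem b5_18_3 : FaceV ⟨192342, 446464, 0, 196481, 0⟩
    ⟨349525, 533771, 0, 196481, 0⟩ :=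
  faceV_of (n := 60) (x1 := 871013) (y1 := 741456) (r0 := 200703) (r1 := 7218948)
    (by decide +kernel) (by decide +kernel) (by decide +kernel)

private theorem b5_u18 : VD ⟨349525, 533771, 0, 196481, 0⟩ (1 / 2) (7 / 25) (67 / 200) :=
  ⟨by decide +kernel, by norm_num, by norm_num [R], cu_67_200, Or.inr cl_7_25⟩

private theorem b5_v18 : VD ⟨192342, 446464, 0, 196481, 0⟩ (69 / 100) (7 / 25) (8 / 25) :=
  ⟨by decide +kernel, by norm_num, by norm_num [R], cu_8_25, Or.inr cl_7_25⟩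

private theorem b5_18 : Rgn ⟨349525, 533771, 0, 196481, 0⟩
    ⟨192342, 446464, 0, 196481, 0⟩ :=
  rgn_of b5_18_0 b5_18_1 (Or.inr b5_18_2) (Or.inr b5_18_3)

private theorem b5_19_0 : FaceH ⟨304425, 533771, 0, 196481, 0⟩
    ⟨207203, 446464, 0, 196481, 0⟩ :=
  faceH_of (n := 60) (x1 := 777646) (y1 := 858297) (r0 := 154133) (r1 := 5660885)
    (by decide +kernel) (by decide +kernel)

private theorem b5_19_1 : FaceH ⟨207203, 446464, 0, 196481, 0⟩
    ⟨304425, 533771, 0, 196481, 0⟩ :=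
  faceH_of (n := 60) (x1 := 858297) (y1 := 777646) (r0 := 194229) (r1 := 7133518)
    (by decide +kernel) (by decide +kernel)

private theorem b5_19_2 : FaceV ⟨304425, 533771, 0, 196481, 0⟩
    ⟨207203, 446464, 0, 196481, 0⟩ :=
  faceV_of (n := 60) (x1 := 777646) (y1 := 858297) (r0 := 154133) (r1 := 5660885)
    (by decide +kernel) (by decide +kernel) (by decide +kernel)

private theorem b5_19_3 : FaceV ⟨207203, 446464, 0, 196481, 0⟩
    ⟨304425, 533771, 0, 196481, 0⟩ :=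
  faceV_of (n := 60) (x1 := 858297) (y1 := 777646) (r0 := 194229) (r1 := 7133518)
    (by decide +kernel) (by decide +kernel) (by decide +kernel)

private theorem b5_u19 : VD ⟨304425, 533771, 0, 196481, 0⟩ (11 / 20) (7 / 25) (67 / 200) :=
  ⟨by decide +kernel, by norm_num, by norm_num [R], cu_67_200, Or.inr cl_7_25⟩

private theorem b5_v19 : VD ⟨207203, 446464, 0, 196481, 0⟩ (67 / 100) (7 / 25) (8 / 25) :=
  ⟨by decide +kernel, by norm_num, by norm_num [R], cu_8_25, Or.inr cl_7_25⟩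

private theorem b5_19 : Rgn ⟨304425, 533771, 0, 196481, 0⟩
    ⟨207203, 446464, 0, 196481, 0⟩ :=
  rgn_of b5_19_0 b5_19_1 (Or.inr b5_19_2) (Or.inr b5_19_3)

private theorem b5_20_0 : FaceH ⟨262144, 533771, 0, 196481, 0⟩
    ⟨222425, 446464, 0, 196481, 0⟩ :=
  faceH_of (n := 60) (x1 := 812224) (y1 := 845390) (r0 := 156001) (r1 := 5843493)
    (by decide +kernel) (by decide +kernel)

private theorem b5_20_1 : FaceH ⟨222425, 446464, 0, 196481, 0⟩
    ⟨262144, 533771, 0, 196481, 0⟩ :=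
  faceH_of (n := 60) (x1 := 845390) (y1 := 812224) (r0 := 188160) (r1 := 7048085)
    (by decide +kernel) (by decide +kernel)

private theorem b5_20_2 : FaceV ⟨262144, 533771, 0, 196481, 0⟩
    ⟨222425, 446464, 0, 196481, 0⟩ :=
  faceV_of (n := 60) (x1 := 812224) (y1 := 845390) (r0 := 156001) (r1 := 5843493)
    (by decide +kernel) (by decide +kernel) (by decide +kernel)

private theorem b5_20_3 : FaceV ⟨222425, 446464, 0, 196481, 0⟩
    ⟨262144, 533771, 0, 196481, 0⟩ :=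
  faceV_of (n := 60) (x1 := 845390) (y1 := 812224) (r0 := 188160) (r1 := 7048085)
    (by decide +kernel) (by decide +kernel) (by decide +kernel)

private theorem b5_u20 : VD ⟨262144, 533771, 0, 196481, 0⟩ (3 / 5) (7 / 25) (67 / 200) :=
  ⟨by decide +kernel, by norm_num, by norm_num [R], cu_67_200, Or.inr cl_7_25⟩

private theorem b5_v20 : VD ⟨222425, 446464, 0, 196481, 0⟩ (13 / 20) (7 / 25) (8 / 25) :=
  ⟨by decide +kernel, by norm_num, by norm_num [R], cu_8_25, Or.inr cl_7_25⟩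

private theorem b5_20 : Rgn ⟨262144, 533771, 0, 196481, 0⟩
    ⟨222425, 446464, 0, 196481, 0⟩ :=
  rgn_of b5_20_0 b5_20_1 (Or.inr b5_20_2) (Or.inr b5_20_3)

theorem flat_b5 {θ θ' : ℝ} {v w : ℂ} (h : T2.Pr θ θ' v w)
    (j : J3 (Real.tan θ ^ 2) (Real.tan θ' ^ 2)) (j' : J3 (Real.tan θ' ^ 2) (Real.tan θ ^ 2))
    (t1 : Real.tan θ ^ 2 < 1) (t2 : Real.tan θ' ^ 2 < 1)
    (h1 : 7 / 25 ≤ v.re) (h2 : v.re ≤ 67 / 200) (h3 : 7 / 25 ≤ w.re) (h4 : w.re ≤ 8 / 25) :
    FlatM (1 / cos (Real.pi * v) ^ 2) (1 / cos (Real.pi * (starRingEnd ℂ) w) ^ 2) := by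
  rcases j.c22 j' t1 t2 with (⟨a, b⟩ | ⟨a, b⟩ | ⟨a, b⟩ | ⟨a, b⟩ | ⟨a, b⟩ | ⟨a, b⟩ | ⟨a, b⟩ | ⟨a, b⟩ | ⟨a, b⟩ | ⟨a, b⟩) |
    (⟨a, b⟩ | ⟨a, b⟩ | ⟨a, b⟩ | ⟨a, b⟩ | ⟨a, b⟩ | ⟨a, b⟩ | ⟨a, b⟩ | ⟨a, b⟩ | ⟨a, b⟩ | ⟨a, b⟩) | ⟨a, b⟩
  · exact b5_0.flatM b5_u0 b5_v0 h a b t1 t2 h1 h2 h3 h4
      (by norm_num) (by norm_num) (by norm_num) (by norm_num)
  · exact b5_1.flatM b5_u1 b5_v1 h a b t1 t2 h1 h2 h3 h4
      (by norm_num) (by norm_num) (by norm_num) (by norm_num)
  · exact b5_2.flatM b5_u2 b5_v2 h a b t1 t2 h1 h2 h3 h4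
      (by norm_num) (by norm_num) (by norm_num) (by norm_num)
  · exact b5_6.flatM b5_u6 b5_v6 h a b t1 t2 h1 h2 h3 h4
      (by norm_num) (by norm_num) (by norm_num) (by norm_num)
  · exact b5_7.flatM b5_u7 b5_v7 h a b t1 t2 h1 h2 h3 h4
      (by norm_num) (by norm_num) (by norm_num) (by norm_num)
  · exact b5_8.flatM b5_u8 b5_v8 h a b t1 t2 h1 h2 h3 h4
      (by norm_num) (by norm_num) (by norm_num) (by norm_num)
  · exact b5_9.flatM b5_u9 b5_v9 h a b t1 t2 h1 h2 h3 h4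
      (by norm_num) (by norm_num) (by norm_num) (by norm_num)
  · exact b5_10.flatM b5_u10 b5_v10 h a b t1 t2 h1 h2 h3 h4
      (by norm_num) (by norm_num) (by norm_num) (by norm_num)
  · exact b5_11.flatM b5_u11 b5_v11 h a b t1 t2 h1 h2 h3 h4
      (by norm_num) (by norm_num) (by norm_num) (by norm_num)
  · exact b5_12.flatM b5_u12 b5_v12 h a b t1 t2 h1 h2 h3 h4
      (by norm_num) (by norm_num) (by norm_num) (by norm_num)
  · exact b5_3.flatM b5_u3 b5_v3 h b a t1 t2 h1 h2 h3 h4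
      (by norm_num) (by norm_num) (by norm_num) (by norm_num)
  · exact b5_4.flatM b5_u4 b5_v4 h b a t1 t2 h1 h2 h3 h4
      (by norm_num) (by norm_num) (by norm_num) (by norm_num)
  · exact b5_5.flatM b5_u5 b5_v5 h b a t1 t2 h1 h2 h3 h4
      (by norm_num) (by norm_num) (by norm_num) (by norm_num)
  · exact b5_14.flatM b5_u14 b5_v14 h b a t1 t2 h1 h2 h3 h4
      (by norm_num) (by norm_num) (by norm_num) (by norm_num)
  · exact b5_15.flatM b5_u15 b5_v15 h b a t1 t2 h1 h2 h3 h4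
      (by norm_num) (by norm_num) (by norm_num) (by norm_num)
  · exact b5_16.flatM b5_u16 b5_v16 h b a t1 t2 h1 h2 h3 h4
      (by norm_num) (by norm_num) (by norm_num) (by norm_num)
  · exact b5_17.flatM b5_u17 b5_v17 h b a t1 t2 h1 h2 h3 h4
      (by norm_num) (by norm_num) (by norm_num) (by norm_num)
  · exact b5_18.flatM b5_u18 b5_v18 h b a t1 t2 h1 h2 h3 h4
      (by norm_num) (by norm_num) (by norm_num) (by norm_num)
  · exact b5_19.flatM b5_u19 b5_v19 h b a t1 t2 h1 h2 h3 h4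
      (by norm_num) (by norm_num) (by norm_num) (by norm_num)
  · exact b5_20.flatM b5_u20 b5_v20 h b a t1 t2 h1 h2 h3 h4
      (by norm_num) (by norm_num) (by norm_num) (by norm_num)
  · exact b5_13.flatM b5_u13 b5_v13 h a b t1 t2 h1 h2 h3 h4
      (by norm_num) (by norm_num) (by norm_num) (by norm_num)

end Pool.Agent.S3.Ck
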