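import Pool.Agent.S3.Ck.Cos
import Pool.Agent.S3.Ck.SoundG

/-!
# Flats: b7
-/

set_option autoImplicit false
set_option maxRecDepth 100000

namespace Pool.Agent.S3.Ck

open Complex

private theorem b7_0_0 : FaceH ⟨0, 642682, 0, 533766, 0⟩
    ⟨857925, 642682, 0, 533766, 0⟩ :=
  faceH_of (n := 60) (x1 := 1048576) (y1 := 331590) (r0 := 184497) (r1 := 10835456)
    (by decide +kernel) (by decide +kernel)

private theorem b7_0_1 : FaceH ⟨857925, 642682, 0, 533766, 0⟩
    ⟨0, 642682, 0, 533766, 0⟩ :=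
  faceH_of (n := 60) (x1 := 331590) (y1 := 1048576) (r0 := 101473) (r1 := 5959504)
    (by decide +kernel) (by decide +kernel)

private theorem b7_0_2 : FaceV ⟨0, 642682, 0, 533766, 0⟩
    ⟨857925, 642682, 0, 533766, 0⟩ :=
  faceV_of (n := 60) (x1 := 1048576) (y1 := 331590) (r0 := 184497) (r1 := 10835456)
    (by decide +kernel) (by decide +kernel) (by decide +kernel)

private theorem b7_0_3 : FaceV ⟨857925, 642682, 0, 533766, 0⟩
    ⟨0, 642682, 0, 533766, 0⟩ :=
  faceV_of (n := 60) (x1 := 331590) (y1 := 1048576) (r0 := 101473) (r1 := 5959504)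
    (by decide +kernel) (by decide +kernel) (by decide +kernel)

private theorem b7_u0 : VD ⟨0, 642682, 0, 533766, 0⟩ 1 (67 / 200) (71 / 200) :=
  ⟨by decide +kernel, by norm_num, by norm_num [R], cu_71_200, Or.inr cl_67_200⟩

private theorem b7_v0 : VD ⟨857925, 642682, 0, 533766, 0⟩ (1 / 10) (67 / 200) (71 / 200) :=
  ⟨by decide +kernel, by norm_num, by norm_num [R], cu_71_200, Or.inr cl_67_200⟩

private theorem b7_0 : Rgn ⟨0, 642682, 0, 533766, 0⟩
    ⟨857925, 642682, 0, 533766, 0⟩ :=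
  rgn_of b7_0_0 b7_0_1 (Or.inr b7_0_2) (Or.inr b7_0_3)

private theorem b7_1_0 : FaceH ⟨32430, 642682, 0, 533766, 0⟩
    ⟨699050, 642682, 0, 533766, 0⟩ :=
  faceH_of (n := 60) (x1 := 1016633) (y1 := 468938) (r0 := 169122) (r1 := 10510394)
    (by decide +kernel) (by decide +kernel)

private theorem b7_1_1 : FaceH ⟨699050, 642682, 0, 533766, 0⟩
    ⟨32430, 642682, 0, 533766, 0⟩ :=
  faceH_of (n := 60) (x1 := 468938) (y1 := 1016633) (r0 := 104611) (r1 := 6501276)
    (by decide +kernel) (by decide +kernel)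

private theorem b7_1_2 : FaceV ⟨32430, 642682, 0, 533766, 0⟩
    ⟨699050, 642682, 0, 533766, 0⟩ :=
  faceV_of (n := 60) (x1 := 1016633) (y1 := 468938) (r0 := 169122) (r1 := 10510394)
    (by decide +kernel) (by decide +kernel) (by decide +kernel)

private theorem b7_1_3 : FaceV ⟨699050, 642682, 0, 533766, 0⟩
    ⟨32430, 642682, 0, 533766, 0⟩ :=
  faceV_of (n := 60) (x1 := 468938) (y1 := 1016633) (r0 := 104611) (r1 := 6501276)
    (by decide +kernel) (by decide +kernel) (by decide +kernel)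

private theorem b7_u1 : VD ⟨32430, 642682, 0, 533766, 0⟩ (47 / 50) (67 / 200) (71 / 200) :=
  ⟨by decide +kernel, by norm_num, by norm_num [R], cu_71_200, Or.inr cl_67_200⟩

private theorem b7_v1 : VD ⟨699050, 642682, 0, 533766, 0⟩ (1 / 5) (67 / 200) (71 / 200) :=
  ⟨by decide +kernel, by norm_num, by norm_num [R], cu_71_200, Or.inr cl_67_200⟩

private theorem b7_1 : Rgn ⟨32430, 642682, 0, 533766, 0⟩
    ⟨699050, 642682, 0, 533766, 0⟩ :=
  rgn_of b7_1_0 b7_1_1 (Or.inr b7_1_2) (Or.inr b7_1_3)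

private theorem b7_2_0 : FaceH ⟨85019, 642682, 0, 533766, 0⟩
    ⟨629145, 642682, 0, 533766, 0⟩ :=
  faceH_of (n := 60) (x1 := 966740) (y1 := 524289) (r0 := 162357) (r1 := 10022803)
    (by decide +kernel) (by decide +kernel)

private theorem b7_2_1 : FaceH ⟨629145, 642682, 0, 533766, 0⟩
    ⟨85019, 642682, 0, 533766, 0⟩ :=
  faceH_of (n := 60) (x1 := 524289) (y1 := 966740) (r0 := 109701) (r1 := 6772163)
    (by decide +kernel) (by decide +kernel)

private theorem b7_2_2 : FaceV ⟨85019, 642682, 0, 533766, 0⟩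
    ⟨629145, 642682, 0, 533766, 0⟩ :=
  faceV_of (n := 60) (x1 := 966740) (y1 := 524289) (r0 := 162357) (r1 := 10022803)
    (by decide +kernel) (by decide +kernel) (by decide +kernel)

private theorem b7_2_3 : FaceV ⟨629145, 642682, 0, 533766, 0⟩
    ⟨85019, 642682, 0, 533766, 0⟩ :=
  faceV_of (n := 60) (x1 := 524289) (y1 := 966740) (r0 := 109701) (r1 := 6772163)
    (by decide +kernel) (by decide +kernel) (by decide +kernel)

private theorem b7_u2 : VD ⟨85019, 642682, 0, 533766, 0⟩ (17 / 20) (67 / 200) (71 / 200) :=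
  ⟨by decide +kernel, by norm_num, by norm_num [R], cu_71_200, Or.inr cl_67_200⟩

private theorem b7_v2 : VD ⟨629145, 642682, 0, 533766, 0⟩ (1 / 4) (67 / 200) (71 / 200) :=
  ⟨by decide +kernel, by norm_num, by norm_num [R], cu_71_200, Or.inr cl_67_200⟩

private theorem b7_2 : Rgn ⟨85019, 642682, 0, 533766, 0⟩
    ⟨629145, 642682, 0, 533766, 0⟩ :=
  rgn_of b7_2_0 b7_2_1 (Or.inr b7_2_2) (Or.inr b7_2_3)

private theorem b7_3_0 : FaceH ⟨857925, 642682, 0, 533766, 0⟩
    ⟨0, 642682, 0, 533766, 0⟩ :=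
  faceH_of (n := 60) (x1 := 331590) (y1 := 1048576) (r0 := 101473) (r1 := 5959504)
    (by decide +kernel) (by decide +kernel)

private theorem b7_3_1 : FaceH ⟨0, 642682, 0, 533766, 0⟩
    ⟨857925, 642682, 0, 533766, 0⟩ :=
  faceH_of (n := 60) (x1 := 1048576) (y1 := 331590) (r0 := 184497) (r1 := 10835456)
    (by decide +kernel) (by decide +kernel)

private theorem b7_3_2 : FaceV ⟨857925, 642682, 0, 533766, 0⟩
    ⟨0, 642682, 0, 533766, 0⟩ :=
  faceV_of (n := 60) (x1 := 331590) (y1 := 1048576) (r0 := 101473) (r1 := 5959504)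
    (by decide +kernel) (by decide +kernel) (by decide +kernel)

private theorem b7_3_3 : FaceV ⟨0, 642682, 0, 533766, 0⟩
    ⟨857925, 642682, 0, 533766, 0⟩ :=
  faceV_of (n := 60) (x1 := 1048576) (y1 := 331590) (r0 := 184497) (r1 := 10835456)
    (by decide +kernel) (by decide +kernel) (by decide +kernel)

private theorem b7_u3 : VD ⟨857925, 642682, 0, 533766, 0⟩ (1 / 10) (67 / 200) (71 / 200) :=
  ⟨by decide +kernel, by norm_num, by norm_num [R], cu_71_200, Or.inr cl_67_200⟩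

private theorem b7_v3 : VD ⟨0, 642682, 0, 533766, 0⟩ 1 (67 / 200) (71 / 200) :=
  ⟨by decide +kernel, by norm_num, by norm_num [R], cu_71_200, Or.inr cl_67_200⟩

private theorem b7_3 : Rgn ⟨857925, 642682, 0, 533766, 0⟩
    ⟨0, 642682, 0, 533766, 0⟩ :=
  rgn_of b7_3_0 b7_3_1 (Or.inr b7_3_2) (Or.inr b7_3_3)

private theorem b7_4_0 : FaceH ⟨699050, 642682, 0, 533766, 0⟩
    ⟨32430, 642682, 0, 533766, 0⟩ :=
  faceH_of (n := 60) (x1 := 468938) (y1 := 1016633) (r0 := 104611) (r1 := 6501276)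
    (by decide +kernel) (by decide +kernel)

private theorem b7_4_1 : FaceH ⟨32430, 642682, 0, 533766, 0⟩
    ⟨699050, 642682, 0, 533766, 0⟩ :=
  faceH_of (n := 60) (x1 := 1016633) (y1 := 468938) (r0 := 169122) (r1 := 10510394)
    (by decide +kernel) (by decide +kernel)

private theorem b7_4_2 : FaceV ⟨699050, 642682, 0, 533766, 0⟩
    ⟨32430, 642682, 0, 533766, 0⟩ :=
  faceV_of (n := 60) (x1 := 468938) (y1 := 1016633) (r0 := 104611) (r1 := 6501276)
    (by decide +kernel) (by decide +kernel) (by decide +kernel)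

private theorem b7_4_3 : FaceV ⟨32430, 642682, 0, 533766, 0⟩
    ⟨699050, 642682, 0, 533766, 0⟩ :=
  faceV_of (n := 60) (x1 := 1016633) (y1 := 468938) (r0 := 169122) (r1 := 10510394)
    (by decide +kernel) (by decide +kernel) (by decide +kernel)

private theorem b7_u4 : VD ⟨699050, 642682, 0, 533766, 0⟩ (1 / 5) (67 / 200) (71 / 200) :=
  ⟨by decide +kernel, by norm_num, by norm_num [R], cu_71_200, Or.inr cl_67_200⟩

private theorem b7_v4 : VD ⟨32430, 642682, 0, 533766, 0⟩ (47 / 50) (67 / 200) (71 / 200) :=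
  ⟨by decide +kernel, by norm_num, by norm_num [R], cu_71_200, Or.inr cl_67_200⟩

private theorem b7_4 : Rgn ⟨699050, 642682, 0, 533766, 0⟩
    ⟨32430, 642682, 0, 533766, 0⟩ :=
  rgn_of b7_4_0 b7_4_1 (Or.inr b7_4_2) (Or.inr b7_4_3)

private theorem b7_5_0 : FaceH ⟨629145, 642682, 0, 533766, 0⟩
    ⟨85019, 642682, 0, 533766, 0⟩ :=
  faceH_of (n := 60) (x1 := 524289) (y1 := 966740) (r0 := 109701) (r1 := 6772163)
    (by decide +kernel) (by decide +kernel)

private theorem b7_5_1 : FaceH ⟨85019, 642682, 0, 533766, 0⟩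
    ⟨629145, 642682, 0, 533766, 0⟩ :=
  faceH_of (n := 60) (x1 := 966740) (y1 := 524289) (r0 := 162357) (r1 := 10022803)
    (by decide +kernel) (by decide +kernel)

private theorem b7_5_2 : FaceV ⟨629145, 642682, 0, 533766, 0⟩
    ⟨85019, 642682, 0, 533766, 0⟩ :=
  faceV_of (n := 60) (x1 := 524289) (y1 := 966740) (r0 := 109701) (r1 := 6772163)
    (by decide +kernel) (by decide +kernel) (by decide +kernel)

private theorem b7_5_3 : FaceV ⟨85019, 642682, 0, 533766, 0⟩
    ⟨629145, 642682, 0, 533766, 0⟩ :=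
  faceV_of (n := 60) (x1 := 966740) (y1 := 524289) (r0 := 162357) (r1 := 10022803)
    (by decide +kernel) (by decide +kernel) (by decide +kernel)

private theorem b7_u5 : VD ⟨629145, 642682, 0, 533766, 0⟩ (1 / 4) (67 / 200) (71 / 200) :=
  ⟨by decide +kernel, by norm_num, by norm_num [R], cu_71_200, Or.inr cl_67_200⟩

private theorem b7_v5 : VD ⟨85019, 642682, 0, 533766, 0⟩ (17 / 20) (67 / 200) (71 / 200) :=
  ⟨by decide +kernel, by norm_num, by norm_num [R], cu_71_200, Or.inr cl_67_200⟩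

private theorem b7_5 : Rgn ⟨629145, 642682, 0, 533766, 0⟩
    ⟨85019, 642682, 0, 533766, 0⟩ :=
  rgn_of b7_5_0 b7_5_1 (Or.inr b7_5_2) (Or.inr b7_5_3)

private theorem b7_6_0 : FaceH ⟨110071, 642682, 0, 533766, 0⟩
    ⟨564617, 642682, 0, 533766, 0⟩ :=
  faceH_of (n := 60) (x1 := 943719) (y1 := 574330) (r0 := 156112) (r1 := 9806092)
    (by decide +kernel) (by decide +kernel)

private theorem b7_6_1 : FaceH ⟨564617, 642682, 0, 533766, 0⟩
    ⟨110071, 642682, 0, 533766, 0⟩ :=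
  faceH_of (n := 60) (x1 := 574330) (y1 := 943719) (r0 := 112125) (r1 := 7043050)
    (by decide +kernel) (by decide +kernel)

private theorem b7_6_2 : FaceV ⟨110071, 642682, 0, 533766, 0⟩
    ⟨564617, 642682, 0, 533766, 0⟩ :=
  faceV_of (n := 60) (x1 := 943719) (y1 := 574330) (r0 := 156112) (r1 := 9806092)
    (by decide +kernel) (by decide +kernel) (by decide +kernel)

private theorem b7_6_3 : FaceV ⟨564617, 642682, 0, 533766, 0⟩
    ⟨110071, 642682, 0, 533766, 0⟩ :=
  faceV_of (n := 60) (x1 := 574330) (y1 := 943719) (r0 := 112125) (r1 := 7043050)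
    (by decide +kernel) (by decide +kernel) (by decide +kernel)

private theorem b7_u6 : VD ⟨110071, 642682, 0, 533766, 0⟩ (81 / 100) (67 / 200) (71 / 200) :=
  ⟨by decide +kernel, by norm_num, by norm_num [R], cu_71_200, Or.inr cl_67_200⟩

private theorem b7_v6 : VD ⟨564617, 642682, 0, 533766, 0⟩ (3 / 10) (67 / 200) (71 / 200) :=
  ⟨by decide +kernel, by norm_num, by norm_num [R], cu_71_200, Or.inr cl_67_200⟩

private theorem b7_6 : Rgn ⟨110071, 642682, 0, 533766, 0⟩
    ⟨564617, 642682, 0, 533766, 0⟩ :=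
  rgn_of b7_6_0 b7_6_1 (Or.inr b7_6_2) (Or.inr b7_6_3)

private theorem b7_7_0 : FaceH ⟨132918, 642682, 0, 533766, 0⟩
    ⟨504869, 642682, 0, 533766, 0⟩ :=
  faceH_of (n := 60) (x1 := 923105) (y1 := 620347) (r0 := 150331) (r1 := 9616468)
    (by decide +kernel) (by decide +kernel)

private theorem b7_7_1 : FaceH ⟨504869, 642682, 0, 533766, 0⟩
    ⟨132918, 642682, 0, 533766, 0⟩ :=
  faceH_of (n := 60) (x1 := 620347) (y1 := 923105) (r0 := 114336) (r1 := 7313938)
    (by decide +kernel) (by decide +kernel)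

private theorem b7_7_2 : FaceV ⟨132918, 642682, 0, 533766, 0⟩
    ⟨504869, 642682, 0, 533766, 0⟩ :=
  faceV_of (n := 60) (x1 := 923105) (y1 := 620347) (r0 := 150331) (r1 := 9616468)
    (by decide +kernel) (by decide +kernel) (by decide +kernel)

private theorem b7_7_3 : FaceV ⟨504869, 642682, 0, 533766, 0⟩
    ⟨132918, 642682, 0, 533766, 0⟩ :=
  faceV_of (n := 60) (x1 := 620347) (y1 := 923105) (r0 := 114336) (r1 := 7313938)
    (by decide +kernel) (by decide +kernel) (by decide +kernel)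

private theorem b7_u7 : VD ⟨132918, 642682, 0, 533766, 0⟩ (31 / 40) (67 / 200) (71 / 200) :=
  ⟨by decide +kernel, by norm_num, by norm_num [R], cu_71_200, Or.inr cl_67_200⟩

private theorem b7_v7 : VD ⟨504869, 642682, 0, 533766, 0⟩ (7 / 20) (67 / 200) (71 / 200) :=
  ⟨by decide +kernel, by norm_num, by norm_num [R], cu_71_200, Or.inr cl_67_200⟩

private theorem b7_7 : Rgn ⟨132918, 642682, 0, 533766, 0⟩
    ⟨504869, 642682, 0, 533766, 0⟩ :=
  rgn_of b7_7_0 b7_7_1 (Or.inr b7_7_2) (Or.inr b7_7_3)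

private theorem b7_8_0 : FaceH ⟨153230, 642682, 0, 533766, 0⟩
    ⟨449389, 642682, 0, 533766, 0⟩ :=
  faceH_of (n := 60) (x1 := 905062) (y1 := 663179) (r0 := 144962) (r1 := 9453938)
    (by decide +kernel) (by decide +kernel)

private theorem b7_8_1 : FaceH ⟨449389, 642682, 0, 533766, 0⟩
    ⟨153230, 642682, 0, 533766, 0⟩ :=
  faceH_of (n := 60) (x1 := 663179) (y1 := 905062) (r0 := 116301) (r1 := 7584823)
    (by decide +kernel) (by decide +kernel)

private theorem b7_8_2 : FaceV ⟨153230, 642682, 0, 533766, 0⟩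
    ⟨449389, 642682, 0, 533766, 0⟩ :=
  faceV_of (n := 60) (x1 := 905062) (y1 := 663179) (r0 := 144962) (r1 := 9453938)
    (by decide +kernel) (by decide +kernel) (by decide +kernel)

private theorem b7_8_3 : FaceV ⟨449389, 642682, 0, 533766, 0⟩
    ⟨153230, 642682, 0, 533766, 0⟩ :=
  faceV_of (n := 60) (x1 := 663179) (y1 := 905062) (r0 := 116301) (r1 := 7584823)
    (by decide +kernel) (by decide +kernel) (by decide +kernel)

private theorem b7_u8 : VD ⟨153230, 642682, 0, 533766, 0⟩ (149 / 200) (67 / 200) (71 / 200) :=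
  ⟨by decide +kernel, by norm_num, by norm_num [R], cu_71_200, Or.inr cl_67_200⟩

private theorem b7_v8 : VD ⟨449389, 642682, 0, 533766, 0⟩ (2 / 5) (67 / 200) (71 / 200) :=
  ⟨by decide +kernel, by norm_num, by norm_num [R], cu_71_200, Or.inr cl_67_200⟩

private theorem b7_8 : Rgn ⟨153230, 642682, 0, 533766, 0⟩
    ⟨449389, 642682, 0, 533766, 0⟩ :=
  rgn_of b7_8_0 b7_8_1 (Or.inr b7_8_2) (Or.inr b7_8_3)

private theorem b7_9_0 : FaceH ⟨174253, 642682, 0, 533766, 0⟩
    ⟨397735, 642682, 0, 533766, 0⟩ :=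
  faceH_of (n := 60) (x1 := 886652) (y1 := 703407) (r0 := 139963) (r1 := 9291405)
    (by decide +kernel) (by decide +kernel)

private theorem b7_9_1 : FaceH ⟨397735, 642682, 0, 533766, 0⟩
    ⟨174253, 642682, 0, 533766, 0⟩ :=
  faceH_of (n := 60) (x1 := 703407) (y1 := 886652) (r0 := 118336) (r1 := 7855710)
    (by decide +kernel) (by decide +kernel)

private theorem b7_9_2 : FaceV ⟨174253, 642682, 0, 533766, 0⟩
    ⟨397735, 642682, 0, 533766, 0⟩ :=
  faceV_of (n := 60) (x1 := 886652) (y1 := 703407) (r0 := 139963) (r1 := 9291405)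
    (by decide +kernel) (by decide +kernel) (by decide +kernel)

private theorem b7_9_3 : FaceV ⟨397735, 642682, 0, 533766, 0⟩
    ⟨174253, 642682, 0, 533766, 0⟩ :=
  faceV_of (n := 60) (x1 := 703407) (y1 := 886652) (r0 := 118336) (r1 := 7855710)
    (by decide +kernel) (by decide +kernel) (by decide +kernel)

private theorem b7_u9 : VD ⟨174253, 642682, 0, 533766, 0⟩ (143 / 200) (67 / 200) (71 / 200) :=
  ⟨by decide +kernel, by norm_num, by norm_num [R], cu_71_200, Or.inr cl_67_200⟩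

private theorem b7_v9 : VD ⟨397735, 642682, 0, 533766, 0⟩ (9 / 20) (67 / 200) (71 / 200) :=
  ⟨by decide +kernel, by norm_num, by norm_num [R], cu_71_200, Or.inr cl_67_200⟩

private theorem b7_9 : Rgn ⟨174253, 642682, 0, 533766, 0⟩
    ⟨397735, 642682, 0, 533766, 0⟩ :=
  rgn_of b7_9_0 b7_9_1 (Or.inr b7_9_2) (Or.inr b7_9_3)

private theorem b7_10_0 : FaceH ⟨192342, 642682, 0, 533766, 0⟩
    ⟨349525, 642682, 0, 533766, 0⟩ :=
  faceH_of (n := 60) (x1 := 871013) (y1 := 741456) (r0 := 135297) (r1 := 9155963)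
    (by decide +kernel) (by decide +kernel)

private theorem b7_10_1 : FaceH ⟨349525, 642682, 0, 533766, 0⟩
    ⟨192342, 642682, 0, 533766, 0⟩ :=
  faceH_of (n := 60) (x1 := 741456) (y1 := 871013) (r0 := 120086) (r1 := 8126594)
    (by decide +kernel) (by decide +kernel)

private theorem b7_10_2 : FaceV ⟨192342, 642682, 0, 533766, 0⟩
    ⟨349525, 642682, 0, 533766, 0⟩ :=
  faceV_of (n := 60) (x1 := 871013) (y1 := 741456) (r0 := 135297) (r1 := 9155963)
    (by decide +kernel) (by decide +kernel) (by decide +kernel)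

private theorem b7_10_3 : FaceV ⟨349525, 642682, 0, 533766, 0⟩
    ⟨192342, 642682, 0, 533766, 0⟩ :=
  faceV_of (n := 60) (x1 := 741456) (y1 := 871013) (r0 := 120086) (r1 := 8126594)
    (by decide +kernel) (by decide +kernel) (by decide +kernel)

private theorem b7_u10 : VD ⟨192342, 642682, 0, 533766, 0⟩ (69 / 100) (67 / 200) (71 / 200) :=
  ⟨by decide +kernel, by norm_num, by norm_num [R], cu_71_200, Or.inr cl_67_200⟩

private theorem b7_v10 : VD ⟨349525, 642682, 0, 533766, 0⟩ (1 / 2) (67 / 200) (71 / 200) :=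
  ⟨by decide +kernel, by norm_num, by norm_num [R], cu_71_200, Or.inr cl_67_200⟩

private theorem b7_10 : Rgn ⟨192342, 642682, 0, 533766, 0⟩
    ⟨349525, 642682, 0, 533766, 0⟩ :=
  rgn_of b7_10_0 b7_10_1 (Or.inr b7_10_2) (Or.inr b7_10_3)

private theorem b7_11_0 : FaceH ⟨207203, 642682, 0, 533766, 0⟩
    ⟨304425, 642682, 0, 533766, 0⟩ :=
  faceH_of (n := 60) (x1 := 858297) (y1 := 777646) (r0 := 130933) (r1 := 9047611)
    (by decide +kernel) (by decide +kernel)

private theorem b7_11_1 : FaceH ⟨304425, 642682, 0, 533766, 0⟩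
    ⟨207203, 642682, 0, 533766, 0⟩ :=
  faceH_of (n := 60) (x1 := 777646) (y1 := 858297) (r0 := 121525) (r1 := 8397481)
    (by decide +kernel) (by decide +kernel)

private theorem b7_11_2 : FaceV ⟨207203, 642682, 0, 533766, 0⟩
    ⟨304425, 642682, 0, 533766, 0⟩ :=
  faceV_of (n := 60) (x1 := 858297) (y1 := 777646) (r0 := 130933) (r1 := 9047611)
    (by decide +kernel) (by decide +kernel) (by decide +kernel)

private theorem b7_11_3 : FaceV ⟨304425, 642682, 0, 533766, 0⟩
    ⟨207203, 642682, 0, 533766, 0⟩ :=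
  faceV_of (n := 60) (x1 := 777646) (y1 := 858297) (r0 := 121525) (r1 := 8397481)
    (by decide +kernel) (by decide +kernel) (by decide +kernel)

private theorem b7_u11 : VD ⟨207203, 642682, 0, 533766, 0⟩ (67 / 100) (67 / 200) (71 / 200) :=
  ⟨by decide +kernel, by norm_num, by norm_num [R], cu_71_200, Or.inr cl_67_200⟩

private theorem b7_v11 : VD ⟨304425, 642682, 0, 533766, 0⟩ (11 / 20) (67 / 200) (71 / 200) :=
  ⟨by decide +kernel, by norm_num, by norm_num [R], cu_71_200, Or.inr cl_67_200⟩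

private theorem b7_11 : Rgn ⟨207203, 642682, 0, 533766, 0⟩
    ⟨304425, 642682, 0, 533766, 0⟩ :=
  rgn_of b7_11_0 b7_11_1 (Or.inr b7_11_2) (Or.inr b7_11_3)

private theorem b7_12_0 : FaceH ⟨222425, 642682, 0, 533766, 0⟩
    ⟨262144, 642682, 0, 533766, 0⟩ :=
  faceH_of (n := 60) (x1 := 845390) (y1 := 812224) (r0 := 126841) (r1 := 8939253)
    (by decide +kernel) (by decide +kernel)

private theorem b7_12_1 : FaceH ⟨262144, 642682, 0, 533766, 0⟩
    ⟨222425, 642682, 0, 533766, 0⟩ :=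
  faceH_of (n := 60) (x1 := 812224) (y1 := 845390) (r0 := 122998) (r1 := 8668365)
    (by decide +kernel) (by decide +kernel)

private theorem b7_12_2 : FaceV ⟨222425, 642682, 0, 533766, 0⟩
    ⟨262144, 642682, 0, 533766, 0⟩ :=
  faceV_of (n := 60) (x1 := 845390) (y1 := 812224) (r0 := 126841) (r1 := 8939253)
    (by decide +kernel) (by decide +kernel) (by decide +kernel)

private theorem b7_12_3 : FaceV ⟨262144, 642682, 0, 533766, 0⟩
    ⟨222425, 642682, 0, 533766, 0⟩ :=
  faceV_of (n := 60) (x1 := 812224) (y1 := 845390) (r0 := 122998) (r1 := 8668365)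
    (by decide +kernel) (by decide +kernel) (by decide +kernel)

private theorem b7_u12 : VD ⟨222425, 642682, 0, 533766, 0⟩ (13 / 20) (67 / 200) (71 / 200) :=
  ⟨by decide +kernel, by norm_num, by norm_num [R], cu_71_200, Or.inr cl_67_200⟩

private theorem b7_v12 : VD ⟨262144, 642682, 0, 533766, 0⟩ (3 / 5) (67 / 200) (71 / 200) :=
  ⟨by decide +kernel, by norm_num, by norm_num [R], cu_71_200, Or.inr cl_67_200⟩

private theorem b7_12 : Rgn ⟨222425, 642682, 0, 533766, 0⟩
    ⟨262144, 642682, 0, 533766, 0⟩ :=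
  rgn_of b7_12_0 b7_12_1 (Or.inr b7_12_2) (Or.inr b7_12_3)

private theorem b7_13_0 : FaceH ⟨234085, 642682, 0, 533766, 0⟩
    ⟨234085, 642682, 0, 533766, 0⟩ :=
  faceH_of (n := 60) (x1 := 835579) (y1 := 835579) (r0 := 124126) (r1 := 8857991)
    (by decide +kernel) (by decide +kernel)

private theorem b7_13_1 : FaceH ⟨234085, 642682, 0, 533766, 0⟩
    ⟨234085, 642682, 0, 533766, 0⟩ :=
  faceH_of (n := 60) (x1 := 835579) (y1 := 835579) (r0 := 124126) (r1 := 8857991)
    (by decide +kernel) (by decide +kernel)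

private theorem b7_13_2 : FaceV ⟨234085, 642682, 0, 533766, 0⟩
    ⟨234085, 642682, 0, 533766, 0⟩ :=
  faceV_of (n := 60) (x1 := 835579) (y1 := 835579) (r0 := 124126) (r1 := 8857991)
    (by decide +kernel) (by decide +kernel) (by decide +kernel)

private theorem b7_13_3 : FaceV ⟨234085, 642682, 0, 533766, 0⟩
    ⟨234085, 642682, 0, 533766, 0⟩ :=
  faceV_of (n := 60) (x1 := 835579) (y1 := 835579) (r0 := 124126) (r1 := 8857991)
    (by decide +kernel) (by decide +kernel) (by decide +kernel)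

private theorem b7_u13 : VD ⟨234085, 642682, 0, 533766, 0⟩ (127 / 200) (67 / 200) (71 / 200) :=
  ⟨by decide +kernel, by norm_num, by norm_num [R], cu_71_200, Or.inr cl_67_200⟩

private theorem b7_v13 : VD ⟨234085, 642682, 0, 533766, 0⟩ (127 / 200) (67 / 200) (71 / 200) :=
  ⟨by decide +kernel, by norm_num, by norm_num [R], cu_71_200, Or.inr cl_67_200⟩

private theorem b7_13 : Rgn ⟨234085, 642682, 0, 533766, 0⟩
    ⟨234085, 642682, 0, 533766, 0⟩ :=
  rgn_of b7_13_0 b7_13_1 (Or.inr b7_13_2) (Or.inr b7_13_3)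

private theorem b7_14_0 : FaceH ⟨564617, 642682, 0, 533766, 0⟩
    ⟨110071, 642682, 0, 533766, 0⟩ :=
  faceH_of (n := 60) (x1 := 574330) (y1 := 943719) (r0 := 112125) (r1 := 7043050)
    (by decide +kernel) (by decide +kernel)

private theorem b7_14_1 : FaceH ⟨110071, 642682, 0, 533766, 0⟩
    ⟨564617, 642682, 0, 533766, 0⟩ :=
  faceH_of (n := 60) (x1 := 943719) (y1 := 574330) (r0 := 156112) (r1 := 9806092)
    (by decide +kernel) (by decide +kernel)

private theorem b7_14_2 : FaceV ⟨564617, 642682, 0, 533766, 0⟩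
    ⟨110071, 642682, 0, 533766, 0⟩ :=
  faceV_of (n := 60) (x1 := 574330) (y1 := 943719) (r0 := 112125) (r1 := 7043050)
    (by decide +kernel) (by decide +kernel) (by decide +kernel)

private theorem b7_14_3 : FaceV ⟨110071, 642682, 0, 533766, 0⟩
    ⟨564617, 642682, 0, 533766, 0⟩ :=
  faceV_of (n := 60) (x1 := 943719) (y1 := 574330) (r0 := 156112) (r1 := 9806092)
    (by decide +kernel) (by decide +kernel) (by decide +kernel)

private theorem b7_u14 : VD ⟨564617, 642682, 0, 533766, 0⟩ (3 / 10) (67 / 200) (71 / 200) :=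
  ⟨by decide +kernel, by norm_num, by norm_num [R], cu_71_200, Or.inr cl_67_200⟩

private theorem b7_v14 : VD ⟨110071, 642682, 0, 533766, 0⟩ (81 / 100) (67 / 200) (71 / 200) :=
  ⟨by decide +kernel, by norm_num, by norm_num [R], cu_71_200, Or.inr cl_67_200⟩

private theorem b7_14 : Rgn ⟨564617, 642682, 0, 533766, 0⟩
    ⟨110071, 642682, 0, 533766, 0⟩ :=
  rgn_of b7_14_0 b7_14_1 (Or.inr b7_14_2) (Or.inr b7_14_3)

private theorem b7_15_0 : FaceH ⟨504869, 642682, 0, 533766, 0⟩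
    ⟨132918, 642682, 0, 533766, 0⟩ :=
  faceH_of (n := 60) (x1 := 620347) (y1 := 923105) (r0 := 114336) (r1 := 7313938)
    (by decide +kernel) (by decide +kernel)

private theorem b7_15_1 : FaceH ⟨132918, 642682, 0, 533766, 0⟩
    ⟨504869, 642682, 0, 533766, 0⟩ :=
  faceH_of (n := 60) (x1 := 923105) (y1 := 620347) (r0 := 150331) (r1 := 9616468)
    (by decide +kernel) (by decide +kernel)

private theorem b7_15_2 : FaceV ⟨504869, 642682, 0, 533766, 0⟩
    ⟨132918, 642682, 0, 533766, 0⟩ :=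
  faceV_of (n := 60) (x1 := 620347) (y1 := 923105) (r0 := 114336) (r1 := 7313938)
    (by decide +kernel) (by decide +kernel) (by decide +kernel)

private theorem b7_15_3 : FaceV ⟨132918, 642682, 0, 533766, 0⟩
    ⟨504869, 642682, 0, 533766, 0⟩ :=
  faceV_of (n := 60) (x1 := 923105) (y1 := 620347) (r0 := 150331) (r1 := 9616468)
    (by decide +kernel) (by decide +kernel) (by decide +kernel)

private theorem b7_u15 : VD ⟨504869, 642682, 0, 533766, 0⟩ (7 / 20) (67 / 200) (71 / 200) :=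
  ⟨by decide +kernel, by norm_num, by norm_num [R], cu_71_200, Or.inr cl_67_200⟩

private theorem b7_v15 : VD ⟨132918, 642682, 0, 533766, 0⟩ (31 / 40) (67 / 200) (71 / 200) :=
  ⟨by decide +kernel, by norm_num, by norm_num [R], cu_71_200, Or.inr cl_67_200⟩

private theorem b7_15 : Rgn ⟨504869, 642682, 0, 533766, 0⟩
    ⟨132918, 642682, 0, 533766, 0⟩ :=
  rgn_of b7_15_0 b7_15_1 (Or.inr b7_15_2) (Or.inr b7_15_3)

private theorem b7_16_0 : FaceH ⟨449389, 642682, 0, 533766, 0⟩
    ⟨153230, 642682, 0, 533766, 0⟩ :=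
  faceH_of (n := 60) (x1 := 663179) (y1 := 905062) (r0 := 116301) (r1 := 7584823)
    (by decide +kernel) (by decide +kernel)

private theorem b7_16_1 : FaceH ⟨153230, 642682, 0, 533766, 0⟩
    ⟨449389, 642682, 0, 533766, 0⟩ :=
  faceH_of (n := 60) (x1 := 905062) (y1 := 663179) (r0 := 144962) (r1 := 9453938)
    (by decide +kernel) (by decide +kernel)

private theorem b7_16_2 : FaceV ⟨449389, 642682, 0, 533766, 0⟩
    ⟨153230, 642682, 0, 533766, 0⟩ :=
  faceV_of (n := 60) (x1 := 663179) (y1 := 905062) (r0 := 116301) (r1 := 7584823)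
    (by decide +kernel) (by decide +kernel) (by decide +kernel)

private theorem b7_16_3 : FaceV ⟨153230, 642682, 0, 533766, 0⟩
    ⟨449389, 642682, 0, 533766, 0⟩ :=
  faceV_of (n := 60) (x1 := 905062) (y1 := 663179) (r0 := 144962) (r1 := 9453938)
    (by decide +kernel) (by decide +kernel) (by decide +kernel)

private theorem b7_u16 : VD ⟨449389, 642682, 0, 533766, 0⟩ (2 / 5) (67 / 200) (71 / 200) :=
  ⟨by decide +kernel, by norm_num, by norm_num [R], cu_71_200, Or.inr cl_67_200⟩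

private theorem b7_v16 : VD ⟨153230, 642682, 0, 533766, 0⟩ (149 / 200) (67 / 200) (71 / 200) :=
  ⟨by decide +kernel, by norm_num, by norm_num [R], cu_71_200, Or.inr cl_67_200⟩

private theorem b7_16 : Rgn ⟨449389, 642682, 0, 533766, 0⟩
    ⟨153230, 642682, 0, 533766, 0⟩ :=
  rgn_of b7_16_0 b7_16_1 (Or.inr b7_16_2) (Or.inr b7_16_3)

private theorem b7_17_0 : FaceH ⟨397735, 642682, 0, 533766, 0⟩
    ⟨174253, 642682, 0, 533766, 0⟩ :=
  faceH_of (n := 60) (x1 := 703407) (y1 := 886652) (r0 := 118336) (r1 := 7855710)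
    (by decide +kernel) (by decide +kernel)

private theorem b7_17_1 : FaceH ⟨174253, 642682, 0, 533766, 0⟩
    ⟨397735, 642682, 0, 533766, 0⟩ :=
  faceH_of (n := 60) (x1 := 886652) (y1 := 703407) (r0 := 139963) (r1 := 9291405)
    (by decide +kernel) (by decide +kernel)

private theorem b7_17_2 : FaceV ⟨397735, 642682, 0, 533766, 0⟩
    ⟨174253, 642682, 0, 533766, 0⟩ :=
  faceV_of (n := 60) (x1 := 703407) (y1 := 886652) (r0 := 118336) (r1 := 7855710)
    (by decide +kernel) (by decide +kernel) (by decide +kernel)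

private theorem b7_17_3 : FaceV ⟨174253, 642682, 0, 533766, 0⟩
    ⟨397735, 642682, 0, 533766, 0⟩ :=
  faceV_of (n := 60) (x1 := 886652) (y1 := 703407) (r0 := 139963) (r1 := 9291405)
    (by decide +kernel) (by decide +kernel) (by decide +kernel)

private theorem b7_u17 : VD ⟨397735, 642682, 0, 533766, 0⟩ (9 / 20) (67 / 200) (71 / 200) :=
  ⟨by decide +kernel, by norm_num, by norm_num [R], cu_71_200, Or.inr cl_67_200⟩

private theorem b7_v17 : VD ⟨174253, 642682, 0, 533766, 0⟩ (143 / 200) (67 / 200) (71 / 200) :=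
  ⟨by decide +kernel, by norm_num, by norm_num [R], cu_71_200, Or.inr cl_67_200⟩

private theorem b7_17 : Rgn ⟨397735, 642682, 0, 533766, 0⟩
    ⟨174253, 642682, 0, 533766, 0⟩ :=
  rgn_of b7_17_0 b7_17_1 (Or.inr b7_17_2) (Or.inr b7_17_3)

private theorem b7_18_0 : FaceH ⟨349525, 642682, 0, 533766, 0⟩
    ⟨192342, 642682, 0, 533766, 0⟩ :=
  faceH_of (n := 60) (x1 := 741456) (y1 := 871013) (r0 := 120086) (r1 := 8126594)
    (by decide +kernel) (by decide +kernel)

private theorem b7_18_1 : FaceH ⟨192342, 642682, 0, 533766, 0⟩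
    ⟨349525, 642682, 0, 533766, 0⟩ :=
  faceH_of (n := 60) (x1 := 871013) (y1 := 741456) (r0 := 135297) (r1 := 9155963)
    (by decide +kernel) (by decide +kernel)

private theorem b7_18_2 : FaceV ⟨349525, 642682, 0, 533766, 0⟩
    ⟨192342, 642682, 0, 533766, 0⟩ :=
  faceV_of (n := 60) (x1 := 741456) (y1 := 871013) (r0 := 120086) (r1 := 8126594)
    (by decide +kernel) (by decide +kernel) (by decide +kernel)

private theorem b7_18_3 : FaceV ⟨192342, 642682, 0, 533766, 0⟩
    ⟨349525, 642682, 0, 533766, 0⟩ :=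
  faceV_of (n := 60) (x1 := 871013) (y1 := 741456) (r0 := 135297) (r1 := 9155963)
    (by decide +kernel) (by decide +kernel) (by decide +kernel)

private theorem b7_u18 : VD ⟨349525, 642682, 0, 533766, 0⟩ (1 / 2) (67 / 200) (71 / 200) :=
  ⟨by decide +kernel, by norm_num, by norm_num [R], cu_71_200, Or.inr cl_67_200⟩

private theorem b7_v18 : VD ⟨192342, 642682, 0, 533766, 0⟩ (69 / 100) (67 / 200) (71 / 200) :=
  ⟨by decide +kernel, by norm_num, by norm_num [R], cu_71_200, Or.inr cl_67_200⟩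

private theorem b7_18 : Rgn ⟨349525, 642682, 0, 533766, 0⟩
    ⟨192342, 642682, 0, 533766, 0⟩ :=
  rgn_of b7_18_0 b7_18_1 (Or.inr b7_18_2) (Or.inr b7_18_3)

private theorem b7_19_0 : FaceH ⟨304425, 642682, 0, 533766, 0⟩
    ⟨207203, 642682, 0, 533766, 0⟩ :=
  faceH_of (n := 60) (x1 := 777646) (y1 := 858297) (r0 := 121525) (r1 := 8397481)
    (by decide +kernel) (by decide +kernel)

private theorem b7_19_1 : FaceH ⟨207203, 642682, 0, 533766, 0⟩
    ⟨304425, 642682, 0, 533766, 0⟩ :=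
  faceH_of (n := 60) (x1 := 858297) (y1 := 777646) (r0 := 130933) (r1 := 9047611)
    (by decide +kernel) (by decide +kernel)

private theorem b7_19_2 : FaceV ⟨304425, 642682, 0, 533766, 0⟩
    ⟨207203, 642682, 0, 533766, 0⟩ :=
  faceV_of (n := 60) (x1 := 777646) (y1 := 858297) (r0 := 121525) (r1 := 8397481)
    (by decide +kernel) (by decide +kernel) (by decide +kernel)

private theorem b7_19_3 : FaceV ⟨207203, 642682, 0, 533766, 0⟩
    ⟨304425, 642682, 0, 533766, 0⟩ :=
  faceV_of (n := 60) (x1 := 858297) (y1 := 777646) (r0 := 130933) (r1 := 9047611)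
    (by decide +kernel) (by decide +kernel) (by decide +kernel)

private theorem b7_u19 : VD ⟨304425, 642682, 0, 533766, 0⟩ (11 / 20) (67 / 200) (71 / 200) :=
  ⟨by decide +kernel, by norm_num, by norm_num [R], cu_71_200, Or.inr cl_67_200⟩

private theorem b7_v19 : VD ⟨207203, 642682, 0, 533766, 0⟩ (67 / 100) (67 / 200) (71 / 200) :=
  ⟨by decide +kernel, by norm_num, by norm_num [R], cu_71_200, Or.inr cl_67_200⟩

private theorem b7_19 : Rgn ⟨304425, 642682, 0, 533766, 0⟩
    ⟨207203, 642682, 0, 533766, 0⟩ :=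
  rgn_of b7_19_0 b7_19_1 (Or.inr b7_19_2) (Or.inr b7_19_3)

private theorem b7_20_0 : FaceH ⟨262144, 642682, 0, 533766, 0⟩
    ⟨222425, 642682, 0, 533766, 0⟩ :=
  faceH_of (n := 60) (x1 := 812224) (y1 := 845390) (r0 := 122998) (r1 := 8668365)
    (by decide +kernel) (by decide +kernel)

private theorem b7_20_1 : FaceH ⟨222425, 642682, 0, 533766, 0⟩
    ⟨262144, 642682, 0, 533766, 0⟩ :=
  faceH_of (n := 60) (x1 := 845390) (y1 := 812224) (r0 := 126841) (r1 := 8939253)
    (by decide +kernel) (by decide +kernel)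

private theorem b7_20_2 : FaceV ⟨262144, 642682, 0, 533766, 0⟩
    ⟨222425, 642682, 0, 533766, 0⟩ :=
  faceV_of (n := 60) (x1 := 812224) (y1 := 845390) (r0 := 122998) (r1 := 8668365)
    (by decide +kernel) (by decide +kernel) (by decide +kernel)

private theorem b7_20_3 : FaceV ⟨222425, 642682, 0, 533766, 0⟩
    ⟨262144, 642682, 0, 533766, 0⟩ :=
  faceV_of (n := 60) (x1 := 845390) (y1 := 812224) (r0 := 126841) (r1 := 8939253)
    (by decide +kernel) (by decide +kernel) (by decide +kernel)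

private theorem b7_u20 : VD ⟨262144, 642682, 0, 533766, 0⟩ (3 / 5) (67 / 200) (71 / 200) :=
  ⟨by decide +kernel, by norm_num, by norm_num [R], cu_71_200, Or.inr cl_67_200⟩

private theorem b7_v20 : VD ⟨222425, 642682, 0, 533766, 0⟩ (13 / 20) (67 / 200) (71 / 200) :=
  ⟨by decide +kernel, by norm_num, by norm_num [R], cu_71_200, Or.inr cl_67_200⟩

private theorem b7_20 : Rgn ⟨262144, 642682, 0, 533766, 0⟩
    ⟨222425, 642682, 0, 533766, 0⟩ :=
  rgn_of b7_20_0 b7_20_1 (Or.inr b7_20_2) (Or.inr b7_20_3)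

theorem flat_b7 {θ θ' : ℝ} {v w : ℂ} (h : T2.Pr θ θ' v w)
    (j : J3 (Real.tan θ ^ 2) (Real.tan θ' ^ 2)) (j' : J3 (Real.tan θ' ^ 2) (Real.tan θ ^ 2))
    (t1 : Real.tan θ ^ 2 < 1) (t2 : Real.tan θ' ^ 2 < 1)
    (h1 : 67 / 200 ≤ v.re) (h2 : v.re ≤ 71 / 200) (h3 : 67 / 200 ≤ w.re) (h4 : w.re ≤ 71 / 200) :
    FlatM (1 / cos (Real.pi * v) ^ 2) (1 / cos (Real.pi * (starRingEnd ℂ) w) ^ 2) := by
  rcases j.c22 j' t1 t2 with (⟨a, b⟩ | ⟨a, b⟩ | ⟨a, b⟩ | ⟨a, b⟩ | ⟨a, b⟩ | ⟨a, b⟩ | ⟨a, b⟩ | ⟨a, b⟩ | ⟨a, b⟩ | ⟨a, b⟩) |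
    (⟨a, b⟩ | ⟨a, b⟩ | ⟨a, b⟩ | ⟨a, b⟩ | ⟨a, b⟩ | ⟨a, b⟩ | ⟨a, b⟩ | ⟨a, b⟩ | ⟨a, b⟩ | ⟨a, b⟩) | ⟨a, b⟩
  · exact b7_0.flatM b7_u0 b7_v0 h a b t1 t2 h1 h2 h3 h4
      (by norm_num) (by norm_num) (by norm_num) (by norm_num)
  · exact b7_1.flatM b7_u1 b7_v1 h a b t1 t2 h1 h2 h3 h4
      (by norm_num) (by norm_num) (by norm_num) (by norm_num)
  · exact b7_2.flatM b7_u2 b7_v2 h a b t1 t2 h1 h2 h3 h4
      (by norm_num) (by norm_num) (by norm_num) (by norm_num)
  · exact b7_6.flatM b7_u6 b7_v6 h a b t1 t2 h1 h2 h3 h4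
      (by norm_num) (by norm_num) (by norm_num) (by norm_num)
  · exact b7_7.flatM b7_u7 b7_v7 h a b t1 t2 h1 h2 h3 h4
      (by norm_num) (by norm_num) (by norm_num) (by norm_num)
  · exact b7_8.flatM b7_u8 b7_v8 h a b t1 t2 h1 h2 h3 h4
      (by norm_num) (by norm_num) (by norm_num) (by norm_num)
  · exact b7_9.flatM b7_u9 b7_v9 h a b t1 t2 h1 h2 h3 h4
      (by norm_num) (by norm_num) (by norm_num) (by norm_num)
  · exact b7_10.flatM b7_u10 b7_v10 h a b t1 t2 h1 h2 h3 h4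
      (by norm_num) (by norm_num) (by norm_num) (by norm_num)
  · exact b7_11.flatM b7_u11 b7_v11 h a b t1 t2 h1 h2 h3 h4
      (by norm_num) (by norm_num) (by norm_num) (by norm_num)
  · exact b7_12.flatM b7_u12 b7_v12 h a b t1 t2 h1 h2 h3 h4
      (by norm_num) (by norm_num) (by norm_num) (by norm_num)
  · exact b7_3.flatM b7_u3 b7_v3 h b a t1 t2 h1 h2 h3 h4
      (by norm_num) (by norm_num) (by norm_num) (by norm_num)
  · exact b7_4.flatM b7_u4 b7_v4 h b a t1 t2 h1 h2 h3 h4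
      (by norm_num) (by norm_num) (by norm_num) (by norm_num)
  · exact b7_5.flatM b7_u5 b7_v5 h b a t1 t2 h1 h2 h3 h4
      (by norm_num) (by norm_num) (by norm_num) (by norm_num)
  · exact b7_14.flatM b7_u14 b7_v14 h b a t1 t2 h1 h2 h3 h4
      (by norm_num) (by norm_num) (by norm_num) (by norm_num)
  · exact b7_15.flatM b7_u15 b7_v15 h b a t1 t2 h1 h2 h3 h4
      (by norm_num) (by norm_num) (by norm_num) (by norm_num)
  · exact b7_16.flatM b7_u16 b7_v16 h b a t1 t2 h1 h2 h3 h4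
      (by norm_num) (by norm_num) (by norm_num) (by norm_num)
  · exact b7_17.flatM b7_u17 b7_v17 h b a t1 t2 h1 h2 h3 h4
      (by norm_num) (by norm_num) (by norm_num) (by norm_num)
  · exact b7_18.flatM b7_u18 b7_v18 h b a t1 t2 h1 h2 h3 h4
      (by norm_num) (by norm_num) (by norm_num) (by norm_num)
  · exact b7_19.flatM b7_u19 b7_v19 h b a t1 t2 h1 h2 h3 h4
      (by norm_num) (by norm_num) (by norm_num) (by norm_num)
  · exact b7_20.flatM b7_u20 b7_v20 h b a t1 t2 h1 h2 h3 h4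
      (by norm_num) (by norm_num) (by norm_num) (by norm_num)
  · exact b7_13.flatM b7_u13 b7_v13 h a b t1 t2 h1 h2 h3 h4
      (by norm_num) (by norm_num) (by norm_num) (by norm_num)

end Pool.Agent.S3.Ck
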