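import Pool.Agent.S3.Ck.Cos
import Pool.Agent.S3.Ck.SoundG

/-!
# Flats: b8
-/

set_option autoImplicit false
set_option maxRecDepth 100000

namespace Pool.Agent.S3.Ck

open Complex

private theorem b8_0_0 : FaceH ⟨0, 741458, 0, 642677, 0⟩
    ⟨857925, 693438, 0, 642677, 0⟩ :=
  faceH_of (n := 60) (x1 := 1048576) (y1 := 331590) (r0 := 139599) (r1 := 12384050)
    (by decide +kernel) (by decide +kernel)

private theorem b8_0_1 : FaceH ⟨857925, 693438, 0, 642677, 0⟩
    ⟨0, 741458, 0, 642677, 0⟩ :=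
  faceH_of (n := 60) (x1 := 331590) (y1 := 1048576) (r0 := 88784) (r1 := 7876213)
    (by decide +kernel) (by decide +kernel)

private theorem b8_0_2 : FaceV ⟨0, 741458, 0, 642677, 0⟩
    ⟨857925, 693438, 0, 642677, 0⟩ :=
  faceV_of (n := 60) (x1 := 1048576) (y1 := 331590) (r0 := 139599) (r1 := 12384050)
    (by decide +kernel) (by decide +kernel) (by decide +kernel)

private theorem b8_0_3 : FaceV ⟨857925, 693438, 0, 642677, 0⟩
    ⟨0, 741458, 0, 642677, 0⟩ :=
  faceV_of (n := 60) (x1 := 331590) (y1 := 1048576) (r0 := 88784) (r1 := 7876213)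
    (by decide +kernel) (by decide +kernel) (by decide +kernel)

private theorem b8_u0 : VD ⟨0, 741458, 0, 642677, 0⟩ 1 (71 / 200) (3 / 8) :=
  ⟨by decide +kernel, by norm_num, by norm_num [R], cu_3_8, Or.inr cl_71_200⟩

private theorem b8_v0 : VD ⟨857925, 693438, 0, 642677, 0⟩ (1 / 10) (71 / 200) (73 / 200) :=
  ⟨by decide +kernel, by norm_num, by norm_num [R], cu_73_200, Or.inr cl_71_200⟩

private theorem b8_0 : Rgn ⟨0, 741458, 0, 642677, 0⟩
    ⟨857925, 693438, 0, 642677, 0⟩ :=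
  rgn_of b8_0_0 b8_0_1 (Or.inr b8_0_2) (Or.inr b8_0_3)

private theorem b8_1_0 : FaceH ⟨32430, 741458, 0, 642677, 0⟩
    ⟨699050, 693438, 0, 642677, 0⟩ :=
  faceH_of (n := 60) (x1 := 1016633) (y1 := 468938) (r0 := 127965) (r1 := 12012530)
    (by decide +kernel) (by decide +kernel)

private theorem b8_1_1 : FaceH ⟨699050, 693438, 0, 642677, 0⟩
    ⟨32430, 741458, 0, 642677, 0⟩ :=
  faceH_of (n := 60) (x1 := 468938) (y1 := 1016633) (r0 := 91530) (r1 := 8592232)
    (by decide +kernel) (by decide +kernel)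

private theorem b8_1_2 : FaceV ⟨32430, 741458, 0, 642677, 0⟩
    ⟨699050, 693438, 0, 642677, 0⟩ :=
  faceV_of (n := 60) (x1 := 1016633) (y1 := 468938) (r0 := 127965) (r1 := 12012530)
    (by decide +kernel) (by decide +kernel) (by decide +kernel)

private theorem b8_1_3 : FaceV ⟨699050, 693438, 0, 642677, 0⟩
    ⟨32430, 741458, 0, 642677, 0⟩ :=
  faceV_of (n := 60) (x1 := 468938) (y1 := 1016633) (r0 := 91530) (r1 := 8592232)
    (by decide +kernel) (by decide +kernel) (by decide +kernel)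

private theorem b8_u1 : VD ⟨32430, 741458, 0, 642677, 0⟩ (47 / 50) (71 / 200) (3 / 8) :=
  ⟨by decide +kernel, by norm_num, by norm_num [R], cu_3_8, Or.inr cl_71_200⟩

private theorem b8_v1 : VD ⟨699050, 693438, 0, 642677, 0⟩ (1 / 5) (71 / 200) (73 / 200) :=
  ⟨by decide +kernel, by norm_num, by norm_num [R], cu_73_200, Or.inr cl_71_200⟩

private theorem b8_1 : Rgn ⟨32430, 741458, 0, 642677, 0⟩
    ⟨699050, 693438, 0, 642677, 0⟩ :=
  rgn_of b8_1_0 b8_1_1 (Or.inr b8_1_2) (Or.inr b8_1_3)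

private theorem b8_2_0 : FaceH ⟨85019, 741458, 0, 642677, 0⟩
    ⟨629145, 693438, 0, 642677, 0⟩ :=
  faceH_of (n := 60) (x1 := 966740) (y1 := 524289) (r0 := 122847) (r1 := 11455253)
    (by decide +kernel) (by decide +kernel)

private theorem b8_2_1 : FaceH ⟨629145, 693438, 0, 642677, 0⟩
    ⟨85019, 741458, 0, 642677, 0⟩ :=
  faceH_of (n := 60) (x1 := 524289) (y1 := 966740) (r0 := 95983) (r1 := 8950241)
    (by decide +kernel) (by decide +kernel)

private theorem b8_2_2 : FaceV ⟨85019, 741458, 0, 642677, 0⟩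
    ⟨629145, 693438, 0, 642677, 0⟩ :=
  faceV_of (n := 60) (x1 := 966740) (y1 := 524289) (r0 := 122847) (r1 := 11455253)
    (by decide +kernel) (by decide +kernel) (by decide +kernel)

private theorem b8_2_3 : FaceV ⟨629145, 693438, 0, 642677, 0⟩
    ⟨85019, 741458, 0, 642677, 0⟩ :=
  faceV_of (n := 60) (x1 := 524289) (y1 := 966740) (r0 := 95983) (r1 := 8950241)
    (by decide +kernel) (by decide +kernel) (by decide +kernel)

private theorem b8_u2 : VD ⟨85019, 741458, 0, 642677, 0⟩ (17 / 20) (71 / 200) (3 / 8) :=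
  ⟨by decide +kernel, by norm_num, by norm_num [R], cu_3_8, Or.inr cl_71_200⟩

private theorem b8_v2 : VD ⟨629145, 693438, 0, 642677, 0⟩ (1 / 4) (71 / 200) (73 / 200) :=
  ⟨by decide +kernel, by norm_num, by norm_num [R], cu_73_200, Or.inr cl_71_200⟩

private theorem b8_2 : Rgn ⟨85019, 741458, 0, 642677, 0⟩
    ⟨629145, 693438, 0, 642677, 0⟩ :=
  rgn_of b8_2_0 b8_2_1 (Or.inr b8_2_2) (Or.inr b8_2_3)

private theorem b8_3_0 : FaceH ⟨857925, 741458, 0, 642677, 0⟩
    ⟨0, 693438, 0, 642677, 0⟩ :=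
  faceH_of (n := 60) (x1 := 331590) (y1 := 1048576) (r0 := 76779) (r1 := 6811231)
    (by decide +kernel) (by decide +kernel)

private theorem b8_3_1 : FaceH ⟨0, 693438, 0, 642677, 0⟩
    ⟨857925, 741458, 0, 642677, 0⟩ :=
  faceH_of (n := 60) (x1 := 1048576) (y1 := 331590) (r0 := 161426) (r1 := 14320381)
    (by decide +kernel) (by decide +kernel)

private theorem b8_3_2 : FaceV ⟨857925, 741458, 0, 642677, 0⟩
    ⟨0, 693438, 0, 642677, 0⟩ :=
  faceV_of (n := 60) (x1 := 331590) (y1 := 1048576) (r0 := 76779) (r1 := 6811231)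
    (by decide +kernel) (by decide +kernel) (by decide +kernel)

private theorem b8_3_3 : FaceV ⟨0, 693438, 0, 642677, 0⟩
    ⟨857925, 741458, 0, 642677, 0⟩ :=
  faceV_of (n := 60) (x1 := 1048576) (y1 := 331590) (r0 := 161426) (r1 := 14320381)
    (by decide +kernel) (by decide +kernel) (by decide +kernel)

private theorem b8_u3 : VD ⟨857925, 741458, 0, 642677, 0⟩ (1 / 10) (71 / 200) (3 / 8) :=
  ⟨by decide +kernel, by norm_num, by norm_num [R], cu_3_8, Or.inr cl_71_200⟩

private theorem b8_v3 : VD ⟨0, 693438, 0, 642677, 0⟩ 1 (71 / 200) (73 / 200) :=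
  ⟨by decide +kernel, by norm_num, by norm_num [R], cu_73_200, Or.inr cl_71_200⟩

private theorem b8_3 : Rgn ⟨857925, 741458, 0, 642677, 0⟩
    ⟨0, 693438, 0, 642677, 0⟩ :=
  rgn_of b8_3_0 b8_3_1 (Or.inr b8_3_2) (Or.inr b8_3_3)

private theorem b8_4_0 : FaceH ⟨699050, 741458, 0, 642677, 0⟩
    ⟨32430, 693438, 0, 642677, 0⟩ :=
  faceH_of (n := 60) (x1 := 468938) (y1 := 1016633) (r0 := 79154) (r1 := 7430433)
    (by decide +kernel) (by decide +kernel)

private theorem b8_4_1 : FaceH ⟨32430, 693438, 0, 642677, 0⟩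
    ⟨699050, 741458, 0, 642677, 0⟩ :=
  faceH_of (n := 60) (x1 := 1016633) (y1 := 468938) (r0 := 147974) (r1 := 13890772)
    (by decide +kernel) (by decide +kernel)

private theorem b8_4_2 : FaceV ⟨699050, 741458, 0, 642677, 0⟩
    ⟨32430, 693438, 0, 642677, 0⟩ :=
  faceV_of (n := 60) (x1 := 468938) (y1 := 1016633) (r0 := 79154) (r1 := 7430433)
    (by decide +kernel) (by decide +kernel) (by decide +kernel)

private theorem b8_4_3 : FaceV ⟨32430, 693438, 0, 642677, 0⟩
    ⟨699050, 741458, 0, 642677, 0⟩ :=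
  faceV_of (n := 60) (x1 := 1016633) (y1 := 468938) (r0 := 147974) (r1 := 13890772)
    (by decide +kernel) (by decide +kernel) (by decide +kernel)

private theorem b8_u4 : VD ⟨699050, 741458, 0, 642677, 0⟩ (1 / 5) (71 / 200) (3 / 8) :=
  ⟨by decide +kernel, by norm_num, by norm_num [R], cu_3_8, Or.inr cl_71_200⟩

private theorem b8_v4 : VD ⟨32430, 693438, 0, 642677, 0⟩ (47 / 50) (71 / 200) (73 / 200) :=
  ⟨by decide +kernel, by norm_num, by norm_num [R], cu_73_200, Or.inr cl_71_200⟩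

private theorem b8_4 : Rgn ⟨699050, 741458, 0, 642677, 0⟩
    ⟨32430, 693438, 0, 642677, 0⟩ :=
  rgn_of b8_4_0 b8_4_1 (Or.inr b8_4_2) (Or.inr b8_4_3)

private theorem b8_5_0 : FaceH ⟨629145, 741458, 0, 642677, 0⟩
    ⟨85019, 693438, 0, 642677, 0⟩ :=
  faceH_of (n := 60) (x1 := 524289) (y1 := 966740) (r0 := 83004) (r1 := 7740034)
    (by decide +kernel) (by decide +kernel)

private theorem b8_5_1 : FaceH ⟨85019, 693438, 0, 642677, 0⟩
    ⟨629145, 741458, 0, 642677, 0⟩ :=
  faceH_of (n := 60) (x1 := 966740) (y1 := 524289) (r0 := 142055) (r1 := 13246360)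
    (by decide +kernel) (by decide +kernel)

private theorem b8_5_2 : FaceV ⟨629145, 741458, 0, 642677, 0⟩
    ⟨85019, 693438, 0, 642677, 0⟩ :=
  faceV_of (n := 60) (x1 := 524289) (y1 := 966740) (r0 := 83004) (r1 := 7740034)
    (by decide +kernel) (by decide +kernel) (by decide +kernel)

private theorem b8_5_3 : FaceV ⟨85019, 693438, 0, 642677, 0⟩
    ⟨629145, 741458, 0, 642677, 0⟩ :=
  faceV_of (n := 60) (x1 := 966740) (y1 := 524289) (r0 := 142055) (r1 := 13246360)
    (by decide +kernel) (by decide +kernel) (by decide +kernel)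

private theorem b8_u5 : VD ⟨629145, 741458, 0, 642677, 0⟩ (1 / 4) (71 / 200) (3 / 8) :=
  ⟨by decide +kernel, by norm_num, by norm_num [R], cu_3_8, Or.inr cl_71_200⟩

private theorem b8_v5 : VD ⟨85019, 693438, 0, 642677, 0⟩ (17 / 20) (71 / 200) (73 / 200) :=
  ⟨by decide +kernel, by norm_num, by norm_num [R], cu_73_200, Or.inr cl_71_200⟩

private theorem b8_5 : Rgn ⟨629145, 741458, 0, 642677, 0⟩
    ⟨85019, 693438, 0, 642677, 0⟩ :=
  rgn_of b8_5_0 b8_5_1 (Or.inr b8_5_2) (Or.inr b8_5_3)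

private theorem b8_6_0 : FaceH ⟨110071, 741458, 0, 642677, 0⟩
    ⟨564617, 693438, 0, 642677, 0⟩ :=
  faceH_of (n := 60) (x1 := 943719) (y1 := 574330) (r0 := 118122) (r1 := 11207570)
    (by decide +kernel) (by decide +kernel)

private theorem b8_6_1 : FaceH ⟨564617, 693438, 0, 642677, 0⟩
    ⟨110071, 741458, 0, 642677, 0⟩ :=
  faceH_of (n := 60) (x1 := 574330) (y1 := 943719) (r0 := 98104) (r1 := 9308252)
    (by decide +kernel) (by decide +kernel)

private theorem b8_6_2 : FaceV ⟨110071, 741458, 0, 642677, 0⟩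
    ⟨564617, 693438, 0, 642677, 0⟩ :=
  faceV_of (n := 60) (x1 := 943719) (y1 := 574330) (r0 := 118122) (r1 := 11207570)
    (by decide +kernel) (by decide +kernel) (by decide +kernel)

private theorem b8_6_3 : FaceV ⟨564617, 693438, 0, 642677, 0⟩
    ⟨110071, 741458, 0, 642677, 0⟩ :=
  faceV_of (n := 60) (x1 := 574330) (y1 := 943719) (r0 := 98104) (r1 := 9308252)
    (by decide +kernel) (by decide +kernel) (by decide +kernel)

private theorem b8_u6 : VD ⟨110071, 741458, 0, 642677, 0⟩ (81 / 100) (71 / 200) (3 / 8) :=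
  ⟨by decide +kernel, by norm_num, by norm_num [R], cu_3_8, Or.inr cl_71_200⟩

private theorem b8_v6 : VD ⟨564617, 693438, 0, 642677, 0⟩ (3 / 10) (71 / 200) (73 / 200) :=
  ⟨by decide +kernel, by norm_num, by norm_num [R], cu_73_200, Or.inr cl_71_200⟩

private theorem b8_6 : Rgn ⟨110071, 741458, 0, 642677, 0⟩
    ⟨564617, 693438, 0, 642677, 0⟩ :=
  rgn_of b8_6_0 b8_6_1 (Or.inr b8_6_2) (Or.inr b8_6_3)

private theorem b8_7_0 : FaceH ⟨132918, 741458, 0, 642677, 0⟩
    ⟨504869, 693438, 0, 642677, 0⟩ :=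
  faceH_of (n := 60) (x1 := 923105) (y1 := 620347) (r0 := 113747) (r1 := 10990845)
    (by decide +kernel) (by decide +kernel)

private theorem b8_7_1 : FaceH ⟨504869, 693438, 0, 642677, 0⟩
    ⟨132918, 741458, 0, 642677, 0⟩ :=
  faceH_of (n := 60) (x1 := 620347) (y1 := 923105) (r0 := 100038) (r1 := 9666263)
    (by decide +kernel) (by decide +kernel)

private theorem b8_7_2 : FaceV ⟨132918, 741458, 0, 642677, 0⟩
    ⟨504869, 693438, 0, 642677, 0⟩ :=
  faceV_of (n := 60) (x1 := 923105) (y1 := 620347) (r0 := 113747) (r1 := 10990845)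
    (by decide +kernel) (by decide +kernel) (by decide +kernel)

private theorem b8_7_3 : FaceV ⟨504869, 693438, 0, 642677, 0⟩
    ⟨132918, 741458, 0, 642677, 0⟩ :=
  faceV_of (n := 60) (x1 := 620347) (y1 := 923105) (r0 := 100038) (r1 := 9666263)
    (by decide +kernel) (by decide +kernel) (by decide +kernel)

private theorem b8_u7 : VD ⟨132918, 741458, 0, 642677, 0⟩ (31 / 40) (71 / 200) (3 / 8) :=
  ⟨by decide +kernel, by norm_num, by norm_num [R], cu_3_8, Or.inr cl_71_200⟩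

private theorem b8_v7 : VD ⟨504869, 693438, 0, 642677, 0⟩ (7 / 20) (71 / 200) (73 / 200) :=
  ⟨by decide +kernel, by norm_num, by norm_num [R], cu_73_200, Or.inr cl_71_200⟩

private theorem b8_7 : Rgn ⟨132918, 741458, 0, 642677, 0⟩
    ⟨504869, 693438, 0, 642677, 0⟩ :=
  rgn_of b8_7_0 b8_7_1 (Or.inr b8_7_2) (Or.inr b8_7_3)

private theorem b8_8_0 : FaceH ⟨153230, 741458, 0, 642677, 0⟩
    ⟨449389, 693438, 0, 642677, 0⟩ :=
  faceH_of (n := 60) (x1 := 905062) (y1 := 663179) (r0 := 109684) (r1 := 10805086)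
    (by decide +kernel) (by decide +kernel)

private theorem b8_8_1 : FaceH ⟨449389, 693438, 0, 642677, 0⟩
    ⟨153230, 741458, 0, 642677, 0⟩ :=
  faceH_of (n := 60) (x1 := 663179) (y1 := 905062) (r0 := 101758) (r1 := 10024271)
    (by decide +kernel) (by decide +kernel)

private theorem b8_8_2 : FaceV ⟨153230, 741458, 0, 642677, 0⟩
    ⟨449389, 693438, 0, 642677, 0⟩ :=
  faceV_of (n := 60) (x1 := 905062) (y1 := 663179) (r0 := 109684) (r1 := 10805086)
    (by decide +kernel) (by decide +kernel) (by decide +kernel)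

private theorem b8_8_3 : FaceV ⟨449389, 693438, 0, 642677, 0⟩
    ⟨153230, 741458, 0, 642677, 0⟩ :=
  faceV_of (n := 60) (x1 := 663179) (y1 := 905062) (r0 := 101758) (r1 := 10024271)
    (by decide +kernel) (by decide +kernel) (by decide +kernel)

private theorem b8_u8 : VD ⟨153230, 741458, 0, 642677, 0⟩ (149 / 200) (71 / 200) (3 / 8) :=
  ⟨by decide +kernel, by norm_num, by norm_num [R], cu_3_8, Or.inr cl_71_200⟩

private theorem b8_v8 : VD ⟨449389, 693438, 0, 642677, 0⟩ (2 / 5) (71 / 200) (73 / 200) :=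
  ⟨by decide +kernel, by norm_num, by norm_num [R], cu_73_200, Or.inr cl_71_200⟩

private theorem b8_8 : Rgn ⟨153230, 741458, 0, 642677, 0⟩
    ⟨449389, 693438, 0, 642677, 0⟩ :=
  rgn_of b8_8_0 b8_8_1 (Or.inr b8_8_2) (Or.inr b8_8_3)

private theorem b8_9_0 : FaceH ⟨174253, 741458, 0, 642677, 0⟩
    ⟨397735, 693438, 0, 642677, 0⟩ :=
  faceH_of (n := 60) (x1 := 886652) (y1 := 703407) (r0 := 105902) (r1 := 10619324)
    (by decide +kernel) (by decide +kernel)

private theorem b8_9_1 : FaceH ⟨397735, 693438, 0, 642677, 0⟩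
    ⟨174253, 741458, 0, 642677, 0⟩ :=
  faceH_of (n := 60) (x1 := 703407) (y1 := 886652) (r0 := 103538) (r1 := 10382281)
    (by decide +kernel) (by decide +kernel)

private theorem b8_9_2 : FaceV ⟨174253, 741458, 0, 642677, 0⟩
    ⟨397735, 693438, 0, 642677, 0⟩ :=
  faceV_of (n := 60) (x1 := 886652) (y1 := 703407) (r0 := 105902) (r1 := 10619324)
    (by decide +kernel) (by decide +kernel) (by decide +kernel)

private theorem b8_9_3 : FaceV ⟨397735, 693438, 0, 642677, 0⟩
    ⟨174253, 741458, 0, 642677, 0⟩ :=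
  faceV_of (n := 60) (x1 := 703407) (y1 := 886652) (r0 := 103538) (r1 := 10382281)
    (by decide +kernel) (by decide +kernel) (by decide +kernel)

private theorem b8_u9 : VD ⟨174253, 741458, 0, 642677, 0⟩ (143 / 200) (71 / 200) (3 / 8) :=
  ⟨by decide +kernel, by norm_num, by norm_num [R], cu_3_8, Or.inr cl_71_200⟩

private theorem b8_v9 : VD ⟨397735, 693438, 0, 642677, 0⟩ (9 / 20) (71 / 200) (73 / 200) :=
  ⟨by decide +kernel, by norm_num, by norm_num [R], cu_73_200, Or.inr cl_71_200⟩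

private theorem b8_9 : Rgn ⟨174253, 741458, 0, 642677, 0⟩
    ⟨397735, 693438, 0, 642677, 0⟩ :=
  rgn_of b8_9_0 b8_9_1 (Or.inr b8_9_2) (Or.inr b8_9_3)

private theorem b8_10_0 : FaceH ⟨192342, 741458, 0, 642677, 0⟩
    ⟨349525, 693438, 0, 642677, 0⟩ :=
  faceH_of (n := 60) (x1 := 871013) (y1 := 741456) (r0 := 102372) (r1 := 10464525)
    (by decide +kernel) (by decide +kernel)

private theorem b8_10_1 : FaceH ⟨349525, 693438, 0, 642677, 0⟩
    ⟨192342, 741458, 0, 642677, 0⟩ :=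
  faceH_of (n := 60) (x1 := 741456) (y1 := 871013) (r0 := 105070) (r1 := 10740288)
    (by decide +kernel) (by decide +kernel)

private theorem b8_10_2 : FaceV ⟨192342, 741458, 0, 642677, 0⟩
    ⟨349525, 693438, 0, 642677, 0⟩ :=
  faceV_of (n := 60) (x1 := 871013) (y1 := 741456) (r0 := 102372) (r1 := 10464525)
    (by decide +kernel) (by decide +kernel) (by decide +kernel)

private theorem b8_10_3 : FaceV ⟨349525, 693438, 0, 642677, 0⟩
    ⟨192342, 741458, 0, 642677, 0⟩ :=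
  faceV_of (n := 60) (x1 := 741456) (y1 := 871013) (r0 := 105070) (r1 := 10740288)
    (by decide +kernel) (by decide +kernel) (by decide +kernel)

private theorem b8_u10 : VD ⟨192342, 741458, 0, 642677, 0⟩ (69 / 100) (71 / 200) (3 / 8) :=
  ⟨by decide +kernel, by norm_num, by norm_num [R], cu_3_8, Or.inr cl_71_200⟩

private theorem b8_v10 : VD ⟨349525, 693438, 0, 642677, 0⟩ (1 / 2) (71 / 200) (73 / 200) :=
  ⟨by decide +kernel, by norm_num, by norm_num [R], cu_73_200, Or.inr cl_71_200⟩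

private theorem b8_10 : Rgn ⟨192342, 741458, 0, 642677, 0⟩
    ⟨349525, 693438, 0, 642677, 0⟩ :=
  rgn_of b8_10_0 b8_10_1 (Or.inr b8_10_2) (Or.inr b8_10_3)

private theorem b8_11_0 : FaceH ⟨207203, 741458, 0, 642677, 0⟩
    ⟨304425, 693438, 0, 642677, 0⟩ :=
  faceH_of (n := 60) (x1 := 858297) (y1 := 777646) (r0 := 99070) (r1 := 10340687)
    (by decide +kernel) (by decide +kernel)

private theorem b8_11_1 : FaceH ⟨304425, 693438, 0, 642677, 0⟩
    ⟨207203, 741458, 0, 642677, 0⟩ :=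
  faceH_of (n := 60) (x1 := 777646) (y1 := 858297) (r0 := 106328) (r1 := 11098297)
    (by decide +kernel) (by decide +kernel)

private theorem b8_11_2 : FaceV ⟨207203, 741458, 0, 642677, 0⟩
    ⟨304425, 693438, 0, 642677, 0⟩ :=
  faceV_of (n := 60) (x1 := 858297) (y1 := 777646) (r0 := 99070) (r1 := 10340687)
    (by decide +kernel) (by decide +kernel) (by decide +kernel)

private theorem b8_11_3 : FaceV ⟨304425, 693438, 0, 642677, 0⟩
    ⟨207203, 741458, 0, 642677, 0⟩ :=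
  faceV_of (n := 60) (x1 := 777646) (y1 := 858297) (r0 := 106328) (r1 := 11098297)
    (by decide +kernel) (by decide +kernel) (by decide +kernel)

private theorem b8_u11 : VD ⟨207203, 741458, 0, 642677, 0⟩ (67 / 100) (71 / 200) (3 / 8) :=
  ⟨by decide +kernel, by norm_num, by norm_num [R], cu_3_8, Or.inr cl_71_200⟩

private theorem b8_v11 : VD ⟨304425, 693438, 0, 642677, 0⟩ (11 / 20) (71 / 200) (73 / 200) :=
  ⟨by decide +kernel, by norm_num, by norm_num [R], cu_73_200, Or.inr cl_71_200⟩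

private theorem b8_11 : Rgn ⟨207203, 741458, 0, 642677, 0⟩
    ⟨304425, 693438, 0, 642677, 0⟩ :=
  rgn_of b8_11_0 b8_11_1 (Or.inr b8_11_2) (Or.inr b8_11_3)

private theorem b8_12_0 : FaceH ⟨222425, 741458, 0, 642677, 0⟩
    ⟨262144, 693438, 0, 642677, 0⟩ :=
  faceH_of (n := 60) (x1 := 845390) (y1 := 812224) (r0 := 95974) (r1 := 10216843)
    (by decide +kernel) (by decide +kernel)

private theorem b8_12_1 : FaceH ⟨262144, 693438, 0, 642677, 0⟩
    ⟨222425, 741458, 0, 642677, 0⟩ :=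
  faceH_of (n := 60) (x1 := 812224) (y1 := 845390) (r0 := 107617) (r1 := 11456305)
    (by decide +kernel) (by decide +kernel)

private theorem b8_12_2 : FaceV ⟨222425, 741458, 0, 642677, 0⟩
    ⟨262144, 693438, 0, 642677, 0⟩ :=
  faceV_of (n := 60) (x1 := 845390) (y1 := 812224) (r0 := 95974) (r1 := 10216843)
    (by decide +kernel) (by decide +kernel) (by decide +kernel)

private theorem b8_12_3 : FaceV ⟨262144, 693438, 0, 642677, 0⟩
    ⟨222425, 741458, 0, 642677, 0⟩ :=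
  faceV_of (n := 60) (x1 := 812224) (y1 := 845390) (r0 := 107617) (r1 := 11456305)
    (by decide +kernel) (by decide +kernel) (by decide +kernel)

private theorem b8_u12 : VD ⟨222425, 741458, 0, 642677, 0⟩ (13 / 20) (71 / 200) (3 / 8) :=
  ⟨by decide +kernel, by norm_num, by norm_num [R], cu_3_8, Or.inr cl_71_200⟩

private theorem b8_v12 : VD ⟨262144, 693438, 0, 642677, 0⟩ (3 / 5) (71 / 200) (73 / 200) :=
  ⟨by decide +kernel, by norm_num, by norm_num [R], cu_73_200, Or.inr cl_71_200⟩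

private theorem b8_12 : Rgn ⟨222425, 741458, 0, 642677, 0⟩
    ⟨262144, 693438, 0, 642677, 0⟩ :=
  rgn_of b8_12_0 b8_12_1 (Or.inr b8_12_2) (Or.inr b8_12_3)

private theorem b8_13_0 : FaceH ⟨234085, 741458, 0, 642677, 0⟩
    ⟨234085, 693438, 0, 642677, 0⟩ :=
  faceH_of (n := 60) (x1 := 835579) (y1 := 835579) (r0 := 93919) (r1 := 10123967)
    (by decide +kernel) (by decide +kernel)

private theorem b8_13_1 : FaceH ⟨234085, 693438, 0, 642677, 0⟩
    ⟨234085, 741458, 0, 642677, 0⟩ :=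
  faceH_of (n := 60) (x1 := 835579) (y1 := 835579) (r0 := 108604) (r1 := 11706918)
    (by decide +kernel) (by decide +kernel)

private theorem b8_13_2 : FaceV ⟨234085, 741458, 0, 642677, 0⟩
    ⟨234085, 693438, 0, 642677, 0⟩ :=
  faceV_of (n := 60) (x1 := 835579) (y1 := 835579) (r0 := 93919) (r1 := 10123967)
    (by decide +kernel) (by decide +kernel) (by decide +kernel)

private theorem b8_13_3 : FaceV ⟨234085, 693438, 0, 642677, 0⟩
    ⟨234085, 741458, 0, 642677, 0⟩ :=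
  faceV_of (n := 60) (x1 := 835579) (y1 := 835579) (r0 := 108604) (r1 := 11706918)
    (by decide +kernel) (by decide +kernel) (by decide +kernel)

private theorem b8_u13 : VD ⟨234085, 741458, 0, 642677, 0⟩ (127 / 200) (71 / 200) (3 / 8) :=
  ⟨by decide +kernel, by norm_num, by norm_num [R], cu_3_8, Or.inr cl_71_200⟩

private theorem b8_v13 : VD ⟨234085, 693438, 0, 642677, 0⟩ (127 / 200) (71 / 200) (73 / 200) :=
  ⟨by decide +kernel, by norm_num, by norm_num [R], cu_73_200, Or.inr cl_71_200⟩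

private theorem b8_13 : Rgn ⟨234085, 741458, 0, 642677, 0⟩
    ⟨234085, 693438, 0, 642677, 0⟩ :=
  rgn_of b8_13_0 b8_13_1 (Or.inr b8_13_2) (Or.inr b8_13_3)

private theorem b8_14_0 : FaceH ⟨564617, 741458, 0, 642677, 0⟩
    ⟨110071, 693438, 0, 642677, 0⟩ :=
  faceH_of (n := 60) (x1 := 574330) (y1 := 943719) (r0 := 84839) (r1 := 8049637)
    (by decide +kernel) (by decide +kernel)

private theorem b8_14_1 : FaceH ⟨110071, 693438, 0, 642677, 0⟩
    ⟨564617, 741458, 0, 642677, 0⟩ :=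
  faceH_of (n := 60) (x1 := 943719) (y1 := 574330) (r0 := 136591) (r1 := 12959950)
    (by decide +kernel) (by decide +kernel)

private theorem b8_14_2 : FaceV ⟨564617, 741458, 0, 642677, 0⟩
    ⟨110071, 693438, 0, 642677, 0⟩ :=
  faceV_of (n := 60) (x1 := 574330) (y1 := 943719) (r0 := 84839) (r1 := 8049637)
    (by decide +kernel) (by decide +kernel) (by decide +kernel)

private theorem b8_14_3 : FaceV ⟨110071, 693438, 0, 642677, 0⟩
    ⟨564617, 741458, 0, 642677, 0⟩ :=
  faceV_of (n := 60) (x1 := 943719) (y1 := 574330) (r0 := 136591) (r1 := 12959950)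
    (by decide +kernel) (by decide +kernel) (by decide +kernel)

private theorem b8_u14 : VD ⟨564617, 741458, 0, 642677, 0⟩ (3 / 10) (71 / 200) (3 / 8) :=
  ⟨by decide +kernel, by norm_num, by norm_num [R], cu_3_8, Or.inr cl_71_200⟩

private theorem b8_v14 : VD ⟨110071, 693438, 0, 642677, 0⟩ (81 / 100) (71 / 200) (73 / 200) :=
  ⟨by decide +kernel, by norm_num, by norm_num [R], cu_73_200, Or.inr cl_71_200⟩

private theorem b8_14 : Rgn ⟨564617, 741458, 0, 642677, 0⟩
    ⟨110071, 693438, 0, 642677, 0⟩ :=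
  rgn_of b8_14_0 b8_14_1 (Or.inr b8_14_2) (Or.inr b8_14_3)

private theorem b8_15_0 : FaceH ⟨504869, 741458, 0, 642677, 0⟩
    ⟨132918, 693438, 0, 642677, 0⟩ :=
  faceH_of (n := 60) (x1 := 620347) (y1 := 923105) (r0 := 86512) (r1 := 8359239)
    (by decide +kernel) (by decide +kernel)

private theorem b8_15_1 : FaceH ⟨132918, 693438, 0, 642677, 0⟩
    ⟨504869, 741458, 0, 642677, 0⟩ :=
  faceH_of (n := 60) (x1 := 923105) (y1 := 620347) (r0 := 131532) (r1 := 12709339)
    (by decide +kernel) (by decide +kernel)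

private theorem b8_15_2 : FaceV ⟨504869, 741458, 0, 642677, 0⟩
    ⟨132918, 693438, 0, 642677, 0⟩ :=
  faceV_of (n := 60) (x1 := 620347) (y1 := 923105) (r0 := 86512) (r1 := 8359239)
    (by decide +kernel) (by decide +kernel) (by decide +kernel)

private theorem b8_15_3 : FaceV ⟨132918, 693438, 0, 642677, 0⟩
    ⟨504869, 741458, 0, 642677, 0⟩ :=
  faceV_of (n := 60) (x1 := 923105) (y1 := 620347) (r0 := 131532) (r1 := 12709339)
    (by decide +kernel) (by decide +kernel) (by decide +kernel)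

private theorem b8_u15 : VD ⟨504869, 741458, 0, 642677, 0⟩ (7 / 20) (71 / 200) (3 / 8) :=
  ⟨by decide +kernel, by norm_num, by norm_num [R], cu_3_8, Or.inr cl_71_200⟩

private theorem b8_v15 : VD ⟨132918, 693438, 0, 642677, 0⟩ (31 / 40) (71 / 200) (73 / 200) :=
  ⟨by decide +kernel, by norm_num, by norm_num [R], cu_73_200, Or.inr cl_71_200⟩

private theorem b8_15 : Rgn ⟨504869, 741458, 0, 642677, 0⟩
    ⟨132918, 693438, 0, 642677, 0⟩ :=
  rgn_of b8_15_0 b8_15_1 (Or.inr b8_15_2) (Or.inr b8_15_3)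

private theorem b8_16_0 : FaceH ⟨449389, 741458, 0, 642677, 0⟩
    ⟨153230, 693438, 0, 642677, 0⟩ :=
  faceH_of (n := 60) (x1 := 663179) (y1 := 905062) (r0 := 87999) (r1 := 8668839)
    (by decide +kernel) (by decide +kernel)

private theorem b8_16_1 : FaceH ⟨153230, 693438, 0, 642677, 0⟩
    ⟨449389, 741458, 0, 642677, 0⟩ :=
  faceH_of (n := 60) (x1 := 905062) (y1 := 663179) (r0 := 126834) (r1 := 12494535)
    (by decide +kernel) (by decide +kernel)

private theorem b8_16_2 : FaceV ⟨449389, 741458, 0, 642677, 0⟩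
    ⟨153230, 693438, 0, 642677, 0⟩ :=
  faceV_of (n := 60) (x1 := 663179) (y1 := 905062) (r0 := 87999) (r1 := 8668839)
    (by decide +kernel) (by decide +kernel) (by decide +kernel)

private theorem b8_16_3 : FaceV ⟨153230, 693438, 0, 642677, 0⟩
    ⟨449389, 741458, 0, 642677, 0⟩ :=
  faceV_of (n := 60) (x1 := 905062) (y1 := 663179) (r0 := 126834) (r1 := 12494535)
    (by decide +kernel) (by decide +kernel) (by decide +kernel)

private theorem b8_u16 : VD ⟨449389, 741458, 0, 642677, 0⟩ (2 / 5) (71 / 200) (3 / 8) :=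
  ⟨by decide +kernel, by norm_num, by norm_num [R], cu_3_8, Or.inr cl_71_200⟩

private theorem b8_v16 : VD ⟨153230, 693438, 0, 642677, 0⟩ (149 / 200) (71 / 200) (73 / 200) :=
  ⟨by decide +kernel, by norm_num, by norm_num [R], cu_73_200, Or.inr cl_71_200⟩

private theorem b8_16 : Rgn ⟨449389, 741458, 0, 642677, 0⟩
    ⟨153230, 693438, 0, 642677, 0⟩ :=
  rgn_of b8_16_0 b8_16_1 (Or.inr b8_16_2) (Or.inr b8_16_3)

private theorem b8_17_0 : FaceH ⟨397735, 741458, 0, 642677, 0⟩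
    ⟨174253, 693438, 0, 642677, 0⟩ :=
  faceH_of (n := 60) (x1 := 703407) (y1 := 886652) (r0 := 89538) (r1 := 8978441)
    (by decide +kernel) (by decide +kernel)

private theorem b8_17_1 : FaceH ⟨174253, 693438, 0, 642677, 0⟩
    ⟨397735, 741458, 0, 642677, 0⟩ :=
  faceH_of (n := 60) (x1 := 886652) (y1 := 703407) (r0 := 122461) (r1 := 12279728)
    (by decide +kernel) (by decide +kernel)

private theorem b8_17_2 : FaceV ⟨397735, 741458, 0, 642677, 0⟩
    ⟨174253, 693438, 0, 642677, 0⟩ :=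
  faceV_of (n := 60) (x1 := 703407) (y1 := 886652) (r0 := 89538) (r1 := 8978441)
    (by decide +kernel) (by decide +kernel) (by decide +kernel)

private theorem b8_17_3 : FaceV ⟨174253, 693438, 0, 642677, 0⟩
    ⟨397735, 741458, 0, 642677, 0⟩ :=
  faceV_of (n := 60) (x1 := 886652) (y1 := 703407) (r0 := 122461) (r1 := 12279728)
    (by decide +kernel) (by decide +kernel) (by decide +kernel)

private theorem b8_u17 : VD ⟨397735, 741458, 0, 642677, 0⟩ (9 / 20) (71 / 200) (3 / 8) :=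
  ⟨by decide +kernel, by norm_num, by norm_num [R], cu_3_8, Or.inr cl_71_200⟩

private theorem b8_v17 : VD ⟨174253, 693438, 0, 642677, 0⟩ (143 / 200) (71 / 200) (73 / 200) :=
  ⟨by decide +kernel, by norm_num, by norm_num [R], cu_73_200, Or.inr cl_71_200⟩

private theorem b8_17 : Rgn ⟨397735, 741458, 0, 642677, 0⟩
    ⟨174253, 693438, 0, 642677, 0⟩ :=
  rgn_of b8_17_0 b8_17_1 (Or.inr b8_17_2) (Or.inr b8_17_3)

private theorem b8_18_0 : FaceH ⟨349525, 741458, 0, 642677, 0⟩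
    ⟨192342, 693438, 0, 642677, 0⟩ :=
  faceH_of (n := 60) (x1 := 741456) (y1 := 871013) (r0 := 90863) (r1 := 9288040)
    (by decide +kernel) (by decide +kernel)

private theorem b8_18_1 : FaceH ⟨192342, 693438, 0, 642677, 0⟩
    ⟨349525, 741458, 0, 642677, 0⟩ :=
  faceH_of (n := 60) (x1 := 871013) (y1 := 741456) (r0 := 118379) (r1 := 12100725)
    (by decide +kernel) (by decide +kernel)

private theorem b8_18_2 : FaceV ⟨349525, 741458, 0, 642677, 0⟩
    ⟨192342, 693438, 0, 642677, 0⟩ :=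
  faceV_of (n := 60) (x1 := 741456) (y1 := 871013) (r0 := 90863) (r1 := 9288040)
    (by decide +kernel) (by decide +kernel) (by decide +kernel)

private theorem b8_18_3 : FaceV ⟨192342, 693438, 0, 642677, 0⟩
    ⟨349525, 741458, 0, 642677, 0⟩ :=
  faceV_of (n := 60) (x1 := 871013) (y1 := 741456) (r0 := 118379) (r1 := 12100725)
    (by decide +kernel) (by decide +kernel) (by decide +kernel)

private theorem b8_u18 : VD ⟨349525, 741458, 0, 642677, 0⟩ (1 / 2) (71 / 200) (3 / 8) :=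
  ⟨by decide +kernel, by norm_num, by norm_num [R], cu_3_8, Or.inr cl_71_200⟩

private theorem b8_v18 : VD ⟨192342, 693438, 0, 642677, 0⟩ (69 / 100) (71 / 200) (73 / 200) :=
  ⟨by decide +kernel, by norm_num, by norm_num [R], cu_73_200, Or.inr cl_71_200⟩

private theorem b8_18 : Rgn ⟨349525, 741458, 0, 642677, 0⟩
    ⟨192342, 693438, 0, 642677, 0⟩ :=
  rgn_of b8_18_0 b8_18_1 (Or.inr b8_18_2) (Or.inr b8_18_3)

private theorem b8_19_0 : FaceH ⟨304425, 741458, 0, 642677, 0⟩
    ⟨207203, 693438, 0, 642677, 0⟩ :=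
  faceH_of (n := 60) (x1 := 777646) (y1 := 858297) (r0 := 91951) (r1 := 9597641)
    (by decide +kernel) (by decide +kernel)

private theorem b8_19_1 : FaceH ⟨207203, 693438, 0, 642677, 0⟩
    ⟨304425, 741458, 0, 642677, 0⟩ :=
  faceH_of (n := 60) (x1 := 858297) (y1 := 777646) (r0 := 114560) (r1 := 11957524)
    (by decide +kernel) (by decide +kernel)

private theorem b8_19_2 : FaceV ⟨304425, 741458, 0, 642677, 0⟩
    ⟨207203, 693438, 0, 642677, 0⟩ :=
  faceV_of (n := 60) (x1 := 777646) (y1 := 858297) (r0 := 91951) (r1 := 9597641)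
    (by decide +kernel) (by decide +kernel) (by decide +kernel)

private theorem b8_19_3 : FaceV ⟨207203, 693438, 0, 642677, 0⟩
    ⟨304425, 741458, 0, 642677, 0⟩ :=
  faceV_of (n := 60) (x1 := 858297) (y1 := 777646) (r0 := 114560) (r1 := 11957524)
    (by decide +kernel) (by decide +kernel) (by decide +kernel)

private theorem b8_u19 : VD ⟨304425, 741458, 0, 642677, 0⟩ (11 / 20) (71 / 200) (3 / 8) :=
  ⟨by decide +kernel, by norm_num, by norm_num [R], cu_3_8, Or.inr cl_71_200⟩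

private theorem b8_v19 : VD ⟨207203, 693438, 0, 642677, 0⟩ (67 / 100) (71 / 200) (73 / 200) :=
  ⟨by decide +kernel, by norm_num, by norm_num [R], cu_73_200, Or.inr cl_71_200⟩

private theorem b8_19 : Rgn ⟨304425, 741458, 0, 642677, 0⟩
    ⟨207203, 693438, 0, 642677, 0⟩ :=
  rgn_of b8_19_0 b8_19_1 (Or.inr b8_19_2) (Or.inr b8_19_3)

private theorem b8_20_0 : FaceH ⟨262144, 741458, 0, 642677, 0⟩
    ⟨222425, 693438, 0, 642677, 0⟩ :=
  faceH_of (n := 60) (x1 := 812224) (y1 := 845390) (r0 := 93066) (r1 := 9907240)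
    (by decide +kernel) (by decide +kernel)

private theorem b8_20_1 : FaceH ⟨222425, 693438, 0, 642677, 0⟩
    ⟨262144, 741458, 0, 642677, 0⟩ :=
  faceH_of (n := 60) (x1 := 845390) (y1 := 812224) (r0 := 110980) (r1 := 11814316)
    (by decide +kernel) (by decide +kernel)

private theorem b8_20_2 : FaceV ⟨262144, 741458, 0, 642677, 0⟩
    ⟨222425, 693438, 0, 642677, 0⟩ :=
  faceV_of (n := 60) (x1 := 812224) (y1 := 845390) (r0 := 93066) (r1 := 9907240)
    (by decide +kernel) (by decide +kernel) (by decide +kernel)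

private theorem b8_20_3 : FaceV ⟨222425, 693438, 0, 642677, 0⟩
    ⟨262144, 741458, 0, 642677, 0⟩ :=
  faceV_of (n := 60) (x1 := 845390) (y1 := 812224) (r0 := 110980) (r1 := 11814316)
    (by decide +kernel) (by decide +kernel) (by decide +kernel)

private theorem b8_u20 : VD ⟨262144, 741458, 0, 642677, 0⟩ (3 / 5) (71 / 200) (3 / 8) :=
  ⟨by decide +kernel, by norm_num, by norm_num [R], cu_3_8, Or.inr cl_71_200⟩

private theorem b8_v20 : VD ⟨222425, 693438, 0, 642677, 0⟩ (13 / 20) (71 / 200) (73 / 200) :=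
  ⟨by decide +kernel, by norm_num, by norm_num [R], cu_73_200, Or.inr cl_71_200⟩

private theorem b8_20 : Rgn ⟨262144, 741458, 0, 642677, 0⟩
    ⟨222425, 693438, 0, 642677, 0⟩ :=
  rgn_of b8_20_0 b8_20_1 (Or.inr b8_20_2) (Or.inr b8_20_3)

theorem flat_b8 {θ θ' : ℝ} {v w : ℂ} (h : T2.Pr θ θ' v w)
    (j : J3 (Real.tan θ ^ 2) (Real.tan θ' ^ 2)) (j' : J3 (Real.tan θ' ^ 2) (Real.tan θ ^ 2))
    (t1 : Real.tan θ ^ 2 < 1) (t2 : Real.tan θ' ^ 2 < 1)
    (h1 : 71 / 200 ≤ v.re) (h2 : v.re ≤ 3 / 8) (h3 : 71 / 200 ≤ w.re) (h4 : w.re ≤ 73 / 200) :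
    FlatM (1 / cos (Real.pi * v) ^ 2) (1 / cos (Real.pi * (starRingEnd ℂ) w) ^ 2) := by
  rcases j.c22 j' t1 t2 with (⟨a, b⟩ | ⟨a, b⟩ | ⟨a, b⟩ | ⟨a, b⟩ | ⟨a, b⟩ | ⟨a, b⟩ | ⟨a, b⟩ | ⟨a, b⟩ | ⟨a, b⟩ | ⟨a, b⟩) |
    (⟨a, b⟩ | ⟨a, b⟩ | ⟨a, b⟩ | ⟨a, b⟩ | ⟨a, b⟩ | ⟨a, b⟩ | ⟨a, b⟩ | ⟨a, b⟩ | ⟨a, b⟩ | ⟨a, b⟩) | ⟨a, b⟩
  · exact b8_0.flatM b8_u0 b8_v0 h a b t1 t2 h1 h2 h3 h4
      (by norm_num) (by norm_num) (by norm_num) (by norm_num)
  · exact b8_1.flatM b8_u1 b8_v1 h a b t1 t2 h1 h2 h3 h4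
      (by norm_num) (by norm_num) (by norm_num) (by norm_num)
  · exact b8_2.flatM b8_u2 b8_v2 h a b t1 t2 h1 h2 h3 h4
      (by norm_num) (by norm_num) (by norm_num) (by norm_num)
  · exact b8_6.flatM b8_u6 b8_v6 h a b t1 t2 h1 h2 h3 h4
      (by norm_num) (by norm_num) (by norm_num) (by norm_num)
  · exact b8_7.flatM b8_u7 b8_v7 h a b t1 t2 h1 h2 h3 h4
      (by norm_num) (by norm_num) (by norm_num) (by norm_num)
  · exact b8_8.flatM b8_u8 b8_v8 h a b t1 t2 h1 h2 h3 h4
      (by norm_num) (by norm_num) (by norm_num) (by norm_num)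
  · exact b8_9.flatM b8_u9 b8_v9 h a b t1 t2 h1 h2 h3 h4
      (by norm_num) (by norm_num) (by norm_num) (by norm_num)
  · exact b8_10.flatM b8_u10 b8_v10 h a b t1 t2 h1 h2 h3 h4
      (by norm_num) (by norm_num) (by norm_num) (by norm_num)
  · exact b8_11.flatM b8_u11 b8_v11 h a b t1 t2 h1 h2 h3 h4
      (by norm_num) (by norm_num) (by norm_num) (by norm_num)
  · exact b8_12.flatM b8_u12 b8_v12 h a b t1 t2 h1 h2 h3 h4
      (by norm_num) (by norm_num) (by norm_num) (by norm_num)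
  · exact b8_3.flatM b8_u3 b8_v3 h b a t1 t2 h1 h2 h3 h4
      (by norm_num) (by norm_num) (by norm_num) (by norm_num)
  · exact b8_4.flatM b8_u4 b8_v4 h b a t1 t2 h1 h2 h3 h4
      (by norm_num) (by norm_num) (by norm_num) (by norm_num)
  · exact b8_5.flatM b8_u5 b8_v5 h b a t1 t2 h1 h2 h3 h4
      (by norm_num) (by norm_num) (by norm_num) (by norm_num)
  · exact b8_14.flatM b8_u14 b8_v14 h b a t1 t2 h1 h2 h3 h4
      (by norm_num) (by norm_num) (by norm_num) (by norm_num)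
  · exact b8_15.flatM b8_u15 b8_v15 h b a t1 t2 h1 h2 h3 h4
      (by norm_num) (by norm_num) (by norm_num) (by norm_num)
  · exact b8_16.flatM b8_u16 b8_v16 h b a t1 t2 h1 h2 h3 h4
      (by norm_num) (by norm_num) (by norm_num) (by norm_num)
  · exact b8_17.flatM b8_u17 b8_v17 h b a t1 t2 h1 h2 h3 h4
      (by norm_num) (by norm_num) (by norm_num) (by norm_num)
  · exact b8_18.flatM b8_u18 b8_v18 h b a t1 t2 h1 h2 h3 h4
      (by norm_num) (by norm_num) (by norm_num) (by norm_num)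
  · exact b8_19.flatM b8_u19 b8_v19 h b a t1 t2 h1 h2 h3 h4
      (by norm_num) (by norm_num) (by norm_num) (by norm_num)
  · exact b8_20.flatM b8_u20 b8_v20 h b a t1 t2 h1 h2 h3 h4
      (by norm_num) (by norm_num) (by norm_num) (by norm_num)
  · exact b8_13.flatM b8_u13 b8_v13 h a b t1 t2 h1 h2 h3 h4
      (by norm_num) (by norm_num) (by norm_num) (by norm_num)

end Pool.Agent.S3.Ck
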