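import Pool.Agent.S3.Ck.Cos
import Pool.Agent.S3.Ck.SoundG

/-!
# Flats: b9
-/

set_option autoImplicit false
set_option maxRecDepth 100000

namespace Pool.Agent.S3.Ck

open Complex

private theorem b9_0_0 : FaceH ⟨0, 741458, 0, 693433, 0⟩
    ⟨857925, 741458, 0, 693433, 0⟩ :=
  faceH_of (n := 60) (x1 := 1048576) (y1 := 331590) (r0 := 139599) (r1 := 14320381)
    (by decide +kernel) (by decide +kernel)

private theorem b9_0_1 : FaceH ⟨857925, 741458, 0, 693433, 0⟩
    ⟨0, 741458, 0, 693433, 0⟩ :=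
  faceH_of (n := 60) (x1 := 331590) (y1 := 1048576) (r0 := 76779) (r1 := 7876213)
    (by decide +kernel) (by decide +kernel)

private theorem b9_0_2 : FaceV ⟨0, 741458, 0, 693433, 0⟩
    ⟨857925, 741458, 0, 693433, 0⟩ :=
  faceV_of (n := 60) (x1 := 1048576) (y1 := 331590) (r0 := 139599) (r1 := 14320381)
    (by decide +kernel) (by decide +kernel) (by decide +kernel)

private theorem b9_0_3 : FaceV ⟨857925, 741458, 0, 693433, 0⟩
    ⟨0, 741458, 0, 693433, 0⟩ :=
  faceV_of (n := 60) (x1 := 331590) (y1 := 1048576) (r0 := 76779) (r1 := 7876213)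
    (by decide +kernel) (by decide +kernel) (by decide +kernel)

private theorem b9_u0 : VD ⟨0, 741458, 0, 693433, 0⟩ 1 (73 / 200) (3 / 8) :=
  ⟨by decide +kernel, by norm_num, by norm_num [R], cu_3_8, Or.inr cl_73_200⟩

private theorem b9_v0 : VD ⟨857925, 741458, 0, 693433, 0⟩ (1 / 10) (73 / 200) (3 / 8) :=
  ⟨by decide +kernel, by norm_num, by norm_num [R], cu_3_8, Or.inr cl_73_200⟩

private theorem b9_0 : Rgn ⟨0, 741458, 0, 693433, 0⟩
    ⟨857925, 741458, 0, 693433, 0⟩ :=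
  rgn_of b9_0_0 b9_0_1 (Or.inr b9_0_2) (Or.inr b9_0_3)

private theorem b9_1_0 : FaceH ⟨32430, 741458, 0, 693433, 0⟩
    ⟨699050, 741458, 0, 693433, 0⟩ :=
  faceH_of (n := 60) (x1 := 1016633) (y1 := 468938) (r0 := 127965) (r1 := 13890772)
    (by decide +kernel) (by decide +kernel)

private theorem b9_1_1 : FaceH ⟨699050, 741458, 0, 693433, 0⟩
    ⟨32430, 741458, 0, 693433, 0⟩ :=
  faceH_of (n := 60) (x1 := 468938) (y1 := 1016633) (r0 := 79154) (r1 := 8592232)
    (by decide +kernel) (by decide +kernel)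

private theorem b9_1_2 : FaceV ⟨32430, 741458, 0, 693433, 0⟩
    ⟨699050, 741458, 0, 693433, 0⟩ :=
  faceV_of (n := 60) (x1 := 1016633) (y1 := 468938) (r0 := 127965) (r1 := 13890772)
    (by decide +kernel) (by decide +kernel) (by decide +kernel)

private theorem b9_1_3 : FaceV ⟨699050, 741458, 0, 693433, 0⟩
    ⟨32430, 741458, 0, 693433, 0⟩ :=
  faceV_of (n := 60) (x1 := 468938) (y1 := 1016633) (r0 := 79154) (r1 := 8592232)
    (by decide +kernel) (by decide +kernel) (by decide +kernel)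

private theorem b9_u1 : VD ⟨32430, 741458, 0, 693433, 0⟩ (47 / 50) (73 / 200) (3 / 8) :=
  ⟨by decide +kernel, by norm_num, by norm_num [R], cu_3_8, Or.inr cl_73_200⟩

private theorem b9_v1 : VD ⟨699050, 741458, 0, 693433, 0⟩ (1 / 5) (73 / 200) (3 / 8) :=
  ⟨by decide +kernel, by norm_num, by norm_num [R], cu_3_8, Or.inr cl_73_200⟩

private theorem b9_1 : Rgn ⟨32430, 741458, 0, 693433, 0⟩
    ⟨699050, 741458, 0, 693433, 0⟩ :=
  rgn_of b9_1_0 b9_1_1 (Or.inr b9_1_2) (Or.inr b9_1_3)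

private theorem b9_2_0 : FaceH ⟨85019, 741458, 0, 693433, 0⟩
    ⟨629145, 741458, 0, 693433, 0⟩ :=
  faceH_of (n := 60) (x1 := 966740) (y1 := 524289) (r0 := 122847) (r1 := 13246360)
    (by decide +kernel) (by decide +kernel)

private theorem b9_2_1 : FaceH ⟨629145, 741458, 0, 693433, 0⟩
    ⟨85019, 741458, 0, 693433, 0⟩ :=
  faceH_of (n := 60) (x1 := 524289) (y1 := 966740) (r0 := 83004) (r1 := 8950241)
    (by decide +kernel) (by decide +kernel)

private theorem b9_2_2 : FaceV ⟨85019, 741458, 0, 693433, 0⟩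
    ⟨629145, 741458, 0, 693433, 0⟩ :=
  faceV_of (n := 60) (x1 := 966740) (y1 := 524289) (r0 := 122847) (r1 := 13246360)
    (by decide +kernel) (by decide +kernel) (by decide +kernel)

private theorem b9_2_3 : FaceV ⟨629145, 741458, 0, 693433, 0⟩
    ⟨85019, 741458, 0, 693433, 0⟩ :=
  faceV_of (n := 60) (x1 := 524289) (y1 := 966740) (r0 := 83004) (r1 := 8950241)
    (by decide +kernel) (by decide +kernel) (by decide +kernel)

private theorem b9_u2 : VD ⟨85019, 741458, 0, 693433, 0⟩ (17 / 20) (73 / 200) (3 / 8) :=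
  ⟨by decide +kernel, by norm_num, by norm_num [R], cu_3_8, Or.inr cl_73_200⟩

private theorem b9_v2 : VD ⟨629145, 741458, 0, 693433, 0⟩ (1 / 4) (73 / 200) (3 / 8) :=
  ⟨by decide +kernel, by norm_num, by norm_num [R], cu_3_8, Or.inr cl_73_200⟩

private theorem b9_2 : Rgn ⟨85019, 741458, 0, 693433, 0⟩
    ⟨629145, 741458, 0, 693433, 0⟩ :=
  rgn_of b9_2_0 b9_2_1 (Or.inr b9_2_2) (Or.inr b9_2_3)

private theorem b9_3_0 : FaceH ⟨857925, 741458, 0, 693433, 0⟩
    ⟨0, 741458, 0, 693433, 0⟩ :=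
  faceH_of (n := 60) (x1 := 331590) (y1 := 1048576) (r0 := 76779) (r1 := 7876213)
    (by decide +kernel) (by decide +kernel)

private theorem b9_3_1 : FaceH ⟨0, 741458, 0, 693433, 0⟩
    ⟨857925, 741458, 0, 693433, 0⟩ :=
  faceH_of (n := 60) (x1 := 1048576) (y1 := 331590) (r0 := 139599) (r1 := 14320381)
    (by decide +kernel) (by decide +kernel)

private theorem b9_3_2 : FaceV ⟨857925, 741458, 0, 693433, 0⟩
    ⟨0, 741458, 0, 693433, 0⟩ :=
  faceV_of (n := 60) (x1 := 331590) (y1 := 1048576) (r0 := 76779) (r1 := 7876213)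
    (by decide +kernel) (by decide +kernel) (by decide +kernel)

private theorem b9_3_3 : FaceV ⟨0, 741458, 0, 693433, 0⟩
    ⟨857925, 741458, 0, 693433, 0⟩ :=
  faceV_of (n := 60) (x1 := 1048576) (y1 := 331590) (r0 := 139599) (r1 := 14320381)
    (by decide +kernel) (by decide +kernel) (by decide +kernel)

private theorem b9_u3 : VD ⟨857925, 741458, 0, 693433, 0⟩ (1 / 10) (73 / 200) (3 / 8) :=
  ⟨by decide +kernel, by norm_num, by norm_num [R], cu_3_8, Or.inr cl_73_200⟩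

private theorem b9_v3 : VD ⟨0, 741458, 0, 693433, 0⟩ 1 (73 / 200) (3 / 8) :=
  ⟨by decide +kernel, by norm_num, by norm_num [R], cu_3_8, Or.inr cl_73_200⟩

private theorem b9_3 : Rgn ⟨857925, 741458, 0, 693433, 0⟩
    ⟨0, 741458, 0, 693433, 0⟩ :=
  rgn_of b9_3_0 b9_3_1 (Or.inr b9_3_2) (Or.inr b9_3_3)

private theorem b9_4_0 : FaceH ⟨699050, 741458, 0, 693433, 0⟩
    ⟨32430, 741458, 0, 693433, 0⟩ :=
  faceH_of (n := 60) (x1 := 468938) (y1 := 1016633) (r0 := 79154) (r1 := 8592232)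
    (by decide +kernel) (by decide +kernel)

private theorem b9_4_1 : FaceH ⟨32430, 741458, 0, 693433, 0⟩
    ⟨699050, 741458, 0, 693433, 0⟩ :=
  faceH_of (n := 60) (x1 := 1016633) (y1 := 468938) (r0 := 127965) (r1 := 13890772)
    (by decide +kernel) (by decide +kernel)

private theorem b9_4_2 : FaceV ⟨699050, 741458, 0, 693433, 0⟩
    ⟨32430, 741458, 0, 693433, 0⟩ :=
  faceV_of (n := 60) (x1 := 468938) (y1 := 1016633) (r0 := 79154) (r1 := 8592232)
    (by decide +kernel) (by decide +kernel) (by decide +kernel)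

private theorem b9_4_3 : FaceV ⟨32430, 741458, 0, 693433, 0⟩
    ⟨699050, 741458, 0, 693433, 0⟩ :=
  faceV_of (n := 60) (x1 := 1016633) (y1 := 468938) (r0 := 127965) (r1 := 13890772)
    (by decide +kernel) (by decide +kernel) (by decide +kernel)

private theorem b9_u4 : VD ⟨699050, 741458, 0, 693433, 0⟩ (1 / 5) (73 / 200) (3 / 8) :=
  ⟨by decide +kernel, by norm_num, by norm_num [R], cu_3_8, Or.inr cl_73_200⟩

private theorem b9_v4 : VD ⟨32430, 741458, 0, 693433, 0⟩ (47 / 50) (73 / 200) (3 / 8) :=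
  ⟨by decide +kernel, by norm_num, by norm_num [R], cu_3_8, Or.inr cl_73_200⟩

private theorem b9_4 : Rgn ⟨699050, 741458, 0, 693433, 0⟩
    ⟨32430, 741458, 0, 693433, 0⟩ :=
  rgn_of b9_4_0 b9_4_1 (Or.inr b9_4_2) (Or.inr b9_4_3)

private theorem b9_5_0 : FaceH ⟨629145, 741458, 0, 693433, 0⟩
    ⟨85019, 741458, 0, 693433, 0⟩ :=
  faceH_of (n := 60) (x1 := 524289) (y1 := 966740) (r0 := 83004) (r1 := 8950241)
    (by decide +kernel) (by decide +kernel)

private theorem b9_5_1 : FaceH ⟨85019, 741458, 0, 693433, 0⟩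
    ⟨629145, 741458, 0, 693433, 0⟩ :=
  faceH_of (n := 60) (x1 := 966740) (y1 := 524289) (r0 := 122847) (r1 := 13246360)
    (by decide +kernel) (by decide +kernel)

private theorem b9_5_2 : FaceV ⟨629145, 741458, 0, 693433, 0⟩
    ⟨85019, 741458, 0, 693433, 0⟩ :=
  faceV_of (n := 60) (x1 := 524289) (y1 := 966740) (r0 := 83004) (r1 := 8950241)
    (by decide +kernel) (by decide +kernel) (by decide +kernel)

private theorem b9_5_3 : FaceV ⟨85019, 741458, 0, 693433, 0⟩
    ⟨629145, 741458, 0, 693433, 0⟩ :=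
  faceV_of (n := 60) (x1 := 966740) (y1 := 524289) (r0 := 122847) (r1 := 13246360)
    (by decide +kernel) (by decide +kernel) (by decide +kernel)

private theorem b9_u5 : VD ⟨629145, 741458, 0, 693433, 0⟩ (1 / 4) (73 / 200) (3 / 8) :=
  ⟨by decide +kernel, by norm_num, by norm_num [R], cu_3_8, Or.inr cl_73_200⟩

private theorem b9_v5 : VD ⟨85019, 741458, 0, 693433, 0⟩ (17 / 20) (73 / 200) (3 / 8) :=
  ⟨by decide +kernel, by norm_num, by norm_num [R], cu_3_8, Or.inr cl_73_200⟩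

private theorem b9_5 : Rgn ⟨629145, 741458, 0, 693433, 0⟩
    ⟨85019, 741458, 0, 693433, 0⟩ :=
  rgn_of b9_5_0 b9_5_1 (Or.inr b9_5_2) (Or.inr b9_5_3)

private theorem b9_6_0 : FaceH ⟨110071, 741458, 0, 693433, 0⟩
    ⟨564617, 741458, 0, 693433, 0⟩ :=
  faceH_of (n := 60) (x1 := 943719) (y1 := 574330) (r0 := 118122) (r1 := 12959950)
    (by decide +kernel) (by decide +kernel)

private theorem b9_6_1 : FaceH ⟨564617, 741458, 0, 693433, 0⟩
    ⟨110071, 741458, 0, 693433, 0⟩ :=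
  faceH_of (n := 60) (x1 := 574330) (y1 := 943719) (r0 := 84839) (r1 := 9308252)
    (by decide +kernel) (by decide +kernel)

private theorem b9_6_2 : FaceV ⟨110071, 741458, 0, 693433, 0⟩
    ⟨564617, 741458, 0, 693433, 0⟩ :=
  faceV_of (n := 60) (x1 := 943719) (y1 := 574330) (r0 := 118122) (r1 := 12959950)
    (by decide +kernel) (by decide +kernel) (by decide +kernel)

private theorem b9_6_3 : FaceV ⟨564617, 741458, 0, 693433, 0⟩
    ⟨110071, 741458, 0, 693433, 0⟩ :=
  faceV_of (n := 60) (x1 := 574330) (y1 := 943719) (r0 := 84839) (r1 := 9308252)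
    (by decide +kernel) (by decide +kernel) (by decide +kernel)

private theorem b9_u6 : VD ⟨110071, 741458, 0, 693433, 0⟩ (81 / 100) (73 / 200) (3 / 8) :=
  ⟨by decide +kernel, by norm_num, by norm_num [R], cu_3_8, Or.inr cl_73_200⟩

private theorem b9_v6 : VD ⟨564617, 741458, 0, 693433, 0⟩ (3 / 10) (73 / 200) (3 / 8) :=
  ⟨by decide +kernel, by norm_num, by norm_num [R], cu_3_8, Or.inr cl_73_200⟩

private theorem b9_6 : Rgn ⟨110071, 741458, 0, 693433, 0⟩
    ⟨564617, 741458, 0, 693433, 0⟩ :=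
  rgn_of b9_6_0 b9_6_1 (Or.inr b9_6_2) (Or.inr b9_6_3)

private theorem b9_7_0 : FaceH ⟨132918, 741458, 0, 693433, 0⟩
    ⟨504869, 741458, 0, 693433, 0⟩ :=
  faceH_of (n := 60) (x1 := 923105) (y1 := 620347) (r0 := 113747) (r1 := 12709339)
    (by decide +kernel) (by decide +kernel)

private theorem b9_7_1 : FaceH ⟨504869, 741458, 0, 693433, 0⟩
    ⟨132918, 741458, 0, 693433, 0⟩ :=
  faceH_of (n := 60) (x1 := 620347) (y1 := 923105) (r0 := 86512) (r1 := 9666263)
    (by decide +kernel) (by decide +kernel)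

private theorem b9_7_2 : FaceV ⟨132918, 741458, 0, 693433, 0⟩
    ⟨504869, 741458, 0, 693433, 0⟩ :=
  faceV_of (n := 60) (x1 := 923105) (y1 := 620347) (r0 := 113747) (r1 := 12709339)
    (by decide +kernel) (by decide +kernel) (by decide +kernel)

private theorem b9_7_3 : FaceV ⟨504869, 741458, 0, 693433, 0⟩
    ⟨132918, 741458, 0, 693433, 0⟩ :=
  faceV_of (n := 60) (x1 := 620347) (y1 := 923105) (r0 := 86512) (r1 := 9666263)
    (by decide +kernel) (by decide +kernel) (by decide +kernel)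

private theorem b9_u7 : VD ⟨132918, 741458, 0, 693433, 0⟩ (31 / 40) (73 / 200) (3 / 8) :=
  ⟨by decide +kernel, by norm_num, by norm_num [R], cu_3_8, Or.inr cl_73_200⟩

private theorem b9_v7 : VD ⟨504869, 741458, 0, 693433, 0⟩ (7 / 20) (73 / 200) (3 / 8) :=
  ⟨by decide +kernel, by norm_num, by norm_num [R], cu_3_8, Or.inr cl_73_200⟩

private theorem b9_7 : Rgn ⟨132918, 741458, 0, 693433, 0⟩
    ⟨504869, 741458, 0, 693433, 0⟩ :=
  rgn_of b9_7_0 b9_7_1 (Or.inr b9_7_2) (Or.inr b9_7_3)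

private theorem b9_8_0 : FaceH ⟨153230, 741458, 0, 693433, 0⟩
    ⟨449389, 741458, 0, 693433, 0⟩ :=
  faceH_of (n := 60) (x1 := 905062) (y1 := 663179) (r0 := 109684) (r1 := 12494535)
    (by decide +kernel) (by decide +kernel)

private theorem b9_8_1 : FaceH ⟨449389, 741458, 0, 693433, 0⟩
    ⟨153230, 741458, 0, 693433, 0⟩ :=
  faceH_of (n := 60) (x1 := 663179) (y1 := 905062) (r0 := 87999) (r1 := 10024271)
    (by decide +kernel) (by decide +kernel)

private theorem b9_8_2 : FaceV ⟨153230, 741458, 0, 693433, 0⟩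
    ⟨449389, 741458, 0, 693433, 0⟩ :=
  faceV_of (n := 60) (x1 := 905062) (y1 := 663179) (r0 := 109684) (r1 := 12494535)
    (by decide +kernel) (by decide +kernel) (by decide +kernel)

private theorem b9_8_3 : FaceV ⟨449389, 741458, 0, 693433, 0⟩
    ⟨153230, 741458, 0, 693433, 0⟩ :=
  faceV_of (n := 60) (x1 := 663179) (y1 := 905062) (r0 := 87999) (r1 := 10024271)
    (by decide +kernel) (by decide +kernel) (by decide +kernel)

private theorem b9_u8 : VD ⟨153230, 741458, 0, 693433, 0⟩ (149 / 200) (73 / 200) (3 / 8) :=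
  ⟨by decide +kernel, by norm_num, by norm_num [R], cu_3_8, Or.inr cl_73_200⟩

private theorem b9_v8 : VD ⟨449389, 741458, 0, 693433, 0⟩ (2 / 5) (73 / 200) (3 / 8) :=
  ⟨by decide +kernel, by norm_num, by norm_num [R], cu_3_8, Or.inr cl_73_200⟩

private theorem b9_8 : Rgn ⟨153230, 741458, 0, 693433, 0⟩
    ⟨449389, 741458, 0, 693433, 0⟩ :=
  rgn_of b9_8_0 b9_8_1 (Or.inr b9_8_2) (Or.inr b9_8_3)

private theorem b9_9_0 : FaceH ⟨174253, 741458, 0, 693433, 0⟩
    ⟨397735, 741458, 0, 693433, 0⟩ :=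
  faceH_of (n := 60) (x1 := 886652) (y1 := 703407) (r0 := 105902) (r1 := 12279728)
    (by decide +kernel) (by decide +kernel)

private theorem b9_9_1 : FaceH ⟨397735, 741458, 0, 693433, 0⟩
    ⟨174253, 741458, 0, 693433, 0⟩ :=
  faceH_of (n := 60) (x1 := 703407) (y1 := 886652) (r0 := 89538) (r1 := 10382281)
    (by decide +kernel) (by decide +kernel)

private theorem b9_9_2 : FaceV ⟨174253, 741458, 0, 693433, 0⟩
    ⟨397735, 741458, 0, 693433, 0⟩ :=
  faceV_of (n := 60) (x1 := 886652) (y1 := 703407) (r0 := 105902) (r1 := 12279728)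
    (by decide +kernel) (by decide +kernel) (by decide +kernel)

private theorem b9_9_3 : FaceV ⟨397735, 741458, 0, 693433, 0⟩
    ⟨174253, 741458, 0, 693433, 0⟩ :=
  faceV_of (n := 60) (x1 := 703407) (y1 := 886652) (r0 := 89538) (r1 := 10382281)
    (by decide +kernel) (by decide +kernel) (by decide +kernel)

private theorem b9_u9 : VD ⟨174253, 741458, 0, 693433, 0⟩ (143 / 200) (73 / 200) (3 / 8) :=
  ⟨by decide +kernel, by norm_num, by norm_num [R], cu_3_8, Or.inr cl_73_200⟩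

private theorem b9_v9 : VD ⟨397735, 741458, 0, 693433, 0⟩ (9 / 20) (73 / 200) (3 / 8) :=
  ⟨by decide +kernel, by norm_num, by norm_num [R], cu_3_8, Or.inr cl_73_200⟩

private theorem b9_9 : Rgn ⟨174253, 741458, 0, 693433, 0⟩
    ⟨397735, 741458, 0, 693433, 0⟩ :=
  rgn_of b9_9_0 b9_9_1 (Or.inr b9_9_2) (Or.inr b9_9_3)

private theorem b9_10_0 : FaceH ⟨192342, 741458, 0, 693433, 0⟩
    ⟨349525, 741458, 0, 693433, 0⟩ :=
  faceH_of (n := 60) (x1 := 871013) (y1 := 741456) (r0 := 102372) (r1 := 12100725)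
    (by decide +kernel) (by decide +kernel)

private theorem b9_10_1 : FaceH ⟨349525, 741458, 0, 693433, 0⟩
    ⟨192342, 741458, 0, 693433, 0⟩ :=
  faceH_of (n := 60) (x1 := 741456) (y1 := 871013) (r0 := 90863) (r1 := 10740288)
    (by decide +kernel) (by decide +kernel)

private theorem b9_10_2 : FaceV ⟨192342, 741458, 0, 693433, 0⟩
    ⟨349525, 741458, 0, 693433, 0⟩ :=
  faceV_of (n := 60) (x1 := 871013) (y1 := 741456) (r0 := 102372) (r1 := 12100725)
    (by decide +kernel) (by decide +kernel) (by decide +kernel)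

private theorem b9_10_3 : FaceV ⟨349525, 741458, 0, 693433, 0⟩
    ⟨192342, 741458, 0, 693433, 0⟩ :=
  faceV_of (n := 60) (x1 := 741456) (y1 := 871013) (r0 := 90863) (r1 := 10740288)
    (by decide +kernel) (by decide +kernel) (by decide +kernel)

private theorem b9_u10 : VD ⟨192342, 741458, 0, 693433, 0⟩ (69 / 100) (73 / 200) (3 / 8) :=
  ⟨by decide +kernel, by norm_num, by norm_num [R], cu_3_8, Or.inr cl_73_200⟩

private theorem b9_v10 : VD ⟨349525, 741458, 0, 693433, 0⟩ (1 / 2) (73 / 200) (3 / 8) :=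
  ⟨by decide +kernel, by norm_num, by norm_num [R], cu_3_8, Or.inr cl_73_200⟩

private theorem b9_10 : Rgn ⟨192342, 741458, 0, 693433, 0⟩
    ⟨349525, 741458, 0, 693433, 0⟩ :=
  rgn_of b9_10_0 b9_10_1 (Or.inr b9_10_2) (Or.inr b9_10_3)

private theorem b9_11_0 : FaceH ⟨207203, 741458, 0, 693433, 0⟩
    ⟨304425, 741458, 0, 693433, 0⟩ :=
  faceH_of (n := 60) (x1 := 858297) (y1 := 777646) (r0 := 99070) (r1 := 11957524)
    (by decide +kernel) (by decide +kernel)

private theorem b9_11_1 : FaceH ⟨304425, 741458, 0, 693433, 0⟩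
    ⟨207203, 741458, 0, 693433, 0⟩ :=
  faceH_of (n := 60) (x1 := 777646) (y1 := 858297) (r0 := 91951) (r1 := 11098297)
    (by decide +kernel) (by decide +kernel)

private theorem b9_11_2 : FaceV ⟨207203, 741458, 0, 693433, 0⟩
    ⟨304425, 741458, 0, 693433, 0⟩ :=
  faceV_of (n := 60) (x1 := 858297) (y1 := 777646) (r0 := 99070) (r1 := 11957524)
    (by decide +kernel) (by decide +kernel) (by decide +kernel)

private theorem b9_11_3 : FaceV ⟨304425, 741458, 0, 693433, 0⟩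
    ⟨207203, 741458, 0, 693433, 0⟩ :=
  faceV_of (n := 60) (x1 := 777646) (y1 := 858297) (r0 := 91951) (r1 := 11098297)
    (by decide +kernel) (by decide +kernel) (by decide +kernel)

private theorem b9_u11 : VD ⟨207203, 741458, 0, 693433, 0⟩ (67 / 100) (73 / 200) (3 / 8) :=
  ⟨by decide +kernel, by norm_num, by norm_num [R], cu_3_8, Or.inr cl_73_200⟩

private theorem b9_v11 : VD ⟨304425, 741458, 0, 693433, 0⟩ (11 / 20) (73 / 200) (3 / 8) :=
  ⟨by decide +kernel, by norm_num, by norm_num [R], cu_3_8, Or.inr cl_73_200⟩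

private theorem b9_11 : Rgn ⟨207203, 741458, 0, 693433, 0⟩
    ⟨304425, 741458, 0, 693433, 0⟩ :=
  rgn_of b9_11_0 b9_11_1 (Or.inr b9_11_2) (Or.inr b9_11_3)

private theorem b9_12_0 : FaceH ⟨222425, 741458, 0, 693433, 0⟩
    ⟨262144, 741458, 0, 693433, 0⟩ :=
  faceH_of (n := 60) (x1 := 845390) (y1 := 812224) (r0 := 95974) (r1 := 11814316)
    (by decide +kernel) (by decide +kernel)

private theorem b9_12_1 : FaceH ⟨262144, 741458, 0, 693433, 0⟩
    ⟨222425, 741458, 0, 693433, 0⟩ :=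
  faceH_of (n := 60) (x1 := 812224) (y1 := 845390) (r0 := 93066) (r1 := 11456305)
    (by decide +kernel) (by decide +kernel)

private theorem b9_12_2 : FaceV ⟨222425, 741458, 0, 693433, 0⟩
    ⟨262144, 741458, 0, 693433, 0⟩ :=
  faceV_of (n := 60) (x1 := 845390) (y1 := 812224) (r0 := 95974) (r1 := 11814316)
    (by decide +kernel) (by decide +kernel) (by decide +kernel)

private theorem b9_12_3 : FaceV ⟨262144, 741458, 0, 693433, 0⟩
    ⟨222425, 741458, 0, 693433, 0⟩ :=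
  faceV_of (n := 60) (x1 := 812224) (y1 := 845390) (r0 := 93066) (r1 := 11456305)
    (by decide +kernel) (by decide +kernel) (by decide +kernel)

private theorem b9_u12 : VD ⟨222425, 741458, 0, 693433, 0⟩ (13 / 20) (73 / 200) (3 / 8) :=
  ⟨by decide +kernel, by norm_num, by norm_num [R], cu_3_8, Or.inr cl_73_200⟩

private theorem b9_v12 : VD ⟨262144, 741458, 0, 693433, 0⟩ (3 / 5) (73 / 200) (3 / 8) :=
  ⟨by decide +kernel, by norm_num, by norm_num [R], cu_3_8, Or.inr cl_73_200⟩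

private theorem b9_12 : Rgn ⟨222425, 741458, 0, 693433, 0⟩
    ⟨262144, 741458, 0, 693433, 0⟩ :=
  rgn_of b9_12_0 b9_12_1 (Or.inr b9_12_2) (Or.inr b9_12_3)

private theorem b9_13_0 : FaceH ⟨234085, 741458, 0, 693433, 0⟩
    ⟨234085, 741458, 0, 693433, 0⟩ :=
  faceH_of (n := 60) (x1 := 835579) (y1 := 835579) (r0 := 93919) (r1 := 11706918)
    (by decide +kernel) (by decide +kernel)

private theorem b9_13_1 : FaceH ⟨234085, 741458, 0, 693433, 0⟩
    ⟨234085, 741458, 0, 693433, 0⟩ :=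
  faceH_of (n := 60) (x1 := 835579) (y1 := 835579) (r0 := 93919) (r1 := 11706918)
    (by decide +kernel) (by decide +kernel)

private theorem b9_13_2 : FaceV ⟨234085, 741458, 0, 693433, 0⟩
    ⟨234085, 741458, 0, 693433, 0⟩ :=
  faceV_of (n := 60) (x1 := 835579) (y1 := 835579) (r0 := 93919) (r1 := 11706918)
    (by decide +kernel) (by decide +kernel) (by decide +kernel)

private theorem b9_13_3 : FaceV ⟨234085, 741458, 0, 693433, 0⟩
    ⟨234085, 741458, 0, 693433, 0⟩ :=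
  faceV_of (n := 60) (x1 := 835579) (y1 := 835579) (r0 := 93919) (r1 := 11706918)
    (by decide +kernel) (by decide +kernel) (by decide +kernel)

private theorem b9_u13 : VD ⟨234085, 741458, 0, 693433, 0⟩ (127 / 200) (73 / 200) (3 / 8) :=
  ⟨by decide +kernel, by norm_num, by norm_num [R], cu_3_8, Or.inr cl_73_200⟩

private theorem b9_v13 : VD ⟨234085, 741458, 0, 693433, 0⟩ (127 / 200) (73 / 200) (3 / 8) :=
  ⟨by decide +kernel, by norm_num, by norm_num [R], cu_3_8, Or.inr cl_73_200⟩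

private theorem b9_13 : Rgn ⟨234085, 741458, 0, 693433, 0⟩
    ⟨234085, 741458, 0, 693433, 0⟩ :=
  rgn_of b9_13_0 b9_13_1 (Or.inr b9_13_2) (Or.inr b9_13_3)

private theorem b9_14_0 : FaceH ⟨564617, 741458, 0, 693433, 0⟩
    ⟨110071, 741458, 0, 693433, 0⟩ :=
  faceH_of (n := 60) (x1 := 574330) (y1 := 943719) (r0 := 84839) (r1 := 9308252)
    (by decide +kernel) (by decide +kernel)

private theorem b9_14_1 : FaceH ⟨110071, 741458, 0, 693433, 0⟩
    ⟨564617, 741458, 0, 693433, 0⟩ :=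
  faceH_of (n := 60) (x1 := 943719) (y1 := 574330) (r0 := 118122) (r1 := 12959950)
    (by decide +kernel) (by decide +kernel)

private theorem b9_14_2 : FaceV ⟨564617, 741458, 0, 693433, 0⟩
    ⟨110071, 741458, 0, 693433, 0⟩ :=
  faceV_of (n := 60) (x1 := 574330) (y1 := 943719) (r0 := 84839) (r1 := 9308252)
    (by decide +kernel) (by decide +kernel) (by decide +kernel)

private theorem b9_14_3 : FaceV ⟨110071, 741458, 0, 693433, 0⟩
    ⟨564617, 741458, 0, 693433, 0⟩ :=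
  faceV_of (n := 60) (x1 := 943719) (y1 := 574330) (r0 := 118122) (r1 := 12959950)
    (by decide +kernel) (by decide +kernel) (by decide +kernel)

private theorem b9_u14 : VD ⟨564617, 741458, 0, 693433, 0⟩ (3 / 10) (73 / 200) (3 / 8) :=
  ⟨by decide +kernel, by norm_num, by norm_num [R], cu_3_8, Or.inr cl_73_200⟩

private theorem b9_v14 : VD ⟨110071, 741458, 0, 693433, 0⟩ (81 / 100) (73 / 200) (3 / 8) :=
  ⟨by decide +kernel, by norm_num, by norm_num [R], cu_3_8, Or.inr cl_73_200⟩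

private theorem b9_14 : Rgn ⟨564617, 741458, 0, 693433, 0⟩
    ⟨110071, 741458, 0, 693433, 0⟩ :=
  rgn_of b9_14_0 b9_14_1 (Or.inr b9_14_2) (Or.inr b9_14_3)

private theorem b9_15_0 : FaceH ⟨504869, 741458, 0, 693433, 0⟩
    ⟨132918, 741458, 0, 693433, 0⟩ :=
  faceH_of (n := 60) (x1 := 620347) (y1 := 923105) (r0 := 86512) (r1 := 9666263)
    (by decide +kernel) (by decide +kernel)

private theorem b9_15_1 : FaceH ⟨132918, 741458, 0, 693433, 0⟩
    ⟨504869, 741458, 0, 693433, 0⟩ :=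
  faceH_of (n := 60) (x1 := 923105) (y1 := 620347) (r0 := 113747) (r1 := 12709339)
    (by decide +kernel) (by decide +kernel)

private theorem b9_15_2 : FaceV ⟨504869, 741458, 0, 693433, 0⟩
    ⟨132918, 741458, 0, 693433, 0⟩ :=
  faceV_of (n := 60) (x1 := 620347) (y1 := 923105) (r0 := 86512) (r1 := 9666263)
    (by decide +kernel) (by decide +kernel) (by decide +kernel)

private theorem b9_15_3 : FaceV ⟨132918, 741458, 0, 693433, 0⟩
    ⟨504869, 741458, 0, 693433, 0⟩ :=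
  faceV_of (n := 60) (x1 := 923105) (y1 := 620347) (r0 := 113747) (r1 := 12709339)
    (by decide +kernel) (by decide +kernel) (by decide +kernel)

private theorem b9_u15 : VD ⟨504869, 741458, 0, 693433, 0⟩ (7 / 20) (73 / 200) (3 / 8) :=
  ⟨by decide +kernel, by norm_num, by norm_num [R], cu_3_8, Or.inr cl_73_200⟩

private theorem b9_v15 : VD ⟨132918, 741458, 0, 693433, 0⟩ (31 / 40) (73 / 200) (3 / 8) :=
  ⟨by decide +kernel, by norm_num, by norm_num [R], cu_3_8, Or.inr cl_73_200⟩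

private theorem b9_15 : Rgn ⟨504869, 741458, 0, 693433, 0⟩
    ⟨132918, 741458, 0, 693433, 0⟩ :=
  rgn_of b9_15_0 b9_15_1 (Or.inr b9_15_2) (Or.inr b9_15_3)

private theorem b9_16_0 : FaceH ⟨449389, 741458, 0, 693433, 0⟩
    ⟨153230, 741458, 0, 693433, 0⟩ :=
  faceH_of (n := 60) (x1 := 663179) (y1 := 905062) (r0 := 87999) (r1 := 10024271)
    (by decide +kernel) (by decide +kernel)

private theorem b9_16_1 : FaceH ⟨153230, 741458, 0, 693433, 0⟩
    ⟨449389, 741458, 0, 693433, 0⟩ :=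
  faceH_of (n := 60) (x1 := 905062) (y1 := 663179) (r0 := 109684) (r1 := 12494535)
    (by decide +kernel) (by decide +kernel)

private theorem b9_16_2 : FaceV ⟨449389, 741458, 0, 693433, 0⟩
    ⟨153230, 741458, 0, 693433, 0⟩ :=
  faceV_of (n := 60) (x1 := 663179) (y1 := 905062) (r0 := 87999) (r1 := 10024271)
    (by decide +kernel) (by decide +kernel) (by decide +kernel)

private theorem b9_16_3 : FaceV ⟨153230, 741458, 0, 693433, 0⟩
    ⟨449389, 741458, 0, 693433, 0⟩ :=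
  faceV_of (n := 60) (x1 := 905062) (y1 := 663179) (r0 := 109684) (r1 := 12494535)
    (by decide +kernel) (by decide +kernel) (by decide +kernel)

private theorem b9_u16 : VD ⟨449389, 741458, 0, 693433, 0⟩ (2 / 5) (73 / 200) (3 / 8) :=
  ⟨by decide +kernel, by norm_num, by norm_num [R], cu_3_8, Or.inr cl_73_200⟩

private theorem b9_v16 : VD ⟨153230, 741458, 0, 693433, 0⟩ (149 / 200) (73 / 200) (3 / 8) :=
  ⟨by decide +kernel, by norm_num, by norm_num [R], cu_3_8, Or.inr cl_73_200⟩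

private theorem b9_16 : Rgn ⟨449389, 741458, 0, 693433, 0⟩
    ⟨153230, 741458, 0, 693433, 0⟩ :=
  rgn_of b9_16_0 b9_16_1 (Or.inr b9_16_2) (Or.inr b9_16_3)

private theorem b9_17_0 : FaceH ⟨397735, 741458, 0, 693433, 0⟩
    ⟨174253, 741458, 0, 693433, 0⟩ :=
  faceH_of (n := 60) (x1 := 703407) (y1 := 886652) (r0 := 89538) (r1 := 10382281)
    (by decide +kernel) (by decide +kernel)

private theorem b9_17_1 : FaceH ⟨174253, 741458, 0, 693433, 0⟩
    ⟨397735, 741458, 0, 693433, 0⟩ :=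
  faceH_of (n := 60) (x1 := 886652) (y1 := 703407) (r0 := 105902) (r1 := 12279728)
    (by decide +kernel) (by decide +kernel)

private theorem b9_17_2 : FaceV ⟨397735, 741458, 0, 693433, 0⟩
    ⟨174253, 741458, 0, 693433, 0⟩ :=
  faceV_of (n := 60) (x1 := 703407) (y1 := 886652) (r0 := 89538) (r1 := 10382281)
    (by decide +kernel) (by decide +kernel) (by decide +kernel)

private theorem b9_17_3 : FaceV ⟨174253, 741458, 0, 693433, 0⟩
    ⟨397735, 741458, 0, 693433, 0⟩ :=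
  faceV_of (n := 60) (x1 := 886652) (y1 := 703407) (r0 := 105902) (r1 := 12279728)
    (by decide +kernel) (by decide +kernel) (by decide +kernel)

private theorem b9_u17 : VD ⟨397735, 741458, 0, 693433, 0⟩ (9 / 20) (73 / 200) (3 / 8) :=
  ⟨by decide +kernel, by norm_num, by norm_num [R], cu_3_8, Or.inr cl_73_200⟩

private theorem b9_v17 : VD ⟨174253, 741458, 0, 693433, 0⟩ (143 / 200) (73 / 200) (3 / 8) :=
  ⟨by decide +kernel, by norm_num, by norm_num [R], cu_3_8, Or.inr cl_73_200⟩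

private theorem b9_17 : Rgn ⟨397735, 741458, 0, 693433, 0⟩
    ⟨174253, 741458, 0, 693433, 0⟩ :=
  rgn_of b9_17_0 b9_17_1 (Or.inr b9_17_2) (Or.inr b9_17_3)

private theorem b9_18_0 : FaceH ⟨349525, 741458, 0, 693433, 0⟩
    ⟨192342, 741458, 0, 693433, 0⟩ :=
  faceH_of (n := 60) (x1 := 741456) (y1 := 871013) (r0 := 90863) (r1 := 10740288)
    (by decide +kernel) (by decide +kernel)

private theorem b9_18_1 : FaceH ⟨192342, 741458, 0, 693433, 0⟩
    ⟨349525, 741458, 0, 693433, 0⟩ :=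
  faceH_of (n := 60) (x1 := 871013) (y1 := 741456) (r0 := 102372) (r1 := 12100725)
    (by decide +kernel) (by decide +kernel)

private theorem b9_18_2 : FaceV ⟨349525, 741458, 0, 693433, 0⟩
    ⟨192342, 741458, 0, 693433, 0⟩ :=
  faceV_of (n := 60) (x1 := 741456) (y1 := 871013) (r0 := 90863) (r1 := 10740288)
    (by decide +kernel) (by decide +kernel) (by decide +kernel)

private theorem b9_18_3 : FaceV ⟨192342, 741458, 0, 693433, 0⟩
    ⟨349525, 741458, 0, 693433, 0⟩ :=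
  faceV_of (n := 60) (x1 := 871013) (y1 := 741456) (r0 := 102372) (r1 := 12100725)
    (by decide +kernel) (by decide +kernel) (by decide +kernel)

private theorem b9_u18 : VD ⟨349525, 741458, 0, 693433, 0⟩ (1 / 2) (73 / 200) (3 / 8) :=
  ⟨by decide +kernel, by norm_num, by norm_num [R], cu_3_8, Or.inr cl_73_200⟩

private theorem b9_v18 : VD ⟨192342, 741458, 0, 693433, 0⟩ (69 / 100) (73 / 200) (3 / 8) :=
  ⟨by decide +kernel, by norm_num, by norm_num [R], cu_3_8, Or.inr cl_73_200⟩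

private theorem b9_18 : Rgn ⟨349525, 741458, 0, 693433, 0⟩
    ⟨192342, 741458, 0, 693433, 0⟩ :=
  rgn_of b9_18_0 b9_18_1 (Or.inr b9_18_2) (Or.inr b9_18_3)

private theorem b9_19_0 : FaceH ⟨304425, 741458, 0, 693433, 0⟩
    ⟨207203, 741458, 0, 693433, 0⟩ :=
  faceH_of (n := 60) (x1 := 777646) (y1 := 858297) (r0 := 91951) (r1 := 11098297)
    (by decide +kernel) (by decide +kernel)

private theorem b9_19_1 : FaceH ⟨207203, 741458, 0, 693433, 0⟩
    ⟨304425, 741458, 0, 693433, 0⟩ :=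
  faceH_of (n := 60) (x1 := 858297) (y1 := 777646) (r0 := 99070) (r1 := 11957524)
    (by decide +kernel) (by decide +kernel)

private theorem b9_19_2 : FaceV ⟨304425, 741458, 0, 693433, 0⟩
    ⟨207203, 741458, 0, 693433, 0⟩ :=
  faceV_of (n := 60) (x1 := 777646) (y1 := 858297) (r0 := 91951) (r1 := 11098297)
    (by decide +kernel) (by decide +kernel) (by decide +kernel)

private theorem b9_19_3 : FaceV ⟨207203, 741458, 0, 693433, 0⟩
    ⟨304425, 741458, 0, 693433, 0⟩ :=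
  faceV_of (n := 60) (x1 := 858297) (y1 := 777646) (r0 := 99070) (r1 := 11957524)
    (by decide +kernel) (by decide +kernel) (by decide +kernel)

private theorem b9_u19 : VD ⟨304425, 741458, 0, 693433, 0⟩ (11 / 20) (73 / 200) (3 / 8) :=
  ⟨by decide +kernel, by norm_num, by norm_num [R], cu_3_8, Or.inr cl_73_200⟩

private theorem b9_v19 : VD ⟨207203, 741458, 0, 693433, 0⟩ (67 / 100) (73 / 200) (3 / 8) :=
  ⟨by decide +kernel, by norm_num, by norm_num [R], cu_3_8, Or.inr cl_73_200⟩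

private theorem b9_19 : Rgn ⟨304425, 741458, 0, 693433, 0⟩
    ⟨207203, 741458, 0, 693433, 0⟩ :=
  rgn_of b9_19_0 b9_19_1 (Or.inr b9_19_2) (Or.inr b9_19_3)

private theorem b9_20_0 : FaceH ⟨262144, 741458, 0, 693433, 0⟩
    ⟨222425, 741458, 0, 693433, 0⟩ :=
  faceH_of (n := 60) (x1 := 812224) (y1 := 845390) (r0 := 93066) (r1 := 11456305)
    (by decide +kernel) (by decide +kernel)

private theorem b9_20_1 : FaceH ⟨222425, 741458, 0, 693433, 0⟩
    ⟨262144, 741458, 0, 693433, 0⟩ :=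
  faceH_of (n := 60) (x1 := 845390) (y1 := 812224) (r0 := 95974) (r1 := 11814316)
    (by decide +kernel) (by decide +kernel)

private theorem b9_20_2 : FaceV ⟨262144, 741458, 0, 693433, 0⟩
    ⟨222425, 741458, 0, 693433, 0⟩ :=
  faceV_of (n := 60) (x1 := 812224) (y1 := 845390) (r0 := 93066) (r1 := 11456305)
    (by decide +kernel) (by decide +kernel) (by decide +kernel)

private theorem b9_20_3 : FaceV ⟨222425, 741458, 0, 693433, 0⟩
    ⟨262144, 741458, 0, 693433, 0⟩ :=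
  faceV_of (n := 60) (x1 := 845390) (y1 := 812224) (r0 := 95974) (r1 := 11814316)
    (by decide +kernel) (by decide +kernel) (by decide +kernel)

private theorem b9_u20 : VD ⟨262144, 741458, 0, 693433, 0⟩ (3 / 5) (73 / 200) (3 / 8) :=
  ⟨by decide +kernel, by norm_num, by norm_num [R], cu_3_8, Or.inr cl_73_200⟩

private theorem b9_v20 : VD ⟨222425, 741458, 0, 693433, 0⟩ (13 / 20) (73 / 200) (3 / 8) :=
  ⟨by decide +kernel, by norm_num, by norm_num [R], cu_3_8, Or.inr cl_73_200⟩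

private theorem b9_20 : Rgn ⟨262144, 741458, 0, 693433, 0⟩
    ⟨222425, 741458, 0, 693433, 0⟩ :=
  rgn_of b9_20_0 b9_20_1 (Or.inr b9_20_2) (Or.inr b9_20_3)

theorem flat_b9 {θ θ' : ℝ} {v w : ℂ} (h : T2.Pr θ θ' v w)
    (j : J3 (Real.tan θ ^ 2) (Real.tan θ' ^ 2)) (j' : J3 (Real.tan θ' ^ 2) (Real.tan θ ^ 2))
    (t1 : Real.tan θ ^ 2 < 1) (t2 : Real.tan θ' ^ 2 < 1)
    (h1 : 73 / 200 ≤ v.re) (h2 : v.re ≤ 3 / 8) (h3 : 73 / 200 ≤ w.re) (h4 : w.re ≤ 3 / 8) :
    FlatM (1 / cos (Real.pi * v) ^ 2) (1 / cos (Real.pi * (starRingEnd ℂ) w) ^ 2) := by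
  rcases j.c22 j' t1 t2 with (⟨a, b⟩ | ⟨a, b⟩ | ⟨a, b⟩ | ⟨a, b⟩ | ⟨a, b⟩ | ⟨a, b⟩ | ⟨a, b⟩ | ⟨a, b⟩ | ⟨a, b⟩ | ⟨a, b⟩) |
    (⟨a, b⟩ | ⟨a, b⟩ | ⟨a, b⟩ | ⟨a, b⟩ | ⟨a, b⟩ | ⟨a, b⟩ | ⟨a, b⟩ | ⟨a, b⟩ | ⟨a, b⟩ | ⟨a, b⟩) | ⟨a, b⟩
  · exact b9_0.flatM b9_u0 b9_v0 h a b t1 t2 h1 h2 h3 h4
      (by norm_num) (by norm_num) (by norm_num) (by norm_num)
  · exact b9_1.flatM b9_u1 b9_v1 h a b t1 t2 h1 h2 h3 h4
      (by norm_num) (by norm_num) (by norm_num) (by norm_num)
  · exact b9_2.flatM b9_u2 b9_v2 h a b t1 t2 h1 h2 h3 h4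
      (by norm_num) (by norm_num) (by norm_num) (by norm_num)
  · exact b9_6.flatM b9_u6 b9_v6 h a b t1 t2 h1 h2 h3 h4
      (by norm_num) (by norm_num) (by norm_num) (by norm_num)
  · exact b9_7.flatM b9_u7 b9_v7 h a b t1 t2 h1 h2 h3 h4
      (by norm_num) (by norm_num) (by norm_num) (by norm_num)
  · exact b9_8.flatM b9_u8 b9_v8 h a b t1 t2 h1 h2 h3 h4
      (by norm_num) (by norm_num) (by norm_num) (by norm_num)
  · exact b9_9.flatM b9_u9 b9_v9 h a b t1 t2 h1 h2 h3 h4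
      (by norm_num) (by norm_num) (by norm_num) (by norm_num)
  · exact b9_10.flatM b9_u10 b9_v10 h a b t1 t2 h1 h2 h3 h4
      (by norm_num) (by norm_num) (by norm_num) (by norm_num)
  · exact b9_11.flatM b9_u11 b9_v11 h a b t1 t2 h1 h2 h3 h4
      (by norm_num) (by norm_num) (by norm_num) (by norm_num)
  · exact b9_12.flatM b9_u12 b9_v12 h a b t1 t2 h1 h2 h3 h4
      (by norm_num) (by norm_num) (by norm_num) (by norm_num)
  · exact b9_3.flatM b9_u3 b9_v3 h b a t1 t2 h1 h2 h3 h4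
      (by norm_num) (by norm_num) (by norm_num) (by norm_num)
  · exact b9_4.flatM b9_u4 b9_v4 h b a t1 t2 h1 h2 h3 h4
      (by norm_num) (by norm_num) (by norm_num) (by norm_num)
  · exact b9_5.flatM b9_u5 b9_v5 h b a t1 t2 h1 h2 h3 h4
      (by norm_num) (by norm_num) (by norm_num) (by norm_num)
  · exact b9_14.flatM b9_u14 b9_v14 h b a t1 t2 h1 h2 h3 h4
      (by norm_num) (by norm_num) (by norm_num) (by norm_num)
  · exact b9_15.flatM b9_u15 b9_v15 h b a t1 t2 h1 h2 h3 h4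
      (by norm_num) (by norm_num) (by norm_num) (by norm_num)
  · exact b9_16.flatM b9_u16 b9_v16 h b a t1 t2 h1 h2 h3 h4
      (by norm_num) (by norm_num) (by norm_num) (by norm_num)
  · exact b9_17.flatM b9_u17 b9_v17 h b a t1 t2 h1 h2 h3 h4
      (by norm_num) (by norm_num) (by norm_num) (by norm_num)
  · exact b9_18.flatM b9_u18 b9_v18 h b a t1 t2 h1 h2 h3 h4
      (by norm_num) (by norm_num) (by norm_num) (by norm_num)
  · exact b9_19.flatM b9_u19 b9_v19 h b a t1 t2 h1 h2 h3 h4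
      (by norm_num) (by norm_num) (by norm_num) (by norm_num)
  · exact b9_20.flatM b9_u20 b9_v20 h b a t1 t2 h1 h2 h3 h4
      (by norm_num) (by norm_num) (by norm_num) (by norm_num)
  · exact b9_13.flatM b9_u13 b9_v13 h a b t1 t2 h1 h2 h3 h4
      (by norm_num) (by norm_num) (by norm_num) (by norm_num)

end Pool.Agent.S3.Ck
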