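import Pool.Agent.S3.Ck.Cos
import Pool.Agent.S3.Ck.SoundG

/-!
# Flats: c1
-/

set_option autoImplicit false
set_option maxRecDepth 100000

namespace Pool.Agent.S3.Ck

open Complex

private theorem c1_0_0 : FaceH ⟨0, 324030, 0, 0, 616340⟩
    ⟨857925, 324030, 0, 0, 1048576⟩ :=
  faceH_of (n := 60) (x1 := 1048576) (y1 := 331590) (r0 := 329338) (r1 := 6070073)
    (by decide +kernel) (by decide +kernel)

private theorem c1_0_1 : FaceH ⟨857925, 324030, 0, 0, 1048576⟩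
    ⟨0, 324030, 0, 0, 616340⟩ :=
  faceH_of (n := 60) (x1 := 331590) (y1 := 1048576) (r0 := 181136) (r1 := 3338542)
    (by decide +kernel) (by decide +kernel)

private theorem c1_0_2 : FaceV ⟨0, 324030, 0, 0, 616340⟩
    ⟨857925, 324030, 0, 0, 1048576⟩ :=
  faceV_of (n := 60) (x1 := 1048576) (y1 := 331590) (r0 := 329338) (r1 := 6070073)
    (by decide +kernel) (by decide +kernel) (by decide +kernel)

private theorem c1_u0 : VD ⟨0, 324030, 0, 0, 616340⟩ 1 (3 / 20) (3 / 10) :=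
  ⟨by decide +kernel, by norm_num, by norm_num [R], cu_3_10, Or.inr cl_3_20⟩

private theorem c1_v0 : VD ⟨857925, 324030, 0, 0, 1048576⟩ (1 / 10) 0 (3 / 10) :=
  ⟨by decide +kernel, by norm_num, by norm_num [R], cu_3_10, Or.inl rfl⟩

private theorem c1_0 : Rgn ⟨0, 324030, 0, 0, 616340⟩
    ⟨857925, 324030, 0, 0, 1048576⟩ :=
  rgn_of c1_0_0 c1_0_1 (Or.inr c1_0_2) (Or.inl rfl)

private theorem c1_1_0 : FaceH ⟨32430, 324030, 0, 0, 616340⟩
    ⟨699050, 324030, 0, 0, 1048576⟩ :=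
  faceH_of (n := 60) (x1 := 1016633) (y1 := 468938) (r0 := 301894) (r1 := 5887972)
    (by decide +kernel) (by decide +kernel)

private theorem c1_1_1 : FaceH ⟨699050, 324030, 0, 0, 1048576⟩
    ⟨32430, 324030, 0, 0, 616340⟩ :=
  faceH_of (n := 60) (x1 := 468938) (y1 := 1016633) (r0 := 186738) (r1 := 3642045)
    (by decide +kernel) (by decide +kernel)

private theorem c1_1_2 : FaceV ⟨32430, 324030, 0, 0, 616340⟩
    ⟨699050, 324030, 0, 0, 1048576⟩ :=
  faceV_of (n := 60) (x1 := 1016633) (y1 := 468938) (r0 := 301894) (r1 := 5887972)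
    (by decide +kernel) (by decide +kernel) (by decide +kernel)

private theorem c1_u1 : VD ⟨32430, 324030, 0, 0, 616340⟩ (47 / 50) (3 / 20) (3 / 10) :=
  ⟨by decide +kernel, by norm_num, by norm_num [R], cu_3_10, Or.inr cl_3_20⟩

private theorem c1_v1 : VD ⟨699050, 324030, 0, 0, 1048576⟩ (1 / 5) 0 (3 / 10) :=
  ⟨by decide +kernel, by norm_num, by norm_num [R], cu_3_10, Or.inl rfl⟩

private theorem c1_1 : Rgn ⟨32430, 324030, 0, 0, 616340⟩
    ⟨699050, 324030, 0, 0, 1048576⟩ :=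
  rgn_of c1_1_0 c1_1_1 (Or.inr c1_1_2) (Or.inl rfl)

private theorem c1_2_0 : FaceH ⟨85019, 324030, 0, 0, 616340⟩
    ⟨629145, 324030, 0, 0, 1048576⟩ :=
  faceH_of (n := 60) (x1 := 966740) (y1 := 524289) (r0 := 289818) (r1 := 5614821)
    (by decide +kernel) (by decide +kernel)

private theorem c1_2_1 : FaceH ⟨629145, 324030, 0, 0, 1048576⟩
    ⟨85019, 324030, 0, 0, 616340⟩ :=
  faceH_of (n := 60) (x1 := 524289) (y1 := 966740) (r0 := 195823) (r1 := 3793797)
    (by decide +kernel) (by decide +kernel)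

private theorem c1_2_2 : FaceV ⟨85019, 324030, 0, 0, 616340⟩
    ⟨629145, 324030, 0, 0, 1048576⟩ :=
  faceV_of (n := 60) (x1 := 966740) (y1 := 524289) (r0 := 289818) (r1 := 5614821)
    (by decide +kernel) (by decide +kernel) (by decide +kernel)

private theorem c1_u2 : VD ⟨85019, 324030, 0, 0, 616340⟩ (17 / 20) (3 / 20) (3 / 10) :=
  ⟨by decide +kernel, by norm_num, by norm_num [R], cu_3_10, Or.inr cl_3_20⟩

private theorem c1_v2 : VD ⟨629145, 324030, 0, 0, 1048576⟩ (1 / 4) 0 (3 / 10) :=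
  ⟨by decide +kernel, by norm_num, by norm_num [R], cu_3_10, Or.inl rfl⟩

private theorem c1_2 : Rgn ⟨85019, 324030, 0, 0, 616340⟩
    ⟨629145, 324030, 0, 0, 1048576⟩ :=
  rgn_of c1_2_0 c1_2_1 (Or.inr c1_2_2) (Or.inl rfl)

private theorem c1_3_0 : FaceH ⟨110071, 324030, 0, 0, 616340⟩
    ⟨564617, 324030, 0, 0, 1048576⟩ :=
  faceH_of (n := 60) (x1 := 943719) (y1 := 574330) (r0 := 278671) (r1 := 5493418)
    (by decide +kernel) (by decide +kernel)

private theorem c1_3_1 : FaceH ⟨564617, 324030, 0, 0, 1048576⟩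
    ⟨110071, 324030, 0, 0, 616340⟩ :=
  faceH_of (n := 60) (x1 := 574330) (y1 := 943719) (r0 := 200150) (r1 := 3945549)
    (by decide +kernel) (by decide +kernel)

private theorem c1_3_2 : FaceV ⟨110071, 324030, 0, 0, 616340⟩
    ⟨564617, 324030, 0, 0, 1048576⟩ :=
  faceV_of (n := 60) (x1 := 943719) (y1 := 574330) (r0 := 278671) (r1 := 5493418)
    (by decide +kernel) (by decide +kernel) (by decide +kernel)

private theorem c1_u3 : VD ⟨110071, 324030, 0, 0, 616340⟩ (81 / 100) (3 / 20) (3 / 10) :=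
  ⟨by decide +kernel, by norm_num, by norm_num [R], cu_3_10, Or.inr cl_3_20⟩

private theorem c1_v3 : VD ⟨564617, 324030, 0, 0, 1048576⟩ (3 / 10) 0 (3 / 10) :=
  ⟨by decide +kernel, by norm_num, by norm_num [R], cu_3_10, Or.inl rfl⟩

private theorem c1_3 : Rgn ⟨110071, 324030, 0, 0, 616340⟩
    ⟨564617, 324030, 0, 0, 1048576⟩ :=
  rgn_of c1_3_0 c1_3_1 (Or.inr c1_3_2) (Or.inl rfl)

private theorem c1_4_0 : FaceH ⟨132918, 324030, 0, 0, 616340⟩
    ⟨504869, 324030, 0, 0, 1048576⟩ :=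
  faceH_of (n := 60) (x1 := 923105) (y1 := 620347) (r0 := 268350) (r1 := 5387190)
    (by decide +kernel) (by decide +kernel)

private theorem c1_4_1 : FaceH ⟨504869, 324030, 0, 0, 1048576⟩
    ⟨132918, 324030, 0, 0, 616340⟩ :=
  faceH_of (n := 60) (x1 := 620347) (y1 := 923105) (r0 := 204097) (r1 := 4097302)
    (by decide +kernel) (by decide +kernel)

private theorem c1_4_2 : FaceV ⟨132918, 324030, 0, 0, 616340⟩
    ⟨504869, 324030, 0, 0, 1048576⟩ :=
  faceV_of (n := 60) (x1 := 923105) (y1 := 620347) (r0 := 268350) (r1 := 5387190)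
    (by decide +kernel) (by decide +kernel) (by decide +kernel)

private theorem c1_u4 : VD ⟨132918, 324030, 0, 0, 616340⟩ (31 / 40) (3 / 20) (3 / 10) :=
  ⟨by decide +kernel, by norm_num, by norm_num [R], cu_3_10, Or.inr cl_3_20⟩

private theorem c1_v4 : VD ⟨504869, 324030, 0, 0, 1048576⟩ (7 / 20) 0 (3 / 10) :=
  ⟨by decide +kernel, by norm_num, by norm_num [R], cu_3_10, Or.inl rfl⟩

private theorem c1_4 : Rgn ⟨132918, 324030, 0, 0, 616340⟩
    ⟨504869, 324030, 0, 0, 1048576⟩ :=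
  rgn_of c1_4_0 c1_4_1 (Or.inr c1_4_2) (Or.inl rfl)

private theorem c1_5_0 : FaceH ⟨153230, 324030, 0, 0, 616340⟩
    ⟨492830, 324030, 0, 0, 1048576⟩ :=
  faceH_of (n := 60) (x1 := 905062) (y1 := 629622) (r0 := 266270) (r1 := 5296140)
    (by decide +kernel) (by decide +kernel)

private theorem c1_5_1 : FaceH ⟨492830, 324030, 0, 0, 1048576⟩
    ⟨153230, 324030, 0, 0, 616340⟩ :=
  faceH_of (n := 60) (x1 := 629622) (y1 := 905062) (r0 := 207606) (r1 := 4129303)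
    (by decide +kernel) (by decide +kernel)

private theorem c1_5_2 : FaceV ⟨153230, 324030, 0, 0, 616340⟩
    ⟨492830, 324030, 0, 0, 1048576⟩ :=
  faceV_of (n := 60) (x1 := 905062) (y1 := 629622) (r0 := 266270) (r1 := 5296140)
    (by decide +kernel) (by decide +kernel) (by decide +kernel)

private theorem c1_u5 : VD ⟨153230, 324030, 0, 0, 616340⟩ (149 / 200) (3 / 20) (3 / 10) :=
  ⟨by decide +kernel, by norm_num, by norm_num [R], cu_3_10, Or.inr cl_3_20⟩

private theorem c1_v5 : VD ⟨492830, 324030, 0, 0, 1048576⟩ (53 / 147) 0 (3 / 10) :=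
  ⟨by decide +kernel, by norm_num, by norm_num [R], cu_3_10, Or.inl rfl⟩

private theorem c1_5 : Rgn ⟨153230, 324030, 0, 0, 616340⟩
    ⟨492830, 324030, 0, 0, 1048576⟩ :=
  rgn_of c1_5_0 c1_5_1 (Or.inr c1_5_2) (Or.inl rfl)

theorem flat_c1 {θ θ' : ℝ} {v w : ℂ} (h : T2.Pr θ θ' v w)
    (j : J3 (Real.tan θ ^ 2) (Real.tan θ' ^ 2)) (t1 : Real.tan θ ^ 2 < 1)
    (t2 : Real.tan θ' ^ 2 ≤ 53 / 147)
    (h1 : 3 / 20 ≤ v.re) (h2 : v.re ≤ 3 / 10) (h4 : w.re ≤ 3 / 10) :
    FlatM (1 / cos (Real.pi * v) ^ 2) (1 / cos (Real.pi * (starRingEnd ℂ) w) ^ 2) := by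
  rcases j.c23 t1 t2 with ⟨a, b⟩ | ⟨a, b⟩ | ⟨a, b⟩ | ⟨a, b⟩ | ⟨a, b⟩ | ⟨a, b⟩
  · exact c1_0.flatM c1_u0 c1_v0 h a b t1 (by linarith) h1 h2 h.hw.re0 h4
      (by norm_num) (by norm_num) (by norm_num) (by norm_num)
  · exact c1_1.flatM c1_u1 c1_v1 h a b t1 (by linarith) h1 h2 h.hw.re0 h4
      (by norm_num) (by norm_num) (by norm_num) (by norm_num)
  · exact c1_2.flatM c1_u2 c1_v2 h a b t1 (by linarith) h1 h2 h.hw.re0 h4
      (by norm_num) (by norm_num) (by norm_num) (by norm_num)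
  · exact c1_3.flatM c1_u3 c1_v3 h a b t1 (by linarith) h1 h2 h.hw.re0 h4
      (by norm_num) (by norm_num) (by norm_num) (by norm_num)
  · exact c1_4.flatM c1_u4 c1_v4 h a b t1 (by linarith) h1 h2 h.hw.re0 h4
      (by norm_num) (by norm_num) (by norm_num) (by norm_num)
  · exact c1_5.flatM c1_u5 c1_v5 h a b t1 (by linarith) h1 h2 h.hw.re0 h4
      (by norm_num) (by norm_num) (by norm_num) (by norm_num)

end Pool.Agent.S3.Ck
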