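import Pool.Agent.S3.Ck.Cos
import Pool.Agent.S3.Ck.SoundG

/-!
# Flats: c2
-/

set_option autoImplicit false
set_option maxRecDepth 100000

namespace Pool.Agent.S3.Ck

open Complex

private theorem c2_0_0 : FaceH ⟨0, 324030, 0, 0, 196486⟩
    ⟨857925, 324030, 0, 0, 196486⟩ :=
  faceH_of (n := 60) (x1 := 1048576) (y1 := 331590) (r0 := 329338) (r1 := 6070073)
    (by decide +kernel) (by decide +kernel)

private theorem c2_0_1 : FaceH ⟨857925, 324030, 0, 0, 196486⟩
    ⟨0, 324030, 0, 0, 196486⟩ :=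
  faceH_of (n := 60) (x1 := 331590) (y1 := 1048576) (r0 := 181136) (r1 := 3338542)
    (by decide +kernel) (by decide +kernel)

private theorem c2_0_2 : FaceV ⟨0, 324030, 0, 0, 196486⟩
    ⟨857925, 324030, 0, 0, 196486⟩ :=
  faceV_of (n := 60) (x1 := 1048576) (y1 := 331590) (r0 := 329338) (r1 := 6070073)
    (by decide +kernel) (by decide +kernel) (by decide +kernel)

private theorem c2_0_3 : FaceV ⟨857925, 324030, 0, 0, 196486⟩
    ⟨0, 324030, 0, 0, 196486⟩ :=
  faceV_of (n := 60) (x1 := 331590) (y1 := 1048576) (r0 := 181136) (r1 := 3338542)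
    (by decide +kernel) (by decide +kernel) (by decide +kernel)

private theorem c2_u0 : VD ⟨0, 324030, 0, 0, 196486⟩ 1 (11 / 50) (3 / 10) :=
  ⟨by decide +kernel, by norm_num, by norm_num [R], cu_3_10, Or.inr cl_11_50⟩

private theorem c2_v0 : VD ⟨857925, 324030, 0, 0, 196486⟩ (1 / 10) (11 / 50) (3 / 10) :=
  ⟨by decide +kernel, by norm_num, by norm_num [R], cu_3_10, Or.inr cl_11_50⟩

private theorem c2_0 : Rgn ⟨0, 324030, 0, 0, 196486⟩
    ⟨857925, 324030, 0, 0, 196486⟩ :=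
  rgn_of c2_0_0 c2_0_1 (Or.inr c2_0_2) (Or.inr c2_0_3)

private theorem c2_1_0 : FaceH ⟨32430, 324030, 0, 0, 196486⟩
    ⟨699050, 324030, 0, 0, 196486⟩ :=
  faceH_of (n := 60) (x1 := 1016633) (y1 := 468938) (r0 := 301894) (r1 := 5887972)
    (by decide +kernel) (by decide +kernel)

private theorem c2_1_1 : FaceH ⟨699050, 324030, 0, 0, 196486⟩
    ⟨32430, 324030, 0, 0, 196486⟩ :=
  faceH_of (n := 60) (x1 := 468938) (y1 := 1016633) (r0 := 186738) (r1 := 3642045)
    (by decide +kernel) (by decide +kernel)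

private theorem c2_1_2 : FaceV ⟨32430, 324030, 0, 0, 196486⟩
    ⟨699050, 324030, 0, 0, 196486⟩ :=
  faceV_of (n := 60) (x1 := 1016633) (y1 := 468938) (r0 := 301894) (r1 := 5887972)
    (by decide +kernel) (by decide +kernel) (by decide +kernel)

private theorem c2_1_3 : FaceV ⟨699050, 324030, 0, 0, 196486⟩
    ⟨32430, 324030, 0, 0, 196486⟩ :=
  faceV_of (n := 60) (x1 := 468938) (y1 := 1016633) (r0 := 186738) (r1 := 3642045)
    (by decide +kernel) (by decide +kernel) (by decide +kernel)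

private theorem c2_u1 : VD ⟨32430, 324030, 0, 0, 196486⟩ (47 / 50) (11 / 50) (3 / 10) :=
  ⟨by decide +kernel, by norm_num, by norm_num [R], cu_3_10, Or.inr cl_11_50⟩

private theorem c2_v1 : VD ⟨699050, 324030, 0, 0, 196486⟩ (1 / 5) (11 / 50) (3 / 10) :=
  ⟨by decide +kernel, by norm_num, by norm_num [R], cu_3_10, Or.inr cl_11_50⟩

private theorem c2_1 : Rgn ⟨32430, 324030, 0, 0, 196486⟩
    ⟨699050, 324030, 0, 0, 196486⟩ :=
  rgn_of c2_1_0 c2_1_1 (Or.inr c2_1_2) (Or.inr c2_1_3)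

private theorem c2_2_0 : FaceH ⟨85019, 324030, 0, 0, 196486⟩
    ⟨629145, 324030, 0, 0, 196486⟩ :=
  faceH_of (n := 60) (x1 := 966740) (y1 := 524289) (r0 := 289818) (r1 := 5614821)
    (by decide +kernel) (by decide +kernel)

private theorem c2_2_1 : FaceH ⟨629145, 324030, 0, 0, 196486⟩
    ⟨85019, 324030, 0, 0, 196486⟩ :=
  faceH_of (n := 60) (x1 := 524289) (y1 := 966740) (r0 := 195823) (r1 := 3793797)
    (by decide +kernel) (by decide +kernel)

private theorem c2_2_2 : FaceV ⟨85019, 324030, 0, 0, 196486⟩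
    ⟨629145, 324030, 0, 0, 196486⟩ :=
  faceV_of (n := 60) (x1 := 966740) (y1 := 524289) (r0 := 289818) (r1 := 5614821)
    (by decide +kernel) (by decide +kernel) (by decide +kernel)

private theorem c2_2_3 : FaceV ⟨629145, 324030, 0, 0, 196486⟩
    ⟨85019, 324030, 0, 0, 196486⟩ :=
  faceV_of (n := 60) (x1 := 524289) (y1 := 966740) (r0 := 195823) (r1 := 3793797)
    (by decide +kernel) (by decide +kernel) (by decide +kernel)

private theorem c2_u2 : VD ⟨85019, 324030, 0, 0, 196486⟩ (17 / 20) (11 / 50) (3 / 10) :=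
  ⟨by decide +kernel, by norm_num, by norm_num [R], cu_3_10, Or.inr cl_11_50⟩

private theorem c2_v2 : VD ⟨629145, 324030, 0, 0, 196486⟩ (1 / 4) (11 / 50) (3 / 10) :=
  ⟨by decide +kernel, by norm_num, by norm_num [R], cu_3_10, Or.inr cl_11_50⟩

private theorem c2_2 : Rgn ⟨85019, 324030, 0, 0, 196486⟩
    ⟨629145, 324030, 0, 0, 196486⟩ :=
  rgn_of c2_2_0 c2_2_1 (Or.inr c2_2_2) (Or.inr c2_2_3)

private theorem c2_3_0 : FaceH ⟨857925, 324030, 0, 0, 196486⟩
    ⟨0, 324030, 0, 0, 196486⟩ :=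
  faceH_of (n := 60) (x1 := 331590) (y1 := 1048576) (r0 := 181136) (r1 := 3338542)
    (by decide +kernel) (by decide +kernel)

private theorem c2_3_1 : FaceH ⟨0, 324030, 0, 0, 196486⟩
    ⟨857925, 324030, 0, 0, 196486⟩ :=
  faceH_of (n := 60) (x1 := 1048576) (y1 := 331590) (r0 := 329338) (r1 := 6070073)
    (by decide +kernel) (by decide +kernel)

private theorem c2_3_2 : FaceV ⟨857925, 324030, 0, 0, 196486⟩
    ⟨0, 324030, 0, 0, 196486⟩ :=
  faceV_of (n := 60) (x1 := 331590) (y1 := 1048576) (r0 := 181136) (r1 := 3338542)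
    (by decide +kernel) (by decide +kernel) (by decide +kernel)

private theorem c2_3_3 : FaceV ⟨0, 324030, 0, 0, 196486⟩
    ⟨857925, 324030, 0, 0, 196486⟩ :=
  faceV_of (n := 60) (x1 := 1048576) (y1 := 331590) (r0 := 329338) (r1 := 6070073)
    (by decide +kernel) (by decide +kernel) (by decide +kernel)

private theorem c2_u3 : VD ⟨857925, 324030, 0, 0, 196486⟩ (1 / 10) (11 / 50) (3 / 10) :=
  ⟨by decide +kernel, by norm_num, by norm_num [R], cu_3_10, Or.inr cl_11_50⟩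

private theorem c2_v3 : VD ⟨0, 324030, 0, 0, 196486⟩ 1 (11 / 50) (3 / 10) :=
  ⟨by decide +kernel, by norm_num, by norm_num [R], cu_3_10, Or.inr cl_11_50⟩

private theorem c2_3 : Rgn ⟨857925, 324030, 0, 0, 196486⟩
    ⟨0, 324030, 0, 0, 196486⟩ :=
  rgn_of c2_3_0 c2_3_1 (Or.inr c2_3_2) (Or.inr c2_3_3)

private theorem c2_4_0 : FaceH ⟨699050, 324030, 0, 0, 196486⟩
    ⟨32430, 324030, 0, 0, 196486⟩ :=
  faceH_of (n := 60) (x1 := 468938) (y1 := 1016633) (r0 := 186738) (r1 := 3642045)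
    (by decide +kernel) (by decide +kernel)

private theorem c2_4_1 : FaceH ⟨32430, 324030, 0, 0, 196486⟩
    ⟨699050, 324030, 0, 0, 196486⟩ :=
  faceH_of (n := 60) (x1 := 1016633) (y1 := 468938) (r0 := 301894) (r1 := 5887972)
    (by decide +kernel) (by decide +kernel)

private theorem c2_4_2 : FaceV ⟨699050, 324030, 0, 0, 196486⟩
    ⟨32430, 324030, 0, 0, 196486⟩ :=
  faceV_of (n := 60) (x1 := 468938) (y1 := 1016633) (r0 := 186738) (r1 := 3642045)
    (by decide +kernel) (by decide +kernel) (by decide +kernel)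

private theorem c2_4_3 : FaceV ⟨32430, 324030, 0, 0, 196486⟩
    ⟨699050, 324030, 0, 0, 196486⟩ :=
  faceV_of (n := 60) (x1 := 1016633) (y1 := 468938) (r0 := 301894) (r1 := 5887972)
    (by decide +kernel) (by decide +kernel) (by decide +kernel)

private theorem c2_u4 : VD ⟨699050, 324030, 0, 0, 196486⟩ (1 / 5) (11 / 50) (3 / 10) :=
  ⟨by decide +kernel, by norm_num, by norm_num [R], cu_3_10, Or.inr cl_11_50⟩

private theorem c2_v4 : VD ⟨32430, 324030, 0, 0, 196486⟩ (47 / 50) (11 / 50) (3 / 10) :=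
  ⟨by decide +kernel, by norm_num, by norm_num [R], cu_3_10, Or.inr cl_11_50⟩

private theorem c2_4 : Rgn ⟨699050, 324030, 0, 0, 196486⟩
    ⟨32430, 324030, 0, 0, 196486⟩ :=
  rgn_of c2_4_0 c2_4_1 (Or.inr c2_4_2) (Or.inr c2_4_3)

private theorem c2_5_0 : FaceH ⟨629145, 324030, 0, 0, 196486⟩
    ⟨85019, 324030, 0, 0, 196486⟩ :=
  faceH_of (n := 60) (x1 := 524289) (y1 := 966740) (r0 := 195823) (r1 := 3793797)
    (by decide +kernel) (by decide +kernel)

private theorem c2_5_1 : FaceH ⟨85019, 324030, 0, 0, 196486⟩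
    ⟨629145, 324030, 0, 0, 196486⟩ :=
  faceH_of (n := 60) (x1 := 966740) (y1 := 524289) (r0 := 289818) (r1 := 5614821)
    (by decide +kernel) (by decide +kernel)

private theorem c2_5_2 : FaceV ⟨629145, 324030, 0, 0, 196486⟩
    ⟨85019, 324030, 0, 0, 196486⟩ :=
  faceV_of (n := 60) (x1 := 524289) (y1 := 966740) (r0 := 195823) (r1 := 3793797)
    (by decide +kernel) (by decide +kernel) (by decide +kernel)

private theorem c2_5_3 : FaceV ⟨85019, 324030, 0, 0, 196486⟩
    ⟨629145, 324030, 0, 0, 196486⟩ :=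
  faceV_of (n := 60) (x1 := 966740) (y1 := 524289) (r0 := 289818) (r1 := 5614821)
    (by decide +kernel) (by decide +kernel) (by decide +kernel)

private theorem c2_u5 : VD ⟨629145, 324030, 0, 0, 196486⟩ (1 / 4) (11 / 50) (3 / 10) :=
  ⟨by decide +kernel, by norm_num, by norm_num [R], cu_3_10, Or.inr cl_11_50⟩

private theorem c2_v5 : VD ⟨85019, 324030, 0, 0, 196486⟩ (17 / 20) (11 / 50) (3 / 10) :=
  ⟨by decide +kernel, by norm_num, by norm_num [R], cu_3_10, Or.inr cl_11_50⟩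

private theorem c2_5 : Rgn ⟨629145, 324030, 0, 0, 196486⟩
    ⟨85019, 324030, 0, 0, 196486⟩ :=
  rgn_of c2_5_0 c2_5_1 (Or.inr c2_5_2) (Or.inr c2_5_3)

private theorem c2_6_0 : FaceH ⟨110071, 324030, 0, 0, 196486⟩
    ⟨564617, 324030, 0, 0, 196486⟩ :=
  faceH_of (n := 60) (x1 := 943719) (y1 := 574330) (r0 := 278671) (r1 := 5493418)
    (by decide +kernel) (by decide +kernel)

private theorem c2_6_1 : FaceH ⟨564617, 324030, 0, 0, 196486⟩
    ⟨110071, 324030, 0, 0, 196486⟩ :=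
  faceH_of (n := 60) (x1 := 574330) (y1 := 943719) (r0 := 200150) (r1 := 3945549)
    (by decide +kernel) (by decide +kernel)

private theorem c2_6_2 : FaceV ⟨110071, 324030, 0, 0, 196486⟩
    ⟨564617, 324030, 0, 0, 196486⟩ :=
  faceV_of (n := 60) (x1 := 943719) (y1 := 574330) (r0 := 278671) (r1 := 5493418)
    (by decide +kernel) (by decide +kernel) (by decide +kernel)

private theorem c2_6_3 : FaceV ⟨564617, 324030, 0, 0, 196486⟩
    ⟨110071, 324030, 0, 0, 196486⟩ :=
  faceV_of (n := 60) (x1 := 574330) (y1 := 943719) (r0 := 200150) (r1 := 3945549)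
    (by decide +kernel) (by decide +kernel) (by decide +kernel)

private theorem c2_u6 : VD ⟨110071, 324030, 0, 0, 196486⟩ (81 / 100) (11 / 50) (3 / 10) :=
  ⟨by decide +kernel, by norm_num, by norm_num [R], cu_3_10, Or.inr cl_11_50⟩

private theorem c2_v6 : VD ⟨564617, 324030, 0, 0, 196486⟩ (3 / 10) (11 / 50) (3 / 10) :=
  ⟨by decide +kernel, by norm_num, by norm_num [R], cu_3_10, Or.inr cl_11_50⟩

private theorem c2_6 : Rgn ⟨110071, 324030, 0, 0, 196486⟩
    ⟨564617, 324030, 0, 0, 196486⟩ :=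
  rgn_of c2_6_0 c2_6_1 (Or.inr c2_6_2) (Or.inr c2_6_3)

private theorem c2_7_0 : FaceH ⟨132918, 324030, 0, 0, 196486⟩
    ⟨504869, 324030, 0, 0, 196486⟩ :=
  faceH_of (n := 60) (x1 := 923105) (y1 := 620347) (r0 := 268350) (r1 := 5387190)
    (by decide +kernel) (by decide +kernel)

private theorem c2_7_1 : FaceH ⟨504869, 324030, 0, 0, 196486⟩
    ⟨132918, 324030, 0, 0, 196486⟩ :=
  faceH_of (n := 60) (x1 := 620347) (y1 := 923105) (r0 := 204097) (r1 := 4097302)
    (by decide +kernel) (by decide +kernel)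

private theorem c2_7_2 : FaceV ⟨132918, 324030, 0, 0, 196486⟩
    ⟨504869, 324030, 0, 0, 196486⟩ :=
  faceV_of (n := 60) (x1 := 923105) (y1 := 620347) (r0 := 268350) (r1 := 5387190)
    (by decide +kernel) (by decide +kernel) (by decide +kernel)

private theorem c2_7_3 : FaceV ⟨504869, 324030, 0, 0, 196486⟩
    ⟨132918, 324030, 0, 0, 196486⟩ :=
  faceV_of (n := 60) (x1 := 620347) (y1 := 923105) (r0 := 204097) (r1 := 4097302)
    (by decide +kernel) (by decide +kernel) (by decide +kernel)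

private theorem c2_u7 : VD ⟨132918, 324030, 0, 0, 196486⟩ (31 / 40) (11 / 50) (3 / 10) :=
  ⟨by decide +kernel, by norm_num, by norm_num [R], cu_3_10, Or.inr cl_11_50⟩

private theorem c2_v7 : VD ⟨504869, 324030, 0, 0, 196486⟩ (7 / 20) (11 / 50) (3 / 10) :=
  ⟨by decide +kernel, by norm_num, by norm_num [R], cu_3_10, Or.inr cl_11_50⟩

private theorem c2_7 : Rgn ⟨132918, 324030, 0, 0, 196486⟩
    ⟨504869, 324030, 0, 0, 196486⟩ :=
  rgn_of c2_7_0 c2_7_1 (Or.inr c2_7_2) (Or.inr c2_7_3)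

private theorem c2_8_0 : FaceH ⟨153230, 324030, 0, 0, 196486⟩
    ⟨449389, 324030, 0, 0, 196486⟩ :=
  faceH_of (n := 60) (x1 := 905062) (y1 := 663179) (r0 := 258766) (r1 := 5296140)
    (by decide +kernel) (by decide +kernel)

private theorem c2_8_1 : FaceH ⟨449389, 324030, 0, 0, 196486⟩
    ⟨153230, 324030, 0, 0, 196486⟩ :=
  faceH_of (n := 60) (x1 := 663179) (y1 := 905062) (r0 := 207606) (r1 := 4249053)
    (by decide +kernel) (by decide +kernel)

private theorem c2_8_2 : FaceV ⟨153230, 324030, 0, 0, 196486⟩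
    ⟨449389, 324030, 0, 0, 196486⟩ :=
  faceV_of (n := 60) (x1 := 905062) (y1 := 663179) (r0 := 258766) (r1 := 5296140)
    (by decide +kernel) (by decide +kernel) (by decide +kernel)

private theorem c2_8_3 : FaceV ⟨449389, 324030, 0, 0, 196486⟩
    ⟨153230, 324030, 0, 0, 196486⟩ :=
  faceV_of (n := 60) (x1 := 663179) (y1 := 905062) (r0 := 207606) (r1 := 4249053)
    (by decide +kernel) (by decide +kernel) (by decide +kernel)

private theorem c2_u8 : VD ⟨153230, 324030, 0, 0, 196486⟩ (149 / 200) (11 / 50) (3 / 10) :=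
  ⟨by decide +kernel, by norm_num, by norm_num [R], cu_3_10, Or.inr cl_11_50⟩

private theorem c2_v8 : VD ⟨449389, 324030, 0, 0, 196486⟩ (2 / 5) (11 / 50) (3 / 10) :=
  ⟨by decide +kernel, by norm_num, by norm_num [R], cu_3_10, Or.inr cl_11_50⟩

private theorem c2_8 : Rgn ⟨153230, 324030, 0, 0, 196486⟩
    ⟨449389, 324030, 0, 0, 196486⟩ :=
  rgn_of c2_8_0 c2_8_1 (Or.inr c2_8_2) (Or.inr c2_8_3)

private theorem c2_9_0 : FaceH ⟨174253, 324030, 0, 0, 196486⟩
    ⟨397735, 324030, 0, 0, 196486⟩ :=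
  faceH_of (n := 60) (x1 := 886652) (y1 := 703407) (r0 := 249843) (r1 := 5205088)
    (by decide +kernel) (by decide +kernel)

private theorem c2_9_1 : FaceH ⟨397735, 324030, 0, 0, 196486⟩
    ⟨174253, 324030, 0, 0, 196486⟩ :=
  faceH_of (n := 60) (x1 := 703407) (y1 := 886652) (r0 := 211237) (r1 := 4400805)
    (by decide +kernel) (by decide +kernel)

private theorem c2_9_2 : FaceV ⟨174253, 324030, 0, 0, 196486⟩
    ⟨397735, 324030, 0, 0, 196486⟩ :=
  faceV_of (n := 60) (x1 := 886652) (y1 := 703407) (r0 := 249843) (r1 := 5205088)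
    (by decide +kernel) (by decide +kernel) (by decide +kernel)

private theorem c2_9_3 : FaceV ⟨397735, 324030, 0, 0, 196486⟩
    ⟨174253, 324030, 0, 0, 196486⟩ :=
  faceV_of (n := 60) (x1 := 703407) (y1 := 886652) (r0 := 211237) (r1 := 4400805)
    (by decide +kernel) (by decide +kernel) (by decide +kernel)

private theorem c2_u9 : VD ⟨174253, 324030, 0, 0, 196486⟩ (143 / 200) (11 / 50) (3 / 10) :=
  ⟨by decide +kernel, by norm_num, by norm_num [R], cu_3_10, Or.inr cl_11_50⟩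

private theorem c2_v9 : VD ⟨397735, 324030, 0, 0, 196486⟩ (9 / 20) (11 / 50) (3 / 10) :=
  ⟨by decide +kernel, by norm_num, by norm_num [R], cu_3_10, Or.inr cl_11_50⟩

private theorem c2_9 : Rgn ⟨174253, 324030, 0, 0, 196486⟩
    ⟨397735, 324030, 0, 0, 196486⟩ :=
  rgn_of c2_9_0 c2_9_1 (Or.inr c2_9_2) (Or.inr c2_9_3)

private theorem c2_10_0 : FaceH ⟨192342, 324030, 0, 0, 196486⟩
    ⟨349525, 324030, 0, 0, 196486⟩ :=
  faceH_of (n := 60) (x1 := 871013) (y1 := 741456) (r0 := 241515) (r1 := 5129213)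
    (by decide +kernel) (by decide +kernel)

private theorem c2_10_1 : FaceH ⟨349525, 324030, 0, 0, 196486⟩
    ⟨192342, 324030, 0, 0, 196486⟩ :=
  faceH_of (n := 60) (x1 := 741456) (y1 := 871013) (r0 := 214362) (r1 := 4552556)
    (by decide +kernel) (by decide +kernel)

private theorem c2_10_2 : FaceV ⟨192342, 324030, 0, 0, 196486⟩
    ⟨349525, 324030, 0, 0, 196486⟩ :=
  faceV_of (n := 60) (x1 := 871013) (y1 := 741456) (r0 := 241515) (r1 := 5129213)
    (by decide +kernel) (by decide +kernel) (by decide +kernel)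

private theorem c2_10_3 : FaceV ⟨349525, 324030, 0, 0, 196486⟩
    ⟨192342, 324030, 0, 0, 196486⟩ :=
  faceV_of (n := 60) (x1 := 741456) (y1 := 871013) (r0 := 214362) (r1 := 4552556)
    (by decide +kernel) (by decide +kernel) (by decide +kernel)

private theorem c2_u10 : VD ⟨192342, 324030, 0, 0, 196486⟩ (69 / 100) (11 / 50) (3 / 10) :=
  ⟨by decide +kernel, by norm_num, by norm_num [R], cu_3_10, Or.inr cl_11_50⟩

private theorem c2_v10 : VD ⟨349525, 324030, 0, 0, 196486⟩ (1 / 2) (11 / 50) (3 / 10) :=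
  ⟨by decide +kernel, by norm_num, by norm_num [R], cu_3_10, Or.inr cl_11_50⟩

private theorem c2_10 : Rgn ⟨192342, 324030, 0, 0, 196486⟩
    ⟨349525, 324030, 0, 0, 196486⟩ :=
  rgn_of c2_10_0 c2_10_1 (Or.inr c2_10_2) (Or.inr c2_10_3)

private theorem c2_11_0 : FaceH ⟨207203, 324030, 0, 0, 196486⟩
    ⟨304425, 324030, 0, 0, 196486⟩ :=
  faceH_of (n := 60) (x1 := 858297) (y1 := 777646) (r0 := 233724) (r1 := 5068513)
    (by decide +kernel) (by decide +kernel)

private theorem c2_11_1 : FaceH ⟨304425, 324030, 0, 0, 196486⟩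
    ⟨207203, 324030, 0, 0, 196486⟩ :=
  faceH_of (n := 60) (x1 := 777646) (y1 := 858297) (r0 := 216929) (r1 := 4704307)
    (by decide +kernel) (by decide +kernel)

private theorem c2_11_2 : FaceV ⟨207203, 324030, 0, 0, 196486⟩
    ⟨304425, 324030, 0, 0, 196486⟩ :=
  faceV_of (n := 60) (x1 := 858297) (y1 := 777646) (r0 := 233724) (r1 := 5068513)
    (by decide +kernel) (by decide +kernel) (by decide +kernel)

private theorem c2_11_3 : FaceV ⟨304425, 324030, 0, 0, 196486⟩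
    ⟨207203, 324030, 0, 0, 196486⟩ :=
  faceV_of (n := 60) (x1 := 777646) (y1 := 858297) (r0 := 216929) (r1 := 4704307)
    (by decide +kernel) (by decide +kernel) (by decide +kernel)

private theorem c2_u11 : VD ⟨207203, 324030, 0, 0, 196486⟩ (67 / 100) (11 / 50) (3 / 10) :=
  ⟨by decide +kernel, by norm_num, by norm_num [R], cu_3_10, Or.inr cl_11_50⟩

private theorem c2_v11 : VD ⟨304425, 324030, 0, 0, 196486⟩ (11 / 20) (11 / 50) (3 / 10) :=
  ⟨by decide +kernel, by norm_num, by norm_num [R], cu_3_10, Or.inr cl_11_50⟩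

private theorem c2_11 : Rgn ⟨207203, 324030, 0, 0, 196486⟩
    ⟨304425, 324030, 0, 0, 196486⟩ :=
  rgn_of c2_11_0 c2_11_1 (Or.inr c2_11_2) (Or.inr c2_11_3)

private theorem c2_12_0 : FaceH ⟨222425, 324030, 0, 0, 196486⟩
    ⟨262144, 324030, 0, 0, 196486⟩ :=
  faceH_of (n := 60) (x1 := 845390) (y1 := 812224) (r0 := 226420) (r1 := 5007811)
    (by decide +kernel) (by decide +kernel)

private theorem c2_12_1 : FaceH ⟨262144, 324030, 0, 0, 196486⟩
    ⟨222425, 324030, 0, 0, 196486⟩ :=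
  faceH_of (n := 60) (x1 := 812224) (y1 := 845390) (r0 := 219559) (r1 := 4856058)
    (by decide +kernel) (by decide +kernel)

private theorem c2_12_2 : FaceV ⟨222425, 324030, 0, 0, 196486⟩
    ⟨262144, 324030, 0, 0, 196486⟩ :=
  faceV_of (n := 60) (x1 := 845390) (y1 := 812224) (r0 := 226420) (r1 := 5007811)
    (by decide +kernel) (by decide +kernel) (by decide +kernel)

private theorem c2_12_3 : FaceV ⟨262144, 324030, 0, 0, 196486⟩
    ⟨222425, 324030, 0, 0, 196486⟩ :=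
  faceV_of (n := 60) (x1 := 812224) (y1 := 845390) (r0 := 219559) (r1 := 4856058)
    (by decide +kernel) (by decide +kernel) (by decide +kernel)

private theorem c2_u12 : VD ⟨222425, 324030, 0, 0, 196486⟩ (13 / 20) (11 / 50) (3 / 10) :=
  ⟨by decide +kernel, by norm_num, by norm_num [R], cu_3_10, Or.inr cl_11_50⟩

private theorem c2_v12 : VD ⟨262144, 324030, 0, 0, 196486⟩ (3 / 5) (11 / 50) (3 / 10) :=
  ⟨by decide +kernel, by norm_num, by norm_num [R], cu_3_10, Or.inr cl_11_50⟩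

private theorem c2_12 : Rgn ⟨222425, 324030, 0, 0, 196486⟩
    ⟨262144, 324030, 0, 0, 196486⟩ :=
  rgn_of c2_12_0 c2_12_1 (Or.inr c2_12_2) (Or.inr c2_12_3)

private theorem c2_13_0 : FaceH ⟨234085, 324030, 0, 0, 196486⟩
    ⟨234085, 324030, 0, 0, 196486⟩ :=
  faceH_of (n := 60) (x1 := 835579) (y1 := 835579) (r0 := 221573) (r1 := 4962287)
    (by decide +kernel) (by decide +kernel)

private theorem c2_13_1 : FaceH ⟨234085, 324030, 0, 0, 196486⟩
    ⟨234085, 324030, 0, 0, 196486⟩ :=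
  faceH_of (n := 60) (x1 := 835579) (y1 := 835579) (r0 := 221573) (r1 := 4962287)
    (by decide +kernel) (by decide +kernel)

private theorem c2_13_2 : FaceV ⟨234085, 324030, 0, 0, 196486⟩
    ⟨234085, 324030, 0, 0, 196486⟩ :=
  faceV_of (n := 60) (x1 := 835579) (y1 := 835579) (r0 := 221573) (r1 := 4962287)
    (by decide +kernel) (by decide +kernel) (by decide +kernel)

private theorem c2_13_3 : FaceV ⟨234085, 324030, 0, 0, 196486⟩
    ⟨234085, 324030, 0, 0, 196486⟩ :=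
  faceV_of (n := 60) (x1 := 835579) (y1 := 835579) (r0 := 221573) (r1 := 4962287)
    (by decide +kernel) (by decide +kernel) (by decide +kernel)

private theorem c2_u13 : VD ⟨234085, 324030, 0, 0, 196486⟩ (127 / 200) (11 / 50) (3 / 10) :=
  ⟨by decide +kernel, by norm_num, by norm_num [R], cu_3_10, Or.inr cl_11_50⟩

private theorem c2_v13 : VD ⟨234085, 324030, 0, 0, 196486⟩ (127 / 200) (11 / 50) (3 / 10) :=
  ⟨by decide +kernel, by norm_num, by norm_num [R], cu_3_10, Or.inr cl_11_50⟩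

private theorem c2_13 : Rgn ⟨234085, 324030, 0, 0, 196486⟩
    ⟨234085, 324030, 0, 0, 196486⟩ :=
  rgn_of c2_13_0 c2_13_1 (Or.inr c2_13_2) (Or.inr c2_13_3)

private theorem c2_14_0 : FaceH ⟨564617, 324030, 0, 0, 196486⟩
    ⟨110071, 324030, 0, 0, 196486⟩ :=
  faceH_of (n := 60) (x1 := 574330) (y1 := 943719) (r0 := 200150) (r1 := 3945549)
    (by decide +kernel) (by decide +kernel)

private theorem c2_14_1 : FaceH ⟨110071, 324030, 0, 0, 196486⟩
    ⟨564617, 324030, 0, 0, 196486⟩ :=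
  faceH_of (n := 60) (x1 := 943719) (y1 := 574330) (r0 := 278671) (r1 := 5493418)
    (by decide +kernel) (by decide +kernel)

private theorem c2_14_2 : FaceV ⟨564617, 324030, 0, 0, 196486⟩
    ⟨110071, 324030, 0, 0, 196486⟩ :=
  faceV_of (n := 60) (x1 := 574330) (y1 := 943719) (r0 := 200150) (r1 := 3945549)
    (by decide +kernel) (by decide +kernel) (by decide +kernel)

private theorem c2_14_3 : FaceV ⟨110071, 324030, 0, 0, 196486⟩
    ⟨564617, 324030, 0, 0, 196486⟩ :=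
  faceV_of (n := 60) (x1 := 943719) (y1 := 574330) (r0 := 278671) (r1 := 5493418)
    (by decide +kernel) (by decide +kernel) (by decide +kernel)

private theorem c2_u14 : VD ⟨564617, 324030, 0, 0, 196486⟩ (3 / 10) (11 / 50) (3 / 10) :=
  ⟨by decide +kernel, by norm_num, by norm_num [R], cu_3_10, Or.inr cl_11_50⟩

private theorem c2_v14 : VD ⟨110071, 324030, 0, 0, 196486⟩ (81 / 100) (11 / 50) (3 / 10) :=
  ⟨by decide +kernel, by norm_num, by norm_num [R], cu_3_10, Or.inr cl_11_50⟩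

private theorem c2_14 : Rgn ⟨564617, 324030, 0, 0, 196486⟩
    ⟨110071, 324030, 0, 0, 196486⟩ :=
  rgn_of c2_14_0 c2_14_1 (Or.inr c2_14_2) (Or.inr c2_14_3)

private theorem c2_15_0 : FaceH ⟨504869, 324030, 0, 0, 196486⟩
    ⟨132918, 324030, 0, 0, 196486⟩ :=
  faceH_of (n := 60) (x1 := 620347) (y1 := 923105) (r0 := 204097) (r1 := 4097302)
    (by decide +kernel) (by decide +kernel)

private theorem c2_15_1 : FaceH ⟨132918, 324030, 0, 0, 196486⟩
    ⟨504869, 324030, 0, 0, 196486⟩ :=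
  faceH_of (n := 60) (x1 := 923105) (y1 := 620347) (r0 := 268350) (r1 := 5387190)
    (by decide +kernel) (by decide +kernel)

private theorem c2_15_2 : FaceV ⟨504869, 324030, 0, 0, 196486⟩
    ⟨132918, 324030, 0, 0, 196486⟩ :=
  faceV_of (n := 60) (x1 := 620347) (y1 := 923105) (r0 := 204097) (r1 := 4097302)
    (by decide +kernel) (by decide +kernel) (by decide +kernel)

private theorem c2_15_3 : FaceV ⟨132918, 324030, 0, 0, 196486⟩
    ⟨504869, 324030, 0, 0, 196486⟩ :=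
  faceV_of (n := 60) (x1 := 923105) (y1 := 620347) (r0 := 268350) (r1 := 5387190)
    (by decide +kernel) (by decide +kernel) (by decide +kernel)

private theorem c2_u15 : VD ⟨504869, 324030, 0, 0, 196486⟩ (7 / 20) (11 / 50) (3 / 10) :=
  ⟨by decide +kernel, by norm_num, by norm_num [R], cu_3_10, Or.inr cl_11_50⟩

private theorem c2_v15 : VD ⟨132918, 324030, 0, 0, 196486⟩ (31 / 40) (11 / 50) (3 / 10) :=
  ⟨by decide +kernel, by norm_num, by norm_num [R], cu_3_10, Or.inr cl_11_50⟩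

private theorem c2_15 : Rgn ⟨504869, 324030, 0, 0, 196486⟩
    ⟨132918, 324030, 0, 0, 196486⟩ :=
  rgn_of c2_15_0 c2_15_1 (Or.inr c2_15_2) (Or.inr c2_15_3)

private theorem c2_16_0 : FaceH ⟨449389, 324030, 0, 0, 196486⟩
    ⟨153230, 324030, 0, 0, 196486⟩ :=
  faceH_of (n := 60) (x1 := 663179) (y1 := 905062) (r0 := 207606) (r1 := 4249053)
    (by decide +kernel) (by decide +kernel)

private theorem c2_16_1 : FaceH ⟨153230, 324030, 0, 0, 196486⟩
    ⟨449389, 324030, 0, 0, 196486⟩ :=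
  faceH_of (n := 60) (x1 := 905062) (y1 := 663179) (r0 := 258766) (r1 := 5296140)
    (by decide +kernel) (by decide +kernel)

private theorem c2_16_2 : FaceV ⟨449389, 324030, 0, 0, 196486⟩
    ⟨153230, 324030, 0, 0, 196486⟩ :=
  faceV_of (n := 60) (x1 := 663179) (y1 := 905062) (r0 := 207606) (r1 := 4249053)
    (by decide +kernel) (by decide +kernel) (by decide +kernel)

private theorem c2_16_3 : FaceV ⟨153230, 324030, 0, 0, 196486⟩
    ⟨449389, 324030, 0, 0, 196486⟩ :=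
  faceV_of (n := 60) (x1 := 905062) (y1 := 663179) (r0 := 258766) (r1 := 5296140)
    (by decide +kernel) (by decide +kernel) (by decide +kernel)

private theorem c2_u16 : VD ⟨449389, 324030, 0, 0, 196486⟩ (2 / 5) (11 / 50) (3 / 10) :=
  ⟨by decide +kernel, by norm_num, by norm_num [R], cu_3_10, Or.inr cl_11_50⟩

private theorem c2_v16 : VD ⟨153230, 324030, 0, 0, 196486⟩ (149 / 200) (11 / 50) (3 / 10) :=
  ⟨by decide +kernel, by norm_num, by norm_num [R], cu_3_10, Or.inr cl_11_50⟩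

private theorem c2_16 : Rgn ⟨449389, 324030, 0, 0, 196486⟩
    ⟨153230, 324030, 0, 0, 196486⟩ :=
  rgn_of c2_16_0 c2_16_1 (Or.inr c2_16_2) (Or.inr c2_16_3)

private theorem c2_17_0 : FaceH ⟨397735, 324030, 0, 0, 196486⟩
    ⟨174253, 324030, 0, 0, 196486⟩ :=
  faceH_of (n := 60) (x1 := 703407) (y1 := 886652) (r0 := 211237) (r1 := 4400805)
    (by decide +kernel) (by decide +kernel)

private theorem c2_17_1 : FaceH ⟨174253, 324030, 0, 0, 196486⟩
    ⟨397735, 324030, 0, 0, 196486⟩ :=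
  faceH_of (n := 60) (x1 := 886652) (y1 := 703407) (r0 := 249843) (r1 := 5205088)
    (by decide +kernel) (by decide +kernel)

private theorem c2_17_2 : FaceV ⟨397735, 324030, 0, 0, 196486⟩
    ⟨174253, 324030, 0, 0, 196486⟩ :=
  faceV_of (n := 60) (x1 := 703407) (y1 := 886652) (r0 := 211237) (r1 := 4400805)
    (by decide +kernel) (by decide +kernel) (by decide +kernel)

private theorem c2_17_3 : FaceV ⟨174253, 324030, 0, 0, 196486⟩
    ⟨397735, 324030, 0, 0, 196486⟩ :=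
  faceV_of (n := 60) (x1 := 886652) (y1 := 703407) (r0 := 249843) (r1 := 5205088)
    (by decide +kernel) (by decide +kernel) (by decide +kernel)

private theorem c2_u17 : VD ⟨397735, 324030, 0, 0, 196486⟩ (9 / 20) (11 / 50) (3 / 10) :=
  ⟨by decide +kernel, by norm_num, by norm_num [R], cu_3_10, Or.inr cl_11_50⟩

private theorem c2_v17 : VD ⟨174253, 324030, 0, 0, 196486⟩ (143 / 200) (11 / 50) (3 / 10) :=
  ⟨by decide +kernel, by norm_num, by norm_num [R], cu_3_10, Or.inr cl_11_50⟩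

private theorem c2_17 : Rgn ⟨397735, 324030, 0, 0, 196486⟩
    ⟨174253, 324030, 0, 0, 196486⟩ :=
  rgn_of c2_17_0 c2_17_1 (Or.inr c2_17_2) (Or.inr c2_17_3)

private theorem c2_18_0 : FaceH ⟨349525, 324030, 0, 0, 196486⟩
    ⟨192342, 324030, 0, 0, 196486⟩ :=
  faceH_of (n := 60) (x1 := 741456) (y1 := 871013) (r0 := 214362) (r1 := 4552556)
    (by decide +kernel) (by decide +kernel)

private theorem c2_18_1 : FaceH ⟨192342, 324030, 0, 0, 196486⟩
    ⟨349525, 324030, 0, 0, 196486⟩ :=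
  faceH_of (n := 60) (x1 := 871013) (y1 := 741456) (r0 := 241515) (r1 := 5129213)
    (by decide +kernel) (by decide +kernel)

private theorem c2_18_2 : FaceV ⟨349525, 324030, 0, 0, 196486⟩
    ⟨192342, 324030, 0, 0, 196486⟩ :=
  faceV_of (n := 60) (x1 := 741456) (y1 := 871013) (r0 := 214362) (r1 := 4552556)
    (by decide +kernel) (by decide +kernel) (by decide +kernel)

private theorem c2_18_3 : FaceV ⟨192342, 324030, 0, 0, 196486⟩
    ⟨349525, 324030, 0, 0, 196486⟩ :=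
  faceV_of (n := 60) (x1 := 871013) (y1 := 741456) (r0 := 241515) (r1 := 5129213)
    (by decide +kernel) (by decide +kernel) (by decide +kernel)

private theorem c2_u18 : VD ⟨349525, 324030, 0, 0, 196486⟩ (1 / 2) (11 / 50) (3 / 10) :=
  ⟨by decide +kernel, by norm_num, by norm_num [R], cu_3_10, Or.inr cl_11_50⟩

private theorem c2_v18 : VD ⟨192342, 324030, 0, 0, 196486⟩ (69 / 100) (11 / 50) (3 / 10) :=
  ⟨by decide +kernel, by norm_num, by norm_num [R], cu_3_10, Or.inr cl_11_50⟩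

private theorem c2_18 : Rgn ⟨349525, 324030, 0, 0, 196486⟩
    ⟨192342, 324030, 0, 0, 196486⟩ :=
  rgn_of c2_18_0 c2_18_1 (Or.inr c2_18_2) (Or.inr c2_18_3)

private theorem c2_19_0 : FaceH ⟨304425, 324030, 0, 0, 196486⟩
    ⟨207203, 324030, 0, 0, 196486⟩ :=
  faceH_of (n := 60) (x1 := 777646) (y1 := 858297) (r0 := 216929) (r1 := 4704307)
    (by decide +kernel) (by decide +kernel)

private theorem c2_19_1 : FaceH ⟨207203, 324030, 0, 0, 196486⟩
    ⟨304425, 324030, 0, 0, 196486⟩ :=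
  faceH_of (n := 60) (x1 := 858297) (y1 := 777646) (r0 := 233724) (r1 := 5068513)
    (by decide +kernel) (by decide +kernel)

private theorem c2_19_2 : FaceV ⟨304425, 324030, 0, 0, 196486⟩
    ⟨207203, 324030, 0, 0, 196486⟩ :=
  faceV_of (n := 60) (x1 := 777646) (y1 := 858297) (r0 := 216929) (r1 := 4704307)
    (by decide +kernel) (by decide +kernel) (by decide +kernel)

private theorem c2_19_3 : FaceV ⟨207203, 324030, 0, 0, 196486⟩
    ⟨304425, 324030, 0, 0, 196486⟩ :=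
  faceV_of (n := 60) (x1 := 858297) (y1 := 777646) (r0 := 233724) (r1 := 5068513)
    (by decide +kernel) (by decide +kernel) (by decide +kernel)

private theorem c2_u19 : VD ⟨304425, 324030, 0, 0, 196486⟩ (11 / 20) (11 / 50) (3 / 10) :=
  ⟨by decide +kernel, by norm_num, by norm_num [R], cu_3_10, Or.inr cl_11_50⟩

private theorem c2_v19 : VD ⟨207203, 324030, 0, 0, 196486⟩ (67 / 100) (11 / 50) (3 / 10) :=
  ⟨by decide +kernel, by norm_num, by norm_num [R], cu_3_10, Or.inr cl_11_50⟩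

private theorem c2_19 : Rgn ⟨304425, 324030, 0, 0, 196486⟩
    ⟨207203, 324030, 0, 0, 196486⟩ :=
  rgn_of c2_19_0 c2_19_1 (Or.inr c2_19_2) (Or.inr c2_19_3)

private theorem c2_20_0 : FaceH ⟨262144, 324030, 0, 0, 196486⟩
    ⟨222425, 324030, 0, 0, 196486⟩ :=
  faceH_of (n := 60) (x1 := 812224) (y1 := 845390) (r0 := 219559) (r1 := 4856058)
    (by decide +kernel) (by decide +kernel)

private theorem c2_20_1 : FaceH ⟨222425, 324030, 0, 0, 196486⟩
    ⟨262144, 324030, 0, 0, 196486⟩ :=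
  faceH_of (n := 60) (x1 := 845390) (y1 := 812224) (r0 := 226420) (r1 := 5007811)
    (by decide +kernel) (by decide +kernel)

private theorem c2_20_2 : FaceV ⟨262144, 324030, 0, 0, 196486⟩
    ⟨222425, 324030, 0, 0, 196486⟩ :=
  faceV_of (n := 60) (x1 := 812224) (y1 := 845390) (r0 := 219559) (r1 := 4856058)
    (by decide +kernel) (by decide +kernel) (by decide +kernel)

private theorem c2_20_3 : FaceV ⟨222425, 324030, 0, 0, 196486⟩
    ⟨262144, 324030, 0, 0, 196486⟩ :=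
  faceV_of (n := 60) (x1 := 845390) (y1 := 812224) (r0 := 226420) (r1 := 5007811)
    (by decide +kernel) (by decide +kernel) (by decide +kernel)

private theorem c2_u20 : VD ⟨262144, 324030, 0, 0, 196486⟩ (3 / 5) (11 / 50) (3 / 10) :=
  ⟨by decide +kernel, by norm_num, by norm_num [R], cu_3_10, Or.inr cl_11_50⟩

private theorem c2_v20 : VD ⟨222425, 324030, 0, 0, 196486⟩ (13 / 20) (11 / 50) (3 / 10) :=
  ⟨by decide +kernel, by norm_num, by norm_num [R], cu_3_10, Or.inr cl_11_50⟩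

private theorem c2_20 : Rgn ⟨262144, 324030, 0, 0, 196486⟩
    ⟨222425, 324030, 0, 0, 196486⟩ :=
  rgn_of c2_20_0 c2_20_1 (Or.inr c2_20_2) (Or.inr c2_20_3)

theorem flat_c2 {θ θ' : ℝ} {v w : ℂ} (h : T2.Pr θ θ' v w)
    (j : J3 (Real.tan θ ^ 2) (Real.tan θ' ^ 2)) (j' : J3 (Real.tan θ' ^ 2) (Real.tan θ ^ 2))
    (t1 : Real.tan θ ^ 2 < 1) (t2 : Real.tan θ' ^ 2 < 1)
    (h1 : 11 / 50 ≤ v.re) (h2 : v.re ≤ 3 / 10) (h3 : 11 / 50 ≤ w.re) (h4 : w.re ≤ 3 / 10) :
    FlatM (1 / cos (Real.pi * v) ^ 2) (1 / cos (Real.pi * (starRingEnd ℂ) w) ^ 2) := by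
  rcases j.c22 j' t1 t2 with (⟨a, b⟩ | ⟨a, b⟩ | ⟨a, b⟩ | ⟨a, b⟩ | ⟨a, b⟩ | ⟨a, b⟩ | ⟨a, b⟩ | ⟨a, b⟩ | ⟨a, b⟩ | ⟨a, b⟩) |
    (⟨a, b⟩ | ⟨a, b⟩ | ⟨a, b⟩ | ⟨a, b⟩ | ⟨a, b⟩ | ⟨a, b⟩ | ⟨a, b⟩ | ⟨a, b⟩ | ⟨a, b⟩ | ⟨a, b⟩) | ⟨a, b⟩
  · exact c2_0.flatM c2_u0 c2_v0 h a b t1 t2 h1 h2 h3 h4
      (by norm_num) (by norm_num) (by norm_num) (by norm_num)
  · exact c2_1.flatM c2_u1 c2_v1 h a b t1 t2 h1 h2 h3 h4
      (by norm_num) (by norm_num) (by norm_num) (by norm_num)
  · exact c2_2.flatM c2_u2 c2_v2 h a b t1 t2 h1 h2 h3 h4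
      (by norm_num) (by norm_num) (by norm_num) (by norm_num)
  · exact c2_6.flatM c2_u6 c2_v6 h a b t1 t2 h1 h2 h3 h4
      (by norm_num) (by norm_num) (by norm_num) (by norm_num)
  · exact c2_7.flatM c2_u7 c2_v7 h a b t1 t2 h1 h2 h3 h4
      (by norm_num) (by norm_num) (by norm_num) (by norm_num)
  · exact c2_8.flatM c2_u8 c2_v8 h a b t1 t2 h1 h2 h3 h4
      (by norm_num) (by norm_num) (by norm_num) (by norm_num)
  · exact c2_9.flatM c2_u9 c2_v9 h a b t1 t2 h1 h2 h3 h4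
      (by norm_num) (by norm_num) (by norm_num) (by norm_num)
  · exact c2_10.flatM c2_u10 c2_v10 h a b t1 t2 h1 h2 h3 h4
      (by norm_num) (by norm_num) (by norm_num) (by norm_num)
  · exact c2_11.flatM c2_u11 c2_v11 h a b t1 t2 h1 h2 h3 h4
      (by norm_num) (by norm_num) (by norm_num) (by norm_num)
  · exact c2_12.flatM c2_u12 c2_v12 h a b t1 t2 h1 h2 h3 h4
      (by norm_num) (by norm_num) (by norm_num) (by norm_num)
  · exact c2_3.flatM c2_u3 c2_v3 h b a t1 t2 h1 h2 h3 h4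
      (by norm_num) (by norm_num) (by norm_num) (by norm_num)
  · exact c2_4.flatM c2_u4 c2_v4 h b a t1 t2 h1 h2 h3 h4
      (by norm_num) (by norm_num) (by norm_num) (by norm_num)
  · exact c2_5.flatM c2_u5 c2_v5 h b a t1 t2 h1 h2 h3 h4
      (by norm_num) (by norm_num) (by norm_num) (by norm_num)
  · exact c2_14.flatM c2_u14 c2_v14 h b a t1 t2 h1 h2 h3 h4
      (by norm_num) (by norm_num) (by norm_num) (by norm_num)
  · exact c2_15.flatM c2_u15 c2_v15 h b a t1 t2 h1 h2 h3 h4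
      (by norm_num) (by norm_num) (by norm_num) (by norm_num)
  · exact c2_16.flatM c2_u16 c2_v16 h b a t1 t2 h1 h2 h3 h4
      (by norm_num) (by norm_num) (by norm_num) (by norm_num)
  · exact c2_17.flatM c2_u17 c2_v17 h b a t1 t2 h1 h2 h3 h4
      (by norm_num) (by norm_num) (by norm_num) (by norm_num)
  · exact c2_18.flatM c2_u18 c2_v18 h b a t1 t2 h1 h2 h3 h4
      (by norm_num) (by norm_num) (by norm_num) (by norm_num)
  · exact c2_19.flatM c2_u19 c2_v19 h b a t1 t2 h1 h2 h3 h4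
      (by norm_num) (by norm_num) (by norm_num) (by norm_num)
  · exact c2_20.flatM c2_u20 c2_v20 h b a t1 t2 h1 h2 h3 h4
      (by norm_num) (by norm_num) (by norm_num) (by norm_num)
  · exact c2_13.flatM c2_u13 c2_v13 h a b t1 t2 h1 h2 h3 h4
      (by norm_num) (by norm_num) (by norm_num) (by norm_num)

end Pool.Agent.S3.Ck
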