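import Pool.Agent.S3.Ck.CosK
import Pool.Agent.S3.Ck.SoundG

/-!
# Flats: k1
-/

set_option autoImplicit false
set_option maxRecDepth 100000

namespace Pool.Agent.S3.Ck

open Complex

private theorem k1_0_0 : FaceH ⟨0, 522387, 0, 0, 1048576⟩
    ⟨857925, 0, 561853, 0, 1048576⟩ :=
  faceH_of (n := 60) (x1 := 1048576) (y1 := 331590) (r0 := 239176) (r1 := 2730979)
    (by decide +kernel) (by decide +kernel)

private theorem k1_0_1 : FaceH ⟨857925, 0, 561853, 0, 1048576⟩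
    ⟨0, 522387, 0, 0, 1048576⟩ :=
  faceH_of (n := 60) (x1 := 331590) (y1 := 1048576) (r0 := 402607) (r1 := 4597069)
    (by decide +kernel) (by decide +kernel)

private theorem k1_u0 : VD ⟨0, 522387, 0, 0, 1048576⟩ 1 0 (333 / 1000) :=
  ⟨by decide +kernel, by norm_num, by norm_num [R], cu_333_1000, Or.inl rfl⟩

private theorem k1_v0 : VD ⟨857925, 0, 561853, 0, 1048576⟩ (1 / 10) 0 (4 / 25) :=
  ⟨by decide +kernel, by norm_num, by norm_num [R], cu_4_25, Or.inl rfl⟩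

private theorem k1_0 : Rgn ⟨0, 522387, 0, 0, 1048576⟩
    ⟨857925, 0, 561853, 0, 1048576⟩ :=
  rgn_of k1_0_0 k1_0_1 (Or.inl rfl) (Or.inl rfl)

private theorem k1_1_0 : FaceH ⟨32430, 522387, 0, 0, 1048576⟩
    ⟨699050, 0, 561853, 0, 1048576⟩ :=
  faceH_of (n := 60) (x1 := 1016633) (y1 := 468938) (r0 := 219245) (r1 := 2649050)
    (by decide +kernel) (by decide +kernel)

private theorem k1_1_1 : FaceH ⟨699050, 0, 561853, 0, 1048576⟩
    ⟨32430, 522387, 0, 0, 1048576⟩ :=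
  faceH_of (n := 60) (x1 := 468938) (y1 := 1016633) (r0 := 415058) (r1 := 5014984)
    (by decide +kernel) (by decide +kernel)

private theorem k1_u1 : VD ⟨32430, 522387, 0, 0, 1048576⟩ (47 / 50) 0 (333 / 1000) :=
  ⟨by decide +kernel, by norm_num, by norm_num [R], cu_333_1000, Or.inl rfl⟩

private theorem k1_v1 : VD ⟨699050, 0, 561853, 0, 1048576⟩ (1 / 5) 0 (4 / 25) :=
  ⟨by decide +kernel, by norm_num, by norm_num [R], cu_4_25, Or.inl rfl⟩

private theorem k1_1 : Rgn ⟨32430, 522387, 0, 0, 1048576⟩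
    ⟨699050, 0, 561853, 0, 1048576⟩ :=
  rgn_of k1_1_0 k1_1_1 (Or.inl rfl) (Or.inl rfl)

private theorem k1_2_0 : FaceH ⟨85019, 522387, 0, 0, 1048576⟩
    ⟨629145, 0, 561853, 0, 1048576⟩ :=
  faceH_of (n := 60) (x1 := 966740) (y1 := 524289) (r0 := 210475) (r1 := 2526157)
    (by decide +kernel) (by decide +kernel)

private theorem k1_2_1 : FaceH ⟨629145, 0, 561853, 0, 1048576⟩
    ⟨85019, 522387, 0, 0, 1048576⟩ :=
  faceH_of (n := 60) (x1 := 524289) (y1 := 966740) (r0 := 435250) (r1 := 5223941)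
    (by decide +kernel) (by decide +kernel)

private theorem k1_u2 : VD ⟨85019, 522387, 0, 0, 1048576⟩ (17 / 20) 0 (333 / 1000) :=
  ⟨by decide +kernel, by norm_num, by norm_num [R], cu_333_1000, Or.inl rfl⟩

private theorem k1_v2 : VD ⟨629145, 0, 561853, 0, 1048576⟩ (1 / 4) 0 (4 / 25) :=
  ⟨by decide +kernel, by norm_num, by norm_num [R], cu_4_25, Or.inl rfl⟩

private theorem k1_2 : Rgn ⟨85019, 522387, 0, 0, 1048576⟩
    ⟨629145, 0, 561853, 0, 1048576⟩ :=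
  rgn_of k1_2_0 k1_2_1 (Or.inl rfl) (Or.inl rfl)

theorem flat_k1 {θ θ' : ℝ} {v w : ℂ} (h : T2.Pr θ θ' v w)
    (j : J3 (Real.tan θ ^ 2) (Real.tan θ' ^ 2)) (t1 : Real.tan θ ^ 2 < 1)
    (t2 : Real.tan θ' ^ 2 ≤ 1 / 4)
    (h2 : v.re ≤ 333 / 1000) (h4 : w.re ≤ 4 / 25) :
    FlatM (1 / cos (Real.pi * v) ^ 2) (1 / cos (Real.pi * (starRingEnd ℂ) w) ^ 2) := by
  rcases j.ck t1 t2 with ⟨a, b⟩ | ⟨a, b⟩ | ⟨a, b⟩
  · exact k1_0.flatM k1_u0 k1_v0 h a b t1 (by linarith) h.hv.re0 h2 h.hw.re0 h4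
      (by norm_num) (by norm_num) (by norm_num) (by norm_num)
  · exact k1_1.flatM k1_u1 k1_v1 h a b t1 (by linarith) h.hv.re0 h2 h.hw.re0 h4
      (by norm_num) (by norm_num) (by norm_num) (by norm_num)
  · exact k1_2.flatM k1_u2 k1_v2 h a b t1 (by linarith) h.hv.re0 h2 h.hw.re0 h4
      (by norm_num) (by norm_num) (by norm_num) (by norm_num)

end Pool.Agent.S3.Ck
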