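import Pool.Agent.S3.Ck.CosK
import Pool.Agent.S3.Ck.SoundG

/-!
# Flats: k11
-/

set_option autoImplicit false
set_option maxRecDepth 100000

namespace Pool.Agent.S3.Ck

open Complex

private theorem k11_0_0 : FaceH ⟨0, 741458, 0, 0, 98682⟩
    ⟨857925, 446464, 0, 416437, 0⟩ :=
  faceH_of (n := 60) (x1 := 1048576) (y1 := 331590) (r0 := 139599) (r1 := 7304367)
    (by decide +kernel) (by decide +kernel)

private theorem k11_0_1 : FaceH ⟨857925, 446464, 0, 416437, 0⟩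
    ⟨0, 741458, 0, 0, 98682⟩ :=
  faceH_of (n := 60) (x1 := 331590) (y1 := 1048576) (r0 := 150528) (r1 := 7876213)
    (by decide +kernel) (by decide +kernel)

private theorem k11_0_2 : FaceV ⟨0, 741458, 0, 0, 98682⟩
    ⟨857925, 446464, 0, 416437, 0⟩ :=
  faceV_of (n := 60) (x1 := 1048576) (y1 := 331590) (r0 := 139599) (r1 := 7304367)
    (by decide +kernel) (by decide +kernel) (by decide +kernel)

private theorem k11_0_3 : FaceV ⟨857925, 446464, 0, 416437, 0⟩
    ⟨0, 741458, 0, 0, 98682⟩ :=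
  faceV_of (n := 60) (x1 := 331590) (y1 := 1048576) (r0 := 150528) (r1 := 7876213)
    (by decide +kernel) (by decide +kernel) (by decide +kernel)

private theorem k11_u0 : VD ⟨0, 741458, 0, 0, 98682⟩ 1 (47 / 200) (3 / 8) :=
  ⟨by decide +kernel, by norm_num, by norm_num [R], cu_3_8, Or.inr cl_47_200⟩

private theorem k11_v0 : VD ⟨857925, 446464, 0, 416437, 0⟩ (1 / 10) (63 / 200) (8 / 25) :=
  ⟨by decide +kernel, by norm_num, by norm_num [R], cu_8_25, Or.inr cl_63_200⟩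

private theorem k11_0 : Rgn ⟨0, 741458, 0, 0, 98682⟩
    ⟨857925, 446464, 0, 416437, 0⟩ :=
  rgn_of k11_0_0 k11_0_1 (Or.inr k11_0_2) (Or.inr k11_0_3)

private theorem k11_1_0 : FaceH ⟨32430, 741458, 0, 0, 98682⟩
    ⟨699050, 446464, 0, 416437, 0⟩ :=
  faceH_of (n := 60) (x1 := 1016633) (y1 := 468938) (r0 := 127965) (r1 := 7085237)
    (by decide +kernel) (by decide +kernel)

private theorem k11_1_1 : FaceH ⟨699050, 446464, 0, 416437, 0⟩
    ⟨32430, 741458, 0, 0, 98682⟩ :=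
  faceH_of (n := 60) (x1 := 468938) (y1 := 1016633) (r0 := 155183) (r1 := 8592232)
    (by decide +kernel) (by decide +kernel)

private theorem k11_1_2 : FaceV ⟨32430, 741458, 0, 0, 98682⟩
    ⟨699050, 446464, 0, 416437, 0⟩ :=
  faceV_of (n := 60) (x1 := 1016633) (y1 := 468938) (r0 := 127965) (r1 := 7085237)
    (by decide +kernel) (by decide +kernel) (by decide +kernel)

private theorem k11_1_3 : FaceV ⟨699050, 446464, 0, 416437, 0⟩
    ⟨32430, 741458, 0, 0, 98682⟩ :=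
  faceV_of (n := 60) (x1 := 468938) (y1 := 1016633) (r0 := 155183) (r1 := 8592232)
    (by decide +kernel) (by decide +kernel) (by decide +kernel)

private theorem k11_u1 : VD ⟨32430, 741458, 0, 0, 98682⟩ (47 / 50) (47 / 200) (3 / 8) :=
  ⟨by decide +kernel, by norm_num, by norm_num [R], cu_3_8, Or.inr cl_47_200⟩

private theorem k11_v1 : VD ⟨699050, 446464, 0, 416437, 0⟩ (1 / 5) (63 / 200) (8 / 25) :=
  ⟨by decide +kernel, by norm_num, by norm_num [R], cu_8_25, Or.inr cl_63_200⟩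

private theorem k11_1 : Rgn ⟨32430, 741458, 0, 0, 98682⟩
    ⟨699050, 446464, 0, 416437, 0⟩ :=
  rgn_of k11_1_0 k11_1_1 (Or.inr k11_1_2) (Or.inr k11_1_3)

private theorem k11_2_0 : FaceH ⟨85019, 741458, 0, 0, 98682⟩
    ⟨629145, 446464, 0, 416437, 0⟩ :=
  faceH_of (n := 60) (x1 := 966740) (y1 := 524289) (r0 := 122847) (r1 := 6756543)
    (by decide +kernel) (by decide +kernel)

private theorem k11_2_1 : FaceH ⟨629145, 446464, 0, 416437, 0⟩
    ⟨85019, 741458, 0, 0, 98682⟩ :=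
  faceH_of (n := 60) (x1 := 524289) (y1 := 966740) (r0 := 162732) (r1 := 8950241)
    (by decide +kernel) (by decide +kernel)

private theorem k11_2_2 : FaceV ⟨85019, 741458, 0, 0, 98682⟩
    ⟨629145, 446464, 0, 416437, 0⟩ :=
  faceV_of (n := 60) (x1 := 966740) (y1 := 524289) (r0 := 122847) (r1 := 6756543)
    (by decide +kernel) (by decide +kernel) (by decide +kernel)

private theorem k11_2_3 : FaceV ⟨629145, 446464, 0, 416437, 0⟩
    ⟨85019, 741458, 0, 0, 98682⟩ :=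
  faceV_of (n := 60) (x1 := 524289) (y1 := 966740) (r0 := 162732) (r1 := 8950241)
    (by decide +kernel) (by decide +kernel) (by decide +kernel)

private theorem k11_u2 : VD ⟨85019, 741458, 0, 0, 98682⟩ (17 / 20) (47 / 200) (3 / 8) :=
  ⟨by decide +kernel, by norm_num, by norm_num [R], cu_3_8, Or.inr cl_47_200⟩

private theorem k11_v2 : VD ⟨629145, 446464, 0, 416437, 0⟩ (1 / 4) (63 / 200) (8 / 25) :=
  ⟨by decide +kernel, by norm_num, by norm_num [R], cu_8_25, Or.inr cl_63_200⟩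

private theorem k11_2 : Rgn ⟨85019, 741458, 0, 0, 98682⟩
    ⟨629145, 446464, 0, 416437, 0⟩ :=
  rgn_of k11_2_0 k11_2_1 (Or.inr k11_2_2) (Or.inr k11_2_3)

theorem flat_k11 {θ θ' : ℝ} {v w : ℂ} (h : T2.Pr θ θ' v w)
    (j : J3 (Real.tan θ ^ 2) (Real.tan θ' ^ 2)) (t1 : Real.tan θ ^ 2 < 1)
    (t2 : Real.tan θ' ^ 2 ≤ 1 / 4)
    (h1 : 47 / 200 ≤ v.re) (h2 : v.re ≤ 3 / 8) (h3 : 63 / 200 ≤ w.re) (h4 : w.re ≤ 8 / 25) :
    FlatM (1 / cos (Real.pi * v) ^ 2) (1 / cos (Real.pi * (starRingEnd ℂ) w) ^ 2) := by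
  rcases j.ck t1 t2 with ⟨a, b⟩ | ⟨a, b⟩ | ⟨a, b⟩
  · exact k11_0.flatM k11_u0 k11_v0 h a b t1 (by linarith) h1 h2 h3 h4
      (by norm_num) (by norm_num) (by norm_num) (by norm_num)
  · exact k11_1.flatM k11_u1 k11_v1 h a b t1 (by linarith) h1 h2 h3 h4
      (by norm_num) (by norm_num) (by norm_num) (by norm_num)
  · exact k11_2.flatM k11_u2 k11_v2 h a b t1 (by linarith) h1 h2 h3 h4
      (by norm_num) (by norm_num) (by norm_num) (by norm_num)

end Pool.Agent.S3.Ck
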