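import Pool.Agent.S3.Ck.CosK
import Pool.Agent.S3.Ck.SoundG

/-!
# Flats: k12
-/

set_option autoImplicit false
set_option maxRecDepth 100000

namespace Pool.Agent.S3.Ck

open Complex

private theorem k12_0_0 : FaceH ⟨0, 741458, 0, 0, 3⟩
    ⟨857925, 476046, 0, 446459, 0⟩ :=
  faceH_of (n := 60) (x1 := 1048576) (y1 := 331590) (r0 := 139599) (r1 := 7681775)
    (by decide +kernel) (by decide +kernel)

private theorem k12_0_1 : FaceH ⟨857925, 476046, 0, 446459, 0⟩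
    ⟨0, 741458, 0, 0, 3⟩ :=
  faceH_of (n := 60) (x1 := 331590) (y1 := 1048576) (r0 := 143132) (r1 := 7876213)
    (by decide +kernel) (by decide +kernel)

private theorem k12_0_2 : FaceV ⟨0, 741458, 0, 0, 3⟩
    ⟨857925, 476046, 0, 446459, 0⟩ :=
  faceV_of (n := 60) (x1 := 1048576) (y1 := 331590) (r0 := 139599) (r1 := 7681775)
    (by decide +kernel) (by decide +kernel) (by decide +kernel)

private theorem k12_0_3 : FaceV ⟨857925, 476046, 0, 446459, 0⟩
    ⟨0, 741458, 0, 0, 3⟩ :=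
  faceV_of (n := 60) (x1 := 331590) (y1 := 1048576) (r0 := 143132) (r1 := 7876213)
    (by decide +kernel) (by decide +kernel) (by decide +kernel)

private theorem k12_u0 : VD ⟨0, 741458, 0, 0, 3⟩ 1 (1 / 4) (3 / 8) :=
  ⟨by decide +kernel, by norm_num, by norm_num [R], cu_3_8, Or.inr cl_1_4⟩

private theorem k12_v0 : VD ⟨857925, 476046, 0, 446459, 0⟩ (1 / 10) (8 / 25) (13 / 40) :=
  ⟨by decide +kernel, by norm_num, by norm_num [R], cu_13_40, Or.inr cl_8_25⟩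

private theorem k12_0 : Rgn ⟨0, 741458, 0, 0, 3⟩
    ⟨857925, 476046, 0, 446459, 0⟩ :=
  rgn_of k12_0_0 k12_0_1 (Or.inr k12_0_2) (Or.inr k12_0_3)

private theorem k12_1_0 : FaceH ⟨32430, 741458, 0, 0, 3⟩
    ⟨699050, 476046, 0, 446459, 0⟩ :=
  faceH_of (n := 60) (x1 := 1016633) (y1 := 468938) (r0 := 127965) (r1 := 7451323)
    (by decide +kernel) (by decide +kernel)

private theorem k12_1_1 : FaceH ⟨699050, 476046, 0, 446459, 0⟩
    ⟨32430, 741458, 0, 0, 3⟩ :=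
  faceH_of (n := 60) (x1 := 468938) (y1 := 1016633) (r0 := 147559) (r1 := 8592232)
    (by decide +kernel) (by decide +kernel)

private theorem k12_1_2 : FaceV ⟨32430, 741458, 0, 0, 3⟩
    ⟨699050, 476046, 0, 446459, 0⟩ :=
  faceV_of (n := 60) (x1 := 1016633) (y1 := 468938) (r0 := 127965) (r1 := 7451323)
    (by decide +kernel) (by decide +kernel) (by decide +kernel)

private theorem k12_1_3 : FaceV ⟨699050, 476046, 0, 446459, 0⟩
    ⟨32430, 741458, 0, 0, 3⟩ :=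
  faceV_of (n := 60) (x1 := 468938) (y1 := 1016633) (r0 := 147559) (r1 := 8592232)
    (by decide +kernel) (by decide +kernel) (by decide +kernel)

private theorem k12_u1 : VD ⟨32430, 741458, 0, 0, 3⟩ (47 / 50) (1 / 4) (3 / 8) :=
  ⟨by decide +kernel, by norm_num, by norm_num [R], cu_3_8, Or.inr cl_1_4⟩

private theorem k12_v1 : VD ⟨699050, 476046, 0, 446459, 0⟩ (1 / 5) (8 / 25) (13 / 40) :=
  ⟨by decide +kernel, by norm_num, by norm_num [R], cu_13_40, Or.inr cl_8_25⟩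

private theorem k12_1 : Rgn ⟨32430, 741458, 0, 0, 3⟩
    ⟨699050, 476046, 0, 446459, 0⟩ :=
  rgn_of k12_1_0 k12_1_1 (Or.inr k12_1_2) (Or.inr k12_1_3)

private theorem k12_2_0 : FaceH ⟨85019, 741458, 0, 0, 3⟩
    ⟨629145, 476046, 0, 446459, 0⟩ :=
  faceH_of (n := 60) (x1 := 966740) (y1 := 524289) (r0 := 122847) (r1 := 7105646)
    (by decide +kernel) (by decide +kernel)

private theorem k12_2_1 : FaceH ⟨629145, 476046, 0, 446459, 0⟩
    ⟨85019, 741458, 0, 0, 3⟩ :=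
  faceH_of (n := 60) (x1 := 524289) (y1 := 966740) (r0 := 154737) (r1 := 8950241)
    (by decide +kernel) (by decide +kernel)

private theorem k12_2_2 : FaceV ⟨85019, 741458, 0, 0, 3⟩
    ⟨629145, 476046, 0, 446459, 0⟩ :=
  faceV_of (n := 60) (x1 := 966740) (y1 := 524289) (r0 := 122847) (r1 := 7105646)
    (by decide +kernel) (by decide +kernel) (by decide +kernel)

private theorem k12_2_3 : FaceV ⟨629145, 476046, 0, 446459, 0⟩
    ⟨85019, 741458, 0, 0, 3⟩ :=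
  faceV_of (n := 60) (x1 := 524289) (y1 := 966740) (r0 := 154737) (r1 := 8950241)
    (by decide +kernel) (by decide +kernel) (by decide +kernel)

private theorem k12_u2 : VD ⟨85019, 741458, 0, 0, 3⟩ (17 / 20) (1 / 4) (3 / 8) :=
  ⟨by decide +kernel, by norm_num, by norm_num [R], cu_3_8, Or.inr cl_1_4⟩

private theorem k12_v2 : VD ⟨629145, 476046, 0, 446459, 0⟩ (1 / 4) (8 / 25) (13 / 40) :=
  ⟨by decide +kernel, by norm_num, by norm_num [R], cu_13_40, Or.inr cl_8_25⟩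

private theorem k12_2 : Rgn ⟨85019, 741458, 0, 0, 3⟩
    ⟨629145, 476046, 0, 446459, 0⟩ :=
  rgn_of k12_2_0 k12_2_1 (Or.inr k12_2_2) (Or.inr k12_2_3)

theorem flat_k12 {θ θ' : ℝ} {v w : ℂ} (h : T2.Pr θ θ' v w)
    (j : J3 (Real.tan θ ^ 2) (Real.tan θ' ^ 2)) (t1 : Real.tan θ ^ 2 < 1)
    (t2 : Real.tan θ' ^ 2 ≤ 1 / 4)
    (h1 : 1 / 4 ≤ v.re) (h2 : v.re ≤ 3 / 8) (h3 : 8 / 25 ≤ w.re) (h4 : w.re ≤ 13 / 40) :
    FlatM (1 / cos (Real.pi * v) ^ 2) (1 / cos (Real.pi * (starRingEnd ℂ) w) ^ 2) := by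
  rcases j.ck t1 t2 with ⟨a, b⟩ | ⟨a, b⟩ | ⟨a, b⟩
  · exact k12_0.flatM k12_u0 k12_v0 h a b t1 (by linarith) h1 h2 h3 h4
      (by norm_num) (by norm_num) (by norm_num) (by norm_num)
  · exact k12_1.flatM k12_u1 k12_v1 h a b t1 (by linarith) h1 h2 h3 h4
      (by norm_num) (by norm_num) (by norm_num) (by norm_num)
  · exact k12_2.flatM k12_u2 k12_v2 h a b t1 (by linarith) h1 h2 h3 h4
      (by norm_num) (by norm_num) (by norm_num) (by norm_num)

end Pool.Agent.S3.Ck
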