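import Pool.Agent.S3.Ck.CosK
import Pool.Agent.S3.Ck.SoundG

/-!
# Flats: k2
-/

set_option autoImplicit false
set_option maxRecDepth 100000

namespace Pool.Agent.S3.Ck

open Complex

private theorem k2_0_0 : FaceH ⟨0, 550688, 0, 0, 1048576⟩
    ⟨857925, 0, 324025, 0, 561858⟩ :=
  faceH_of (n := 60) (x1 := 1048576) (y1 := 331590) (r0 := 226312) (r1 := 3204170)
    (by decide +kernel) (by decide +kernel)

private theorem k2_0_1 : FaceH ⟨857925, 0, 324025, 0, 561858⟩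
    ⟨0, 550688, 0, 0, 1048576⟩ :=
  faceH_of (n := 60) (x1 := 331590) (y1 := 1048576) (r0 := 343150) (r1 := 4858376)
    (by decide +kernel) (by decide +kernel)

private theorem k2_0_3 : FaceV ⟨857925, 0, 324025, 0, 561858⟩
    ⟨0, 550688, 0, 0, 1048576⟩ :=
  faceV_of (n := 60) (x1 := 331590) (y1 := 1048576) (r0 := 343150) (r1 := 4858376)
    (by decide +kernel) (by decide +kernel) (by decide +kernel)

private theorem k2_u0 : VD ⟨0, 550688, 0, 0, 1048576⟩ 1 0 (169 / 500) :=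
  ⟨by decide +kernel, by norm_num, by norm_num [R], cu_169_500, Or.inl rfl⟩

private theorem k2_v0 : VD ⟨857925, 0, 324025, 0, 561858⟩ (1 / 10) (4 / 25) (1 / 5) :=
  ⟨by decide +kernel, by norm_num, by norm_num [R], cu_1_5, Or.inr cl_4_25⟩

private theorem k2_0 : Rgn ⟨0, 550688, 0, 0, 1048576⟩
    ⟨857925, 0, 324025, 0, 561858⟩ :=
  rgn_of k2_0_0 k2_0_1 (Or.inl rfl) (Or.inr k2_0_3)

private theorem k2_1_0 : FaceH ⟨32430, 550688, 0, 0, 1048576⟩
    ⟨699050, 0, 324025, 0, 561858⟩ :=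
  faceH_of (n := 60) (x1 := 1016633) (y1 := 468938) (r0 := 207453) (r1 := 3108046)
    (by decide +kernel) (by decide +kernel)

private theorem k2_1_1 : FaceH ⟨699050, 0, 324025, 0, 561858⟩
    ⟨32430, 550688, 0, 0, 1048576⟩ :=
  faceH_of (n := 60) (x1 := 468938) (y1 := 1016633) (r0 := 353763) (r1 := 5300046)
    (by decide +kernel) (by decide +kernel)

private theorem k2_1_3 : FaceV ⟨699050, 0, 324025, 0, 561858⟩
    ⟨32430, 550688, 0, 0, 1048576⟩ :=
  faceV_of (n := 60) (x1 := 468938) (y1 := 1016633) (r0 := 353763) (r1 := 5300046)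
    (by decide +kernel) (by decide +kernel) (by decide +kernel)

private theorem k2_u1 : VD ⟨32430, 550688, 0, 0, 1048576⟩ (47 / 50) 0 (169 / 500) :=
  ⟨by decide +kernel, by norm_num, by norm_num [R], cu_169_500, Or.inl rfl⟩

private theorem k2_v1 : VD ⟨699050, 0, 324025, 0, 561858⟩ (1 / 5) (4 / 25) (1 / 5) :=
  ⟨by decide +kernel, by norm_num, by norm_num [R], cu_1_5, Or.inr cl_4_25⟩

private theorem k2_1 : Rgn ⟨32430, 550688, 0, 0, 1048576⟩
    ⟨699050, 0, 324025, 0, 561858⟩ :=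
  rgn_of k2_1_0 k2_1_1 (Or.inl rfl) (Or.inr k2_1_3)

private theorem k2_2_0 : FaceH ⟨85019, 550688, 0, 0, 1048576⟩
    ⟨629145, 0, 324025, 0, 561858⟩ :=
  faceH_of (n := 60) (x1 := 966740) (y1 := 524289) (r0 := 199155) (r1 := 2963859)
    (by decide +kernel) (by decide +kernel)

private theorem k2_2_1 : FaceH ⟨629145, 0, 324025, 0, 561858⟩
    ⟨85019, 550688, 0, 0, 1048576⟩ :=
  faceH_of (n := 60) (x1 := 524289) (y1 := 966740) (r0 := 370973) (r1 := 5520881)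
    (by decide +kernel) (by decide +kernel)

private theorem k2_2_3 : FaceV ⟨629145, 0, 324025, 0, 561858⟩
    ⟨85019, 550688, 0, 0, 1048576⟩ :=
  faceV_of (n := 60) (x1 := 524289) (y1 := 966740) (r0 := 370973) (r1 := 5520881)
    (by decide +kernel) (by decide +kernel) (by decide +kernel)

private theorem k2_u2 : VD ⟨85019, 550688, 0, 0, 1048576⟩ (17 / 20) 0 (169 / 500) :=
  ⟨by decide +kernel, by norm_num, by norm_num [R], cu_169_500, Or.inl rfl⟩

private theorem k2_v2 : VD ⟨629145, 0, 324025, 0, 561858⟩ (1 / 4) (4 / 25) (1 / 5) :=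
  ⟨by decide +kernel, by norm_num, by norm_num [R], cu_1_5, Or.inr cl_4_25⟩

private theorem k2_2 : Rgn ⟨85019, 550688, 0, 0, 1048576⟩
    ⟨629145, 0, 324025, 0, 561858⟩ :=
  rgn_of k2_2_0 k2_2_1 (Or.inl rfl) (Or.inr k2_2_3)

theorem flat_k2 {θ θ' : ℝ} {v w : ℂ} (h : T2.Pr θ θ' v w)
    (j : J3 (Real.tan θ ^ 2) (Real.tan θ' ^ 2)) (t1 : Real.tan θ ^ 2 < 1)
    (t2 : Real.tan θ' ^ 2 ≤ 1 / 4)
    (h2 : v.re ≤ 169 / 500) (h3 : 4 / 25 ≤ w.re) (h4 : w.re ≤ 1 / 5) :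
    FlatM (1 / cos (Real.pi * v) ^ 2) (1 / cos (Real.pi * (starRingEnd ℂ) w) ^ 2) := by
  rcases j.ck t1 t2 with ⟨a, b⟩ | ⟨a, b⟩ | ⟨a, b⟩
  · exact k2_0.flatM k2_u0 k2_v0 h a b t1 (by linarith) h.hv.re0 h2 h3 h4
      (by norm_num) (by norm_num) (by norm_num) (by norm_num)
  · exact k2_1.flatM k2_u1 k2_v1 h a b t1 (by linarith) h.hv.re0 h2 h3 h4
      (by norm_num) (by norm_num) (by norm_num) (by norm_num)
  · exact k2_2.flatM k2_u2 k2_v2 h a b t1 (by linarith) h.hv.re0 h2 h3 h4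
      (by norm_num) (by norm_num) (by norm_num) (by norm_num)

end Pool.Agent.S3.Ck
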