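import Pool.Agent.S3.Ck.CosK
import Pool.Agent.S3.Ck.SoundG

/-!
# Flats: k3
-/

set_option autoImplicit false
set_option maxRecDepth 100000

namespace Pool.Agent.S3.Ck

open Complex

private theorem k3_0_0 : FaceH ⟨0, 594827, 0, 0, 1048576⟩
    ⟨857925, 0, 65838, 0, 324030⟩ :=
  faceH_of (n := 60) (x1 := 1048576) (y1 := 331590) (r0 := 206249) (r1 := 3946511)
    (by decide +kernel) (by decide +kernel)

private theorem k3_0_1 : FaceH ⟨857925, 0, 65838, 0, 324030⟩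
    ⟨0, 594827, 0, 0, 1048576⟩ :=
  faceH_of (n := 60) (x1 := 331590) (y1 := 1048576) (r0 := 278603) (r1 := 5330980)
    (by decide +kernel) (by decide +kernel)

private theorem k3_0_3 : FaceV ⟨857925, 0, 65838, 0, 324030⟩
    ⟨0, 594827, 0, 0, 1048576⟩ :=
  faceV_of (n := 60) (x1 := 331590) (y1 := 1048576) (r0 := 278603) (r1 := 5330980)
    (by decide +kernel) (by decide +kernel) (by decide +kernel)

private theorem k3_u0 : VD ⟨0, 594827, 0, 0, 1048576⟩ 1 0 (173 / 500) :=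
  ⟨by decide +kernel, by norm_num, by norm_num [R], cu_173_500, Or.inl rfl⟩

private theorem k3_v0 : VD ⟨857925, 0, 65838, 0, 324030⟩ (1 / 10) (1 / 5) (6 / 25) :=
  ⟨by decide +kernel, by norm_num, by norm_num [R], cu_6_25, Or.inr cl_1_5⟩

private theorem k3_0 : Rgn ⟨0, 594827, 0, 0, 1048576⟩
    ⟨857925, 0, 65838, 0, 324030⟩ :=
  rgn_of k3_0_0 k3_0_1 (Or.inl rfl) (Or.inr k3_0_3)

private theorem k3_1_0 : FaceH ⟨32430, 594827, 0, 0, 1048576⟩
    ⟨699050, 0, 65838, 0, 324030⟩ :=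
  faceH_of (n := 60) (x1 := 1016633) (y1 := 468938) (r0 := 189062) (r1 := 3828116)
    (by decide +kernel) (by decide +kernel)

private theorem k3_1_1 : FaceH ⟨699050, 0, 65838, 0, 324030⟩
    ⟨32430, 594827, 0, 0, 1048576⟩ :=
  faceH_of (n := 60) (x1 := 468938) (y1 := 1016633) (r0 := 287220) (r1 := 5815614)
    (by decide +kernel) (by decide +kernel)

private theorem k3_1_3 : FaceV ⟨699050, 0, 65838, 0, 324030⟩
    ⟨32430, 594827, 0, 0, 1048576⟩ :=
  faceV_of (n := 60) (x1 := 468938) (y1 := 1016633) (r0 := 287220) (r1 := 5815614)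
    (by decide +kernel) (by decide +kernel) (by decide +kernel)

private theorem k3_u1 : VD ⟨32430, 594827, 0, 0, 1048576⟩ (47 / 50) 0 (173 / 500) :=
  ⟨by decide +kernel, by norm_num, by norm_num [R], cu_173_500, Or.inl rfl⟩

private theorem k3_v1 : VD ⟨699050, 0, 65838, 0, 324030⟩ (1 / 5) (1 / 5) (6 / 25) :=
  ⟨by decide +kernel, by norm_num, by norm_num [R], cu_6_25, Or.inr cl_1_5⟩

private theorem k3_1 : Rgn ⟨32430, 594827, 0, 0, 1048576⟩
    ⟨699050, 0, 65838, 0, 324030⟩ :=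
  rgn_of k3_1_0 k3_1_1 (Or.inl rfl) (Or.inr k3_1_3)

private theorem k3_2_0 : FaceH ⟨85019, 594827, 0, 0, 1048576⟩
    ⟨629145, 0, 65838, 0, 324030⟩ :=
  faceH_of (n := 60) (x1 := 966740) (y1 := 524289) (r0 := 181499) (r1 := 3650525)
    (by decide +kernel) (by decide +kernel)

private theorem k3_2_1 : FaceH ⟨629145, 0, 65838, 0, 324030⟩
    ⟨85019, 594827, 0, 0, 1048576⟩ :=
  faceH_of (n := 60) (x1 := 524289) (y1 := 966740) (r0 := 301192) (r1 := 6057931)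
    (by decide +kernel) (by decide +kernel)

private theorem k3_2_3 : FaceV ⟨629145, 0, 65838, 0, 324030⟩
    ⟨85019, 594827, 0, 0, 1048576⟩ :=
  faceV_of (n := 60) (x1 := 524289) (y1 := 966740) (r0 := 301192) (r1 := 6057931)
    (by decide +kernel) (by decide +kernel) (by decide +kernel)

private theorem k3_u2 : VD ⟨85019, 594827, 0, 0, 1048576⟩ (17 / 20) 0 (173 / 500) :=
  ⟨by decide +kernel, by norm_num, by norm_num [R], cu_173_500, Or.inl rfl⟩

private theorem k3_v2 : VD ⟨629145, 0, 65838, 0, 324030⟩ (1 / 4) (1 / 5) (6 / 25) :=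
  ⟨by decide +kernel, by norm_num, by norm_num [R], cu_6_25, Or.inr cl_1_5⟩

private theorem k3_2 : Rgn ⟨85019, 594827, 0, 0, 1048576⟩
    ⟨629145, 0, 65838, 0, 324030⟩ :=
  rgn_of k3_2_0 k3_2_1 (Or.inl rfl) (Or.inr k3_2_3)

theorem flat_k3 {θ θ' : ℝ} {v w : ℂ} (h : T2.Pr θ θ' v w)
    (j : J3 (Real.tan θ ^ 2) (Real.tan θ' ^ 2)) (t1 : Real.tan θ ^ 2 < 1)
    (t2 : Real.tan θ' ^ 2 ≤ 1 / 4)
    (h2 : v.re ≤ 173 / 500) (h3 : 1 / 5 ≤ w.re) (h4 : w.re ≤ 6 / 25) :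
    FlatM (1 / cos (Real.pi * v) ^ 2) (1 / cos (Real.pi * (starRingEnd ℂ) w) ^ 2) := by
  rcases j.ck t1 t2 with ⟨a, b⟩ | ⟨a, b⟩ | ⟨a, b⟩
  · exact k3_0.flatM k3_u0 k3_v0 h a b t1 (by linarith) h.hv.re0 h2 h3 h4
      (by norm_num) (by norm_num) (by norm_num) (by norm_num)
  · exact k3_1.flatM k3_u1 k3_v1 h a b t1 (by linarith) h.hv.re0 h2 h3 h4
      (by norm_num) (by norm_num) (by norm_num) (by norm_num)
  · exact k3_2.flatM k3_u2 k3_v2 h a b t1 (by linarith) h.hv.re0 h2 h3 h4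
      (by norm_num) (by norm_num) (by norm_num) (by norm_num)

end Pool.Agent.S3.Ck
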