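import Pool.Agent.S3.Ck.CosK
import Pool.Agent.S3.Ck.SoundG

/-!
# Flats: k4
-/

set_option autoImplicit false
set_option maxRecDepth 100000

namespace Pool.Agent.S3.Ck

open Complex

private theorem k4_0_0 : FaceH ⟨0, 653043, 0, 0, 1048576⟩
    ⟨857925, 196486, 0, 0, 65843⟩ :=
  faceH_of (n := 60) (x1 := 1048576) (y1 := 331590) (r0 := 179787) (r1 := 5161482)
    (by decide +kernel) (by decide +kernel)

private theorem k4_0_1 : FaceH ⟨857925, 196486, 0, 0, 65843⟩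
    ⟨0, 653043, 0, 0, 1048576⟩ :=
  faceH_of (n := 60) (x1 := 331590) (y1 := 1048576) (r0 := 213022) (r1 := 6115613)
    (by decide +kernel) (by decide +kernel)

private theorem k4_0_3 : FaceV ⟨857925, 196486, 0, 0, 65843⟩
    ⟨0, 653043, 0, 0, 1048576⟩ :=
  faceV_of (n := 60) (x1 := 331590) (y1 := 1048576) (r0 := 213022) (r1 := 6115613)
    (by decide +kernel) (by decide +kernel) (by decide +kernel)

private theorem k4_u0 : VD ⟨0, 653043, 0, 0, 1048576⟩ 1 0 (357 / 1000) :=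
  ⟨by decide +kernel, by norm_num, by norm_num [R], cu_357_1000, Or.inl rfl⟩

private theorem k4_v0 : VD ⟨857925, 196486, 0, 0, 65843⟩ (1 / 10) (6 / 25) (7 / 25) :=
  ⟨by decide +kernel, by norm_num, by norm_num [R], cu_7_25, Or.inr cl_6_25⟩

private theorem k4_0 : Rgn ⟨0, 653043, 0, 0, 1048576⟩
    ⟨857925, 196486, 0, 0, 65843⟩ :=
  rgn_of k4_0_0 k4_0_1 (Or.inl rfl) (Or.inr k4_0_3)

private theorem k4_1_0 : FaceH ⟨32430, 653043, 0, 0, 1048576⟩
    ⟨699050, 196486, 0, 0, 65843⟩ :=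
  faceH_of (n := 60) (x1 := 1016633) (y1 := 468938) (r0 := 164805) (r1 := 5006638)
    (by decide +kernel) (by decide +kernel)

private theorem k4_1_1 : FaceH ⟨699050, 196486, 0, 0, 65843⟩
    ⟨32430, 653043, 0, 0, 1048576⟩ :=
  faceH_of (n := 60) (x1 := 468938) (y1 := 1016633) (r0 := 219610) (r1 := 6671578)
    (by decide +kernel) (by decide +kernel)

private theorem k4_1_3 : FaceV ⟨699050, 196486, 0, 0, 65843⟩
    ⟨32430, 653043, 0, 0, 1048576⟩ :=
  faceV_of (n := 60) (x1 := 468938) (y1 := 1016633) (r0 := 219610) (r1 := 6671578)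
    (by decide +kernel) (by decide +kernel) (by decide +kernel)

private theorem k4_u1 : VD ⟨32430, 653043, 0, 0, 1048576⟩ (47 / 50) 0 (357 / 1000) :=
  ⟨by decide +kernel, by norm_num, by norm_num [R], cu_357_1000, Or.inl rfl⟩

private theorem k4_v1 : VD ⟨699050, 196486, 0, 0, 65843⟩ (1 / 5) (6 / 25) (7 / 25) :=
  ⟨by decide +kernel, by norm_num, by norm_num [R], cu_7_25, Or.inr cl_6_25⟩

private theorem k4_1 : Rgn ⟨32430, 653043, 0, 0, 1048576⟩
    ⟨699050, 196486, 0, 0, 65843⟩ :=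
  rgn_of k4_1_0 k4_1_1 (Or.inl rfl) (Or.inr k4_1_3)

private theorem k4_2_0 : FaceH ⟨85019, 653043, 0, 0, 1048576⟩
    ⟨629145, 196486, 0, 0, 65843⟩ :=
  faceH_of (n := 60) (x1 := 966740) (y1 := 524289) (r0 := 158213) (r1 := 4774373)
    (by decide +kernel) (by decide +kernel)

private theorem k4_2_1 : FaceH ⟨629145, 196486, 0, 0, 65843⟩
    ⟨85019, 653043, 0, 0, 1048576⟩ :=
  faceH_of (n := 60) (x1 := 524289) (y1 := 966740) (r0 := 230294) (r1 := 6949560)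
    (by decide +kernel) (by decide +kernel)

private theorem k4_2_3 : FaceV ⟨629145, 196486, 0, 0, 65843⟩
    ⟨85019, 653043, 0, 0, 1048576⟩ :=
  faceV_of (n := 60) (x1 := 524289) (y1 := 966740) (r0 := 230294) (r1 := 6949560)
    (by decide +kernel) (by decide +kernel) (by decide +kernel)

private theorem k4_u2 : VD ⟨85019, 653043, 0, 0, 1048576⟩ (17 / 20) 0 (357 / 1000) :=
  ⟨by decide +kernel, by norm_num, by norm_num [R], cu_357_1000, Or.inl rfl⟩

private theorem k4_v2 : VD ⟨629145, 196486, 0, 0, 65843⟩ (1 / 4) (6 / 25) (7 / 25) :=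
  ⟨by decide +kernel, by norm_num, by norm_num [R], cu_7_25, Or.inr cl_6_25⟩

private theorem k4_2 : Rgn ⟨85019, 653043, 0, 0, 1048576⟩
    ⟨629145, 196486, 0, 0, 65843⟩ :=
  rgn_of k4_2_0 k4_2_1 (Or.inl rfl) (Or.inr k4_2_3)

theorem flat_k4 {θ θ' : ℝ} {v w : ℂ} (h : T2.Pr θ θ' v w)
    (j : J3 (Real.tan θ ^ 2) (Real.tan θ' ^ 2)) (t1 : Real.tan θ ^ 2 < 1)
    (t2 : Real.tan θ' ^ 2 ≤ 1 / 4)
    (h2 : v.re ≤ 357 / 1000) (h3 : 6 / 25 ≤ w.re) (h4 : w.re ≤ 7 / 25) :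
    FlatM (1 / cos (Real.pi * v) ^ 2) (1 / cos (Real.pi * (starRingEnd ℂ) w) ^ 2) := by
  rcases j.ck t1 t2 with ⟨a, b⟩ | ⟨a, b⟩ | ⟨a, b⟩
  · exact k4_0.flatM k4_u0 k4_v0 h a b t1 (by linarith) h.hv.re0 h2 h3 h4
      (by norm_num) (by norm_num) (by norm_num) (by norm_num)
  · exact k4_1.flatM k4_u1 k4_v1 h a b t1 (by linarith) h.hv.re0 h2 h3 h4
      (by norm_num) (by norm_num) (by norm_num) (by norm_num)
  · exact k4_2.flatM k4_u2 k4_v2 h a b t1 (by linarith) h.hv.re0 h2 h3 h4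
      (by norm_num) (by norm_num) (by norm_num) (by norm_num)

end Pool.Agent.S3.Ck
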