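import Pool.Agent.S3.Ck.CosK
import Pool.Agent.S3.Ck.SoundG

/-!
# Flats: k5
-/

set_option autoImplicit false
set_option maxRecDepth 100000

namespace Pool.Agent.S3.Ck

open Complex

private theorem k5_0_0 : FaceH ⟨0, 727351, 0, 0, 1048576⟩
    ⟨857925, 260773, 0, 196481, 0⟩ :=
  faceH_of (n := 60) (x1 := 1048576) (y1 := 331590) (r0 := 146011) (r1 := 5582673)
    (by decide +kernel) (by decide +kernel)

private theorem k5_0_1 : FaceH ⟨857925, 260773, 0, 196481, 0⟩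
    ⟨0, 727351, 0, 0, 1048576⟩ :=
  faceH_of (n := 60) (x1 := 331590) (y1 := 1048576) (r0 := 196950) (r1 := 7530319)
    (by decide +kernel) (by decide +kernel)

private theorem k5_0_3 : FaceV ⟨857925, 260773, 0, 196481, 0⟩
    ⟨0, 727351, 0, 0, 1048576⟩ :=
  faceV_of (n := 60) (x1 := 331590) (y1 := 1048576) (r0 := 196950) (r1 := 7530319)
    (by decide +kernel) (by decide +kernel) (by decide +kernel)

private theorem k5_u0 : VD ⟨0, 727351, 0, 0, 1048576⟩ 1 0 (93 / 250) :=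
  ⟨by decide +kernel, by norm_num, by norm_num [R], cu_93_250, Or.inl rfl⟩

private theorem k5_v0 : VD ⟨857925, 260773, 0, 196481, 0⟩ (1 / 10) (7 / 25) (29 / 100) :=
  ⟨by decide +kernel, by norm_num, by norm_num [R], cu_29_100, Or.inr cl_7_25⟩

private theorem k5_0 : Rgn ⟨0, 727351, 0, 0, 1048576⟩
    ⟨857925, 260773, 0, 196481, 0⟩ :=
  rgn_of k5_0_0 k5_0_1 (Or.inl rfl) (Or.inr k5_0_3)

private theorem k5_1_0 : FaceH ⟨32430, 727351, 0, 0, 1048576⟩
    ⟨699050, 260773, 0, 196481, 0⟩ :=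
  faceH_of (n := 60) (x1 := 1016633) (y1 := 468938) (r0 := 133843) (r1 := 5415194)
    (by decide +kernel) (by decide +kernel)

private theorem k5_1_1 : FaceH ⟨699050, 260773, 0, 196481, 0⟩
    ⟨32430, 727351, 0, 0, 1048576⟩ :=
  faceH_of (n := 60) (x1 := 468938) (y1 := 1016633) (r0 := 203041) (r1 := 8214893)
    (by decide +kernel) (by decide +kernel)

private theorem k5_1_3 : FaceV ⟨699050, 260773, 0, 196481, 0⟩
    ⟨32430, 727351, 0, 0, 1048576⟩ :=
  faceV_of (n := 60) (x1 := 468938) (y1 := 1016633) (r0 := 203041) (r1 := 8214893)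
    (by decide +kernel) (by decide +kernel) (by decide +kernel)

private theorem k5_u1 : VD ⟨32430, 727351, 0, 0, 1048576⟩ (47 / 50) 0 (93 / 250) :=
  ⟨by decide +kernel, by norm_num, by norm_num [R], cu_93_250, Or.inl rfl⟩

private theorem k5_v1 : VD ⟨699050, 260773, 0, 196481, 0⟩ (1 / 5) (7 / 25) (29 / 100) :=
  ⟨by decide +kernel, by norm_num, by norm_num [R], cu_29_100, Or.inr cl_7_25⟩

private theorem k5_1 : Rgn ⟨32430, 727351, 0, 0, 1048576⟩
    ⟨699050, 260773, 0, 196481, 0⟩ :=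
  rgn_of k5_1_0 k5_1_1 (Or.inl rfl) (Or.inr k5_1_3)

private theorem k5_2_0 : FaceH ⟨85019, 727351, 0, 0, 1048576⟩
    ⟨629145, 260773, 0, 196481, 0⟩ :=
  faceH_of (n := 60) (x1 := 966740) (y1 := 524289) (r0 := 128489) (r1 := 5163976)
    (by decide +kernel) (by decide +kernel)

private theorem k5_2_1 : FaceH ⟨629145, 260773, 0, 196481, 0⟩
    ⟨85019, 727351, 0, 0, 1048576⟩ :=
  faceH_of (n := 60) (x1 := 524289) (y1 := 966740) (r0 := 212919) (r1 := 8557180)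
    (by decide +kernel) (by decide +kernel)

private theorem k5_2_3 : FaceV ⟨629145, 260773, 0, 196481, 0⟩
    ⟨85019, 727351, 0, 0, 1048576⟩ :=
  faceV_of (n := 60) (x1 := 524289) (y1 := 966740) (r0 := 212919) (r1 := 8557180)
    (by decide +kernel) (by decide +kernel) (by decide +kernel)

private theorem k5_u2 : VD ⟨85019, 727351, 0, 0, 1048576⟩ (17 / 20) 0 (93 / 250) :=
  ⟨by decide +kernel, by norm_num, by norm_num [R], cu_93_250, Or.inl rfl⟩

private theorem k5_v2 : VD ⟨629145, 260773, 0, 196481, 0⟩ (1 / 4) (7 / 25) (29 / 100) :=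
  ⟨by decide +kernel, by norm_num, by norm_num [R], cu_29_100, Or.inr cl_7_25⟩

private theorem k5_2 : Rgn ⟨85019, 727351, 0, 0, 1048576⟩
    ⟨629145, 260773, 0, 196481, 0⟩ :=
  rgn_of k5_2_0 k5_2_1 (Or.inl rfl) (Or.inr k5_2_3)

theorem flat_k5 {θ θ' : ℝ} {v w : ℂ} (h : T2.Pr θ θ' v w)
    (j : J3 (Real.tan θ ^ 2) (Real.tan θ' ^ 2)) (t1 : Real.tan θ ^ 2 < 1)
    (t2 : Real.tan θ' ^ 2 ≤ 1 / 4)
    (h2 : v.re ≤ 93 / 250) (h3 : 7 / 25 ≤ w.re) (h4 : w.re ≤ 29 / 100) :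
    FlatM (1 / cos (Real.pi * v) ^ 2) (1 / cos (Real.pi * (starRingEnd ℂ) w) ^ 2) := by
  rcases j.ck t1 t2 with ⟨a, b⟩ | ⟨a, b⟩ | ⟨a, b⟩
  · exact k5_0.flatM k5_u0 k5_v0 h a b t1 (by linarith) h.hv.re0 h2 h3 h4
      (by norm_num) (by norm_num) (by norm_num) (by norm_num)
  · exact k5_1.flatM k5_u1 k5_v1 h a b t1 (by linarith) h.hv.re0 h2 h3 h4
      (by norm_num) (by norm_num) (by norm_num) (by norm_num)
  · exact k5_2.flatM k5_u2 k5_v2 h a b t1 (by linarith) h.hv.re0 h2 h3 h4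
      (by norm_num) (by norm_num) (by norm_num) (by norm_num)

end Pool.Agent.S3.Ck
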