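import Pool.Agent.S3.Ck.Cos
import Pool.Agent.S3.Ck.CosX
import Pool.Agent.S3.Ck.SoundG

/-!
# Flats: x1
-/

set_option autoImplicit false
set_option maxRecDepth 100000

namespace Pool.Agent.S3.Ck

open Complex

private theorem x1_0_0 : FaceH ⟨0, 693438, 0, 589385, 0⟩
    ⟨857925, 642682, 0, 589385, 0⟩ :=
  faceH_of (n := 60) (x1 := 1048576) (y1 := 331590) (r0 := 161426) (r1 := 10835456)
    (by decide +kernel) (by decide +kernel)

private theorem x1_0_1 : FaceH ⟨857925, 642682, 0, 589385, 0⟩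
    ⟨0, 693438, 0, 589385, 0⟩ :=
  faceH_of (n := 60) (x1 := 331590) (y1 := 1048576) (r0 := 101473) (r1 := 6811231)
    (by decide +kernel) (by decide +kernel)

private theorem x1_0_2 : FaceV ⟨0, 693438, 0, 589385, 0⟩
    ⟨857925, 642682, 0, 589385, 0⟩ :=
  faceV_of (n := 60) (x1 := 1048576) (y1 := 331590) (r0 := 161426) (r1 := 10835456)
    (by decide +kernel) (by decide +kernel) (by decide +kernel)

private theorem x1_0_3 : FaceV ⟨857925, 642682, 0, 589385, 0⟩
    ⟨0, 693438, 0, 589385, 0⟩ :=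
  faceV_of (n := 60) (x1 := 331590) (y1 := 1048576) (r0 := 101473) (r1 := 6811231)
    (by decide +kernel) (by decide +kernel) (by decide +kernel)

private theorem x1_u0 : VD ⟨0, 693438, 0, 589385, 0⟩ 1 (69 / 200) (73 / 200) :=
  ⟨by decide +kernel, by norm_num, by norm_num [R], cu_73_200, Or.inr cl_69_200⟩

private theorem x1_v0 : VD ⟨857925, 642682, 0, 589385, 0⟩ (1 / 10) (69 / 200) (71 / 200) :=
  ⟨by decide +kernel, by norm_num, by norm_num [R], cu_71_200, Or.inr cl_69_200⟩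

private theorem x1_0 : Rgn ⟨0, 693438, 0, 589385, 0⟩
    ⟨857925, 642682, 0, 589385, 0⟩ :=
  rgn_of x1_0_0 x1_0_1 (Or.inr x1_0_2) (Or.inr x1_0_3)

private theorem x1_1_0 : FaceH ⟨32430, 693438, 0, 589385, 0⟩
    ⟨699050, 642682, 0, 589385, 0⟩ :=
  faceH_of (n := 60) (x1 := 1016633) (y1 := 468938) (r0 := 147974) (r1 := 10510394)
    (by decide +kernel) (by decide +kernel)

private theorem x1_1_1 : FaceH ⟨699050, 642682, 0, 589385, 0⟩
    ⟨32430, 693438, 0, 589385, 0⟩ :=
  faceH_of (n := 60) (x1 := 468938) (y1 := 1016633) (r0 := 104611) (r1 := 7430433)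
    (by decide +kernel) (by decide +kernel)

private theorem x1_1_2 : FaceV ⟨32430, 693438, 0, 589385, 0⟩
    ⟨699050, 642682, 0, 589385, 0⟩ :=
  faceV_of (n := 60) (x1 := 1016633) (y1 := 468938) (r0 := 147974) (r1 := 10510394)
    (by decide +kernel) (by decide +kernel) (by decide +kernel)

private theorem x1_1_3 : FaceV ⟨699050, 642682, 0, 589385, 0⟩
    ⟨32430, 693438, 0, 589385, 0⟩ :=
  faceV_of (n := 60) (x1 := 468938) (y1 := 1016633) (r0 := 104611) (r1 := 7430433)
    (by decide +kernel) (by decide +kernel) (by decide +kernel)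

private theorem x1_u1 : VD ⟨32430, 693438, 0, 589385, 0⟩ (47 / 50) (69 / 200) (73 / 200) :=
  ⟨by decide +kernel, by norm_num, by norm_num [R], cu_73_200, Or.inr cl_69_200⟩

private theorem x1_v1 : VD ⟨699050, 642682, 0, 589385, 0⟩ (1 / 5) (69 / 200) (71 / 200) :=
  ⟨by decide +kernel, by norm_num, by norm_num [R], cu_71_200, Or.inr cl_69_200⟩

private theorem x1_1 : Rgn ⟨32430, 693438, 0, 589385, 0⟩
    ⟨699050, 642682, 0, 589385, 0⟩ :=
  rgn_of x1_1_0 x1_1_1 (Or.inr x1_1_2) (Or.inr x1_1_3)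

private theorem x1_2_0 : FaceH ⟨85019, 693438, 0, 589385, 0⟩
    ⟨629145, 642682, 0, 589385, 0⟩ :=
  faceH_of (n := 60) (x1 := 966740) (y1 := 524289) (r0 := 142055) (r1 := 10022803)
    (by decide +kernel) (by decide +kernel)

private theorem x1_2_1 : FaceH ⟨629145, 642682, 0, 589385, 0⟩
    ⟨85019, 693438, 0, 589385, 0⟩ :=
  faceH_of (n := 60) (x1 := 524289) (y1 := 966740) (r0 := 109701) (r1 := 7740034)
    (by decide +kernel) (by decide +kernel)

private theorem x1_2_2 : FaceV ⟨85019, 693438, 0, 589385, 0⟩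
    ⟨629145, 642682, 0, 589385, 0⟩ :=
  faceV_of (n := 60) (x1 := 966740) (y1 := 524289) (r0 := 142055) (r1 := 10022803)
    (by decide +kernel) (by decide +kernel) (by decide +kernel)

private theorem x1_2_3 : FaceV ⟨629145, 642682, 0, 589385, 0⟩
    ⟨85019, 693438, 0, 589385, 0⟩ :=
  faceV_of (n := 60) (x1 := 524289) (y1 := 966740) (r0 := 109701) (r1 := 7740034)
    (by decide +kernel) (by decide +kernel) (by decide +kernel)

private theorem x1_u2 : VD ⟨85019, 693438, 0, 589385, 0⟩ (17 / 20) (69 / 200) (73 / 200) :=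
  ⟨by decide +kernel, by norm_num, by norm_num [R], cu_73_200, Or.inr cl_69_200⟩

private theorem x1_v2 : VD ⟨629145, 642682, 0, 589385, 0⟩ (1 / 4) (69 / 200) (71 / 200) :=
  ⟨by decide +kernel, by norm_num, by norm_num [R], cu_71_200, Or.inr cl_69_200⟩

private theorem x1_2 : Rgn ⟨85019, 693438, 0, 589385, 0⟩
    ⟨629145, 642682, 0, 589385, 0⟩ :=
  rgn_of x1_2_0 x1_2_1 (Or.inr x1_2_2) (Or.inr x1_2_3)

private theorem x1_3_0 : FaceH ⟨857925, 693438, 0, 589385, 0⟩
    ⟨0, 642682, 0, 589385, 0⟩ :=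
  faceH_of (n := 60) (x1 := 331590) (y1 := 1048576) (r0 := 88784) (r1 := 5959504)
    (by decide +kernel) (by decide +kernel)

private theorem x1_3_1 : FaceH ⟨0, 642682, 0, 589385, 0⟩
    ⟨857925, 693438, 0, 589385, 0⟩ :=
  faceH_of (n := 60) (x1 := 1048576) (y1 := 331590) (r0 := 184497) (r1 := 12384050)
    (by decide +kernel) (by decide +kernel)

private theorem x1_3_2 : FaceV ⟨857925, 693438, 0, 589385, 0⟩
    ⟨0, 642682, 0, 589385, 0⟩ :=
  faceV_of (n := 60) (x1 := 331590) (y1 := 1048576) (r0 := 88784) (r1 := 5959504)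
    (by decide +kernel) (by decide +kernel) (by decide +kernel)

private theorem x1_3_3 : FaceV ⟨0, 642682, 0, 589385, 0⟩
    ⟨857925, 693438, 0, 589385, 0⟩ :=
  faceV_of (n := 60) (x1 := 1048576) (y1 := 331590) (r0 := 184497) (r1 := 12384050)
    (by decide +kernel) (by decide +kernel) (by decide +kernel)

private theorem x1_u3 : VD ⟨857925, 693438, 0, 589385, 0⟩ (1 / 10) (69 / 200) (73 / 200) :=
  ⟨by decide +kernel, by norm_num, by norm_num [R], cu_73_200, Or.inr cl_69_200⟩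

private theorem x1_v3 : VD ⟨0, 642682, 0, 589385, 0⟩ 1 (69 / 200) (71 / 200) :=
  ⟨by decide +kernel, by norm_num, by norm_num [R], cu_71_200, Or.inr cl_69_200⟩

private theorem x1_3 : Rgn ⟨857925, 693438, 0, 589385, 0⟩
    ⟨0, 642682, 0, 589385, 0⟩ :=
  rgn_of x1_3_0 x1_3_1 (Or.inr x1_3_2) (Or.inr x1_3_3)

private theorem x1_4_0 : FaceH ⟨699050, 693438, 0, 589385, 0⟩
    ⟨32430, 642682, 0, 589385, 0⟩ :=
  faceH_of (n := 60) (x1 := 468938) (y1 := 1016633) (r0 := 91530) (r1 := 6501276)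
    (by decide +kernel) (by decide +kernel)

private theorem x1_4_1 : FaceH ⟨32430, 642682, 0, 589385, 0⟩
    ⟨699050, 693438, 0, 589385, 0⟩ :=
  faceH_of (n := 60) (x1 := 1016633) (y1 := 468938) (r0 := 169122) (r1 := 12012530)
    (by decide +kernel) (by decide +kernel)

private theorem x1_4_2 : FaceV ⟨699050, 693438, 0, 589385, 0⟩
    ⟨32430, 642682, 0, 589385, 0⟩ :=
  faceV_of (n := 60) (x1 := 468938) (y1 := 1016633) (r0 := 91530) (r1 := 6501276)
    (by decide +kernel) (by decide +kernel) (by decide +kernel)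

private theorem x1_4_3 : FaceV ⟨32430, 642682, 0, 589385, 0⟩
    ⟨699050, 693438, 0, 589385, 0⟩ :=
  faceV_of (n := 60) (x1 := 1016633) (y1 := 468938) (r0 := 169122) (r1 := 12012530)
    (by decide +kernel) (by decide +kernel) (by decide +kernel)

private theorem x1_u4 : VD ⟨699050, 693438, 0, 589385, 0⟩ (1 / 5) (69 / 200) (73 / 200) :=
  ⟨by decide +kernel, by norm_num, by norm_num [R], cu_73_200, Or.inr cl_69_200⟩

private theorem x1_v4 : VD ⟨32430, 642682, 0, 589385, 0⟩ (47 / 50) (69 / 200) (71 / 200) :=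
  ⟨by decide +kernel, by norm_num, by norm_num [R], cu_71_200, Or.inr cl_69_200⟩

private theorem x1_4 : Rgn ⟨699050, 693438, 0, 589385, 0⟩
    ⟨32430, 642682, 0, 589385, 0⟩ :=
  rgn_of x1_4_0 x1_4_1 (Or.inr x1_4_2) (Or.inr x1_4_3)

private theorem x1_5_0 : FaceH ⟨629145, 693438, 0, 589385, 0⟩
    ⟨85019, 642682, 0, 589385, 0⟩ :=
  faceH_of (n := 60) (x1 := 524289) (y1 := 966740) (r0 := 95983) (r1 := 6772163)
    (by decide +kernel) (by decide +kernel)

private theorem x1_5_1 : FaceH ⟨85019, 642682, 0, 589385, 0⟩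
    ⟨629145, 693438, 0, 589385, 0⟩ :=
  faceH_of (n := 60) (x1 := 966740) (y1 := 524289) (r0 := 162357) (r1 := 11455253)
    (by decide +kernel) (by decide +kernel)

private theorem x1_5_2 : FaceV ⟨629145, 693438, 0, 589385, 0⟩
    ⟨85019, 642682, 0, 589385, 0⟩ :=
  faceV_of (n := 60) (x1 := 524289) (y1 := 966740) (r0 := 95983) (r1 := 6772163)
    (by decide +kernel) (by decide +kernel) (by decide +kernel)

private theorem x1_5_3 : FaceV ⟨85019, 642682, 0, 589385, 0⟩
    ⟨629145, 693438, 0, 589385, 0⟩ :=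
  faceV_of (n := 60) (x1 := 966740) (y1 := 524289) (r0 := 162357) (r1 := 11455253)
    (by decide +kernel) (by decide +kernel) (by decide +kernel)

private theorem x1_u5 : VD ⟨629145, 693438, 0, 589385, 0⟩ (1 / 4) (69 / 200) (73 / 200) :=
  ⟨by decide +kernel, by norm_num, by norm_num [R], cu_73_200, Or.inr cl_69_200⟩

private theorem x1_v5 : VD ⟨85019, 642682, 0, 589385, 0⟩ (17 / 20) (69 / 200) (71 / 200) :=
  ⟨by decide +kernel, by norm_num, by norm_num [R], cu_71_200, Or.inr cl_69_200⟩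

private theorem x1_5 : Rgn ⟨629145, 693438, 0, 589385, 0⟩
    ⟨85019, 642682, 0, 589385, 0⟩ :=
  rgn_of x1_5_0 x1_5_1 (Or.inr x1_5_2) (Or.inr x1_5_3)

private theorem x1_6_0 : FaceH ⟨110071, 693438, 0, 589385, 0⟩
    ⟨564617, 642682, 0, 589385, 0⟩ :=
  faceH_of (n := 60) (x1 := 943719) (y1 := 574330) (r0 := 136591) (r1 := 9806092)
    (by decide +kernel) (by decide +kernel)

private theorem x1_6_1 : FaceH ⟨564617, 642682, 0, 589385, 0⟩
    ⟨110071, 693438, 0, 589385, 0⟩ :=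
  faceH_of (n := 60) (x1 := 574330) (y1 := 943719) (r0 := 112125) (r1 := 8049637)
    (by decide +kernel) (by decide +kernel)

private theorem x1_6_2 : FaceV ⟨110071, 693438, 0, 589385, 0⟩
    ⟨564617, 642682, 0, 589385, 0⟩ :=
  faceV_of (n := 60) (x1 := 943719) (y1 := 574330) (r0 := 136591) (r1 := 9806092)
    (by decide +kernel) (by decide +kernel) (by decide +kernel)

private theorem x1_6_3 : FaceV ⟨564617, 642682, 0, 589385, 0⟩
    ⟨110071, 693438, 0, 589385, 0⟩ :=
  faceV_of (n := 60) (x1 := 574330) (y1 := 943719) (r0 := 112125) (r1 := 8049637)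
    (by decide +kernel) (by decide +kernel) (by decide +kernel)

private theorem x1_u6 : VD ⟨110071, 693438, 0, 589385, 0⟩ (81 / 100) (69 / 200) (73 / 200) :=
  ⟨by decide +kernel, by norm_num, by norm_num [R], cu_73_200, Or.inr cl_69_200⟩

private theorem x1_v6 : VD ⟨564617, 642682, 0, 589385, 0⟩ (3 / 10) (69 / 200) (71 / 200) :=
  ⟨by decide +kernel, by norm_num, by norm_num [R], cu_71_200, Or.inr cl_69_200⟩

private theorem x1_6 : Rgn ⟨110071, 693438, 0, 589385, 0⟩
    ⟨564617, 642682, 0, 589385, 0⟩ :=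
  rgn_of x1_6_0 x1_6_1 (Or.inr x1_6_2) (Or.inr x1_6_3)

private theorem x1_7_0 : FaceH ⟨132918, 693438, 0, 589385, 0⟩
    ⟨504869, 642682, 0, 589385, 0⟩ :=
  faceH_of (n := 60) (x1 := 923105) (y1 := 620347) (r0 := 131532) (r1 := 9616468)
    (by decide +kernel) (by decide +kernel)

private theorem x1_7_1 : FaceH ⟨504869, 642682, 0, 589385, 0⟩
    ⟨132918, 693438, 0, 589385, 0⟩ :=
  faceH_of (n := 60) (x1 := 620347) (y1 := 923105) (r0 := 114336) (r1 := 8359239)
    (by decide +kernel) (by decide +kernel)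

private theorem x1_7_2 : FaceV ⟨132918, 693438, 0, 589385, 0⟩
    ⟨504869, 642682, 0, 589385, 0⟩ :=
  faceV_of (n := 60) (x1 := 923105) (y1 := 620347) (r0 := 131532) (r1 := 9616468)
    (by decide +kernel) (by decide +kernel) (by decide +kernel)

private theorem x1_7_3 : FaceV ⟨504869, 642682, 0, 589385, 0⟩
    ⟨132918, 693438, 0, 589385, 0⟩ :=
  faceV_of (n := 60) (x1 := 620347) (y1 := 923105) (r0 := 114336) (r1 := 8359239)
    (by decide +kernel) (by decide +kernel) (by decide +kernel)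

private theorem x1_u7 : VD ⟨132918, 693438, 0, 589385, 0⟩ (31 / 40) (69 / 200) (73 / 200) :=
  ⟨by decide +kernel, by norm_num, by norm_num [R], cu_73_200, Or.inr cl_69_200⟩

private theorem x1_v7 : VD ⟨504869, 642682, 0, 589385, 0⟩ (7 / 20) (69 / 200) (71 / 200) :=
  ⟨by decide +kernel, by norm_num, by norm_num [R], cu_71_200, Or.inr cl_69_200⟩

private theorem x1_7 : Rgn ⟨132918, 693438, 0, 589385, 0⟩
    ⟨504869, 642682, 0, 589385, 0⟩ :=
  rgn_of x1_7_0 x1_7_1 (Or.inr x1_7_2) (Or.inr x1_7_3)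

private theorem x1_8_0 : FaceH ⟨153230, 693438, 0, 589385, 0⟩
    ⟨449389, 642682, 0, 589385, 0⟩ :=
  faceH_of (n := 60) (x1 := 905062) (y1 := 663179) (r0 := 126834) (r1 := 9453938)
    (by decide +kernel) (by decide +kernel)

private theorem x1_8_1 : FaceH ⟨449389, 642682, 0, 589385, 0⟩
    ⟨153230, 693438, 0, 589385, 0⟩ :=
  faceH_of (n := 60) (x1 := 663179) (y1 := 905062) (r0 := 116301) (r1 := 8668839)
    (by decide +kernel) (by decide +kernel)

private theorem x1_8_2 : FaceV ⟨153230, 693438, 0, 589385, 0⟩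
    ⟨449389, 642682, 0, 589385, 0⟩ :=
  faceV_of (n := 60) (x1 := 905062) (y1 := 663179) (r0 := 126834) (r1 := 9453938)
    (by decide +kernel) (by decide +kernel) (by decide +kernel)

private theorem x1_8_3 : FaceV ⟨449389, 642682, 0, 589385, 0⟩
    ⟨153230, 693438, 0, 589385, 0⟩ :=
  faceV_of (n := 60) (x1 := 663179) (y1 := 905062) (r0 := 116301) (r1 := 8668839)
    (by decide +kernel) (by decide +kernel) (by decide +kernel)

private theorem x1_u8 : VD ⟨153230, 693438, 0, 589385, 0⟩ (149 / 200) (69 / 200) (73 / 200) :=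
  ⟨by decide +kernel, by norm_num, by norm_num [R], cu_73_200, Or.inr cl_69_200⟩

private theorem x1_v8 : VD ⟨449389, 642682, 0, 589385, 0⟩ (2 / 5) (69 / 200) (71 / 200) :=
  ⟨by decide +kernel, by norm_num, by norm_num [R], cu_71_200, Or.inr cl_69_200⟩

private theorem x1_8 : Rgn ⟨153230, 693438, 0, 589385, 0⟩
    ⟨449389, 642682, 0, 589385, 0⟩ :=
  rgn_of x1_8_0 x1_8_1 (Or.inr x1_8_2) (Or.inr x1_8_3)

private theorem x1_9_0 : FaceH ⟨174253, 693438, 0, 589385, 0⟩
    ⟨397735, 642682, 0, 589385, 0⟩ :=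
  faceH_of (n := 60) (x1 := 886652) (y1 := 703407) (r0 := 122461) (r1 := 9291405)
    (by decide +kernel) (by decide +kernel)

private theorem x1_9_1 : FaceH ⟨397735, 642682, 0, 589385, 0⟩
    ⟨174253, 693438, 0, 589385, 0⟩ :=
  faceH_of (n := 60) (x1 := 703407) (y1 := 886652) (r0 := 118336) (r1 := 8978441)
    (by decide +kernel) (by decide +kernel)

private theorem x1_9_2 : FaceV ⟨174253, 693438, 0, 589385, 0⟩
    ⟨397735, 642682, 0, 589385, 0⟩ :=
  faceV_of (n := 60) (x1 := 886652) (y1 := 703407) (r0 := 122461) (r1 := 9291405)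
    (by decide +kernel) (by decide +kernel) (by decide +kernel)

private theorem x1_9_3 : FaceV ⟨397735, 642682, 0, 589385, 0⟩
    ⟨174253, 693438, 0, 589385, 0⟩ :=
  faceV_of (n := 60) (x1 := 703407) (y1 := 886652) (r0 := 118336) (r1 := 8978441)
    (by decide +kernel) (by decide +kernel) (by decide +kernel)

private theorem x1_u9 : VD ⟨174253, 693438, 0, 589385, 0⟩ (143 / 200) (69 / 200) (73 / 200) :=
  ⟨by decide +kernel, by norm_num, by norm_num [R], cu_73_200, Or.inr cl_69_200⟩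

private theorem x1_v9 : VD ⟨397735, 642682, 0, 589385, 0⟩ (9 / 20) (69 / 200) (71 / 200) :=
  ⟨by decide +kernel, by norm_num, by norm_num [R], cu_71_200, Or.inr cl_69_200⟩

private theorem x1_9 : Rgn ⟨174253, 693438, 0, 589385, 0⟩
    ⟨397735, 642682, 0, 589385, 0⟩ :=
  rgn_of x1_9_0 x1_9_1 (Or.inr x1_9_2) (Or.inr x1_9_3)

private theorem x1_10_0 : FaceH ⟨192342, 693438, 0, 589385, 0⟩
    ⟨349525, 642682, 0, 589385, 0⟩ :=
  faceH_of (n := 60) (x1 := 871013) (y1 := 741456) (r0 := 118379) (r1 := 9155963)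
    (by decide +kernel) (by decide +kernel)

private theorem x1_10_1 : FaceH ⟨349525, 642682, 0, 589385, 0⟩
    ⟨192342, 693438, 0, 589385, 0⟩ :=
  faceH_of (n := 60) (x1 := 741456) (y1 := 871013) (r0 := 120086) (r1 := 9288040)
    (by decide +kernel) (by decide +kernel)

private theorem x1_10_2 : FaceV ⟨192342, 693438, 0, 589385, 0⟩
    ⟨349525, 642682, 0, 589385, 0⟩ :=
  faceV_of (n := 60) (x1 := 871013) (y1 := 741456) (r0 := 118379) (r1 := 9155963)
    (by decide +kernel) (by decide +kernel) (by decide +kernel)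

private theorem x1_10_3 : FaceV ⟨349525, 642682, 0, 589385, 0⟩
    ⟨192342, 693438, 0, 589385, 0⟩ :=
  faceV_of (n := 60) (x1 := 741456) (y1 := 871013) (r0 := 120086) (r1 := 9288040)
    (by decide +kernel) (by decide +kernel) (by decide +kernel)

private theorem x1_u10 : VD ⟨192342, 693438, 0, 589385, 0⟩ (69 / 100) (69 / 200) (73 / 200) :=
  ⟨by decide +kernel, by norm_num, by norm_num [R], cu_73_200, Or.inr cl_69_200⟩

private theorem x1_v10 : VD ⟨349525, 642682, 0, 589385, 0⟩ (1 / 2) (69 / 200) (71 / 200) :=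
  ⟨by decide +kernel, by norm_num, by norm_num [R], cu_71_200, Or.inr cl_69_200⟩

private theorem x1_10 : Rgn ⟨192342, 693438, 0, 589385, 0⟩
    ⟨349525, 642682, 0, 589385, 0⟩ :=
  rgn_of x1_10_0 x1_10_1 (Or.inr x1_10_2) (Or.inr x1_10_3)

private theorem x1_11_0 : FaceH ⟨207203, 693438, 0, 589385, 0⟩
    ⟨304425, 642682, 0, 589385, 0⟩ :=
  faceH_of (n := 60) (x1 := 858297) (y1 := 777646) (r0 := 114560) (r1 := 9047611)
    (by decide +kernel) (by decide +kernel)

private theorem x1_11_1 : FaceH ⟨304425, 642682, 0, 589385, 0⟩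
    ⟨207203, 693438, 0, 589385, 0⟩ :=
  faceH_of (n := 60) (x1 := 777646) (y1 := 858297) (r0 := 121525) (r1 := 9597641)
    (by decide +kernel) (by decide +kernel)

private theorem x1_11_2 : FaceV ⟨207203, 693438, 0, 589385, 0⟩
    ⟨304425, 642682, 0, 589385, 0⟩ :=
  faceV_of (n := 60) (x1 := 858297) (y1 := 777646) (r0 := 114560) (r1 := 9047611)
    (by decide +kernel) (by decide +kernel) (by decide +kernel)

private theorem x1_11_3 : FaceV ⟨304425, 642682, 0, 589385, 0⟩
    ⟨207203, 693438, 0, 589385, 0⟩ :=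
  faceV_of (n := 60) (x1 := 777646) (y1 := 858297) (r0 := 121525) (r1 := 9597641)
    (by decide +kernel) (by decide +kernel) (by decide +kernel)

private theorem x1_u11 : VD ⟨207203, 693438, 0, 589385, 0⟩ (67 / 100) (69 / 200) (73 / 200) :=
  ⟨by decide +kernel, by norm_num, by norm_num [R], cu_73_200, Or.inr cl_69_200⟩

private theorem x1_v11 : VD ⟨304425, 642682, 0, 589385, 0⟩ (11 / 20) (69 / 200) (71 / 200) :=
  ⟨by decide +kernel, by norm_num, by norm_num [R], cu_71_200, Or.inr cl_69_200⟩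

private theorem x1_11 : Rgn ⟨207203, 693438, 0, 589385, 0⟩
    ⟨304425, 642682, 0, 589385, 0⟩ :=
  rgn_of x1_11_0 x1_11_1 (Or.inr x1_11_2) (Or.inr x1_11_3)

private theorem x1_12_0 : FaceH ⟨222425, 693438, 0, 589385, 0⟩
    ⟨262144, 642682, 0, 589385, 0⟩ :=
  faceH_of (n := 60) (x1 := 845390) (y1 := 812224) (r0 := 110980) (r1 := 8939253)
    (by decide +kernel) (by decide +kernel)

private theorem x1_12_1 : FaceH ⟨262144, 642682, 0, 589385, 0⟩
    ⟨222425, 693438, 0, 589385, 0⟩ :=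
  faceH_of (n := 60) (x1 := 812224) (y1 := 845390) (r0 := 122998) (r1 := 9907240)
    (by decide +kernel) (by decide +kernel)

private theorem x1_12_2 : FaceV ⟨222425, 693438, 0, 589385, 0⟩
    ⟨262144, 642682, 0, 589385, 0⟩ :=
  faceV_of (n := 60) (x1 := 845390) (y1 := 812224) (r0 := 110980) (r1 := 8939253)
    (by decide +kernel) (by decide +kernel) (by decide +kernel)

private theorem x1_12_3 : FaceV ⟨262144, 642682, 0, 589385, 0⟩
    ⟨222425, 693438, 0, 589385, 0⟩ :=
  faceV_of (n := 60) (x1 := 812224) (y1 := 845390) (r0 := 122998) (r1 := 9907240)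
    (by decide +kernel) (by decide +kernel) (by decide +kernel)

private theorem x1_u12 : VD ⟨222425, 693438, 0, 589385, 0⟩ (13 / 20) (69 / 200) (73 / 200) :=
  ⟨by decide +kernel, by norm_num, by norm_num [R], cu_73_200, Or.inr cl_69_200⟩

private theorem x1_v12 : VD ⟨262144, 642682, 0, 589385, 0⟩ (3 / 5) (69 / 200) (71 / 200) :=
  ⟨by decide +kernel, by norm_num, by norm_num [R], cu_71_200, Or.inr cl_69_200⟩

private theorem x1_12 : Rgn ⟨222425, 693438, 0, 589385, 0⟩
    ⟨262144, 642682, 0, 589385, 0⟩ :=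
  rgn_of x1_12_0 x1_12_1 (Or.inr x1_12_2) (Or.inr x1_12_3)

private theorem x1_13_0 : FaceH ⟨234085, 693438, 0, 589385, 0⟩
    ⟨234085, 642682, 0, 589385, 0⟩ :=
  faceH_of (n := 60) (x1 := 835579) (y1 := 835579) (r0 := 108604) (r1 := 8857991)
    (by decide +kernel) (by decide +kernel)

private theorem x1_13_1 : FaceH ⟨234085, 642682, 0, 589385, 0⟩
    ⟨234085, 693438, 0, 589385, 0⟩ :=
  faceH_of (n := 60) (x1 := 835579) (y1 := 835579) (r0 := 124126) (r1 := 10123967)
    (by decide +kernel) (by decide +kernel)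

private theorem x1_13_2 : FaceV ⟨234085, 693438, 0, 589385, 0⟩
    ⟨234085, 642682, 0, 589385, 0⟩ :=
  faceV_of (n := 60) (x1 := 835579) (y1 := 835579) (r0 := 108604) (r1 := 8857991)
    (by decide +kernel) (by decide +kernel) (by decide +kernel)

private theorem x1_13_3 : FaceV ⟨234085, 642682, 0, 589385, 0⟩
    ⟨234085, 693438, 0, 589385, 0⟩ :=
  faceV_of (n := 60) (x1 := 835579) (y1 := 835579) (r0 := 124126) (r1 := 10123967)
    (by decide +kernel) (by decide +kernel) (by decide +kernel)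

private theorem x1_u13 : VD ⟨234085, 693438, 0, 589385, 0⟩ (127 / 200) (69 / 200) (73 / 200) :=
  ⟨by decide +kernel, by norm_num, by norm_num [R], cu_73_200, Or.inr cl_69_200⟩

private theorem x1_v13 : VD ⟨234085, 642682, 0, 589385, 0⟩ (127 / 200) (69 / 200) (71 / 200) :=
  ⟨by decide +kernel, by norm_num, by norm_num [R], cu_71_200, Or.inr cl_69_200⟩

private theorem x1_13 : Rgn ⟨234085, 693438, 0, 589385, 0⟩
    ⟨234085, 642682, 0, 589385, 0⟩ :=
  rgn_of x1_13_0 x1_13_1 (Or.inr x1_13_2) (Or.inr x1_13_3)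

private theorem x1_14_0 : FaceH ⟨564617, 693438, 0, 589385, 0⟩
    ⟨110071, 642682, 0, 589385, 0⟩ :=
  faceH_of (n := 60) (x1 := 574330) (y1 := 943719) (r0 := 98104) (r1 := 7043050)
    (by decide +kernel) (by decide +kernel)

private theorem x1_14_1 : FaceH ⟨110071, 642682, 0, 589385, 0⟩
    ⟨564617, 693438, 0, 589385, 0⟩ :=
  faceH_of (n := 60) (x1 := 943719) (y1 := 574330) (r0 := 156112) (r1 := 11207570)
    (by decide +kernel) (by decide +kernel)

private theorem x1_14_2 : FaceV ⟨564617, 693438, 0, 589385, 0⟩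
    ⟨110071, 642682, 0, 589385, 0⟩ :=
  faceV_of (n := 60) (x1 := 574330) (y1 := 943719) (r0 := 98104) (r1 := 7043050)
    (by decide +kernel) (by decide +kernel) (by decide +kernel)

private theorem x1_14_3 : FaceV ⟨110071, 642682, 0, 589385, 0⟩
    ⟨564617, 693438, 0, 589385, 0⟩ :=
  faceV_of (n := 60) (x1 := 943719) (y1 := 574330) (r0 := 156112) (r1 := 11207570)
    (by decide +kernel) (by decide +kernel) (by decide +kernel)

private theorem x1_u14 : VD ⟨564617, 693438, 0, 589385, 0⟩ (3 / 10) (69 / 200) (73 / 200) :=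
  ⟨by decide +kernel, by norm_num, by norm_num [R], cu_73_200, Or.inr cl_69_200⟩

private theorem x1_v14 : VD ⟨110071, 642682, 0, 589385, 0⟩ (81 / 100) (69 / 200) (71 / 200) :=
  ⟨by decide +kernel, by norm_num, by norm_num [R], cu_71_200, Or.inr cl_69_200⟩

private theorem x1_14 : Rgn ⟨564617, 693438, 0, 589385, 0⟩
    ⟨110071, 642682, 0, 589385, 0⟩ :=
  rgn_of x1_14_0 x1_14_1 (Or.inr x1_14_2) (Or.inr x1_14_3)

private theorem x1_15_0 : FaceH ⟨504869, 693438, 0, 589385, 0⟩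
    ⟨132918, 642682, 0, 589385, 0⟩ :=
  faceH_of (n := 60) (x1 := 620347) (y1 := 923105) (r0 := 100038) (r1 := 7313938)
    (by decide +kernel) (by decide +kernel)

private theorem x1_15_1 : FaceH ⟨132918, 642682, 0, 589385, 0⟩
    ⟨504869, 693438, 0, 589385, 0⟩ :=
  faceH_of (n := 60) (x1 := 923105) (y1 := 620347) (r0 := 150331) (r1 := 10990845)
    (by decide +kernel) (by decide +kernel)

private theorem x1_15_2 : FaceV ⟨504869, 693438, 0, 589385, 0⟩
    ⟨132918, 642682, 0, 589385, 0⟩ :=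
  faceV_of (n := 60) (x1 := 620347) (y1 := 923105) (r0 := 100038) (r1 := 7313938)
    (by decide +kernel) (by decide +kernel) (by decide +kernel)

private theorem x1_15_3 : FaceV ⟨132918, 642682, 0, 589385, 0⟩
    ⟨504869, 693438, 0, 589385, 0⟩ :=
  faceV_of (n := 60) (x1 := 923105) (y1 := 620347) (r0 := 150331) (r1 := 10990845)
    (by decide +kernel) (by decide +kernel) (by decide +kernel)

private theorem x1_u15 : VD ⟨504869, 693438, 0, 589385, 0⟩ (7 / 20) (69 / 200) (73 / 200) :=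
  ⟨by decide +kernel, by norm_num, by norm_num [R], cu_73_200, Or.inr cl_69_200⟩

private theorem x1_v15 : VD ⟨132918, 642682, 0, 589385, 0⟩ (31 / 40) (69 / 200) (71 / 200) :=
  ⟨by decide +kernel, by norm_num, by norm_num [R], cu_71_200, Or.inr cl_69_200⟩

private theorem x1_15 : Rgn ⟨504869, 693438, 0, 589385, 0⟩
    ⟨132918, 642682, 0, 589385, 0⟩ :=
  rgn_of x1_15_0 x1_15_1 (Or.inr x1_15_2) (Or.inr x1_15_3)

private theorem x1_16_0 : FaceH ⟨449389, 693438, 0, 589385, 0⟩
    ⟨153230, 642682, 0, 589385, 0⟩ :=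
  faceH_of (n := 60) (x1 := 663179) (y1 := 905062) (r0 := 101758) (r1 := 7584823)
    (by decide +kernel) (by decide +kernel)

private theorem x1_16_1 : FaceH ⟨153230, 642682, 0, 589385, 0⟩
    ⟨449389, 693438, 0, 589385, 0⟩ :=
  faceH_of (n := 60) (x1 := 905062) (y1 := 663179) (r0 := 144962) (r1 := 10805086)
    (by decide +kernel) (by decide +kernel)

private theorem x1_16_2 : FaceV ⟨449389, 693438, 0, 589385, 0⟩
    ⟨153230, 642682, 0, 589385, 0⟩ :=
  faceV_of (n := 60) (x1 := 663179) (y1 := 905062) (r0 := 101758) (r1 := 7584823)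
    (by decide +kernel) (by decide +kernel) (by decide +kernel)

private theorem x1_16_3 : FaceV ⟨153230, 642682, 0, 589385, 0⟩
    ⟨449389, 693438, 0, 589385, 0⟩ :=
  faceV_of (n := 60) (x1 := 905062) (y1 := 663179) (r0 := 144962) (r1 := 10805086)
    (by decide +kernel) (by decide +kernel) (by decide +kernel)

private theorem x1_u16 : VD ⟨449389, 693438, 0, 589385, 0⟩ (2 / 5) (69 / 200) (73 / 200) :=
  ⟨by decide +kernel, by norm_num, by norm_num [R], cu_73_200, Or.inr cl_69_200⟩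

private theorem x1_v16 : VD ⟨153230, 642682, 0, 589385, 0⟩ (149 / 200) (69 / 200) (71 / 200) :=
  ⟨by decide +kernel, by norm_num, by norm_num [R], cu_71_200, Or.inr cl_69_200⟩

private theorem x1_16 : Rgn ⟨449389, 693438, 0, 589385, 0⟩
    ⟨153230, 642682, 0, 589385, 0⟩ :=
  rgn_of x1_16_0 x1_16_1 (Or.inr x1_16_2) (Or.inr x1_16_3)

private theorem x1_17_0 : FaceH ⟨397735, 693438, 0, 589385, 0⟩
    ⟨174253, 642682, 0, 589385, 0⟩ :=
  faceH_of (n := 60) (x1 := 703407) (y1 := 886652) (r0 := 103538) (r1 := 7855710)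
    (by decide +kernel) (by decide +kernel)

private theorem x1_17_1 : FaceH ⟨174253, 642682, 0, 589385, 0⟩
    ⟨397735, 693438, 0, 589385, 0⟩ :=
  faceH_of (n := 60) (x1 := 886652) (y1 := 703407) (r0 := 139963) (r1 := 10619324)
    (by decide +kernel) (by decide +kernel)

private theorem x1_17_2 : FaceV ⟨397735, 693438, 0, 589385, 0⟩
    ⟨174253, 642682, 0, 589385, 0⟩ :=
  faceV_of (n := 60) (x1 := 703407) (y1 := 886652) (r0 := 103538) (r1 := 7855710)
    (by decide +kernel) (by decide +kernel) (by decide +kernel)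

private theorem x1_17_3 : FaceV ⟨174253, 642682, 0, 589385, 0⟩
    ⟨397735, 693438, 0, 589385, 0⟩ :=
  faceV_of (n := 60) (x1 := 886652) (y1 := 703407) (r0 := 139963) (r1 := 10619324)
    (by decide +kernel) (by decide +kernel) (by decide +kernel)

private theorem x1_u17 : VD ⟨397735, 693438, 0, 589385, 0⟩ (9 / 20) (69 / 200) (73 / 200) :=
  ⟨by decide +kernel, by norm_num, by norm_num [R], cu_73_200, Or.inr cl_69_200⟩

private theorem x1_v17 : VD ⟨174253, 642682, 0, 589385, 0⟩ (143 / 200) (69 / 200) (71 / 200) :=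
  ⟨by decide +kernel, by norm_num, by norm_num [R], cu_71_200, Or.inr cl_69_200⟩

private theorem x1_17 : Rgn ⟨397735, 693438, 0, 589385, 0⟩
    ⟨174253, 642682, 0, 589385, 0⟩ :=
  rgn_of x1_17_0 x1_17_1 (Or.inr x1_17_2) (Or.inr x1_17_3)

private theorem x1_18_0 : FaceH ⟨349525, 693438, 0, 589385, 0⟩
    ⟨192342, 642682, 0, 589385, 0⟩ :=
  faceH_of (n := 60) (x1 := 741456) (y1 := 871013) (r0 := 105070) (r1 := 8126594)
    (by decide +kernel) (by decide +kernel)

private theorem x1_18_1 : FaceH ⟨192342, 642682, 0, 589385, 0⟩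
    ⟨349525, 693438, 0, 589385, 0⟩ :=
  faceH_of (n := 60) (x1 := 871013) (y1 := 741456) (r0 := 135297) (r1 := 10464525)
    (by decide +kernel) (by decide +kernel)

private theorem x1_18_2 : FaceV ⟨349525, 693438, 0, 589385, 0⟩
    ⟨192342, 642682, 0, 589385, 0⟩ :=
  faceV_of (n := 60) (x1 := 741456) (y1 := 871013) (r0 := 105070) (r1 := 8126594)
    (by decide +kernel) (by decide +kernel) (by decide +kernel)

private theorem x1_18_3 : FaceV ⟨192342, 642682, 0, 589385, 0⟩
    ⟨349525, 693438, 0, 589385, 0⟩ :=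
  faceV_of (n := 60) (x1 := 871013) (y1 := 741456) (r0 := 135297) (r1 := 10464525)
    (by decide +kernel) (by decide +kernel) (by decide +kernel)

private theorem x1_u18 : VD ⟨349525, 693438, 0, 589385, 0⟩ (1 / 2) (69 / 200) (73 / 200) :=
  ⟨by decide +kernel, by norm_num, by norm_num [R], cu_73_200, Or.inr cl_69_200⟩

private theorem x1_v18 : VD ⟨192342, 642682, 0, 589385, 0⟩ (69 / 100) (69 / 200) (71 / 200) :=
  ⟨by decide +kernel, by norm_num, by norm_num [R], cu_71_200, Or.inr cl_69_200⟩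

private theorem x1_18 : Rgn ⟨349525, 693438, 0, 589385, 0⟩
    ⟨192342, 642682, 0, 589385, 0⟩ :=
  rgn_of x1_18_0 x1_18_1 (Or.inr x1_18_2) (Or.inr x1_18_3)

private theorem x1_19_0 : FaceH ⟨304425, 693438, 0, 589385, 0⟩
    ⟨207203, 642682, 0, 589385, 0⟩ :=
  faceH_of (n := 60) (x1 := 777646) (y1 := 858297) (r0 := 106328) (r1 := 8397481)
    (by decide +kernel) (by decide +kernel)

private theorem x1_19_1 : FaceH ⟨207203, 642682, 0, 589385, 0⟩
    ⟨304425, 693438, 0, 589385, 0⟩ :=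
  faceH_of (n := 60) (x1 := 858297) (y1 := 777646) (r0 := 130933) (r1 := 10340687)
    (by decide +kernel) (by decide +kernel)

private theorem x1_19_2 : FaceV ⟨304425, 693438, 0, 589385, 0⟩
    ⟨207203, 642682, 0, 589385, 0⟩ :=
  faceV_of (n := 60) (x1 := 777646) (y1 := 858297) (r0 := 106328) (r1 := 8397481)
    (by decide +kernel) (by decide +kernel) (by decide +kernel)

private theorem x1_19_3 : FaceV ⟨207203, 642682, 0, 589385, 0⟩
    ⟨304425, 693438, 0, 589385, 0⟩ :=
  faceV_of (n := 60) (x1 := 858297) (y1 := 777646) (r0 := 130933) (r1 := 10340687)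
    (by decide +kernel) (by decide +kernel) (by decide +kernel)

private theorem x1_u19 : VD ⟨304425, 693438, 0, 589385, 0⟩ (11 / 20) (69 / 200) (73 / 200) :=
  ⟨by decide +kernel, by norm_num, by norm_num [R], cu_73_200, Or.inr cl_69_200⟩

private theorem x1_v19 : VD ⟨207203, 642682, 0, 589385, 0⟩ (67 / 100) (69 / 200) (71 / 200) :=
  ⟨by decide +kernel, by norm_num, by norm_num [R], cu_71_200, Or.inr cl_69_200⟩

private theorem x1_19 : Rgn ⟨304425, 693438, 0, 589385, 0⟩
    ⟨207203, 642682, 0, 589385, 0⟩ :=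
  rgn_of x1_19_0 x1_19_1 (Or.inr x1_19_2) (Or.inr x1_19_3)

private theorem x1_20_0 : FaceH ⟨262144, 693438, 0, 589385, 0⟩
    ⟨222425, 642682, 0, 589385, 0⟩ :=
  faceH_of (n := 60) (x1 := 812224) (y1 := 845390) (r0 := 107617) (r1 := 8668365)
    (by decide +kernel) (by decide +kernel)

private theorem x1_20_1 : FaceH ⟨222425, 642682, 0, 589385, 0⟩
    ⟨262144, 693438, 0, 589385, 0⟩ :=
  faceH_of (n := 60) (x1 := 845390) (y1 := 812224) (r0 := 126841) (r1 := 10216843)
    (by decide +kernel) (by decide +kernel)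

private theorem x1_20_2 : FaceV ⟨262144, 693438, 0, 589385, 0⟩
    ⟨222425, 642682, 0, 589385, 0⟩ :=
  faceV_of (n := 60) (x1 := 812224) (y1 := 845390) (r0 := 107617) (r1 := 8668365)
    (by decide +kernel) (by decide +kernel) (by decide +kernel)

private theorem x1_20_3 : FaceV ⟨222425, 642682, 0, 589385, 0⟩
    ⟨262144, 693438, 0, 589385, 0⟩ :=
  faceV_of (n := 60) (x1 := 845390) (y1 := 812224) (r0 := 126841) (r1 := 10216843)
    (by decide +kernel) (by decide +kernel) (by decide +kernel)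

private theorem x1_u20 : VD ⟨262144, 693438, 0, 589385, 0⟩ (3 / 5) (69 / 200) (73 / 200) :=
  ⟨by decide +kernel, by norm_num, by norm_num [R], cu_73_200, Or.inr cl_69_200⟩

private theorem x1_v20 : VD ⟨222425, 642682, 0, 589385, 0⟩ (13 / 20) (69 / 200) (71 / 200) :=
  ⟨by decide +kernel, by norm_num, by norm_num [R], cu_71_200, Or.inr cl_69_200⟩

private theorem x1_20 : Rgn ⟨262144, 693438, 0, 589385, 0⟩
    ⟨222425, 642682, 0, 589385, 0⟩ :=
  rgn_of x1_20_0 x1_20_1 (Or.inr x1_20_2) (Or.inr x1_20_3)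

theorem flat_x1 {θ θ' : ℝ} {v w : ℂ} (h : T2.Pr θ θ' v w)
    (j : J3 (Real.tan θ ^ 2) (Real.tan θ' ^ 2)) (j' : J3 (Real.tan θ' ^ 2) (Real.tan θ ^ 2))
    (t1 : Real.tan θ ^ 2 < 1) (t2 : Real.tan θ' ^ 2 < 1)
    (h1 : 69 / 200 ≤ v.re) (h2 : v.re ≤ 73 / 200) (h3 : 69 / 200 ≤ w.re) (h4 : w.re ≤ 71 / 200) :
    FlatM (1 / cos (Real.pi * v) ^ 2) (1 / cos (Real.pi * (starRingEnd ℂ) w) ^ 2) := by
  rcases j.c22 j' t1 t2 with (⟨a, b⟩ | ⟨a, b⟩ | ⟨a, b⟩ | ⟨a, b⟩ | ⟨a, b⟩ | ⟨a, b⟩ | ⟨a, b⟩ | ⟨a, b⟩ | ⟨a, b⟩ | ⟨a, b⟩) |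
    (⟨a, b⟩ | ⟨a, b⟩ | ⟨a, b⟩ | ⟨a, b⟩ | ⟨a, b⟩ | ⟨a, b⟩ | ⟨a, b⟩ | ⟨a, b⟩ | ⟨a, b⟩ | ⟨a, b⟩) | ⟨a, b⟩
  · exact x1_0.flatM x1_u0 x1_v0 h a b t1 t2 h1 h2 h3 h4
      (by norm_num) (by norm_num) (by norm_num) (by norm_num)
  · exact x1_1.flatM x1_u1 x1_v1 h a b t1 t2 h1 h2 h3 h4
      (by norm_num) (by norm_num) (by norm_num) (by norm_num)
  · exact x1_2.flatM x1_u2 x1_v2 h a b t1 t2 h1 h2 h3 h4
      (by norm_num) (by norm_num) (by norm_num) (by norm_num)
  · exact x1_6.flatM x1_u6 x1_v6 h a b t1 t2 h1 h2 h3 h4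
      (by norm_num) (by norm_num) (by norm_num) (by norm_num)
  · exact x1_7.flatM x1_u7 x1_v7 h a b t1 t2 h1 h2 h3 h4
      (by norm_num) (by norm_num) (by norm_num) (by norm_num)
  · exact x1_8.flatM x1_u8 x1_v8 h a b t1 t2 h1 h2 h3 h4
      (by norm_num) (by norm_num) (by norm_num) (by norm_num)
  · exact x1_9.flatM x1_u9 x1_v9 h a b t1 t2 h1 h2 h3 h4
      (by norm_num) (by norm_num) (by norm_num) (by norm_num)
  · exact x1_10.flatM x1_u10 x1_v10 h a b t1 t2 h1 h2 h3 h4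
      (by norm_num) (by norm_num) (by norm_num) (by norm_num)
  · exact x1_11.flatM x1_u11 x1_v11 h a b t1 t2 h1 h2 h3 h4
      (by norm_num) (by norm_num) (by norm_num) (by norm_num)
  · exact x1_12.flatM x1_u12 x1_v12 h a b t1 t2 h1 h2 h3 h4
      (by norm_num) (by norm_num) (by norm_num) (by norm_num)
  · exact x1_3.flatM x1_u3 x1_v3 h b a t1 t2 h1 h2 h3 h4
      (by norm_num) (by norm_num) (by norm_num) (by norm_num)
  · exact x1_4.flatM x1_u4 x1_v4 h b a t1 t2 h1 h2 h3 h4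
      (by norm_num) (by norm_num) (by norm_num) (by norm_num)
  · exact x1_5.flatM x1_u5 x1_v5 h b a t1 t2 h1 h2 h3 h4
      (by norm_num) (by norm_num) (by norm_num) (by norm_num)
  · exact x1_14.flatM x1_u14 x1_v14 h b a t1 t2 h1 h2 h3 h4
      (by norm_num) (by norm_num) (by norm_num) (by norm_num)
  · exact x1_15.flatM x1_u15 x1_v15 h b a t1 t2 h1 h2 h3 h4
      (by norm_num) (by norm_num) (by norm_num) (by norm_num)
  · exact x1_16.flatM x1_u16 x1_v16 h b a t1 t2 h1 h2 h3 h4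
      (by norm_num) (by norm_num) (by norm_num) (by norm_num)
  · exact x1_17.flatM x1_u17 x1_v17 h b a t1 t2 h1 h2 h3 h4
      (by norm_num) (by norm_num) (by norm_num) (by norm_num)
  · exact x1_18.flatM x1_u18 x1_v18 h b a t1 t2 h1 h2 h3 h4
      (by norm_num) (by norm_num) (by norm_num) (by norm_num)
  · exact x1_19.flatM x1_u19 x1_v19 h b a t1 t2 h1 h2 h3 h4
      (by norm_num) (by norm_num) (by norm_num) (by norm_num)
  · exact x1_20.flatM x1_u20 x1_v20 h b a t1 t2 h1 h2 h3 h4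
      (by norm_num) (by norm_num) (by norm_num) (by norm_num)
  · exact x1_13.flatM x1_u13 x1_v13 h a b t1 t2 h1 h2 h3 h4
      (by norm_num) (by norm_num) (by norm_num) (by norm_num)

end Pool.Agent.S3.Ck
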