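import Pool.Agent.S3.Ck.Cos
import Pool.Agent.S3.Ck.CosX
import Pool.Agent.S3.Ck.SoundG

/-!
# Flats: x3
-/

set_option autoImplicit false
set_option maxRecDepth 100000

namespace Pool.Agent.S3.Ck

open Complex

private theorem x3_0_0 : FaceH ⟨0, 840506, 0, 764377, 0⟩
    ⟨857925, 786551, 0, 764377, 0⟩ :=
  faceH_of (n := 60) (x1 := 1048576) (y1 := 331590) (r0 := 94577) (r1 := 16784836)
    (by decide +kernel) (by decide +kernel)

private theorem x3_0_1 : FaceH ⟨857925, 786551, 0, 764377, 0⟩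
    ⟨0, 840506, 0, 764377, 0⟩ :=
  faceH_of (n := 60) (x1 := 331590) (y1 := 1048576) (r0 := 65506) (r1 := 11625543)
    (by decide +kernel) (by decide +kernel)

private theorem x3_0_2 : FaceV ⟨0, 840506, 0, 764377, 0⟩
    ⟨857925, 786551, 0, 764377, 0⟩ :=
  faceV_of (n := 60) (x1 := 1048576) (y1 := 331590) (r0 := 94577) (r1 := 16784836)
    (by decide +kernel) (by decide +kernel) (by decide +kernel)

private theorem x3_0_3 : FaceV ⟨857925, 786551, 0, 764377, 0⟩
    ⟨0, 840506, 0, 764377, 0⟩ :=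
  faceV_of (n := 60) (x1 := 331590) (y1 := 1048576) (r0 := 65506) (r1 := 11625543)
    (by decide +kernel) (by decide +kernel) (by decide +kernel)

private theorem x3_u0 : VD ⟨0, 840506, 0, 764377, 0⟩ 1 (19 / 50) (199 / 500) :=
  ⟨by decide +kernel, by norm_num, by norm_num [R], cu_199_500, Or.inr cl_19_50⟩

private theorem x3_v0 : VD ⟨857925, 786551, 0, 764377, 0⟩ (1 / 10) (19 / 50) (77 / 200) :=
  ⟨by decide +kernel, by norm_num, by norm_num [R], cu_77_200, Or.inr cl_19_50⟩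

private theorem x3_0 : Rgn ⟨0, 840506, 0, 764377, 0⟩
    ⟨857925, 786551, 0, 764377, 0⟩ :=
  rgn_of x3_0_0 x3_0_1 (Or.inr x3_0_2) (Or.inr x3_0_3)

private theorem x3_1_0 : FaceH ⟨32430, 840506, 0, 764377, 0⟩
    ⟨699050, 786551, 0, 764377, 0⟩ :=
  faceH_of (n := 60) (x1 := 1016633) (y1 := 468938) (r0 := 86695) (r1 := 16281294)
    (by decide +kernel) (by decide +kernel)

private theorem x3_1_1 : FaceH ⟨699050, 786551, 0, 764377, 0⟩
    ⟨32430, 840506, 0, 764377, 0⟩ :=
  faceH_of (n := 60) (x1 := 468938) (y1 := 1016633) (r0 := 67532) (r1 := 12682410)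
    (by decide +kernel) (by decide +kernel)

private theorem x3_1_2 : FaceV ⟨32430, 840506, 0, 764377, 0⟩
    ⟨699050, 786551, 0, 764377, 0⟩ :=
  faceV_of (n := 60) (x1 := 1016633) (y1 := 468938) (r0 := 86695) (r1 := 16281294)
    (by decide +kernel) (by decide +kernel) (by decide +kernel)

private theorem x3_1_3 : FaceV ⟨699050, 786551, 0, 764377, 0⟩
    ⟨32430, 840506, 0, 764377, 0⟩ :=
  faceV_of (n := 60) (x1 := 468938) (y1 := 1016633) (r0 := 67532) (r1 := 12682410)
    (by decide +kernel) (by decide +kernel) (by decide +kernel)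

private theorem x3_u1 : VD ⟨32430, 840506, 0, 764377, 0⟩ (47 / 50) (19 / 50) (199 / 500) :=
  ⟨by decide +kernel, by norm_num, by norm_num [R], cu_199_500, Or.inr cl_19_50⟩

private theorem x3_v1 : VD ⟨699050, 786551, 0, 764377, 0⟩ (1 / 5) (19 / 50) (77 / 200) :=
  ⟨by decide +kernel, by norm_num, by norm_num [R], cu_77_200, Or.inr cl_19_50⟩

private theorem x3_1 : Rgn ⟨32430, 840506, 0, 764377, 0⟩
    ⟨699050, 786551, 0, 764377, 0⟩ :=
  rgn_of x3_1_0 x3_1_1 (Or.inr x3_1_2) (Or.inr x3_1_3)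

private theorem x3_2_0 : FaceH ⟨85019, 840506, 0, 764377, 0⟩
    ⟨629145, 786551, 0, 764377, 0⟩ :=
  faceH_of (n := 60) (x1 := 966740) (y1 := 524289) (r0 := 83227) (r1 := 15525983)
    (by decide +kernel) (by decide +kernel)

private theorem x3_2_1 : FaceH ⟨629145, 786551, 0, 764377, 0⟩
    ⟨85019, 840506, 0, 764377, 0⟩ :=
  faceH_of (n := 60) (x1 := 524289) (y1 := 966740) (r0 := 70817) (r1 := 13210843)
    (by decide +kernel) (by decide +kernel)

private theorem x3_2_2 : FaceV ⟨85019, 840506, 0, 764377, 0⟩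
    ⟨629145, 786551, 0, 764377, 0⟩ :=
  faceV_of (n := 60) (x1 := 966740) (y1 := 524289) (r0 := 83227) (r1 := 15525983)
    (by decide +kernel) (by decide +kernel) (by decide +kernel)

private theorem x3_2_3 : FaceV ⟨629145, 786551, 0, 764377, 0⟩
    ⟨85019, 840506, 0, 764377, 0⟩ :=
  faceV_of (n := 60) (x1 := 524289) (y1 := 966740) (r0 := 70817) (r1 := 13210843)
    (by decide +kernel) (by decide +kernel) (by decide +kernel)

private theorem x3_u2 : VD ⟨85019, 840506, 0, 764377, 0⟩ (17 / 20) (19 / 50) (199 / 500) :=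
  ⟨by decide +kernel, by norm_num, by norm_num [R], cu_199_500, Or.inr cl_19_50⟩

private theorem x3_v2 : VD ⟨629145, 786551, 0, 764377, 0⟩ (1 / 4) (19 / 50) (77 / 200) :=
  ⟨by decide +kernel, by norm_num, by norm_num [R], cu_77_200, Or.inr cl_19_50⟩

private theorem x3_2 : Rgn ⟨85019, 840506, 0, 764377, 0⟩
    ⟨629145, 786551, 0, 764377, 0⟩ :=
  rgn_of x3_2_0 x3_2_1 (Or.inr x3_2_2) (Or.inr x3_2_3)

private theorem x3_3_0 : FaceH ⟨857925, 840506, 0, 764377, 0⟩
    ⟨0, 786551, 0, 764377, 0⟩ :=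
  faceH_of (n := 60) (x1 := 331590) (y1 := 1048576) (r0 := 52017) (r1 := 9231664)
    (by decide +kernel) (by decide +kernel)

private theorem x3_3_1 : FaceH ⟨0, 786551, 0, 764377, 0⟩
    ⟨857925, 840506, 0, 764377, 0⟩ :=
  faceH_of (n := 60) (x1 := 1048576) (y1 := 331590) (r0 := 119102) (r1 := 21137341)
    (by decide +kernel) (by decide +kernel)

private theorem x3_3_2 : FaceV ⟨857925, 840506, 0, 764377, 0⟩
    ⟨0, 786551, 0, 764377, 0⟩ :=
  faceV_of (n := 60) (x1 := 331590) (y1 := 1048576) (r0 := 52017) (r1 := 9231664)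
    (by decide +kernel) (by decide +kernel) (by decide +kernel)

private theorem x3_3_3 : FaceV ⟨0, 786551, 0, 764377, 0⟩
    ⟨857925, 840506, 0, 764377, 0⟩ :=
  faceV_of (n := 60) (x1 := 1048576) (y1 := 331590) (r0 := 119102) (r1 := 21137341)
    (by decide +kernel) (by decide +kernel) (by decide +kernel)

private theorem x3_u3 : VD ⟨857925, 840506, 0, 764377, 0⟩ (1 / 10) (19 / 50) (199 / 500) :=
  ⟨by decide +kernel, by norm_num, by norm_num [R], cu_199_500, Or.inr cl_19_50⟩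

private theorem x3_v3 : VD ⟨0, 786551, 0, 764377, 0⟩ 1 (19 / 50) (77 / 200) :=
  ⟨by decide +kernel, by norm_num, by norm_num [R], cu_77_200, Or.inr cl_19_50⟩

private theorem x3_3 : Rgn ⟨857925, 840506, 0, 764377, 0⟩
    ⟨0, 786551, 0, 764377, 0⟩ :=
  rgn_of x3_3_0 x3_3_1 (Or.inr x3_3_2) (Or.inr x3_3_3)

private theorem x3_4_0 : FaceH ⟨699050, 840506, 0, 764377, 0⟩
    ⟨32430, 786551, 0, 764377, 0⟩ :=
  faceH_of (n := 60) (x1 := 468938) (y1 := 1016633) (r0 := 53626) (r1 := 10070906)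
    (by decide +kernel) (by decide +kernel)

private theorem x3_4_1 : FaceH ⟨32430, 786551, 0, 764377, 0⟩
    ⟨699050, 840506, 0, 764377, 0⟩ :=
  faceH_of (n := 60) (x1 := 1016633) (y1 := 468938) (r0 := 109177) (r1 := 20503225)
    (by decide +kernel) (by decide +kernel)

private theorem x3_4_2 : FaceV ⟨699050, 840506, 0, 764377, 0⟩
    ⟨32430, 786551, 0, 764377, 0⟩ :=
  faceV_of (n := 60) (x1 := 468938) (y1 := 1016633) (r0 := 53626) (r1 := 10070906)
    (by decide +kernel) (by decide +kernel) (by decide +kernel)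

private theorem x3_4_3 : FaceV ⟨32430, 786551, 0, 764377, 0⟩
    ⟨699050, 840506, 0, 764377, 0⟩ :=
  faceV_of (n := 60) (x1 := 1016633) (y1 := 468938) (r0 := 109177) (r1 := 20503225)
    (by decide +kernel) (by decide +kernel) (by decide +kernel)

private theorem x3_u4 : VD ⟨699050, 840506, 0, 764377, 0⟩ (1 / 5) (19 / 50) (199 / 500) :=
  ⟨by decide +kernel, by norm_num, by norm_num [R], cu_199_500, Or.inr cl_19_50⟩

private theorem x3_v4 : VD ⟨32430, 786551, 0, 764377, 0⟩ (47 / 50) (19 / 50) (77 / 200) :=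
  ⟨by decide +kernel, by norm_num, by norm_num [R], cu_77_200, Or.inr cl_19_50⟩

private theorem x3_4 : Rgn ⟨699050, 840506, 0, 764377, 0⟩
    ⟨32430, 786551, 0, 764377, 0⟩ :=
  rgn_of x3_4_0 x3_4_1 (Or.inr x3_4_2) (Or.inr x3_4_3)

private theorem x3_5_0 : FaceH ⟨629145, 840506, 0, 764377, 0⟩
    ⟨85019, 786551, 0, 764377, 0⟩ :=
  faceH_of (n := 60) (x1 := 524289) (y1 := 966740) (r0 := 56235) (r1 := 10490526)
    (by decide +kernel) (by decide +kernel)

private theorem x3_5_1 : FaceH ⟨85019, 786551, 0, 764377, 0⟩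
    ⟨629145, 840506, 0, 764377, 0⟩ :=
  faceH_of (n := 60) (x1 := 966740) (y1 := 524289) (r0 := 104809) (r1 := 19552052)
    (by decide +kernel) (by decide +kernel)

private theorem x3_5_2 : FaceV ⟨629145, 840506, 0, 764377, 0⟩
    ⟨85019, 786551, 0, 764377, 0⟩ :=
  faceV_of (n := 60) (x1 := 524289) (y1 := 966740) (r0 := 56235) (r1 := 10490526)
    (by decide +kernel) (by decide +kernel) (by decide +kernel)

private theorem x3_5_3 : FaceV ⟨85019, 786551, 0, 764377, 0⟩
    ⟨629145, 840506, 0, 764377, 0⟩ :=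
  faceV_of (n := 60) (x1 := 966740) (y1 := 524289) (r0 := 104809) (r1 := 19552052)
    (by decide +kernel) (by decide +kernel) (by decide +kernel)

private theorem x3_u5 : VD ⟨629145, 840506, 0, 764377, 0⟩ (1 / 4) (19 / 50) (199 / 500) :=
  ⟨by decide +kernel, by norm_num, by norm_num [R], cu_199_500, Or.inr cl_19_50⟩

private theorem x3_v5 : VD ⟨85019, 786551, 0, 764377, 0⟩ (17 / 20) (19 / 50) (77 / 200) :=
  ⟨by decide +kernel, by norm_num, by norm_num [R], cu_77_200, Or.inr cl_19_50⟩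

private theorem x3_5 : Rgn ⟨629145, 840506, 0, 764377, 0⟩
    ⟨85019, 786551, 0, 764377, 0⟩ :=
  rgn_of x3_5_0 x3_5_1 (Or.inr x3_5_2) (Or.inr x3_5_3)

private theorem x3_6_0 : FaceH ⟨110071, 840506, 0, 764377, 0⟩
    ⟨564617, 786551, 0, 764377, 0⟩ :=
  faceH_of (n := 60) (x1 := 943719) (y1 := 574330) (r0 := 80026) (r1 := 15190283)
    (by decide +kernel) (by decide +kernel)

private theorem x3_6_1 : FaceH ⟨564617, 786551, 0, 764377, 0⟩
    ⟨110071, 840506, 0, 764377, 0⟩ :=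
  faceH_of (n := 60) (x1 := 574330) (y1 := 943719) (r0 := 72382) (r1 := 13739279)
    (by decide +kernel) (by decide +kernel)

private theorem x3_6_2 : FaceV ⟨110071, 840506, 0, 764377, 0⟩
    ⟨564617, 786551, 0, 764377, 0⟩ :=
  faceV_of (n := 60) (x1 := 943719) (y1 := 574330) (r0 := 80026) (r1 := 15190283)
    (by decide +kernel) (by decide +kernel) (by decide +kernel)

private theorem x3_6_3 : FaceV ⟨564617, 786551, 0, 764377, 0⟩
    ⟨110071, 840506, 0, 764377, 0⟩ :=
  faceV_of (n := 60) (x1 := 574330) (y1 := 943719) (r0 := 72382) (r1 := 13739279)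
    (by decide +kernel) (by decide +kernel) (by decide +kernel)

private theorem x3_u6 : VD ⟨110071, 840506, 0, 764377, 0⟩ (81 / 100) (19 / 50) (199 / 500) :=
  ⟨by decide +kernel, by norm_num, by norm_num [R], cu_199_500, Or.inr cl_19_50⟩

private theorem x3_v6 : VD ⟨564617, 786551, 0, 764377, 0⟩ (3 / 10) (19 / 50) (77 / 200) :=
  ⟨by decide +kernel, by norm_num, by norm_num [R], cu_77_200, Or.inr cl_19_50⟩

private theorem x3_6 : Rgn ⟨110071, 840506, 0, 764377, 0⟩
    ⟨564617, 786551, 0, 764377, 0⟩ :=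
  rgn_of x3_6_0 x3_6_1 (Or.inr x3_6_2) (Or.inr x3_6_3)

private theorem x3_7_0 : FaceH ⟨132918, 840506, 0, 764377, 0⟩
    ⟨504869, 786551, 0, 764377, 0⟩ :=
  faceH_of (n := 60) (x1 := 923105) (y1 := 620347) (r0 := 77062) (r1 := 14896543)
    (by decide +kernel) (by decide +kernel)

private theorem x3_7_1 : FaceH ⟨504869, 786551, 0, 764377, 0⟩
    ⟨132918, 840506, 0, 764377, 0⟩ :=
  faceH_of (n := 60) (x1 := 620347) (y1 := 923105) (r0 := 73809) (r1 := 14267714)
    (by decide +kernel) (by decide +kernel)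

private theorem x3_7_2 : FaceV ⟨132918, 840506, 0, 764377, 0⟩
    ⟨504869, 786551, 0, 764377, 0⟩ :=
  faceV_of (n := 60) (x1 := 923105) (y1 := 620347) (r0 := 77062) (r1 := 14896543)
    (by decide +kernel) (by decide +kernel) (by decide +kernel)

private theorem x3_7_3 : FaceV ⟨504869, 786551, 0, 764377, 0⟩
    ⟨132918, 840506, 0, 764377, 0⟩ :=
  faceV_of (n := 60) (x1 := 620347) (y1 := 923105) (r0 := 73809) (r1 := 14267714)
    (by decide +kernel) (by decide +kernel) (by decide +kernel)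

private theorem x3_u7 : VD ⟨132918, 840506, 0, 764377, 0⟩ (31 / 40) (19 / 50) (199 / 500) :=
  ⟨by decide +kernel, by norm_num, by norm_num [R], cu_199_500, Or.inr cl_19_50⟩

private theorem x3_v7 : VD ⟨504869, 786551, 0, 764377, 0⟩ (7 / 20) (19 / 50) (77 / 200) :=
  ⟨by decide +kernel, by norm_num, by norm_num [R], cu_77_200, Or.inr cl_19_50⟩

private theorem x3_7 : Rgn ⟨132918, 840506, 0, 764377, 0⟩
    ⟨504869, 786551, 0, 764377, 0⟩ :=
  rgn_of x3_7_0 x3_7_1 (Or.inr x3_7_2) (Or.inr x3_7_3)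

private theorem x3_8_0 : FaceH ⟨153230, 840506, 0, 764377, 0⟩
    ⟨449389, 786551, 0, 764377, 0⟩ :=
  faceH_of (n := 60) (x1 := 905062) (y1 := 663179) (r0 := 74310) (r1 := 14644773)
    (by decide +kernel) (by decide +kernel)

private theorem x3_8_1 : FaceH ⟨449389, 786551, 0, 764377, 0⟩
    ⟨153230, 840506, 0, 764377, 0⟩ :=
  faceH_of (n := 60) (x1 := 663179) (y1 := 905062) (r0 := 75078) (r1 := 14796146)
    (by decide +kernel) (by decide +kernel)

private theorem x3_8_2 : FaceV ⟨153230, 840506, 0, 764377, 0⟩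
    ⟨449389, 786551, 0, 764377, 0⟩ :=
  faceV_of (n := 60) (x1 := 905062) (y1 := 663179) (r0 := 74310) (r1 := 14644773)
    (by decide +kernel) (by decide +kernel) (by decide +kernel)

private theorem x3_8_3 : FaceV ⟨449389, 786551, 0, 764377, 0⟩
    ⟨153230, 840506, 0, 764377, 0⟩ :=
  faceV_of (n := 60) (x1 := 663179) (y1 := 905062) (r0 := 75078) (r1 := 14796146)
    (by decide +kernel) (by decide +kernel) (by decide +kernel)

private theorem x3_u8 : VD ⟨153230, 840506, 0, 764377, 0⟩ (149 / 200) (19 / 50) (199 / 500) :=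
  ⟨by decide +kernel, by norm_num, by norm_num [R], cu_199_500, Or.inr cl_19_50⟩

private theorem x3_v8 : VD ⟨449389, 786551, 0, 764377, 0⟩ (2 / 5) (19 / 50) (77 / 200) :=
  ⟨by decide +kernel, by norm_num, by norm_num [R], cu_77_200, Or.inr cl_19_50⟩

private theorem x3_8 : Rgn ⟨153230, 840506, 0, 764377, 0⟩
    ⟨449389, 786551, 0, 764377, 0⟩ :=
  rgn_of x3_8_0 x3_8_1 (Or.inr x3_8_2) (Or.inr x3_8_3)

private theorem x3_9_0 : FaceH ⟨174253, 840506, 0, 764377, 0⟩
    ⟨397735, 786551, 0, 764377, 0⟩ :=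
  faceH_of (n := 60) (x1 := 886652) (y1 := 703407) (r0 := 71748) (r1 := 14392999)
    (by decide +kernel) (by decide +kernel)

private theorem x3_9_1 : FaceH ⟨397735, 786551, 0, 764377, 0⟩
    ⟨174253, 840506, 0, 764377, 0⟩ :=
  faceH_of (n := 60) (x1 := 703407) (y1 := 886652) (r0 := 76392) (r1 := 15324580)
    (by decide +kernel) (by decide +kernel)

private theorem x3_9_2 : FaceV ⟨174253, 840506, 0, 764377, 0⟩
    ⟨397735, 786551, 0, 764377, 0⟩ :=
  faceV_of (n := 60) (x1 := 886652) (y1 := 703407) (r0 := 71748) (r1 := 14392999)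
    (by decide +kernel) (by decide +kernel) (by decide +kernel)

private theorem x3_9_3 : FaceV ⟨397735, 786551, 0, 764377, 0⟩
    ⟨174253, 840506, 0, 764377, 0⟩ :=
  faceV_of (n := 60) (x1 := 703407) (y1 := 886652) (r0 := 76392) (r1 := 15324580)
    (by decide +kernel) (by decide +kernel) (by decide +kernel)

private theorem x3_u9 : VD ⟨174253, 840506, 0, 764377, 0⟩ (143 / 200) (19 / 50) (199 / 500) :=
  ⟨by decide +kernel, by norm_num, by norm_num [R], cu_199_500, Or.inr cl_19_50⟩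

private theorem x3_v9 : VD ⟨397735, 786551, 0, 764377, 0⟩ (9 / 20) (19 / 50) (77 / 200) :=
  ⟨by decide +kernel, by norm_num, by norm_num [R], cu_77_200, Or.inr cl_19_50⟩

private theorem x3_9 : Rgn ⟨174253, 840506, 0, 764377, 0⟩
    ⟨397735, 786551, 0, 764377, 0⟩ :=
  rgn_of x3_9_0 x3_9_1 (Or.inr x3_9_2) (Or.inr x3_9_3)

private theorem x3_10_0 : FaceH ⟨192342, 840506, 0, 764377, 0⟩
    ⟨349525, 786551, 0, 764377, 0⟩ :=
  faceH_of (n := 60) (x1 := 871013) (y1 := 741456) (r0 := 69356) (r1 := 14183190)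
    (by decide +kernel) (by decide +kernel)

private theorem x3_10_1 : FaceH ⟨349525, 786551, 0, 764377, 0⟩
    ⟨192342, 840506, 0, 764377, 0⟩ :=
  faceH_of (n := 60) (x1 := 741456) (y1 := 871013) (r0 := 77522) (r1 := 15853010)
    (by decide +kernel) (by decide +kernel)

private theorem x3_10_2 : FaceV ⟨192342, 840506, 0, 764377, 0⟩
    ⟨349525, 786551, 0, 764377, 0⟩ :=
  faceV_of (n := 60) (x1 := 871013) (y1 := 741456) (r0 := 69356) (r1 := 14183190)
    (by decide +kernel) (by decide +kernel) (by decide +kernel)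

private theorem x3_10_3 : FaceV ⟨349525, 786551, 0, 764377, 0⟩
    ⟨192342, 840506, 0, 764377, 0⟩ :=
  faceV_of (n := 60) (x1 := 741456) (y1 := 871013) (r0 := 77522) (r1 := 15853010)
    (by decide +kernel) (by decide +kernel) (by decide +kernel)

private theorem x3_u10 : VD ⟨192342, 840506, 0, 764377, 0⟩ (69 / 100) (19 / 50) (199 / 500) :=
  ⟨by decide +kernel, by norm_num, by norm_num [R], cu_199_500, Or.inr cl_19_50⟩

private theorem x3_v10 : VD ⟨349525, 786551, 0, 764377, 0⟩ (1 / 2) (19 / 50) (77 / 200) :=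
  ⟨by decide +kernel, by norm_num, by norm_num [R], cu_77_200, Or.inr cl_19_50⟩

private theorem x3_10 : Rgn ⟨192342, 840506, 0, 764377, 0⟩
    ⟨349525, 786551, 0, 764377, 0⟩ :=
  rgn_of x3_10_0 x3_10_1 (Or.inr x3_10_2) (Or.inr x3_10_3)

private theorem x3_11_0 : FaceH ⟨207203, 840506, 0, 764377, 0⟩
    ⟨304425, 786551, 0, 764377, 0⟩ :=
  faceH_of (n := 60) (x1 := 858297) (y1 := 777646) (r0 := 67119) (r1 := 14015345)
    (by decide +kernel) (by decide +kernel)

private theorem x3_11_1 : FaceH ⟨304425, 786551, 0, 764377, 0⟩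
    ⟨207203, 840506, 0, 764377, 0⟩ :=
  faceH_of (n := 60) (x1 := 777646) (y1 := 858297) (r0 := 78450) (r1 := 16381443)
    (by decide +kernel) (by decide +kernel)

private theorem x3_11_2 : FaceV ⟨207203, 840506, 0, 764377, 0⟩
    ⟨304425, 786551, 0, 764377, 0⟩ :=
  faceV_of (n := 60) (x1 := 858297) (y1 := 777646) (r0 := 67119) (r1 := 14015345)
    (by decide +kernel) (by decide +kernel) (by decide +kernel)

private theorem x3_11_3 : FaceV ⟨304425, 786551, 0, 764377, 0⟩
    ⟨207203, 840506, 0, 764377, 0⟩ :=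
  faceV_of (n := 60) (x1 := 777646) (y1 := 858297) (r0 := 78450) (r1 := 16381443)
    (by decide +kernel) (by decide +kernel) (by decide +kernel)

private theorem x3_u11 : VD ⟨207203, 840506, 0, 764377, 0⟩ (67 / 100) (19 / 50) (199 / 500) :=
  ⟨by decide +kernel, by norm_num, by norm_num [R], cu_199_500, Or.inr cl_19_50⟩

private theorem x3_v11 : VD ⟨304425, 786551, 0, 764377, 0⟩ (11 / 20) (19 / 50) (77 / 200) :=
  ⟨by decide +kernel, by norm_num, by norm_num [R], cu_77_200, Or.inr cl_19_50⟩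

private theorem x3_11 : Rgn ⟨207203, 840506, 0, 764377, 0⟩
    ⟨304425, 786551, 0, 764377, 0⟩ :=
  rgn_of x3_11_0 x3_11_1 (Or.inr x3_11_2) (Or.inr x3_11_3)

private theorem x3_12_0 : FaceH ⟨222425, 840506, 0, 764377, 0⟩
    ⟨262144, 786551, 0, 764377, 0⟩ :=
  faceH_of (n := 60) (x1 := 845390) (y1 := 812224) (r0 := 65021) (r1 := 13847492)
    (by decide +kernel) (by decide +kernel)

private theorem x3_12_1 : FaceH ⟨262144, 786551, 0, 764377, 0⟩
    ⟨222425, 840506, 0, 764377, 0⟩ :=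
  faceH_of (n := 60) (x1 := 812224) (y1 := 845390) (r0 := 79401) (r1 := 16909873)
    (by decide +kernel) (by decide +kernel)

private theorem x3_12_2 : FaceV ⟨222425, 840506, 0, 764377, 0⟩
    ⟨262144, 786551, 0, 764377, 0⟩ :=
  faceV_of (n := 60) (x1 := 845390) (y1 := 812224) (r0 := 65021) (r1 := 13847492)
    (by decide +kernel) (by decide +kernel) (by decide +kernel)

private theorem x3_12_3 : FaceV ⟨262144, 786551, 0, 764377, 0⟩
    ⟨222425, 840506, 0, 764377, 0⟩ :=
  faceV_of (n := 60) (x1 := 812224) (y1 := 845390) (r0 := 79401) (r1 := 16909873)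
    (by decide +kernel) (by decide +kernel) (by decide +kernel)

private theorem x3_u12 : VD ⟨222425, 840506, 0, 764377, 0⟩ (13 / 20) (19 / 50) (199 / 500) :=
  ⟨by decide +kernel, by norm_num, by norm_num [R], cu_199_500, Or.inr cl_19_50⟩

private theorem x3_v12 : VD ⟨262144, 786551, 0, 764377, 0⟩ (3 / 5) (19 / 50) (77 / 200) :=
  ⟨by decide +kernel, by norm_num, by norm_num [R], cu_77_200, Or.inr cl_19_50⟩

private theorem x3_12 : Rgn ⟨222425, 840506, 0, 764377, 0⟩
    ⟨262144, 786551, 0, 764377, 0⟩ :=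
  rgn_of x3_12_0 x3_12_1 (Or.inr x3_12_2) (Or.inr x3_12_3)

private theorem x3_13_0 : FaceH ⟨234085, 840506, 0, 764377, 0⟩
    ⟨234085, 786551, 0, 764377, 0⟩ :=
  faceH_of (n := 60) (x1 := 835579) (y1 := 835579) (r0 := 63629) (r1 := 13721612)
    (by decide +kernel) (by decide +kernel)

private theorem x3_13_1 : FaceH ⟨234085, 786551, 0, 764377, 0⟩
    ⟨234085, 840506, 0, 764377, 0⟩ :=
  faceH_of (n := 60) (x1 := 835579) (y1 := 835579) (r0 := 80129) (r1 := 17279787)
    (by decide +kernel) (by decide +kernel)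

private theorem x3_13_2 : FaceV ⟨234085, 840506, 0, 764377, 0⟩
    ⟨234085, 786551, 0, 764377, 0⟩ :=
  faceV_of (n := 60) (x1 := 835579) (y1 := 835579) (r0 := 63629) (r1 := 13721612)
    (by decide +kernel) (by decide +kernel) (by decide +kernel)

private theorem x3_13_3 : FaceV ⟨234085, 786551, 0, 764377, 0⟩
    ⟨234085, 840506, 0, 764377, 0⟩ :=
  faceV_of (n := 60) (x1 := 835579) (y1 := 835579) (r0 := 80129) (r1 := 17279787)
    (by decide +kernel) (by decide +kernel) (by decide +kernel)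

private theorem x3_u13 : VD ⟨234085, 840506, 0, 764377, 0⟩ (127 / 200) (19 / 50) (199 / 500) :=
  ⟨by decide +kernel, by norm_num, by norm_num [R], cu_199_500, Or.inr cl_19_50⟩

private theorem x3_v13 : VD ⟨234085, 786551, 0, 764377, 0⟩ (127 / 200) (19 / 50) (77 / 200) :=
  ⟨by decide +kernel, by norm_num, by norm_num [R], cu_77_200, Or.inr cl_19_50⟩

private theorem x3_13 : Rgn ⟨234085, 840506, 0, 764377, 0⟩
    ⟨234085, 786551, 0, 764377, 0⟩ :=
  rgn_of x3_13_0 x3_13_1 (Or.inr x3_13_2) (Or.inr x3_13_3)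

private theorem x3_14_0 : FaceH ⟨564617, 840506, 0, 764377, 0⟩
    ⟨110071, 786551, 0, 764377, 0⟩ :=
  faceH_of (n := 60) (x1 := 574330) (y1 := 943719) (r0 := 57477) (r1 := 10910149)
    (by decide +kernel) (by decide +kernel)

private theorem x3_14_1 : FaceH ⟨110071, 786551, 0, 764377, 0⟩
    ⟨564617, 840506, 0, 764377, 0⟩ :=
  faceH_of (n := 60) (x1 := 943719) (y1 := 574330) (r0 := 100778) (r1 := 19129302)
    (by decide +kernel) (by decide +kernel)

private theorem x3_14_2 : FaceV ⟨564617, 840506, 0, 764377, 0⟩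
    ⟨110071, 786551, 0, 764377, 0⟩ :=
  faceV_of (n := 60) (x1 := 574330) (y1 := 943719) (r0 := 57477) (r1 := 10910149)
    (by decide +kernel) (by decide +kernel) (by decide +kernel)

private theorem x3_14_3 : FaceV ⟨110071, 786551, 0, 764377, 0⟩
    ⟨564617, 840506, 0, 764377, 0⟩ :=
  faceV_of (n := 60) (x1 := 943719) (y1 := 574330) (r0 := 100778) (r1 := 19129302)
    (by decide +kernel) (by decide +kernel) (by decide +kernel)

private theorem x3_u14 : VD ⟨564617, 840506, 0, 764377, 0⟩ (3 / 10) (19 / 50) (199 / 500) :=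
  ⟨by decide +kernel, by norm_num, by norm_num [R], cu_199_500, Or.inr cl_19_50⟩

private theorem x3_v14 : VD ⟨110071, 786551, 0, 764377, 0⟩ (81 / 100) (19 / 50) (77 / 200) :=
  ⟨by decide +kernel, by norm_num, by norm_num [R], cu_77_200, Or.inr cl_19_50⟩

private theorem x3_14 : Rgn ⟨564617, 840506, 0, 764377, 0⟩
    ⟨110071, 786551, 0, 764377, 0⟩ :=
  rgn_of x3_14_0 x3_14_1 (Or.inr x3_14_2) (Or.inr x3_14_3)

private theorem x3_15_0 : FaceH ⟨504869, 840506, 0, 764377, 0⟩
    ⟨132918, 786551, 0, 764377, 0⟩ :=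
  faceH_of (n := 60) (x1 := 620347) (y1 := 923105) (r0 := 58611) (r1 := 11329771)
    (by decide +kernel) (by decide +kernel)

private theorem x3_15_1 : FaceH ⟨132918, 786551, 0, 764377, 0⟩
    ⟨504869, 840506, 0, 764377, 0⟩ :=
  faceH_of (n := 60) (x1 := 923105) (y1 := 620347) (r0 := 97046) (r1 := 18759392)
    (by decide +kernel) (by decide +kernel)

private theorem x3_15_2 : FaceV ⟨504869, 840506, 0, 764377, 0⟩
    ⟨132918, 786551, 0, 764377, 0⟩ :=
  faceV_of (n := 60) (x1 := 620347) (y1 := 923105) (r0 := 58611) (r1 := 11329771)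
    (by decide +kernel) (by decide +kernel) (by decide +kernel)

private theorem x3_15_3 : FaceV ⟨132918, 786551, 0, 764377, 0⟩
    ⟨504869, 840506, 0, 764377, 0⟩ :=
  faceV_of (n := 60) (x1 := 923105) (y1 := 620347) (r0 := 97046) (r1 := 18759392)
    (by decide +kernel) (by decide +kernel) (by decide +kernel)

private theorem x3_u15 : VD ⟨504869, 840506, 0, 764377, 0⟩ (7 / 20) (19 / 50) (199 / 500) :=
  ⟨by decide +kernel, by norm_num, by norm_num [R], cu_199_500, Or.inr cl_19_50⟩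

private theorem x3_v15 : VD ⟨132918, 786551, 0, 764377, 0⟩ (31 / 40) (19 / 50) (77 / 200) :=
  ⟨by decide +kernel, by norm_num, by norm_num [R], cu_77_200, Or.inr cl_19_50⟩

private theorem x3_15 : Rgn ⟨504869, 840506, 0, 764377, 0⟩
    ⟨132918, 786551, 0, 764377, 0⟩ :=
  rgn_of x3_15_0 x3_15_1 (Or.inr x3_15_2) (Or.inr x3_15_3)

private theorem x3_16_0 : FaceH ⟨449389, 840506, 0, 764377, 0⟩
    ⟨153230, 786551, 0, 764377, 0⟩ :=
  faceH_of (n := 60) (x1 := 663179) (y1 := 905062) (r0 := 59618) (r1 := 11749391)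
    (by decide +kernel) (by decide +kernel)

private theorem x3_16_1 : FaceH ⟨153230, 786551, 0, 764377, 0⟩
    ⟨449389, 840506, 0, 764377, 0⟩ :=
  faceH_of (n := 60) (x1 := 905062) (y1 := 663179) (r0 := 93580) (r1 := 18442335)
    (by decide +kernel) (by decide +kernel)

private theorem x3_16_2 : FaceV ⟨449389, 840506, 0, 764377, 0⟩
    ⟨153230, 786551, 0, 764377, 0⟩ :=
  faceV_of (n := 60) (x1 := 663179) (y1 := 905062) (r0 := 59618) (r1 := 11749391)
    (by decide +kernel) (by decide +kernel) (by decide +kernel)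

private theorem x3_16_3 : FaceV ⟨153230, 786551, 0, 764377, 0⟩
    ⟨449389, 840506, 0, 764377, 0⟩ :=
  faceV_of (n := 60) (x1 := 905062) (y1 := 663179) (r0 := 93580) (r1 := 18442335)
    (by decide +kernel) (by decide +kernel) (by decide +kernel)

private theorem x3_u16 : VD ⟨449389, 840506, 0, 764377, 0⟩ (2 / 5) (19 / 50) (199 / 500) :=
  ⟨by decide +kernel, by norm_num, by norm_num [R], cu_199_500, Or.inr cl_19_50⟩

private theorem x3_v16 : VD ⟨153230, 786551, 0, 764377, 0⟩ (149 / 200) (19 / 50) (77 / 200) :=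
  ⟨by decide +kernel, by norm_num, by norm_num [R], cu_77_200, Or.inr cl_19_50⟩

private theorem x3_16 : Rgn ⟨449389, 840506, 0, 764377, 0⟩
    ⟨153230, 786551, 0, 764377, 0⟩ :=
  rgn_of x3_16_0 x3_16_1 (Or.inr x3_16_2) (Or.inr x3_16_3)

private theorem x3_17_0 : FaceH ⟨397735, 840506, 0, 764377, 0⟩
    ⟨174253, 786551, 0, 764377, 0⟩ :=
  faceH_of (n := 60) (x1 := 703407) (y1 := 886652) (r0 := 60661) (r1 := 12169012)
    (by decide +kernel) (by decide +kernel)

private theorem x3_17_1 : FaceH ⟨174253, 786551, 0, 764377, 0⟩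
    ⟨397735, 840506, 0, 764377, 0⟩ :=
  faceH_of (n := 60) (x1 := 886652) (y1 := 703407) (r0 := 90353) (r1 := 18125273)
    (by decide +kernel) (by decide +kernel)

private theorem x3_17_2 : FaceV ⟨397735, 840506, 0, 764377, 0⟩
    ⟨174253, 786551, 0, 764377, 0⟩ :=
  faceV_of (n := 60) (x1 := 703407) (y1 := 886652) (r0 := 60661) (r1 := 12169012)
    (by decide +kernel) (by decide +kernel) (by decide +kernel)

private theorem x3_17_3 : FaceV ⟨174253, 786551, 0, 764377, 0⟩
    ⟨397735, 840506, 0, 764377, 0⟩ :=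
  faceV_of (n := 60) (x1 := 886652) (y1 := 703407) (r0 := 90353) (r1 := 18125273)
    (by decide +kernel) (by decide +kernel) (by decide +kernel)

private theorem x3_u17 : VD ⟨397735, 840506, 0, 764377, 0⟩ (9 / 20) (19 / 50) (199 / 500) :=
  ⟨by decide +kernel, by norm_num, by norm_num [R], cu_199_500, Or.inr cl_19_50⟩

private theorem x3_v17 : VD ⟨174253, 786551, 0, 764377, 0⟩ (143 / 200) (19 / 50) (77 / 200) :=
  ⟨by decide +kernel, by norm_num, by norm_num [R], cu_77_200, Or.inr cl_19_50⟩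

private theorem x3_17 : Rgn ⟨397735, 840506, 0, 764377, 0⟩
    ⟨174253, 786551, 0, 764377, 0⟩ :=
  rgn_of x3_17_0 x3_17_1 (Or.inr x3_17_2) (Or.inr x3_17_3)

private theorem x3_18_0 : FaceH ⟨349525, 840506, 0, 764377, 0⟩
    ⟨192342, 786551, 0, 764377, 0⟩ :=
  faceH_of (n := 60) (x1 := 741456) (y1 := 871013) (r0 := 61559) (r1 := 12588630)
    (by decide +kernel) (by decide +kernel)

private theorem x3_18_1 : FaceH ⟨192342, 786551, 0, 764377, 0⟩
    ⟨349525, 840506, 0, 764377, 0⟩ :=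
  faceH_of (n := 60) (x1 := 871013) (y1 := 741456) (r0 := 87341) (r1 := 17861058)
    (by decide +kernel) (by decide +kernel)

private theorem x3_18_2 : FaceV ⟨349525, 840506, 0, 764377, 0⟩
    ⟨192342, 786551, 0, 764377, 0⟩ :=
  faceV_of (n := 60) (x1 := 741456) (y1 := 871013) (r0 := 61559) (r1 := 12588630)
    (by decide +kernel) (by decide +kernel) (by decide +kernel)

private theorem x3_18_3 : FaceV ⟨192342, 786551, 0, 764377, 0⟩
    ⟨349525, 840506, 0, 764377, 0⟩ :=
  faceV_of (n := 60) (x1 := 871013) (y1 := 741456) (r0 := 87341) (r1 := 17861058)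
    (by decide +kernel) (by decide +kernel) (by decide +kernel)

private theorem x3_u18 : VD ⟨349525, 840506, 0, 764377, 0⟩ (1 / 2) (19 / 50) (199 / 500) :=
  ⟨by decide +kernel, by norm_num, by norm_num [R], cu_199_500, Or.inr cl_19_50⟩

private theorem x3_v18 : VD ⟨192342, 786551, 0, 764377, 0⟩ (69 / 100) (19 / 50) (77 / 200) :=
  ⟨by decide +kernel, by norm_num, by norm_num [R], cu_77_200, Or.inr cl_19_50⟩

private theorem x3_18 : Rgn ⟨349525, 840506, 0, 764377, 0⟩
    ⟨192342, 786551, 0, 764377, 0⟩ :=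
  rgn_of x3_18_0 x3_18_1 (Or.inr x3_18_2) (Or.inr x3_18_3)

private theorem x3_19_0 : FaceH ⟨304425, 840506, 0, 764377, 0⟩
    ⟨207203, 786551, 0, 764377, 0⟩ :=
  faceH_of (n := 60) (x1 := 777646) (y1 := 858297) (r0 := 62296) (r1 := 13008251)
    (by decide +kernel) (by decide +kernel)

private theorem x3_19_1 : FaceH ⟨207203, 786551, 0, 764377, 0⟩
    ⟨304425, 840506, 0, 764377, 0⟩ :=
  faceH_of (n := 60) (x1 := 858297) (y1 := 777646) (r0 := 84524) (r1 := 17649689)
    (by decide +kernel) (by decide +kernel)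

private theorem x3_19_2 : FaceV ⟨304425, 840506, 0, 764377, 0⟩
    ⟨207203, 786551, 0, 764377, 0⟩ :=
  faceV_of (n := 60) (x1 := 777646) (y1 := 858297) (r0 := 62296) (r1 := 13008251)
    (by decide +kernel) (by decide +kernel) (by decide +kernel)

private theorem x3_19_3 : FaceV ⟨207203, 786551, 0, 764377, 0⟩
    ⟨304425, 840506, 0, 764377, 0⟩ :=
  faceV_of (n := 60) (x1 := 858297) (y1 := 777646) (r0 := 84524) (r1 := 17649689)
    (by decide +kernel) (by decide +kernel) (by decide +kernel)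

private theorem x3_u19 : VD ⟨304425, 840506, 0, 764377, 0⟩ (11 / 20) (19 / 50) (199 / 500) :=
  ⟨by decide +kernel, by norm_num, by norm_num [R], cu_199_500, Or.inr cl_19_50⟩

private theorem x3_v19 : VD ⟨207203, 786551, 0, 764377, 0⟩ (67 / 100) (19 / 50) (77 / 200) :=
  ⟨by decide +kernel, by norm_num, by norm_num [R], cu_77_200, Or.inr cl_19_50⟩

private theorem x3_19 : Rgn ⟨304425, 840506, 0, 764377, 0⟩
    ⟨207203, 786551, 0, 764377, 0⟩ :=
  rgn_of x3_19_0 x3_19_1 (Or.inr x3_19_2) (Or.inr x3_19_3)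

private theorem x3_20_0 : FaceH ⟨262144, 840506, 0, 764377, 0⟩
    ⟨222425, 786551, 0, 764377, 0⟩ :=
  faceH_of (n := 60) (x1 := 812224) (y1 := 845390) (r0 := 63051) (r1 := 13427869)
    (by decide +kernel) (by decide +kernel)

private theorem x3_20_1 : FaceH ⟨222425, 786551, 0, 764377, 0⟩
    ⟨262144, 840506, 0, 764377, 0⟩ :=
  faceH_of (n := 60) (x1 := 845390) (y1 := 812224) (r0 := 81882) (r1 := 17438310)
    (by decide +kernel) (by decide +kernel)

private theorem x3_20_2 : FaceV ⟨262144, 840506, 0, 764377, 0⟩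
    ⟨222425, 786551, 0, 764377, 0⟩ :=
  faceV_of (n := 60) (x1 := 812224) (y1 := 845390) (r0 := 63051) (r1 := 13427869)
    (by decide +kernel) (by decide +kernel) (by decide +kernel)

private theorem x3_20_3 : FaceV ⟨222425, 786551, 0, 764377, 0⟩
    ⟨262144, 840506, 0, 764377, 0⟩ :=
  faceV_of (n := 60) (x1 := 845390) (y1 := 812224) (r0 := 81882) (r1 := 17438310)
    (by decide +kernel) (by decide +kernel) (by decide +kernel)

private theorem x3_u20 : VD ⟨262144, 840506, 0, 764377, 0⟩ (3 / 5) (19 / 50) (199 / 500) :=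
  ⟨by decide +kernel, by norm_num, by norm_num [R], cu_199_500, Or.inr cl_19_50⟩

private theorem x3_v20 : VD ⟨222425, 786551, 0, 764377, 0⟩ (13 / 20) (19 / 50) (77 / 200) :=
  ⟨by decide +kernel, by norm_num, by norm_num [R], cu_77_200, Or.inr cl_19_50⟩

private theorem x3_20 : Rgn ⟨262144, 840506, 0, 764377, 0⟩
    ⟨222425, 786551, 0, 764377, 0⟩ :=
  rgn_of x3_20_0 x3_20_1 (Or.inr x3_20_2) (Or.inr x3_20_3)

theorem flat_x3 {θ θ' : ℝ} {v w : ℂ} (h : T2.Pr θ θ' v w)
    (j : J3 (Real.tan θ ^ 2) (Real.tan θ' ^ 2)) (j' : J3 (Real.tan θ' ^ 2) (Real.tan θ ^ 2))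
    (t1 : Real.tan θ ^ 2 < 1) (t2 : Real.tan θ' ^ 2 < 1)
    (h1 : 19 / 50 ≤ v.re) (h2 : v.re ≤ 199 / 500) (h3 : 19 / 50 ≤ w.re) (h4 : w.re ≤ 77 / 200) :
    FlatM (1 / cos (Real.pi * v) ^ 2) (1 / cos (Real.pi * (starRingEnd ℂ) w) ^ 2) := by
  rcases j.c22 j' t1 t2 with (⟨a, b⟩ | ⟨a, b⟩ | ⟨a, b⟩ | ⟨a, b⟩ | ⟨a, b⟩ | ⟨a, b⟩ | ⟨a, b⟩ | ⟨a, b⟩ | ⟨a, b⟩ | ⟨a, b⟩) |
    (⟨a, b⟩ | ⟨a, b⟩ | ⟨a, b⟩ | ⟨a, b⟩ | ⟨a, b⟩ | ⟨a, b⟩ | ⟨a, b⟩ | ⟨a, b⟩ | ⟨a, b⟩ | ⟨a, b⟩) | ⟨a, b⟩
  · exact x3_0.flatM x3_u0 x3_v0 h a b t1 t2 h1 h2 h3 h4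
      (by norm_num) (by norm_num) (by norm_num) (by norm_num)
  · exact x3_1.flatM x3_u1 x3_v1 h a b t1 t2 h1 h2 h3 h4
      (by norm_num) (by norm_num) (by norm_num) (by norm_num)
  · exact x3_2.flatM x3_u2 x3_v2 h a b t1 t2 h1 h2 h3 h4
      (by norm_num) (by norm_num) (by norm_num) (by norm_num)
  · exact x3_6.flatM x3_u6 x3_v6 h a b t1 t2 h1 h2 h3 h4
      (by norm_num) (by norm_num) (by norm_num) (by norm_num)
  · exact x3_7.flatM x3_u7 x3_v7 h a b t1 t2 h1 h2 h3 h4
      (by norm_num) (by norm_num) (by norm_num) (by norm_num)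
  · exact x3_8.flatM x3_u8 x3_v8 h a b t1 t2 h1 h2 h3 h4
      (by norm_num) (by norm_num) (by norm_num) (by norm_num)
  · exact x3_9.flatM x3_u9 x3_v9 h a b t1 t2 h1 h2 h3 h4
      (by norm_num) (by norm_num) (by norm_num) (by norm_num)
  · exact x3_10.flatM x3_u10 x3_v10 h a b t1 t2 h1 h2 h3 h4
      (by norm_num) (by norm_num) (by norm_num) (by norm_num)
  · exact x3_11.flatM x3_u11 x3_v11 h a b t1 t2 h1 h2 h3 h4
      (by norm_num) (by norm_num) (by norm_num) (by norm_num)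
  · exact x3_12.flatM x3_u12 x3_v12 h a b t1 t2 h1 h2 h3 h4
      (by norm_num) (by norm_num) (by norm_num) (by norm_num)
  · exact x3_3.flatM x3_u3 x3_v3 h b a t1 t2 h1 h2 h3 h4
      (by norm_num) (by norm_num) (by norm_num) (by norm_num)
  · exact x3_4.flatM x3_u4 x3_v4 h b a t1 t2 h1 h2 h3 h4
      (by norm_num) (by norm_num) (by norm_num) (by norm_num)
  · exact x3_5.flatM x3_u5 x3_v5 h b a t1 t2 h1 h2 h3 h4
      (by norm_num) (by norm_num) (by norm_num) (by norm_num)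
  · exact x3_14.flatM x3_u14 x3_v14 h b a t1 t2 h1 h2 h3 h4
      (by norm_num) (by norm_num) (by norm_num) (by norm_num)
  · exact x3_15.flatM x3_u15 x3_v15 h b a t1 t2 h1 h2 h3 h4
      (by norm_num) (by norm_num) (by norm_num) (by norm_num)
  · exact x3_16.flatM x3_u16 x3_v16 h b a t1 t2 h1 h2 h3 h4
      (by norm_num) (by norm_num) (by norm_num) (by norm_num)
  · exact x3_17.flatM x3_u17 x3_v17 h b a t1 t2 h1 h2 h3 h4
      (by norm_num) (by norm_num) (by norm_num) (by norm_num)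
  · exact x3_18.flatM x3_u18 x3_v18 h b a t1 t2 h1 h2 h3 h4
      (by norm_num) (by norm_num) (by norm_num) (by norm_num)
  · exact x3_19.flatM x3_u19 x3_v19 h b a t1 t2 h1 h2 h3 h4
      (by norm_num) (by norm_num) (by norm_num) (by norm_num)
  · exact x3_20.flatM x3_u20 x3_v20 h b a t1 t2 h1 h2 h3 h4
      (by norm_num) (by norm_num) (by norm_num) (by norm_num)
  · exact x3_13.flatM x3_u13 x3_v13 h a b t1 t2 h1 h2 h3 h4
      (by norm_num) (by norm_num) (by norm_num) (by norm_num)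

end Pool.Agent.S3.Ck
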