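import Pool.Agent.S3.Ck.Cos
import Pool.Agent.S3.Ck.SoundG

/-!
# Flats: x4
-/

set_option autoImplicit false
set_option maxRecDepth 100000

namespace Pool.Agent.S3.Ck

open Complex

private theorem x4_0_0 : FaceH ⟨0, 848318, 0, 786546, 0⟩
    ⟨857925, 807944, 0, 786546, 0⟩ :=
  faceH_of (n := 60) (x1 := 1048576) (y1 := 331590) (r0 := 91026) (r1 := 18277065)
    (by decide +kernel) (by decide +kernel)

private theorem x4_0_1 : FaceH ⟨857925, 807944, 0, 786546, 0⟩
    ⟨0, 848318, 0, 786546, 0⟩ :=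
  faceH_of (n := 60) (x1 := 331590) (y1 := 1048576) (r0 := 60158) (r1 := 12079052)
    (by decide +kernel) (by decide +kernel)

private theorem x4_0_2 : FaceV ⟨0, 848318, 0, 786546, 0⟩
    ⟨857925, 807944, 0, 786546, 0⟩ :=
  faceV_of (n := 60) (x1 := 1048576) (y1 := 331590) (r0 := 91026) (r1 := 18277065)
    (by decide +kernel) (by decide +kernel) (by decide +kernel)

private theorem x4_0_3 : FaceV ⟨857925, 807944, 0, 786546, 0⟩
    ⟨0, 848318, 0, 786546, 0⟩ :=
  faceV_of (n := 60) (x1 := 331590) (y1 := 1048576) (r0 := 60158) (r1 := 12079052)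
    (by decide +kernel) (by decide +kernel) (by decide +kernel)

private theorem x4_u0 : VD ⟨0, 848318, 0, 786546, 0⟩ 1 (77 / 200) (2 / 5) :=
  ⟨by decide +kernel, by norm_num, by norm_num [R], cu_2_5, Or.inr cl_77_200⟩

private theorem x4_v0 : VD ⟨857925, 807944, 0, 786546, 0⟩ (1 / 10) (77 / 200) (39 / 100) :=
  ⟨by decide +kernel, by norm_num, by norm_num [R], cu_39_100, Or.inr cl_77_200⟩

private theorem x4_0 : Rgn ⟨0, 848318, 0, 786546, 0⟩
    ⟨857925, 807944, 0, 786546, 0⟩ :=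
  rgn_of x4_0_0 x4_0_1 (Or.inr x4_0_2) (Or.inr x4_0_3)

private theorem x4_1_0 : FaceH ⟨32430, 848318, 0, 786546, 0⟩
    ⟨699050, 807944, 0, 786546, 0⟩ :=
  faceH_of (n := 60) (x1 := 1016633) (y1 := 468938) (r0 := 83440) (r1 := 17728756)
    (by decide +kernel) (by decide +kernel)

private theorem x4_1_1 : FaceH ⟨699050, 807944, 0, 786546, 0⟩
    ⟨32430, 848318, 0, 786546, 0⟩ :=
  faceH_of (n := 60) (x1 := 468938) (y1 := 1016633) (r0 := 62018) (r1 := 13177147)
    (by decide +kernel) (by decide +kernel)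

private theorem x4_1_2 : FaceV ⟨32430, 848318, 0, 786546, 0⟩
    ⟨699050, 807944, 0, 786546, 0⟩ :=
  faceV_of (n := 60) (x1 := 1016633) (y1 := 468938) (r0 := 83440) (r1 := 17728756)
    (by decide +kernel) (by decide +kernel) (by decide +kernel)

private theorem x4_1_3 : FaceV ⟨699050, 807944, 0, 786546, 0⟩
    ⟨32430, 848318, 0, 786546, 0⟩ :=
  faceV_of (n := 60) (x1 := 468938) (y1 := 1016633) (r0 := 62018) (r1 := 13177147)
    (by decide +kernel) (by decide +kernel) (by decide +kernel)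

private theorem x4_u1 : VD ⟨32430, 848318, 0, 786546, 0⟩ (47 / 50) (77 / 200) (2 / 5) :=
  ⟨by decide +kernel, by norm_num, by norm_num [R], cu_2_5, Or.inr cl_77_200⟩

private theorem x4_v1 : VD ⟨699050, 807944, 0, 786546, 0⟩ (1 / 5) (77 / 200) (39 / 100) :=
  ⟨by decide +kernel, by norm_num, by norm_num [R], cu_39_100, Or.inr cl_77_200⟩

private theorem x4_1 : Rgn ⟨32430, 848318, 0, 786546, 0⟩
    ⟨699050, 807944, 0, 786546, 0⟩ :=
  rgn_of x4_1_0 x4_1_1 (Or.inr x4_1_2) (Or.inr x4_1_3)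

private theorem x4_2_0 : FaceH ⟨85019, 848318, 0, 786546, 0⟩
    ⟨629145, 807944, 0, 786546, 0⟩ :=
  faceH_of (n := 60) (x1 := 966740) (y1 := 524289) (r0 := 80103) (r1 := 16906295)
    (by decide +kernel) (by decide +kernel)

private theorem x4_2_1 : FaceH ⟨629145, 807944, 0, 786546, 0⟩
    ⟨85019, 848318, 0, 786546, 0⟩ :=
  faceH_of (n := 60) (x1 := 524289) (y1 := 966740) (r0 := 65035) (r1 := 13726194)
    (by decide +kernel) (by decide +kernel)

private theorem x4_2_2 : FaceV ⟨85019, 848318, 0, 786546, 0⟩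
    ⟨629145, 807944, 0, 786546, 0⟩ :=
  faceV_of (n := 60) (x1 := 966740) (y1 := 524289) (r0 := 80103) (r1 := 16906295)
    (by decide +kernel) (by decide +kernel) (by decide +kernel)

private theorem x4_2_3 : FaceV ⟨629145, 807944, 0, 786546, 0⟩
    ⟨85019, 848318, 0, 786546, 0⟩ :=
  faceV_of (n := 60) (x1 := 524289) (y1 := 966740) (r0 := 65035) (r1 := 13726194)
    (by decide +kernel) (by decide +kernel) (by decide +kernel)

private theorem x4_u2 : VD ⟨85019, 848318, 0, 786546, 0⟩ (17 / 20) (77 / 200) (2 / 5) :=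
  ⟨by decide +kernel, by norm_num, by norm_num [R], cu_2_5, Or.inr cl_77_200⟩

private theorem x4_v2 : VD ⟨629145, 807944, 0, 786546, 0⟩ (1 / 4) (77 / 200) (39 / 100) :=
  ⟨by decide +kernel, by norm_num, by norm_num [R], cu_39_100, Or.inr cl_77_200⟩

private theorem x4_2 : Rgn ⟨85019, 848318, 0, 786546, 0⟩
    ⟨629145, 807944, 0, 786546, 0⟩ :=
  rgn_of x4_2_0 x4_2_1 (Or.inr x4_2_2) (Or.inr x4_2_3)

private theorem x4_3_0 : FaceH ⟨857925, 848318, 0, 786546, 0⟩
    ⟨0, 807944, 0, 786546, 0⟩ :=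
  faceH_of (n := 60) (x1 := 331590) (y1 := 1048576) (r0 := 50064) (r1 := 10052390)
    (by decide +kernel) (by decide +kernel)

private theorem x4_3_1 : FaceH ⟨0, 807944, 0, 786546, 0⟩
    ⟨857925, 848318, 0, 786546, 0⟩ :=
  faceH_of (n := 60) (x1 := 1048576) (y1 := 331590) (r0 := 109378) (r1 := 21961902)
    (by decide +kernel) (by decide +kernel)

private theorem x4_3_2 : FaceV ⟨857925, 848318, 0, 786546, 0⟩
    ⟨0, 807944, 0, 786546, 0⟩ :=
  faceV_of (n := 60) (x1 := 331590) (y1 := 1048576) (r0 := 50064) (r1 := 10052390)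
    (by decide +kernel) (by decide +kernel) (by decide +kernel)

private theorem x4_3_3 : FaceV ⟨0, 807944, 0, 786546, 0⟩
    ⟨857925, 848318, 0, 786546, 0⟩ :=
  faceV_of (n := 60) (x1 := 1048576) (y1 := 331590) (r0 := 109378) (r1 := 21961902)
    (by decide +kernel) (by decide +kernel) (by decide +kernel)

private theorem x4_u3 : VD ⟨857925, 848318, 0, 786546, 0⟩ (1 / 10) (77 / 200) (2 / 5) :=
  ⟨by decide +kernel, by norm_num, by norm_num [R], cu_2_5, Or.inr cl_77_200⟩

private theorem x4_v3 : VD ⟨0, 807944, 0, 786546, 0⟩ 1 (77 / 200) (39 / 100) :=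
  ⟨by decide +kernel, by norm_num, by norm_num [R], cu_39_100, Or.inr cl_77_200⟩

private theorem x4_3 : Rgn ⟨857925, 848318, 0, 786546, 0⟩
    ⟨0, 807944, 0, 786546, 0⟩ :=
  rgn_of x4_3_0 x4_3_1 (Or.inr x4_3_2) (Or.inr x4_3_3)

private theorem x4_4_0 : FaceH ⟨699050, 848318, 0, 786546, 0⟩
    ⟨32430, 807944, 0, 786546, 0⟩ :=
  faceH_of (n := 60) (x1 := 468938) (y1 := 1016633) (r0 := 51612) (r1 := 10966243)
    (by decide +kernel) (by decide +kernel)

private theorem x4_4_1 : FaceH ⟨32430, 807944, 0, 786546, 0⟩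
    ⟨699050, 848318, 0, 786546, 0⟩ :=
  faceH_of (n := 60) (x1 := 1016633) (y1 := 468938) (r0 := 100263) (r1 := 21303049)
    (by decide +kernel) (by decide +kernel)

private theorem x4_4_2 : FaceV ⟨699050, 848318, 0, 786546, 0⟩
    ⟨32430, 807944, 0, 786546, 0⟩ :=
  faceV_of (n := 60) (x1 := 468938) (y1 := 1016633) (r0 := 51612) (r1 := 10966243)
    (by decide +kernel) (by decide +kernel) (by decide +kernel)

private theorem x4_4_3 : FaceV ⟨32430, 807944, 0, 786546, 0⟩
    ⟨699050, 848318, 0, 786546, 0⟩ :=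
  faceV_of (n := 60) (x1 := 1016633) (y1 := 468938) (r0 := 100263) (r1 := 21303049)
    (by decide +kernel) (by decide +kernel) (by decide +kernel)

private theorem x4_u4 : VD ⟨699050, 848318, 0, 786546, 0⟩ (1 / 5) (77 / 200) (2 / 5) :=
  ⟨by decide +kernel, by norm_num, by norm_num [R], cu_2_5, Or.inr cl_77_200⟩

private theorem x4_v4 : VD ⟨32430, 807944, 0, 786546, 0⟩ (47 / 50) (77 / 200) (39 / 100) :=
  ⟨by decide +kernel, by norm_num, by norm_num [R], cu_39_100, Or.inr cl_77_200⟩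

private theorem x4_4 : Rgn ⟨699050, 848318, 0, 786546, 0⟩
    ⟨32430, 807944, 0, 786546, 0⟩ :=
  rgn_of x4_4_0 x4_4_1 (Or.inr x4_4_2) (Or.inr x4_4_3)

private theorem x4_5_0 : FaceH ⟨629145, 848318, 0, 786546, 0⟩
    ⟨85019, 807944, 0, 786546, 0⟩ :=
  faceH_of (n := 60) (x1 := 524289) (y1 := 966740) (r0 := 54123) (r1 := 11423170)
    (by decide +kernel) (by decide +kernel)

private theorem x4_5_1 : FaceH ⟨85019, 807944, 0, 786546, 0⟩
    ⟨629145, 848318, 0, 786546, 0⟩ :=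
  faceH_of (n := 60) (x1 := 966740) (y1 := 524289) (r0 := 96252) (r1 := 20314772)
    (by decide +kernel) (by decide +kernel)

private theorem x4_5_2 : FaceV ⟨629145, 848318, 0, 786546, 0⟩
    ⟨85019, 807944, 0, 786546, 0⟩ :=
  faceV_of (n := 60) (x1 := 524289) (y1 := 966740) (r0 := 54123) (r1 := 11423170)
    (by decide +kernel) (by decide +kernel) (by decide +kernel)

private theorem x4_5_3 : FaceV ⟨85019, 807944, 0, 786546, 0⟩
    ⟨629145, 848318, 0, 786546, 0⟩ :=
  faceV_of (n := 60) (x1 := 966740) (y1 := 524289) (r0 := 96252) (r1 := 20314772)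
    (by decide +kernel) (by decide +kernel) (by decide +kernel)

private theorem x4_u5 : VD ⟨629145, 848318, 0, 786546, 0⟩ (1 / 4) (77 / 200) (2 / 5) :=
  ⟨by decide +kernel, by norm_num, by norm_num [R], cu_2_5, Or.inr cl_77_200⟩

private theorem x4_v5 : VD ⟨85019, 807944, 0, 786546, 0⟩ (17 / 20) (77 / 200) (39 / 100) :=
  ⟨by decide +kernel, by norm_num, by norm_num [R], cu_39_100, Or.inr cl_77_200⟩

private theorem x4_5 : Rgn ⟨629145, 848318, 0, 786546, 0⟩
    ⟨85019, 807944, 0, 786546, 0⟩ :=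
  rgn_of x4_5_0 x4_5_1 (Or.inr x4_5_2) (Or.inr x4_5_3)

private theorem x4_6_0 : FaceH ⟨110071, 848318, 0, 786546, 0⟩
    ⟨564617, 807944, 0, 786546, 0⟩ :=
  faceH_of (n := 60) (x1 := 943719) (y1 := 574330) (r0 := 77022) (r1 := 16540751)
    (by decide +kernel) (by decide +kernel)

private theorem x4_6_1 : FaceH ⟨564617, 807944, 0, 786546, 0⟩
    ⟨110071, 848318, 0, 786546, 0⟩ :=
  faceH_of (n := 60) (x1 := 574330) (y1 := 943719) (r0 := 66472) (r1 := 14275244)
    (by decide +kernel) (by decide +kernel)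

private theorem x4_6_2 : FaceV ⟨110071, 848318, 0, 786546, 0⟩
    ⟨564617, 807944, 0, 786546, 0⟩ :=
  faceV_of (n := 60) (x1 := 943719) (y1 := 574330) (r0 := 77022) (r1 := 16540751)
    (by decide +kernel) (by decide +kernel) (by decide +kernel)

private theorem x4_6_3 : FaceV ⟨564617, 807944, 0, 786546, 0⟩
    ⟨110071, 848318, 0, 786546, 0⟩ :=
  faceV_of (n := 60) (x1 := 574330) (y1 := 943719) (r0 := 66472) (r1 := 14275244)
    (by decide +kernel) (by decide +kernel) (by decide +kernel)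

private theorem x4_u6 : VD ⟨110071, 848318, 0, 786546, 0⟩ (81 / 100) (77 / 200) (2 / 5) :=
  ⟨by decide +kernel, by norm_num, by norm_num [R], cu_2_5, Or.inr cl_77_200⟩

private theorem x4_v6 : VD ⟨564617, 807944, 0, 786546, 0⟩ (3 / 10) (77 / 200) (39 / 100) :=
  ⟨by decide +kernel, by norm_num, by norm_num [R], cu_39_100, Or.inr cl_77_200⟩

private theorem x4_6 : Rgn ⟨110071, 848318, 0, 786546, 0⟩
    ⟨564617, 807944, 0, 786546, 0⟩ :=
  rgn_of x4_6_0 x4_6_1 (Or.inr x4_6_2) (Or.inr x4_6_3)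

private theorem x4_7_0 : FaceH ⟨132918, 848318, 0, 786546, 0⟩
    ⟨504869, 807944, 0, 786546, 0⟩ :=
  faceH_of (n := 60) (x1 := 923105) (y1 := 620347) (r0 := 74169) (r1 := 16220896)
    (by decide +kernel) (by decide +kernel)

private theorem x4_7_1 : FaceH ⟨504869, 807944, 0, 786546, 0⟩
    ⟨132918, 848318, 0, 786546, 0⟩ :=
  faceH_of (n := 60) (x1 := 620347) (y1 := 923105) (r0 := 67783) (r1 := 14824293)
    (by decide +kernel) (by decide +kernel)

private theorem x4_7_2 : FaceV ⟨132918, 848318, 0, 786546, 0⟩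
    ⟨504869, 807944, 0, 786546, 0⟩ :=
  faceV_of (n := 60) (x1 := 923105) (y1 := 620347) (r0 := 74169) (r1 := 16220896)
    (by decide +kernel) (by decide +kernel) (by decide +kernel)

private theorem x4_7_3 : FaceV ⟨504869, 807944, 0, 786546, 0⟩
    ⟨132918, 848318, 0, 786546, 0⟩ :=
  faceV_of (n := 60) (x1 := 620347) (y1 := 923105) (r0 := 67783) (r1 := 14824293)
    (by decide +kernel) (by decide +kernel) (by decide +kernel)

private theorem x4_u7 : VD ⟨132918, 848318, 0, 786546, 0⟩ (31 / 40) (77 / 200) (2 / 5) :=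
  ⟨by decide +kernel, by norm_num, by norm_num [R], cu_2_5, Or.inr cl_77_200⟩

private theorem x4_v7 : VD ⟨504869, 807944, 0, 786546, 0⟩ (7 / 20) (77 / 200) (39 / 100) :=
  ⟨by decide +kernel, by norm_num, by norm_num [R], cu_39_100, Or.inr cl_77_200⟩

private theorem x4_7 : Rgn ⟨132918, 848318, 0, 786546, 0⟩
    ⟨504869, 807944, 0, 786546, 0⟩ :=
  rgn_of x4_7_0 x4_7_1 (Or.inr x4_7_2) (Or.inr x4_7_3)

private theorem x4_8_0 : FaceH ⟨153230, 848318, 0, 786546, 0⟩
    ⟨449389, 807944, 0, 786546, 0⟩ :=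
  faceH_of (n := 60) (x1 := 905062) (y1 := 663179) (r0 := 71520) (r1 := 15946743)
    (by decide +kernel) (by decide +kernel)

private theorem x4_8_1 : FaceH ⟨449389, 807944, 0, 786546, 0⟩
    ⟨153230, 848318, 0, 786546, 0⟩ :=
  faceH_of (n := 60) (x1 := 663179) (y1 := 905062) (r0 := 68948) (r1 := 15373339)
    (by decide +kernel) (by decide +kernel)

private theorem x4_8_2 : FaceV ⟨153230, 848318, 0, 786546, 0⟩
    ⟨449389, 807944, 0, 786546, 0⟩ :=
  faceV_of (n := 60) (x1 := 905062) (y1 := 663179) (r0 := 71520) (r1 := 15946743)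
    (by decide +kernel) (by decide +kernel) (by decide +kernel)

private theorem x4_8_3 : FaceV ⟨449389, 807944, 0, 786546, 0⟩
    ⟨153230, 848318, 0, 786546, 0⟩ :=
  faceV_of (n := 60) (x1 := 663179) (y1 := 905062) (r0 := 68948) (r1 := 15373339)
    (by decide +kernel) (by decide +kernel) (by decide +kernel)

private theorem x4_u8 : VD ⟨153230, 848318, 0, 786546, 0⟩ (149 / 200) (77 / 200) (2 / 5) :=
  ⟨by decide +kernel, by norm_num, by norm_num [R], cu_2_5, Or.inr cl_77_200⟩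

private theorem x4_v8 : VD ⟨449389, 807944, 0, 786546, 0⟩ (2 / 5) (77 / 200) (39 / 100) :=
  ⟨by decide +kernel, by norm_num, by norm_num [R], cu_39_100, Or.inr cl_77_200⟩

private theorem x4_8 : Rgn ⟨153230, 848318, 0, 786546, 0⟩
    ⟨449389, 807944, 0, 786546, 0⟩ :=
  rgn_of x4_8_0 x4_8_1 (Or.inr x4_8_2) (Or.inr x4_8_3)

private theorem x4_9_0 : FaceH ⟨174253, 848318, 0, 786546, 0⟩
    ⟨397735, 807944, 0, 786546, 0⟩ :=
  faceH_of (n := 60) (x1 := 886652) (y1 := 703407) (r0 := 69054) (r1 := 15672585)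
    (by decide +kernel) (by decide +kernel)

private theorem x4_9_1 : FaceH ⟨397735, 807944, 0, 786546, 0⟩
    ⟨174253, 848318, 0, 786546, 0⟩ :=
  faceH_of (n := 60) (x1 := 703407) (y1 := 886652) (r0 := 70155) (r1 := 15922387)
    (by decide +kernel) (by decide +kernel)

private theorem x4_9_2 : FaceV ⟨174253, 848318, 0, 786546, 0⟩
    ⟨397735, 807944, 0, 786546, 0⟩ :=
  faceV_of (n := 60) (x1 := 886652) (y1 := 703407) (r0 := 69054) (r1 := 15672585)
    (by decide +kernel) (by decide +kernel) (by decide +kernel)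

private theorem x4_9_3 : FaceV ⟨397735, 807944, 0, 786546, 0⟩
    ⟨174253, 848318, 0, 786546, 0⟩ :=
  faceV_of (n := 60) (x1 := 703407) (y1 := 886652) (r0 := 70155) (r1 := 15922387)
    (by decide +kernel) (by decide +kernel) (by decide +kernel)

private theorem x4_u9 : VD ⟨174253, 848318, 0, 786546, 0⟩ (143 / 200) (77 / 200) (2 / 5) :=
  ⟨by decide +kernel, by norm_num, by norm_num [R], cu_2_5, Or.inr cl_77_200⟩

private theorem x4_v9 : VD ⟨397735, 807944, 0, 786546, 0⟩ (9 / 20) (77 / 200) (39 / 100) :=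
  ⟨by decide +kernel, by norm_num, by norm_num [R], cu_39_100, Or.inr cl_77_200⟩

private theorem x4_9 : Rgn ⟨174253, 848318, 0, 786546, 0⟩
    ⟨397735, 807944, 0, 786546, 0⟩ :=
  rgn_of x4_9_0 x4_9_1 (Or.inr x4_9_2) (Or.inr x4_9_3)

private theorem x4_10_0 : FaceH ⟨192342, 848318, 0, 786546, 0⟩
    ⟨349525, 807944, 0, 786546, 0⟩ :=
  faceH_of (n := 60) (x1 := 871013) (y1 := 741456) (r0 := 66752) (r1 := 15444124)
    (by decide +kernel) (by decide +kernel)

private theorem x4_10_1 : FaceH ⟨349525, 807944, 0, 786546, 0⟩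
    ⟨192342, 848318, 0, 786546, 0⟩ :=
  faceH_of (n := 60) (x1 := 741456) (y1 := 871013) (r0 := 71192) (r1 := 16471431)
    (by decide +kernel) (by decide +kernel)

private theorem x4_10_2 : FaceV ⟨192342, 848318, 0, 786546, 0⟩
    ⟨349525, 807944, 0, 786546, 0⟩ :=
  faceV_of (n := 60) (x1 := 871013) (y1 := 741456) (r0 := 66752) (r1 := 15444124)
    (by decide +kernel) (by decide +kernel) (by decide +kernel)

private theorem x4_10_3 : FaceV ⟨349525, 807944, 0, 786546, 0⟩
    ⟨192342, 848318, 0, 786546, 0⟩ :=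
  faceV_of (n := 60) (x1 := 741456) (y1 := 871013) (r0 := 71192) (r1 := 16471431)
    (by decide +kernel) (by decide +kernel) (by decide +kernel)

private theorem x4_u10 : VD ⟨192342, 848318, 0, 786546, 0⟩ (69 / 100) (77 / 200) (2 / 5) :=
  ⟨by decide +kernel, by norm_num, by norm_num [R], cu_2_5, Or.inr cl_77_200⟩

private theorem x4_v10 : VD ⟨349525, 807944, 0, 786546, 0⟩ (1 / 2) (77 / 200) (39 / 100) :=
  ⟨by decide +kernel, by norm_num, by norm_num [R], cu_39_100, Or.inr cl_77_200⟩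

private theorem x4_10 : Rgn ⟨192342, 848318, 0, 786546, 0⟩
    ⟨349525, 807944, 0, 786546, 0⟩ :=
  rgn_of x4_10_0 x4_10_1 (Or.inr x4_10_2) (Or.inr x4_10_3)

private theorem x4_11_0 : FaceH ⟨207203, 848318, 0, 786546, 0⟩
    ⟨304425, 807944, 0, 786546, 0⟩ :=
  faceH_of (n := 60) (x1 := 858297) (y1 := 777646) (r0 := 64599) (r1 := 15261357)
    (by decide +kernel) (by decide +kernel)

private theorem x4_11_1 : FaceH ⟨304425, 807944, 0, 786546, 0⟩
    ⟨207203, 848318, 0, 786546, 0⟩ :=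
  faceH_of (n := 60) (x1 := 777646) (y1 := 858297) (r0 := 72045) (r1 := 17020478)
    (by decide +kernel) (by decide +kernel)

private theorem x4_11_2 : FaceV ⟨207203, 848318, 0, 786546, 0⟩
    ⟨304425, 807944, 0, 786546, 0⟩ :=
  faceV_of (n := 60) (x1 := 858297) (y1 := 777646) (r0 := 64599) (r1 := 15261357)
    (by decide +kernel) (by decide +kernel) (by decide +kernel)

private theorem x4_11_3 : FaceV ⟨304425, 807944, 0, 786546, 0⟩
    ⟨207203, 848318, 0, 786546, 0⟩ :=
  faceV_of (n := 60) (x1 := 777646) (y1 := 858297) (r0 := 72045) (r1 := 17020478)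
    (by decide +kernel) (by decide +kernel) (by decide +kernel)

private theorem x4_u11 : VD ⟨207203, 848318, 0, 786546, 0⟩ (67 / 100) (77 / 200) (2 / 5) :=
  ⟨by decide +kernel, by norm_num, by norm_num [R], cu_2_5, Or.inr cl_77_200⟩

private theorem x4_v11 : VD ⟨304425, 807944, 0, 786546, 0⟩ (11 / 20) (77 / 200) (39 / 100) :=
  ⟨by decide +kernel, by norm_num, by norm_num [R], cu_39_100, Or.inr cl_77_200⟩

private theorem x4_11 : Rgn ⟨207203, 848318, 0, 786546, 0⟩
    ⟨304425, 807944, 0, 786546, 0⟩ :=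
  rgn_of x4_11_0 x4_11_1 (Or.inr x4_11_2) (Or.inr x4_11_3)

private theorem x4_12_0 : FaceH ⟨222425, 848318, 0, 786546, 0⟩
    ⟨262144, 807944, 0, 786546, 0⟩ :=
  faceH_of (n := 60) (x1 := 845390) (y1 := 812224) (r0 := 62580) (r1 := 15078581)
    (by decide +kernel) (by decide +kernel)

private theorem x4_12_1 : FaceH ⟨262144, 807944, 0, 786546, 0⟩
    ⟨222425, 848318, 0, 786546, 0⟩ :=
  faceH_of (n := 60) (x1 := 812224) (y1 := 845390) (r0 := 72918) (r1 := 17569522)
    (by decide +kernel) (by decide +kernel)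

private theorem x4_12_2 : FaceV ⟨222425, 848318, 0, 786546, 0⟩
    ⟨262144, 807944, 0, 786546, 0⟩ :=
  faceV_of (n := 60) (x1 := 845390) (y1 := 812224) (r0 := 62580) (r1 := 15078581)
    (by decide +kernel) (by decide +kernel) (by decide +kernel)

private theorem x4_12_3 : FaceV ⟨262144, 807944, 0, 786546, 0⟩
    ⟨222425, 848318, 0, 786546, 0⟩ :=
  faceV_of (n := 60) (x1 := 812224) (y1 := 845390) (r0 := 72918) (r1 := 17569522)
    (by decide +kernel) (by decide +kernel) (by decide +kernel)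

private theorem x4_u12 : VD ⟨222425, 848318, 0, 786546, 0⟩ (13 / 20) (77 / 200) (2 / 5) :=
  ⟨by decide +kernel, by norm_num, by norm_num [R], cu_2_5, Or.inr cl_77_200⟩

private theorem x4_v12 : VD ⟨262144, 807944, 0, 786546, 0⟩ (3 / 5) (77 / 200) (39 / 100) :=
  ⟨by decide +kernel, by norm_num, by norm_num [R], cu_39_100, Or.inr cl_77_200⟩

private theorem x4_12 : Rgn ⟨222425, 848318, 0, 786546, 0⟩
    ⟨262144, 807944, 0, 786546, 0⟩ :=
  rgn_of x4_12_0 x4_12_1 (Or.inr x4_12_2) (Or.inr x4_12_3)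

private theorem x4_13_0 : FaceH ⟨234085, 848318, 0, 786546, 0⟩
    ⟨234085, 807944, 0, 786546, 0⟩ :=
  faceH_of (n := 60) (x1 := 835579) (y1 := 835579) (r0 := 61240) (r1 := 14941509)
    (by decide +kernel) (by decide +kernel)

private theorem x4_13_1 : FaceH ⟨234085, 807944, 0, 786546, 0⟩
    ⟨234085, 848318, 0, 786546, 0⟩ :=
  faceH_of (n := 60) (x1 := 835579) (y1 := 835579) (r0 := 73587) (r1 := 17953866)
    (by decide +kernel) (by decide +kernel)

private theorem x4_13_2 : FaceV ⟨234085, 848318, 0, 786546, 0⟩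
    ⟨234085, 807944, 0, 786546, 0⟩ :=
  faceV_of (n := 60) (x1 := 835579) (y1 := 835579) (r0 := 61240) (r1 := 14941509)
    (by decide +kernel) (by decide +kernel) (by decide +kernel)

private theorem x4_13_3 : FaceV ⟨234085, 807944, 0, 786546, 0⟩
    ⟨234085, 848318, 0, 786546, 0⟩ :=
  faceV_of (n := 60) (x1 := 835579) (y1 := 835579) (r0 := 73587) (r1 := 17953866)
    (by decide +kernel) (by decide +kernel) (by decide +kernel)

private theorem x4_u13 : VD ⟨234085, 848318, 0, 786546, 0⟩ (127 / 200) (77 / 200) (2 / 5) :=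
  ⟨by decide +kernel, by norm_num, by norm_num [R], cu_2_5, Or.inr cl_77_200⟩

private theorem x4_v13 : VD ⟨234085, 807944, 0, 786546, 0⟩ (127 / 200) (77 / 200) (39 / 100) :=
  ⟨by decide +kernel, by norm_num, by norm_num [R], cu_39_100, Or.inr cl_77_200⟩

private theorem x4_13 : Rgn ⟨234085, 848318, 0, 786546, 0⟩
    ⟨234085, 807944, 0, 786546, 0⟩ :=
  rgn_of x4_13_0 x4_13_1 (Or.inr x4_13_2) (Or.inr x4_13_3)

private theorem x4_14_0 : FaceH ⟨564617, 848318, 0, 786546, 0⟩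
    ⟨110071, 807944, 0, 786546, 0⟩ :=
  faceH_of (n := 60) (x1 := 574330) (y1 := 943719) (r0 := 55319) (r1 := 11880098)
    (by decide +kernel) (by decide +kernel)

private theorem x4_14_1 : FaceH ⟨110071, 807944, 0, 786546, 0⟩
    ⟨564617, 848318, 0, 786546, 0⟩ :=
  faceH_of (n := 60) (x1 := 943719) (y1 := 574330) (r0 := 92550) (r1 := 19875530)
    (by decide +kernel) (by decide +kernel)

private theorem x4_14_2 : FaceV ⟨564617, 848318, 0, 786546, 0⟩
    ⟨110071, 807944, 0, 786546, 0⟩ :=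
  faceV_of (n := 60) (x1 := 574330) (y1 := 943719) (r0 := 55319) (r1 := 11880098)
    (by decide +kernel) (by decide +kernel) (by decide +kernel)

private theorem x4_14_3 : FaceV ⟨110071, 807944, 0, 786546, 0⟩
    ⟨564617, 848318, 0, 786546, 0⟩ :=
  faceV_of (n := 60) (x1 := 943719) (y1 := 574330) (r0 := 92550) (r1 := 19875530)
    (by decide +kernel) (by decide +kernel) (by decide +kernel)

private theorem x4_u14 : VD ⟨564617, 848318, 0, 786546, 0⟩ (3 / 10) (77 / 200) (2 / 5) :=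
  ⟨by decide +kernel, by norm_num, by norm_num [R], cu_2_5, Or.inr cl_77_200⟩

private theorem x4_v14 : VD ⟨110071, 807944, 0, 786546, 0⟩ (81 / 100) (77 / 200) (39 / 100) :=
  ⟨by decide +kernel, by norm_num, by norm_num [R], cu_39_100, Or.inr cl_77_200⟩

private theorem x4_14 : Rgn ⟨564617, 848318, 0, 786546, 0⟩
    ⟨110071, 807944, 0, 786546, 0⟩ :=
  rgn_of x4_14_0 x4_14_1 (Or.inr x4_14_2) (Or.inr x4_14_3)

private theorem x4_15_0 : FaceH ⟨504869, 848318, 0, 786546, 0⟩
    ⟨132918, 807944, 0, 786546, 0⟩ :=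
  faceH_of (n := 60) (x1 := 620347) (y1 := 923105) (r0 := 56410) (r1 := 12337026)
    (by decide +kernel) (by decide +kernel)

private theorem x4_15_1 : FaceH ⟨132918, 807944, 0, 786546, 0⟩
    ⟨504869, 848318, 0, 786546, 0⟩ :=
  faceH_of (n := 60) (x1 := 923105) (y1 := 620347) (r0 := 89122) (r1 := 19491190)
    (by decide +kernel) (by decide +kernel)

private theorem x4_15_2 : FaceV ⟨504869, 848318, 0, 786546, 0⟩
    ⟨132918, 807944, 0, 786546, 0⟩ :=
  faceV_of (n := 60) (x1 := 620347) (y1 := 923105) (r0 := 56410) (r1 := 12337026)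
    (by decide +kernel) (by decide +kernel) (by decide +kernel)

private theorem x4_15_3 : FaceV ⟨132918, 807944, 0, 786546, 0⟩
    ⟨504869, 848318, 0, 786546, 0⟩ :=
  faceV_of (n := 60) (x1 := 923105) (y1 := 620347) (r0 := 89122) (r1 := 19491190)
    (by decide +kernel) (by decide +kernel) (by decide +kernel)

private theorem x4_u15 : VD ⟨504869, 848318, 0, 786546, 0⟩ (7 / 20) (77 / 200) (2 / 5) :=
  ⟨by decide +kernel, by norm_num, by norm_num [R], cu_2_5, Or.inr cl_77_200⟩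

private theorem x4_v15 : VD ⟨132918, 807944, 0, 786546, 0⟩ (31 / 40) (77 / 200) (39 / 100) :=
  ⟨by decide +kernel, by norm_num, by norm_num [R], cu_39_100, Or.inr cl_77_200⟩

private theorem x4_15 : Rgn ⟨504869, 848318, 0, 786546, 0⟩
    ⟨132918, 807944, 0, 786546, 0⟩ :=
  rgn_of x4_15_0 x4_15_1 (Or.inr x4_15_2) (Or.inr x4_15_3)

private theorem x4_16_0 : FaceH ⟨449389, 848318, 0, 786546, 0⟩
    ⟨153230, 807944, 0, 786546, 0⟩ :=
  faceH_of (n := 60) (x1 := 663179) (y1 := 905062) (r0 := 57380) (r1 := 12793952)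
    (by decide +kernel) (by decide +kernel)

private theorem x4_16_1 : FaceH ⟨153230, 807944, 0, 786546, 0⟩
    ⟨449389, 848318, 0, 786546, 0⟩ :=
  faceH_of (n := 60) (x1 := 905062) (y1 := 663179) (r0 := 85939) (r1 := 19161765)
    (by decide +kernel) (by decide +kernel)

private theorem x4_16_2 : FaceV ⟨449389, 848318, 0, 786546, 0⟩
    ⟨153230, 807944, 0, 786546, 0⟩ :=
  faceV_of (n := 60) (x1 := 663179) (y1 := 905062) (r0 := 57380) (r1 := 12793952)
    (by decide +kernel) (by decide +kernel) (by decide +kernel)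

private theorem x4_16_3 : FaceV ⟨153230, 807944, 0, 786546, 0⟩
    ⟨449389, 848318, 0, 786546, 0⟩ :=
  faceV_of (n := 60) (x1 := 905062) (y1 := 663179) (r0 := 85939) (r1 := 19161765)
    (by decide +kernel) (by decide +kernel) (by decide +kernel)

private theorem x4_u16 : VD ⟨449389, 848318, 0, 786546, 0⟩ (2 / 5) (77 / 200) (2 / 5) :=
  ⟨by decide +kernel, by norm_num, by norm_num [R], cu_2_5, Or.inr cl_77_200⟩

private theorem x4_v16 : VD ⟨153230, 807944, 0, 786546, 0⟩ (149 / 200) (77 / 200) (39 / 100) :=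
  ⟨by decide +kernel, by norm_num, by norm_num [R], cu_39_100, Or.inr cl_77_200⟩

private theorem x4_16 : Rgn ⟨449389, 848318, 0, 786546, 0⟩
    ⟨153230, 807944, 0, 786546, 0⟩ :=
  rgn_of x4_16_0 x4_16_1 (Or.inr x4_16_2) (Or.inr x4_16_3)

private theorem x4_17_0 : FaceH ⟨397735, 848318, 0, 786546, 0⟩
    ⟨174253, 807944, 0, 786546, 0⟩ :=
  faceH_of (n := 60) (x1 := 703407) (y1 := 886652) (r0 := 58384) (r1 := 13250879)
    (by decide +kernel) (by decide +kernel)

private theorem x4_17_1 : FaceH ⟨174253, 807944, 0, 786546, 0⟩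
    ⟨397735, 848318, 0, 786546, 0⟩ :=
  faceH_of (n := 60) (x1 := 886652) (y1 := 703407) (r0 := 82976) (r1 := 18832334)
    (by decide +kernel) (by decide +kernel)

private theorem x4_17_2 : FaceV ⟨397735, 848318, 0, 786546, 0⟩
    ⟨174253, 807944, 0, 786546, 0⟩ :=
  faceV_of (n := 60) (x1 := 703407) (y1 := 886652) (r0 := 58384) (r1 := 13250879)
    (by decide +kernel) (by decide +kernel) (by decide +kernel)

private theorem x4_17_3 : FaceV ⟨174253, 807944, 0, 786546, 0⟩
    ⟨397735, 848318, 0, 786546, 0⟩ :=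
  faceV_of (n := 60) (x1 := 886652) (y1 := 703407) (r0 := 82976) (r1 := 18832334)
    (by decide +kernel) (by decide +kernel) (by decide +kernel)

private theorem x4_u17 : VD ⟨397735, 848318, 0, 786546, 0⟩ (9 / 20) (77 / 200) (2 / 5) :=
  ⟨by decide +kernel, by norm_num, by norm_num [R], cu_2_5, Or.inr cl_77_200⟩

private theorem x4_v17 : VD ⟨174253, 807944, 0, 786546, 0⟩ (143 / 200) (77 / 200) (39 / 100) :=
  ⟨by decide +kernel, by norm_num, by norm_num [R], cu_39_100, Or.inr cl_77_200⟩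

private theorem x4_17 : Rgn ⟨397735, 848318, 0, 786546, 0⟩
    ⟨174253, 807944, 0, 786546, 0⟩ :=
  rgn_of x4_17_0 x4_17_1 (Or.inr x4_17_2) (Or.inr x4_17_3)

private theorem x4_18_0 : FaceH ⟨349525, 848318, 0, 786546, 0⟩
    ⟨192342, 807944, 0, 786546, 0⟩ :=
  faceH_of (n := 60) (x1 := 741456) (y1 := 871013) (r0 := 59247) (r1 := 13707802)
    (by decide +kernel) (by decide +kernel)

private theorem x4_18_1 : FaceH ⟨192342, 807944, 0, 786546, 0⟩
    ⟨349525, 848318, 0, 786546, 0⟩ :=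
  faceH_of (n := 60) (x1 := 871013) (y1 := 741456) (r0 := 80210) (r1 := 18557813)
    (by decide +kernel) (by decide +kernel)

private theorem x4_18_2 : FaceV ⟨349525, 848318, 0, 786546, 0⟩
    ⟨192342, 807944, 0, 786546, 0⟩ :=
  faceV_of (n := 60) (x1 := 741456) (y1 := 871013) (r0 := 59247) (r1 := 13707802)
    (by decide +kernel) (by decide +kernel) (by decide +kernel)

private theorem x4_18_3 : FaceV ⟨192342, 807944, 0, 786546, 0⟩
    ⟨349525, 848318, 0, 786546, 0⟩ :=
  faceV_of (n := 60) (x1 := 871013) (y1 := 741456) (r0 := 80210) (r1 := 18557813)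
    (by decide +kernel) (by decide +kernel) (by decide +kernel)

private theorem x4_u18 : VD ⟨349525, 848318, 0, 786546, 0⟩ (1 / 2) (77 / 200) (2 / 5) :=
  ⟨by decide +kernel, by norm_num, by norm_num [R], cu_2_5, Or.inr cl_77_200⟩

private theorem x4_v18 : VD ⟨192342, 807944, 0, 786546, 0⟩ (69 / 100) (77 / 200) (39 / 100) :=
  ⟨by decide +kernel, by norm_num, by norm_num [R], cu_39_100, Or.inr cl_77_200⟩

private theorem x4_18 : Rgn ⟨349525, 848318, 0, 786546, 0⟩
    ⟨192342, 807944, 0, 786546, 0⟩ :=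
  rgn_of x4_18_0 x4_18_1 (Or.inr x4_18_2) (Or.inr x4_18_3)

private theorem x4_19_0 : FaceH ⟨304425, 848318, 0, 786546, 0⟩
    ⟨207203, 807944, 0, 786546, 0⟩ :=
  faceH_of (n := 60) (x1 := 777646) (y1 := 858297) (r0 := 59957) (r1 := 14164728)
    (by decide +kernel) (by decide +kernel)

private theorem x4_19_1 : FaceH ⟨207203, 807944, 0, 786546, 0⟩
    ⟨304425, 848318, 0, 786546, 0⟩ :=
  faceH_of (n := 60) (x1 := 858297) (y1 := 777646) (r0 := 77623) (r1 := 18338198)
    (by decide +kernel) (by decide +kernel)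

private theorem x4_19_2 : FaceV ⟨304425, 848318, 0, 786546, 0⟩
    ⟨207203, 807944, 0, 786546, 0⟩ :=
  faceV_of (n := 60) (x1 := 777646) (y1 := 858297) (r0 := 59957) (r1 := 14164728)
    (by decide +kernel) (by decide +kernel) (by decide +kernel)

private theorem x4_19_3 : FaceV ⟨207203, 807944, 0, 786546, 0⟩
    ⟨304425, 848318, 0, 786546, 0⟩ :=
  faceV_of (n := 60) (x1 := 858297) (y1 := 777646) (r0 := 77623) (r1 := 18338198)
    (by decide +kernel) (by decide +kernel) (by decide +kernel)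

private theorem x4_u19 : VD ⟨304425, 848318, 0, 786546, 0⟩ (11 / 20) (77 / 200) (2 / 5) :=
  ⟨by decide +kernel, by norm_num, by norm_num [R], cu_2_5, Or.inr cl_77_200⟩

private theorem x4_v19 : VD ⟨207203, 807944, 0, 786546, 0⟩ (67 / 100) (77 / 200) (39 / 100) :=
  ⟨by decide +kernel, by norm_num, by norm_num [R], cu_39_100, Or.inr cl_77_200⟩

private theorem x4_19 : Rgn ⟨304425, 848318, 0, 786546, 0⟩
    ⟨207203, 807944, 0, 786546, 0⟩ :=
  rgn_of x4_19_0 x4_19_1 (Or.inr x4_19_2) (Or.inr x4_19_3)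

private theorem x4_20_0 : FaceH ⟨262144, 848318, 0, 786546, 0⟩
    ⟨222425, 807944, 0, 786546, 0⟩ :=
  faceH_of (n := 60) (x1 := 812224) (y1 := 845390) (r0 := 60684) (r1 := 14621652)
    (by decide +kernel) (by decide +kernel)

private theorem x4_20_1 : FaceH ⟨222425, 807944, 0, 786546, 0⟩
    ⟨262144, 848318, 0, 786546, 0⟩ :=
  faceH_of (n := 60) (x1 := 845390) (y1 := 812224) (r0 := 75197) (r1 := 18118572)
    (by decide +kernel) (by decide +kernel)

private theorem x4_20_2 : FaceV ⟨262144, 848318, 0, 786546, 0⟩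
    ⟨222425, 807944, 0, 786546, 0⟩ :=
  faceV_of (n := 60) (x1 := 812224) (y1 := 845390) (r0 := 60684) (r1 := 14621652)
    (by decide +kernel) (by decide +kernel) (by decide +kernel)

private theorem x4_20_3 : FaceV ⟨222425, 807944, 0, 786546, 0⟩
    ⟨262144, 848318, 0, 786546, 0⟩ :=
  faceV_of (n := 60) (x1 := 845390) (y1 := 812224) (r0 := 75197) (r1 := 18118572)
    (by decide +kernel) (by decide +kernel) (by decide +kernel)

private theorem x4_u20 : VD ⟨262144, 848318, 0, 786546, 0⟩ (3 / 5) (77 / 200) (2 / 5) :=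
  ⟨by decide +kernel, by norm_num, by norm_num [R], cu_2_5, Or.inr cl_77_200⟩

private theorem x4_v20 : VD ⟨222425, 807944, 0, 786546, 0⟩ (13 / 20) (77 / 200) (39 / 100) :=
  ⟨by decide +kernel, by norm_num, by norm_num [R], cu_39_100, Or.inr cl_77_200⟩

private theorem x4_20 : Rgn ⟨262144, 848318, 0, 786546, 0⟩
    ⟨222425, 807944, 0, 786546, 0⟩ :=
  rgn_of x4_20_0 x4_20_1 (Or.inr x4_20_2) (Or.inr x4_20_3)

theorem flat_x4 {θ θ' : ℝ} {v w : ℂ} (h : T2.Pr θ θ' v w)
    (j : J3 (Real.tan θ ^ 2) (Real.tan θ' ^ 2)) (j' : J3 (Real.tan θ' ^ 2) (Real.tan θ ^ 2))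
    (t1 : Real.tan θ ^ 2 < 1) (t2 : Real.tan θ' ^ 2 < 1)
    (h1 : 77 / 200 ≤ v.re) (h2 : v.re ≤ 2 / 5) (h3 : 77 / 200 ≤ w.re) (h4 : w.re ≤ 39 / 100) :
    FlatM (1 / cos (Real.pi * v) ^ 2) (1 / cos (Real.pi * (starRingEnd ℂ) w) ^ 2) := by
  rcases j.c22 j' t1 t2 with (⟨a, b⟩ | ⟨a, b⟩ | ⟨a, b⟩ | ⟨a, b⟩ | ⟨a, b⟩ | ⟨a, b⟩ | ⟨a, b⟩ | ⟨a, b⟩ | ⟨a, b⟩ | ⟨a, b⟩) |
    (⟨a, b⟩ | ⟨a, b⟩ | ⟨a, b⟩ | ⟨a, b⟩ | ⟨a, b⟩ | ⟨a, b⟩ | ⟨a, b⟩ | ⟨a, b⟩ | ⟨a, b⟩ | ⟨a, b⟩) | ⟨a, b⟩
  · exact x4_0.flatM x4_u0 x4_v0 h a b t1 t2 h1 h2 h3 h4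
      (by norm_num) (by norm_num) (by norm_num) (by norm_num)
  · exact x4_1.flatM x4_u1 x4_v1 h a b t1 t2 h1 h2 h3 h4
      (by norm_num) (by norm_num) (by norm_num) (by norm_num)
  · exact x4_2.flatM x4_u2 x4_v2 h a b t1 t2 h1 h2 h3 h4
      (by norm_num) (by norm_num) (by norm_num) (by norm_num)
  · exact x4_6.flatM x4_u6 x4_v6 h a b t1 t2 h1 h2 h3 h4
      (by norm_num) (by norm_num) (by norm_num) (by norm_num)
  · exact x4_7.flatM x4_u7 x4_v7 h a b t1 t2 h1 h2 h3 h4
      (by norm_num) (by norm_num) (by norm_num) (by norm_num)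
  · exact x4_8.flatM x4_u8 x4_v8 h a b t1 t2 h1 h2 h3 h4
      (by norm_num) (by norm_num) (by norm_num) (by norm_num)
  · exact x4_9.flatM x4_u9 x4_v9 h a b t1 t2 h1 h2 h3 h4
      (by norm_num) (by norm_num) (by norm_num) (by norm_num)
  · exact x4_10.flatM x4_u10 x4_v10 h a b t1 t2 h1 h2 h3 h4
      (by norm_num) (by norm_num) (by norm_num) (by norm_num)
  · exact x4_11.flatM x4_u11 x4_v11 h a b t1 t2 h1 h2 h3 h4
      (by norm_num) (by norm_num) (by norm_num) (by norm_num)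
  · exact x4_12.flatM x4_u12 x4_v12 h a b t1 t2 h1 h2 h3 h4
      (by norm_num) (by norm_num) (by norm_num) (by norm_num)
  · exact x4_3.flatM x4_u3 x4_v3 h b a t1 t2 h1 h2 h3 h4
      (by norm_num) (by norm_num) (by norm_num) (by norm_num)
  · exact x4_4.flatM x4_u4 x4_v4 h b a t1 t2 h1 h2 h3 h4
      (by norm_num) (by norm_num) (by norm_num) (by norm_num)
  · exact x4_5.flatM x4_u5 x4_v5 h b a t1 t2 h1 h2 h3 h4
      (by norm_num) (by norm_num) (by norm_num) (by norm_num)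
  · exact x4_14.flatM x4_u14 x4_v14 h b a t1 t2 h1 h2 h3 h4
      (by norm_num) (by norm_num) (by norm_num) (by norm_num)
  · exact x4_15.flatM x4_u15 x4_v15 h b a t1 t2 h1 h2 h3 h4
      (by norm_num) (by norm_num) (by norm_num) (by norm_num)
  · exact x4_16.flatM x4_u16 x4_v16 h b a t1 t2 h1 h2 h3 h4
      (by norm_num) (by norm_num) (by norm_num) (by norm_num)
  · exact x4_17.flatM x4_u17 x4_v17 h b a t1 t2 h1 h2 h3 h4
      (by norm_num) (by norm_num) (by norm_num) (by norm_num)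
  · exact x4_18.flatM x4_u18 x4_v18 h b a t1 t2 h1 h2 h3 h4
      (by norm_num) (by norm_num) (by norm_num) (by norm_num)
  · exact x4_19.flatM x4_u19 x4_v19 h b a t1 t2 h1 h2 h3 h4
      (by norm_num) (by norm_num) (by norm_num) (by norm_num)
  · exact x4_20.flatM x4_u20 x4_v20 h b a t1 t2 h1 h2 h3 h4
      (by norm_num) (by norm_num) (by norm_num) (by norm_num)
  · exact x4_13.flatM x4_u13 x4_v13 h a b t1 t2 h1 h2 h3 h4
      (by norm_num) (by norm_num) (by norm_num) (by norm_num)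

end Pool.Agent.S3.Ck
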