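import Pool.Agent.S3.Ck.Cos
import Pool.Agent.S3.Ck.CosX
import Pool.Agent.S3.Ck.SoundG

/-!
# Flats: x5
-/

set_option autoImplicit false
set_option maxRecDepth 100000

namespace Pool.Agent.S3.Ck

open Complex

private theorem x5_0_0 : FaceH ⟨0, 589390, 0, 324025, 0⟩
    ⟨857925, 446464, 0, 324025, 0⟩ :=
  faceH_of (n := 60) (x1 := 1048576) (y1 := 331590) (r0 := 208720) (r1 := 7304367)
    (by decide +kernel) (by decide +kernel)

private theorem x5_0_1 : FaceH ⟨857925, 446464, 0, 324025, 0⟩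
    ⟨0, 589390, 0, 324025, 0⟩ :=
  faceH_of (n := 60) (x1 := 331590) (y1 := 1048576) (r0 := 150528) (r1 := 5267858)
    (by decide +kernel) (by decide +kernel)

private theorem x5_0_2 : FaceV ⟨0, 589390, 0, 324025, 0⟩
    ⟨857925, 446464, 0, 324025, 0⟩ :=
  faceV_of (n := 60) (x1 := 1048576) (y1 := 331590) (r0 := 208720) (r1 := 7304367)
    (by decide +kernel) (by decide +kernel) (by decide +kernel)

private theorem x5_0_3 : FaceV ⟨857925, 446464, 0, 324025, 0⟩
    ⟨0, 589390, 0, 324025, 0⟩ :=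
  faceV_of (n := 60) (x1 := 331590) (y1 := 1048576) (r0 := 150528) (r1 := 5267858)
    (by decide +kernel) (by decide +kernel) (by decide +kernel)

private theorem x5_u0 : VD ⟨0, 589390, 0, 324025, 0⟩ 1 (3 / 10) (69 / 200) :=
  ⟨by decide +kernel, by norm_num, by norm_num [R], cu_69_200, Or.inr cl_3_10⟩

private theorem x5_v0 : VD ⟨857925, 446464, 0, 324025, 0⟩ (1 / 10) (3 / 10) (8 / 25) :=
  ⟨by decide +kernel, by norm_num, by norm_num [R], cu_8_25, Or.inr cl_3_10⟩

private theorem x5_0 : Rgn ⟨0, 589390, 0, 324025, 0⟩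
    ⟨857925, 446464, 0, 324025, 0⟩ :=
  rgn_of x5_0_0 x5_0_1 (Or.inr x5_0_2) (Or.inr x5_0_3)

private theorem x5_1_0 : FaceH ⟨32430, 589390, 0, 324025, 0⟩
    ⟨699050, 446464, 0, 324025, 0⟩ :=
  faceH_of (n := 60) (x1 := 1016633) (y1 := 468938) (r0 := 191327) (r1 := 7085237)
    (by decide +kernel) (by decide +kernel)

private theorem x5_1_1 : FaceH ⟨699050, 446464, 0, 324025, 0⟩
    ⟨32430, 589390, 0, 324025, 0⟩ :=
  faceH_of (n := 60) (x1 := 468938) (y1 := 1016633) (r0 := 155183) (r1 := 5746754)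
    (by decide +kernel) (by decide +kernel)

private theorem x5_1_2 : FaceV ⟨32430, 589390, 0, 324025, 0⟩
    ⟨699050, 446464, 0, 324025, 0⟩ :=
  faceV_of (n := 60) (x1 := 1016633) (y1 := 468938) (r0 := 191327) (r1 := 7085237)
    (by decide +kernel) (by decide +kernel) (by decide +kernel)

private theorem x5_1_3 : FaceV ⟨699050, 446464, 0, 324025, 0⟩
    ⟨32430, 589390, 0, 324025, 0⟩ :=
  faceV_of (n := 60) (x1 := 468938) (y1 := 1016633) (r0 := 155183) (r1 := 5746754)
    (by decide +kernel) (by decide +kernel) (by decide +kernel)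

private theorem x5_u1 : VD ⟨32430, 589390, 0, 324025, 0⟩ (47 / 50) (3 / 10) (69 / 200) :=
  ⟨by decide +kernel, by norm_num, by norm_num [R], cu_69_200, Or.inr cl_3_10⟩

private theorem x5_v1 : VD ⟨699050, 446464, 0, 324025, 0⟩ (1 / 5) (3 / 10) (8 / 25) :=
  ⟨by decide +kernel, by norm_num, by norm_num [R], cu_8_25, Or.inr cl_3_10⟩

private theorem x5_1 : Rgn ⟨32430, 589390, 0, 324025, 0⟩
    ⟨699050, 446464, 0, 324025, 0⟩ :=
  rgn_of x5_1_0 x5_1_1 (Or.inr x5_1_2) (Or.inr x5_1_3)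

private theorem x5_2_0 : FaceH ⟨85019, 589390, 0, 324025, 0⟩
    ⟨629145, 446464, 0, 324025, 0⟩ :=
  faceH_of (n := 60) (x1 := 966740) (y1 := 524289) (r0 := 183674) (r1 := 6756543)
    (by decide +kernel) (by decide +kernel)

private theorem x5_2_1 : FaceH ⟨629145, 446464, 0, 324025, 0⟩
    ⟨85019, 589390, 0, 324025, 0⟩ :=
  faceH_of (n := 60) (x1 := 524289) (y1 := 966740) (r0 := 162732) (r1 := 5986202)
    (by decide +kernel) (by decide +kernel)

private theorem x5_2_2 : FaceV ⟨85019, 589390, 0, 324025, 0⟩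
    ⟨629145, 446464, 0, 324025, 0⟩ :=
  faceV_of (n := 60) (x1 := 966740) (y1 := 524289) (r0 := 183674) (r1 := 6756543)
    (by decide +kernel) (by decide +kernel) (by decide +kernel)

private theorem x5_2_3 : FaceV ⟨629145, 446464, 0, 324025, 0⟩
    ⟨85019, 589390, 0, 324025, 0⟩ :=
  faceV_of (n := 60) (x1 := 524289) (y1 := 966740) (r0 := 162732) (r1 := 5986202)
    (by decide +kernel) (by decide +kernel) (by decide +kernel)

private theorem x5_u2 : VD ⟨85019, 589390, 0, 324025, 0⟩ (17 / 20) (3 / 10) (69 / 200) :=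
  ⟨by decide +kernel, by norm_num, by norm_num [R], cu_69_200, Or.inr cl_3_10⟩

private theorem x5_v2 : VD ⟨629145, 446464, 0, 324025, 0⟩ (1 / 4) (3 / 10) (8 / 25) :=
  ⟨by decide +kernel, by norm_num, by norm_num [R], cu_8_25, Or.inr cl_3_10⟩

private theorem x5_2 : Rgn ⟨85019, 589390, 0, 324025, 0⟩
    ⟨629145, 446464, 0, 324025, 0⟩ :=
  rgn_of x5_2_0 x5_2_1 (Or.inr x5_2_2) (Or.inr x5_2_3)

private theorem x5_3_0 : FaceH ⟨857925, 589390, 0, 324025, 0⟩
    ⟨0, 446464, 0, 324025, 0⟩ :=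
  faceH_of (n := 60) (x1 := 331590) (y1 := 1048576) (r0 := 114796) (r1 := 4017404)
    (by decide +kernel) (by decide +kernel)

private theorem x5_3_1 : FaceH ⟨0, 446464, 0, 324025, 0⟩
    ⟨857925, 589390, 0, 324025, 0⟩ :=
  faceH_of (n := 60) (x1 := 1048576) (y1 := 331590) (r0 := 273687) (r1 := 9577920)
    (by decide +kernel) (by decide +kernel)

private theorem x5_3_2 : FaceV ⟨857925, 589390, 0, 324025, 0⟩
    ⟨0, 446464, 0, 324025, 0⟩ :=
  faceV_of (n := 60) (x1 := 331590) (y1 := 1048576) (r0 := 114796) (r1 := 4017404)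
    (by decide +kernel) (by decide +kernel) (by decide +kernel)

private theorem x5_3_3 : FaceV ⟨0, 446464, 0, 324025, 0⟩
    ⟨857925, 589390, 0, 324025, 0⟩ :=
  faceV_of (n := 60) (x1 := 1048576) (y1 := 331590) (r0 := 273687) (r1 := 9577920)
    (by decide +kernel) (by decide +kernel) (by decide +kernel)

private theorem x5_u3 : VD ⟨857925, 589390, 0, 324025, 0⟩ (1 / 10) (3 / 10) (69 / 200) :=
  ⟨by decide +kernel, by norm_num, by norm_num [R], cu_69_200, Or.inr cl_3_10⟩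

private theorem x5_v3 : VD ⟨0, 446464, 0, 324025, 0⟩ 1 (3 / 10) (8 / 25) :=
  ⟨by decide +kernel, by norm_num, by norm_num [R], cu_8_25, Or.inr cl_3_10⟩

private theorem x5_3 : Rgn ⟨857925, 589390, 0, 324025, 0⟩
    ⟨0, 446464, 0, 324025, 0⟩ :=
  rgn_of x5_3_0 x5_3_1 (Or.inr x5_3_2) (Or.inr x5_3_3)

private theorem x5_4_0 : FaceH ⟨699050, 589390, 0, 324025, 0⟩
    ⟨32430, 446464, 0, 324025, 0⟩ :=
  faceH_of (n := 60) (x1 := 468938) (y1 := 1016633) (r0 := 118346) (r1 := 4382622)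
    (by decide +kernel) (by decide +kernel)

private theorem x5_4_1 : FaceH ⟨32430, 446464, 0, 324025, 0⟩
    ⟨699050, 589390, 0, 324025, 0⟩ :=
  faceH_of (n := 60) (x1 := 1016633) (y1 := 468938) (r0 := 250879) (r1 := 9290584)
    (by decide +kernel) (by decide +kernel)

private theorem x5_4_2 : FaceV ⟨699050, 589390, 0, 324025, 0⟩
    ⟨32430, 446464, 0, 324025, 0⟩ :=
  faceV_of (n := 60) (x1 := 468938) (y1 := 1016633) (r0 := 118346) (r1 := 4382622)
    (by decide +kernel) (by decide +kernel) (by decide +kernel)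

private theorem x5_4_3 : FaceV ⟨32430, 446464, 0, 324025, 0⟩
    ⟨699050, 589390, 0, 324025, 0⟩ :=
  faceV_of (n := 60) (x1 := 1016633) (y1 := 468938) (r0 := 250879) (r1 := 9290584)
    (by decide +kernel) (by decide +kernel) (by decide +kernel)

private theorem x5_u4 : VD ⟨699050, 589390, 0, 324025, 0⟩ (1 / 5) (3 / 10) (69 / 200) :=
  ⟨by decide +kernel, by norm_num, by norm_num [R], cu_69_200, Or.inr cl_3_10⟩

private theorem x5_v4 : VD ⟨32430, 446464, 0, 324025, 0⟩ (47 / 50) (3 / 10) (8 / 25) :=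
  ⟨by decide +kernel, by norm_num, by norm_num [R], cu_8_25, Or.inr cl_3_10⟩

private theorem x5_4 : Rgn ⟨699050, 589390, 0, 324025, 0⟩
    ⟨32430, 446464, 0, 324025, 0⟩ :=
  rgn_of x5_4_0 x5_4_1 (Or.inr x5_4_2) (Or.inr x5_4_3)

private theorem x5_5_0 : FaceH ⟨629145, 589390, 0, 324025, 0⟩
    ⟨85019, 446464, 0, 324025, 0⟩ :=
  faceH_of (n := 60) (x1 := 524289) (y1 := 966740) (r0 := 124104) (r1 := 4565231)
    (by decide +kernel) (by decide +kernel)

private theorem x5_5_1 : FaceH ⟨85019, 446464, 0, 324025, 0⟩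
    ⟨629145, 589390, 0, 324025, 0⟩ :=
  faceH_of (n := 60) (x1 := 966740) (y1 := 524289) (r0 := 240844) (r1 := 8859581)
    (by decide +kernel) (by decide +kernel)

private theorem x5_5_2 : FaceV ⟨629145, 589390, 0, 324025, 0⟩
    ⟨85019, 446464, 0, 324025, 0⟩ :=
  faceV_of (n := 60) (x1 := 524289) (y1 := 966740) (r0 := 124104) (r1 := 4565231)
    (by decide +kernel) (by decide +kernel) (by decide +kernel)

private theorem x5_5_3 : FaceV ⟨85019, 446464, 0, 324025, 0⟩
    ⟨629145, 589390, 0, 324025, 0⟩ :=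
  faceV_of (n := 60) (x1 := 966740) (y1 := 524289) (r0 := 240844) (r1 := 8859581)
    (by decide +kernel) (by decide +kernel) (by decide +kernel)

private theorem x5_u5 : VD ⟨629145, 589390, 0, 324025, 0⟩ (1 / 4) (3 / 10) (69 / 200) :=
  ⟨by decide +kernel, by norm_num, by norm_num [R], cu_69_200, Or.inr cl_3_10⟩

private theorem x5_v5 : VD ⟨85019, 446464, 0, 324025, 0⟩ (17 / 20) (3 / 10) (8 / 25) :=
  ⟨by decide +kernel, by norm_num, by norm_num [R], cu_8_25, Or.inr cl_3_10⟩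

private theorem x5_5 : Rgn ⟨629145, 589390, 0, 324025, 0⟩
    ⟨85019, 446464, 0, 324025, 0⟩ :=
  rgn_of x5_5_0 x5_5_1 (Or.inr x5_5_2) (Or.inr x5_5_3)

private theorem x5_6_0 : FaceH ⟨110071, 589390, 0, 324025, 0⟩
    ⟨564617, 446464, 0, 324025, 0⟩ :=
  faceH_of (n := 60) (x1 := 943719) (y1 := 574330) (r0 := 176609) (r1 := 6610455)
    (by decide +kernel) (by decide +kernel)

private theorem x5_6_1 : FaceH ⟨564617, 446464, 0, 324025, 0⟩
    ⟨110071, 589390, 0, 324025, 0⟩ :=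
  faceH_of (n := 60) (x1 := 574330) (y1 := 943719) (r0 := 166329) (r1 := 6225651)
    (by decide +kernel) (by decide +kernel)

private theorem x5_6_2 : FaceV ⟨110071, 589390, 0, 324025, 0⟩
    ⟨564617, 446464, 0, 324025, 0⟩ :=
  faceV_of (n := 60) (x1 := 943719) (y1 := 574330) (r0 := 176609) (r1 := 6610455)
    (by decide +kernel) (by decide +kernel) (by decide +kernel)

private theorem x5_6_3 : FaceV ⟨564617, 446464, 0, 324025, 0⟩
    ⟨110071, 589390, 0, 324025, 0⟩ :=
  faceV_of (n := 60) (x1 := 574330) (y1 := 943719) (r0 := 166329) (r1 := 6225651)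
    (by decide +kernel) (by decide +kernel) (by decide +kernel)

private theorem x5_u6 : VD ⟨110071, 589390, 0, 324025, 0⟩ (81 / 100) (3 / 10) (69 / 200) :=
  ⟨by decide +kernel, by norm_num, by norm_num [R], cu_69_200, Or.inr cl_3_10⟩

private theorem x5_v6 : VD ⟨564617, 446464, 0, 324025, 0⟩ (3 / 10) (3 / 10) (8 / 25) :=
  ⟨by decide +kernel, by norm_num, by norm_num [R], cu_8_25, Or.inr cl_3_10⟩

private theorem x5_6 : Rgn ⟨110071, 589390, 0, 324025, 0⟩
    ⟨564617, 446464, 0, 324025, 0⟩ :=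
  rgn_of x5_6_0 x5_6_1 (Or.inr x5_6_2) (Or.inr x5_6_3)

private theorem x5_7_0 : FaceH ⟨132918, 589390, 0, 324025, 0⟩
    ⟨504869, 446464, 0, 324025, 0⟩ :=
  faceH_of (n := 60) (x1 := 923105) (y1 := 620347) (r0 := 170068) (r1 := 6482626)
    (by decide +kernel) (by decide +kernel)

private theorem x5_7_1 : FaceH ⟨504869, 446464, 0, 324025, 0⟩
    ⟨132918, 589390, 0, 324025, 0⟩ :=
  faceH_of (n := 60) (x1 := 620347) (y1 := 923105) (r0 := 169609) (r1 := 6465100)
    (by decide +kernel) (by decide +kernel)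

private theorem x5_7_2 : FaceV ⟨132918, 589390, 0, 324025, 0⟩
    ⟨504869, 446464, 0, 324025, 0⟩ :=
  faceV_of (n := 60) (x1 := 923105) (y1 := 620347) (r0 := 170068) (r1 := 6482626)
    (by decide +kernel) (by decide +kernel) (by decide +kernel)

private theorem x5_7_3 : FaceV ⟨504869, 446464, 0, 324025, 0⟩
    ⟨132918, 589390, 0, 324025, 0⟩ :=
  faceV_of (n := 60) (x1 := 620347) (y1 := 923105) (r0 := 169609) (r1 := 6465100)
    (by decide +kernel) (by decide +kernel) (by decide +kernel)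

private theorem x5_u7 : VD ⟨132918, 589390, 0, 324025, 0⟩ (31 / 40) (3 / 10) (69 / 200) :=
  ⟨by decide +kernel, by norm_num, by norm_num [R], cu_69_200, Or.inr cl_3_10⟩

private theorem x5_v7 : VD ⟨504869, 446464, 0, 324025, 0⟩ (7 / 20) (3 / 10) (8 / 25) :=
  ⟨by decide +kernel, by norm_num, by norm_num [R], cu_8_25, Or.inr cl_3_10⟩

private theorem x5_7 : Rgn ⟨132918, 589390, 0, 324025, 0⟩
    ⟨504869, 446464, 0, 324025, 0⟩ :=
  rgn_of x5_7_0 x5_7_1 (Or.inr x5_7_2) (Or.inr x5_7_3)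

private theorem x5_8_0 : FaceH ⟨153230, 589390, 0, 324025, 0⟩
    ⟨449389, 446464, 0, 324025, 0⟩ :=
  faceH_of (n := 60) (x1 := 905062) (y1 := 663179) (r0 := 163994) (r1 := 6373062)
    (by decide +kernel) (by decide +kernel)

private theorem x5_8_1 : FaceH ⟨449389, 446464, 0, 324025, 0⟩
    ⟨153230, 589390, 0, 324025, 0⟩ :=
  faceH_of (n := 60) (x1 := 663179) (y1 := 905062) (r0 := 172524) (r1 := 6704547)
    (by decide +kernel) (by decide +kernel)

private theorem x5_8_2 : FaceV ⟨153230, 589390, 0, 324025, 0⟩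
    ⟨449389, 446464, 0, 324025, 0⟩ :=
  faceV_of (n := 60) (x1 := 905062) (y1 := 663179) (r0 := 163994) (r1 := 6373062)
    (by decide +kernel) (by decide +kernel) (by decide +kernel)

private theorem x5_8_3 : FaceV ⟨449389, 446464, 0, 324025, 0⟩
    ⟨153230, 589390, 0, 324025, 0⟩ :=
  faceV_of (n := 60) (x1 := 663179) (y1 := 905062) (r0 := 172524) (r1 := 6704547)
    (by decide +kernel) (by decide +kernel) (by decide +kernel)

private theorem x5_u8 : VD ⟨153230, 589390, 0, 324025, 0⟩ (149 / 200) (3 / 10) (69 / 200) :=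
  ⟨by decide +kernel, by norm_num, by norm_num [R], cu_69_200, Or.inr cl_3_10⟩

private theorem x5_v8 : VD ⟨449389, 446464, 0, 324025, 0⟩ (2 / 5) (3 / 10) (8 / 25) :=
  ⟨by decide +kernel, by norm_num, by norm_num [R], cu_8_25, Or.inr cl_3_10⟩

private theorem x5_8 : Rgn ⟨153230, 589390, 0, 324025, 0⟩
    ⟨449389, 446464, 0, 324025, 0⟩ :=
  rgn_of x5_8_0 x5_8_1 (Or.inr x5_8_2) (Or.inr x5_8_3)

private theorem x5_9_0 : FaceH ⟨174253, 589390, 0, 324025, 0⟩
    ⟨397735, 446464, 0, 324025, 0⟩ :=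
  faceH_of (n := 60) (x1 := 886652) (y1 := 703407) (r0 := 158339) (r1 := 6263495)
    (by decide +kernel) (by decide +kernel)

private theorem x5_9_1 : FaceH ⟨397735, 446464, 0, 324025, 0⟩
    ⟨174253, 589390, 0, 324025, 0⟩ :=
  faceH_of (n := 60) (x1 := 703407) (y1 := 886652) (r0 := 175542) (r1 := 6943996)
    (by decide +kernel) (by decide +kernel)

private theorem x5_9_2 : FaceV ⟨174253, 589390, 0, 324025, 0⟩
    ⟨397735, 446464, 0, 324025, 0⟩ :=
  faceV_of (n := 60) (x1 := 886652) (y1 := 703407) (r0 := 158339) (r1 := 6263495)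
    (by decide +kernel) (by decide +kernel) (by decide +kernel)

private theorem x5_9_3 : FaceV ⟨397735, 446464, 0, 324025, 0⟩
    ⟨174253, 589390, 0, 324025, 0⟩ :=
  faceV_of (n := 60) (x1 := 703407) (y1 := 886652) (r0 := 175542) (r1 := 6943996)
    (by decide +kernel) (by decide +kernel) (by decide +kernel)

private theorem x5_u9 : VD ⟨174253, 589390, 0, 324025, 0⟩ (143 / 200) (3 / 10) (69 / 200) :=
  ⟨by decide +kernel, by norm_num, by norm_num [R], cu_69_200, Or.inr cl_3_10⟩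

private theorem x5_v9 : VD ⟨397735, 446464, 0, 324025, 0⟩ (9 / 20) (3 / 10) (8 / 25) :=
  ⟨by decide +kernel, by norm_num, by norm_num [R], cu_8_25, Or.inr cl_3_10⟩

private theorem x5_9 : Rgn ⟨174253, 589390, 0, 324025, 0⟩
    ⟨397735, 446464, 0, 324025, 0⟩ :=
  rgn_of x5_9_0 x5_9_1 (Or.inr x5_9_2) (Or.inr x5_9_3)

private theorem x5_10_0 : FaceH ⟨192342, 589390, 0, 324025, 0⟩
    ⟨349525, 446464, 0, 324025, 0⟩ :=
  faceH_of (n := 60) (x1 := 871013) (y1 := 741456) (r0 := 153061) (r1 := 6172192)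
    (by decide +kernel) (by decide +kernel)

private theorem x5_10_1 : FaceH ⟨349525, 446464, 0, 324025, 0⟩
    ⟨192342, 589390, 0, 324025, 0⟩ :=
  faceH_of (n := 60) (x1 := 741456) (y1 := 871013) (r0 := 178139) (r1 := 7183442)
    (by decide +kernel) (by decide +kernel)

private theorem x5_10_2 : FaceV ⟨192342, 589390, 0, 324025, 0⟩
    ⟨349525, 446464, 0, 324025, 0⟩ :=
  faceV_of (n := 60) (x1 := 871013) (y1 := 741456) (r0 := 153061) (r1 := 6172192)
    (by decide +kernel) (by decide +kernel) (by decide +kernel)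

private theorem x5_10_3 : FaceV ⟨349525, 446464, 0, 324025, 0⟩
    ⟨192342, 589390, 0, 324025, 0⟩ :=
  faceV_of (n := 60) (x1 := 741456) (y1 := 871013) (r0 := 178139) (r1 := 7183442)
    (by decide +kernel) (by decide +kernel) (by decide +kernel)

private theorem x5_u10 : VD ⟨192342, 589390, 0, 324025, 0⟩ (69 / 100) (3 / 10) (69 / 200) :=
  ⟨by decide +kernel, by norm_num, by norm_num [R], cu_69_200, Or.inr cl_3_10⟩

private theorem x5_v10 : VD ⟨349525, 446464, 0, 324025, 0⟩ (1 / 2) (3 / 10) (8 / 25) :=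
  ⟨by decide +kernel, by norm_num, by norm_num [R], cu_8_25, Or.inr cl_3_10⟩

private theorem x5_10 : Rgn ⟨192342, 589390, 0, 324025, 0⟩
    ⟨349525, 446464, 0, 324025, 0⟩ :=
  rgn_of x5_10_0 x5_10_1 (Or.inr x5_10_2) (Or.inr x5_10_3)

private theorem x5_11_0 : FaceH ⟨207203, 589390, 0, 324025, 0⟩
    ⟨304425, 446464, 0, 324025, 0⟩ :=
  faceH_of (n := 60) (x1 := 858297) (y1 := 777646) (r0 := 148124) (r1 := 6099149)
    (by decide +kernel) (by decide +kernel)

private theorem x5_11_1 : FaceH ⟨304425, 446464, 0, 324025, 0⟩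
    ⟨207203, 589390, 0, 324025, 0⟩ :=
  faceH_of (n := 60) (x1 := 777646) (y1 := 858297) (r0 := 180272) (r1 := 7422890)
    (by decide +kernel) (by decide +kernel)

private theorem x5_11_2 : FaceV ⟨207203, 589390, 0, 324025, 0⟩
    ⟨304425, 446464, 0, 324025, 0⟩ :=
  faceV_of (n := 60) (x1 := 858297) (y1 := 777646) (r0 := 148124) (r1 := 6099149)
    (by decide +kernel) (by decide +kernel) (by decide +kernel)

private theorem x5_11_3 : FaceV ⟨304425, 446464, 0, 324025, 0⟩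
    ⟨207203, 589390, 0, 324025, 0⟩ :=
  faceV_of (n := 60) (x1 := 777646) (y1 := 858297) (r0 := 180272) (r1 := 7422890)
    (by decide +kernel) (by decide +kernel) (by decide +kernel)

private theorem x5_u11 : VD ⟨207203, 589390, 0, 324025, 0⟩ (67 / 100) (3 / 10) (69 / 200) :=
  ⟨by decide +kernel, by norm_num, by norm_num [R], cu_69_200, Or.inr cl_3_10⟩

private theorem x5_v11 : VD ⟨304425, 446464, 0, 324025, 0⟩ (11 / 20) (3 / 10) (8 / 25) :=
  ⟨by decide +kernel, by norm_num, by norm_num [R], cu_8_25, Or.inr cl_3_10⟩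

private theorem x5_11 : Rgn ⟨207203, 589390, 0, 324025, 0⟩
    ⟨304425, 446464, 0, 324025, 0⟩ :=
  rgn_of x5_11_0 x5_11_1 (Or.inr x5_11_2) (Or.inr x5_11_3)

private theorem x5_12_0 : FaceH ⟨222425, 589390, 0, 324025, 0⟩
    ⟨262144, 446464, 0, 324025, 0⟩ :=
  faceH_of (n := 60) (x1 := 845390) (y1 := 812224) (r0 := 143495) (r1 := 6026104)
    (by decide +kernel) (by decide +kernel)

private theorem x5_12_1 : FaceH ⟨262144, 446464, 0, 324025, 0⟩
    ⟨222425, 589390, 0, 324025, 0⟩ :=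
  faceH_of (n := 60) (x1 := 812224) (y1 := 845390) (r0 := 182458) (r1 := 7662336)
    (by decide +kernel) (by decide +kernel)

private theorem x5_12_2 : FaceV ⟨222425, 589390, 0, 324025, 0⟩
    ⟨262144, 446464, 0, 324025, 0⟩ :=
  faceV_of (n := 60) (x1 := 845390) (y1 := 812224) (r0 := 143495) (r1 := 6026104)
    (by decide +kernel) (by decide +kernel) (by decide +kernel)

private theorem x5_12_3 : FaceV ⟨262144, 446464, 0, 324025, 0⟩
    ⟨222425, 589390, 0, 324025, 0⟩ :=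
  faceV_of (n := 60) (x1 := 812224) (y1 := 845390) (r0 := 182458) (r1 := 7662336)
    (by decide +kernel) (by decide +kernel) (by decide +kernel)

private theorem x5_u12 : VD ⟨222425, 589390, 0, 324025, 0⟩ (13 / 20) (3 / 10) (69 / 200) :=
  ⟨by decide +kernel, by norm_num, by norm_num [R], cu_69_200, Or.inr cl_3_10⟩

private theorem x5_v12 : VD ⟨262144, 446464, 0, 324025, 0⟩ (3 / 5) (3 / 10) (8 / 25) :=
  ⟨by decide +kernel, by norm_num, by norm_num [R], cu_8_25, Or.inr cl_3_10⟩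

private theorem x5_12 : Rgn ⟨222425, 589390, 0, 324025, 0⟩
    ⟨262144, 446464, 0, 324025, 0⟩ :=
  rgn_of x5_12_0 x5_12_1 (Or.inr x5_12_2) (Or.inr x5_12_3)

private theorem x5_13_0 : FaceH ⟨234085, 589390, 0, 324025, 0⟩
    ⟨234085, 446464, 0, 324025, 0⟩ :=
  faceH_of (n := 60) (x1 := 835579) (y1 := 835579) (r0 := 140423) (r1 := 5971323)
    (by decide +kernel) (by decide +kernel)

private theorem x5_13_1 : FaceH ⟨234085, 446464, 0, 324025, 0⟩
    ⟨234085, 589390, 0, 324025, 0⟩ :=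
  faceH_of (n := 60) (x1 := 835579) (y1 := 835579) (r0 := 184131) (r1 := 7829954)
    (by decide +kernel) (by decide +kernel)

private theorem x5_13_2 : FaceV ⟨234085, 589390, 0, 324025, 0⟩
    ⟨234085, 446464, 0, 324025, 0⟩ :=
  faceV_of (n := 60) (x1 := 835579) (y1 := 835579) (r0 := 140423) (r1 := 5971323)
    (by decide +kernel) (by decide +kernel) (by decide +kernel)

private theorem x5_13_3 : FaceV ⟨234085, 446464, 0, 324025, 0⟩
    ⟨234085, 589390, 0, 324025, 0⟩ :=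
  faceV_of (n := 60) (x1 := 835579) (y1 := 835579) (r0 := 184131) (r1 := 7829954)
    (by decide +kernel) (by decide +kernel) (by decide +kernel)

private theorem x5_u13 : VD ⟨234085, 589390, 0, 324025, 0⟩ (127 / 200) (3 / 10) (69 / 200) :=
  ⟨by decide +kernel, by norm_num, by norm_num [R], cu_69_200, Or.inr cl_3_10⟩

private theorem x5_v13 : VD ⟨234085, 446464, 0, 324025, 0⟩ (127 / 200) (3 / 10) (8 / 25) :=
  ⟨by decide +kernel, by norm_num, by norm_num [R], cu_8_25, Or.inr cl_3_10⟩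

private theorem x5_13 : Rgn ⟨234085, 589390, 0, 324025, 0⟩
    ⟨234085, 446464, 0, 324025, 0⟩ :=
  rgn_of x5_13_0 x5_13_1 (Or.inr x5_13_2) (Or.inr x5_13_3)

private theorem x5_14_0 : FaceH ⟨564617, 589390, 0, 324025, 0⟩
    ⟨110071, 446464, 0, 324025, 0⟩ :=
  faceH_of (n := 60) (x1 := 574330) (y1 := 943719) (r0 := 126846) (r1 := 4747841)
    (by decide +kernel) (by decide +kernel)

private theorem x5_14_1 : FaceH ⟨110071, 446464, 0, 324025, 0⟩
    ⟨564617, 589390, 0, 324025, 0⟩ :=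
  faceH_of (n := 60) (x1 := 943719) (y1 := 574330) (r0 := 231581) (r1 := 8668021)
    (by decide +kernel) (by decide +kernel)

private theorem x5_14_2 : FaceV ⟨564617, 589390, 0, 324025, 0⟩
    ⟨110071, 446464, 0, 324025, 0⟩ :=
  faceV_of (n := 60) (x1 := 574330) (y1 := 943719) (r0 := 126846) (r1 := 4747841)
    (by decide +kernel) (by decide +kernel) (by decide +kernel)

private theorem x5_14_3 : FaceV ⟨110071, 446464, 0, 324025, 0⟩
    ⟨564617, 589390, 0, 324025, 0⟩ :=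
  faceV_of (n := 60) (x1 := 943719) (y1 := 574330) (r0 := 231581) (r1 := 8668021)
    (by decide +kernel) (by decide +kernel) (by decide +kernel)

private theorem x5_u14 : VD ⟨564617, 589390, 0, 324025, 0⟩ (3 / 10) (3 / 10) (69 / 200) :=
  ⟨by decide +kernel, by norm_num, by norm_num [R], cu_69_200, Or.inr cl_3_10⟩

private theorem x5_v14 : VD ⟨110071, 446464, 0, 324025, 0⟩ (81 / 100) (3 / 10) (8 / 25) :=
  ⟨by decide +kernel, by norm_num, by norm_num [R], cu_8_25, Or.inr cl_3_10⟩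

private theorem x5_14 : Rgn ⟨564617, 589390, 0, 324025, 0⟩
    ⟨110071, 446464, 0, 324025, 0⟩ :=
  rgn_of x5_14_0 x5_14_1 (Or.inr x5_14_2) (Or.inr x5_14_3)

private theorem x5_15_0 : FaceH ⟨504869, 589390, 0, 324025, 0⟩
    ⟨132918, 446464, 0, 324025, 0⟩ :=
  faceH_of (n := 60) (x1 := 620347) (y1 := 923105) (r0 := 129348) (r1 := 4930451)
    (by decide +kernel) (by decide +kernel)

private theorem x5_15_1 : FaceH ⟨132918, 446464, 0, 324025, 0⟩
    ⟨504869, 589390, 0, 324025, 0⟩ :=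
  faceH_of (n := 60) (x1 := 923105) (y1 := 620347) (r0 := 223004) (r1 := 8500405)
    (by decide +kernel) (by decide +kernel)

private theorem x5_15_2 : FaceV ⟨504869, 589390, 0, 324025, 0⟩
    ⟨132918, 446464, 0, 324025, 0⟩ :=
  faceV_of (n := 60) (x1 := 620347) (y1 := 923105) (r0 := 129348) (r1 := 4930451)
    (by decide +kernel) (by decide +kernel) (by decide +kernel)

private theorem x5_15_3 : FaceV ⟨132918, 446464, 0, 324025, 0⟩
    ⟨504869, 589390, 0, 324025, 0⟩ :=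
  faceV_of (n := 60) (x1 := 923105) (y1 := 620347) (r0 := 223004) (r1 := 8500405)
    (by decide +kernel) (by decide +kernel) (by decide +kernel)

private theorem x5_u15 : VD ⟨504869, 589390, 0, 324025, 0⟩ (7 / 20) (3 / 10) (69 / 200) :=
  ⟨by decide +kernel, by norm_num, by norm_num [R], cu_69_200, Or.inr cl_3_10⟩

private theorem x5_v15 : VD ⟨132918, 446464, 0, 324025, 0⟩ (31 / 40) (3 / 10) (8 / 25) :=
  ⟨by decide +kernel, by norm_num, by norm_num [R], cu_8_25, Or.inr cl_3_10⟩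

private theorem x5_15 : Rgn ⟨504869, 589390, 0, 324025, 0⟩
    ⟨132918, 446464, 0, 324025, 0⟩ :=
  rgn_of x5_15_0 x5_15_1 (Or.inr x5_15_2) (Or.inr x5_15_3)

private theorem x5_16_0 : FaceH ⟨449389, 589390, 0, 324025, 0⟩
    ⟨153230, 446464, 0, 324025, 0⟩ :=
  faceH_of (n := 60) (x1 := 663179) (y1 := 905062) (r0 := 131571) (r1 := 5113059)
    (by decide +kernel) (by decide +kernel)

private theorem x5_16_1 : FaceH ⟨153230, 446464, 0, 324025, 0⟩
    ⟨449389, 589390, 0, 324025, 0⟩ :=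
  faceH_of (n := 60) (x1 := 905062) (y1 := 663179) (r0 := 215039) (r1 := 8356737)
    (by decide +kernel) (by decide +kernel)

private theorem x5_16_2 : FaceV ⟨449389, 589390, 0, 324025, 0⟩
    ⟨153230, 446464, 0, 324025, 0⟩ :=
  faceV_of (n := 60) (x1 := 663179) (y1 := 905062) (r0 := 131571) (r1 := 5113059)
    (by decide +kernel) (by decide +kernel) (by decide +kernel)

private theorem x5_16_3 : FaceV ⟨153230, 446464, 0, 324025, 0⟩
    ⟨449389, 589390, 0, 324025, 0⟩ :=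
  faceV_of (n := 60) (x1 := 905062) (y1 := 663179) (r0 := 215039) (r1 := 8356737)
    (by decide +kernel) (by decide +kernel) (by decide +kernel)

private theorem x5_u16 : VD ⟨449389, 589390, 0, 324025, 0⟩ (2 / 5) (3 / 10) (69 / 200) :=
  ⟨by decide +kernel, by norm_num, by norm_num [R], cu_69_200, Or.inr cl_3_10⟩

private theorem x5_v16 : VD ⟨153230, 446464, 0, 324025, 0⟩ (149 / 200) (3 / 10) (8 / 25) :=
  ⟨by decide +kernel, by norm_num, by norm_num [R], cu_8_25, Or.inr cl_3_10⟩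

private theorem x5_16 : Rgn ⟨449389, 589390, 0, 324025, 0⟩
    ⟨153230, 446464, 0, 324025, 0⟩ :=
  rgn_of x5_16_0 x5_16_1 (Or.inr x5_16_2) (Or.inr x5_16_3)

private theorem x5_17_0 : FaceH ⟨397735, 589390, 0, 324025, 0⟩
    ⟨174253, 446464, 0, 324025, 0⟩ :=
  faceH_of (n := 60) (x1 := 703407) (y1 := 886652) (r0 := 133873) (r1 := 5295669)
    (by decide +kernel) (by decide +kernel)

private theorem x5_17_1 : FaceH ⟨174253, 446464, 0, 324025, 0⟩
    ⟨397735, 589390, 0, 324025, 0⟩ :=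
  faceH_of (n := 60) (x1 := 886652) (y1 := 703407) (r0 := 207624) (r1 := 8213067)
    (by decide +kernel) (by decide +kernel)

private theorem x5_17_2 : FaceV ⟨397735, 589390, 0, 324025, 0⟩
    ⟨174253, 446464, 0, 324025, 0⟩ :=
  faceV_of (n := 60) (x1 := 703407) (y1 := 886652) (r0 := 133873) (r1 := 5295669)
    (by decide +kernel) (by decide +kernel) (by decide +kernel)

private theorem x5_17_3 : FaceV ⟨174253, 446464, 0, 324025, 0⟩
    ⟨397735, 589390, 0, 324025, 0⟩ :=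
  faceV_of (n := 60) (x1 := 886652) (y1 := 703407) (r0 := 207624) (r1 := 8213067)
    (by decide +kernel) (by decide +kernel) (by decide +kernel)

private theorem x5_u17 : VD ⟨397735, 589390, 0, 324025, 0⟩ (9 / 20) (3 / 10) (69 / 200) :=
  ⟨by decide +kernel, by norm_num, by norm_num [R], cu_69_200, Or.inr cl_3_10⟩

private theorem x5_v17 : VD ⟨174253, 446464, 0, 324025, 0⟩ (143 / 200) (3 / 10) (8 / 25) :=
  ⟨by decide +kernel, by norm_num, by norm_num [R], cu_8_25, Or.inr cl_3_10⟩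

private theorem x5_17 : Rgn ⟨397735, 589390, 0, 324025, 0⟩
    ⟨174253, 446464, 0, 324025, 0⟩ :=
  rgn_of x5_17_0 x5_17_1 (Or.inr x5_17_2) (Or.inr x5_17_3)

private theorem x5_18_0 : FaceH ⟨349525, 589390, 0, 324025, 0⟩
    ⟨192342, 446464, 0, 324025, 0⟩ :=
  faceH_of (n := 60) (x1 := 741456) (y1 := 871013) (r0 := 135853) (r1 := 5478276)
    (by decide +kernel) (by decide +kernel)

private theorem x5_18_1 : FaceH ⟨192342, 446464, 0, 324025, 0⟩
    ⟨349525, 589390, 0, 324025, 0⟩ :=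
  faceH_of (n := 60) (x1 := 871013) (y1 := 741456) (r0 := 200703) (r1 := 8093345)
    (by decide +kernel) (by decide +kernel)

private theorem x5_18_2 : FaceV ⟨349525, 589390, 0, 324025, 0⟩
    ⟨192342, 446464, 0, 324025, 0⟩ :=
  faceV_of (n := 60) (x1 := 741456) (y1 := 871013) (r0 := 135853) (r1 := 5478276)
    (by decide +kernel) (by decide +kernel) (by decide +kernel)

private theorem x5_18_3 : FaceV ⟨192342, 446464, 0, 324025, 0⟩
    ⟨349525, 589390, 0, 324025, 0⟩ :=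
  faceV_of (n := 60) (x1 := 871013) (y1 := 741456) (r0 := 200703) (r1 := 8093345)
    (by decide +kernel) (by decide +kernel) (by decide +kernel)

private theorem x5_u18 : VD ⟨349525, 589390, 0, 324025, 0⟩ (1 / 2) (3 / 10) (69 / 200) :=
  ⟨by decide +kernel, by norm_num, by norm_num [R], cu_69_200, Or.inr cl_3_10⟩

private theorem x5_v18 : VD ⟨192342, 446464, 0, 324025, 0⟩ (69 / 100) (3 / 10) (8 / 25) :=
  ⟨by decide +kernel, by norm_num, by norm_num [R], cu_8_25, Or.inr cl_3_10⟩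

private theorem x5_18 : Rgn ⟨349525, 589390, 0, 324025, 0⟩
    ⟨192342, 446464, 0, 324025, 0⟩ :=
  rgn_of x5_18_0 x5_18_1 (Or.inr x5_18_2) (Or.inr x5_18_3)

private theorem x5_19_0 : FaceH ⟨304425, 589390, 0, 324025, 0⟩
    ⟨207203, 446464, 0, 324025, 0⟩ :=
  faceH_of (n := 60) (x1 := 777646) (y1 := 858297) (r0 := 137480) (r1 := 5660885)
    (by decide +kernel) (by decide +kernel)

private theorem x5_19_1 : FaceH ⟨207203, 446464, 0, 324025, 0⟩
    ⟨304425, 589390, 0, 324025, 0⟩ :=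
  faceH_of (n := 60) (x1 := 858297) (y1 := 777646) (r0 := 194229) (r1 := 7997567)
    (by decide +kernel) (by decide +kernel)

private theorem x5_19_2 : FaceV ⟨304425, 589390, 0, 324025, 0⟩
    ⟨207203, 446464, 0, 324025, 0⟩ :=
  faceV_of (n := 60) (x1 := 777646) (y1 := 858297) (r0 := 137480) (r1 := 5660885)
    (by decide +kernel) (by decide +kernel) (by decide +kernel)

private theorem x5_19_3 : FaceV ⟨207203, 446464, 0, 324025, 0⟩
    ⟨304425, 589390, 0, 324025, 0⟩ :=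
  faceV_of (n := 60) (x1 := 858297) (y1 := 777646) (r0 := 194229) (r1 := 7997567)
    (by decide +kernel) (by decide +kernel) (by decide +kernel)

private theorem x5_u19 : VD ⟨304425, 589390, 0, 324025, 0⟩ (11 / 20) (3 / 10) (69 / 200) :=
  ⟨by decide +kernel, by norm_num, by norm_num [R], cu_69_200, Or.inr cl_3_10⟩

private theorem x5_v19 : VD ⟨207203, 446464, 0, 324025, 0⟩ (67 / 100) (3 / 10) (8 / 25) :=
  ⟨by decide +kernel, by norm_num, by norm_num [R], cu_8_25, Or.inr cl_3_10⟩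

private theorem x5_19 : Rgn ⟨304425, 589390, 0, 324025, 0⟩
    ⟨207203, 446464, 0, 324025, 0⟩ :=
  rgn_of x5_19_0 x5_19_1 (Or.inr x5_19_2) (Or.inr x5_19_3)

private theorem x5_20_0 : FaceH ⟨262144, 589390, 0, 324025, 0⟩
    ⟨222425, 446464, 0, 324025, 0⟩ :=
  faceH_of (n := 60) (x1 := 812224) (y1 := 845390) (r0 := 139147) (r1 := 5843493)
    (by decide +kernel) (by decide +kernel)

private theorem x5_20_1 : FaceH ⟨222425, 446464, 0, 324025, 0⟩
    ⟨262144, 589390, 0, 324025, 0⟩ :=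
  faceH_of (n := 60) (x1 := 845390) (y1 := 812224) (r0 := 188160) (r1 := 7901785)
    (by decide +kernel) (by decide +kernel)

private theorem x5_20_2 : FaceV ⟨262144, 589390, 0, 324025, 0⟩
    ⟨222425, 446464, 0, 324025, 0⟩ :=
  faceV_of (n := 60) (x1 := 812224) (y1 := 845390) (r0 := 139147) (r1 := 5843493)
    (by decide +kernel) (by decide +kernel) (by decide +kernel)

private theorem x5_20_3 : FaceV ⟨222425, 446464, 0, 324025, 0⟩
    ⟨262144, 589390, 0, 324025, 0⟩ :=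
  faceV_of (n := 60) (x1 := 845390) (y1 := 812224) (r0 := 188160) (r1 := 7901785)
    (by decide +kernel) (by decide +kernel) (by decide +kernel)

private theorem x5_u20 : VD ⟨262144, 589390, 0, 324025, 0⟩ (3 / 5) (3 / 10) (69 / 200) :=
  ⟨by decide +kernel, by norm_num, by norm_num [R], cu_69_200, Or.inr cl_3_10⟩

private theorem x5_v20 : VD ⟨222425, 446464, 0, 324025, 0⟩ (13 / 20) (3 / 10) (8 / 25) :=
  ⟨by decide +kernel, by norm_num, by norm_num [R], cu_8_25, Or.inr cl_3_10⟩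

private theorem x5_20 : Rgn ⟨262144, 589390, 0, 324025, 0⟩
    ⟨222425, 446464, 0, 324025, 0⟩ :=
  rgn_of x5_20_0 x5_20_1 (Or.inr x5_20_2) (Or.inr x5_20_3)

theorem flat_x5 {θ θ' : ℝ} {v w : ℂ} (h : T2.Pr θ θ' v w)
    (j : J3 (Real.tan θ ^ 2) (Real.tan θ' ^ 2)) (j' : J3 (Real.tan θ' ^ 2) (Real.tan θ ^ 2))
    (t1 : Real.tan θ ^ 2 < 1) (t2 : Real.tan θ' ^ 2 < 1)
    (h1 : 3 / 10 ≤ v.re) (h2 : v.re ≤ 69 / 200) (h3 : 3 / 10 ≤ w.re) (h4 : w.re ≤ 8 / 25) :
    FlatM (1 / cos (Real.pi * v) ^ 2) (1 / cos (Real.pi * (starRingEnd ℂ) w) ^ 2) := by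
  rcases j.c22 j' t1 t2 with (⟨a, b⟩ | ⟨a, b⟩ | ⟨a, b⟩ | ⟨a, b⟩ | ⟨a, b⟩ | ⟨a, b⟩ | ⟨a, b⟩ | ⟨a, b⟩ | ⟨a, b⟩ | ⟨a, b⟩) |
    (⟨a, b⟩ | ⟨a, b⟩ | ⟨a, b⟩ | ⟨a, b⟩ | ⟨a, b⟩ | ⟨a, b⟩ | ⟨a, b⟩ | ⟨a, b⟩ | ⟨a, b⟩ | ⟨a, b⟩) | ⟨a, b⟩
  · exact x5_0.flatM x5_u0 x5_v0 h a b t1 t2 h1 h2 h3 h4
      (by norm_num) (by norm_num) (by norm_num) (by norm_num)
  · exact x5_1.flatM x5_u1 x5_v1 h a b t1 t2 h1 h2 h3 h4
      (by norm_num) (by norm_num) (by norm_num) (by norm_num)
  · exact x5_2.flatM x5_u2 x5_v2 h a b t1 t2 h1 h2 h3 h4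
      (by norm_num) (by norm_num) (by norm_num) (by norm_num)
  · exact x5_6.flatM x5_u6 x5_v6 h a b t1 t2 h1 h2 h3 h4
      (by norm_num) (by norm_num) (by norm_num) (by norm_num)
  · exact x5_7.flatM x5_u7 x5_v7 h a b t1 t2 h1 h2 h3 h4
      (by norm_num) (by norm_num) (by norm_num) (by norm_num)
  · exact x5_8.flatM x5_u8 x5_v8 h a b t1 t2 h1 h2 h3 h4
      (by norm_num) (by norm_num) (by norm_num) (by norm_num)
  · exact x5_9.flatM x5_u9 x5_v9 h a b t1 t2 h1 h2 h3 h4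
      (by norm_num) (by norm_num) (by norm_num) (by norm_num)
  · exact x5_10.flatM x5_u10 x5_v10 h a b t1 t2 h1 h2 h3 h4
      (by norm_num) (by norm_num) (by norm_num) (by norm_num)
  · exact x5_11.flatM x5_u11 x5_v11 h a b t1 t2 h1 h2 h3 h4
      (by norm_num) (by norm_num) (by norm_num) (by norm_num)
  · exact x5_12.flatM x5_u12 x5_v12 h a b t1 t2 h1 h2 h3 h4
      (by norm_num) (by norm_num) (by norm_num) (by norm_num)
  · exact x5_3.flatM x5_u3 x5_v3 h b a t1 t2 h1 h2 h3 h4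
      (by norm_num) (by norm_num) (by norm_num) (by norm_num)
  · exact x5_4.flatM x5_u4 x5_v4 h b a t1 t2 h1 h2 h3 h4
      (by norm_num) (by norm_num) (by norm_num) (by norm_num)
  · exact x5_5.flatM x5_u5 x5_v5 h b a t1 t2 h1 h2 h3 h4
      (by norm_num) (by norm_num) (by norm_num) (by norm_num)
  · exact x5_14.flatM x5_u14 x5_v14 h b a t1 t2 h1 h2 h3 h4
      (by norm_num) (by norm_num) (by norm_num) (by norm_num)
  · exact x5_15.flatM x5_u15 x5_v15 h b a t1 t2 h1 h2 h3 h4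
      (by norm_num) (by norm_num) (by norm_num) (by norm_num)
  · exact x5_16.flatM x5_u16 x5_v16 h b a t1 t2 h1 h2 h3 h4
      (by norm_num) (by norm_num) (by norm_num) (by norm_num)
  · exact x5_17.flatM x5_u17 x5_v17 h b a t1 t2 h1 h2 h3 h4
      (by norm_num) (by norm_num) (by norm_num) (by norm_num)
  · exact x5_18.flatM x5_u18 x5_v18 h b a t1 t2 h1 h2 h3 h4
      (by norm_num) (by norm_num) (by norm_num) (by norm_num)
  · exact x5_19.flatM x5_u19 x5_v19 h b a t1 t2 h1 h2 h3 h4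
      (by norm_num) (by norm_num) (by norm_num) (by norm_num)
  · exact x5_20.flatM x5_u20 x5_v20 h b a t1 t2 h1 h2 h3 h4
      (by norm_num) (by norm_num) (by norm_num) (by norm_num)
  · exact x5_13.flatM x5_u13 x5_v13 h a b t1 t2 h1 h2 h3 h4
      (by norm_num) (by norm_num) (by norm_num) (by norm_num)

end Pool.Agent.S3.Ck
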