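import Mathlib
import Pool.Agent.S3.Ck.Def

/-!
# Soundness of the checker
-/

set_option autoImplicit false

namespace Pool.Agent.S3.Ck

open Complex

/-- The real value of a fixed point number. -/
noncomputable def R (n : ℕ) : ℝ := (n : ℝ) / 1048576

theorem R_nonneg (n : ℕ) : 0 ≤ R n := by
  unfold R
  positivity

theorem R_le {a b : ℕ} (h : a ≤ b) : R a ≤ R b := by
  unfold R
  have : (a : ℝ) ≤ b := by exact_mod_cast h
  linarith

theorem R_lt {a b : ℕ} (h : a < b) : R a < R b := by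
  unfold R
  have : (a : ℝ) < b := by exact_mod_cast h
  linarith

theorem R_pos {a : ℕ} (h : 0 < a) : 0 < R a := by
  have := R_lt h
  have h0 : R 0 = 0 := by simp [R]
  linarith

theorem R_add (a b : ℕ) : R (Nat.add a b) = R a + R b := by
  unfold R
  rw [Nat.add_eq]
  push_cast
  ring

theorem R_one : R 1048576 = 1 := by
  norm_num [R]

theorem R_sub_ge (a b : ℕ) : R a - R b ≤ R (Nat.sub a b) := by
  unfold R
  rw [Nat.sub_eq]
  rcases le_total b a with h | h
  · rw [Nat.cast_sub h]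
    linarith
  · rw [Nat.sub_eq_zero_of_le h]
    have : (a : ℝ) ≤ b := by exact_mod_cast h
    push_cast
    linarith

theorem R_sub {a b : ℕ} (h : b ≤ a) : R (Nat.sub a b) = R a - R b := by
  unfold R
  rw [Nat.sub_eq, Nat.cast_sub h]
  ring

/-- Upper bound of a truncated difference. -/
theorem R_sub_le {a b : ℕ} {x : ℝ} (h0 : 0 ≤ x) (h : R a - R b ≤ x) : R (Nat.sub a b) ≤ x := by
  rcases le_total b a with hab | hab
  · rw [R_sub hab]
    exact h
  · rw [Nat.sub_eq, Nat.sub_eq_zero_of_le hab]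
    simpa [R] using h0

theorem R_mf (a b : ℕ) : R (mf a b) ≤ R a * R b := by
  unfold R mf
  have h := Nat.div_mul_le_self (a * b) 1048576
  have h' : ((a * b / 1048576 : ℕ) : ℝ) * 1048576 ≤ (a : ℝ) * b := by exact_mod_cast h
  show ((a * b / 1048576 : ℕ) : ℝ) / 1048576 ≤ _
  rw [div_mul_div_comm, div_le_div_iff₀ (by norm_num) (by norm_num)]
  nlinarith

theorem R_mc (a b : ℕ) : R a * R b ≤ R (mc a b) := by
  unfold R mc
  have h := Nat.lt_div_mul_add (a := a * b) (b := 1048576) (by norm_num)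
  have h' : (a : ℝ) * b < ((a * b / 1048576 : ℕ) : ℝ) * 1048576 + 1048576 := by exact_mod_cast h
  show _ ≤ ((a * b / 1048576 + 1 : ℕ) : ℝ) / 1048576
  rw [div_mul_div_comm, div_le_div_iff₀ (by norm_num) (by norm_num)]
  push_cast
  nlinarith

theorem R_df (a : ℕ) {b : ℕ} : R (df a b) * R b ≤ R a := by
  unfold R df
  have h := Nat.div_mul_le_self (a * 1048576) b
  have h' : ((a * 1048576 / b : ℕ) : ℝ) * b ≤ (a : ℝ) * 1048576 := by exact_mod_cast h
  show ((a * 1048576 / b : ℕ) : ℝ) / 1048576 * _ ≤ _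
  rw [div_mul_div_comm, div_le_div_iff₀ (by norm_num) (by norm_num)]
  nlinarith

theorem R_dc (a : ℕ) {b : ℕ} (hb : 0 < b) : R a ≤ R (dc a b) * R b := by
  unfold R dc
  have h := Nat.lt_div_mul_add (a := a * 1048576) (b := b) hb
  have h' : (a : ℝ) * 1048576 < ((a * 1048576 / b : ℕ) : ℝ) * b + b := by exact_mod_cast h
  show _ ≤ ((a * 1048576 / b + 1 : ℕ) : ℝ) / 1048576 * _
  rw [div_mul_div_comm, div_le_div_iff₀ (by norm_num) (by norm_num)]
  push_cast
  nlinarith

/-- Floor and ceiling of a product sum. -/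
theorem R_sr (a : ℕ) : R (sr a) ≤ (a : ℝ) / 1099511627776 := by
  unfold R sr
  have h := Nat.div_mul_le_self a 1048576
  have h' : ((a / 1048576 : ℕ) : ℝ) * 1048576 ≤ (a : ℝ) := by exact_mod_cast h
  show ((a / 1048576 : ℕ) : ℝ) / 1048576 ≤ _
  rw [div_le_div_iff₀ (by norm_num) (by norm_num)]
  nlinarith

theorem R_sr1 (a : ℕ) : (a : ℝ) / 1099511627776 ≤ R (Nat.add (sr a) 1) := by
  unfold R sr
  have h := Nat.lt_div_mul_add (a := a) (b := 1048576) (by norm_num)
  have h' : (a : ℝ) < ((a / 1048576 : ℕ) : ℝ) * 1048576 + 1048576 := by exact_mod_cast h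
  show _ ≤ ((a / 1048576 + 1 : ℕ) : ℝ) / 1048576
  rw [div_le_div_iff₀ (by norm_num) (by norm_num)]
  push_cast
  nlinarith

theorem R_mx (a b : ℕ) : R (mx a b) = max (R a) (R b) := by
  unfold mx
  rcases le_total a b with h | h
  · have : Nat.ble a b = true := by rw [Nat.ble_eq]; exact h
    rw [this, max_eq_right (R_le h)]
    rfl
  · rcases h.eq_or_lt with h1 | h1
    · rw [h1]
      simp
    · have : Nat.ble a b = false := by
        rw [Bool.eq_false_iff, ne_eq, Nat.ble_eq]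
        omega
      rw [this, max_eq_left (R_le h)]
      rfl

theorem R_mn (a b : ℕ) : R (mn a b) = min (R a) (R b) := by
  unfold mn
  rcases le_total a b with h | h
  · have : Nat.ble a b = true := by rw [Nat.ble_eq]; exact h
    rw [this, min_eq_left (R_le h)]
    rfl
  · rcases h.eq_or_lt with h1 | h1
    · rw [h1]
      simp
    · have : Nat.ble a b = false := by
        rw [Bool.eq_false_iff, ne_eq, Nat.ble_eq]
        omega
      rw [this, min_eq_right (R_le h)]
      rfl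

theorem lt_iff {a b : ℕ} : lt a b = true ↔ a < b := by
  unfold lt
  rw [Nat.ble_eq, Nat.add_eq]
  omega

theorem ble_true {a b : ℕ} (h : Nat.ble a b = true) : a ≤ b := by
  rwa [Nat.ble_eq] at h

theorem ble_false {a b : ℕ} (h : Nat.ble a b = false) : b < a := by
  rw [Bool.eq_false_iff, ne_eq, Nat.ble_eq] at h
  omega

theorem cond_f {b x : Bool} (h : cond b x false = true) : b = true ∧ x = true := by
  cases b <;> simp_all

theorem cond_t {b x : Bool} (h : cond b true x = true) : b = true ∨ x = true := by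
  cases b <;> simp_all

theorem cond_g {b x y : Bool} (h : cond b x y = true) :
    (b = true ∧ x = true) ∨ (b = false ∧ y = true) := by
  cases b <;> simp_all

/-! ### Cosine and sine of `2 arctan T` -/

theorem R_cf {T : ℕ} (h : T ≤ 1048576) : R (cf T) ≤ (1 - R T ^ 2) / (1 + R T ^ 2) := by
  have hT : (T : ℝ) ≤ 1048576 := by exact_mod_cast h
  have h2 : T * T ≤ 1099511627776 := by nlinarith
  unfold R cf
  have h3 := Nat.div_mul_le_self ((1099511627776 - T * T) * 1048576) (1099511627776 + T * T)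
  have h' : (((1099511627776 - T * T) * 1048576 / (1099511627776 + T * T) : ℕ) : ℝ) *
      (1099511627776 + (T : ℝ) * T) ≤ (1099511627776 - (T : ℝ) * T) * 1048576 := by
    have := (Nat.cast_le (α := ℝ)).mpr h3
    push_cast [h2] at this
    exact this
  show (((1099511627776 - T * T) * 1048576 / (1099511627776 + T * T) : ℕ) : ℝ) / 1048576 ≤ _
  have e : (1 - ((T : ℝ) / 1048576) ^ 2) / (1 + ((T : ℝ) / 1048576) ^ 2) =
      (1099511627776 - (T : ℝ) * T) / (1099511627776 + (T : ℝ) * T) := by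
    rw [div_eq_div_iff (by positivity) (by positivity)]
    ring
  rw [e, div_le_div_iff₀ (by norm_num) (by positivity)]
  exact h'

theorem R_cf1 {T : ℕ} (h : T ≤ 1048576) :
    (1 - R T ^ 2) / (1 + R T ^ 2) ≤ R (Nat.add (cf T) 1) := by
  have hT : (T : ℝ) ≤ 1048576 := by exact_mod_cast h
  have h2 : T * T ≤ 1099511627776 := by nlinarith
  unfold R cf
  have h3 := Nat.lt_div_mul_add (a := (1099511627776 - T * T) * 1048576)
    (b := 1099511627776 + T * T) (by positivity)
  have h' : (1099511627776 - (T : ℝ) * T) * 1048576 <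
      (((1099511627776 - T * T) * 1048576 / (1099511627776 + T * T) : ℕ) : ℝ) *
      (1099511627776 + (T : ℝ) * T) + (1099511627776 + (T : ℝ) * T) := by
    have := (Nat.cast_lt (α := ℝ)).mpr h3
    push_cast [h2] at this
    exact this
  show _ ≤ (((1099511627776 - T * T) * 1048576 / (1099511627776 + T * T) + 1 : ℕ) : ℝ) / 1048576
  have e : (1 - ((T : ℝ) / 1048576) ^ 2) / (1 + ((T : ℝ) / 1048576) ^ 2) =
      (1099511627776 - (T : ℝ) * T) / (1099511627776 + (T : ℝ) * T) := by
    rw [div_eq_div_iff (by positivity) (by positivity)]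
    ring
  rw [e, div_le_div_iff₀ (by positivity) (by norm_num), Nat.cast_add, Nat.cast_one, add_mul,
    one_mul]
  exact h'.le

theorem R_sf (T : ℕ) : R (sf T) ≤ 2 * R T / (1 + R T ^ 2) := by
  unfold R sf
  have h3 := Nat.div_mul_le_self (T * 2199023255552) (1099511627776 + T * T)
  have h' : ((T * 2199023255552 / (1099511627776 + T * T) : ℕ) : ℝ) *
      (1099511627776 + (T : ℝ) * T) ≤ (T : ℝ) * 2199023255552 := by exact_mod_cast h3
  show ((T * 2199023255552 / (1099511627776 + T * T) : ℕ) : ℝ) / 1048576 ≤ _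
  have e : 2 * ((T : ℝ) / 1048576) / (1 + ((T : ℝ) / 1048576) ^ 2) =
      ((T : ℝ) * 2097152) / (1099511627776 + (T : ℝ) * T) := by
    rw [div_eq_div_iff (by positivity) (by positivity)]
    ring
  rw [e, div_le_div_iff₀ (by norm_num) (by positivity)]
  linarith

theorem R_sf1 (T : ℕ) : 2 * R T / (1 + R T ^ 2) ≤ R (Nat.add (sf T) 1) := by
  unfold R sf
  have h3 := Nat.lt_div_mul_add (a := T * 2199023255552) (b := 1099511627776 + T * T)
    (by positivity)
  have h' : (T : ℝ) * 2199023255552 < ((T * 2199023255552 / (1099511627776 + T * T) : ℕ) : ℝ) *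
      (1099511627776 + (T : ℝ) * T) + (1099511627776 + (T : ℝ) * T) := by exact_mod_cast h3
  show _ ≤ ((T * 2199023255552 / (1099511627776 + T * T) + 1 : ℕ) : ℝ) / 1048576
  have e : 2 * ((T : ℝ) / 1048576) / (1 + ((T : ℝ) / 1048576) ^ 2) =
      ((T : ℝ) * 2097152) / (1099511627776 + (T : ℝ) * T) := by
    rw [div_eq_div_iff (by positivity) (by positivity)]
    ring
  rw [e, div_le_div_iff₀ (by positivity) (by norm_num), Nat.cast_add, Nat.cast_one]
  linarith

/-- `C`, `S` as functions of `t = S / (1 + C)`, with bounds. -/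
theorem CS_bounds {C S t0 t1 : ℝ} (h : C ^ 2 + S ^ 2 = 1) (hC : 0 < C) (hS : 0 ≤ S)
    (h0 : 0 ≤ t0) (h1 : t1 ≤ 1) (ht0 : t0 * (1 + C) ≤ S) (ht1 : S ≤ t1 * (1 + C)) :
    (1 - t1 ^ 2) / (1 + t1 ^ 2) ≤ C ∧ C ≤ (1 - t0 ^ 2) / (1 + t0 ^ 2) ∧
      2 * t0 / (1 + t0 ^ 2) ≤ S ∧ S ≤ 2 * t1 / (1 + t1 ^ 2) := by
  have hC1 : 0 < 1 + C := by linarith
  obtain ⟨t, ht⟩ : ∃ t : ℝ, S = t * (1 + C) := ⟨S / (1 + C), by field_simp⟩
  have e1 : C * (1 + t ^ 2) = 1 - t ^ 2 := by
    have h3 : (1 + C) * (C * (1 + t ^ 2) - (1 - t ^ 2)) = 0 := by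
      rw [ht] at h
      linear_combination h
    rcases mul_eq_zero.mp h3 with h4 | h4
    · exact absurd h4 hC1.ne'
    · linarith
  have e2 : S * (1 + t ^ 2) = 2 * t := by
    have : S * (1 + t ^ 2) = t * ((1 + t ^ 2) + C * (1 + t ^ 2)) := by rw [ht]; ring
    rw [this, e1]
    ring
  have ht0' : t0 ≤ t := by
    rw [ht] at ht0
    exact le_of_mul_le_mul_right ht0 hC1
  have ht1' : t ≤ t1 := by
    rw [ht] at ht1
    exact le_of_mul_le_mul_right ht1 hC1
  have htn : 0 ≤ t := h0.trans ht0'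
  have ht1n : 0 ≤ t1 := htn.trans ht1'
  have q0 : 0 < 1 + t ^ 2 := by positivity
  have hC' : C = (1 - t ^ 2) / (1 + t ^ 2) := by rw [eq_div_iff q0.ne', e1]
  have hS' : S = 2 * t / (1 + t ^ 2) := by rw [eq_div_iff q0.ne', e2]
  rw [hC', hS']
  have p1 : t ^ 2 ≤ t1 ^ 2 := pow_le_pow_left₀ htn ht1' 2
  have p2 : t0 ^ 2 ≤ t ^ 2 := pow_le_pow_left₀ h0 ht0' 2
  refine ⟨?_, ?_, ?_, ?_⟩
  · rw [div_le_div_iff₀ (by positivity) (by positivity)]
    nlinarith
  · rw [div_le_div_iff₀ (by positivity) (by positivity)]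
    nlinarith
  · rw [div_le_div_iff₀ (by positivity) (by positivity)]
    have e : 2 * t * (1 + t0 ^ 2) - 2 * t0 * (1 + t ^ 2) = 2 * ((t - t0) * (1 - t * t0)) := by ring
    have : 0 ≤ (t - t0) * (1 - t * t0) := by
      apply mul_nonneg (by linarith)
      nlinarith
    linarith
  · rw [div_le_div_iff₀ (by positivity) (by positivity)]
    have e : 2 * t1 * (1 + t ^ 2) - 2 * t * (1 + t1 ^ 2) = 2 * ((t1 - t) * (1 - t * t1)) := by ring
    have : 0 ≤ (t1 - t) * (1 - t * t1) := by
      apply mul_nonneg (by linarith)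
      nlinarith
    linarith

end Pool.Agent.S3.Ck
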