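import Pool.Agent.S3.Ck.Sound

/-!
# Soundness of the checker: the leaf inequality
-/

set_option autoImplicit false

namespace Pool.Agent.S3.Ck

open Complex

private theorem sb_cos {chm chp P M : ℕ} {ch cb : ℝ} (hch1 : R chm ≤ ch) (hch2 : ch ≤ R chp)
    (hcb : R P - R M ≤ cb) :
    R (mf chm (Nat.sub P M)) - R (mc chp (Nat.sub M P)) ≤ ch * cb := by
  have hch : 0 ≤ ch := (R_nonneg _).trans hch1
  have h1 := R_mf chm (Nat.sub P M)
  have h2 := R_mc chp (Nat.sub M P)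
  have h3 := R_nonneg (mc chp (Nat.sub M P))
  rcases le_total M P with h | h
  · rw [R_sub h] at h1
    have h4 : 0 ≤ R P - R M := sub_nonneg.mpr (R_le h)
    have h5 : R chm * (R P - R M) ≤ ch * (R P - R M) := mul_le_mul_of_nonneg_right hch1 h4
    have h6 : ch * (R P - R M) ≤ ch * cb := mul_le_mul_of_nonneg_left hcb hch
    linarith
  · have e : Nat.sub P M = 0 := by rw [Nat.sub_eq]; omega
    rw [R_sub h] at h2
    rw [e] at h1 ⊢
    have e0 : R 0 = 0 := by simp [R]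
    rw [e0, mul_zero] at h1
    have h4 : 0 ≤ R M - R P := sub_nonneg.mpr (R_le h)
    have h5 : ch * (R M - R P) ≤ R chp * (R M - R P) := mul_le_mul_of_nonneg_right hch2 h4
    have h6 : ch * (R P - R M) ≤ ch * cb := mul_le_mul_of_nonneg_left hcb hch
    nlinarith

private theorem sb_sin {sg lo hi sbm sbp : ℕ} {σ sb z : ℝ} (hσ1 : R sg ≤ σ)
    (hσ2 : σ ≤ R (Nat.add sg 1)) (hsb1 : R sbm ≤ sb) (hsb2 : sb ≤ R sbp)
    (hz : R lo - R hi ≤ z) (hlh : lo = 0 ∨ hi = 0) :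
    R sg * R (mf lo sbm) - R (Nat.add sg 1) * R (mc hi sbp) ≤ σ * (z * sb) := by
  have hσ : 0 ≤ σ := (R_nonneg _).trans hσ1
  have hsb : 0 ≤ sb := (R_nonneg _).trans hsb1
  have h1 := R_mf lo sbm
  have h2 := R_mc hi sbp
  have h3 := R_nonneg (mc hi sbp)
  have h4 := R_nonneg (Nat.add sg 1)
  have e0 : R 0 = 0 := by simp [R]
  rcases hlh with h | h
  · subst h
    rw [e0, zero_mul] at h1
    rw [e0, zero_sub] at hz
    have h5 : R (mf 0 sbm) = 0 := le_antisymm h1 (R_nonneg _)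
    rw [h5, mul_zero, zero_sub]
    have h6 : -(z * sb) ≤ R (mc hi sbp) := by
      have : -z * sb ≤ R hi * R sbp := by
        rcases le_total z 0 with hz0 | hz0
        · exact mul_le_mul (by linarith) hsb2 hsb (R_nonneg _)
        · have : -z * sb ≤ 0 := mul_nonpos_of_nonpos_of_nonneg (by linarith) hsb
          have : 0 ≤ R hi * R sbp := mul_nonneg (R_nonneg _) (R_nonneg _)
          linarith
      linarith
    have h7 : σ * (-(z * sb)) ≤ R (Nat.add sg 1) * R (mc hi sbp) :=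
      (mul_le_mul_of_nonneg_left h6 hσ).trans (mul_le_mul_of_nonneg_right hσ2 h3)
    linarith
  · subst h
    rw [e0, sub_zero] at hz
    have hz0 : 0 ≤ z := (R_nonneg _).trans hz
    have h5 : R (mf lo sbm) ≤ z * sb :=
      h1.trans (mul_le_mul hz hsb1 (R_nonneg _) hz0)
    have h6 : R sg * R (mf lo sbm) ≤ σ * (z * sb) := mul_le_mul hσ1 h5 (R_nonneg _) hσ
    have h7 : 0 ≤ R (Nat.add sg 1) * R (mc 0 sbp) := mul_nonneg h4 h3
    linarith

theorem st5_sound {cN sg p d chm chp P M sbm sbp lo hi sh : ℕ}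
    (h : st5 cN sg p d chm chp P M sbm sbp lo hi sh = true) (hcN : cN < 1048576)
    {σ ch cb sb z : ℝ} (hσ1 : R sg ≤ σ) (hσ2 : σ ≤ R (Nat.add sg 1))
    (hch1 : R chm ≤ ch) (hch2 : ch ≤ R chp) (hcb : R P - R M ≤ cb) (hsb1 : R sbm ≤ sb)
    (hsb2 : sb ≤ R sbp) (hz : R lo - R hi ≤ z) (hlh : lo = 0 ∨ hi = 0) :
    0 < (1 - R cN) * R p - R cN * R d ∧ ∃ B : ℝ, 0 < B ∧
      B ≤ R cN * (2 + ch * cb) + σ * (z * sb) ∧
      R sh ^ 2 * ((1 - R cN + R d) * (1 + R cN + 2 * R p + R d)) <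
        4 * ((1 + R p + R d) * ((1 - R cN) * R p - R cN * R d)) * B := by
  unfold st5 at h
  obtain ⟨h1, h⟩ := cond_f h
  obtain ⟨h2, h3⟩ := cond_f h
  clear h
  rw [lt_iff] at h1 h2 h3
  have e1 : (Nat.sub 1048576 cN : ℕ) = 1048576 - cN := rfl
  have ecN : ((Nat.sub 1048576 cN : ℕ) : ℝ) = 1048576 - (cN : ℝ) := by
    rw [e1, Nat.cast_sub hcN.le]
    norm_num
  -- the first difference
  have hnum : ((1 - R cN) * R p - R cN * R d) * 1099511627776 =
      (1048576 - (cN : ℝ)) * p - cN * d := by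
    unfold R
    field_simp
    ring
  have h1' : (cN : ℝ) * d < (1048576 - (cN : ℝ)) * p := by
    have h4 := (Nat.cast_lt (α := ℝ)).mpr h1
    rw [Nat.mul_eq, Nat.mul_eq, Nat.cast_mul, Nat.cast_mul, ecN] at h4
    exact h4
  have hn0 : 0 < (1 - R cN) * R p - R cN * R d := by
    by_contra hneg
    push Not at hneg
    nlinarith
  refine ⟨hn0, ?_⟩
  set B1 : ℕ := Nat.add (Nat.mul cN (Nat.add 2097152 (mf chm (Nat.sub P M))))
    (Nat.mul sg (mf lo sbm)) with hB1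
  set B2 : ℕ := Nat.add (Nat.mul cN (mc chp (Nat.sub M P))) (Nat.mul (Nat.add sg 1) (mc hi sbp))
    with hB2
  have eB1 : (B1 : ℝ) / 1099511627776 =
      R cN * (2 + R (mf chm (Nat.sub P M))) + R sg * R (mf lo sbm) := by
    rw [hB1, Nat.add_eq, Nat.mul_eq, Nat.add_eq, Nat.mul_eq]
    unfold R
    push_cast
    field_simp
    ring
  have eB2 : (B2 : ℝ) / 1099511627776 =
      R cN * R (mc chp (Nat.sub M P)) + R (Nat.add sg 1) * R (mc hi sbp) := by
    rw [hB2, Nat.add_eq, Nat.mul_eq, Nat.mul_eq]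
    unfold R
    push_cast
    field_simp
    ring
  have eB : ((Nat.sub B1 B2 : ℕ) : ℝ) = (B1 : ℝ) - B2 := by
    have : (Nat.sub B1 B2 : ℕ) = B1 - B2 := rfl
    rw [this, Nat.cast_sub h2.le]
  set B : ℝ := ((B1 : ℝ) - B2) / 1099511627776 with hB
  have hBpos : 0 < B := by
    have : (B2 : ℝ) < B1 := by exact_mod_cast h2
    rw [hB]
    apply div_pos (by linarith) (by norm_num)
  refine ⟨B, hBpos, ?_, ?_⟩
  · have hc0 := R_nonneg cN
    have h4 := sb_cos (chm := chm) (chp := chp) (P := P) (M := M) hch1 hch2 hcb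
    have h5 := sb_sin (sg := sg) (lo := lo) (hi := hi) (sbm := sbm) (sbp := sbp) hσ1 hσ2 hsb1
      hsb2 hz hlh
    have h6 : R cN * (R (mf chm (Nat.sub P M)) - R (mc chp (Nat.sub M P))) ≤ R cN * (ch * cb) :=
      mul_le_mul_of_nonneg_left h4 hc0
    rw [hB, sub_div, eB1, eB2]
    nlinarith
  · -- the final inequality
    have h3' := (Nat.cast_lt (α := ℝ)).mpr h3
    have hsr := R_sr (Nat.sub (Nat.mul (Nat.sub 1048576 cN) p) (Nat.mul cN d))
    have e3 : ((Nat.sub (Nat.mul (Nat.sub 1048576 cN) p) (Nat.mul cN d) : ℕ) : ℝ) =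
        (1048576 - (cN : ℝ)) * p - cN * d := by
      have e4 : (Nat.sub (Nat.mul (Nat.sub 1048576 cN) p) (Nat.mul cN d) : ℕ) =
          (Nat.mul (Nat.sub 1048576 cN) p) - (Nat.mul cN d) := rfl
      rw [e4, Nat.cast_sub h1.le, Nat.mul_eq, Nat.mul_eq, Nat.cast_mul, Nat.cast_mul, ecN]
    set num : ℕ := sr (Nat.sub (Nat.mul (Nat.sub 1048576 cN) p) (Nat.mul cN d)) with hnumdef
    rw [e3, ← hnum, mul_div_assoc, div_self (by norm_num), mul_one] at hsr
    simp only [Nat.mul_eq, Nat.add_eq, Nat.cast_mul, Nat.cast_add] at h3'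
    rw [ecN, eB] at h3'
    push_cast at h3'
    have eR : (num : ℝ) = R num * 1048576 := by unfold R; field_simp
    have esh : (sh : ℝ) = R sh * 1048576 := by unfold R; field_simp
    have ed : (d : ℝ) = R d * 1048576 := by unfold R; field_simp
    have ep : (p : ℝ) = R p * 1048576 := by unfold R; field_simp
    have ec : (cN : ℝ) = R cN * 1048576 := by unfold R; field_simp
    have eBB : (B1 : ℝ) - B2 = B * 1099511627776 := by rw [hB]; field_simp
    rw [eBB, eR, esh, ed, ep, ec] at h3'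
    have h7 : R sh ^ 2 * ((1 - R cN + R d) * (1 + R cN + 2 * R p + R d)) <
        4 * ((1 + R p + R d) * R num) * B := by
      have h8 : (R sh ^ 2 * ((1 - R cN + R d) * (1 + R cN + 2 * R p + R d))) *
          (1099511627776 * 1099511627776) <
          (4 * ((1 + R p + R d) * R num) * B) * (1099511627776 * 1099511627776) := by
        linarith
      exact lt_of_mul_lt_mul_right h8 (by norm_num)
    have h9 : 4 * ((1 + R p + R d) * R num) * B ≤
        4 * ((1 + R p + R d) * ((1 - R cN) * R p - R cN * R d)) * B := by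
      have := R_nonneg p
      have := R_nonneg d
      gcongr
    linarith

theorem st6_sound {cN sg Nrm Nrp Nim Nip chm chp P M sbm sbp lo hi sh : ℕ}
    (h : st6 cN sg Nrm Nrp Nim Nip chm chp P M sbm sbp lo hi sh = true) (hcN : cN < 1048576)
    {σ Nr Ni ch cb sb z : ℝ} (hσ1 : R sg ≤ σ) (hσ2 : σ ≤ R (Nat.add sg 1))
    (hNr1 : R Nrm ≤ Nr) (hNr2 : Nr ≤ R Nrp) (hNi1 : R Nim ≤ Ni) (hNi2 : Ni ≤ R Nip)
    (hch1 : R chm ≤ ch) (hch2 : ch ≤ R chp) (hcb : R P - R M ≤ cb) (hsb1 : R sbm ≤ sb)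
    (hsb2 : sb ≤ R sbp) (hz : R lo - R hi ≤ z) (hlh : lo = 0 ∨ hi = 0) :
    ∃ p d B : ℝ, 0 < p ∧ p ≤ R cN * Nr + σ * Ni ∧ (R cN * Ni - σ * Nr) ^ 2 ≤ 2 * d * p ∧
      0 < (1 - R cN) * p - R cN * d ∧ 0 < B ∧
      B ≤ R cN * (2 + ch * cb) + σ * (z * sb) ∧
      R sh ^ 2 * ((1 - R cN + d) * (1 + R cN + 2 * p + d)) <
        4 * ((1 + p + d) * ((1 - R cN) * p - R cN * d)) * B := by
  unfold st6 at h
  rcases cond_g h with ⟨h1, h2⟩ | ⟨h1, h2⟩
  · exact absurd h2 (by simp)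
  have hp0 := ble_false h1
  obtain ⟨hn, B, hB0, hB1, hB2⟩ := st5_sound h2 hcN hσ1 hσ2 hch1 hch2 hcb hsb1 hsb2 hz hlh
  set p : ℕ := sr (Nat.add (Nat.mul cN Nrm) (Nat.mul sg Nim)) with hp
  set P2 : ℕ := mx (Nat.sub (mc cN Nip) (mf sg Nrm)) (Nat.sub (mc (Nat.add sg 1) Nrp) (mf cN Nim))
    with hP2
  have hσ : 0 ≤ σ := (R_nonneg _).trans hσ1
  have hNr : 0 ≤ Nr := (R_nonneg _).trans hNr1
  have hNi : 0 ≤ Ni := (R_nonneg _).trans hNi1
  have hc0 := R_nonneg cN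
  refine ⟨R p, R (Nat.add (Nat.div (Nat.mul P2 P2) (Nat.mul 2 p)) 1), B, R_pos hp0, ?_, ?_, hn,
    hB0, hB1, hB2⟩
  · have h3 := R_sr (Nat.add (Nat.mul cN Nrm) (Nat.mul sg Nim))
    rw [← hp] at h3
    have e : ((Nat.add (Nat.mul cN Nrm) (Nat.mul sg Nim) : ℕ) : ℝ) / 1099511627776 =
        R cN * R Nrm + R sg * R Nim := by
      rw [Nat.add_eq, Nat.mul_eq, Nat.mul_eq]
      unfold R
      push_cast
      field_simp
      ring
    rw [e] at h3
    have h4 : R cN * R Nrm ≤ R cN * Nr := mul_le_mul_of_nonneg_left hNr1 hc0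
    have h5 : R sg * R Nim ≤ σ * Ni := mul_le_mul hσ1 hNi1 (R_nonneg _) hσ
    linarith
  · have hub : R cN * Ni - σ * Nr ≤ R P2 := by
      rw [hP2, R_mx]
      apply le_max_of_le_left
      refine le_trans ?_ (R_sub_ge _ _)
      have h3 : R cN * Ni ≤ R (mc cN Nip) :=
        (mul_le_mul_of_nonneg_left hNi2 hc0).trans (R_mc _ _)
      have h4 : R (mf sg Nrm) ≤ σ * Nr :=
        (R_mf _ _).trans (mul_le_mul hσ1 hNr1 (R_nonneg _) hσ)
      linarith
    have hlb : -(R cN * Ni - σ * Nr) ≤ R P2 := by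
      rw [hP2, R_mx]
      apply le_max_of_le_right
      refine le_trans ?_ (R_sub_ge _ _)
      have h3 : σ * Nr ≤ R (mc (Nat.add sg 1) Nrp) :=
        (mul_le_mul hσ2 hNr2 hNr (R_nonneg _)).trans (R_mc _ _)
      have h4 : R (mf cN Nim) ≤ R cN * Ni :=
        (R_mf _ _).trans (mul_le_mul_of_nonneg_left hNi1 hc0)
      linarith
    have h5 : (R cN * Ni - σ * Nr) ^ 2 ≤ R P2 ^ 2 := sq_le_sq' (by linarith) hub
    refine h5.trans ?_
    have h6 := Nat.lt_div_mul_add (a := P2 * P2) (b := 2 * p) (by omega)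
    have h7 : (P2 : ℝ) * P2 < ((P2 * P2 / (2 * p) : ℕ) : ℝ) * (2 * p) + 2 * p := by
      exact_mod_cast h6
    show R P2 ^ 2 ≤ 2 * (((P2 * P2 / (2 * p) + 1 : ℕ) : ℝ) / 1048576) * R p
    unfold R
    rw [Nat.cast_add, Nat.cast_one]
    have e : 2 * ((((P2 * P2 / (2 * p) : ℕ) : ℝ) + 1) / 1048576) * ((p : ℝ) / 1048576) =
        (((P2 * P2 / (2 * p) : ℕ) : ℝ) * (2 * p) + 2 * p) / 1099511627776 := by
      field_simp
      ring
    rw [e]
    have e2 : ((P2 : ℝ) / 1048576) ^ 2 = (P2 : ℝ) * P2 / 1099511627776 := by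
      field_simp
      ring
    rw [e2]
    gcongr

end Pool.Agent.S3.Ck
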