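import Pool.Agent.S3.Ck.SoundB
import Pool.Agent.S3.FlatP

/-!
# Soundness of the checker: the stages
-/

set_option autoImplicit false

namespace Pool.Agent.S3.Ck

open Complex

private theorem R_sub_sub (x y : ℕ) : R (Nat.sub x y) - R (Nat.sub y x) = R x - R y := by
  rcases le_total x y with h | h
  · have e : Nat.sub x y = 0 := by rw [Nat.sub_eq]; omega
    rw [e, R_sub h]
    simp [R]
  · have e : Nat.sub y x = 0 := by rw [Nat.sub_eq]; omega
    rw [e, R_sub h]
    simp [R]

private theorem sub_zero_or (x y : ℕ) : Nat.sub x y = 0 ∨ Nat.sub y x = 0 := by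
  rw [Nat.sub_eq, Nat.sub_eq]
  omega

theorem st4_sound {cN sg Nrm Nrp Uim Uip Vim Vip chm chp rm rp irm irp P M sbm sbp : ℕ}
    (h : st4 cN sg Nrm Nrp Uim Uip Vim Vip chm chp rm rp irm irp P M sbm sbp = true)
    {a b C1 S1 C2 S2 : ℝ} (ha : 0 < a) (hb : 0 < b) (u1 : C1 ^ 2 + S1 ^ 2 = 1)
    (u2 : C2 ^ 2 + S2 ^ 2 = 1)
    (hN1 : R Nrm ≤ a * C1 + b * C2 - 1) (hN2 : a * C1 + b * C2 - 1 ≤ R Nrp)
    (hU1 : R Uim ≤ a * S1) (hU2 : a * S1 ≤ R Uip) (hV1 : R Vim ≤ b * S2) (hV2 : b * S2 ≤ R Vip)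
    (hch1 : R chm ≤ b / a + a / b) (hch2 : b / a + a / b ≤ R chp)
    (hr1 : R rm ≤ b / a) (hr2 : b / a ≤ R rp) (hi1 : R irp ≤ a / b)
    (hi2 : a / b ≤ R (Nat.add irm 1))
    (hcb : R P - R M ≤ C1 * C2 - S1 * S2) (hsb1 : R sbm ≤ S1 * C2 + C1 * S2)
    (hsb2 : S1 * C2 + C1 * S2 ≤ R sbp)
    (hK : b / a + a / b - 2 * (C1 * C2 - S1 * S2) < 4 * R cN) :
    FM0 (pU a C1 S1) (pU b C2 (-S2)) := by
  unfold st4 at h
  obtain ⟨h1, h⟩ := cond_f h
  obtain ⟨g1, h1⟩ := cond_f h1
  obtain ⟨g2, h1⟩ := cond_f h1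
  obtain ⟨g3, g4⟩ := cond_f h1
  rw [lt_iff] at g1 g4
  have g2 := ble_true g2
  have g3 := ble_true g3
  have hc0 := R_nonneg cN
  have hc1 : R cN < 1 := by rw [← R_one]; exact R_lt g1
  set c := R cN with hc
  set σ := Real.sqrt (1 - c ^ 2) with hσ
  have hq : 0 ≤ 1 - c ^ 2 := by linarith only [hc1,
                                  mul_nonneg (sub_nonneg.2 hc0) (sub_nonneg.2 hc1.le)]
  have hσ2 : σ ^ 2 = 1 - c ^ 2 := Real.sq_sqrt hq
  have hσ0 : 0 ≤ σ := Real.sqrt_nonneg _
  have hsg1 : R sg ≤ σ := by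
    apply le_of_sq_le_sq ?_ hσ0
    rw [hσ2, hc]
    have : (sg : ℝ) * sg + cN * cN ≤ 1099511627776 := by exact_mod_cast g2
    unfold R
    rw [div_pow, div_pow, le_sub_iff_add_le, ← add_div, div_le_one (by norm_num)]
    linarith only [this]
  have hsg2 : σ ≤ R (Nat.add sg 1) := by
    apply le_of_sq_le_sq ?_ (R_nonneg _)
    rw [hσ2, hc, R_add]
    have : (1099511627776 : ℝ) ≤ ((sg : ℝ) + 1) * (sg + 1) + cN * cN := by exact_mod_cast g3
    unfold R
    rw [← add_div, div_pow, div_pow, sub_le_iff_le_add, ← add_div, le_div_iff₀ (by norm_num)]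
    push_cast
    linarith only [this]
  have hσpos : 0 < σ := (R_pos g4).trans_le hsg1
  have hcs : c ^ 2 + σ ^ 2 = 1 := by rw [hσ2]; ring
  have hba : 0 < b / a := div_pos hb ha
  have hab : 0 < a / b := div_pos ha hb
  have hprod : b / a * (a / b) = 1 := by field_simp
  have hcpos : 0 < c := by
    have h2 : C1 * C2 - S1 * S2 ≤ 1 := by linarith only [sq_nonneg (S1 + S2), sq_nonneg (C1 - C2),
                                            u2, u1]
    have h3 : 2 ≤ b / a + a / b := by (refine le_of_not_gt fun hng => ?_; linarith only [hng, hprod,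
                                        sq_nonneg (1 * (b / a) - 1 * (a / b)),
                                        mul_pos (sub_pos.2 hng) (sub_pos.2 hab),
                                        mul_pos (sub_pos.2 hng) (sub_pos.2 hba)])
    linarith only [h3, h2, hK]
  rcases cond_t h with h2 | h2
  · -- first alternative
    rw [lt_iff] at h2
    refine Or.inl (flatA_polar ha hb u1 u2 ?_ hcs hK ?_)
    · refine lt_of_lt_of_le (R_pos ?_) hN1
      by_contra h0
      have : Nrm = 0 := by omega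
      rw [this] at h2
      exact absurd h2 (by simp)
    · set X := mx (Nat.sub Vip Uim) (Nat.sub Uip Vim) with hX
      have h3 : R cN * R X ≤ R sg * R Nrm := by
        have h4 : (cN : ℝ) * X ≤ (sg : ℝ) * Nrm := by exact_mod_cast h2.le
        unfold R
        rw [div_mul_div_comm, div_mul_div_comm]
        gcongr
      have h5 : R sg * R Nrm ≤ σ * (a * C1 + b * C2 - 1) :=
        mul_le_mul hsg1 hN1 (R_nonneg _) hσ0
      have h6 : a * S1 - b * S2 ≤ R X := by
        rw [hX, R_mx]
        apply le_max_of_le_right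
        refine le_trans ?_ (R_sub_ge _ _)
        linarith only [hV1, hU2]
      have h7 : -(a * S1 - b * S2) ≤ R X := by
        rw [hX, R_mx]
        apply le_max_of_le_left
        refine le_trans ?_ (R_sub_ge _ _)
        linarith only [hV2, hU1]
      rw [← hc] at h3
      have h8 : c * (a * S1 - b * S2) ≤ c * R X := mul_le_mul_of_nonneg_left h6 hc0
      have h9 : c * -(a * S1 - b * S2) ≤ c * R X := mul_le_mul_of_nonneg_left h7 hc0
      exact sq_le_sq' (by linarith only [h9, h5, h3]) (by linarith only [h8, h5, h3])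
  have hshu : b / a - a / b ≤ R (mx (Nat.sub rp irp) (Nat.sub (Nat.add irm 1) rm)) := by
    rw [R_mx]
    apply le_max_of_le_left
    refine le_trans ?_ (R_sub_ge _ _)
    linarith only [hi1, hr2]
  have hshl : -(b / a - a / b) ≤ R (mx (Nat.sub rp irp) (Nat.sub (Nat.add irm 1) rm)) := by
    rw [R_mx]
    apply le_max_of_le_right
    refine le_trans ?_ (R_sub_ge _ _)
    linarith only [hi2, hr1]
  have hsh2 := sq_le_sq' (by linarith only [hshl]) hshu
  rcases cond_g h2 with ⟨h3, h4⟩ | ⟨h3, h4⟩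
  · -- `V` dominates
    have h3 := R_le (ble_true h3)
    obtain ⟨p, d, B, q1, q2, q3, q4, q5, q6, q7⟩ := st6_sound (Nr := a * C1 + b * C2 - 1)
      (Ni := b * S2 - a * S1) (ch := b / a + a / b) (cb := C1 * C2 - S1 * S2)
      (sb := S1 * C2 + C1 * S2) (z := b / a - a / b) h4 g1 hsg1 hsg2 hN1 hN2
      (R_sub_le (by linarith only [h3, hV1, hU2]) (by linarith only [hV1, hU2])) (le_trans (by linarith only [hV2,
                                                                                                 hU1]) (R_sub_ge _ _))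
      hch1 hch2 hcb hsb1 hsb2 (by rw [R_sub_sub]; linarith only [hi2, hr1]) (sub_zero_or _ _)
    rw [← hc] at q2 q3 q4 q6 q7
    refine Or.inr (Or.inr ?_)
    rw [pU_conj, pU_conj]
    refine flatN_polar (c := c) (σ := σ) (p := p) (d := d) (B := B)
      (sh := R (mx (Nat.sub rp irp) (Nat.sub (Nat.add irm 1) rm)) ^ 2) ha hb (by rw [← u1]; ring)
      (by rw [← u2]; ring) (by linarith only [h3, hV1, hU2]) hcpos hσpos hcs (by linarith only [hK]) q1 ?_ ?_ q4 q5 ?_ hsh2 q7
    · refine q2.trans (le_of_eq ?_)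
      ring
    · refine le_trans (le_of_eq ?_) q3
      ring
    · refine q6.trans (le_of_eq ?_)
      ring
  · rcases cond_g h4 with ⟨h5, h6⟩ | ⟨-, h6⟩
    · -- `U` dominates
      have h5 := R_le (ble_true h5)
      obtain ⟨p, d, B, q1, q2, q3, q4, q5, q6, q7⟩ := st6_sound (Nr := a * C1 + b * C2 - 1)
        (Ni := a * S1 - b * S2) (ch := b / a + a / b) (cb := C1 * C2 - S1 * S2)
        (sb := S1 * C2 + C1 * S2) (z := a / b - b / a) h6 g1 hsg1 hsg2 hN1 hN2
        (R_sub_le (by linarith only [h5, hV2, hU1]) (by linarith only [hV2, hU1])) (le_trans (by linarith only [hV1,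
                                                                                                   hU2]) (R_sub_ge _ _))
        hch1 hch2 hcb hsb1 hsb2 (by rw [R_sub_sub]; linarith only [hi1, hr2]) (sub_zero_or _ _)
      rw [← hc] at q2 q3 q4 q6 q7
      exact Or.inr (Or.inl (flatN_polar (c := c) (σ := σ) (p := p) (d := d) (B := B)
        (sh := R (mx (Nat.sub rp irp) (Nat.sub (Nat.add irm 1) rm)) ^ 2) ha hb u1 u2
        (by linarith only [h5, hV2, hU1]) hcpos hσpos hcs hK q1 q2 q3 q4 q5 q6 hsh2 q7))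
    · exact absurd h6 (by simp)

theorem R_lt1 {n : ℕ} (h : n < 1048576) : R n < 1 := by
  rw [← R_one]
  exact R_lt h

/-- A point `a (C + i S)` between its hyperbola and its two verticals. -/
structure Pt (c mp mn lp ln : ℕ) (a C S : ℝ) : Prop where
  ha : 0 < a
  u : C ^ 2 + S ^ 2 = 1
  s : 0 ≤ S
  hy : 1 - R c ^ 2 ≤ 2 * a * (C - R c)
  ve : a * (1 - (R mp - R mn) ^ 2) ≤ 2 * (C + (R mp - R mn))
  lo : 2 * (C + (R lp - R ln)) ≤ a * (1 - (R lp - R ln) ^ 2)
  k1 : c < 1048576
  k2 : mp < 1048576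
  k3 : mn < 1048576
  k4 : lp < 1048576
  k5 : ln ≤ 1048576
  k6 : mp = 0 ∨ mn = 0
  k7 : lp = 0 ∨ ln = 0

section

variable {c mp mn lp ln : ℕ} {a C S : ℝ}

theorem Pt.Cle (h : Pt c mp mn lp ln a C S) : C ≤ 1 := by
  linarith only [sq_nonneg (C - 1), sq_nonneg S, h.u]

theorem Pt.Cgt (h : Pt c mp mn lp ln a C S) : R c < C := by
  have h1 := R_lt1 h.k1
  have h2 := R_nonneg c
  have h3 : 0 < 2 * a * (C - R c) := lt_of_lt_of_le (by linarith only [h1,
                                                          mul_nonneg (sub_nonneg.2 h1.le) (sub_nonneg.2 h2)]) h.hy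
  have h4 : 0 < 2 * a := by linarith only [h.ha]
  have := (mul_pos_iff_of_pos_left h4).mp h3
  linarith only [this]

theorem Pt.C0 (h : Pt c mp mn lp ln a C S) : 0 < C := lt_of_le_of_lt (R_nonneg _) h.Cgt

theorem Pt.ge (h : Pt c mp mn lp ln a C S) : 1 + R c ≤ 2 * a := by
  have h1 := R_lt1 h.k1
  have h2 := h.Cle
  have h3 : 2 * a * (C - R c) ≤ 2 * a * (1 - R c) :=
    mul_le_mul_of_nonneg_left (by linarith only [h2]) (by linarith only [h.ha])
  have h4 : (1 + R c) * (1 - R c) ≤ 2 * a * (1 - R c) := by linarith only [h.hy, h3]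
  exact le_of_mul_le_mul_right h4 (by linarith only [h1])

theorem Pt.re (h : Pt c mp mn lp ln a C S) : 1 / 2 ≤ a * C := by
  have h2 := R_nonneg c
  have h3 := h.ge
  linarith only [h.hy, h2, mul_nonneg (sub_nonneg.2 h2) (sub_nonneg.2 h3)]

end

end Pool.Agent.S3.Ck
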