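import Pool.Agent.S3.Ck.SoundC

/-!
# Soundness of the checker: bounds of the quantities
-/

set_option autoImplicit false

namespace Pool.Agent.S3.Ck

open Complex

theorem st3_sound {a b C1 S1 C2 S2 : ℝ} (ha : 0 < a) (hb : 0 < b) (u1 : C1 ^ 2 + S1 ^ 2 = 1)
    (u2 : C2 ^ 2 + S2 ^ 2 = 1) (s1 : 0 ≤ S1) (s2 : 0 ≤ S2) (hC1 : 0 ≤ C1) (hC2 : 0 ≤ C2)
    (hN0 : 0 ≤ a * C1 + b * C2 - 1)
    {C1m S1m S1p C2p C2m S2m S2p C1p am ap Urm Urp bm bp rm rp : ℕ}
    (h : st3 C1m S1m S1p C2p C2m S2m S2p C1p am ap Urm Urp bm bp rm rp = true)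
    (hC1m : R C1m ≤ C1) (hC1p : C1 ≤ R C1p) (hS1m : R S1m ≤ S1) (hS1p : S1 ≤ R S1p)
    (hC2m : R C2m ≤ C2) (hC2p : C2 ≤ R C2p) (hS2m : R S2m ≤ S2) (hS2p : S2 ≤ R S2p)
    (ham : R am ≤ a) (hap : a ≤ R ap) (hUm : R Urm ≤ a * C1) (hUp : a * C1 ≤ R Urp)
    (hbm : R bm ≤ b) (hbp : b ≤ R bp)
    (hrm : R rm ≤ b / a) (hrp : b / a ≤ R rp) (hrm0 : 0 < rm) :
    FM0 (pU a C1 S1) (pU b C2 (-S2)) := by
  have hba : 0 < b / a := div_pos hb ha
  have hab : 0 < a / b := div_pos ha hb
  have hprod : a / b * (b / a) = 1 := by field_simp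
  have hrm0' : 0 < R rm := R_pos hrm0
  have hrp0' : 0 < R rp := hba.trans_le hrp
  have hrp0 : 0 < rp := by
    by_contra h0
    have : rp = 0 := by omega
    rw [this] at hrp0'
    simp [R] at hrp0'
  -- inverses
  have inv1 : ∀ n : ℕ, R (Nat.div 1099511627776 n) * R n ≤ 1 := by
    intro n
    have h1 := Nat.div_mul_le_self 1099511627776 n
    have h2 : ((1099511627776 / n : ℕ) : ℝ) * n ≤ 1099511627776 := by exact_mod_cast h1
    show ((1099511627776 / n : ℕ) : ℝ) / 1048576 * ((n : ℝ) / 1048576) ≤ 1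
    rw [div_mul_div_comm, div_le_one (by norm_num)]
    linarith only [h2]
  have inv2 : ∀ n : ℕ, 0 < n → 1 ≤ R (Nat.add (Nat.div 1099511627776 n) 1) * R n := by
    intro n hn
    have h1 := Nat.lt_div_mul_add (a := 1099511627776) (b := n) hn
    have h2 : (1099511627776 : ℝ) < ((1099511627776 / n : ℕ) : ℝ) * n + n := by exact_mod_cast h1
    show 1 ≤ ((1099511627776 / n + 1 : ℕ) : ℝ) / 1048576 * ((n : ℝ) / 1048576)
    rw [div_mul_div_comm, one_le_div (by norm_num), Nat.cast_add, Nat.cast_one]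
    linarith only [h2]
  have hi1 : R (Nat.div 1099511627776 rp) ≤ a / b := by
    have h1 := inv1 rp
    have h2 : R (Nat.div 1099511627776 rp) * (b / a) ≤ a / b * (b / a) := by
      rw [hprod]
      exact (mul_le_mul_of_nonneg_left hrp (R_nonneg _)).trans h1
    exact le_of_mul_le_mul_right h2 hba
  have hi2 : a / b ≤ R (Nat.add (Nat.div 1099511627776 rm) 1) := by
    have h1 := inv2 rm hrm0
    have h2 : a / b * (b / a) ≤ R (Nat.add (Nat.div 1099511627776 rm) 1) * (b / a) := by
      rw [hprod]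
      exact h1.trans (mul_le_mul_of_nonneg_left hrm (R_nonneg _))
    exact le_of_mul_le_mul_right h2 hba
  unfold st3 at h
  simp only at h
  set irm := Nat.div 1099511627776 rm with hirm
  set irp := Nat.div 1099511627776 rp with hirp
  set P := mf C1m C2m with hP
  set M := mc S1p S2p with hM
  set chm := cond (Nat.ble 1048576 rm) (Nat.add rm irm)
       (cond (Nat.ble rp 1048576) (Nat.add rp irp) 2097152) with hchm
  set chp := mx (Nat.add rm (Nat.add irm 1)) (Nat.add rp (Nat.add irp 1)) with hchp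
  set k := Nat.add (Nat.div (Nat.mul 256 (Nat.sub (Nat.add chp (Nat.mul 2 M)) (Nat.mul 2 P)))
        1048576) 1 with hk
  -- bounds of `ρ + 1/ρ`
  have hch1 : R chm ≤ b / a + a / b := by
    rw [hchm]
    cases e1 : Nat.ble 1048576 rm with
    | true =>
      have h1 := R_le (ble_true e1)
      rw [R_one] at h1
      show R (Nat.add rm irm) ≤ _
      rw [R_add]
      have h2 := inv1 rm
      -- `irm ≤ 1 / rm`
      have h3 : R irm ≤ 1 / R rm := by rw [le_div_iff₀ hrm0']; exact h2
      have h4 : a / b = 1 / (b / a) := by rw [one_div_div]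
      rw [h4]
      have h5 : 0 ≤ (b / a - R rm) * (1 - 1 / (b / a) * (1 / R rm)) := by
        apply mul_nonneg (by linarith only [hrm])
        have h6 : 1 / (b / a) ≤ 1 := by rw [div_le_one hba]; linarith only [h1, hrm]
        have h7 : 1 / R rm ≤ 1 := by rw [div_le_one hrm0']; linarith only [h1]
        have h8 : 0 ≤ 1 / (b / a) := by positivity
        have h9 : 0 ≤ 1 / R rm := by positivity
        linarith only [h6, mul_nonneg (sub_nonneg.2 h4.le) (sub_nonneg.2 h7),
          mul_nonneg (sub_nonneg.2 h4.ge) (sub_nonneg.2 h7),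
          mul_nonneg (sub_nonneg.2 hab.le) (sub_nonneg.2 h7)]
      have h10 : (b / a - R rm) * (1 - 1 / (b / a) * (1 / R rm)) =
          (b / a + 1 / (b / a)) - (R rm + 1 / R rm) := by
        have := hba.ne'
        have := hrm0'.ne'
        generalize b / a = r at *
        field_simp
        ring
      linarith only [h10, h5, h3]
    | false =>
      cases e2 : Nat.ble rp 1048576 with
      | true =>
        have h1 := R_le (ble_true e2)
        rw [R_one] at h1
        show R (Nat.add rp irp) ≤ _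
        rw [R_add]
        have h2 := inv1 rp
        have h3 : R irp ≤ 1 / R rp := by rw [le_div_iff₀ hrp0']; exact h2
        have h4 : a / b = 1 / (b / a) := by rw [one_div_div]
        rw [h4]
        have h5 : 0 ≤ (R rp - b / a) * (1 / (b / a) * (1 / R rp) - 1) := by
          apply mul_nonneg (by linarith only [hrp])
          have h6 : 1 ≤ 1 / (b / a) := by rw [le_div_iff₀ hba]; linarith only [h1, hrp]
          have h7 : 1 ≤ 1 / R rp := by rw [le_div_iff₀ hrp0']; linarith only [h1]
          linarith only [h6, h4, mul_nonneg (sub_nonneg.2 h3) (sub_nonneg.2 h4.le),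
            mul_nonneg (sub_nonneg.2 h3) (sub_nonneg.2 h4.ge),
            mul_nonneg (sub_nonneg.2 hi1) (sub_nonneg.2 h4.le),
            mul_nonneg (sub_nonneg.2 hi1) (sub_nonneg.2 h4.ge),
            mul_nonneg (sub_nonneg.2 hab.le) (sub_nonneg.2 h7),
            mul_nonneg (sub_nonneg.2 hab.le) (sub_nonneg.2 h4.le),
            mul_nonneg (sub_nonneg.2 hab.le) (sub_nonneg.2 h4.ge)]
        have h10 : (R rp - b / a) * (1 / (b / a) * (1 / R rp) - 1) =
            (b / a + 1 / (b / a)) - (R rp + 1 / R rp) := by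
          have := hba.ne'
          have := hrp0'.ne'
          generalize b / a = r at *
          field_simp
          ring
        linarith only [h10, h5, h3]
      | false =>
        show R 2097152 ≤ _
        have h1 : R 2097152 = 2 := by norm_num [R]
        rw [h1]
        (refine le_of_not_gt fun hng => ?_; linarith only [hng, hprod,
          sq_nonneg (1 * (b / a) - 1 * (a / b)), mul_pos (sub_pos.2 hng) (sub_pos.2 hab),
          mul_pos (sub_pos.2 hng) (sub_pos.2 hba)])
  have hch2 : b / a + a / b ≤ R chp := by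
    have a1 : R (Nat.add rm (Nat.add irm 1)) = R rm + R (Nat.add irm 1) := R_add _ _
    have a2 : R (Nat.add rp (Nat.add irp 1)) = R rp + R (Nat.add irp 1) := R_add _ _
    rw [hchp, R_mx, a1, a2]
    have h4 : a / b = 1 / (b / a) := by rw [one_div_div]
    have h1 := inv2 rm hrm0
    have h2 := inv2 rp hrp0
    have h3 : 1 / R rm ≤ R (Nat.add irm 1) := by rw [div_le_iff₀ hrm0']; exact h1
    have h3' : 1 / R rp ≤ R (Nat.add irp 1) := by rw [div_le_iff₀ hrp0']; exact h2
    rcases le_total 1 (b / a * R rp) with h5 | h5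
    · apply le_max_of_le_right
      have h6 : 0 ≤ (R rp - b / a) * (1 - 1 / (b / a) * (1 / R rp)) := by
        apply mul_nonneg (by linarith only [hrp])
        rw [one_div_mul_one_div, sub_nonneg, div_le_one (by positivity)]
        exact h5
      have h10 : (R rp - b / a) * (1 - 1 / (b / a) * (1 / R rp)) =
          (R rp + 1 / R rp) - (b / a + 1 / (b / a)) := by
        have := hba.ne'
        have := hrp0'.ne'
        generalize b / a = r at *
        field_simp
        ring
      rw [h4]
      linarith only [h10, h6, h3']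
    · apply le_max_of_le_left
      have h6 : 0 ≤ (b / a - R rm) * (1 / (b / a) * (1 / R rm) - 1) := by
        apply mul_nonneg (by linarith only [hrm])
        rw [one_div_mul_one_div, sub_nonneg, le_div_iff₀ (by positivity), one_mul]
        exact (mul_le_mul_of_nonneg_left (hrm.trans hrp) hba.le).trans h5
      have h10 : (b / a - R rm) * (1 / (b / a) * (1 / R rm) - 1) =
          (R rm + 1 / R rm) - (b / a + 1 / (b / a)) := by
        have := hba.ne'
        have := hrm0'.ne'
        generalize b / a = r at *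
        field_simp
        ring
      rw [h4]
      linarith only [h10, h6, h3]
  -- `cos β`
  have hcb : R P - R M ≤ C1 * C2 - S1 * S2 := by
    have h1 : R P ≤ C1 * C2 := (R_mf _ _).trans (mul_le_mul hC1m hC2m (R_nonneg _) hC1)
    have h2 : S1 * S2 ≤ R M := (mul_le_mul hS1p hS2p s2 (R_nonneg _)).trans (R_mc _ _)
    linarith only [h2, h1]
  -- `K < 4 c`
  have hK : b / a + a / b - 2 * (C1 * C2 - S1 * S2) < 4 * R (Nat.mul k 1024) := by
    set X := Nat.sub (Nat.add chp (Nat.mul 2 M)) (Nat.mul 2 P) with hX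
    have h1 : R chp + 2 * R M - 2 * R P ≤ R X := by
      refine le_trans (le_of_eq ?_) (R_sub_ge _ _)
      rw [R_add]
      unfold R
      rw [Nat.mul_eq, Nat.mul_eq]
      push_cast
      ring
    have h2 := Nat.lt_div_mul_add (a := 256 * X) (b := 1048576) (by norm_num)
    have h3 : (256 : ℝ) * X < ((256 * X / 1048576 : ℕ) : ℝ) * 1048576 + 1048576 := by
      exact_mod_cast h2
    have h4 : R X < 4 * R (Nat.mul k 1024) := by
      show (X : ℝ) / 1048576 < 4 * ((((256 * X / 1048576 + 1) * 1024 : ℕ) : ℝ) / 1048576)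
      rw [← mul_div_assoc]
      apply div_lt_div_of_pos_right ?_ (by norm_num)
      push_cast at h3 ⊢
      linarith only [h3]
    linarith only [h4, h1, hcb, hch2]
  refine st4_sound h ha hb u1 u2 ?_ ?_ ?_ ?_ ?_ ?_ hch1 hch2 hrm hrp hi1 hi2 hcb ?_ ?_ hK
  · -- lower bound of `N_r`
    apply R_sub_le hN0
    rw [R_add, R_one]
    have h1 : R (mf bm C2m) ≤ b * C2 := (R_mf _ _).trans (mul_le_mul hbm hC2m (R_nonneg _) hb.le)
    linarith only [h1, hUm]
  · refine le_trans ?_ (R_sub_ge _ _)
    rw [R_add, R_one]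
    have h1 : b * C2 ≤ R (mc bp C2p) := (mul_le_mul hbp hC2p hC2 (R_nonneg _)).trans (R_mc _ _)
    linarith only [h1, hUp]
  · exact (R_mf _ _).trans (mul_le_mul ham hS1m (R_nonneg _) ha.le)
  · exact (mul_le_mul hap hS1p s1 (R_nonneg _)).trans (R_mc _ _)
  · exact (R_mf _ _).trans (mul_le_mul hbm hS2m (R_nonneg _) hb.le)
  · exact (mul_le_mul hbp hS2p s2 (R_nonneg _)).trans (R_mc _ _)
  · refine (R_sr _).trans ?_
    have e : ((Nat.add (Nat.mul S1m C2m) (Nat.mul C1m S2m) : ℕ) : ℝ) / 1099511627776 =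
        R S1m * R C2m + R C1m * R S2m := by
      rw [Nat.add_eq, Nat.mul_eq, Nat.mul_eq]
      unfold R
      push_cast
      ring
    rw [e]
    exact add_le_add (mul_le_mul hS1m hC2m (R_nonneg _) s1)
      (mul_le_mul hC1m hS2m (R_nonneg _) hC1)
  · refine le_trans ?_ (R_sr1 _)
    have e : ((Nat.add (Nat.mul S1p C2p) (Nat.mul C1p S2p) : ℕ) : ℝ) / 1099511627776 =
        R S1p * R C2p + R C1p * R S2p := by
      rw [Nat.add_eq, Nat.mul_eq, Nat.mul_eq]
      unfold R
      push_cast
      ring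
    rw [e]
    exact add_le_add (mul_le_mul hS1p hC2p hC2 (R_nonneg _))
      (mul_le_mul hC1p hS2p s2 (R_nonneg _))

end Pool.Agent.S3.Ck
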