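import Pool.Agent.S3.Ck.SoundD

/-!
# Soundness of the checker: the box
-/

set_option autoImplicit false

namespace Pool.Agent.S3.Ck

open Complex

theorem st2_sound {a b C1 S1 C2 S2 : ℝ} (ha : 0 < a) (hb : 0 < b) (u1 : C1 ^ 2 + S1 ^ 2 = 1)
    (u2 : C2 ^ 2 + S2 ^ 2 = 1) (s1 : 0 ≤ S1) (s2 : 0 ≤ S2) (hC1 : 0 ≤ C1) (hC2 : 0 ≤ C2)
    (hN0 : 0 ≤ a * C1 + b * C2 - 1)
    {r0 r1 C1p C1m S1m S1p C2p C2m S2m S2p am ap Urm Urp rh ra : ℕ}
    (h : st2 r0 r1 C1p C1m S1m S1p C2p C2m S2m S2p am ap Urm Urp rh ra = true)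
    (hC1m : R C1m ≤ C1) (hC1p : C1 ≤ R C1p) (hS1m : R S1m ≤ S1) (hS1p : S1 ≤ R S1p)
    (hC2m : R C2m ≤ C2) (hC2p : C2 ≤ R C2p) (hS2m : R S2m ≤ S2) (hS2p : S2 ≤ R S2p)
    (ham : R am ≤ a) (hap : a ≤ R ap) (ham0 : 0 < am) (hUm : R Urm ≤ a * C1)
    (hUp : a * C1 ≤ R Urp) (hrh : R rh ≤ b) (hra : b ≤ R ra)
    (hr0 : R r0 ≤ b / a) (hr1 : b / a ≤ R r1) (hr00 : 0 < r0) :
    FM0 (pU a C1 S1) (pU b C2 (-S2)) := by
  have hba : 0 < b / a := div_pos hb ha
  have eb : b / a * a = b := by field_simp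
  have hb0 : R (mf r0 am) ≤ b := by
    refine (R_mf _ _).trans ?_
    rw [← eb]
    exact mul_le_mul hr0 ham (R_nonneg _) hba.le
  have hb1 : b ≤ R (mc r1 ap) := by
    refine le_trans ?_ (R_mc _ _)
    rw [← eb]
    exact mul_le_mul hr1 hap ha.le (R_nonneg _)
  unfold st2 at h
  rcases cond_t h with h1 | h1
  · rw [lt_iff] at h1
    have := R_lt h1
    linarith
  rcases cond_t h1 with h2 | h2
  · rw [lt_iff] at h2
    have := R_lt h2
    linarith
  simp only at h2
  have hbm : R (mx (mf r0 am) rh) ≤ b := by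
    rw [R_mx]
    exact max_le hb0 hrh
  have hbp : b ≤ R (mn (mc r1 ap) ra) := by
    rw [R_mn]
    exact le_min hb1 hra
  have hap0 : 0 < ap := by
    by_contra h0
    have : ap = 0 := by omega
    rw [this] at hap
    simp [R] at hap
    linarith
  refine st3_sound ha hb u1 u2 s1 s2 hC1 hC2 hN0 h2 hC1m hC1p hS1m hS1p hC2m hC2p hS2m hS2p ham hap
    hUm hUp hbm hbp ?_ ?_ ?_
  · rw [R_mx]
    apply max_le hr0
    have h3 := R_df (mx (mf r0 am) rh) (b := ap)
    rw [le_div_iff₀ ha]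
    exact (mul_le_mul_of_nonneg_left hap (R_nonneg _)).trans (h3.trans hbm)
  · rw [R_mn]
    apply le_min hr1
    have h3 := R_dc (mn (mc r1 ap) ra) ham0
    rw [div_le_iff₀ ha]
    exact hbp.trans (h3.trans (mul_le_mul_of_nonneg_left ham (R_nonneg _)))
  · have h3 : R r0 ≤ R (mx r0 (df (mx (mf r0 am) rh) ap)) := by
      rw [R_mx]
      exact le_max_left _ _
    have h4 := (R_pos hr00).trans_le h3
    by_contra h0
    have : mx r0 (df (mx (mf r0 am) rh) ap) = 0 := by omega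
    rw [this] at h4
    simp [R] at h4

/-- `(1 - x²) / (2 (y - x))` in fixed point. -/
private theorem hyp_le {x y : ℕ} {A C : ℝ} (hx : x < 1048576) (hxy : x < y) (hA : 0 < A)
    (hC : C ≤ R y) (h : 1 - R x ^ 2 ≤ 2 * A * (C - R x)) :
    R (hyf x y) ≤ A := by
  have h1 := Nat.div_mul_le_self (1099511627776 - x * x) (2 * (y - x))
  have hx2 : x * x ≤ 1099511627776 := by nlinarith
  have h2 : (((1099511627776 - x * x) / (2 * (y - x)) : ℕ) : ℝ) * (2 * ((y : ℝ) - x)) ≤
      1099511627776 - (x : ℝ) * x := by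
    have := (Nat.cast_le (α := ℝ)).mpr h1
    push_cast [hx2, hxy.le] at this
    exact this
  have hpos : (0 : ℝ) < (y : ℝ) - x := by
    have : (x : ℝ) < y := by exact_mod_cast hxy
    linarith
  have h3 : 2 * A * (C - R x) ≤ 2 * A * (R y - R x) :=
    mul_le_mul_of_nonneg_left (by linarith) (by linarith)
  have h4 : 1 - R x ^ 2 ≤ 2 * A * (R y - R x) := h.trans h3
  have e0 : R (hyf x y) = (((1099511627776 - x * x) / (2 * (y - x)) : ℕ) : ℝ) / 1048576 := rfl
  rw [e0]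
  unfold R at h4
  set q : ℝ := (((1099511627776 - x * x) / (2 * (y - x)) : ℕ) : ℝ) with hq
  have h5 : 1099511627776 - (x : ℝ) * x ≤ 1048576 * A * (2 * ((y : ℝ) - x)) := by
    have e : (1 - ((x : ℝ) / 1048576) ^ 2) * 1099511627776 = 1099511627776 - (x : ℝ) * x := by
      ring
    have e2 : 2 * A * ((y : ℝ) / 1048576 - (x : ℝ) / 1048576) * 1099511627776 =
        1048576 * A * (2 * ((y : ℝ) - x)) := by ring
    have := mul_le_mul_of_nonneg_right h4 (show (0 : ℝ) ≤ 1099511627776 by norm_num)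
    rw [e, e2] at this
    exact this
  have h6 : q * (2 * ((y : ℝ) - x)) ≤ 1048576 * A * (2 * ((y : ℝ) - x)) := h2.trans h5
  have h7 := le_of_mul_le_mul_right h6 (by linarith)
  rw [div_le_iff₀ (by norm_num)]
  linarith

private theorem hyp_ge {x y : ℕ} {A C : ℝ} (hx : x < 1048576) (hxy : x < y) (hA : 0 < A)
    (hC : R y ≤ C) (h : 2 * A * (C - R x) = 1 - R x ^ 2) :
    A ≤ R (Nat.add (hyf x y) 1) := by
  have h1 := Nat.lt_div_mul_add (a := 1099511627776 - x * x) (b := 2 * (y - x)) (by omega)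
  have hx2 : x * x ≤ 1099511627776 := by nlinarith
  have h2 : 1099511627776 - (x : ℝ) * x < (((1099511627776 - x * x) / (2 * (y - x)) : ℕ) : ℝ) *
      (2 * ((y : ℝ) - x)) + 2 * ((y : ℝ) - x) := by
    have := (Nat.cast_lt (α := ℝ)).mpr h1
    push_cast [hx2, hxy.le] at this
    exact this
  have hpos : (0 : ℝ) < (y : ℝ) - x := by
    have : (x : ℝ) < y := by exact_mod_cast hxy
    linarith
  have h4 : 2 * A * (R y - R x) ≤ 1 - R x ^ 2 := by
    rw [← h]
    exact mul_le_mul_of_nonneg_left (by linarith) (by linarith)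
  have e0 : R (Nat.add (hyf x y) 1) =
      (((1099511627776 - x * x) / (2 * (y - x)) + 1 : ℕ) : ℝ) / 1048576 := rfl
  rw [e0]
  unfold R at h4
  rw [Nat.cast_add, Nat.cast_one]
  set q : ℝ := (((1099511627776 - x * x) / (2 * (y - x)) : ℕ) : ℝ) with hq
  have h5 : 1048576 * A * (2 * ((y : ℝ) - x)) ≤ 1099511627776 - (x : ℝ) * x := by
    have e : (1 - ((x : ℝ) / 1048576) ^ 2) * 1099511627776 = 1099511627776 - (x : ℝ) * x := by
      ring
    have e2 : 2 * A * ((y : ℝ) / 1048576 - (x : ℝ) / 1048576) * 1099511627776 =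
        1048576 * A * (2 * ((y : ℝ) - x)) := by ring
    have := mul_le_mul_of_nonneg_right h4 (show (0 : ℝ) ≤ 1099511627776 by norm_num)
    rw [e, e2] at this
    exact this
  have h6 : 1048576 * A * (2 * ((y : ℝ) - x)) ≤ (q + 1) * (2 * ((y : ℝ) - x)) := by linarith
  have h7 := le_of_mul_le_mul_right h6 (by linarith)
  rw [le_div_iff₀ (by norm_num)]
  linarith

/-- The denominator of the verticals. -/
private theorem den_eq {p n : ℕ} (hp : p < 1048576) (hn : n ≤ 1048576) (h : p = 0 ∨ n = 0) :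
    ((1099511627776 - p * p - n * n : ℕ) : ℝ) = 1099511627776 * (1 - (R p - R n) ^ 2) := by
  have h1 : p * p ≤ 1099511627776 := by nlinarith
  have h2 : n * n ≤ 1099511627776 - p * p := by
    rcases h with h | h
    · subst h
      have : n * n ≤ 1048576 * 1048576 := Nat.mul_le_mul hn hn
      omega
    · subst h
      omega
  rw [Nat.cast_sub h2, Nat.cast_sub h1]
  unfold R
  rcases h with h | h
  · subst h
    push_cast
    ring
  · subst h
    push_cast
    ring

private theorem vlf_ge {p n y : ℕ} {A C : ℝ} (hp : p < 1048576) (hn : n < 1048576)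
    (hpn : p = 0 ∨ n = 0) (hC : C ≤ R y)
    (h : A * (1 - (R p - R n) ^ 2) ≤ 2 * (C + (R p - R n))) :
    A ≤ R (Nat.add (vlf p n y) 1) := by
  have hden := den_eq hp hn.le hpn
  have hd0 : 0 < 1099511627776 - p * p - n * n := by
    have h1 : p * p < 1099511627776 := by nlinarith
    rcases hpn with h | h
    · subst h
      have : n * n < 1099511627776 := by nlinarith
      omega
    · subst h
      omega
  have h1 := Nat.lt_div_mul_add (a := 2 * ((y + p) - n) * 1099511627776)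
    (b := 1099511627776 - p * p - n * n) hd0
  have h2 := (Nat.cast_lt (α := ℝ)).mpr h1
  rw [Nat.cast_add, Nat.cast_mul, Nat.cast_mul, Nat.cast_mul, hden] at h2
  have hq : R y + R p - R n ≤ R ((y + p) - n) := by
    refine le_trans (le_of_eq ?_) (R_sub_ge _ _)
    have : R (y + p) = R y + R p := R_add y p
    rw [this]
  have e0 : R (Nat.add (vlf p n y) 1) = ((2 * ((y + p) - n) * 1099511627776 /
      (1099511627776 - p * p - n * n) + 1 : ℕ) : ℝ) / 1048576 := rfl
  rw [e0, Nat.cast_add, Nat.cast_one]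
  set q : ℝ := ((2 * ((y + p) - n) * 1099511627776 /
      (1099511627776 - p * p - n * n) : ℕ) : ℝ) with hqd
  have e1 : (((y + p) - n : ℕ) : ℝ) = 1048576 * R ((y + p) - n) := by
    unfold R; ring
  rw [e1] at h2
  push_cast at h2
  have hdp : (0 : ℝ) < 1 - (R p - R n) ^ 2 := by
    have : (0 : ℝ) < ((1099511627776 - p * p - n * n : ℕ) : ℝ) := by exact_mod_cast hd0
    rw [hden] at this
    linarith
  have h3 : A * (1 - (R p - R n) ^ 2) ≤ 2 * R ((y + p) - n) := by linarith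
  have h4 : A * 1048576 * (1 - (R p - R n) ^ 2) ≤ (q + 1) * (1 - (R p - R n) ^ 2) := by
    nlinarith
  have h5 := le_of_mul_le_mul_right h4 hdp
  rw [le_div_iff₀ (by norm_num)]
  exact h5

private theorem vlf_le {p n y : ℕ} {A C : ℝ} (hA : 0 < A) (hp : p < 1048576) (hn : n ≤ 1048576)
    (hpn : p = 0 ∨ n = 0) (hC : R y ≤ C)
    (h : 2 * (C + (R p - R n)) ≤ A * (1 - (R p - R n) ^ 2)) :
    R (vlf p n y) ≤ A := by
  have hden := den_eq hp hn hpn
  have e0 : R (vlf p n y) = ((2 * ((y + p) - n) * 1099511627776 /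
      (1099511627776 - p * p - n * n) : ℕ) : ℝ) / 1048576 := rfl
  rw [e0]
  rcases Nat.eq_zero_or_pos (1099511627776 - p * p - n * n) with hd0 | hd0
  · rw [hd0, Nat.div_zero]
    simp only [Nat.cast_zero, zero_div]
    exact hA.le
  have h1 := Nat.div_mul_le_self (2 * ((y + p) - n) * 1099511627776)
    (1099511627776 - p * p - n * n)
  have h2 := (Nat.cast_le (α := ℝ)).mpr h1
  rw [Nat.cast_mul, Nat.cast_mul, Nat.cast_mul, hden] at h2
  have hdp : (0 : ℝ) < 1 - (R p - R n) ^ 2 := by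
    have : (0 : ℝ) < ((1099511627776 - p * p - n * n : ℕ) : ℝ) := by exact_mod_cast hd0
    rw [hden] at this
    linarith
  have hq : 2 * R ((y + p) - n) ≤ A * (1 - (R p - R n) ^ 2) := by
    rcases le_total 0 (C + (R p - R n)) with hc | hc
    · have : R ((y + p) - n) ≤ C + (R p - R n) := by
        apply R_sub_le hc
        have : R (y + p) = R y + R p := R_add y p
        linarith
      linarith
    · have : R ((y + p) - n) ≤ 0 := by
        apply R_sub_le le_rfl
        have : R (y + p) = R y + R p := R_add y p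
        linarith
      have h9 : 0 ≤ A * (1 - (R p - R n) ^ 2) := mul_nonneg hA.le hdp.le
      linarith
  set q : ℝ := ((2 * ((y + p) - n) * 1099511627776 /
      (1099511627776 - p * p - n * n) : ℕ) : ℝ) with hqd
  have e1 : (((y + p) - n : ℕ) : ℝ) = 1048576 * R ((y + p) - n) := by
    unfold R; ring
  rw [e1] at h2
  push_cast at h2
  have h4 : q * (1 - (R p - R n) ^ 2) ≤ A * 1048576 * (1 - (R p - R n) ^ 2) := by
    nlinarith
  have h5 := le_of_mul_le_mul_right h4 hdp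
  rw [div_le_iff₀ (by norm_num)]
  exact h5

section

variable {c mp mn lp ln d up un kp kn : ℕ} {a b C1 S1 C2 S2 : ℝ}

theorem Pt.alo_le (H : Pt c mp mn lp ln a C1 S1) {Cm Cp : ℕ} (hCm : R Cm ≤ C1)
    (hCp : C1 ≤ R Cp) (hc : c < Cp) : R (alo c lp ln Cm Cp) ≤ a := by
  unfold alo
  rw [R_mx]
  exact max_le (hyp_le H.k1 hc H.ha hCp H.hy) (vlf_le H.ha H.k4 H.k5 H.k7 hCm H.lo)

theorem Pt.vhi (H : Pt c mp mn lp ln a C1 S1) {Cp : ℕ} (hCp : C1 ≤ R Cp) :
    a ≤ R (Nat.add (vlf mp mn Cp) 1) := vlf_ge H.k2 H.k3 H.k6 hCp H.ve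

theorem Pt.ahi_ge (H : Pt c mp mn lp ln a C1 S1) (ho : 2 * a * (C1 - R c) = 1 - R c ^ 2)
    {Cm Cp : ℕ} (hCm : R Cm ≤ C1) (hCp : C1 ≤ R Cp) : a ≤ R (ahi c mp mn Cm Cp) := by
  unfold ahi
  rcases Bool.eq_false_or_eq_true (Nat.ble Cm c) with e | e
  · rw [e, cond_true]
    exact H.vhi hCp
  · rw [e, cond_false, R_mn]
    exact le_min (H.vhi hCp) (hyp_ge H.k1 (ble_false e) H.ha hCm ho)

theorem urf_le {am : ℕ} (ho : 2 * a * (C1 - R c) = 1 - R c ^ 2) (ha : R am ≤ a)
    (hc : R c ≤ 2 * a) : R (urf c am) ≤ a * C1 := by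
  have e1 : a * C1 = (1 + (2 * a - R c) * R c) / 2 := by linear_combination ho / 2
  rw [e1]
  have h3 := Nat.div_mul_le_self (1099511627776 + (2 * am - c) * c) 2097152
  have h4 : (((1099511627776 + (2 * am - c) * c) / 2097152 : ℕ) : ℝ) *
      2097152 ≤ 1099511627776 + ((2 * am - c : ℕ) : ℝ) * c := by
    exact_mod_cast h3
  have h5 : R (2 * am - c) ≤ 2 * a - R c := by
    apply R_sub_le (by linarith)
    have e : R (2 * am) = 2 * R am := by
      unfold R
      push_cast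
      ring
    rw [e]
    linarith
  have h6 : R (2 * am - c) * R c ≤ (2 * a - R c) * R c :=
    mul_le_mul_of_nonneg_right h5 (R_nonneg _)
  have e0 : R (urf c am) = (((1099511627776 + (2 * am - c) * c) / 2097152 : ℕ) : ℝ) / 1048576 :=
    rfl
  rw [e0]
  have e2 : (1 + R (2 * am - c) * R c) / 2 =
      (1099511627776 + ((2 * am - c : ℕ) : ℝ) * c) / 2199023255552 := by
    unfold R
    ring
  have h7 : (((1099511627776 + (2 * am - c) * c) / 2097152 : ℕ) : ℝ) / 1048576 ≤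
      (1 + R (2 * am - c) * R c) / 2 := by
    rw [e2, div_le_div_iff₀ (by norm_num) (by norm_num)]
    linarith
  linarith

theorem urf_ge {ap : ℕ} (ho : 2 * a * (C1 - R c) = 1 - R c ^ 2) (ha : a ≤ R ap) :
    a * C1 ≤ R (Nat.add (urf c ap) 1) := by
  have e1 : a * C1 = (1 + (2 * a - R c) * R c) / 2 := by linear_combination ho / 2
  rw [e1]
  have h3 := Nat.lt_div_mul_add (a := 1099511627776 + (2 * ap - c) * c) (b := 2097152)
    (by norm_num)
  have h4 : (1099511627776 : ℝ) + ((2 * ap - c : ℕ) : ℝ) * c <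
      (((1099511627776 + (2 * ap - c) * c) / 2097152 : ℕ) : ℝ) * 2097152 + 2097152 := by
    exact_mod_cast h3
  have h5 : 2 * a - R c ≤ R (2 * ap - c) := by
    refine le_trans ?_ (R_sub_ge _ _)
    have e : R (2 * ap) = 2 * R ap := by
      unfold R
      push_cast
      ring
    rw [e]
    linarith
  have h6 : (2 * a - R c) * R c ≤ R (2 * ap - c) * R c :=
    mul_le_mul_of_nonneg_right h5 (R_nonneg _)
  have e0 : R (Nat.add (urf c ap) 1) =
      (((1099511627776 + (2 * ap - c) * c) / 2097152 + 1 : ℕ) : ℝ) / 1048576 := rfl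
  rw [e0, Nat.cast_add, Nat.cast_one]
  have e2 : (1 + R (2 * ap - c) * R c) / 2 =
      (1099511627776 + ((2 * ap - c : ℕ) : ℝ) * c) / 2199023255552 := by
    unfold R
    ring
  have h7 : (1 + R (2 * ap - c) * R c) / 2 ≤
      ((((1099511627776 + (2 * ap - c) * c) / 2097152 : ℕ) : ℝ) + 1) / 1048576 := by
    rw [e2, div_le_div_iff₀ (by norm_num) (by norm_num)]
    linarith
  linarith

theorem st1H_sound (H : Pt c mp mn lp ln a C1 S1) (ho : 2 * a * (C1 - R c) = 1 - R c ^ 2)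
    (K : Pt d up un kp kn b C2 S2) {r0 r1 C1p C1m S1m S1p C2p C2m S2m S2p : ℕ}
    (h : st1H c mp mn lp ln d up un kp kn r0 r1 C1p C1m S1m S1p C2p C2m S2m S2p = true)
    (hC1m : R C1m ≤ C1) (hC1p : C1 ≤ R C1p) (hS1m : R S1m ≤ S1) (hS1p : S1 ≤ R S1p)
    (hC2m : R C2m ≤ C2) (hC2p : C2 ≤ R C2p) (hS2m : R S2m ≤ S2) (hS2p : S2 ≤ R S2p)
    (hr0 : R r0 ≤ b / a) (hr1 : b / a ≤ R r1) (hr00 : 0 < r0) :
    FM0 (pU a C1 S1) (pU b C2 (-S2)) := by
  unfold st1H at h
  rcases cond_t h with h1 | h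
  · have h2 := R_le (ble_true h1)
    have := H.Cgt
    linarith
  rcases cond_t h with h1' | h
  · have h3 := R_le (ble_true h1')
    have := K.Cgt
    linarith
  have h1 : c < C1p := by
    by_contra hn
    have := R_le (not_lt.mp hn)
    have := H.Cgt
    linarith
  have h2 : d < C2p := by
    by_contra hn
    have := R_le (not_lt.mp hn)
    have := K.Cgt
    linarith
  simp only at h
  have ham := H.alo_le hC1m hC1p h1
  have hap := H.ahi_ge ho hC1m hC1p
  rcases cond_t h with h3 | h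
  · rw [lt_iff] at h3
    have := R_lt h3
    linarith
  obtain ⟨h4, h5⟩ := cond_f h
  rw [lt_iff] at h4
  refine st2_sound H.ha K.ha H.u K.u H.s K.s H.C0.le K.C0.le (by linarith [H.re, K.re]) h5 hC1m hC1p
    hS1m hS1p hC2m hC2p hS2m hS2p ham hap h4 (urf_le ho ham ?_) (urf_ge ho hap)
    (K.alo_le hC2m hC2p h2) (K.vhi hC2p) hr0 hr1 hr00
  have := H.ge
  linarith

theorem st1V_sound (H : Pt c mp mn lp ln a C1 S1) (hln : ln < 1048576)
    (ho : a * (1 - (R lp - R ln) ^ 2) = 2 * (C1 + (R lp - R ln)))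
    (K : Pt d up un kp kn b C2 S2) {r0 r1 C1p C1m S1m S1p C2p C2m S2m S2p : ℕ}
    (h : st1V c lp ln d up un kp kn r0 r1 C1p C1m S1m S1p C2p C2m S2m S2p = true)
    (hC1m : R C1m ≤ C1) (hC1p : C1 ≤ R C1p) (hS1m : R S1m ≤ S1) (hS1p : S1 ≤ R S1p)
    (hC2m : R C2m ≤ C2) (hC2p : C2 ≤ R C2p) (hS2m : R S2m ≤ S2) (hS2p : S2 ≤ R S2p)
    (hr0 : R r0 ≤ b / a) (hr1 : b / a ≤ R r1) (hr00 : 0 < r0) :
    FM0 (pU a C1 S1) (pU b C2 (-S2)) := by
  unfold st1V at h
  rcases cond_t h with h1 | h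
  · have h2 := R_le (ble_true h1)
    have := H.Cgt
    linarith
  rcases cond_t h with h1' | h
  · have h3 := R_le (ble_true h1')
    have := K.Cgt
    linarith
  have h1 : c < C1p := by
    by_contra hn
    have := R_le (not_lt.mp hn)
    have := H.Cgt
    linarith
  have h2 : d < C2p := by
    by_contra hn
    have := R_le (not_lt.mp hn)
    have := K.Cgt
    linarith
  simp only at h
  have ham := H.alo_le hC1m hC1p h1
  have hap : a ≤ R (Nat.add (vlf lp ln C1p) 1) := vlf_ge H.k4 hln H.k7 hC1p ho.le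
  rcases cond_t h with h3 | h
  · rw [lt_iff] at h3
    have := R_lt h3
    linarith
  obtain ⟨h4, h5⟩ := cond_f h
  rw [lt_iff] at h4
  exact st2_sound H.ha K.ha H.u K.u H.s K.s H.C0.le K.C0.le (by linarith [H.re, K.re]) h5 hC1m hC1p
    hS1m hS1p hC2m hC2p hS2m hS2p ham hap h4
    ((R_mf _ _).trans (mul_le_mul ham hC1m (R_nonneg _) H.ha.le))
    ((mul_le_mul hap hC1p H.C0.le (R_nonneg _)).trans (R_mc _ _))
    (K.alo_le hC2m hC2p h2) (K.vhi hC2p) hr0 hr1 hr00

end

end Pool.Agent.S3.Ck
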