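import Pool.Agent.S3.Ck.SoundE

/-!
# Soundness of the checker: the recursion and the regions
-/

set_option autoImplicit false

namespace Pool.Agent.S3.Ck

open Complex

private theorem R_le_iff {x y : ℕ} (h : R x ≤ R y) : x ≤ y := by
  unfold R at h
  have h4 : (x : ℝ) ≤ y := by linarith
  exact_mod_cast h4

/-- Soundness of a leaf test at a pair. -/
def LeafOK (f : ℕ → ℕ → ℕ → ℕ → ℕ → ℕ → Bool) (a b C1 S1 C2 S2 : ℝ) : Prop :=
  ∀ {x0 x1 y0 y1 r0 r1 : ℕ}, f x0 x1 y0 y1 r0 r1 = true → x1 ≤ 1048576 → y1 ≤ 1048576 →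
    R x0 * (1 + C1) ≤ S1 → S1 ≤ R x1 * (1 + C1) → R y0 * (1 + C2) ≤ S2 →
    S2 ≤ R y1 * (1 + C2) → R r0 ≤ b / a → b / a ≤ R r1 → FM0 (pU a C1 S1) (pU b C2 (-S2))

section

variable {c mp mn lp ln d up un kp kn : ℕ} {a b C1 S1 C2 S2 : ℝ}

theorem leafH_ok (H : Pt c mp mn lp ln a C1 S1) (ho : 2 * a * (C1 - R c) = 1 - R c ^ 2)
    (K : Pt d up un kp kn b C2 S2) :
    LeafOK (leafH c mp mn lp ln d up un kp kn) a b C1 S1 C2 S2 := by
  intro x0 x1 y0 y1 r0 r1 h hx hy hx0 hx1 hy0 hy1 hr0 hr1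
  unfold leafH at h
  obtain ⟨h1, h2⟩ := cond_f h
  rw [lt_iff] at h1
  have hC1 := H.C0
  have hC2 := K.C0
  have hx1' : R x1 ≤ 1 := by rw [← R_one]; exact R_le hx
  have hy1' : R y1 ≤ 1 := by rw [← R_one]; exact R_le hy
  have hxx : x0 ≤ 1048576 :=
    (R_le_iff (le_of_mul_le_mul_right (hx0.trans hx1) (by linarith))).trans hx
  have hyy : y0 ≤ 1048576 :=
    (R_le_iff (le_of_mul_le_mul_right (hy0.trans hy1) (by linarith))).trans hy
  obtain ⟨p1, p2, p3, p4⟩ := CS_bounds H.u hC1 H.s (R_nonneg x0) hx1' hx0 hx1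
  obtain ⟨q1, q2, q3, q4⟩ := CS_bounds K.u hC2 K.s (R_nonneg y0) hy1' hy0 hy1
  exact st1H_sound H ho K h2 ((R_cf hx).trans p1) (p2.trans (R_cf1 hxx)) ((R_sf x0).trans p3)
    (p4.trans (R_sf1 x1)) ((R_cf hy).trans q1) (q2.trans (R_cf1 hyy)) ((R_sf y0).trans q3)
    (q4.trans (R_sf1 y1)) hr0 hr1 h1

theorem leafV_ok (H : Pt c mp mn lp ln a C1 S1) (hln : ln < 1048576)
    (ho : a * (1 - (R lp - R ln) ^ 2) = 2 * (C1 + (R lp - R ln)))
    (K : Pt d up un kp kn b C2 S2) :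
    LeafOK (leafV c lp ln d up un kp kn) a b C1 S1 C2 S2 := by
  intro x0 x1 y0 y1 r0 r1 h hx hy hx0 hx1 hy0 hy1 hr0 hr1
  unfold leafV at h
  obtain ⟨h1, h2⟩ := cond_f h
  rw [lt_iff] at h1
  have hC1 := H.C0
  have hC2 := K.C0
  have hx1' : R x1 ≤ 1 := by rw [← R_one]; exact R_le hx
  have hy1' : R y1 ≤ 1 := by rw [← R_one]; exact R_le hy
  have hxx : x0 ≤ 1048576 :=
    (R_le_iff (le_of_mul_le_mul_right (hx0.trans hx1) (by linarith))).trans hx
  have hyy : y0 ≤ 1048576 :=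
    (R_le_iff (le_of_mul_le_mul_right (hy0.trans hy1) (by linarith))).trans hy
  obtain ⟨p1, p2, p3, p4⟩ := CS_bounds H.u hC1 H.s (R_nonneg x0) hx1' hx0 hx1
  obtain ⟨q1, q2, q3, q4⟩ := CS_bounds K.u hC2 K.s (R_nonneg y0) hy1' hy0 hy1
  exact st1V_sound H hln ho K h2 ((R_cf hx).trans p1) (p2.trans (R_cf1 hxx)) ((R_sf x0).trans p3)
    (p4.trans (R_sf1 x1)) ((R_cf hy).trans q1) (q2.trans (R_cf1 hyy)) ((R_sf y0).trans q3)
    (q4.trans (R_sf1 y1)) hr0 hr1 h1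

theorem chk_sound {f : ℕ → ℕ → ℕ → ℕ → ℕ → ℕ → Bool} (hf : LeafOK f a b C1 S1 C2 S2)
    (hC1 : 0 < C1) (hC2 : 0 < C2) (n : ℕ) :
    ∀ {x0 x1 y0 y1 r0 r1 : ℕ}, chk f n x0 x1 y0 y1 r0 r1 = true →
      x1 ≤ 1048576 → y1 ≤ 1048576 →
      R x0 * (1 + C1) ≤ S1 → S1 ≤ R x1 * (1 + C1) → R y0 * (1 + C2) ≤ S2 →
      S2 ≤ R y1 * (1 + C2) → R r0 ≤ b / a → b / a ≤ R r1 →
      FM0 (pU a C1 S1) (pU b C2 (-S2)) := by
  have hmid : ∀ u v : ℕ, v ≤ 1048576 → u ≤ v → Nat.div (Nat.add u v) 2 ≤ 1048576 := by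
    intro u v h1 h2
    show (u + v) / 2 ≤ 1048576
    omega
  induction n with
  | zero =>
    intro x0 x1 y0 y1 r0 r1 h hx hy h1 h2 h3 h4 h5 h6
    exact hf h hx hy h1 h2 h3 h4 h5 h6
  | succ n ih =>
    intro x0 x1 y0 y1 r0 r1 h hx hy h1 h2 h3 h4 h5 h6
    change cond (f x0 x1 y0 y1 r0 r1) true _ = true at h
    rcases cond_t h with h0 | h0
    · exact hf h0 hx hy h1 h2 h3 h4 h5 h6
    have hxx : x0 ≤ x1 := R_le_iff (le_of_mul_le_mul_right (h1.trans h2) (by linarith))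
    have hyy : y0 ≤ y1 := R_le_iff (le_of_mul_le_mul_right (h3.trans h4) (by linarith))
    rcases cond_g h0 with ⟨-, h7⟩ | ⟨-, h7⟩
    · obtain ⟨h8, h9⟩ := cond_f h7
      rcases le_total S1 (R (Nat.div (Nat.add x0 x1) 2) * (1 + C1)) with h10 | h10
      · exact ih h8 (hmid _ _ hx hxx) hy h1 h10 h3 h4 h5 h6
      · exact ih h9 hx hy h10 h2 h3 h4 h5 h6
    · rcases cond_g h7 with ⟨-, h8⟩ | ⟨-, h8⟩
      · obtain ⟨h9, h11⟩ := cond_f h8
        rcases le_total S2 (R (Nat.div (Nat.add y0 y1) 2) * (1 + C2)) with h10 | h10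
        · exact ih h9 hx (hmid _ _ hy hyy) h1 h2 h3 h10 h5 h6
        · exact ih h11 hx hy h1 h2 h10 h4 h5 h6
      · obtain ⟨h9, h11⟩ := cond_f h8
        rcases le_total (b / a) (R (Nat.div (Nat.add r0 r1) 2)) with h10 | h10
        · exact ih h9 hx hy h1 h2 h3 h4 h5 h10
        · exact ih h11 hx hy h1 h2 h3 h4 h10 h6

end

/-- The data of a point: the hyperbola, the upper and the lower vertical. -/
structure PD where
  /-- hyperbola -/
  c : ℕ
  /-- upper vertical, positive part -/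
  mp : ℕ
  /-- upper vertical, negative part -/
  mn : ℕ
  /-- lower vertical, positive part -/
  lp : ℕ
  /-- lower vertical, negative part -/
  ln : ℕ

/-- The points of the region. -/
def PD.P (p : PD) (a C S : ℝ) : Prop := Pt p.c p.mp p.mn p.lp p.ln a C S

/-- The criterion for a first point on its hyperbola. -/
def FaceH (p q : PD) : Prop := ∀ {a b C1 S1 C2 S2 : ℝ}, p.P a C1 S1 → q.P b C2 S2 →
  2 * a * (C1 - R p.c) = 1 - R p.c ^ 2 → FM0 (pU a C1 S1) (pU b C2 (-S2))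

/-- The criterion for a first point on its lower vertical. -/
def FaceV (p q : PD) : Prop := ∀ {a b C1 S1 C2 S2 : ℝ}, p.P a C1 S1 → q.P b C2 S2 →
  a * (1 - (R p.lp - R p.ln) ^ 2) = 2 * (C1 + (R p.lp - R p.ln)) →
  FM0 (pU a C1 S1) (pU b C2 (-S2))

/-- The criterion for all pairs. -/
def Rgn (p q : PD) : Prop := ∀ {a b C1 S1 C2 S2 : ℝ}, p.P a C1 S1 → q.P b C2 S2 →
  FM0 (pU a C1 S1) (pU b C2 (-S2))

/-- The conditions on the initial box. -/
def box (c mp mn d up un x1 y1 r0 r1 : ℕ) : Bool :=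
  cond (Nat.ble x1 1048576) (cond (Nat.ble y1 1048576)
    (cond (Nat.ble ((1048576 - c) * 1099511627776) (x1 * x1 * (1048576 + c)))
      (cond (Nat.ble ((1048576 - d) * 1099511627776) (y1 * y1 * (1048576 + d)))
        (cond (Nat.ble (4 * r0 * 1048576 + (1048576 + d) * mp) ((1048576 + d) * (1048576 + mn)))
          (Nat.ble (4 * 1152921504606846976 + r1 * (1048576 + c) * up)
            (r1 * (1048576 + c) * (1048576 + un))) false) false) false) false) false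

section

variable {c mp mn lp ln d up un kp kn : ℕ} {a b C1 S1 C2 S2 : ℝ}

/-- The half angle. -/
theorem Pt.half (H : Pt c mp mn lp ln a C1 S1) {x : ℕ}
    (hx : (1048576 - c) * 1099511627776 ≤ x * x * (1048576 + c)) : S1 ≤ R x * (1 + C1) := by
  have h1 : (1 - R c) ≤ R x ^ 2 * (1 + R c) := by
    have h2 := (Nat.cast_le (α := ℝ)).mpr hx
    rw [Nat.cast_mul, Nat.cast_sub H.k1.le] at h2
    push_cast at h2
    unfold R
    have e1 : 1 - (c : ℝ) / 1048576 = (1048576 - c) * 1099511627776 / 1152921504606846976 := by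
      ring
    have e2 : ((x : ℝ) / 1048576) ^ 2 * (1 + (c : ℝ) / 1048576) =
        x * x * (1048576 + c) / 1152921504606846976 := by ring
    rw [e1, e2]
    gcongr
  have hC := H.Cgt
  have hc0 := R_nonneg c
  have hC1 := H.Cle
  -- `S² = (1 - C) (1 + C) ≤ X² (1 + C)²`
  apply le_of_sq_le_sq ?_ (mul_nonneg (R_nonneg _) (by linarith [H.C0]))
  have h3 : (1 - C1) ≤ R x ^ 2 * (1 + C1) := by
    have h4 : (1 - C1) * (1 + R c) ≤ (1 - R c) * (1 + C1) := by nlinarith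
    have h5 : (1 - R c) * (1 + C1) ≤ R x ^ 2 * (1 + R c) * (1 + C1) :=
      mul_le_mul_of_nonneg_right h1 (by linarith [H.C0])
    have h6 : (1 - C1) * (1 + R c) ≤ R x ^ 2 * (1 + C1) * (1 + R c) := by linarith
    exact le_of_mul_le_mul_right h6 (by linarith)
  have h7 : S1 ^ 2 = (1 - C1) * (1 + C1) := by linear_combination H.u
  rw [h7, mul_pow]
  nlinarith [H.C0]

theorem Pt.a_le (H : Pt c mp mn lp ln a C1 S1) : a * (1 - (R mp - R mn)) ≤ 2 := by
  have h1 := H.ve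
  have h2 := H.Cle
  set m := R mp - R mn with hm
  have h3 : 0 < 1 + m := by
    have h4 := R_nonneg mp
    have h5 := R_lt1 H.k3
    rw [hm]
    linarith
  have h6 : (a * (1 - m)) * (1 + m) ≤ 2 * (1 + m) := by nlinarith
  exact le_of_mul_le_mul_right h6 h3

theorem Pt.m_lt (H : Pt c mp mn lp ln a C1 S1) : 0 < 1 - (R mp - R mn) := by
  have h4 := R_nonneg mn
  have h5 := R_lt1 H.k2
  linarith

theorem ratio (H : Pt c mp mn lp ln a C1 S1) (K : Pt d up un kp kn b C2 S2) {r0 r1 : ℕ}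
    (h0 : 4 * r0 * 1048576 + (1048576 + d) * mp ≤ (1048576 + d) * (1048576 + mn))
    (h1 : 4 * 1152921504606846976 + r1 * (1048576 + c) * up ≤
      r1 * (1048576 + c) * (1048576 + un)) : R r0 ≤ b / a ∧ b / a ≤ R r1 := by
  have ha := H.ha
  have hb := K.ha
  constructor
  · rw [le_div_iff₀ ha]
    have g1 : 4 * R r0 ≤ (1 + R d) * (1 - (R mp - R mn)) := by
      have h2 := (Nat.cast_le (α := ℝ)).mpr h0
      push_cast at h2
      unfold R
      have e1 : (1 + (d : ℝ) / 1048576) * (1 - ((mp : ℝ) / 1048576 - mn / 1048576)) =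
          ((1048576 + d) * (1048576 + mn) - (1048576 + d) * mp) / 1099511627776 := by ring
      have e2 : 4 * ((r0 : ℝ) / 1048576) = 4 * r0 * 1048576 / 1099511627776 := by ring
      rw [e1, e2]
      apply div_le_div_of_nonneg_right ?_ (by norm_num)
      linarith
    have g2 := H.a_le
    have g3 := K.ge
    have g4 : 0 ≤ 1 + R d := by linarith [R_nonneg d]
    have g5 : 4 * R r0 * a ≤ (1 + R d) * (1 - (R mp - R mn)) * a :=
      mul_le_mul_of_nonneg_right g1 ha.le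
    have g6 : (1 + R d) * (a * (1 - (R mp - R mn))) ≤ (1 + R d) * 2 :=
      mul_le_mul_of_nonneg_left g2 g4
    nlinarith
  · rw [div_le_iff₀ ha]
    have g1 : 4 ≤ R r1 * (1 + R c) * (1 - (R up - R un)) := by
      have h2 := (Nat.cast_le (α := ℝ)).mpr h1
      push_cast at h2
      unfold R
      have e1 : (r1 : ℝ) / 1048576 * (1 + (c : ℝ) / 1048576) *
          (1 - ((up : ℝ) / 1048576 - un / 1048576)) =
          (r1 * (1048576 + c) * (1048576 + un) - r1 * (1048576 + c) * up) /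
            1152921504606846976 := by ring
      rw [e1, le_div_iff₀ (by norm_num)]
      linarith
    have g2 := K.a_le
    have g3 := H.ge
    have g7 := K.m_lt
    have g8 := R_nonneg r1
    -- `4 b ≤ R r1 (1 + c) (1 - m) b ≤ 2 R r1 (1 + c) ≤ 4 R r1 a`
    have g9 : 4 * b ≤ R r1 * (1 + R c) * (1 - (R up - R un)) * b :=
      mul_le_mul_of_nonneg_right g1 hb.le
    have g10 : R r1 * (1 + R c) * (b * (1 - (R up - R un))) ≤ R r1 * (1 + R c) * 2 :=
      mul_le_mul_of_nonneg_left g2 (mul_nonneg g8 (by linarith [R_nonneg c]))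
    have g11 : R r1 * (1 + R c) ≤ R r1 * (2 * a) := mul_le_mul_of_nonneg_left g3 g8
    nlinarith

private theorem box_split {x1 y1 r0 r1 : ℕ} (h : box c mp mn d up un x1 y1 r0 r1 = true) :
    x1 ≤ 1048576 ∧ y1 ≤ 1048576 ∧ (1048576 - c) * 1099511627776 ≤ x1 * x1 * (1048576 + c) ∧
      (1048576 - d) * 1099511627776 ≤ y1 * y1 * (1048576 + d) ∧
      4 * r0 * 1048576 + (1048576 + d) * mp ≤ (1048576 + d) * (1048576 + mn) ∧
      4 * 1152921504606846976 + r1 * (1048576 + c) * up ≤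
        r1 * (1048576 + c) * (1048576 + un) := by
  unfold box at h
  obtain ⟨h1, h⟩ := cond_f h
  obtain ⟨h2, h⟩ := cond_f h
  obtain ⟨h3, h⟩ := cond_f h
  obtain ⟨h4, h⟩ := cond_f h
  obtain ⟨h5, h6⟩ := cond_f h
  exact ⟨ble_true h1, ble_true h2, ble_true h3, ble_true h4, ble_true h5, ble_true h6⟩

private theorem R_zero_mul (x : ℝ) : R 0 * x = 0 := by simp [R]

theorem faceH_of {n x1 y1 r0 r1 : ℕ} (hb : box c mp mn d up un x1 y1 r0 r1 = true)
    (h : chk (leafH c mp mn lp ln d up un kp kn) n 0 x1 0 y1 r0 r1 = true) :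
    FaceH ⟨c, mp, mn, lp, ln⟩ ⟨d, up, un, kp, kn⟩ := by
  intro a b C1 S1 C2 S2 H K ho
  have H : Pt c mp mn lp ln a C1 S1 := H
  have K : Pt d up un kp kn b C2 S2 := K
  obtain ⟨h1, h2, h3, h4, h5, h6⟩ := box_split hb
  obtain ⟨g1, g2⟩ := ratio H K h5 h6
  exact chk_sound (leafH_ok H ho K) H.C0 K.C0 n h h1 h2 (by rw [R_zero_mul]; exact H.s)
    (H.half h3) (by rw [R_zero_mul]; exact K.s) (K.half h4) g1 g2

theorem faceV_of {n x1 y1 r0 r1 : ℕ} (hb : box c mp mn d up un x1 y1 r0 r1 = true)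
    (hln : Nat.ble 1048576 ln = false)
    (h : chk (leafV c lp ln d up un kp kn) n 0 x1 0 y1 r0 r1 = true) :
    FaceV ⟨c, mp, mn, lp, ln⟩ ⟨d, up, un, kp, kn⟩ := by
  intro a b C1 S1 C2 S2 H K ho
  have H : Pt c mp mn lp ln a C1 S1 := H
  have K : Pt d up un kp kn b C2 S2 := K
  obtain ⟨h1, h2, h3, h4, h5, h6⟩ := box_split hb
  obtain ⟨g1, g2⟩ := ratio H K h5 h6
  exact chk_sound (leafV_ok H (ble_false hln) ho K) H.C0 K.C0 n h h1 h2
    (by rw [R_zero_mul]; exact H.s) (H.half h3) (by rw [R_zero_mul]; exact K.s) (K.half h4) g1 g2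

end

end Pool.Agent.S3.Ck
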