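import Pool.Agent.S3.Ck.SoundF
import Pool.Agent.S3.W2.Pair2

/-!
# From the regions to the pairs of points of the contours
-/

set_option autoImplicit false

namespace Pool.Agent.S3.Ck

open Complex

/-! ### Taylor bounds -/

private theorem vd_exp (t : ℝ) (ht : |t| ≤ 1) :
    ‖cexp ((t : ℂ) * I) - ∑ m ∈ Finset.range 12, ((t : ℂ) * I) ^ m / (m.factorial : ℂ)‖ ≤
      1 / 100000000 := by
  have h1 : ‖(t : ℂ) * I‖ ≤ 1 := by
    rw [norm_mul, norm_I, mul_one, norm_real]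
    exact ht
  have h2 := Complex.exp_bound h1 (n := 12) (by norm_num)
  refine h2.trans ?_
  have h3 : ‖(t : ℂ) * I‖ ^ 12 ≤ 1 := pow_le_one₀ (norm_nonneg _) h1
  have h4 : ((Nat.succ 12 : ℕ) : ℝ) * ((Nat.factorial 12 : ℝ) * ((12 : ℕ) : ℝ))⁻¹ ≤ 1 / 100000000 := by
    norm_num [Nat.factorial]
  have h5 : (0 : ℝ) ≤ ((Nat.succ 12 : ℕ) : ℝ) * ((Nat.factorial 12 : ℝ) * ((12 : ℕ) : ℝ))⁻¹ := by
    positivity
  calc _ ≤ 1 * (((Nat.succ 12 : ℕ) : ℝ) * ((Nat.factorial 12 : ℝ) * ((12 : ℕ) : ℝ))⁻¹) :=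
        mul_le_mul_of_nonneg_right h3 h5
    _ ≤ _ := by rw [one_mul]; exact h4

/-- The Taylor polynomial of the sine. -/
noncomputable def sP (t : ℝ) : ℝ :=
  t - t ^ 3 / 6 + t ^ 5 / 120 - t ^ 7 / 5040 + t ^ 9 / 362880 - t ^ 11 / 39916800

theorem sin_sP {t : ℝ} (ht : |t| ≤ 1) : |Real.sin t - sP t| ≤ 1 / 100000000 := by
  have h1 := vd_exp t ht
  have h2 := (abs_im_le_norm _).trans h1
  have e1 : (cexp ((t : ℂ) * I) - ∑ m ∈ Finset.range 12, ((t : ℂ) * I) ^ m /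
      (m.factorial : ℂ)).im = Real.sin t - sP t := by
    rw [sub_im, exp_ofReal_mul_I_im]
    congr 1
    have e2 : ∑ m ∈ Finset.range 12, ((t : ℂ) * I) ^ m / (m.factorial : ℂ) =
        ((1 - t ^ 2 / 2 + t ^ 4 / 24 - t ^ 6 / 720 + t ^ 8 / 40320 - t ^ 10 / 3628800 : ℝ) : ℂ) +
          ((sP t : ℝ) : ℂ) * I := by
      simp only [Finset.sum_range_succ, Finset.sum_range_zero, mul_pow, Nat.factorial]
      have i2 : I ^ 2 = -1 := I_sq
      have i3 : I ^ 3 = -I := by rw [pow_succ, i2]; ring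
      have i4 : I ^ 4 = 1 := by rw [pow_succ, i3]; ring_nf; rw [i2]; ring
      have i5 : I ^ 5 = I := by rw [pow_succ, i4]; ring
      have i6 : I ^ 6 = -1 := by rw [pow_succ, i5]; ring_nf; rw [i2]
      have i7 : I ^ 7 = -I := by rw [pow_succ, i6]; ring
      have i8 : I ^ 8 = 1 := by rw [pow_succ, i7]; ring_nf; rw [i2]; ring
      have i9 : I ^ 9 = I := by rw [pow_succ, i8]; ring
      have i10 : I ^ 10 = -1 := by rw [pow_succ, i9]; ring_nf; rw [i2]
      have i11 : I ^ 11 = -I := by rw [pow_succ, i10]; ring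
      rw [i2, i3, i4, i5, i6, i7, i8, i9, i10, i11]
      unfold sP
      push_cast
      ring
    rw [e2, add_im, ofReal_im, zero_add, im_ofReal_mul, I_im, mul_one]
  rw [e1] at h2
  exact h2

theorem negcos_eq (a : ℝ) : -Real.cos (2 * (Real.pi * a)) =
    Real.sin (2 * Real.pi * (a - 1 / 4)) := by
  have e : 2 * (Real.pi * a) = 2 * Real.pi * (a - 1 / 4) + Real.pi / 2 := by ring
  rw [e, Real.cos_add_pi_div_two, neg_neg]

theorem negcos_le {a x m : ℝ} (ha : 0 ≤ a) (hx : 2 * Real.pi * (a - 1 / 4) ≤ x) (hx1 : |x| ≤ 1)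
    (hm : sP x + 1 / 100000000 ≤ m) : -Real.cos (2 * (Real.pi * a)) ≤ m := by
  rw [negcos_eq]
  have hpi := Real.pi_gt_three
  have h1 := (abs_le.mp (sin_sP hx1)).2
  have h2 : Real.sin (2 * Real.pi * (a - 1 / 4)) ≤ Real.sin x := by
    apply Real.sin_le_sin_of_le_of_le_pi_div_two _ _ hx
    · nlinarith only [ha, hpi]
    · have := (abs_le.mp hx1).2
      linarith
  linarith

theorem negcos_ge {a x m : ℝ} (ha : a ≤ 1 / 2) (hx : x ≤ 2 * Real.pi * (a - 1 / 4)) (hx1 : |x| ≤ 1)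
    (hm : m ≤ sP x - 1 / 100000000) : m ≤ -Real.cos (2 * (Real.pi * a)) := by
  rw [negcos_eq]
  have hpi := Real.pi_gt_three
  have h1 := (abs_le.mp (sin_sP hx1)).1
  have h2 : Real.sin x ≤ Real.sin (2 * Real.pi * (a - 1 / 4)) := by
    apply Real.sin_le_sin_of_le_of_le_pi_div_two _ _ hx
    · have := (abs_le.mp hx1).1
      linarith
    · nlinarith only [ha, hpi]
  linarith

theorem negcos_mono {a b : ℝ} (ha : 0 ≤ a) (hab : a ≤ b) (hb : b ≤ 1 / 2) :
    -Real.cos (2 * (Real.pi * a)) ≤ -Real.cos (2 * (Real.pi * b)) := by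
  have hpi := Real.pi_pos
  rw [neg_le_neg_iff]
  apply Real.cos_le_cos_of_nonneg_of_le_pi (by positivity) (by nlinarith only [hb, hpi])
  have := mul_le_mul_of_nonneg_left hab hpi.le
  linarith

/-! ### The point `U = 1 / cos² π v` -/

/-- `|U|`, `|U - 1|` for `U = 1 / cos² π v`. -/
theorem U_norms {v : ℂ} (hc : 0 < Real.cos (Real.pi * v.re)) :
    0 < ‖1 / cos (Real.pi * v) ^ 2‖ ∧
    ‖1 / cos (Real.pi * v) ^ 2‖ * (Real.cos (Real.pi * v.re) ^ 2 +
      Real.sinh (Real.pi * v.im) ^ 2) = 1 ∧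
    ‖1 / cos (Real.pi * v) ^ 2 - 1‖ =
      1 - Real.cos (2 * (Real.pi * v.re)) * ‖1 / cos (Real.pi * v) ^ 2‖ := by
  have e : (Real.pi : ℂ) * v = ((Real.pi * v.re : ℝ) : ℂ) + ((Real.pi * v.im : ℝ) : ℂ) * I := by
    conv_lhs => rw [← re_add_im v]
    push_cast
    ring
  set x := Real.pi * v.re with hxdef
  set y := Real.pi * v.im with hydef
  have hch := Real.cosh_sq y
  have hsc := Real.sin_sq_add_cos_sq x
  have hne : cos (Real.pi * v) ≠ 0 := by
    rw [e, cos_add_mul_I]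
    intro h0
    have := congrArg Complex.re h0
    simp only [sub_re, mul_re, ← ofReal_cos, ← ofReal_sin, ← ofReal_cosh, ← ofReal_sinh, ofReal_re,
      ofReal_im, I_re, I_im, mul_zero, mul_one, sub_zero, zero_re, mul_im, add_zero, sub_self,
      zero_mul] at this
    have h2 := Real.cosh_pos y
    have : 0 < Real.cos x * Real.cosh y := by positivity
    linarith
  have n1 : ‖cos (Real.pi * v)‖ ^ 2 = Real.cos x ^ 2 + Real.sinh y ^ 2 := by
    rw [e, cos_add_mul_I, ← normSq_eq_norm_sq, normSq_apply]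
    simp only [sub_re, sub_im, mul_re, mul_im, ← ofReal_cos, ← ofReal_sin, ← ofReal_cosh,
      ← ofReal_sinh, ofReal_re, ofReal_im, I_re, I_im, mul_zero, mul_one, sub_zero, add_zero,
      zero_mul, zero_sub, zero_add, sub_self]
    nlinarith only [hch, hsc]
  have n2 : ‖sin (Real.pi * v)‖ ^ 2 = Real.sin x ^ 2 + Real.sinh y ^ 2 := by
    rw [e, sin_add_mul_I, ← normSq_eq_norm_sq, normSq_apply]
    simp only [add_re, add_im, mul_re, mul_im, ← ofReal_cos, ← ofReal_sin, ← ofReal_cosh,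
      ← ofReal_sinh, ofReal_re, ofReal_im, I_re, I_im, mul_zero, mul_one, sub_zero, add_zero,
      zero_mul, zero_add, sub_self]
    nlinarith only [hch, hsc]
  have hD : 0 < Real.cos x ^ 2 + Real.sinh y ^ 2 := by positivity
  have e1 : ‖1 / cos (Real.pi * v) ^ 2‖ = 1 / (Real.cos x ^ 2 + Real.sinh y ^ 2) := by
    rw [norm_div, norm_one, norm_pow, n1]
  have e2 : ‖1 / cos (Real.pi * v) ^ 2 - 1‖ =
      (Real.sin x ^ 2 + Real.sinh y ^ 2) / (Real.cos x ^ 2 + Real.sinh y ^ 2) := by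
    have h2 : cos (Real.pi * v) ^ 2 ≠ 0 := pow_ne_zero 2 hne
    have h3 : 1 / cos (Real.pi * v) ^ 2 - 1 = sin (Real.pi * v) ^ 2 / cos (Real.pi * v) ^ 2 := by
      have h4 := sin_sq_add_cos_sq (Real.pi * v)
      have h5 : sin (Real.pi * v) ^ 2 = 1 - cos (Real.pi * v) ^ 2 := by linear_combination h4
      rw [h5, sub_div, div_self h2]
    rw [h3, norm_div, norm_pow, norm_pow, n1, n2]
  refine ⟨by rw [e1]; positivity, ?_, ?_⟩
  · rw [e1]
    field_simp
  · rw [e1, e2, Real.cos_two_mul]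
    field_simp
    linarith

/-- The imaginary part of `U`. -/
theorem U_im {v : ℂ} (h0 : 0 ≤ v.re) (h1 : v.re ≤ 1 / 2) (h2 : 0 ≤ v.im) :
    0 ≤ (1 / cos (Real.pi * v) ^ 2).im := by
  have hpi := Real.pi_pos
  have e : (Real.pi : ℂ) * v = ((Real.pi * v.re : ℝ) : ℂ) + ((Real.pi * v.im : ℝ) : ℂ) * I := by
    conv_lhs => rw [← re_add_im v]
    push_cast
    ring
  have e1 : (1 / cos (Real.pi * v) ^ 2).im = -(cos (Real.pi * v) ^ 2).im /
      normSq (cos (Real.pi * v) ^ 2) := by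
    rw [one_div, inv_im]
  rw [e1]
  apply div_nonneg _ (normSq_nonneg _)
  have e2 : (cos (Real.pi * v) ^ 2).im = -2 * ((Real.cos (Real.pi * v.re) *
      Real.cosh (Real.pi * v.im)) * (Real.sin (Real.pi * v.re) * Real.sinh (Real.pi * v.im))) := by
    rw [e, cos_add_mul_I, pow_two]
    simp only [sub_re, sub_im, mul_re, mul_im, ← ofReal_cos, ← ofReal_sin, ← ofReal_cosh,
      ← ofReal_sinh, ofReal_re, ofReal_im, I_re, I_im, mul_zero, mul_one, sub_zero, add_zero,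
      zero_mul, zero_sub, zero_add, sub_self]
    ring
  rw [e2]
  have c1 : 0 ≤ Real.cos (Real.pi * v.re) :=
    Real.cos_nonneg_of_mem_Icc ⟨by nlinarith only [h0, hpi], by nlinarith only [h1, hpi]⟩
  have c2 := (Real.cosh_pos (Real.pi * v.im)).le
  have c3 : 0 ≤ Real.sin (Real.pi * v.re) :=
    Real.sin_nonneg_of_nonneg_of_le_pi (by positivity) (by nlinarith only [h1, hpi])
  have c4 : 0 ≤ Real.sinh (Real.pi * v.im) := Real.sinh_nonneg_iff.mpr (by positivity)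
  have : 0 ≤ (Real.cos (Real.pi * v.re) * Real.cosh (Real.pi * v.im)) *
      (Real.sin (Real.pi * v.re) * Real.sinh (Real.pi * v.im)) := by positivity
  linarith

/-- Admissible data. -/
def PD.Ok (p : PD) : Bool :=
  cond (Nat.ble 1048576 p.c) false (cond (Nat.ble 1048576 p.mp) false
    (cond (Nat.ble 1048576 p.mn) false (cond (Nat.ble 1048576 p.lp) false
      (cond (Nat.ble p.ln 1048576) (cond (Nat.ble (p.mp * p.mn + p.lp * p.ln) 0) true false)
        false))))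

private theorem cond_n {b x : Bool} (h : cond b false x = true) : b = false ∧ x = true := by
  cases b <;> simp_all

theorem PD.ok_spec {p : PD} (h : p.Ok = true) : p.c < 1048576 ∧ p.mp < 1048576 ∧
    p.mn < 1048576 ∧ p.lp < 1048576 ∧ p.ln ≤ 1048576 ∧ (p.mp = 0 ∨ p.mn = 0) ∧
    (p.lp = 0 ∨ p.ln = 0) := by
  unfold PD.Ok at h
  obtain ⟨h1, h⟩ := cond_n h
  obtain ⟨h2, h⟩ := cond_n h
  obtain ⟨h3, h⟩ := cond_n h
  obtain ⟨h4, h⟩ := cond_n h
  obtain ⟨h5, h⟩ := cond_f h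
  obtain ⟨h6, -⟩ := cond_f h
  have h7 := ble_true h6
  refine ⟨ble_false h1, ble_false h2, ble_false h3, ble_false h4, ble_true h5, ?_, ?_⟩
  · have : p.mp * p.mn = 0 := by omega
    exact Nat.mul_eq_zero.mp this
  · have : p.lp * p.ln = 0 := by omega
    exact Nat.mul_eq_zero.mp this

/-- The data of a vertex: `tan² θ ≤ T`, the abscissa between the two verticals. -/
structure VD (p : PD) (T l a : ℝ) : Prop where
  ok : p.Ok = true
  T0 : 0 ≤ T
  hc : R p.c * (1 + T) ≤ 1 - T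
  hm : -Real.cos (2 * (Real.pi * a)) ≤ R p.mp - R p.mn
  hl : p.ln = 1048576 ∨ R p.lp - R p.ln ≤ -Real.cos (2 * (Real.pi * l))


theorem VD.pt {p : PD} {T l a θ : ℝ} (h : VD p T l a) {v : ℂ} (hv : T2.Und θ v)
    (hT : Real.tan θ ^ 2 ≤ T) (ha : v.re ≤ a) (ha' : a ≤ 1 / 2) (hl : l ≤ v.re) (hl' : 0 ≤ l) :
    p.P ‖1 / cos (Real.pi * v) ^ 2‖ ((1 / cos (Real.pi * v) ^ 2).re / ‖1 / cos (Real.pi * v) ^ 2‖)
      ((1 / cos (Real.pi * v) ^ 2).im / ‖1 / cos (Real.pi * v) ^ 2‖) := by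
  have hpi := Real.pi_pos
  obtain ⟨k1, k2, k3, k4, k5, k6, k7⟩ := PD.ok_spec h.ok
  have hre := hv.re0
  have hre1 := hv.re1
  have hcos : 0 < Real.cos (Real.pi * v.re) :=
    Real.cos_pos_of_mem_Ioo ⟨by nlinarith only [hl, hl', hpi], by nlinarith only [hpi, hre1]⟩
  obtain ⟨n0, n1, n2⟩ := U_norms hcos
  have him := U_im hre (by linarith) hv.im0
  set U : ℂ := 1 / cos (Real.pi * v) ^ 2 with hU
  set m0 := -Real.cos (2 * (Real.pi * v.re)) with hm0
  have n2' : ‖U - 1‖ = 1 + m0 * ‖U‖ := by rw [n2, hm0]; ring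
  have nsq : ‖U‖ ^ 2 = U.re ^ 2 + U.im ^ 2 := by
    rw [← normSq_eq_norm_sq, normSq_apply]; ring
  have nsq1 : ‖U - 1‖ ^ 2 = ‖U‖ ^ 2 - 2 * U.re + 1 := by
    rw [nsq, ← normSq_eq_norm_sq, normSq_apply]
    simp only [sub_re, sub_im, one_re, one_im, sub_zero]
    ring
  have hm1 : m0 ≤ -Real.cos (2 * (Real.pi * a)) := negcos_mono hre ha ha'
  have hml : -Real.cos (2 * (Real.pi * l)) ≤ m0 := negcos_mono hl' hl (by linarith)
  have hm01 : m0 ≤ 1 := by
    rw [hm0]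
    linarith [Real.neg_one_le_cos (2 * (Real.pi * v.re))]
  have hm02 : -1 ≤ m0 := by
    rw [hm0]
    linarith [Real.cos_le_one (2 * (Real.pi * v.re))]
  -- the exact identity of the vertical through `v`
  have ex : ‖U‖ * (1 - m0 ^ 2) = 2 * (U.re / ‖U‖ + m0) := by
    have h1 : ‖U‖ ^ 2 - 2 * U.re + 1 = (1 + m0 * ‖U‖) ^ 2 := by rw [← nsq1, n2']
    have h2 : ‖U‖ * (‖U‖ * (1 - m0 ^ 2) - 2 * (U.re / ‖U‖ + m0)) = 0 := by
      have h3 : ‖U‖ * (U.re / ‖U‖) = U.re := by field_simp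
      linear_combination h1 - 2 * h3
    rcases mul_eq_zero.mp h2 with h4 | h4
    · exact absurd h4 n0.ne'
    · linarith
  have hC1 : U.re / ‖U‖ ≤ 1 := by
    rw [div_le_one n0]
    exact re_le_norm U
  -- other verticals
  have mono : ∀ m : ℝ, -1 ≤ m → m ≤ 1 → m0 ≤ m → ‖U‖ * (1 - m ^ 2) ≤ 2 * (U.re / ‖U‖ + m) := by
    intro m hm2 hm3 hm4
    -- `2 (m - m0) - ‖U‖ (m0² - m²) = (m - m0) (2 + ‖U‖ (m + m0))`
    have h1 : 0 ≤ 2 + ‖U‖ * (m + m0) := by
      have h2 : 0 ≤ 1 + m0 * ‖U‖ := by rw [← n2']; exact norm_nonneg _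
      nlinarith only [n0, hm4, h2]
    have h3 : 0 ≤ (m - m0) * (2 + ‖U‖ * (m + m0)) := mul_nonneg (by linarith) h1
    linarith only [ex, h3]
  have mono' : ∀ m : ℝ, -1 ≤ m → m ≤ m0 → 2 * (U.re / ‖U‖ + m) ≤ ‖U‖ * (1 - m ^ 2) := by
    intro m hm2 hm4
    rcases le_total 0 (2 + ‖U‖ * (m + m0)) with h1 | h1
    · have h3 : 0 ≤ (m0 - m) * (2 + ‖U‖ * (m + m0)) := mul_nonneg (by linarith) h1
      linarith only [ex, h3]
    · -- then `m < 0`, `‖U‖ > 1 / |m|`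
      have h2 : 0 ≤ 1 + m0 * ‖U‖ := by rw [← n2']; exact norm_nonneg _
      have h4 : 1 + m * ‖U‖ ≤ 0 := by linarith only [h1, h2]
      have h5 : 0 ≤ 1 + m := by linarith
      have h6 : 2 * (1 + m) ≤ ‖U‖ * (1 - m ^ 2) := by
        have h7 : 2 ≤ ‖U‖ * (1 - m) := by nlinarith only [n0, h4, h5]
        have h8 := mul_le_mul_of_nonneg_right h7 h5
        linarith only [h8]
      linarith
  have rp0 := R_nonneg p.mp
  have rn0 := R_nonneg p.mn
  have rp1 := R_lt1 k2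
  have rn1 := R_lt1 k3
  have sp0 := R_nonneg p.lp
  have sn0 := R_nonneg p.ln
  have sp1 := R_lt1 k4
  have sn1 : R p.ln ≤ 1 := by rw [← R_one]; exact R_le k5
  refine ⟨n0, ?_, div_nonneg him n0.le, ?_, ?_, ?_, k1, k2, k3, k4, k5, k6, k7⟩
  · rw [div_pow, div_pow, ← add_div, ← nsq, div_self (pow_ne_zero 2 n0.ne')]
  · -- hyperbola
    have hs : Real.sinh (Real.pi * v.im) ^ 2 ≤ T * Real.cos (Real.pi * v.re) ^ 2 := by
      have h1 : Real.sinh (Real.pi * v.im) ≤ Real.tan θ * Real.cos (Real.pi * v.re) := by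
        rw [← sinh_pi_bl]
        exact Real.sinh_le_sinh.2 (mul_le_mul_of_nonneg_left hv.im1 Real.pi_pos.le)
      have h0 : 0 ≤ Real.sinh (Real.pi * v.im) :=
        Real.sinh_nonneg_iff.2 (mul_nonneg Real.pi_pos.le hv.im0)
      have h2 := pow_le_pow_left₀ h0 h1 2
      rw [mul_pow] at h2
      exact h2.trans (mul_le_mul_of_nonneg_right hT (sq_nonneg _))
    have h2 : Real.cos (2 * (Real.pi * v.re)) = 2 * Real.cos (Real.pi * v.re) ^ 2 - 1 :=
      Real.cos_two_mul _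
    have hT0 := h.T0
    have hT1 : T ≤ 1 := by
      have := h.hc
      have := R_nonneg p.c
      nlinarith
    -- `(1 - T) ≤ (1 + T) (|U| - |U - 1|)`
    have h3 : (1 - T) ≤ (1 + T) * (‖U‖ - ‖U - 1‖) := by
      rw [n2', hm0, h2]
      -- `|U| - |U-1| = 2 cos² |U| - 1`
      have h4 : 1 ≤ ‖U‖ * ((1 + T) * Real.cos (Real.pi * v.re) ^ 2) := by
        have h5 : ‖U‖ * (Real.cos (Real.pi * v.re) ^ 2 + Real.sinh (Real.pi * v.im) ^ 2) ≤
            ‖U‖ * ((1 + T) * Real.cos (Real.pi * v.re) ^ 2) :=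
          mul_le_mul_of_nonneg_left (by linarith) n0.le
        linarith
      linarith only [h4]
    have h5 : R p.c ≤ ‖U‖ - ‖U - 1‖ := by
      have h6 := h.hc
      have h7 : R p.c * (1 + T) ≤ (‖U‖ - ‖U - 1‖) * (1 + T) := by linarith
      exact le_of_mul_le_mul_right h7 (by linarith)
    have h6 : ‖U - 1‖ ^ 2 ≤ (‖U‖ - R p.c) ^ 2 := pow_le_pow_left₀ (norm_nonneg _) (by linarith) 2
    rw [nsq1] at h6
    have h7 : ‖U‖ * (U.re / ‖U‖) = U.re := by field_simp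
    linarith only [h6, h7]
  · exact mono _ (by linarith) (by linarith) (hm1.trans h.hm)
  · rcases h.hl with h1 | h1
    · have h2 : p.lp = 0 := by
        rcases k7 with h3 | h3
        · exact h3
        · omega
      rw [h1, h2, R_one]
      have e0 : R 0 = 0 := by simp [R]
      rw [e0]
      norm_num
      linarith
    · exact mono' _ (by linarith) (h1.trans hml)


/-- The real part of `U`. -/
theorem Und.U_re {θ : ℝ} {v : ℂ} (hv : T2.Und θ v) (hT : Real.tan θ ^ 2 < 1) :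
    1 / 2 < (1 / cos (Real.pi * v) ^ 2).re := by
  have hpi := Real.pi_pos
  have hre := hv.re0
  have hre1 := hv.re1
  have hcos : 0 < Real.cos (Real.pi * v.re) :=
    Real.cos_pos_of_mem_Ioo ⟨by nlinarith only [hpi, hre], by nlinarith only [hpi, hre1]⟩
  obtain ⟨n0, n1, n2⟩ := U_norms hcos
  set U : ℂ := 1 / cos (Real.pi * v) ^ 2 with hU
  have h1 : Real.sinh (Real.pi * v.im) ≤ Real.tan θ * Real.cos (Real.pi * v.re) := by
    rw [← sinh_pi_bl]
    exact Real.sinh_le_sinh.2 (mul_le_mul_of_nonneg_left hv.im1 Real.pi_pos.le)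
  have h0 : 0 ≤ Real.sinh (Real.pi * v.im) :=
    Real.sinh_nonneg_iff.2 (mul_nonneg Real.pi_pos.le hv.im0)
  have h2 := pow_le_pow_left₀ h0 h1 2
  rw [mul_pow] at h2
  have hs : Real.sinh (Real.pi * v.im) ^ 2 < Real.cos (Real.pi * v.re) ^ 2 := by
    have : 0 < Real.cos (Real.pi * v.re) ^ 2 := by positivity
    nlinarith only [hT, h2, this]
  have h3 : Real.cos (2 * (Real.pi * v.re)) = 2 * Real.cos (Real.pi * v.re) ^ 2 - 1 :=
    Real.cos_two_mul _
  have h4 : ‖U - 1‖ < ‖U‖ := by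
    rw [n2, h3]
    nlinarith only [n1, hs]
  have h5 := pow_lt_pow_left₀ h4 (norm_nonneg _) two_ne_zero
  rw [← normSq_eq_norm_sq, ← normSq_eq_norm_sq, normSq_apply, normSq_apply] at h5
  simp only [sub_re, sub_im, one_re, one_im, sub_zero] at h5
  linarith only [h5]


/-- **The criterion at a pair.** -/
theorem Rgn.flatM {p q : PD} (hr : Rgn p q) {T T' l l' a a' θ θ' : ℝ} {v w : ℂ}
    (hp : VD p T l a) (hq : VD q T' l' a') (h : T2.Pr θ θ' v w) (hT : Real.tan θ ^ 2 ≤ T)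
    (hT' : Real.tan θ' ^ 2 ≤ T') (t1 : Real.tan θ ^ 2 < 1) (t2 : Real.tan θ' ^ 2 < 1)
    (h1 : l ≤ v.re) (h2 : v.re ≤ a) (h3 : l' ≤ w.re) (h4 : w.re ≤ a') (hl : 0 ≤ l)
    (hl' : 0 ≤ l') (ha : a ≤ 1 / 2) (ha' : a' ≤ 1 / 2) :
    FlatM (1 / cos (Real.pi * v) ^ 2) (1 / cos (Real.pi * (starRingEnd ℂ) w) ^ 2) := by
  have c1 := hr (hp.pt h.hv hT h2 ha h1 hl) (hq.pt h.hw hT' h4 ha' h3 hl')
  have e : (1 / cos (Real.pi * (starRingEnd ℂ) w) ^ 2) =
      (starRingEnd ℂ) (1 / cos (Real.pi * w) ^ 2) := by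
    rw [map_div₀, map_one, map_pow, ← cos_conj, map_mul, conj_ofReal]
  have k1 := Und.U_re h.hv t1
  have k2 := Und.U_re h.hw t2
  set U := 1 / cos (Real.pi * v) ^ 2 with hU
  set V := 1 / cos (Real.pi * w) ^ 2 with hV
  have u0 : U ≠ 0 := by
    intro h0
    rw [h0, zero_re] at k1
    norm_num at k1
  have v0 : V ≠ 0 := by
    intro h0
    rw [h0, zero_re] at k2
    norm_num at k2
  rw [← pU_conj, pU_self u0, pU_self v0] at c1
  rw [e]
  exact c1.flatM k1 (by rw [conj_re]; exact k2)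

end Pool.Agent.S3.Ck
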